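import Pool.Agent.MP_20bec2_an.Pl.La

-- ======== part 0: formerly Pool.Agent.MP_20bec2_an.Pl.SwitchA
section MrgPart0

set_option autoImplicit false
open MeasureTheory Set Complex

namespace Pool.Agent.MP_20bec2_an.Pl
noncomputable section
namespace Switch

/-! ### real inequalities -/

lemma mul_near {x y x0 y0 a b A B : ℝ} (h1 : |x - x0| ≤ a) (h2 : |y - y0| ≤ b) (hy : |y| ≤ A)
    (hx : |x0| ≤ B) : |x * y - x0 * y0| ≤ a * A + B * b := by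
  rw [show x * y - x0 * y0 = (x - x0) * y + x0 * (y - y0) by ring]
  refine (abs_add_le _ _).trans (add_le_add ?_ ?_) <;> rw [abs_mul]
  · exact mul_le_mul h1 hy (abs_nonneg _) ((abs_nonneg _).trans h1)
  · exact mul_le_mul hx h2 (abs_nonneg _) ((abs_nonneg _).trans hx)

lemma prod5 {u0 u1 u2 u3 u4 α β e : ℝ} (h0 : |u0 - 1| ≤ e) (h1 : |u1 - (1 + α)| ≤ e)
    (h2 : |u2 - 1| ≤ e) (h3 : |u3 - 1| ≤ e) (h4 : |u4 - (1 + β)| ≤ e) (ha : |α| ≤ 1 / 2)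
    (hb : |β| ≤ 1 / 2) (hab : |α * β| ≤ e) (he : e ≤ 1 / 10) :
    |u0 * u1 * u2 * u3 * u4 - (1 + α + β)| ≤ 21 * e := by
  have a1 := abs_le.mp h1
  have a2 := abs_le.mp h2
  have a3 := abs_le.mp h3
  have a4 := abs_le.mp h4
  have aa := abs_le.mp ha
  have ab := abs_le.mp hb
  have b1 : |u1| ≤ 2 := abs_le.mpr ⟨by linarith, by linarith⟩
  have b4 : |u4| ≤ 2 := abs_le.mpr ⟨by linarith, by linarith⟩
  have s1 := mul_near h0 h2 (A := 11 / 10) (B := 1) (abs_le.mpr ⟨by linarith, by linarith⟩) (by simp)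
  have s2 := mul_near s1 h3 (A := 11 / 10) (B := 1) (abs_le.mpr ⟨by linarith, by linarith⟩) (by simp)
  have s3 := mul_near h1 h4 b4 (B := 2) (abs_le.mpr ⟨by linarith, by linarith⟩)
  have s4 := mul_near s2 s3 (A := 2 * 2) (B := 1)
    (by rw [abs_mul]; exact mul_le_mul b1 b4 (abs_nonneg _) (by norm_num)) (by simp)
  have c4 := abs_le.mp s4
  have c5 := abs_le.mp hab
  rw [abs_le]
  constructor <;> linarith

lemma up {x y e : ℝ} (h : x ≤ y + e) (hy : 1 / 2 ≤ y) (he : 0 ≤ e) : x ≤ y * (1 + 2 * e) := by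
  nlinarith

lemma pow5 {e : ℝ} (he : 0 ≤ e) (he' : e ≤ 1 / 10) : (1 + 2 * e) ^ 5 ≤ 1 + 20 * e := by
  have e2 : e ^ 2 ≤ e / 10 := by nlinarith
  have e3 : e ^ 3 ≤ e / 10 := (pow_le_pow_of_le_one he (by linarith) (by norm_num)).trans e2
  have e4 : e ^ 4 ≤ e / 10 := (pow_le_pow_of_le_one he (by linarith) (by norm_num)).trans e2
  have e5 : e ^ 5 ≤ e / 10 := (pow_le_pow_of_le_one he (by linarith) (by norm_num)).trans e2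
  have e6 : e ^ 3 ≤ e / 100 := by nlinarith [mul_le_mul_of_nonneg_left e2 he]
  have e7 : e ^ 4 ≤ e / 100 := (pow_le_pow_of_le_one he (by linarith) (by norm_num)).trans e6
  linarith

lemma pow4 {s : ℝ} (s0 : 0 ≤ s) (s1 : s ≤ 1) : (1 + s) ^ 4 ≤ 1 + 15 * s := by
  have e2 : s ^ 2 ≤ s ^ 1 := pow_le_pow_of_le_one s0 s1 (by norm_num)
  have e3 : s ^ 3 ≤ s ^ 1 := pow_le_pow_of_le_one s0 s1 (by norm_num)
  have e4 : s ^ 4 ≤ s ^ 1 := pow_le_pow_of_le_one s0 s1 (by norm_num)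
  linarith

lemma ratio5 {ρ ρ' Δ Δ' ν ν' u u' v v' e : ℝ} (he : 0 ≤ e) (he' : e ≤ 1 / 10) (p1 : 1 / 2 ≤ ρ')
    (p2 : 1 / 2 ≤ Δ) (p2' : 1 / 2 ≤ Δ') (p3 : 0 ≤ ν) (p3' : 1 / 2 ≤ ν') (p4 : 0 ≤ u)
    (p4' : 1 / 2 ≤ u') (p5 : 0 ≤ v) (p5' : 1 / 2 ≤ v') (h1 : ρ ≤ ρ' + e) (h2 : Δ' ≤ Δ + e)
    (h3 : ν ≤ ν' + e) (h4 : u ≤ u' + e) (h5 : v ≤ v' + e) :
    ρ / Δ * ν * u * v ≤ (1 + 20 * e) * (ρ' / Δ' * ν' * u' * v') := by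
  have k1 := up h1 p1 he
  have k2 := up h2 p2 he
  have k3 := up h3 p3' he
  have k4 := up h4 p4' he
  have k5 := up h5 p5' he
  have k6 : ρ / Δ ≤ ρ' / Δ' * (1 + 2 * e) ^ 2 := by
    rw [div_mul_eq_mul_div, div_le_div_iff₀ (by linarith) (by linarith)]
    calc ρ * Δ' ≤ ρ' * (1 + 2 * e) * Δ' := by gcongr
      _ ≤ ρ' * (1 + 2 * e) * (Δ * (1 + 2 * e)) := by gcongr
      _ = _ := by ring
  have k7 := pow5 he he'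
  have q1 : 0 ≤ ρ' / Δ' := by positivity
  calc ρ / Δ * ν * u * v ≤ ρ' / Δ' * (1 + 2 * e) ^ 2 * (ν' * (1 + 2 * e)) * (u' * (1 + 2 * e)) *
        (v' * (1 + 2 * e)) := by gcongr
    _ = (1 + 2 * e) ^ 5 * (ρ' / Δ' * ν' * u' * v') := by ring
    _ ≤ _ := by gcongr

lemma inv4 {ν l x : ℝ} (h : 4 / 5 * l ≤ ν) (hl : 0 < l) (hx : 0 ≤ x) :
    x / (2 * ν ^ 4) ≤ 5 / 4 * (x / l ^ 4) := by
  calc x / (2 * ν ^ 4) ≤ x / (2 * (4 / 5 * l) ^ 4) := by gcongr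
    _ = 625 / 512 * (x / l ^ 4) := by field_simp; ring
    _ ≤ _ := mul_le_mul_of_nonneg_right (by norm_num) (by positivity)

lemma sq_near {a a' Q δ : ℝ} (h : |a| ≤ Q) (h' : |a'| ≤ Q) (hd : |a - a'| ≤ δ) :
    a ^ 2 ≤ a' ^ 2 + 2 * (Q * δ) := by
  have := abs_le.mp (mul_near hd hd h h')
  nlinarith

lemma alpha_le {a ν Q l : ℝ} (h : |a| ≤ Q) (hν : 4 / 5 * l ≤ ν) (hl : 0 < l) :
    a ^ 2 / (2 * ν ^ 4) ≤ 5 / 4 * (Q ^ 2 / l ^ 4) := by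
  refine (inv4 hν hl (sq_nonneg a)).trans ?_
  have : a ^ 2 ≤ Q ^ 2 := sq_le_sq' (abs_le.mp h).1 (abs_le.mp h).2
  gcongr

lemma alpha_diff {a a' ν ν' Q δ s l : ℝ} (h : |a| ≤ Q) (h' : |a'| ≤ Q) (hd : |a - a'| ≤ δ)
    (hν : 4 / 5 * l ≤ ν) (hν' : 4 / 5 * l ≤ ν') (hl : 2 ≤ l) (hs : ν' ≤ ν + s) (s0 : 0 ≤ s)
    (s1 : s ≤ 1) (hQ : Q ^ 2 / l ^ 4 ≤ 1 / 10) :
    a ^ 2 / (2 * ν ^ 4) ≤ a' ^ 2 / (2 * ν' ^ 4) + 5 / 2 * (Q * δ / l ^ 4) + 2 * s := by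
  have Q0 : 0 ≤ Q := (abs_nonneg _).trans h
  have d0 : 0 ≤ δ := (abs_nonneg _).trans hd
  have n0 : 0 < ν := by linarith
  have n0' : 0 < ν' := by linarith
  have k1 := inv4 hν (by linarith) (show 0 ≤ 2 * (Q * δ) by positivity)
  have k2 := alpha_le h' hν' (by linarith)
  have k3 : ν' ≤ ν * (1 + s) := by
    have := le_mul_of_one_le_left s0 (show 1 ≤ ν by linarith)
    linarith
  have k4 := pow4 s0 s1
  have k5 : a' ^ 2 / (2 * ν ^ 4) ≤ a' ^ 2 / (2 * ν' ^ 4) * (1 + 15 * s) := by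
    rw [div_mul_eq_mul_div, div_le_div_iff₀ (by positivity) (by positivity)]
    calc a' ^ 2 * (2 * ν' ^ 4) ≤ a' ^ 2 * (2 * (ν * (1 + s)) ^ 4) := by gcongr
      _ = a' ^ 2 * (1 + s) ^ 4 * (2 * ν ^ 4) := by ring
      _ ≤ _ := by gcongr
  have k6 : a ^ 2 / (2 * ν ^ 4) ≤ (a' ^ 2 + 2 * (Q * δ)) / (2 * ν ^ 4) := by
    gcongr; exact sq_near h h' hd
  rw [add_div] at k6
  rw [mul_div_assoc 2 _ (l ^ 4)] at k1
  have k7 := mul_le_mul_of_nonneg_right (show a' ^ 2 / (2 * ν' ^ 4) ≤ 1 / 8 by linarith) s0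
  linarith

lemma alpha_lo {a P ν Q τ l hi : ℝ} (h : |a| ≤ Q) (h' : |P| ≤ Q) (hd : |a - P| ≤ τ)
    (hν : 4 / 5 * l ≤ ν) (hν' : ν ≤ 6 / 5 * hi) (hl : 0 < l) :
    P ^ 2 / (32 * hi ^ 4) ≤ a ^ 2 / (2 * ν ^ 4) + 5 / 2 * (Q * τ / l ^ 4) ∧
      a ^ 2 / (2 * ν ^ 4) ≤ 5 / 4 * (P ^ 2 / l ^ 4) + 5 / 2 * (Q * τ / l ^ 4) := by
  have Q0 : 0 ≤ Q := (abs_nonneg _).trans h
  have d0 : 0 ≤ τ := (abs_nonneg _).trans hd
  have n0 : 0 < ν := by linarith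
  have k1 := inv4 hν hl (show 0 ≤ 2 * (Q * τ) by positivity)
  have k2 := inv4 hν hl (sq_nonneg P)
  have k3 : a ^ 2 / (2 * ν ^ 4) ≤ (P ^ 2 + 2 * (Q * τ)) / (2 * ν ^ 4) := by
    gcongr; exact sq_near h h' hd
  have k4 : P ^ 2 / (2 * ν ^ 4) ≤ (a ^ 2 + 2 * (Q * τ)) / (2 * ν ^ 4) := by
    gcongr; exact sq_near h' h (by rwa [abs_sub_comm])
  have k5 : P ^ 2 / (32 * hi ^ 4) ≤ P ^ 2 / (2 * ν ^ 4) := by
    have : ν ^ 4 ≤ (2 * hi) ^ 4 := by gcongr; linarith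
    exact div_le_div_of_nonneg_left (sq_nonneg P) (by positivity) (by linarith)
  rw [add_div] at k3 k4
  rw [mul_div_assoc 2 _ (l ^ 4)] at k1
  constructor <;> linarith

/-! ### the numerical parameters -/

structure Num (B c σ ε μ φ pb1 pb2 e1 e2 Q lo t oν : ℝ) : Prop where
  B1 : 1 ≤ B
  c1 : c ≤ 1
  κ : 10 ^ 6 * (B * σ) ≤ c
  sum : ε + μ + pb1 + pb2 + e1 + e2 + Q * φ + Q ^ 2 / lo ^ 4 + t + oν ≤ σ
  ε0 : 0 ≤ ε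
  μ0 : 0 ≤ μ
  φ0 : 0 ≤ φ
  a0 : 0 ≤ pb1
  b0 : 0 ≤ pb2
  e0 : 0 ≤ e1
  f0 : 0 ≤ e2
  Q1 : 1 ≤ Q
  lo2 : 2 ≤ lo
  t0 : 0 ≤ t
  o0 : 0 ≤ oν

variable {B c σ ε μ φ pb1 pb2 e1 e2 Q lo t oν : ℝ}

lemma Num.facts (N : Num B c σ ε μ φ pb1 pb2 e1 e2 Q lo t oν) :
    φ ≤ Q * φ ∧ 0 ≤ Q / lo ^ 4 ∧ Q / lo ^ 4 ≤ Q ^ 2 / lo ^ 4 ∧ σ ≤ B * σ ∧ 0 ≤ Q ^ 4 / lo ^ 8 ∧
      Q ^ 4 / lo ^ 8 = (Q ^ 2 / lo ^ 4) ^ 2 ∧ Q ^ 4 / lo ^ 8 ≤ Q ^ 2 / lo ^ 4 ∧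
      1 / (lo / 2) ^ 4 ≤ 16 * (Q / lo ^ 4) := by
  obtain ⟨B1, c1, κ, sum, ε0, μ0, φ0, a0, b0, e0, f0, Q1, lo2, t0, o0⟩ := N
  have l0 : 0 < lo := by linarith
  have h1 : φ ≤ Q * φ := le_mul_of_one_le_left φ0 Q1
  have h2 : 0 ≤ Q / lo ^ 4 := by positivity
  have h3 : Q / lo ^ 4 ≤ Q ^ 2 / lo ^ 4 := by gcongr; nlinarith
  have h4 : σ ≤ B * σ := le_mul_of_one_le_left (by linarith) B1
  have h5 : Q ^ 4 / lo ^ 8 = (Q ^ 2 / lo ^ 4) ^ 2 := by field_simp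
  refine ⟨h1, h2, h3, h4, by positivity, h5, ?_, ?_⟩
  · rw [h5]; nlinarith
  · calc 1 / (lo / 2) ^ 4 = 16 * (1 / lo ^ 4) := by field_simp; ring
      _ ≤ _ := by gcongr

lemma Num.norm (N : Num B c σ ε μ φ pb1 pb2 e1 e2 Q lo t oν) :
    ε ≤ 1 / 50 ∧ t ≤ 1 ∧ Q * φ ≤ 1 ∧ φ ≤ 1 / 10 ∧ Q ≤ lo ^ 2 ∧ μ ≤ 1 / 20 ∧
      μ + (pb1 + e1) + (pb2 + e2) ≤ 1 / 20 ∧ ε + μ + φ + pb1 + pb2 + e1 + e2 ≤ c := by
  obtain ⟨f1, f2, f3, f4, -⟩ := N.facts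
  obtain ⟨B1, c1, κ, sum, ε0, μ0, φ0, a0, b0, e0, f0, Q1, lo2, t0, o0⟩ := N
  have l0 : 0 < lo := by linarith
  have k : Q ^ 2 / lo ^ 4 ≤ 1 := by linarith
  rw [div_le_one (by positivity), show lo ^ 4 = (lo ^ 2) ^ 2 by ring] at k
  exact ⟨by linarith, by linarith, by linarith, by linarith,
    (abs_le_of_sq_le_sq' k (by positivity)).2, by linarith, by linarith, by linarith⟩

/-- the common error bound -/
def EE (B φ Q lo t : ℝ) : ℝ := φ / 1000 + 40 * (B * (Q / lo ^ 4 + t))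

lemma Num.small (N : Num B c σ ε μ φ pb1 pb2 e1 e2 Q lo t oν) :
    0 ≤ B * (Q / lo ^ 4 + t) ∧ B * (Q / lo ^ 4 + t) ≤ B * σ ∧ B * t ≤ B * (Q / lo ^ 4 + t) ∧
      0 ≤ EE B φ Q lo t ∧ EE B φ Q lo t ≤ 41 * (B * σ) ∧
      B * (σ * (φ / 8 + EE B φ Q lo t) + 16 * (Q / lo ^ 4)) ≤ EE B φ Q lo t ∧
      B * (σ * φ) ≤ φ / 10 ^ 6 := by
  obtain ⟨f1, f2, f3, f4, -⟩ := N.facts
  obtain ⟨B1, c1, κ, sum, ε0, μ0, φ0, a0, b0, e0, f0, Q1, lo2, t0, o0⟩ := N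
  have h1 : 0 ≤ B * (Q / lo ^ 4 + t) := by positivity
  have h2 : B * (Q / lo ^ 4 + t) ≤ B * σ := by gcongr; linarith
  have h3 : B * t ≤ B * (Q / lo ^ 4 + t) := by gcongr; linarith
  have h4 : B * (Q / lo ^ 4) ≤ B * (Q / lo ^ 4 + t) := by gcongr; linarith
  have h5 : 0 ≤ EE B φ Q lo t := by unfold EE; positivity
  have h6 : B * σ * (φ / 8 + EE B φ Q lo t) ≤ 1 / 10 ^ 6 * (φ / 8 + EE B φ Q lo t) := by
    gcongr; linarith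
  have h7 : B * σ * φ ≤ 1 / 10 ^ 6 * φ := by gcongr; linarith
  refine ⟨h1, h2, h3, h5, by unfold EE; linarith, ?_, by linarith⟩
  unfold EE at h6 ⊢
  linarith

lemma Num.nu (N : Num B c σ ε μ φ pb1 pb2 e1 e2 Q lo t oν) {τ : ℝ} (τ0 : 0 ≤ τ) (τQ : τ ≤ Q) :
    ∃ y : ℝ, 0 ≤ y ∧ y ≤ 1 / 10 ^ 5 ∧ B * (Q * φ + Q ^ 4 / lo ^ 8 + t) ≤ y ∧
      EE B φ Q lo t ≤ 41 * y ∧ B * t ≤ y ∧ t ≤ y ∧ Q * τ / lo ^ 4 ≤ y ∧
      Q ^ 2 / lo ^ 4 ≤ 1 / 10 ∧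
      10 ^ 5 * B * (Q * φ + Q * τ / lo ^ 4 + Q / lo ^ 4 + Q ^ 4 / lo ^ 8 + t) = 10 ^ 5 * y := by
  obtain ⟨f1, f2, f3, f4, f5, -, f7, -⟩ := N.facts
  obtain ⟨B1, c1, κ, sum, ε0, μ0, φ0, a0, b0, e0, f0, Q1, lo2, t0, o0⟩ := N
  have l0 : 0 < lo := by linarith only [lo2]
  have q1 : 0 ≤ Q * τ / lo ^ 4 := by positivity
  have q2 : Q * τ / lo ^ 4 ≤ Q ^ 2 / lo ^ 4 := by rw [sq]; gcongr
  unfold EE
  generalize Q * φ = x1, Q ^ 2 / lo ^ 4 = x2, Q / lo ^ 4 = x3, Q ^ 4 / lo ^ 8 = x4,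
    Q * τ / lo ^ 4 = x5 at *
  obtain ⟨ζ, hζ⟩ : ∃ ζ, ζ = x1 + x5 + x3 + x4 + t := ⟨_, rfl⟩
  have z1 : ζ ≤ B * ζ := le_mul_of_one_le_left (by linarith) B1
  have z2 : B * ζ ≤ B * (3 * σ) := by gcongr; linarith
  have z3 : B * (x1 + x4 + t) ≤ B * ζ := by gcongr; linarith
  have z4 : B * (x3 + t) ≤ B * ζ := by gcongr; linarith
  have z5 : B * t ≤ B * ζ := by gcongr; linarith
  exact ⟨B * ζ, by linarith, by linarith, z3, by linarith, z5, by linarith, by linarith,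
    by linarith, by rw [hζ, mul_assoc]⟩

lemma Num.band (N : Num B c σ ε μ φ pb1 pb2 e1 e2 Q lo t oν) {τ err : ℝ} (τ0 : 0 ≤ τ) (τQ : τ ≤ Q)
    (he : oν + Q * φ + Q / lo ^ 4 + t + Q * τ / lo ^ 4 + (Q ^ 2 / lo ^ 4 + pb2 ^ 2 + pb1) ^ 2 + e1 +
      (pb1 + pb2 + e2) * (μ + e2) ≤ err) :
    ∃ e : ℝ, e ≤ 1 / 10 ∧ oν ≤ e ∧ 6 * (B * (Q * φ + Q ^ 4 / lo ^ 8 + t)) ≤ e ∧
      EE B φ Q lo t ≤ e ∧ φ ≤ e ∧
      B * (e1 + (pb1 + pb2 + e2) * (μ + e2) + (pb2 ^ 2 + pb1) ^ 2) ≤ e ∧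
      Q ^ 2 / lo ^ 4 + pb1 + pb2 ≤ 1 / 10 ∧ (Q ^ 2 / lo ^ 4 + pb2 ^ 2 + pb1) ^ 2 ≤ e ∧
      5 / 2 * (Q * τ / lo ^ 4) ≤ e ∧ 22 * e ≤ 10 ^ 5 * B * err := by
  obtain ⟨f1, f2, f3, f4, f5, f6, f7, -⟩ := N.facts
  obtain ⟨B1, c1, κ, sum, ε0, μ0, φ0, a0, b0, e0, f0, Q1, lo2, t0, o0⟩ := N
  have l0 : 0 < lo := by linarith only [lo2]
  have q1 : 0 ≤ Q * τ / lo ^ 4 := by positivity
  have q2 : Q * τ / lo ^ 4 ≤ Q ^ 2 / lo ^ 4 := by rw [sq]; gcongr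
  unfold EE
  generalize Q * φ = x1, Q ^ 2 / lo ^ 4 = x2, Q / lo ^ 4 = x3, Q ^ 4 / lo ^ 8 = x4,
    Q * τ / lo ^ 4 = x5 at *
  have q3 : pb2 ^ 2 ≤ pb2 := by
    rw [sq]; exact mul_le_of_le_one_left b0 (by linarith)
  have q0 := sq_nonneg pb2
  generalize pb2 ^ 2 = x9 at *
  have x0 : 0 ≤ x2 := by linarith
  have q4 : x4 ≤ (x2 + x9 + pb1) ^ 2 := by rw [f6]; gcongr; linarith
  have q5 : (x9 + pb1) ^ 2 ≤ (x2 + x9 + pb1) ^ 2 := by gcongr; linarith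
  have q6 : (x2 + x9 + pb1) ^ 2 ≤ σ * 1 := by rw [sq]; gcongr <;> linarith
  have q7 : (pb1 + pb2 + e2) * (μ + e2) ≤ σ * 1 := by gcongr <;> linarith
  have q8 : 0 ≤ (pb1 + pb2 + e2) * (μ + e2) := by positivity
  clear f6
  generalize (x2 + x9 + pb1) ^ 2 = x6, (pb1 + pb2 + e2) * (μ + e2) = x7, (x9 + pb1) ^ 2 = x8 at *
  obtain ⟨ζ, hζ⟩ : ∃ ζ, ζ = oν + x1 + x3 + t + x5 + x6 + e1 + x7 := ⟨_, rfl⟩
  have z1 : ζ ≤ B * ζ := le_mul_of_one_le_left (by linarith) B1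
  have z2 : B * ζ ≤ B * (5 * σ) := by gcongr; linarith
  have z3 : B * (x1 + x4 + t) ≤ B * ζ := by gcongr; linarith
  have z4 : B * (x3 + t) ≤ B * ζ := by gcongr; linarith
  have z5 : B * (e1 + x7 + x8) ≤ B * ζ := by gcongr; linarith
  have z6 : B * ζ ≤ B * err := by gcongr; linarith
  exact ⟨41 * (B * ζ), by linarith, by linarith, by linarith, by linarith, by linarith,
    by linarith, by linarith, by linarith, by linarith, by linarith⟩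

/-! ### the linear algebra at one point -/

def LaVP (C c0 : ℝ) : Prop := ∀ (V U V' U' : ℂ) (a η lo φ Q : ℝ),
  wd V U = 1 → 1 ≤ lo → lo ≤ ‖V‖ → ‖U' - U‖ ≤ η → ‖V' - V - a • U‖ ≤ η →
  |ip V U / ‖V‖ ^ 2| ≤ φ → φ ≤ 1 → |a| ≤ Q → Q * φ + Q ^ 2 / lo ^ 4 + η ≤ c0 →
  |ip V' U' / ‖V'‖ ^ 2 - ip V U / ‖V‖ ^ 2| ≤ C * ((Q * φ + Q ^ 2 / lo ^ 4) * φ + Q / lo ^ 4 + η) ∧
    |‖V'‖ / ‖V‖ - (1 + a ^ 2 / (2 * ‖V‖ ^ 4))| ≤ C * (Q * φ + Q ^ 4 / lo ^ 8 + η)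

lemma stepV (N : Num B c σ ε μ φ pb1 pb2 e1 e2 Q lo t oν) {C c0 a j j' : ℝ} (H : LaVP C c0)
    (hB : C ≤ B) (hc : c ≤ c0) {V W A1 A2 : ℂ} (ej : wd V W = j)
    (hj : |j - 1| ≤ 3 * σ) (hj' : |j' - 1| ≤ 3 * σ) (hV : 4 / 5 * lo ≤ ‖V‖)
    (hU : ‖j'⁻¹ • A2 - j⁻¹ • W‖ ≤ t) (hA : ‖A1 - V - a • (j⁻¹ • W)‖ ≤ t)
    (hφ : |ip V W / ‖V‖ ^ 2| ≤ φ) (ha : |a| ≤ Q) :
    |ip A1 A2 / ‖A1‖ ^ 2 - ip V W / ‖V‖ ^ 2| ≤ EE B φ Q lo t ∧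
      |‖A1‖ / ‖V‖ - (1 + a ^ 2 / (2 * ‖V‖ ^ 4))| ≤ 6 * (B * (Q * φ + Q ^ 4 / lo ^ 8 + t)) := by
  obtain ⟨f1, f2, f3, f4, f5, -, f7, -⟩ := N.facts
  obtain ⟨g1, g2, g3, -, -, -, g7⟩ := N.small
  obtain ⟨B1, c1, κ, sum, ε0, μ0, φ0, a0, b0, e0, f0, Q1, lo2, t0, o0⟩ := N
  have l0 : 0 < lo := by linarith
  have j1 := abs_le.mp hj
  have j2 := abs_le.mp hj'
  have jp : 0 < j := by linarith
  have jp' : 0 < j' := by linarith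
  have i1 : Q ^ 2 / (4 / 5 * lo) ^ 4 = 625 / 256 * (Q ^ 2 / lo ^ 4) := by field_simp; ring
  have i2 : Q / (4 / 5 * lo) ^ 4 = 625 / 256 * (Q / lo ^ 4) := by field_simp; ring
  have i3 : Q ^ 4 / (4 / 5 * lo) ^ 8 = 390625 / 65536 * (Q ^ 4 / lo ^ 8) := by field_simp; ring
  have k1 : ip V W / ‖V‖ ^ 2 = j * (ip V (j⁻¹ • W) / ‖V‖ ^ 2) := by
    rw [ip_smul_right]; field_simp
  have k2 : ip A1 A2 / ‖A1‖ ^ 2 = j' * (ip A1 (j'⁻¹ • A2) / ‖A1‖ ^ 2) := by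
    rw [ip_smul_right]; field_simp
  have k3 : |ip V (j⁻¹ • W) / ‖V‖ ^ 2| ≤ 2 * φ := by
    rw [k1, abs_mul, abs_of_pos jp] at hφ
    have := mul_le_mul_of_nonneg_right (show 1 / 2 ≤ j by linarith)
      (abs_nonneg (ip V (j⁻¹ • W) / ‖V‖ ^ 2))
    linarith
  obtain ⟨r1, r2⟩ := H V (j⁻¹ • W) A1 (j'⁻¹ • A2) a t (4 / 5 * lo) (2 * φ) Q
    (by rw [wd_smul_right, ej, inv_mul_cancel₀ jp.ne']) (by linarith) hV hU hA k3 (by linarith) ha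
    (by rw [i1]; linarith)
  rw [i1, i2] at r1
  rw [i3] at r2
  constructor
  · have r3 : |ip A1 (j'⁻¹ • A2) / ‖A1‖ ^ 2 - ip V (j⁻¹ • W) / ‖V‖ ^ 2| ≤
        B * (3 * σ * (2 * φ) + 3 * (Q / lo ^ 4 + t)) := by
      refine r1.trans ?_
      rw [add_assoc]
      gcongr <;> linarith
    have r4 := mul_near r3 (show |j' - j| ≤ 6 * σ from abs_le.mpr ⟨by linarith, by linarith⟩)
      (show |j'| ≤ 2 from abs_le.mpr ⟨by linarith, by linarith⟩) k3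
    have r5 : σ * φ ≤ B * (σ * φ) := le_mul_of_one_le_left (mul_nonneg (by linarith) φ0) B1
    rw [k1, k2, mul_comm j, mul_comm j']
    unfold EE
    linarith
  · refine r2.trans ?_
    calc _ ≤ B * (6 * (Q * φ + Q ^ 4 / lo ^ 8 + t)) := by gcongr; linarith
      _ = _ := by ring

def LaSP (C c0 : ℝ) : Prop := ∀ (n Y1 Y2 Z1 Z2 A1 A2 : ℂ)
  (Φ φ μ Db lo ρ Δ q11 q21 : ℝ), ‖n‖ = 1 → ‖Y1 - n‖ ≤ μ → ‖Y2 - I * n‖ ≤ μ → ‖Z1 - n‖ ≤ μ →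
  ‖Z2 - I * n‖ ≤ μ → |Φ| ≤ φ → |ip A1 A2 / ‖A1‖ ^ 2 - Φ| ≤ Db → 1 ≤ lo → lo ≤ ‖A1‖ →
  |wd A1 A2| ≤ 2 → μ + φ + Db ≤ c0 → ρ = ‖Y2 - Φ • Y1‖ → Δ = wd Y1 Y2 → q11 = ρ / Δ →
  q21 = -ip Y1 (Y2 - Φ • Y1) / (ρ * Δ) →
  1 / 2 ≤ ρ ∧ ρ ≤ 2 ∧ 1 / 2 ≤ Δ ∧ Δ ≤ 2 ∧
    -I * (ρ⁻¹ • (Y2 - Φ • Y1)) = q11 • Y1 + q21 • (Y2 - Φ • Y1) ∧
    |ip (q11 • A1 + q21 • (A2 - Φ • A1)) (ρ⁻¹ • (A2 - Φ • A1)) /
      ‖q11 • A1 + q21 • (A2 - Φ • A1)‖ ^ 2 - (ip A1 A2 / ‖A1‖ ^ 2 - Φ)| ≤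
      C * ((μ + φ) * Db + 1 / lo ^ 4) ∧
    |‖q11 • A1 + q21 • (A2 - Φ • A1)‖ / (q11 * ‖A1‖) - 1| ≤ C * ((μ + φ) * Db + 1 / lo ^ 4) ∧
    |‖Z2 - Φ • Z1‖ / ‖Z2‖ - 1| ≤ C * (φ * (μ + φ))

lemma stepS (N : Num B c σ ε μ φ pb1 pb2 e1 e2 Q lo t oν) {C c0 Φ ρ Δ : ℝ} (H : LaSP C c0)
    (hB : C ≤ B) (hc : c ≤ c0) {n Y1 Y2 Z1 Z2 A1 A2 V' W' : ℂ} (hn : ‖n‖ = 1)
    (h1 : ‖Y1 - n‖ ≤ μ) (h2 : ‖Y2 - I * n‖ ≤ μ) (h3 : ‖Z1 - n‖ ≤ μ + (pb1 + e1))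
    (h4 : ‖Z2 - I * n‖ ≤ μ + (pb2 + e2)) (hΦ : |Φ| ≤ φ)
    (hD : |ip A1 A2 / ‖A1‖ ^ 2 - Φ| ≤ φ / 8 + EE B φ Q lo t) (hA : lo / 2 ≤ ‖A1‖)
    (hj : |wd A1 A2| ≤ 2) (eρ : ρ = ‖Y2 - Φ • Y1‖) (eΔ : Δ = wd Y1 Y2)
    (eV : V' = (ρ / Δ) • A1 + (-ip Y1 (Y2 - Φ • Y1) / (ρ * Δ)) • (A2 - Φ • A1))
    (eW : W' = ρ⁻¹ • (A2 - Φ • A1)) :
    1 / 2 ≤ ρ ∧ 1 / 2 ≤ Δ ∧ |ip V' W' / ‖V'‖ ^ 2 - (ip A1 A2 / ‖A1‖ ^ 2 - Φ)| ≤ EE B φ Q lo t ∧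
      |‖V'‖ / (ρ / Δ * ‖A1‖) - 1| ≤ EE B φ Q lo t ∧ |‖Z2 - Φ • Z1‖ / ‖Z2‖ - 1| ≤ φ := by
  obtain ⟨f1, f2, f3, f4, -, -, -, f8⟩ := N.facts
  obtain ⟨g1, g2, g3, g4, g5, g6, g7⟩ := N.small
  obtain ⟨B1, c1, κ, sum, ε0, μ0, φ0, a0, b0, e0, f0, Q1, lo2, t0, o0⟩ := N
  obtain ⟨r1, -, r2, -, -, r3, r4, r5⟩ := H n Y1 Y2 Z1 Z2 A1 A2 Φ φ (μ + pb1 + pb2 + e1 + e2)
    (φ / 8 + EE B φ Q lo t) (lo / 2) ρ Δ _ _ hn (by linarith) (by linarith) (by linarith)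
    (by linarith) hΦ hD (by linarith) hA hj (by linarith) eρ eΔ rfl rfl
  have k : C * ((μ + pb1 + pb2 + e1 + e2 + φ) * (φ / 8 + EE B φ Q lo t) + 1 / (lo / 2) ^ 4) ≤
      EE B φ Q lo t := by
    refine le_trans ?_ g6
    have : 0 < lo := by linarith
    gcongr; linarith
  rw [← eV] at r3 r4
  rw [← eW] at r3
  refine ⟨r1, r2, r3.trans k, r4.trans k, r5.trans ?_⟩
  calc _ ≤ B * (φ * σ) := by gcongr; linarith
    _ ≤ φ := by linarith [mul_comm φ σ]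

/-- the final inequalities for the band -/
lemma band_arith {N N' u0 u1 u2 u3 u4 α p1 p2 e G1 G2 err x : ℝ} (hN : 0 ≤ N)
    (eN : N' = N * (u0 * u1 * u2 * u3 * u4)) (h0 : |u0 - 1| ≤ e) (h1 : |u1 - (1 + α)| ≤ e)
    (h2 : |u2 - 1| ≤ e) (h3 : |u3 - 1| ≤ e) (h4 : |u4 - (1 + p2 ^ 2 / 2 - p1)| ≤ e)
    (a0 : 0 ≤ α) (ax : α ≤ 5 / 4 * x) (hp1 : |p1| ≤ pb1) (hp2 : |p2| ≤ pb2)
    (hs : x + pb1 + pb2 ≤ 1 / 10) (hx : (x + pb2 ^ 2 + pb1) ^ 2 ≤ e) (he : e ≤ 1 / 10)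
    (g1 : G1 ≤ α + e) (g2 : α ≤ 5 / 4 * G2 + e) (G0 : 0 ≤ G2) (hB : 2 ≤ B)
    (hC : 22 * e ≤ B * err) :
    N * (1 + G1 + p2 ^ 2 / 2 - p1 - B * err) ≤ N' ∧
      N' ≤ N * (1 + B * (G2 + p2 ^ 2 + |p1|) + B * err) := by
  have q1 := abs_le.mp hp1
  have q2 := abs_le.mp hp2
  have q3 : p2 ^ 2 ≤ pb2 ^ 2 := sq_le_sq' q2.1 q2.2
  have q4 : pb2 ^ 2 ≤ pb2 := by nlinarith
  have q5 : |p2 ^ 2 / 2 - p1| ≤ pb2 ^ 2 + pb1 :=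
    abs_le.mpr ⟨by linarith [sq_nonneg p2], by linarith [sq_nonneg p2]⟩
  have q6 : |α * (p2 ^ 2 / 2 - p1)| ≤ e := by
    rw [abs_mul, abs_of_nonneg a0]
    have := mul_le_mul ax q5 (abs_nonneg _) (by linarith)
    have := mul_nonneg (show 0 ≤ x by linarith) ((abs_nonneg _).trans q5)
    nlinarith [sq_nonneg (x - (pb2 ^ 2 + pb1))]
  have k := abs_le.mp (prod5 h0 h1 h2 h3 (β := p2 ^ 2 / 2 - p1) (by rwa [← add_sub_assoc])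
    (by rw [abs_of_nonneg a0]; linarith) (q5.trans (by linarith)) q6 he)
  have q7 := mul_le_mul_of_nonneg_right hB
    (show 0 ≤ G2 + p2 ^ 2 + |p1| by positivity)
  rw [eN]
  constructor
  · exact mul_le_mul_of_nonneg_left (by linarith) hN
  · exact mul_le_mul_of_nonneg_left
      (by linarith [neg_abs_le p1, sq_nonneg p2, abs_nonneg p1]) hN

end Switch
end
end Pool.Agent.MP_20bec2_an.Pl

end MrgPart0

-- ======== part 1: formerly Pool.Agent.MP_20bec2_an.Pl.Switch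
section MrgPart1

set_option autoImplicit false
open MeasureTheory Set Complex

namespace Pool.Agent.MP_20bec2_an.Pl
noncomputable section
namespace Switch

def LaYP (C c0 : ℝ) : Prop := ∀ (n Y1 Y2 Z1 Z2 : ℂ)
  (p1 p2 μ e1 e2 pb1 pb2 : ℝ), ‖n‖ = 1 → ‖Y1 - n‖ ≤ μ → ‖Y2 - I * n‖ ≤ μ →
  ‖Z1 - Y1 - p1 • n‖ ≤ e1 → ‖Z2 - Y2 - p2 • n‖ ≤ e2 → |p1| ≤ pb1 → |p2| ≤ pb2 →
  μ + pb1 + pb2 + e1 + e2 ≤ c0 →
  |‖Z2‖ / wd Z1 Z2 / (‖Y2‖ / wd Y1 Y2) - (1 + p2 ^ 2 / 2 - p1)| ≤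
    C * (e1 + (pb1 + pb2 + e2) * (μ + e2) + (pb2 ^ 2 + pb1) ^ 2)

lemma near_unit {A : ℂ →L[ℝ] ℂ} {μ : ℝ} (h : ‖A - 1‖ ≤ μ) {m : ℂ} (hm : ‖m‖ = 1) :
    ‖A m - m‖ ≤ μ := by
  simpa [hm] using ((A - 1).le_opNorm m).trans (by simpa [hm] using h)

lemma half_le {v m : ℂ} {μ : ℝ} (h : ‖v - m‖ ≤ μ) (hm : ‖m‖ = 1) (hμ : μ ≤ 1 / 2) :
    1 / 2 ≤ ‖v‖ := by
  have := norm_sub_norm_le m v
  rw [norm_sub_rev] at this
  linarith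

lemma jac_eq (f : ℂ → ℂ) {n : ℂ → ℂ} {z : ℂ} (h : ‖n z‖ = 1) :
    wd (V1 f n z) (V2 f n z) = jac f z := jac_unit f z h

/-- the facts at one point -/
def Pt (f Y n f' R f'' Y'' n' : ℂ → ℂ) (P p1 p2 : ℂ → ℝ) (x z : ℂ) (τ φ E E3 E4 : ℝ) : Prop :=
  ∃ a u1 u2 u3 u4 : ℝ, |a - P z| ≤ τ ∧ 1 / 2 ≤ ‖V2 Y n z - Phi f n z • V1 Y n z‖ ∧
    1 / 2 ≤ jac Y z ∧ |Phi f' n z - Phi f n (R z)| ≤ E ∧
    |Phi f'' n' x - (Phi f' n z - Phi f n z)| ≤ E ∧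
    |u1 - (1 + a ^ 2 / (2 * ‖V1 f n (R z)‖ ^ 4))| ≤ E3 ∧ |u2 - 1| ≤ E ∧ |u3 - 1| ≤ φ ∧
    |u4 - (1 + p2 z ^ 2 / 2 - p1 z)| ≤ E4 ∧
    ‖V1 f'' n' x‖ = ‖V2 Y n z - Phi f n z • V1 Y n z‖ / jac Y z * ‖V1 f n (R z)‖ * u1 * u2 ∧
    NN f'' Y'' n' x = NN f Y n z * (‖V1 f n (R z)‖ / ‖V1 f n z‖ * u1 * u2 * u3 * u4)

variable {B c σ ε μ φ pb1 pb2 e1 e2 Q lo t oν : ℝ} {w r r' P p1 p2 : ℂ → ℝ}
  {f Y n f' Y' R f'' Y'' n' : ℂ → ℂ} {h b Af Ln d hi h' b' Af' d1 ηU ηV τ : ℝ}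

lemma point (N : Num B c σ ε μ φ pb1 pb2 e1 e2 Q lo t oν) {CV cV CY cY CS cS : ℝ}
    (HV : LaVP CV cV) (HY : LaYP CY cY) (HS : LaSP CS cS) (bV : CV ≤ B) (bY : CY ≤ B)
    (bS : CS ≤ B) (kV : c ≤ cV) (kY : c ≤ cY) (kS : c ≤ cS)
    (S : St w f Y n r h b Af Ln d μ φ (φ / 8) oν lo hi) (Co : Core w f' Y' r' h' b' Af')
    (Rn : Run n f Y f' Y' R P p1 p2 d1 ηU ηV τ e1 e2) (nw : Nr ε w) (nr : Nr ε r) (nr' : Nr ε r')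
    (hd1 : d1 ≤ d) (hP : ∀ z, |P z| + τ ≤ Q ∧ |p1 z| ≤ pb1 ∧ |p2 z| ≤ pb2) (hU : ηU ≤ t)
    (hV : ηV ≤ t) (hν : ∀ z, 4 / 5 * lo ≤ ‖V1 f n z‖) {x z : ℂ}
    (n1 : ‖fderiv ℝ Y' z - 1‖ ≤ μ + (pb1 + e1) + (pb2 + e2))
    (n2 : ‖V1 Y' n z - n z‖ ≤ μ + (pb1 + e1)) (n3 : ‖V2 Y' n z - I * n z‖ ≤ μ + (pb2 + e2))
    {Φ ρ Δ : ℝ} (eΦ : Φ = Phi f n z) (eρ : ρ = ‖V2 Y n z - Φ • V1 Y n z‖) (eΔ : Δ = jac Y z)
    (w1 : V1 f'' n' x = (ρ / Δ) • V1 f' n z +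
      (-ip (V1 Y n z) (V2 Y n z - Φ • V1 Y n z) / (ρ * Δ)) • (V2 f' n z - Φ • V1 f' n z))
    (w2 : V2 f'' n' x = ρ⁻¹ • (V2 f' n z - Φ • V1 f' n z))
    (w3 : V2 Y'' n' x = ρ⁻¹ • (V2 Y' n z - Φ • V1 Y' n z)) (w4 : jac Y'' x = jac Y' z / Δ) :
    Pt f Y n f' R f'' Y'' n' P p1 p2 x z τ φ (EE B φ Q lo t)
      (6 * (B * (Q * φ + Q ^ 4 / lo ^ 8 + t)))
      (B * (e1 + (pb1 + pb2 + e2) * (μ + e2) + (pb2 ^ 2 + pb1) ^ 2)) := by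
  obtain ⟨f1, f2, f3, f4, f5, -, f7, -⟩ := N.facts
  obtain ⟨B1, c1, κ, sum, ε0, μ0, φ0, a0, b0, e0, f0, Q1, lo2, t0, o0⟩ := id N
  obtain ⟨a, ha, hA⟩ := Rn.hV z
  have one := S.fr.one z
  have one' : ‖I * n z‖ = 1 := by simp [one]
  have aQ : |a| ≤ Q := by
    have := abs_sub_abs_le_abs_sub a (P z)
    linarith [(hP z).1]
  have j1 := S.core.jac_near (by linarith) nw nr (S.mu (R z)) (by linarith)
  have j2 := Co.jac_near (by linarith) nw nr' n1 (by linarith)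
  obtain ⟨v1, v2⟩ := stepV N HV bV kV (A1 := V1 f' n z) (A2 := V2 f' n z)
    (jac_eq f (S.fr.one (R z))) (j1.trans (by linarith)) (j2.trans (by linarith)) (hν (R z))
    ((Rn.hU z).trans hU) (hA.trans hV) (S.phi (R z)) aQ
  have νR : 0 < ‖V1 f n (R z)‖ := by linarith [hν (R z)]
  have ν0 : 0 < ‖V1 f n z‖ := by linarith [hν z]
  have hA1 : lo / 2 ≤ ‖V1 f' n z‖ := by
    have k1 : B * (Q * φ + Q ^ 4 / lo ^ 8 + t) ≤ B * σ := by gcongr; linarith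
    have k2 : 0 ≤ a ^ 2 / (2 * ‖V1 f n (R z)‖ ^ 4) := by positivity
    have k3 : 5 / 8 ≤ ‖V1 f' n z‖ / ‖V1 f n (R z)‖ := by linarith [(abs_le.mp v2).1]
    rw [le_div_iff₀ νR] at k3
    linarith [hν (R z)]
  have y1 : ‖V1 Y n z - n z‖ ≤ μ := near_unit (S.mu z) one
  have y2 : ‖V2 Y n z - I * n z‖ ≤ μ := near_unit (S.mu z) one'
  have hD : |ip (V1 f' n z) (V2 f' n z) / ‖V1 f' n z‖ ^ 2 - Φ| ≤ φ / 8 + EE B φ Q lo t := by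
    have k1 := abs_le.mp (S.osc (R z) z ((Rn.dR z).trans hd1)).1
    have k2 := abs_le.mp v1
    rw [eΦ, abs_le]
    unfold Phi at k1 ⊢
    constructor <;> linarith
  obtain ⟨s1, s2, s3, s4, s5⟩ := stepS N HS bS kS one y1 y2 n2 n3 (eΦ ▸ S.phi z) hD hA1
    (by
      have := abs_le.mp j2
      rw [jac_eq f' one, abs_le]
      constructor <;> linarith)
    eρ (eΔ.trans (jac_eq Y one).symm) w1 w2
  have s6 := HY (n z) (V1 Y n z) (V2 Y n z) (V1 Y' n z) (V2 Y' n z) (p1 z) (p2 z) μ e1 e2 pb1 pb2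
    one y1 y2 (Rn.h1 z) (Rn.h2 z) (hP z).2.1 (hP z).2.2 (by linarith)
  rw [jac_eq Y' one, jac_eq Y one] at s6
  have z2 : 0 < ‖V2 Y' n z‖ := by linarith [half_le n3 one' (by linarith)]
  have y3 : 0 < ‖V2 Y n z‖ := by linarith [half_le y2 one' (by linarith)]
  have jY : 0 < jac Y' z := by
    have k := (abs_le.mp (det_near _ n1)).1
    have : (μ + (pb1 + e1) + (pb2 + e2)) ^ 2 ≤ (1 / 2) ^ 2 := by gcongr; linarith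
    unfold jac; linarith
  have A0 : 0 < ‖V1 f' n z‖ := by linarith
  have ρ0 : 0 < ρ := by linarith
  have Δ0 : 0 < Δ := by linarith
  refine ⟨a, _, _, _, _, ha, by rw [← eΦ, ← eρ]; exact s1, eΔ ▸ s2, v1, eΦ ▸ s3, v2, s4, s5,
    s6.trans (by gcongr), ?_, ?_⟩
  · rw [← eΦ, ← eρ, ← eΔ]; field_simp
  · unfold NN
    rw [w3, w4, norm_smul, Real.norm_of_nonneg (inv_nonneg.mpr ρ0.le), ← eΔ]
    field_simp

/-- the slide map is Lipschitz -/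
lemma lipR (S : Core w f Y r h b Af) (hf' : Differentiable ℝ f') (hc : ∀ z, f' z = f (R z))
    (he : ε ≤ 1 / 50) (nw : Nr ε w) (nr : Nr ε r) (h1 : ∀ z, ‖fderiv ℝ f z‖ ≤ 10 * hi)
    (h2 : ∀ z, ‖fderiv ℝ f' z‖ ≤ 10 * hi) (z z' : ℂ) :
    ‖R z - R z'‖ ≤ 200 * hi ^ 2 * ‖z - z'‖ := by
  have k1 := colip S.hom S.df (fun z ζ => inv_le (h1 z) (S.jac_bd he nw nr z).1 ζ) (R z) (R z')
  have k2 := convex_univ.norm_image_sub_le_of_norm_fderiv_le (𝕜 := ℝ) (fun x _ => hf' x)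
    (fun x _ => h2 x) (mem_univ z') (mem_univ z)
  have : 0 ≤ hi := by linarith [(norm_nonneg _).trans (h1 0)]
  rw [← hc, ← hc] at k1
  calc _ ≤ _ := k1
    _ ≤ 2 * (10 * hi) * (10 * hi * ‖z - z'‖) := by gcongr
    _ = _ := by ring

/-- the new slope and its oscillation -/
lemma phi_part (N : Num B c σ ε μ φ pb1 pb2 e1 e2 Q lo t oν) {x x' z z' : ℂ} {E3 E4 : ℝ}
    (p : Pt f Y n f' R f'' Y'' n' P p1 p2 x z τ φ (EE B φ Q lo t) E3 E4)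
    (p' : Pt f Y n f' R f'' Y'' n' P p1 p2 x' z' τ φ (EE B φ Q lo t) E3 E4) :
    (|Phi f n (R z) - Phi f n z| ≤ φ / 8 →
      |Phi f'' n' x| ≤ φ / 2 + 10 ^ 5 * B * (Q / lo ^ 4 + t)) ∧
    (|Phi f n (R z) - Phi f n (R z')| ≤ 250 * (B * t) → |Phi f n z - Phi f n z'| ≤ B * t →
      |Phi f'' n' x - Phi f'' n' x'| ≤ (φ / 2 + 10 ^ 5 * B * (Q / lo ^ 4 + t)) / 8) := by
  obtain ⟨g1, -, g3, -⟩ := N.small
  obtain ⟨-, -, -, -, -, -, -, -, k1, k2, -⟩ := p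
  obtain ⟨-, -, -, -, -, -, -, -, k3, k4, -⟩ := p'
  have := N.φ0
  unfold EE at k1 k2 k3 k4
  rw [abs_le] at k1 k2 k3 k4
  refine ⟨fun k5 => ?_, fun k5 k6 => ?_⟩
  · rw [abs_le] at k5 ⊢
    constructor <;> linarith
  · rw [abs_le] at k5 k6 ⊢
    constructor <;> linarith

/-- oscillation of the new stretch -/
lemma nu_part (N : Num B c σ ε μ φ pb1 pb2 e1 e2 Q lo t oν) {x x' z z' : ℂ} {E4 δ : ℝ}
    (p : Pt f Y n f' R f'' Y'' n' P p1 p2 x z τ φ (EE B φ Q lo t)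
      (6 * (B * (Q * φ + Q ^ 4 / lo ^ 8 + t))) E4)
    (p' : Pt f Y n f' R f'' Y'' n' P p1 p2 x' z' τ φ (EE B φ Q lo t)
      (6 * (B * (Q * φ + Q ^ 4 / lo ^ 8 + t))) E4)
    (hP : ∀ z, |P z| + τ ≤ Q) (hν : ∀ z, 4 / 5 * lo ≤ ‖V1 f n z‖) (h1 : |P z - P z'| ≤ δ)
    (h2 : Q * δ / lo ^ 4 ≤ 2 * t) (h3 : ‖V1 f n (R z) - V1 f n (R z')‖ ≤ 250 * (B * t))
    (h4 : ‖(V2 Y n z - Phi f n z • V1 Y n z) - (V2 Y n z' - Phi f n z' • V1 Y n z')‖ ≤ B * t)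
    (h5 : |jac Y z - jac Y z'| ≤ B * t) :
    ‖V1 f'' n' x‖ ≤ (1 + 10 ^ 5 * B * (Q * φ + Q * τ / lo ^ 4 + Q / lo ^ 4 + Q ^ 4 / lo ^ 8 + t)) *
      ‖V1 f'' n' x'‖ := by
  obtain ⟨a, u1, u2, -, -, ha, -, k2, -, -, k3, k4, -, -, k5, -⟩ := p
  obtain ⟨a', u1', u2', -, -, ha', k1', k2', -, -, k3', k4', -, -, k5', -⟩ := p'
  have τ0 : 0 ≤ τ := (abs_nonneg _).trans ha
  obtain ⟨y, y0, y1, y2, y3, y4, y5, y6, y7, y8⟩ :=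
    N.nu τ0 (by linarith [hP z, abs_nonneg (P z)])
  have lo2 := N.lo2
  have Bt : 0 ≤ B * t := mul_nonneg (by linarith only [N.B1]) N.t0
  have aQ : |a| ≤ Q := by linarith only [abs_sub_abs_le_abs_sub a (P z), hP z, ha]
  have aQ' : |a'| ≤ Q := by linarith only [abs_sub_abs_le_abs_sub a' (P z'), hP z', ha']
  have ad : |a - a'| ≤ 2 * τ + δ := by
    rw [abs_le] at ha ha' h1 ⊢
    constructor <;> linarith only [ha.1, ha.2, ha'.1, ha'.2, h1.1, h1.2]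
  have m1 := abs_le.mp ((abs_norm_sub_norm_le _ _).trans h3)
  have m2 := abs_le.mp ((abs_norm_sub_norm_le _ _).trans h4)
  have m3 := abs_le.mp h5
  have m4 := alpha_diff aQ aQ' ad (hν (R z)) (hν (R z')) lo2 (s := 250 * (B * t))
    (by linarith only [m1.1]) (by linarith only [Bt]) (by linarith only [y1, y4]) y7
  rw [show Q * (2 * τ + δ) / lo ^ 4 = 2 * (Q * τ / lo ^ 4) + Q * δ / lo ^ 4 by ring] at m4
  have al : 0 ≤ a ^ 2 / (2 * ‖V1 f n (R z)‖ ^ 4) := by positivity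
  have al' : 0 ≤ a' ^ 2 / (2 * ‖V1 f n (R z')‖ ^ 4) := by positivity
  have n0 := norm_nonneg (V1 f'' n' x')
  have n1 := hν (R z')
  rw [abs_le] at k3 k3' k4 k4'
  rw [k5'] at n0
  rw [k5, k5', y8]
  clear k5 k5' h3 h4 h5 ha ha' h1 aQ aQ' ad y8 y7 N
  generalize a ^ 2 / (2 * ‖V1 f n (R z)‖ ^ 4) = α, a' ^ 2 / (2 * ‖V1 f n (R z')‖ ^ 4) = α',
    B * (Q * φ + Q ^ 4 / lo ^ 8 + t) = x1, Q * τ / lo ^ 4 = x2, Q * δ / lo ^ 4 = x3,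
    B * t = x4 at *
  refine (ratio5 (e := 1000 * y) (ν' := ‖V1 f n (R z')‖) (u' := u1') (v' := u2')
    (by linarith) (by linarith) k1' k2 k2' (norm_nonneg _) (by linarith) (by linarith)
    (by linarith) (by linarith) (by linarith) (by linarith only [m2.2, y4, y0])
    (by linarith only [m3.1, y4, y0]) (by linarith only [m1.2, y4, y0]) (by linarith)
    (by linarith)).trans (mul_le_mul_of_nonneg_right (by linarith only [y0]) n0)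

/-- the new band -/
lemma band_part (N : Num B c σ ε μ φ pb1 pb2 e1 e2 Q lo t oν) {x z : ℂ} {err : ℝ}
    (p : Pt f Y n f' R f'' Y'' n' P p1 p2 x z τ φ (EE B φ Q lo t)
      (6 * (B * (Q * φ + Q ^ 4 / lo ^ 8 + t)))
      (B * (e1 + (pb1 + pb2 + e2) * (μ + e2) + (pb2 ^ 2 + pb1) ^ 2)))
    (hP : |P z| + τ ≤ Q ∧ |p1 z| ≤ pb1 ∧ |p2 z| ≤ pb2) (h0 : 0 ≤ NN f Y n z)
    (h1 : 4 / 5 * lo ≤ ‖V1 f n z‖) (h2 : 4 / 5 * lo ≤ ‖V1 f n (R z)‖)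
    (h3 : ‖V1 f n (R z)‖ ≤ 6 / 5 * hi) (h4 : ‖V1 f n (R z)‖ ≤ (1 + oν) * ‖V1 f n z‖)
    (h5 : ‖V1 f n z‖ ≤ (1 + oν) * ‖V1 f n (R z)‖)
    (he : oν + Q * φ + Q / lo ^ 4 + t + Q * τ / lo ^ 4 + (Q ^ 2 / lo ^ 4 + pb2 ^ 2 + pb1) ^ 2 + e1 +
      (pb1 + pb2 + e2) * (μ + e2) ≤ err) :
    NN f Y n z * (1 + P z ^ 2 / (32 * hi ^ 4) + p2 z ^ 2 / 2 - p1 z - 10 ^ 5 * B * err) ≤
      NN f'' Y'' n' x ∧ NN f'' Y'' n' x ≤ NN f Y n z *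
        (1 + 10 ^ 5 * B * (P z ^ 2 / lo ^ 4 + p2 z ^ 2 + |p1 z|) + 10 ^ 5 * B * err) := by
  obtain ⟨a, u1, u2, u3, u4, ha, -, -, -, -, k1, k2, k3, k4, -, k5⟩ := p
  have l0 : 0 < lo := by linarith only [N.lo2]
  have τ0 : 0 ≤ τ := (abs_nonneg _).trans ha
  obtain ⟨e, y1, y2, y3, y4, y5, y6, y7, y8, y9, y10⟩ :=
    N.band τ0 (by linarith only [hP.1, abs_nonneg (P z)]) he
  have aQ : |a| ≤ Q := by linarith only [abs_sub_abs_le_abs_sub a (P z), hP.1, ha]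
  have ν0 : 0 < ‖V1 f n z‖ := by linarith only [h1, l0]
  have u0 : |‖V1 f n (R z)‖ / ‖V1 f n z‖ - 1| ≤ oν := by
    rw [abs_le, le_sub_iff_add_le, sub_le_iff_le_add, le_div_iff₀ ν0, div_le_iff₀ ν0]
    refine ⟨?_, by linarith only [h4]⟩
    have m1 := mul_le_mul_of_nonneg_left h5 (show 0 ≤ 1 - oν by linarith only [y1, y2])
    have m2 := mul_nonneg (mul_nonneg N.o0 N.o0) (norm_nonneg (V1 f n (R z)))
    linarith only [m1, m2]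
  obtain ⟨m1, m2⟩ := alpha_lo aQ (by linarith only [hP.1, τ0]) ha h2 h3 l0
  exact band_arith h0 k5 (u0.trans y2) (k1.trans y3) (k2.trans y4) (k3.trans y5) (k4.trans y6)
    (by positivity) (alpha_le aQ h2 l0) hP.2.1 hP.2.2 y7 y8 y1 (m1.trans (add_le_add_right y9 _))
    (m2.trans (add_le_add_right y9 _)) (by positivity) (by linarith only [N.B1]) y10

lemma budget {K d' hi t ηU ηV y s C B : ℝ} (K0 : 0 ≤ K) (d0 : 0 ≤ d') (hhi : 2 ≤ hi)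
    (ht : hi ^ 2 * d' * K + ηU + ηV + y ≤ t) (a0 : 0 ≤ ηU) (b0 : 0 ≤ ηV) (y0 : 0 ≤ y)
    (s0 : 0 ≤ s) (hs : s ≤ 10 / 9 * d') (C0 : 1 ≤ C) (hC : C ≤ B) :
    C * K * s ≤ B * t ∧ C * K * (200 * hi ^ 2 * s) ≤ 250 * (B * t) := by
  have k1 : hi ^ 2 * d' * K ≤ t := by linarith
  have k2 : 2 ^ 2 * d' * K ≤ hi ^ 2 * d' * K := by gcongr
  have k3 : 0 ≤ d' * K := by positivity
  have B0 : 0 ≤ B := by linarith
  constructor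
  · calc C * K * s ≤ B * K * (10 / 9 * d') := by gcongr
      _ = B * (10 / 9 * (d' * K)) := by ring
      _ ≤ B * t := by gcongr; linarith
  · calc C * K * (200 * hi ^ 2 * s) ≤ B * K * (200 * hi ^ 2 * (10 / 9 * d')) := by gcongr
      _ = 250 * (B * (8 / 9 * (hi ^ 2 * d' * K))) := by ring
      _ ≤ 250 * (B * t) := by gcongr; linarith

end Switch

open Switch in
theorem switch_of (h1 : NormStmt) (h2 : SmoStmt) (h3 : SwaStmt) (h4 : LaVStmt) (h5 : LaYStmt)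
    (h6 : LaSStmt) : SwitchStmt := by
  obtain ⟨CM, hCM, HM⟩ := h2
  obtain ⟨CA, cA, hCA, hcA, HA⟩ := h3
  obtain ⟨CV, cV, hCV, hcV, HV⟩ := h4
  obtain ⟨CY, cY, hCY, hcY, HY⟩ := h5
  obtain ⟨CS, cS, hCS, hcS, HS⟩ := h6
  obtain ⟨B, B1, bM, bA, bV, bY, bS⟩ : ∃ B : ℝ, 1 ≤ B ∧ CM ≤ B ∧ CA ≤ B ∧ CV ≤ B ∧ CY ≤ B ∧
      CS ≤ B := ⟨CM + CA + CV + CY + CS, by linarith, by linarith, by linarith, by linarith,
        by linarith, by linarith⟩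
  obtain ⟨c, c0, c1, kA, kV, kY, kS⟩ : ∃ c : ℝ, 0 < c ∧ c ≤ 1 ∧ c ≤ cA ∧ c ≤ cV ∧ c ≤ cY ∧
      c ≤ cS := ⟨min (min 1 cA) (min cV (min cY cS)), by positivity, by simp, by simp, by simp,
        by simp, by simp⟩
  refine ⟨8, 10 ^ 5 * B, c / (10 ^ 6 * B), by norm_num, by linarith, by positivity, ?_⟩
  intro w r r' P p1 p2 f Y n f' Y' R h b Af Ln d μ φ oν lo hi h' b' Af' d1 ηU ηV τ e1 e2 ε Q pb1
    pb2 LP d' t err lo' hi' S Co Rn nw nr nr' hh' hh hb hb' hAf hd1 hlo hQ hoν hLP hd' hP hPl ht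
    hσ herr hband
  have h0 : 0 < h := hh'.trans_le hh
  have l0 : 0 < lo := by linarith only [hlo]
  have b0 : 0 ≤ b := S.core.bY.nonneg h0
  have b0' : 0 ≤ b' := Co.bY.nonneg hh'
  have hhi : 2 ≤ hi := hlo.trans ((S.band 0).1.trans (S.band 0).2)
  have Ln0 := S.fr.n0
  have K0 : 0 ≤ b / h + Af * hi ^ 2 + hi * Ln := by positivity
  have U0 : 0 ≤ ηU := (norm_nonneg _).trans (Rn.hU 0)
  have V0 : 0 ≤ ηV := (Rn.hV 0).elim fun a ha => (norm_nonneg _).trans ha.2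
  have τ0 : 0 ≤ τ := (Rn.hV 0).elim fun a ha => (abs_nonneg _).trans ha.1
  have y0 : 0 ≤ Q * LP * d' / lo ^ 4 := by positivity
  have x0 : 0 ≤ hi ^ 2 * d' * (b / h + Af * hi ^ 2 + hi * Ln) := by positivity
  have N : Num B c (c / (10 ^ 6 * B)) ε μ φ pb1 pb2 e1 e2 Q lo t oν :=
    ⟨B1, c1, le_of_eq (by field_simp), hσ, (abs_nonneg _).trans (nw 0),
      (norm_nonneg _).trans (S.mu 0), (abs_nonneg _).trans (S.phi 0),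
      (abs_nonneg _).trans (hP 0).2.1, (abs_nonneg _).trans (hP 0).2.2,
      (norm_nonneg _).trans (Rn.h1 0), (norm_nonneg _).trans (Rn.h2 0), hQ, hlo,
      by linarith only [ht, x0, y0, U0, V0], hoν⟩
  clear hσ
  generalize c / (10 ^ 6 * B) = σ at N
  have tU : ηU ≤ t := by linarith only [ht, x0, y0, U0, V0]
  have tV : ηV ≤ t := by linarith only [ht, x0, y0, U0, V0]
  have sm : ε ≤ 1 / 50 ∧ t ≤ 1 ∧ Q * φ ≤ 1 ∧ φ ≤ 1 / 10 ∧ Q ≤ lo ^ 2 ∧ μ ≤ 1 / 20 ∧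
      μ + (pb1 + e1) + (pb2 + e2) ≤ 1 / 20 ∧ ε + μ + φ + pb1 + pb2 + e1 + e2 ≤ c := N.norm
  obtain ⟨m1, m2, m3, m4, m5, m6, m7, m8⟩ := sm
  have n1 := h1 w r r' P p1 p2 f Y n f' Y' R h b Af Ln d μ φ _ oν lo hi h' b' Af' d1 ηU ηV τ e1 e2
    ε Q (pb1 + e1) (pb2 + e2) S Co Rn m1 nw nr nr'
    (fun z => ⟨(hP z).1, add_le_add_left (hP z).2.1 _, add_le_add_left (hP z).2.2 _⟩)
    (tU.trans m2) (tV.trans m2) m3 m4 m5 hlo m7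
  have n0 := h1 w r r 0 0 0 f Y n f Y id h b Af Ln d μ φ _ oν lo hi h b Af 0 0 0 0 0 0 ε Q 0 0 S
    S.core (Run.refl n f Y) m1 nw nr nr (fun z => by simp; linarith only [hQ]) zero_le_one
    zero_le_one m3 m4 m5 hlo (by linarith only [m6])
  obtain ⟨f'', Y'', n', J, a1, a2, a3, a4, a5, a6⟩ := HA w r r' P p1 p2 f Y n f' Y' R h b Af Ln d
    μ φ _ oν lo hi h' b' Af' d1 ηU ηV τ e1 e2 ε pb1 pb2 S Co Rn nw nr nr' hh' hh hb hb' hAf hlo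
    (fun z => (hP z).2) (fun z => (n1 z).1) (m8.trans kA)
  have hν : ∀ z, 4 / 5 * lo ≤ ‖V1 f n z‖ := fun z => (n1 z).2.2.2.2.1
  have pt := fun x => point (x := x) N HV HY HS bV bY bS kV kY kS S Co Rn nw nr nr' hd1 hP tU tV hν
    (n1 (J x)).2.1 (n1 (J x)).2.2.1 (n1 (J x)).2.2.2.1 rfl rfl rfl
    (a6 x _ _ _ _ rfl rfl rfl rfl).1 (a6 x _ _ _ _ rfl rfl rfl rfl).2.1
    (a6 x _ _ _ _ rfl rfl rfl rfl).2.2.1 (a6 x _ _ _ _ rfl rfl rfl rfl).2.2.2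
  have sm := HM w r f Y n h b Af Ln d μ φ _ oν lo hi ε _ S m1 nw nr h0 hAf hlo m6 m4 le_rfl
  have lr := lipR S.core Co.df Rn.comp m1 nw nr (fun z => (n0 z).1) (fun z => (n1 z).1)
  have CB : CA ≤ 10 ^ 5 * B := by linarith only [bA, B1]
  have hRz : ∀ z, ‖R z - z‖ ≤ d := fun z => (Rn.dR z).trans hd1
  refine ⟨f'', Y'', n', ⟨a1.mono hh' (by gcongr) (by gcongr), a2.mono (by gcongr),
    fun x => (a3 x).trans ?_, fun x => (phi_part N (pt x) (pt x)).1 (S.osc _ _ (hRz _)).1,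
    fun x x' hx => ?_, fun x => ?_⟩, a4⟩
  · have := N.a0; have := N.b0; have := N.e0; have := N.f0
    gcongr
  · have s1 : ‖J x - J x'‖ ≤ 10 / 9 * d' := (a5 x x').trans (by gcongr)
    obtain ⟨u1, u2⟩ := budget K0 hd' hhi ht U0 V0 y0 (norm_nonneg _) s1 hCM bM
    have u3 : CM * (b / h + Af * hi ^ 2 + hi * Ln) * ‖R (J x) - R (J x')‖ ≤ 250 * (B * t) :=
      le_trans (by gcongr; exact lr _ _) u2
    refine ⟨(phi_part N (pt x) (pt x')).2 ((sm _ _).2.1.trans u3) ((sm _ _).2.1.trans u1),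
      nu_part N (pt x) (pt x') (fun z => (hP z).1) hν (δ := LP * (10 / 9 * d'))
        ((hPl _ _).trans (by gcongr)) ?_ ((sm _ _).1.trans u3) ((sm _ _).2.2.1.trans u1)
        ((sm _ _).2.2.2.trans u1)⟩
    have : Q * (LP * (10 / 9 * d')) / lo ^ 4 = 10 / 9 * (Q * LP * d' / lo ^ 4) := by ring
    linarith only [this, ht, x0, y0, U0, V0]
  · have k := band_part (hi := hi) N (pt x) (hP _) (l0.le.trans (S.band _).1) (hν _) (hν _)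
      (n1 _).2.2.2.2.2 (S.osc _ _ (hRz _)).2 (S.osc _ _ (by rw [norm_sub_rev]; exact hRz _)).2 herr
    exact ⟨(hband _).1.trans k.1, k.2.trans (hband _).2⟩

end
end Pool.Agent.MP_20bec2_an.Pl

end MrgPart1

-- ======== part 2: formerly Pool.Agent.MP_20bec2_an.Pl.BlockA
section MrgPart2

set_option autoImplicit false
open MeasureTheory Set Complex Filter Finset

namespace Pool.Agent.MP_20bec2_an.Pl
namespace Blk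

/-- basic size relations between the parameters of a block -/
structure Par (q : ℕ) (x Λ γ K : ℝ) : Prop where
  hK : 1000 ≤ K
  hq : K ≤ q
  hx : 1 ≤ x
  hΛ : Λ = x ^ 3 * (q : ℝ) ^ 12
  h60 : Λ ^ 60 ≤ 2 ^ q
  hγ : 2 ≤ γ

variable {q : ℕ} {x Λ γ K : ℝ}

lemma Par.q1 (H : Par q x Λ γ K) : (1000 : ℝ) ≤ q := H.hK.trans H.hq
lemma Par.q0 (H : Par q x Λ γ K) : (0 : ℝ) < q := by linarith [H.q1]
lemma Par.q1' (H : Par q x Λ γ K) : (1 : ℝ) ≤ q := by linarith [H.q1]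
lemma Par.qn (H : Par q x Λ γ K) : 0 < q := by exact_mod_cast H.q0
lemma Par.x0 (H : Par q x Λ γ K) : 0 < x := by linarith [H.hx]

lemma Par.mono (H : Par q x Λ γ K) {a b c d : ℕ} (h1 : a ≤ c) (h2 : b ≤ d) :
    x ^ a * (q : ℝ) ^ b ≤ x ^ c * (q : ℝ) ^ d :=
  mul_le_mul (pow_le_pow_right₀ H.hx h1) (pow_le_pow_right₀ H.q1' h2) (by have := H.q0; positivity)
    (by have := H.x0; positivity)

lemma Par.qΛ (H : Par q x Λ γ K) : (q : ℝ) ≤ Λ := by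
  have := H.mono (a := 0) (b := 1) (c := 3) (d := 12) (by norm_num) (by norm_num)
  rw [H.hΛ]; simpa using this
lemma Par.Λ1 (H : Par q x Λ γ K) : (1000 : ℝ) ≤ Λ := H.q1.trans H.qΛ
lemma Par.ΛK (H : Par q x Λ γ K) : K ≤ Λ := H.hq.trans H.qΛ
lemma Par.Λ1' (H : Par q x Λ γ K) : (1 : ℝ) ≤ Λ := by linarith [H.Λ1]
lemma Par.Λ0 (H : Par q x Λ γ K) : (0 : ℝ) < Λ := by linarith [H.Λ1]
lemma Par.Λpow (H : Par q x Λ γ K) (k : ℕ) : Λ ^ k = x ^ (3 * k) * (q : ℝ) ^ (12 * k) := by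
  rw [H.hΛ, mul_pow, ← pow_mul, ← pow_mul]
lemma Par.γq (H : Par q x Λ γ K) : Λ ^ 60 ≤ γ ^ q :=
  H.h60.trans (pow_le_pow_left₀ (by norm_num) H.hγ q)
lemma Par.γ1 (H : Par q x Λ γ K) : 1 ≤ γ ^ q := one_le_pow₀ (by linarith [H.hγ])
lemma Par.γ0 (H : Par q x Λ γ K) : 0 < γ ^ q := by linarith [H.γ1]
lemma Par.pw (H : Par q x Λ γ K) {a b : ℕ} (h : a ≤ b) : Λ ^ a ≤ Λ ^ b :=
  pow_le_pow_right₀ H.Λ1' h
lemma Par.pw' (H : Par q x Λ γ K) {a b : ℕ} (h : a < b) {c : ℝ} (hc : c ≤ Λ) :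
    c * Λ ^ a ≤ Λ ^ b := by
  have := H.Λ0
  calc c * Λ ^ a ≤ Λ * Λ ^ a := by gcongr
    _ = Λ ^ (a + 1) := by ring
    _ ≤ _ := H.pw h
lemma Par.pw2 (H : Par q x Λ γ K) {a b : ℕ} (h : a + 1 < b) {c c' : ℝ} (hc : c ≤ Λ) (hc' : c' ≤ Λ)
    (h0 : 0 ≤ c') : c * c' * Λ ^ a ≤ Λ ^ b := by
  have := H.Λ0
  calc c * c' * Λ ^ a ≤ Λ * Λ * Λ ^ a := by gcongr
    _ = Λ ^ (a + 2) := by ring
    _ ≤ _ := H.pw h
lemma Par.sq1 (H : Par q x Λ γ K) : 1 ≤ Real.sqrt q := Real.one_le_sqrt.mpr H.q1'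
lemma Par.b1 (H : Par q x Λ γ K) : 1 / Real.sqrt q ≤ 1 := by
  rw [div_le_one (by linarith [H.sq1])]; exact H.sq1

/-- the quantity that bounds all Lipschitz constants of the state -/
lemma Par.lipK (H : Par q x Λ γ K) {h hi : ℝ} (hh : 0 < h) (h0 : 0 ≤ hi) (h6 : hi ≤ 6 * Λ) :
    1 / Real.sqrt q / h + Λ ^ 20 / h * hi ^ 2 + hi * (1 / (Λ ^ 20 * h)) ≤ 43 * Λ ^ 22 / h := by
  have hΛ := H.Λ0
  have a1 : 1 / Real.sqrt q ≤ Λ ^ 22 := H.b1.trans (one_le_pow₀ H.Λ1')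
  have a2 : Λ ^ 20 * hi ^ 2 ≤ 36 * Λ ^ 22 := by
    calc Λ ^ 20 * hi ^ 2 ≤ Λ ^ 20 * (6 * Λ) ^ 2 := by gcongr
      _ = _ := by ring
  have a3 : hi / Λ ^ 20 ≤ 6 * Λ ^ 22 := by
    rw [div_le_iff₀ (by positivity)]
    have := H.pw (a := 1) (b := 42) (by norm_num)
    calc hi ≤ 6 * Λ ^ 1 := by simpa using h6
      _ ≤ 6 * Λ ^ 42 := by gcongr
      _ = _ := by ring
  have e : 1 / Real.sqrt q / h + Λ ^ 20 / h * hi ^ 2 + hi * (1 / (Λ ^ 20 * h)) =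
      (1 / Real.sqrt q + Λ ^ 20 * hi ^ 2 + hi / Λ ^ 20) / h := by field_simp
  rw [e]; gcongr; linarith

lemma Par.inv_le (H : Par q x Λ γ K) {a b : ℕ} (h : a ≤ b) : 1 / Λ ^ b ≤ 1 / Λ ^ a :=
  one_div_le_one_div_of_le (by have := H.Λ0; positivity) (H.pw h)

lemma Par.tcond (H : Par q x Λ γ K) {h hi lo Q LP : ℝ} (hh : 0 < h) (hi0 : 0 ≤ hi)
    (hhi : hi ≤ 6 * Λ) (hlo : Λ / 3 ≤ lo) (hQ : Q ≤ 3 * Λ ^ 2) (hL0 : 0 ≤ LP)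
    (hL : LP ≤ Λ ^ 2 / h) :
    hi ^ 2 * (Λ ^ 5 * (h / γ ^ q)) * (1 / Real.sqrt q / h + Λ ^ 20 / h * hi ^ 2 +
      hi * (1 / (Λ ^ 20 * h))) + 1 / Λ ^ 11 + 1 / Λ ^ 8 + Q * LP * (Λ ^ 5 * (h / γ ^ q)) / lo ^ 4 ≤
      1 / Λ ^ 7 := by
  have hΛ := H.Λ0
  have hΛ1 := H.Λ1
  have hγ := H.γ0
  have hlo0 : 0 < lo := by linarith
  have hlip := H.lipK hh hi0 hhi
  have a1 : hi ^ 2 * (Λ ^ 5 * (h / γ ^ q)) * (1 / Real.sqrt q / h + Λ ^ 20 / h * hi ^ 2 +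
      hi * (1 / (Λ ^ 20 * h))) ≤ 1 / Λ ^ 8 := by
    calc _ ≤ (6 * Λ) ^ 2 * (Λ ^ 5 * (h / Λ ^ 60)) * (43 * Λ ^ 22 / h) := by
          gcongr; exact H.γq
      _ = (36 * 43 * Λ ^ 37 / Λ ^ 60) / Λ ^ 8 := by field_simp; ring
      _ ≤ 1 / Λ ^ 8 := by
          gcongr; rw [div_le_one (by positivity)]
          exact H.pw2 (by norm_num) (by linarith) (by linarith) (by norm_num)
  have a2 : Q * LP * (Λ ^ 5 * (h / γ ^ q)) / lo ^ 4 ≤ 1 / Λ ^ 8 := by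
    calc _ ≤ (3 * Λ ^ 2) * (Λ ^ 2 / h) * (Λ ^ 5 * (h / Λ ^ 60)) / (Λ / 3) ^ 4 := by
          gcongr; exact H.γq
      _ = (243 * Λ ^ 13 / Λ ^ 60) / Λ ^ 8 := by field_simp; ring
      _ ≤ 1 / Λ ^ 8 := by
          gcongr; rw [div_le_one (by positivity)]
          exact H.pw' (by norm_num) (by linarith)
  have a3 : 1 / Λ ^ 11 ≤ 1 / Λ ^ 8 := H.inv_le (by norm_num)
  have a4 : 4 * (1 / Λ ^ 8) ≤ 1 / Λ ^ 7 := by
    rw [mul_one_div, div_le_div_iff₀ (by positivity) (by positivity), one_mul]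
    exact H.pw' (by norm_num) (by linarith)
  linarith

lemma Par.q2 (H : Par q x Λ γ K) : (q : ℝ) ≤ 2 ^ q :=
  H.qΛ.trans ((by simpa using H.pw (a := 1) (b := 60) (by norm_num) : Λ ≤ Λ ^ 60).trans H.h60)

lemma Par.bb (H : Par q x Λ γ K) {b1 Cn : ℝ} (hb1 : b1 ≤ 1) (hCn : 1 ≤ Cn) :
    b1 / 2 ^ q + Cn / q ≤ 2 * Cn / q := by
  have : b1 / 2 ^ q ≤ Cn / q := div_le_div₀ (by linarith) (by linarith) H.q0 H.q2
  have e : 2 * Cn / q = Cn / q + Cn / q := by ring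
  linarith

lemma Par.out1 (H : Par q x Λ γ K) {b1 Cs Cn h : ℝ} (hb1 : b1 ≤ 1) (hCs : 1 ≤ Cs) (hCn : 1 ≤ Cn)
    (hK : 1000 * (Cs * Cn) ^ 2 ≤ K) (hh : 0 < h) :
    Cs * (b1 / 2 ^ q + Cn / q + 1 / Real.sqrt q * (h / γ ^ q) / h) ≤ 1 / (2 * Real.sqrt q) := by
  have hq := H.q0
  have hγ := H.γ0
  have s1 := H.sq1
  have hb' := H.bb hb1 hCn
  have hqγ : (q : ℝ) ≤ γ ^ q := H.q2.trans (pow_le_pow_left₀ (by norm_num) H.hγ q)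
  have a1 : 1 / Real.sqrt q * (h / γ ^ q) / h ≤ Cn / q := by
    have e : 1 / Real.sqrt q * (h / γ ^ q) / h = 1 / Real.sqrt q / γ ^ q := by field_simp
    rw [e]; exact div_le_div₀ (by linarith) (H.b1.trans hCn) hq hqγ
  have a2 : 6 * (Cs * Cn) ≤ Real.sqrt q :=
    Real.le_sqrt_of_sq_le (by nlinarith [H.hq, sq_nonneg (Cs * Cn)])
  have a3 : Real.sqrt q * Real.sqrt q = q := Real.mul_self_sqrt hq.le
  calc _ ≤ Cs * (2 * Cn / q + Cn / q) := by gcongr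
    _ = 3 * (Cs * Cn) / q := by ring
    _ ≤ _ := by rw [div_le_div_iff₀ hq (by positivity)]; nlinarith

lemma Par.out2 (H : Par q x Λ γ K) {Cs h hi : ℝ} (hCs : 1 ≤ Cs) (hK : 1000 * Cs ≤ Λ) (hh : 0 < h)
    (hi0 : 0 ≤ hi) (hhi : hi ≤ 6 * Λ) :
    Λ ^ 20 / (2 * (h / γ ^ q)) + Cs * hi ^ 3 * (1 / Real.sqrt q) / h ≤ Λ ^ 20 / (h / γ ^ q) := by
  have hΛ := H.Λ0
  have hγ := H.γ0
  have hh'' : h / γ ^ q ≤ h := div_le_self hh.le H.γ1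
  have a1 : Cs * hi ^ 3 * (1 / Real.sqrt q) / h ≤ Λ ^ 20 / (2 * (h / γ ^ q)) := by
    calc _ ≤ Cs * (6 * Λ) ^ 3 * 1 / h := by gcongr; exact H.b1
      _ = (432 * Cs * Λ ^ 3) / (2 * h) := by field_simp; ring
      _ ≤ Λ ^ 20 / (2 * (h / γ ^ q)) := by
          gcongr; exact H.pw' (by norm_num) (by linarith)
  have e : Λ ^ 20 / (h / γ ^ q) = Λ ^ 20 / (2 * (h / γ ^ q)) + Λ ^ 20 / (2 * (h / γ ^ q)) := by
    field_simp; ring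
  linarith

lemma Par.out3 (H : Par q x Λ γ K) {Cs h hi : ℝ} (hCs : 1 ≤ Cs) (hK : 1000 * Cs ≤ Λ) (hh : 0 < h)
    (hi0 : 0 ≤ hi) (hhi : hi ≤ 6 * Λ) :
    Cs * (1 / Real.sqrt q / h + Λ ^ 20 / h * hi ^ 2 + hi * (1 / (Λ ^ 20 * h))) ≤
      1 / (Λ ^ 25 * (h / γ ^ q)) := by
  have hΛ := H.Λ0
  have hγ := H.γ0
  have hlip := H.lipK hh hi0 hhi
  calc _ ≤ Cs * (43 * Λ ^ 22 / h) := by gcongr
    _ = (43 * Cs * Λ ^ 47) / (Λ ^ 25 * h) := by field_simp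
    _ ≤ γ ^ q / (Λ ^ 25 * h) := by
        gcongr; exact (H.pw' (by norm_num) (by linarith)).trans H.γq
    _ = _ := by field_simp

lemma Par.out4 (H : Par q x Λ γ K) {h hi : ℝ} (hh : 0 < h) (hhi : hi ≤ 6 * Λ) :
    30 * hi * (2 * Λ ^ 3 * h) ≤ Λ ^ 5 * h := by
  have hΛ := H.Λ0
  have hΛ1 := H.Λ1
  calc 30 * hi * (2 * Λ ^ 3 * h) ≤ 30 * (6 * Λ) * (2 * Λ ^ 3 * h) := by gcongr
    _ = 360 * Λ ^ 4 * h := by ring
    _ ≤ _ := by gcongr; exact H.pw' (by norm_num) (by linarith)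

lemma cst {Cs Cn K : ℝ} (hCs : 1 ≤ Cs) (hCn : 1 ≤ Cn) (hK : 1000 * (Cs * Cn) ^ 2 ≤ K) :
    1000 * Cs ≤ K ∧ 1000 * Cn ≤ K := by
  have hCC : 1 ≤ Cs * Cn := one_le_mul_of_one_le_of_one_le hCs hCn
  have hCK : 1000 * (Cs * Cn) ≤ K := by nlinarith
  constructor <;> nlinarith

/-- the switch with the parameters of a block -/
lemma sw {M Cs cs Cn : ℝ} (hS : SwitchP M Cs cs) (hCs : 1 ≤ Cs) (hCn : 1 ≤ Cn)
    (H : Par q x Λ γ K) (hK : 1000 * (Cs * Cn) ^ 2 ≤ K)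
    {w r r' P p1 p2 : ℂ → ℝ} {f Y n f' Y' R : ℂ → ℂ}
    {h μ φ oν lo hi b1 τ e1 e2 ε Q pb1 pb2 LP err lo' hi' : ℝ} (hh : 0 < h)
    (hst : StI w f Y n r q Λ h μ φ M oν lo hi) (hb1 : b1 ≤ 1)
    (hc : Core w f' Y' r' (h / γ ^ q) (b1 / 2 ^ q + Cn / q) (Λ ^ 20 / (2 * (h / γ ^ q))))
    (hr : Run n f Y f' Y' R P p1 p2 (2 * Λ ^ 3 * h) (1 / Λ ^ 11) (1 / Λ ^ 8) τ e1 e2)
    (hw : Nr ε w) (hr0 : Nr ε r) (hr1 : Nr ε r') (hlo : Λ / 3 ≤ lo) (hhi : hi ≤ 6 * Λ)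
    (hQ1 : 1 ≤ Q) (hQ : Q ≤ 3 * Λ ^ 2) (ho : 0 ≤ oν) (hL0 : 0 ≤ LP) (hL : LP ≤ Λ ^ 2 / h)
    (hP : ∀ z, |P z| + τ ≤ Q ∧ |p1 z| ≤ pb1 ∧ |p2 z| ≤ pb2)
    (hPl : ∀ z z', |P z - P z'| ≤ LP * ‖z - z'‖)
    (hs : ε + μ + pb1 + pb2 + e1 + e2 + Q * φ + Q ^ 2 / lo ^ 4 + 1 / Λ ^ 7 + oν ≤ cs)
    (he : oν + Q * φ + Q / lo ^ 4 + 1 / Λ ^ 7 + Q * τ / lo ^ 4 +
      (Q ^ 2 / lo ^ 4 + pb2 ^ 2 + pb1) ^ 2 + e1 + (pb1 + pb2 + e2) * (μ + e2) ≤ err)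
    (hN : ∀ z, lo' ≤ NN f Y n z * (1 + P z ^ 2 / (32 * hi ^ 4) + p2 z ^ 2 / 2 - p1 z - Cs * err) ∧
      NN f Y n z * (1 + Cs * (P z ^ 2 / lo ^ 4 + p2 z ^ 2 + |p1 z|) + Cs * err) ≤ hi')
    (hM : 1 ≤ M) {μ' φ' o' : ℝ} (h1 : Cs * (pb1 + pb2 + e1 + e2) ≤ μ')
    (h2 : φ / 2 + Cs * (Q / lo ^ 4 + 1 / Λ ^ 7) ≤ φ')
    (h3 : Cs * (Q * φ + Q * τ / lo ^ 4 + Q / lo ^ 4 + Q ^ 4 / lo ^ 8 + 1 / Λ ^ 7) ≤ o') :
    ∃ f'' Y'' n' : ℂ → ℂ, StO w f'' Y'' n' r' q Λ (h / γ ^ q) μ' φ' M o' lo' hi' ∧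
      Mv f Y f'' Y'' (Λ ^ 5 * h) := by
  have hΛ := H.Λ0
  have hi0 : 0 ≤ hi := by linarith only [(hst.band 0).1, (hst.band 0).2, hlo, hΛ]
  have hh' : 0 < h / γ ^ q := div_pos hh H.γ0
  have hh'' : h / γ ^ q ≤ h := div_le_self hh.le H.γ1
  have hCsΛ : 1000 * Cs ≤ Λ := (cst hCs hCn hK).1.trans H.ΛK
  have hb'1 : b1 / 2 ^ q + Cn / q ≤ 1 := (H.bb hb1 hCn).trans (by
    rw [div_le_one H.q0]; linarith only [(cst hCs hCn hK).2, H.hq, hCn])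
  have hd : 2 * Λ ^ 3 * h ≤ Λ ^ 4 * h :=
    mul_le_mul_of_nonneg_right (H.pw' (by norm_num) (by linarith only [H.Λ1])) hh.le
  obtain ⟨f'', Y'', n', hst', hmv⟩ := hS w r r' P p1 p2 f Y n f' Y' R h _ _ _ _ μ φ oν lo hi _ _ _ _
    _ _ τ e1 e2 ε Q pb1 pb2 LP (Λ ^ 5 * (h / γ ^ q)) (1 / Λ ^ 7) err lo' hi' hst hc hr hw hr0 hr1 hh'
    hh'' H.b1 hb'1 (by positivity) hd (by linarith only [hlo, H.Λ1]) hQ1 ho hL0 (by positivity) hP hPl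
    (H.tcond hh hi0 hhi hlo hQ hL0 hL) hs he hN
  exact ⟨f'', Y'', n', hst'.mono hh' (H.out1 hb1 hCs hCn hK hh) (H.out2 hCs hCsΛ hh hi0 hhi)
    (H.out3 hCs hCsΛ hh hi0 hhi) le_rfl h1 h2
    (div_le_div_of_nonneg_right h2 (by linarith only [hM])) h3 le_rfl le_rfl,
    hmv.mono (H.out4 hh hhi)⟩

end Blk
end Pool.Agent.MP_20bec2_an.Pl

end MrgPart2

-- ======== part 3: formerly Pool.Agent.MP_20bec2_an.Pl.BlockN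
section MrgPart3

set_option autoImplicit false
open MeasureTheory Set Complex Filter Finset

namespace Pool.Agent.MP_20bec2_an.Pl
namespace Blk

variable {q : ℕ} {x Λ γ K : ℝ}

lemma Par.frac (H : Par q x Λ γ K) {a b c d : ℕ} (h1 : a ≤ c) (h2 : b ≤ d) :
    1 / (x ^ c * (q : ℝ) ^ d) ≤ 1 / (x ^ a * (q : ℝ) ^ b) :=
  one_div_le_one_div_of_le (by have := H.q0; have := H.x0; positivity) (H.mono h1 h2)

lemma Par.lo4 (H : Par q x Λ γ K) {lo : ℝ} (hlo : Λ / 3 ≤ lo) {A : ℝ} (hA : 0 ≤ A) :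
    A / lo ^ 4 ≤ 81 * (A / Λ ^ 4) := by
  have := H.Λ0
  calc A / lo ^ 4 ≤ A / (Λ / 3) ^ 4 := by gcongr
    _ = _ := by field_simp; ring

lemma Par.T1 (H : Par q x Λ γ K) : 1 ≤ x ^ 4 * (q : ℝ) ^ 21 := by
  simpa using H.mono (a := 0) (b := 0) (c := 4) (d := 21) (by norm_num) (by norm_num)

lemma Par.TΛ (H : Par q x Λ γ K) : x ^ 4 * (q : ℝ) ^ 21 = Λ ^ 2 * (1 / (x ^ 2 * (q : ℝ) ^ 3)) := by
  have := H.q0; have := H.x0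
  rw [H.Λpow]; field_simp

lemma Par.vq (H : Par q x Λ γ K) : 1 / (x ^ 2 * (q : ℝ) ^ 3) ≤ 1 / q := by
  simpa using H.frac (a := 0) (b := 1) (c := 2) (d := 3) (by norm_num) (by norm_num)

lemma Par.qK (H : Par q x Λ γ K) : K * (1 / (q : ℝ)) ≤ 1 := by
  rw [mul_one_div, div_le_one H.q0]; exact H.hq

lemma Par.t7 (H : Par q x Λ γ K) : 1 / Λ ^ 7 ≤ 1 / (x ^ 8 * (q : ℝ) ^ 27) := by
  rw [H.Λpow]; exact H.frac (by norm_num) (by norm_num)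

lemma Par.sqc (H : Par q x Λ γ K) {c : ℝ} (hc : 0 < c) (h : 1 ≤ K * c ^ 2) :
    1 / Real.sqrt q ≤ c := by
  have s1 := H.sq1
  rw [div_le_iff₀ (by linarith)]
  have a3 : Real.sqrt q * Real.sqrt q = q := Real.mul_self_sqrt H.q0.le
  have : 1 ≤ (c * Real.sqrt q) ^ 2 := by
    calc 1 ≤ K * c ^ 2 := h
      _ ≤ q * c ^ 2 := by gcongr; exact H.hq
      _ = _ := by rw [mul_pow, sq (Real.sqrt q), a3]; ring
  by_contra hn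
  have : 0 ≤ c * Real.sqrt q := by positivity
  nlinarith

lemma Dens.nr0 {r : ℕ → ℂ → ℝ} {h ε : ℝ} (H : Dens r q x γ h ε) : Nr ε (r 0) := H.1 0 (Nat.zero_le _)
lemma Dens.nr1 {r : ℕ → ℂ → ℝ} {h ε : ℝ} (H : Dens r q x γ h ε) : Nr ε (r (36 * q)) :=
  H.1 _ le_rfl

lemma flat_bd {n : ℂ → ℂ} {h Λ : ℝ} (hh : 0 < h) (hΛ : 0 < Λ) (d d' : ℝ) :
    Flat n 0 d d' (Λ ^ 2 * (d / (Λ ^ 3 * h) + (d' + d / Λ ^ 16) / h)) :=
  Flat.mono (κ := 0) (fun z v _ _ => by simp) fun _ _ => by positivity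

/-- arithmetic of the ordinary block -/
lemma arN {Cs Cn C c0 cs K v z t A B D μ oν ε F : ℝ} (hCs : 1 ≤ Cs) (hCn : 1 ≤ Cn)
    (hC : 300 * Cs * Cn ^ 2 ≤ C) (hc : 10 * c0 ≤ cs) (hCc : C * c0 ≤ 1 / 100)
    (hK : 1000 * Cn ≤ K * cs) (hK' : 100 * C ≤ K) (hv0 : 0 ≤ v) (hv : K * v ≤ 1) (ht0 : 0 ≤ t)
    (htz : t ≤ z) (hz : z ≤ v ^ 2) (hA0 : 0 ≤ A) (hA : A ≤ 81 * v ^ 2) (hB : B ≤ 81 * z)
    (hD : D = A ^ 2) (hμ0 : 0 ≤ μ) (hμ : μ ≤ c0) (ho0 : 0 ≤ oν) (ho : oν ≤ c0) (hε : ε ≤ c0)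
    (hF0 : 0 ≤ F) (hF : F ≤ c0) :
    ε + μ + 0 + 0 + Cn * v ^ 2 + Cn * v + F + A + t + oν ≤ cs ∧
    Cs * (oν + F + B + t + A + (A + 0 ^ 2 + 0) ^ 2 + Cn * v ^ 2 + (0 + 0 + Cn * v) * (μ + Cn * v)) ≤
      C * (oν + F + μ * v + v ^ 2) ∧ C * (oν + F + μ * v + v ^ 2) ≤ 1 ∧
    Cs * (0 + 0 + Cn * v ^ 2 + Cn * v) ≤ C * v ∧ Cs * (B + t) ≤ C * z ∧
    Cs * (F + A + B + D + t) ≤ C * (F + v ^ 2) := by
  have hCn2 : Cn ≤ Cn ^ 2 := by nlinarith only [hCn]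
  have hC1 : 300 * Cs ≤ C := by nlinarith only [hC, hCn2, hCn, hCs]
  have hK1 : 30000 ≤ K := by linarith only [hC1, hCs, hK']
  have hv1 : 1000 * v ≤ 1 := by nlinarith only [hK1, hv, hv0]
  have hvv : 1000 * v ^ 2 ≤ v := by nlinarith only [hv1, hv0]
  have hcs0 : 0 < cs := by
    by_contra hn
    have : K * cs ≤ 0 := mul_nonpos_of_nonneg_of_nonpos (by linarith only [hK1]) (not_lt.mp hn)
    linarith only [this, hK, hCn]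
  have hCv : 1000 * (Cn * v) ≤ cs := by
    have : 1000 * Cn * v ≤ K * cs * v := by gcongr
    nlinarith only [this, hv, hcs0]
  have hv2 : v ≤ Cn * v := by nlinarith only [hCn, hv0]
  have hv3 : Cn * v ^ 2 ≤ Cn * v := by gcongr; linarith only [hvv, sq_nonneg v]
  have hA1 : A ≤ 1 := by linarith only [hA, hvv, hv1]
  have hAA : A ^ 2 ≤ 81 * v ^ 2 := by nlinarith only [hA, hA1, hA0]
  have hz0 : 0 ≤ z := ht0.trans htz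
  have hCn3 : 1 ≤ Cn ^ 2 := hCn.trans hCn2
  have hw : v ^ 2 ≤ Cn ^ 2 * v ^ 2 := le_mul_of_one_le_left (sq_nonneg v) hCn3
  have hw' : Cn * v ^ 2 ≤ Cn ^ 2 * v ^ 2 := by gcongr
  have hμv : 0 ≤ μ * v := by positivity
  have hC0 : 0 ≤ C := by linarith only [hC1, hCs]
  refine ⟨by linarith only [hε, hμ, hF, ho, hc, hCv, hv3, hv2, hA, htz, hz, hvv, hcs0, hv0],
    ?_, ?_, ?_, ?_, ?_⟩
  · have e : oν + F + B + t + A + (A + 0 ^ 2 + 0) ^ 2 + Cn * v ^ 2 +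
        (0 + 0 + Cn * v) * (μ + Cn * v) ≤ 300 * Cn ^ 2 * (oν + F + μ * v + v ^ 2) := by
      have b1 : oν + F ≤ Cn ^ 2 * (oν + F) := le_mul_of_one_le_left (by positivity) hCn3
      have b2 : Cn * (μ * v) ≤ Cn ^ 2 * (μ * v) := by gcongr
      have b3 : 0 ≤ Cn ^ 2 * (oν + F) := by positivity
      have b4 : 0 ≤ Cn ^ 2 * (μ * v) := by positivity
      have b5 : 0 ≤ Cn ^ 2 * v ^ 2 := by positivity
      linarith only [b1, b2, b3, b4, b5, hB, htz, hz, hA, hAA, hw, hw']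
    calc _ ≤ Cs * (300 * Cn ^ 2 * (oν + F + μ * v + v ^ 2)) := by gcongr
      _ = 300 * Cs * Cn ^ 2 * (oν + F + μ * v + v ^ 2) := by ring
      _ ≤ _ := by gcongr
  · have b1 : C * oν ≤ C * c0 := by gcongr
    have b2 : C * F ≤ C * c0 := by gcongr
    have b3 : C * (μ * v) ≤ C * c0 := by gcongr; nlinarith only [hμ, hμ0, hv1, hv0]
    have b4 : 100 * C * v ≤ K * v := by gcongr
    have b5 : C * v ^ 2 ≤ C * v := by gcongr; linarith only [hvv, sq_nonneg v]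
    linarith only [b1, b2, b3, b4, b5, hCc, hv]
  · have b1 : Cn * v ≤ Cn ^ 2 * v := by gcongr
    have b2 : 0 ≤ Cs * Cn ^ 2 := by positivity
    calc _ ≤ Cs * (2 * Cn ^ 2 * v) := by gcongr; linarith only [b1, hv3]
      _ = 2 * Cs * Cn ^ 2 * v := by ring
      _ ≤ _ := by gcongr; linarith only [b2, hC]
  · calc _ ≤ Cs * (82 * z) := by gcongr; linarith only [hB, htz]
      _ = 82 * Cs * z := by ring
      _ ≤ _ := by gcongr; linarith only [hC1, hCs]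
  · calc _ ≤ Cs * (300 * (F + v ^ 2)) := by
          gcongr; linarith only [sq_nonneg v, hD, hAA, hA, hB, htz, hz, hF0]
      _ = 300 * Cs * (F + v ^ 2) := by ring
      _ ≤ _ := by gcongr

lemma blockN {M Cs cs Cn cn Qn C c0 γ K : ℝ} (hS : SwitchP M Cs cs) (hN : NrunP Cn cn γ Qn)
    (hM : 1 ≤ M) (hCs : 1 ≤ Cs) (hCn : 1 ≤ Cn) (hcn : 0 < cn) (hγ : 2 ≤ γ)
    (hC : 300 * Cs * Cn ^ 2 ≤ C) (hc : 10 * c0 ≤ cs) (hCc : C * c0 ≤ 1 / 100)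
    (hK0 : 1000 * (Cs * Cn) ^ 2 ≤ K) (hK : 1000 * Cn ≤ K * cs) (hK' : 100 * C ≤ K)
    (hK2 : 1 ≤ K * cn ^ 2) (hK3 : Qn ≤ K) : BlockNP M γ C c0 K := by
  intro q x Λ hq hx hΛ h60 w r f Y n h μ φ oν lo hi ε e hh hst hε hw hD hlo hhi hμ ho0 ho hF he
  have H : Par q x Λ γ K := ⟨by linarith only [(cst hCs hCn hK0).1, hCs], hq, hx, hΛ, h60, hγ⟩
  have hΛ0 := H.Λ0
  have hq0 := H.q0
  have hx0 := H.x0
  have hlo0 : 0 < lo := by linarith only [hlo, hΛ0]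
  have hC1 : 1 ≤ C := by
    linarith only [hC, one_le_mul_of_one_le_of_one_le hCs (one_le_pow₀ hCn : 1 ≤ Cn ^ 2)]
  have hφ0 : 0 ≤ φ := (abs_nonneg _).trans (hst.phi 0)
  have hμ0 : 0 ≤ μ := (norm_nonneg _).trans (hst.mu 0)
  have hc1 : c0 ≤ 1 / 100 := by nlinarith only [hCc, hC1, hμ0, hμ]
  set T := x ^ 4 * (q : ℝ) ^ 21 with hT
  set v := 1 / (x ^ 2 * (q : ℝ) ^ 3) with hv
  set z := 1 / (x ^ 8 * (q : ℝ) ^ 27) with hz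
  have T1 : 1 ≤ T := H.T1
  have hTΛ : T = Λ ^ 2 * v := H.TΛ
  have hv0 : 0 ≤ v := by positivity
  have hKv : K * v ≤ 1 := le_trans (mul_le_mul_of_nonneg_left H.vq (by linarith only [H.hK])) H.qK
  have hv9 : 9 * v ≤ 1 := by nlinarith only [hKv, H.hK, hv0]
  have hu : 1 / (x ^ 4 * (q : ℝ) ^ 6) = v ^ 2 := by rw [hv]; field_simp
  have hφ1 : φ ≤ 1 / 10 := by nlinarith only [T1, hF, hc1, hφ0]
  have hTlo : T ≤ lo ^ 2 := by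
    calc T = Λ ^ 2 * v := hTΛ
      _ ≤ Λ ^ 2 * (1 / 9) := by gcongr; linarith only [hv9]
      _ = (Λ / 3) ^ 2 := by ring
      _ ≤ _ := by gcongr
  obtain ⟨f', Y', R', hc', hr'⟩ := hN q x Λ (hK3.trans hq) hx hΛ h60 w 0 0 0 r f Y n f Y id h _ _ _ μ φ
    _ oν lo hi ε (1 / Real.sqrt q) 0 0 0 T 0 0 hh hst (hε.trans hc1) hw hD hlo hhi
    (hst.core.mono hh le_rfl (by rw [mul_div_assoc]; linarith only [show 0 ≤ Λ ^ 20 / h by positivity]))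
    (H.sqc hcn hK2)
    ((Run.refl n f Y).mono (by positivity) (by positivity) (by positivity) le_rfl le_rfl le_rfl)
    (flat_bd hh hΛ0) (fun z => by simp [hT]) (by linarith only [hF, hc1]) hφ1 hTlo
    (by linarith only [hμ, hc1])
  have hA : T ^ 2 / lo ^ 4 ≤ 81 * v ^ 2 := (H.lo4 hlo (by positivity)).trans_eq (by
    rw [hTΛ]; field_simp)
  have hB : T / lo ^ 4 ≤ 81 * z := (H.lo4 hlo (by positivity)).trans_eq (by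
    rw [hT, hz, H.Λpow]; field_simp)
  have hzv : z ≤ v ^ 2 := by rw [← hu]; exact H.frac (by norm_num) (by norm_num)
  obtain ⟨a1, a2, a3, a4, a5, a6⟩ := arN (D := T ^ 4 / lo ^ 8) hCs hCn hC hc hCc hK hK' hv0 hKv
    (by positivity : 0 ≤ 1 / Λ ^ 7) H.t7 hzv (by positivity) hA hB (by field_simp) hμ0 hμ ho0 ho hε
    (by positivity : 0 ≤ T * φ) hF
  have eTT : T * T / lo ^ 4 = T ^ 2 / lo ^ 4 := by ring
  have he' : e = C * (oν + T * φ + μ * v + v ^ 2) := by rw [he, hu, hv]; ring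
  have hCs0 : 0 < Cs := by linarith only [hCs]
  refine sw (τ := T) (e1 := Cn * v ^ 2) (e2 := Cn * v) (Q := T) (pb1 := 0) (pb2 := 0) (LP := 0)
    (err := e / Cs) hS hCs hCn H hK0 hh hst H.b1 hc'
    (hr'.mono le_rfl le_rfl le_rfl (by simp [hT]) (by rw [← hu]; simp [div_eq_mul_inv])
      (by rw [hv]; simp [div_eq_mul_inv])) hw (Dens.nr0 hD) (Dens.nr1 hD) hlo hhi T1
    (by rw [hTΛ]; nlinarith only [hv9, sq_nonneg Λ]) ho0 le_rfl (by positivity)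
    (fun z => by simp) (fun z z' => by simp) a1 ?_ (fun y => ?_) hM ?_ ?_ ?_
  · rw [le_div_iff₀ hCs0, eTT, he', mul_comm]; exact a2
  · have b := hst.band y
    have e1 : Cs * (e / Cs) = e := by field_simp
    have e0 : 0 ≤ e := by rw [he']; positivity
    have e2 : e ≤ 1 := he' ▸ a3
    have u1 := mul_le_mul_of_nonneg_right b.1 (sub_nonneg.mpr e2)
    have u2 := mul_le_mul_of_nonneg_right b.2 (by linarith only [e0] : 0 ≤ 1 + e)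
    simp only [Pi.zero_apply, e1, abs_zero]
    exact ⟨u1.trans_eq (by ring), le_trans (le_of_eq (by ring)) u2⟩
  · exact a4.trans_eq (by rw [hv]; ring)
  · have : C / (x ^ 8 * (q : ℝ) ^ 27) = C * z := by rw [hz]; ring
    linarith only [this, a5]
  · rw [eTT, hu]; exact a6

end Blk
end Pool.Agent.MP_20bec2_an.Pl

end MrgPart3

-- ======== part 4: formerly Pool.Agent.MP_20bec2_an.Pl.Block
section MrgPart4

set_option autoImplicit false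
open MeasureTheory Set Complex Filter Finset

namespace Pool.Agent.MP_20bec2_an.Pl
namespace Blk

variable {q : ℕ} {x Λ γ K : ℝ}

/-- arithmetic of the corrugation block -/
lemma arC {Cs G C c0 cs s ε v y t A B D E F μ oν : ℝ} (hCs : 1 ≤ Cs) (hG : 1 ≤ G)
    (hC : 1000000 * Cs * G ^ 4 ≤ C) (hc : 2000 * G ^ 2 * c0 ≤ cs) (hCc : C * c0 ≤ 1 / 100)
    (hs0 : 0 < s) (hs : s ≤ c0) (hε0 : 0 ≤ ε) (hε : ε ≤ c0) (hv0 : 0 ≤ v) (hv : v ≤ s ^ 2)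
    (hy0 : 0 ≤ y) (hy : y ≤ s ^ 2) (ht : t ≤ s * y) (hA0 : 0 ≤ A) (hA : A ≤ 729 * (G ^ 2 * s ^ 2))
    (hB : B ≤ 243 * (G * (s * y))) (hD : D = A ^ 2)
    (hE : E ≤ 243 * (G * s * (G * (ε + s) * s + v))) (hF : F ≤ 3 * (G * s ^ 3))
    (hμ0 : 0 ≤ μ) (hμ : μ ≤ s ^ 4) (ho : oν ≤ s ^ 4) :
    ε + μ + G * s ^ 2 + G * s + (G * (ε + s) * s ^ 2 + G * v ^ 2) + (G * s ^ 2 + G * v) + F + A + t +
      oν ≤ cs ∧
    oν + F + B + t + E + (A + (G * s) ^ 2 + G * s ^ 2) ^ 2 + (G * (ε + s) * s ^ 2 + G * v ^ 2) +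
      (G * s ^ 2 + G * s + (G * s ^ 2 + G * v)) * (μ + (G * s ^ 2 + G * v)) ≤
      600000 * G ^ 4 * ((ε + s) * s ^ 2) ∧
    Cs * (600000 * G ^ 4 * ((ε + s) * s ^ 2)) + G * s ^ 3 ≤ C * (ε + s) * s ^ 2 ∧
    C * (ε + s) * s ^ 2 ≤ 1 / 50 ∧ Cs * (83 * (G ^ 2 * s ^ 2)) ≤ 1 / 100 ∧
    Cs * (G * s ^ 2 + G * s + (G * (ε + s) * s ^ 2 + G * v ^ 2) + (G * s ^ 2 + G * v)) ≤ C * s ∧
    Cs * (B + t) ≤ C * (s * y) ∧ Cs * (F + E + B + D + t) ≤ C * (ε + s) * s ^ 2 := by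
  have g2 : G ≤ G ^ 2 := by nlinarith only [hG]
  have g4 : G ^ 2 ≤ G ^ 4 := pow_le_pow_right₀ hG (by norm_num)
  have hG0 : 0 ≤ G := by linarith only [hG]
  have hC1 : 1000000 * G ^ 4 ≤ C := by nlinarith only [hC, hCs, g4, g2, hG]
  have hC0 : 0 ≤ C := by linarith only [hC1, g4, g2, hG]
  have hc1 : c0 ≤ 1 / 100 := by nlinarith only [hCc, hC1, g4, g2, hG, hs, hs0]
  have s1 : s ≤ 1 := by linarith only [hs, hc1]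
  have s21 : s ^ 2 ≤ s := by nlinarith only [s1, hs0]
  have s32 : s ^ 3 ≤ s ^ 2 := pow_le_pow_of_le_one hs0.le s1 (by norm_num)
  have s43 : s ^ 4 ≤ s ^ 3 := pow_le_pow_of_le_one hs0.le s1 (by norm_num)
  obtain ⟨W, hW⟩ : ∃ W, W = (ε + s) * s ^ 2 := ⟨_, rfl⟩
  have w0 : s ^ 3 ≤ W := by rw [hW]; nlinarith only [hε0, sq_nonneg s]
  have w1 : W ≤ s ^ 2 := by rw [hW]; nlinarith only [hε, hs, hc1, sq_nonneg s]
  have hW0 : 0 ≤ W := le_trans (by positivity) w0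
  have vv : v ^ 2 ≤ s ^ 4 := by
    calc v ^ 2 ≤ (s ^ 2) ^ 2 := by gcongr
      _ = _ := by ring
  have sy : s * y ≤ s ^ 3 := by
    calc s * y ≤ s * s ^ 2 := by gcongr
      _ = _ := by ring
  have sv : s * v ≤ s ^ 3 := by
    calc s * v ≤ s * s ^ 2 := by gcongr
      _ = _ := by ring
  -- everything in the unit G^4 W
  have u0 : W ≤ G ^ 4 * W := le_mul_of_one_le_left hW0 (by linarith only [g4, g2, hG])
  have u1 : G * W ≤ G ^ 4 * W := by gcongr; linarith only [g4, g2]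
  have u2 : G ^ 2 * W ≤ G ^ 4 * W := by gcongr
  have u3 : G * s ^ 3 ≤ G * W := by gcongr
  have u4 : G * (s * y) ≤ G * W := by gcongr; linarith only [sy, w0]
  have u5 : G * (s * v) ≤ G * W := by gcongr; linarith only [sv, w0]
  have u6 : G * v ^ 2 ≤ G * W := by gcongr; linarith only [vv, s43, w0]
  have u7 : G ^ 4 * s ^ 4 ≤ G ^ 4 * W := by gcongr; linarith only [s43, w0]
  have u8 : G ^ 2 * s ^ 3 ≤ G ^ 2 * W := by gcongr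
  have hE' : E ≤ 243 * (G ^ 2 * W) + 243 * (G * (s * v)) := hE.trans_eq (by rw [hW]; ring)
  have k1 : G * s ^ 2 ≤ G ^ 2 * s ^ 2 := by gcongr
  have k2 : G * s ^ 2 ≤ G * s := by gcongr
  have k3 : G * v ≤ G * s ^ 2 := by gcongr
  have k4 : s ^ 2 ≤ G * s ^ 2 := le_mul_of_one_le_left (by positivity) hG
  have k5 : G * W ≤ G * s ^ 2 := by gcongr
  have hA2 : (A + (G * s) ^ 2 + G * s ^ 2) ^ 2 ≤ 534361 * (G ^ 4 * s ^ 4) := by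
    calc _ ≤ (731 * (G ^ 2 * s ^ 2)) ^ 2 := by gcongr; linarith only [hA, k1]
      _ = _ := by ring
  have hD2 : D ≤ 534361 * (G ^ 4 * s ^ 4) := by
    rw [hD]; refine le_trans ?_ hA2; gcongr
    linarith only [sq_nonneg (G * s), show 0 ≤ G * s ^ 2 by positivity]
  have hP : (G * s ^ 2 + G * s + (G * s ^ 2 + G * v)) * (μ + (G * s ^ 2 + G * v)) ≤
      12 * (G ^ 2 * s ^ 3) := by
    calc _ ≤ (4 * (G * s)) * (3 * (G * s ^ 2)) := by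
          gcongr
          · linarith only [k2, k3]
          · linarith only [k3, k4, hμ, s43, s32]
      _ = _ := by ring
  have eW : G * (ε + s) * s ^ 2 = G * W := by rw [hW]; ring
  have eC : C * (ε + s) * s ^ 2 = C * W := by rw [hW]; ring
  have hCW : 1000000 * (Cs * (G ^ 4 * W)) ≤ C * W := by
    calc _ = 1000000 * Cs * G ^ 4 * W := by ring
      _ ≤ _ := by gcongr
  have m0 : G ^ 4 * W ≤ Cs * (G ^ 4 * W) := le_mul_of_one_le_left (by positivity) hCs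
  have m1 : Cs * G ≤ Cs * G ^ 4 := by gcongr; linarith only [g4, g2]
  have m2 : 0 ≤ Cs * G := by positivity
  rw [eW, eC, ← hW]
  refine ⟨?_, ?_, ?_, ?_, ?_, ?_, ?_, ?_⟩
  · have b1 : G * s ≤ G ^ 2 * c0 := by gcongr
    have b2 : G ^ 2 * s ^ 2 ≤ G ^ 2 * c0 := by gcongr; linarith only [s21, hs]
    have b3 : c0 ≤ G ^ 2 * c0 := le_mul_of_one_le_left (by linarith only [hs, hs0]) (hG.trans g2)
    linarith only [b1, b2, b3, hc, hε, hμ, ho, hF, hA, ht, sy, s43, s32, s21, hs, k1, k2, k3, k5, u3,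
      u6, hs0]
  · linarith only [ho, hF, hB, ht, hE', hA2, hP, u0, u1, u2, u3, u4, u5, u6, u7, u8, sy, s43, w0, hW0]
  · linarith only [hCW, m0, u1, u3, u0, hW0]
  · have : C * W ≤ C * c0 := by gcongr; linarith only [w1, s21, hs]
    linarith only [this, hCc]
  · have b1 : Cs * (G ^ 2 * s ^ 2) ≤ Cs * (G ^ 4 * c0) := by gcongr; linarith only [s21, hs]
    have b2 : 1000000 * Cs * G ^ 4 * c0 ≤ C * c0 := by gcongr; linarith only [hs, hs0]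
    have b3 : 0 ≤ Cs * (G ^ 2 * s ^ 2) := by positivity
    linarith only [b1, b2, b3, hCc]
  · calc _ ≤ Cs * (6 * (G * s)) := by gcongr; linarith only [k2, k3, k5, u6]
      _ = 6 * (Cs * G) * s := by ring
      _ ≤ _ := by gcongr; linarith only [m1, m2, hC]
  · have : s * y ≤ G * (s * y) := le_mul_of_one_le_left (by positivity) hG
    calc _ ≤ Cs * (244 * (G * (s * y))) := by gcongr; linarith only [hB, ht, this]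
      _ = 244 * (Cs * G) * (s * y) := by ring
      _ ≤ _ := by gcongr; linarith only [m1, m2, hC]
  · have : Cs * (F + E + B + D + t) ≤ Cs * (600000 * (G ^ 4 * W)) := by
      gcongr
      linarith only [hF, hB, ht, hE', hD2, u0, u1, u2, u3, u4, u5, u7, sy, w0, hW0]
    linarith only [this, hCW, m0, u0, hW0]

/-- the new band after the corrugation -/
lemma bandC {N lo hi Λ g a X e0 e s : ℝ} (hΛ : 0 < Λ) (hlo : Λ / 3 ≤ lo) (h1 : lo ≤ N) (h2 : N ≤ hi)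
    (ha : 0 ≤ a) (he0 : 0 ≤ e0) (he : e0 + a ≤ e) (he1 : e ≤ 1 / 50) (hX : X ≤ 1 / 100)
    (g1 : -a ≤ g) (g2 : N ≤ 4 / 3 * Λ → s ^ 2 / 5184 - a ≤ g) (g3 : 3 * Λ ≤ N → X = 0) :
    min (lo * (1 + s ^ 2 / 5184 - e)) Λ ≤ N * (1 + g - e0) ∧
      N * (1 + X + e0) ≤ max (4 * Λ) (hi * (1 + e)) := by
  have hN : 0 ≤ N := by linarith
  constructor
  · rcases le_total N (4 / 3 * Λ) with h | h
    · refine (min_le_left _ _).trans ?_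
      have := g2 h
      have := sq_nonneg s
      exact mul_le_mul h1 (by linarith) (by linarith) hN
    · refine (min_le_right _ _).trans ?_
      calc Λ = 4 / 3 * Λ * (3 / 4) := by ring
        _ ≤ _ := by gcongr; linarith
  · rcases le_total (3 * Λ) N with h | h
    · refine le_trans ?_ (le_max_right _ _)
      rw [g3 h]; gcongr <;> linarith
    · refine le_trans ?_ (le_max_left _ _)
      calc N * (1 + X + e0) ≤ N * (4 / 3) := by gcongr; linarith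
        _ ≤ _ := by linarith

lemma blockC {M Cs cs Cn cn Qn Cc cc G C c0 γ K : ℝ} (hS : SwitchP M Cs cs) (hN : NrunP Cn cn γ Qn)
    (hR : ∀ (w r : ℂ → ℝ) (f Y n : ℂ → ℂ)
  (Λ h s ε μ φ o oν lo hi : ℝ), 0 < h → 0 < s → s ≤ cc → 1 ≤ s ^ 4 * Λ → ε ≤ cc →
  St w f Y n r h s (Λ ^ 20 / h) (1 / (Λ ^ 20 * h)) (Λ ^ 4 * h) μ φ o oν lo hi → Nr ε w → Nr ε r →
  Dh r 2 (s ^ 2) h → Λ / 3 ≤ lo → hi ≤ 6 * Λ → μ ≤ s ^ 2 → oν ≤ s → φ ≤ s ^ 2 / Λ ^ 2 →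
  ∃ (f' Y' R : ℂ → ℂ) (P p1 p2 : ℂ → ℝ), Core w f' Y' r h (Cc * s) (2 * Λ ^ 20 / h) ∧
    Run n f Y f' Y' R P p1 p2 (Λ ^ 3 * h) (1 / Λ ^ 12) (1 / Λ ^ 9) (Cc * (ε + s) * s * Λ ^ 2)
      (Cc * (ε + s) * s ^ 2) (Cc * s ^ 2) ∧
    (∀ z, |P z| ≤ Cc * s * Λ ^ 2 ∧ |p1 z| ≤ Cc * s ^ 2 ∧ |p2 z| ≤ Cc * s) ∧
    (∀ z z', |P z - P z'| ≤ Cc * s * Λ ^ 2 / h * ‖z - z'‖) ∧
    (∀ d d', Flat n P d d' (Cc * s * Λ ^ 2 * (d / (Λ ^ 3 * h) + (d' + d / Λ ^ 16) / h))) ∧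
    ∀ z, -(Cc * s ^ 3) ≤ P z ^ 2 / (32 * hi ^ 4) + p2 z ^ 2 / 2 - p1 z ∧
      (NN f Y n z ≤ 4 / 3 * Λ →
        s ^ 2 / 5184 - Cc * s ^ 3 ≤ P z ^ 2 / (32 * hi ^ 4) + p2 z ^ 2 / 2 - p1 z) ∧
      (3 * Λ ≤ NN f Y n z → P z = 0 ∧ p1 z = 0 ∧ p2 z = 0))
    (hM : 1 ≤ M) (hCs : 1 ≤ Cs) (hCn : 1 ≤ Cn) (hCc1 : 1 ≤ Cc) (hγ : 2 ≤ γ) (hG1 : Cn ≤ G)
    (hG2 : Cc ≤ G) (hC : 1000000 * Cs * G ^ 4 ≤ C) (hc : 2000 * G ^ 2 * c0 ≤ cs)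
    (hCc : C * c0 ≤ 1 / 100) (hcn : G * c0 ≤ cn) (hcc : c0 ≤ cc)
    (hK0 : 1000 * (Cs * Cn) ^ 2 ≤ K) (hK3 : Qn ≤ K) : BlockCP M γ C c0 K := by
  intro q x Λ hq hx hΛ h60 w r f Y n h μ φ oν lo hi ε s hh hst hε hw hD hlo hhi hs0 hs hqs hμ ho0 ho
    hφ
  have H : Par q x Λ γ K := ⟨by linarith only [(cst hCs hCn hK0).1, hCs], hq, hx, hΛ, h60, hγ⟩
  have hΛ0 := H.Λ0
  have hq0 := H.q0
  have hx0 := H.x0
  have hlo0 : 0 < lo := by linarith only [hlo, hΛ0]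
  have hG : 1 ≤ G := hCn.trans hG1
  have hG0 : 0 < G := by linarith only [hG]
  have hCc0 : 0 < Cc := by linarith only [hCc1]
  have hφ0 : 0 ≤ φ := (abs_nonneg _).trans (hst.phi 0)
  have hμ0 : 0 ≤ μ := (norm_nonneg _).trans (hst.mu 0)
  have hε0 : 0 ≤ ε := (abs_nonneg _).trans (hw 0)
  have hGc : 1000 * (G * c0) ≤ 1 := by
    have g4 : G ≤ G ^ 4 := by simpa using pow_le_pow_right₀ hG (by norm_num : 1 ≤ 4)
    have b1 : G ≤ Cs * G ^ 4 := g4.trans (le_mul_of_one_le_left (by positivity) hCs)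
    have b2 : 1000000 * G * c0 ≤ C * c0 := by gcongr <;> linarith only [hs, hs0, b1, hC]
    linarith only [b2, hCc, show 0 ≤ G * c0 by nlinarith only [hs, hs0, hG]]
  have hGs : 1000 * (G * s) ≤ 1 := le_trans (by gcongr) hGc
  have hc1 : 1000 * c0 ≤ 1 := by nlinarith only [hGc, hG, hs, hs0]
  have s1 : s ≤ 1 := by linarith only [hs, hc1]
  have s21 : s ^ 2 ≤ s := by nlinarith only [s1, hs0]
  have k2 : G * s ^ 2 ≤ G * s := by gcongr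
  have hq4 : 1 / (q : ℝ) ^ 2 ≤ s ^ 4 := by
    calc 1 / (q : ℝ) ^ 2 = (1 / q) ^ 2 := by ring
      _ ≤ (s ^ 2) ^ 2 := by gcongr
      _ = _ := by ring
  have s42 : s ^ 4 ≤ s ^ 2 := pow_le_pow_of_le_one hs0.le s1 (by norm_num)
  set v := 1 / (x ^ 2 * (q : ℝ) ^ 3) with hv
  have hv0 : 0 ≤ v := by positivity
  have hvs : v ≤ s ^ 2 := H.vq.trans hqs
  have hu : 1 / (x ^ 4 * (q : ℝ) ^ 6) = v ^ 2 := by rw [hv]; field_simp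
  have hTΛ : x ^ 4 * (q : ℝ) ^ 21 = Λ ^ 2 * v := H.TΛ
  have hΛq : ∀ k, 1 ≤ k → 1 / Λ ^ k ≤ s ^ 2 := fun k hk => (H.inv_le hk).trans
    ((one_div_le_one_div_of_le hq0 (by simpa using H.qΛ)).trans hqs)
  have hb : 1 / Real.sqrt q ≤ s := by
    rw [one_div, ← Real.sqrt_inv]; exact Real.sqrt_le_iff.mpr ⟨hs0.le, by rwa [← one_div]⟩
  have hφs : φ ≤ s ^ 2 / Λ ^ 2 := hφ.trans (by
    calc 1 / (Λ ^ 2 * q) = (1 / q) / Λ ^ 2 := by field_simp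
      _ ≤ _ := by gcongr)
  have hsΛ : 1 ≤ s ^ 4 * Λ := by
    have : (q : ℝ) ^ 2 ≤ Λ := by
      simpa [← hΛ] using H.mono (a := 0) (b := 2) (c := 3) (d := 12) (by norm_num) (by norm_num)
    calc 1 = 1 / (q : ℝ) ^ 2 * (q : ℝ) ^ 2 := by field_simp
      _ ≤ _ := by gcongr
  have hr0 : Dh (r 0) 2 (s ^ 2) h := by
    have := (hD.2 0 (by have := H.qn; omega)).2.1
    simp only [Nat.zero_div, pow_zero, div_one] at this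
    exact this.mono hh le_rfl hqs
  obtain ⟨f1, Y1, R1, P, p1, p2, c1, r1, bP, lP, fP, gP⟩ := hR w (r 0) f Y n Λ h s ε μ φ _ oν lo hi hh
    hs0 (hs.trans hcc) hsΛ (hε.trans hcc)
    (St.mono hst hh hb le_rfl le_rfl le_rfl le_rfl le_rfl le_rfl le_rfl le_rfl le_rfl) hw
    (Dens.nr0 hD) hr0 hlo hhi (by linarith only [hμ, hq4, s42]) (by linarith only [ho, hq4, s42, s21])
    hφs
  have bP' : ∀ z, |P z| ≤ G * s * Λ ^ 2 ∧ |p1 z| ≤ G * s ^ 2 ∧ |p2 z| ≤ G * s := fun z =>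
    ⟨(bP z).1.trans (by gcongr), (bP z).2.1.trans (by gcongr), (bP z).2.2.trans (by gcongr)⟩
  have hσ : ε + s ≤ 1 := by linarith only [hε, hs, hc1]
  have hτ : G * (ε + s) * s * Λ ^ 2 + Λ ^ 2 * v ≤ 2 * (G * s * Λ ^ 2) := by
    have b1 : G * (ε + s) * s * Λ ^ 2 ≤ G * 1 * s * Λ ^ 2 := by gcongr
    have b2 : Λ ^ 2 * v ≤ Λ ^ 2 * (G * s) := by
      gcongr; nlinarith only [hvs, s21, hG, hs0]
    linarith only [b1, b2]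
  have he1 : G * (ε + s) * s ^ 2 ≤ G * s ^ 2 := by
    calc _ ≤ G * 1 * s ^ 2 := by gcongr
      _ = _ := by ring
  have hF : 3 * (G * s * Λ ^ 2) * φ ≤ 3 * (G * s ^ 3) := by
    calc _ ≤ 3 * (G * s * Λ ^ 2) * (s ^ 2 / Λ ^ 2) := by gcongr
      _ = _ := by field_simp
  have s31 : G * s ^ 3 ≤ G * s := by gcongr; simpa using pow_le_pow_of_le_one hs0.le s1 (by norm_num : 1 ≤ 3)
  have hQ3 : 3 * (G * s * Λ ^ 2) ≤ (Λ / 3) ^ 2 := by nlinarith only [hGs, sq_nonneg Λ]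
  obtain ⟨f', Y', R', hc', hr'⟩ := hN q x Λ (hK3.trans hq) hx hΛ h60 w P p1 p2 r f Y n f1 Y1 R1 h _ _ _
    μ φ _ oν lo hi ε (Cc * s) (G * (ε + s) * s * Λ ^ 2) (G * (ε + s) * s ^ 2) (G * s ^ 2)
    (3 * (G * s * Λ ^ 2)) (2 * (G * s ^ 2)) (2 * (G * s)) hh hst (by linarith only [hε, hc1]) hw hD hlo
    hhi c1 (le_trans (by gcongr) hcn)
    (r1.mono le_rfl le_rfl le_rfl (by gcongr) (by gcongr) (by gcongr))
    (fun d d' => (fP d d').mono fun _ _ => by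
      have : Cc * s ≤ 1 := le_trans (by gcongr) (by linarith only [hGs, hG0, hs0, mul_pos hG0 hs0] :
        G * s ≤ 1)
      calc _ ≤ 1 * Λ ^ 2 * (d / (Λ ^ 3 * h) + (d' + d / Λ ^ 16) / h) := by gcongr
        _ = _ := by ring)
    (fun z => ⟨by rw [hTΛ]; linarith only [(bP' z).1, hτ], by linarith only [(bP' z).2.1, he1],
      by linarith only [(bP' z).2.2, k2]⟩) (by linarith only [hF, s31, hGs])
    (hφs.trans ((div_le_self (by positivity) (one_le_pow₀ H.Λ1')).trans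
      (by linarith only [s21, hs, hc1]))) (hQ3.trans (by gcongr))
    (by linarith only [hμ, hq4, s42, s21, hs, hc1, k2, hGs])
  obtain ⟨Q, hQ⟩ : ∃ Q, Q = 3 * (G * s * Λ ^ 2) := ⟨_, rfl⟩
  obtain ⟨τ, hτ'⟩ : ∃ τ, τ = G * (ε + s) * s * Λ ^ 2 + Λ ^ 2 * v := ⟨_, rfl⟩
  have hQ0 : 0 ≤ Q := by rw [hQ]; positivity
  have hτ0 : 0 ≤ τ := by rw [hτ']; positivity
  have ht : 1 / Λ ^ 7 ≤ s * (1 / Λ ^ 2) := by
    calc 1 / Λ ^ 7 = 1 / Λ ^ 5 * (1 / Λ ^ 2) := by field_simp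
      _ ≤ _ := by gcongr; exact (hΛq 5 (by norm_num)).trans s21
  obtain ⟨a1, a2, a3, a4, a5, a6, a7, a8⟩ := arC (A := Q ^ 2 / lo ^ 4) (B := Q / lo ^ 4)
    (D := Q ^ 4 / lo ^ 8) (E := Q * τ / lo ^ 4) (F := Q * φ) hCs hG hC hc hCc hs0 hs hε0 hε hv0 hvs
    (by positivity : 0 ≤ 1 / Λ ^ 2) (hΛq 2 (by norm_num)) ht (by positivity)
    ((H.lo4 hlo (by positivity)).trans_eq (by rw [hQ]; field_simp; ring))
    ((H.lo4 hlo hQ0).trans_eq (by rw [hQ]; field_simp; ring)) (by field_simp)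
    ((H.lo4 hlo (by positivity)).trans_eq (by rw [hQ, hτ']; field_simp; ring)) (hQ ▸ hF) hμ0
    (hμ.trans hq4) (ho.trans hq4)
  have hQ1 : 1 ≤ Q := by
    have b1 : s ^ 4 * Λ ≤ s * Λ ^ 2 := by
      gcongr
      · linarith only [s42, s21]
      · simpa using H.pw (a := 1) (b := 2) (by norm_num)
    have b2 : s * Λ ^ 2 ≤ G * (s * Λ ^ 2) := le_mul_of_one_le_left (by positivity) hG
    rw [hQ]; linarith only [b1, b2, hsΛ]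
  refine sw (τ := τ) (e1 := G * (ε + s) * s ^ 2 + G * v ^ 2) (e2 := G * s ^ 2 + G * v) (Q := Q)
    (pb1 := G * s ^ 2) (pb2 := G * s) (LP := Cc * s * Λ ^ 2 / h)
    (err := 600000 * G ^ 4 * ((ε + s) * s ^ 2)) hS hCs hCn H hK0 hh hst
    (le_trans (by gcongr) (by linarith only [hGs, mul_pos hG0 hs0] : G * s ≤ 1)) hc'
    (hr'.mono le_rfl le_rfl le_rfl (by rw [hτ', hTΛ]) (by rw [← hu, mul_one_div]; gcongr)
      (by rw [hv, mul_one_div]; gcongr)) hw (Dens.nr0 hD) (Dens.nr1 hD) hlo hhi hQ1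
    (by rw [hQ]; nlinarith only [hGs, sq_nonneg Λ]) ho0 (by positivity) ?_
    (fun z => ⟨by rw [hτ', hQ]; linarith only [(bP' z).1, hτ], (bP' z).2⟩) lP a1 a2 (fun y => ?_) hM
    a6 ?_ a8
  · calc Cc * s * Λ ^ 2 / h ≤ 1 * Λ ^ 2 / h := by
          gcongr
          exact le_trans (by gcongr) (by linarith only [hGs, mul_pos hG0 hs0] : G * s ≤ 1)
      _ = _ := by ring
  · have b := hst.band y
    have g := gP y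
    have c3 : Cc * s ^ 3 ≤ G * s ^ 3 := by gcongr
    have hX : Cs * (P y ^ 2 / lo ^ 4 + p2 y ^ 2 + |p1 y|) ≤ 1 / 100 := by
      refine le_trans ?_ a5
      have b1 : P y ^ 2 / lo ^ 4 ≤ 81 * (G ^ 2 * s ^ 2) := by
        refine (H.lo4 hlo (sq_nonneg _)).trans ?_
        have : P y ^ 2 ≤ (G * s * Λ ^ 2) ^ 2 := sq_le_sq' (abs_le.mp (bP' y).1).1 (abs_le.mp (bP' y).1).2
        calc _ ≤ 81 * ((G * s * Λ ^ 2) ^ 2 / Λ ^ 4) := by gcongr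
          _ = _ := by field_simp
      have b2 : p2 y ^ 2 ≤ (G * s) ^ 2 :=
        sq_le_sq' (abs_le.mp (bP' y).2.2).1 (abs_le.mp (bP' y).2.2).2
      have b3 : G * s ^ 2 ≤ G ^ 2 * s ^ 2 := by gcongr; nlinarith only [hG]
      gcongr; linarith only [b1, b2, b3, (bP' y).2.1]
    have := bandC (s := s) (g := P y ^ 2 / (32 * hi ^ 4) + p2 y ^ 2 / 2 - p1 y) hΛ0 hlo b.1 b.2
      (by positivity : 0 ≤ G * s ^ 3) (by positivity) a3 a4 hX (by linarith only [g.1, c3])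
      (fun hh => by linarith only [g.2.1 hh, c3]) (fun hh => by simp [g.2.2 hh])
    exact ⟨this.1.trans_eq (by ring), this.2⟩
  · have : C * s / Λ ^ 2 = C * (s * (1 / Λ ^ 2)) := by ring
    linarith only [this, a7]

end Blk

theorem block_of (h1 : SwitchStmt) (h2 : NrunStmt) (h3 : CorrStmt) : BlockStmt := by
  obtain ⟨M, Cs, cs, hM, hCs, hcs, hS⟩ := h1
  obtain ⟨Cn, cn, γ, Qn, hCn, hcn, hγ, hN⟩ := h2
  obtain ⟨Cc, cc, hCc, hcc, hR⟩ := h3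
  obtain ⟨G, hG1, hG2⟩ : ∃ G, Cn ≤ G ∧ Cc ≤ G := ⟨max Cn Cc, le_max_left _ _, le_max_right _ _⟩
  have hG : 1 ≤ G := hCn.trans hG1
  obtain ⟨C, hC⟩ : ∃ C, C = 1000000 * Cs * G ^ 4 := ⟨_, rfl⟩
  have g4 : Cn ^ 2 ≤ G ^ 4 := le_trans (by gcongr) (pow_le_pow_right₀ hG (by norm_num : 2 ≤ 4))
  have hC' : 300 * Cs * Cn ^ 2 ≤ C := by rw [hC]; gcongr; norm_num
  have hC1 : 1 ≤ C := by
    linarith only [hC', one_le_mul_of_one_le_of_one_le hCs (one_le_pow₀ hCn : 1 ≤ Cn ^ 2)]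
  obtain ⟨c0, c1, c2, c3, c4, c5⟩ : ∃ c0, 0 < c0 ∧ 2000 * G ^ 2 * c0 ≤ cs ∧ C * c0 ≤ 1 / 100 ∧
      G * c0 ≤ cn ∧ c0 ≤ cc := by
    refine ⟨min (min (cs / (2000 * G ^ 2)) (1 / 100 / C)) (min (cn / G) cc), by positivity, ?_, ?_, ?_,
      (min_le_right _ _).trans (min_le_right _ _)⟩
    · rw [mul_comm, ← le_div_iff₀ (by positivity)]; exact (min_le_left _ _).trans (min_le_left _ _)
    · rw [mul_comm, ← le_div_iff₀ (by positivity)]; exact (min_le_left _ _).trans (min_le_right _ _)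
    · rw [mul_comm, ← le_div_iff₀ (by positivity)]; exact (min_le_right _ _).trans (min_le_left _ _)
  obtain ⟨K, k1, k2, k3, k4, k5⟩ : ∃ K, 1000 * (Cs * Cn) ^ 2 ≤ K ∧ 1000 * Cn ≤ K * cs ∧ 100 * C ≤ K ∧
      1 ≤ K * cn ^ 2 ∧ Qn ≤ K := by
    refine ⟨max (max (1000 * (Cs * Cn) ^ 2) (1000 * Cn / cs)) (max (100 * C) (max (1 / cn ^ 2) Qn)),
      (le_max_left _ _).trans (le_max_left _ _), ?_, (le_max_left _ _).trans (le_max_right _ _), ?_,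
      ((le_max_right _ _).trans (le_max_right _ _)).trans (le_max_right _ _)⟩
    · rw [← div_le_iff₀ hcs]; exact (le_max_right _ _).trans (le_max_left _ _)
    · rw [← div_le_iff₀ (by positivity)]
      exact ((le_max_left _ _).trans (le_max_right _ _)).trans (le_max_right _ _)
  have c6 : 10 * c0 ≤ cs := by nlinarith only [c2, c1, (one_le_pow₀ hG : 1 ≤ G ^ 2)]
  exact ⟨M, γ, C, c0, K, hM, hγ, hC1, c1,
    Blk.blockN hS hN hM hCs hCn hcn hγ hC' c6 c3 k1 k2 k3 k4 k5,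
    Blk.blockC hS hN hR hM hCs hCn hCc hγ hG1 hG2 hC.ge c2 c3 c4 c5 k1 k5⟩

end Pool.Agent.MP_20bec2_an.Pl

end MrgPart4

-- marker of a merged file
example : 731051 + 807177 = 731051 + 807177 := rfl
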