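import Mathlib.CategoryTheory.Category.Init
import Mathlib.Tactic.Monotonicity.Lemmas
import Mathlib.LinearAlgebra.Complex.FiniteDimensional
import Mathlib.Analysis.SpecialFunctions.SmoothTransition
import Mathlib.Analysis.InnerProductSpace.NormDet
import Mathlib.Probability.Distributions.Gaussian.Multivariate

-- ======== part 0: formerly Pool.Agent.MP_20bec2_an.Pl.Defs
section MrgPart0

set_option autoImplicit false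
open MeasureTheory Set Complex

namespace Pool.Agent.MP_20bec2_an.Pl
noncomputable section

/-- wedge product of plane vectors -/
def wd (x y : ℂ) : ℝ := x.re * y.im - x.im * y.re
/-- scalar product of plane vectors -/
def ip (x y : ℂ) : ℝ := x.re * y.re + x.im * y.im
/-- Jacobian determinant -/
def jac (y : ℂ → ℂ) (z : ℂ) : ℝ := wd (fderiv ℝ y z 1) (fderiv ℝ y z I)
/-- standard Gaussian measure of the plane -/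
def gam : Measure ℂ := ProbabilityTheory.stdGaussian ℂ

/-- Lipschitz bound and bound on mixed second differences -/
structure L2 {X E : Type*} [NormedAddCommGroup X] [NormedAddCommGroup E] (f : X → E)
    (B1 B2 : ℝ) : Prop where
  n1 : 0 ≤ B1
  n2 : 0 ≤ B2
  b1 : ∀ x y, ‖f x - f y‖ ≤ B1 * ‖x - y‖
  b2 : ∀ x a b, ‖f (x + a + b) - f (x + a) - f (x + b) + f x‖ ≤ B2 * ‖a‖ * ‖b‖

/-- sup bound, Lipschitz bound and bound on mixed second differences -/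
structure D2 {X E : Type*} [NormedAddCommGroup X] [NormedAddCommGroup E] (f : X → E)
    (B0 B1 B2 : ℝ) : Prop extends L2 f B1 B2 where
  b0 : ∀ x, ‖f x‖ ≤ B0

/-- D2 at scale h -/
abbrev Dh {X E : Type*} [NormedAddCommGroup X] [NormedAddCommGroup E] (f : X → E)
    (B0 b h : ℝ) : Prop := D2 f B0 (b / h) (b / h ^ 2)

/-- differentiable with derivative in D2 -/
structure D3 {X E : Type*} [NormedAddCommGroup X] [NormedSpace ℝ X] [NormedAddCommGroup E]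
    [NormedSpace ℝ E] (f : X → E) (B1 B2 B3 : ℝ) : Prop where
  df : Differentiable ℝ f
  d2 : D2 (fderiv ℝ f) B1 B2 B3

/-- local version of L2 on a ball -/
structure Loc (f : ℂ → ℝ) (x0 : ℂ) (r B1 B2 : ℝ) : Prop where
  b1 : ∀ x y, ‖x - x0‖ < r → ‖y - x0‖ < r → |f x - f y| ≤ B1 * ‖x - y‖
  b2 : ∀ x a b, ‖x - x0‖ < r → ‖x + a - x0‖ < r → ‖x + b - x0‖ < r → ‖x + a + b - x0‖ < r →
    |f (x + a + b) - f (x + a) - f (x + b) + f x| ≤ B2 * ‖a‖ * ‖b‖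

/-- functions of one variable with four derivatives bounded at scale l -/
structure C4 (e : ℝ → ℝ) (M l : ℝ) : Prop where
  cd : ContDiff ℝ 4 e
  bd : ∀ j ≤ 4, ∀ u, |iteratedDeriv j e u| ≤ M / l ^ j

/-- window with chi(t)^2 + chi(t-1)^2 = 1 on [0,1] -/
def chi (t : ℝ) : ℝ :=
  Real.sin (Real.pi / 2 * Real.smoothTransition (1 + t)) *
    Real.sin (Real.pi / 2 * Real.smoothTransition (1 - t))
/-- plateau function: 1 on [-1/2,1/2], 0 off (-1,1) -/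
def cut (t : ℝ) : ℝ := Real.smoothTransition (2 + 2 * t) * Real.smoothTransition (2 - 2 * t)
/-- radial plateau function: 1 on the unit disc, 0 off the disc of radius 3/2 -/
def bmp (x : ℂ) : ℝ := Real.smoothTransition ((9 / 4 - (x.re ^ 2 + x.im ^ 2)) / (5 / 4))

/-- lattice of colour j -/
def cen (L0 : ℝ) (j : ℕ) (m : ℤ × ℤ) : ℂ :=
  ⟨L0 * (6 * (m.1 : ℝ) + ((j % 6 : ℕ) : ℝ)), L0 * (6 * (m.2 : ℝ) + ((j / 6 : ℕ) : ℝ))⟩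
/-- separated centres -/
def Sep (z : ℤ × ℤ → ℂ) (L : ℝ) : Prop := ∀ c c', c ≠ c' → 3 * L ≤ ‖z c - z c'‖
open Classical in
/-- gluing of functions that live in disjoint discs -/
def glue {E : Type*} [Zero E] (z : ℤ × ℤ → ℂ) (L : ℝ) (φ : ℤ × ℤ → ℂ → E) (x : ℂ) : E :=
  if h : ∃ c, ‖x - z c‖ < 3 / 2 * L then φ h.choose x else 0
/-- amplitude function of colour j -/
def aL (L0 : ℝ) (j : ℕ) : ℂ → ℝ :=
  glue (cen L0 j) (2 * L0) (fun m x => bmp (L0⁻¹ • (x - cen L0 j m)))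
/-- averaging operator of the random wiggle -/
def GG (W : ℝ) (a g : ℂ → ℝ) (x : ℂ) : ℝ :=
  ∫ θ, g (x + (W * a x) • θ) * (1 + W * fderiv ℝ a x θ) ∂gam

/-- chart with centre z0 and unit direction m -/
def ch (z0 m p : ℂ) : ℂ := z0 + m * p
/-- outside the open square of half side L -/
def Out (L : ℝ) (p : ℂ) : Prop := L ≤ |p.re| ∨ L ≤ |p.im|
/-- column integral -/
def col (ρ : ℂ → ℝ) (a u w : ℝ) : ℝ := ∫ t in a..w, ρ ⟨u, t⟩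
/-- mass of the part of the square left of u -/
def mas (ρ : ℂ → ℝ) (L u : ℝ) : ℝ := ∫ t in (-L)..u, col ρ (-L) t L
/-- pulled back density -/
def pb (g : ℂ → ℝ) (y : ℂ → ℂ) (p : ℂ) : ℝ := g (y p) * jac y p
/-- close to one -/
def Nr (ε : ℝ) (g : ℂ → ℝ) : Prop := ∀ x, |g x - 1| ≤ ε

/-- balance conditions for a density difference in a cell -/
structure Bal (δ : ℂ → ℝ) (L : ℝ) (Ep Pc : ℂ → ℝ) (d0 τ0 m0 : ℝ) : Prop where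
  out : ∀ p, Out L p → δ p = 0
  sup : ∀ u w, |col δ (-L) u w| ≤ d0
  lip : ∀ u u' w, |(col δ (-L) u w - Ep ⟨u, w⟩) - (col δ (-L) u' w - Ep ⟨u', w⟩)| ≤ τ0 * |u - u'|
  der : ∀ u w, HasDerivAt (fun u => Ep ⟨u, w⟩) (Pc ⟨u, w⟩) u
  top : ∀ u, Ep ⟨u, L⟩ = 0
  ms : ∀ u, |mas δ L u| ≤ m0
  tot : mas δ L L = 0

/-- horizontal correction of a cell -/
def hc (lam : ℝ → ℝ) (L : ℝ) (p : ℂ) : ℂ := p + ((lam p.re * cut (p.im / L) : ℝ) : ℂ)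
/-- density after the horizontal correction -/
def hcd (ρ : ℂ → ℝ) (lam : ℝ → ℝ) (L : ℝ) (p : ℂ) : ℝ :=
  ρ (hc lam L p) * (1 + deriv lam p.re * cut (p.im / L))
/-- vertical slide -/
def vs (T : ℂ → ℝ) (p : ℂ) : ℂ := p + (T p : ℂ) * I

/-- the function lam of a horizontal correction -/
structure Lam (lam : ℝ → ℝ) (L l0 l1 l2 l3 : ℝ) : Prop where
  out : ∀ u, L ≤ |u| → lam u = 0
  sup : ∀ u, |lam u| ≤ l0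
  df : Differentiable ℝ lam
  d2 : D2 (deriv lam) l1 l2 l3

/-- a vertical slide T of a cell with inverse slide S -/
structure Sld (T S : ℂ → ℝ) (L d K1 K2 : ℝ) : Prop where
  out : ∀ p, Out L p → T p = 0 ∧ S p = 0
  ins : ∀ p, ¬ Out L p → ¬ Out L (vs T p) ∧ ¬ Out L (vs S p)
  cs : Continuous S
  inv : ∀ p, vs S (vs T p) = p ∧ vs T (vs S p) = p
  sup : ∀ p, |T p| ≤ d
  df : Differentiable ℝ T
  k1 : ∀ p, ‖fderiv ℝ T p‖ ≤ K1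
  k2 : ∀ p p', ‖fderiv ℝ T p - fderiv ℝ T p'‖ ≤ K2 * ‖p - p'‖

/-- colour of a box -/
def colr {N1 N2 : ℕ} (k : Fin N1 × Fin N2) : ℕ := k.1.val % 2 + 2 * (k.2.val % 2)
/-- put the value om on all boxes of colour j -/
def setc {N1 N2 : ℕ} (j : ℕ) (θ : Fin N1 × Fin N2 → ℂ) (om : ℂ) (k : Fin N1 × Fin N2) : ℂ :=
  if colr k = j then om else θ k
/-- average over colour j -/
def avg {N1 N2 : ℕ} (j : ℕ) (J : (Fin N1 × Fin N2 → ℂ) → ℝ → ℝ → ℝ) (θ : Fin N1 × Fin N2 → ℂ)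
    (u w : ℝ) : ℝ := ∫ om, J (setc j θ om) u w ∂gam

/-- admissible functionals of the box variables -/
structure Adm {N1 N2 : ℕ} (J : (Fin N1 × Fin N2 → ℂ) → ℝ → ℝ → ℝ) (u0 w0 l H h W M : ℝ) :
    Prop where
  loc : ∀ θ θ' u w, (∀ k : Fin N1 × Fin N2, |u - (u0 + k.1.val * l)| < l →
    |w - (w0 + k.2.val * H)| < H → θ k = θ' k) → J θ u w = J θ' u w
  reg : ∀ θ w, Dh (fun u => J θ u w) (M * (1 + ‖θ‖) ^ 4) (M * (1 + ‖θ‖) ^ 4) h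
  mea : Measurable fun x : (Fin N1 × Fin N2 → ℂ) × ℝ × ℝ => J x.1 x.2.1 x.2.2
  flux : ∀ θ θ' (k : Fin N1 × Fin N2), (∀ k', k' ≠ k → θ k' = θ' k') →
    (∀ u, |∫ a in (u0 + k.1.val * l - l)..u, ∫ b in (w0 + k.2.val * H - H)..(w0 + k.2.val * H + H),
      (J θ a b - J θ' a b)| ≤ M * W * H * (1 + ‖θ‖ + ‖θ'‖) ^ 4) ∧
    ∫ a in (u0 + k.1.val * l - l)..(u0 + k.1.val * l + l),
      ∫ b in (w0 + k.2.val * H - H)..(w0 + k.2.val * H + H), (J θ a b - J θ' a b) = 0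

/-- the random wiggle in a cell -/
def wig {N1 N2 : ℕ} (W L l H : ℝ) (a : ℂ → ℝ) (y : ℂ → ℂ) (θ : Fin N1 × Fin N2 → ℂ) (p : ℂ) : ℂ :=
  (W * a (y p)) • ∑ k : Fin N1 × Fin N2,
    (chi ((p.re - (-L + k.1.val * l)) / l) * chi ((p.im - (-L + k.2.val * H)) / H)) • θ k

/-- unit frame field -/
structure Fr (n : ℂ → ℂ) (Ln : ℝ) : Prop where
  n0 : 0 ≤ Ln
  one : ∀ z, ‖n z‖ = 1
  lip : ∀ z z', ‖n z - n z'‖ ≤ Ln * ‖z - z'‖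

def V1 (f n : ℂ → ℂ) (z : ℂ) : ℂ := fderiv ℝ f z (n z)
def V2 (f n : ℂ → ℂ) (z : ℂ) : ℂ := fderiv ℝ f z (I * n z)
def UU (f n : ℂ → ℂ) (z : ℂ) : ℂ := (jac f z)⁻¹ • V2 f n z
def Phi (f n : ℂ → ℂ) (z : ℂ) : ℝ := ip (V1 f n z) (V2 f n z) / ‖V1 f n z‖ ^ 2
def NN (f Y n : ℂ → ℂ) (z : ℂ) : ℝ := ‖V1 f n z‖ * ‖V2 Y n z‖ / jac Y z

/-- relative Lipschitz bound for the derivative -/
def AfB (f : ℂ → ℂ) (Af : ℝ) : Prop :=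
  ∀ z z' ζ, ‖fderiv ℝ f z ζ - fderiv ℝ f z' ζ‖ ≤ Af * ‖f z - f z'‖ * ‖fderiv ℝ f z' ζ‖

/-- the pair (f, Y): the map f ∘ Y⁻¹ pushes the density r to the density w -/
structure Core (w : ℂ → ℝ) (f Y : ℂ → ℂ) (r : ℂ → ℝ) (h b Af : ℝ) : Prop where
  hom : IsHomeomorph f
  df : Differentiable ℝ f
  af : AfB f Af
  dY : Differentiable ℝ Y
  bY : Dh (fun z => fderiv ℝ Y z - 1) (1 / 10) b h
  eq : ∀ z, jac f z * w (f z) = r (Y z) * jac Y z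

/-- relation between an earlier pair (f, Y) and a later pair (f', Y') -/
structure Run (n f Y f' Y' R : ℂ → ℂ) (P p1 p2 : ℂ → ℝ) (d ηU ηV τ e1 e2 : ℝ) : Prop where
  comp : ∀ z, f' z = f (R z)
  dR : ∀ z, ‖R z - z‖ ≤ d
  dY : ∀ z, ‖Y' z - Y z‖ ≤ d
  hU : ∀ z, ‖UU f' n z - UU f n (R z)‖ ≤ ηU
  hV : ∀ z, ∃ a : ℝ, |a - P z| ≤ τ ∧ ‖V1 f' n z - V1 f n (R z) - a • UU f n (R z)‖ ≤ ηV
  h1 : ∀ z, ‖V1 Y' n z - V1 Y n z - p1 z • n z‖ ≤ e1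
  h2 : ∀ z, ‖V2 Y' n z - V2 Y n z - p2 z • n z‖ ≤ e2

/-- state at the start of a block -/
structure St (w : ℂ → ℝ) (f Y n : ℂ → ℂ) (r : ℂ → ℝ) (h b Af Ln d μ φ o oν lo hi : ℝ) : Prop where
  core : Core w f Y r h b Af
  fr : Fr n Ln
  mu : ∀ z, ‖fderiv ℝ Y z - 1‖ ≤ μ
  phi : ∀ z, |Phi f n z| ≤ φ
  osc : ∀ z z', ‖z - z'‖ ≤ d →
    |Phi f n z - Phi f n z'| ≤ o ∧ ‖V1 f n z‖ ≤ (1 + oν) * ‖V1 f n z'‖
  band : ∀ z, lo ≤ NN f Y n z ∧ NN f Y n z ≤ hi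

/-- P hardly changes along the direction orthogonal to n -/
def Flat (n : ℂ → ℂ) (P : ℂ → ℝ) (d d' κ : ℝ) : Prop :=
  ∀ z v, ‖v‖ ≤ d → |ip v (n z)| ≤ d' → |P (z + v) - P z| ≤ κ

/-- data of a deterministic step: potential e1(u) e2(w) in every cell, with patterns -/
structure Cells (n : ℂ → ℂ) (z : ℤ × ℤ → ℂ) (L : ℝ) (e1 e2 : ℤ × ℤ → ℝ → ℝ) (M1 l1 M2 l2 : ℝ)
    (P p1 p2 : ℂ → ℝ) (τP f1 f2 : ℝ) : Prop where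
  sep : Sep z L
  c1 : ∀ c, C4 (e1 c) M1 l1
  c2 : ∀ c, C4 (e2 c) M2 l2
  z1 : ∀ c u, L ≤ |u| → e1 c u = 0
  z2 : ∀ c u, L ≤ |u| → e2 c u = 0
  ins : ∀ c p, ‖p‖ < 3 / 2 * L →
    |P (ch (z c) (n (z c)) p) - iteratedDeriv 2 (e1 c) p.re * e2 c p.im| ≤ τP ∧
    |p1 (ch (z c) (n (z c)) p) - deriv (e1 c) p.re * deriv (e2 c) p.im| ≤ f1 ∧
    |p2 (ch (z c) (n (z c)) p) - e1 c p.re * iteratedDeriv 2 (e2 c) p.im| ≤ f2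
  out : ∀ x, (∀ c, 29 / 20 * L ≤ ‖x - z c‖) → |P x| ≤ τP ∧ |p1 x| ≤ f1 ∧ |p2 x| ≤ f2

open Classical in
/-- localised plane wave in a cell, in chart coordinates -/
def wv (on : Prop) (L h : ℝ) (om : ℂ) (j : ℕ) (p : ℂ) : ℝ :=
  if on then cut (p.re / L) * cut (p.im / L) * Real.cos ((j + 1) * ip p om / h) else 0
/-- the wave pattern of colour j -/
def wave (n : ℂ → ℂ) (act : ℂ → Prop) (L h : ℝ) (om : ℂ) (j : ℕ) : ℂ → ℝ :=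
  glue (cen (L / 2) j) L (fun c x => wv (act (cen (L / 2) j c)) L h om j
    ((starRingEnd ℂ) (n (cen (L / 2) j c)) * (x - cen (L / 2) j c)))

/-- the maps f ∘ Y⁻¹ and f' ∘ Y'⁻¹, and their inverses, are E-close -/
def Mv (f Y f' Y' : ℂ → ℂ) (E : ℝ) : Prop :=
  ∀ z z', (Y z = Y' z' → ‖f z - f' z'‖ ≤ E) ∧ (f z = f' z' → ‖Y z - Y' z'‖ ≤ E)

/-- the densities of one block of 36 q random steps -/
def Dens (r : ℕ → ℂ → ℝ) (q : ℕ) (x γ h ε : ℝ) : Prop :=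
  (∀ t ≤ 36 * q, Nr ε (r t)) ∧ ∀ t < 36 * q,
    r t = GG ((q : ℝ) ^ 2 * (h / γ ^ (t / 36))) (aL (x ^ 8 * (q : ℝ) ^ 26 * (h / γ ^ (t / 36))) (t % 36))
      (r (t + 1)) ∧
    Dh (r t) 2 (1 / q) (h / γ ^ (t / 36)) ∧ Dh (r (t + 1)) 2 (1 / q) (h / γ ^ (t / 36))

/-- state with the parameters required at the start of a block -/
def StI (w : ℂ → ℝ) (f Y n : ℂ → ℂ) (r : ℂ → ℝ) (q : ℕ) (Λ h μ φ M oν lo hi : ℝ) : Prop :=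
  St w f Y n r h (1 / Real.sqrt q) (Λ ^ 20 / h) (1 / (Λ ^ 20 * h)) (Λ ^ 4 * h) μ φ (φ / M) oν lo hi
/-- state with the parameters obtained at the end of a block -/
def StO (w : ℂ → ℝ) (f Y n : ℂ → ℂ) (r : ℂ → ℝ) (q : ℕ) (Λ h μ φ M oν lo hi : ℝ) : Prop :=
  St w f Y n r h (1 / (2 * Real.sqrt q)) (Λ ^ 20 / h) (1 / (Λ ^ 25 * h)) (Λ ^ 5 * h) μ φ (φ / M)
    oν lo hi
/-- the stretch in cycle q -/
def lamq (n q : ℕ) : ℝ := ((q : ℝ) ^ n) ^ 3 * (q : ℝ) ^ 12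
/-- state at the start of cycle q -/
def Cy (n q : ℕ) (M : ℝ) (w : ℂ → ℝ) (f Y fr : ℂ → ℂ) (r : ℂ → ℝ) (h : ℝ) : Prop :=
  StI w f Y fr r q (lamq n q) h (1 / (q : ℝ) ^ 2) (1 / (((q : ℝ) ^ n) ^ 8 * (q : ℝ) ^ 26)) M
    (1 / (q : ℝ) ^ 2) (lamq n q / 2) (5 * lamq n q)

/-- two-sided modulus bound t log(1/t)^beta -/
def Om (β : ℝ) (F : ℂ → ℂ) : Prop :=
  ∃ C t0 : ℝ, 0 < C ∧ 0 < t0 ∧ t0 < 1 ∧ ∀ x y,
    (‖x - y‖ ≤ t0 → ‖F x - F y‖ ≤ C * (‖x - y‖ * Real.log (1 / ‖x - y‖) ^ β)) ∧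
    (‖F x - F y‖ ≤ t0 → ‖x - y‖ ≤ C * (‖F x - F y‖ * Real.log (1 / ‖F x - F y‖) ^ β))

end
end Pool.Agent.MP_20bec2_an.Pl

end MrgPart0

-- ======== part 1: formerly Pool.Agent.MP_20bec2_an.Pl.Spec
section MrgPart1

set_option autoImplicit false
open MeasureTheory Set Complex Filter Finset

namespace Pool.Agent.MP_20bec2_an.Pl
noncomputable section

/-! ### A. Tools -/

/-- GA: facts on the Gaussian measure -/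
def GaStmt : Prop := ∃ C : ℝ, 1 ≤ C ∧
  (Integrable (fun θ : ℂ => (1 + ‖θ‖) ^ 8 * Real.exp ‖θ‖) gam ∧
    ∫ θ, (1 + ‖θ‖) ^ 8 * Real.exp ‖θ‖ ∂gam ≤ C) ∧
  1 / C ≤ gam.real {θ | ‖θ‖ ≤ 1} ∧
  (∀ c s : ℝ, c ^ 2 + s ^ 2 = 1 → MeasurePreserving
    (fun p : ℂ × ℂ => (c • p.1 + s • p.2, (-s) • p.1 + c • p.2)) (gam.prod gam) (gam.prod gam)) ∧
  ∀ (g : ℂ → ℝ) (B W : ℝ), Continuous g → (∀ x, |g x| ≤ B) → 0 < W →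
    D2 (fun x => ∫ θ, g (x + W • θ) ∂gam) B (C * B / W) (C * B / W ^ 2)

/-- PRIM: column primitives -/
def PrimStmt : Prop := ∀ (ρ : ℂ → ℝ) (a : ℝ), ContDiff ℝ 1 ρ →
  ContDiff ℝ 1 (fun p : ℂ => col ρ a p.re p.im) ∧ ∀ p : ℂ,
    fderiv ℝ (fun p : ℂ => col ρ a p.re p.im) p I = ρ p ∧
    fderiv ℝ (fun p : ℂ => col ρ a p.re p.im) p 1 = col (fun p => fderiv ℝ ρ p 1) a p.re p.im

/-- IMP: global implicit function for an equation that is monotone in the last variable -/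
def ImpStmt : Prop := ∀ (F : ℂ × ℝ → ℝ) (m : ℝ), 0 < m → ContDiff ℝ 1 F →
  (∀ p, m ≤ fderiv ℝ F p (0, 1)) → ∃ lam : ℂ → ℝ, (∀ x, F (x, lam x) = 0) ∧
    (∀ x s, m * |s - lam x| ≤ |F (x, s)|) ∧ Differentiable ℝ lam ∧
    ∀ x v, fderiv ℝ F (x, lam x) (0, 1) * fderiv ℝ lam x v = - fderiv ℝ F (x, lam x) (v, 0)

/-- INV: inverse of a small perturbation of the identity -/
def InvStmt : Prop := ∃ C : ℝ, 1 ≤ C ∧ ∀ (Y : ℂ → ℂ) (b h : ℝ), 0 < h → b ≤ 1 →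
  Differentiable ℝ Y → Dh (fun z => fderiv ℝ Y z - 1) (1 / 10) b h →
  ∃ J : ℂ → ℂ, (∀ x, Y (J x) = x) ∧ (∀ z, J (Y z) = z) ∧
    D3 J (10 / 9) (C * b / h) (C * b / h ^ 2) ∧ ∀ x ζ, fderiv ℝ Y (J x) (fderiv ℝ J x ζ) = ζ

/-! ### B. Vector balancing -/

/-- ALS: self-balancing walk -/
def AlsStmt : Prop := ∀ (ι : Type) [Fintype ι] (T : ℕ) (S : ℕ → Set (EuclideanSpace ℝ ι))
  (A : Finset (EuclideanSpace ℝ ι)) (c : ℝ),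
  (∀ t < T, ∀ v ∈ S t, ‖v‖ ≤ 1) → (∀ t < T, (0 : EuclideanSpace ℝ ι) ∈ convexHull ℝ (S t)) →
  (∀ a ∈ A, ‖a‖ ≤ 1) → 4 * ((A.card : ℝ) + Fintype.card ι + 1) * (T + 1) ≤ Real.exp (c / 8) →
  ∃ x : ℕ → EuclideanSpace ℝ ι, (∀ t < T, x t ∈ S t) ∧
    ∀ T' ≤ T, ∀ a ∈ A, |inner ℝ a (∑ t ∈ range T', x t)| ≤ c

/-- BAL: balancing of families of functions -/
def BalStmt : Prop := ∃ C : ℝ, 1 ≤ C ∧ ∀ (T : ℕ) (v : ℕ → Fin 2 → ℂ → ℝ → ℝ) (x : ℕ → ℝ)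
  (B h l Lb A d : ℝ), 0 < B → 0 < h → h ≤ l → l ≤ Lb → 1 ≤ A → (T : ℝ) ≤ Real.exp A →
  (∀ t < T, |x t| ≤ Lb) → (∀ t < T, ∀ k θ u, l ≤ |u - x t| → v t k θ u = 0) →
  (∀ t < T, ∀ k θ, Dh (v t k θ) (B * (1 + ‖θ‖ / A) ^ 4) (B * (1 + ‖θ‖ / A) ^ 4) h) →
  (∀ t < T, ∀ k u, Measurable (fun θ => v t k θ u) ∧ ∫ θ, v t k θ u ∂gam = 0) →
  C * B * Real.sqrt (l / h) * Real.log (2 + T + Lb / h) ≤ d →
  ∃ θ : ℕ → ℂ, (∀ t, ‖θ t‖ ≤ A) ∧ ∀ T' ≤ T, ∀ k,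
    (∀ u, |∑ t ∈ range T', v t k (θ t) u| ≤ d) ∧
    ∀ u u', |∑ t ∈ range T', v t k (θ t) u - ∑ t ∈ range T', v t k (θ t) u'| ≤ d / h * |u - u'|

/-- AVG: averaging over one colour keeps admissibility -/
def AvgStmt : Prop := ∃ C : ℝ, 1 ≤ C ∧ ∀ (N1 N2 : ℕ) (J : (Fin N1 × Fin N2 → ℂ) → ℝ → ℝ → ℝ)
  (u0 w0 l H h W M : ℝ) (j : ℕ), 0 < h → 0 < l → 0 < H → 0 < W → 0 ≤ M →
  Adm J u0 w0 l H h W M → Adm (avg j J) u0 w0 l H h W (C * M)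

/-- STG: choice of the variables of one colour -/
def StgStmt : Prop := ∃ C : ℝ, 1 ≤ C ∧ ∀ (N1 N2 : ℕ) (J : (Fin N1 × Fin N2 → ℂ) → ℝ → ℝ → ℝ)
  (u0 w0 l H h W M Lb A a0 a1 b0 d : ℝ) (j : ℕ) (θ : Fin N1 × Fin N2 → ℂ),
  Adm J u0 w0 l H h W M → 0 < M → 0 < h → h ≤ W → 0 < H → h ≤ l → l ≤ Lb →
  (∀ i < N1, |u0 + i * l| ≤ Lb) → 1 ≤ A → ((N1 * N2 : ℕ) : ℝ) ≤ Real.exp A → ‖θ‖ ≤ A →
  a0 ≤ w0 - H → w0 + N2 * H ≤ a1 → b0 ≤ u0 - l →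
  C * M * H * A ^ 4 * Real.sqrt (l / h) * Real.log (2 + (N1 * N2 : ℕ) + Lb / h) ≤ d →
  ∃ θ' : Fin N1 × Fin N2 → ℂ, ‖θ'‖ ≤ A ∧ (∀ k, colr k ≠ j → θ' k = θ k) ∧
    (∀ u w, |∫ b in a0..w, (J θ' u b - avg j J θ u b)| ≤ d) ∧
    (∀ u u' w, |(∫ b in a0..w, (J θ' u b - avg j J θ u b)) -
      ∫ b in a0..w, (J θ' u' b - avg j J θ u' b)| ≤ d / h * |u - u'|) ∧
    (∀ u, |∫ a in b0..u, ∫ b in a0..a1, (J θ' a b - avg j J θ a b)| ≤ d * W) ∧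
    ∀ u, u0 + N1 * l ≤ u → ∫ a in b0..u, ∫ b in a0..a1, (J θ' a b - avg j J θ a b) = 0

/-- FLUX: mass swept by a displacement in the direction m -/
def FluxStmt : Prop := ∀ (g : ℂ → ℝ) (y : ℂ → ℂ) (t : ℂ → ℝ) (m : ℂ) (u0 w0 w1 : ℝ),
  ContDiff ℝ 1 g → ContDiff ℝ 2 y → ContDiff ℝ 1 t → ‖m‖ = 1 →
  (∀ p : ℂ, p.re = u0 ∨ p.im = w0 ∨ p.im = w1 → t p = 0) → ∀ u,
  ∫ a in u0..u, ∫ b in w0..w1, (pb g (fun p => y p + t p • m) ⟨a, b⟩ - pb g y ⟨a, b⟩) =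
    ∫ b in w0..w1, (∫ r in (0 : ℝ)..(t ⟨u, b⟩), g (y ⟨u, b⟩ + r • m)) * wd m (fderiv ℝ y ⟨u, b⟩ I)

/-- MEAN: exact mean of the pulled back density -/
def MeanStmt : Prop := ∀ (g : ℂ → ℝ) (B : ℝ), Continuous g → (∀ x, |g x| ≤ B) →
  ∀ (x Y1 Y2 : ℂ) (κ p q : ℕ → ℝ) (κ0 p0 q0 : ℝ), 0 ≤ κ0 → ∑ j ∈ range 4, κ j ^ 2 = κ0 ^ 2 →
  ∑ j ∈ range 4, κ j * p j = κ0 * p0 → ∑ j ∈ range 4, κ j * q j = κ0 * q0 →
  (κ0 = 0 → p0 = 0 ∧ q0 = 0) →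
  ∫ a, ∫ b, ∫ c, ∫ d, g (x + (κ 0 • a + κ 1 • b + κ 2 • c + κ 3 • d)) *
      wd (Y1 + (p 0 • a + p 1 • b + p 2 • c + p 3 • d)) (Y2 + (q 0 • a + q 1 • b + q 2 • c + q 3 • d))
      ∂gam ∂gam ∂gam ∂gam =
    ∫ θ, g (x + κ0 • θ) * wd (Y1 + p0 • θ) (Y2 + q0 • θ) ∂gam

/-- JADM: bounds for the wiggle and admissibility of the pulled back density -/
def JadmStmt : Prop := ∀ Ca : ℝ, 1 ≤ Ca → ∃ C : ℝ, 1 ≤ C ∧ ∀ (N1 N2 : ℕ) (g a : ℂ → ℝ) (y : ℂ → ℂ)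
  (h W H l L : ℝ), 0 < h → h ≤ W → W ≤ H → H ≤ l → l ≤ L → Dh g 2 1 h →
  D3 y 2 (1 / h) (1 / h ^ 2) → D2 a 1 (Ca / L) (Ca / L ^ 2) →
  D3 a (Ca / L) (Ca / L ^ 2) (Ca / L ^ 3) →
  (∀ θ : Fin N1 × Fin N2 → ℂ, (∀ p, ‖wig W L l H a y θ p‖ ≤ C * ‖θ‖ * W) ∧
    D3 (wig W L l H a y θ) (C * ‖θ‖ * W / H) (C * ‖θ‖ * W / H / h) (C * ‖θ‖ * W / H / h ^ 2) ∧
    ∀ p, ‖fderiv ℝ (wig W L l H a y θ) p 1‖ ≤ C * ‖θ‖ * W / l) ∧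
  Adm (fun (θ : Fin N1 × Fin N2 → ℂ) u w => pb g (fun p => y p + wig W L l H a y θ p) ⟨u, w⟩)
    (-L) (-L) l H h W C

/-- WIG: the balanced wiggle in a cell -/
def WigStmt : Prop := ∀ Ca : ℝ, 1 ≤ Ca → ∃ C : ℝ, 1 ≤ C ∧ ∀ (g a : ℂ → ℝ) (y : ℂ → ℂ)
  (h W H l L A d : ℝ), 0 < h → h ≤ W → W ≤ H → H ≤ l → l ≤ L → 1 ≤ A →
  16 * (L / h) ^ 2 ≤ Real.exp A → Dh g 2 1 h → D3 y 2 (1 / h) (1 / h ^ 2) → (∀ x, 0 ≤ a x) →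
  D2 a 1 (Ca / L) (Ca / L ^ 2) → D3 a (Ca / L) (Ca / L ^ 2) (Ca / L ^ 3) →
  (∀ p, Out L p → a (y p) = 0) →
  C * A ^ 4 * H * Real.sqrt (l / h) * Real.log (2 + L / h) ≤ d →
  ∃ ψ : ℂ → ℂ, (∀ p, Out L p → ψ p = 0) ∧ (∀ p, ‖ψ p‖ ≤ C * A * W) ∧
    D3 ψ (C * A * W / H) (C * A * W / H / h) (C * A * W / H / h ^ 2) ∧
    (∀ p, ‖fderiv ℝ ψ p 1‖ ≤ C * A * W / l) ∧
    Bal (fun p => pb g (fun p => y p + ψ p) p - pb (GG W a g) y p) L 0 0 d (d / h) (d * W)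

/-! ### C. One cell -/

/-- LAM: horizontal correction that balances all columns -/
def LamStmt : Prop := ∃ C c0 : ℝ, 1 ≤ C ∧ 0 < c0 ∧ ∀ (ρ0 ρ1 Ep Pc : ℂ → ℝ)
  (L h b1 d0 τ0 m0 X Z : ℝ), 0 < h → h ≤ L → b1 ≤ 1 →
  (∀ p, 1 / 2 ≤ ρ0 p ∧ 1 / 2 ≤ ρ1 p) → Dh ρ0 2 b1 h → Dh ρ1 2 b1 h →
  Bal (fun p => ρ1 p - ρ0 p) L Ep Pc d0 τ0 m0 → τ0 + b1 * d0 / h + b1 * m0 / h ^ 2 ≤ X →
  (d0 + b1 * m0 / h + m0 / L) / L ≤ Z → X * h / L ≤ c0 → Z ≤ c0 →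
  ∃ lam : ℝ → ℝ, Lam lam L (2 * m0 / L) (C * Z) (C * X / L) (C * b1 / h ^ 2) ∧
    ∀ u, col (fun p => hcd ρ1 lam L p - ρ0 p) (-L) u L = 0

/-- SLIDE: vertical transport between densities with equal column masses -/
def SlideStmt : Prop := ∃ C : ℝ, 1 ≤ C ∧ ∀ (ρ0 ρ2 : ℂ → ℝ) (L h b0 D0 Pb : ℝ), 0 < h → h ≤ L →
  b0 ≤ 1 → (∀ p, 1 / 3 ≤ ρ0 p ∧ 1 / 3 ≤ ρ2 p) → Dh ρ0 3 b0 h → Dh ρ2 3 1 h →
  (∀ p, Out L p → ρ2 p = ρ0 p) → (∀ u, col (fun p => ρ2 p - ρ0 p) (-L) u L = 0) →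
  (∀ u w, |col (fun p => ρ2 p - ρ0 p) (-L) u w| ≤ D0) →
  (∀ u u' w, |col (fun p => ρ2 p - ρ0 p) (-L) u w - col (fun p => ρ2 p - ρ0 p) (-L) u' w| ≤
    Pb * |u - u'|) →
  ∃ T S : ℂ → ℝ, Sld T S L (3 * D0) (C * (1 + Pb + b0 * D0 / h))
      (C * (1 + Pb + b0 * D0 / h) ^ 2 * L / h ^ 2) ∧
    ∀ p, ρ0 (vs T p) * (1 + fderiv ℝ T p I) = ρ2 p ∧
      |ρ0 (vs T p) * fderiv ℝ T p 1 -
        deriv (fun u => col (fun p => ρ2 p - ρ0 p) (-L) u p.im) p.re| ≤ 3 * b0 * D0 / h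

/-- CELL: correction and slide -/
def CellStmt : Prop := ∃ C c0 : ℝ, 1 ≤ C ∧ 0 < c0 ∧ ∀ (ρ0 ρ1 Ep Pc : ℂ → ℝ)
  (L h b1 d0 τ0 m0 X Z Pb : ℝ), 0 < h → h ≤ L → b1 ≤ c0 →
  (∀ p, 1 / 2 ≤ ρ0 p ∧ 1 / 2 ≤ ρ1 p) → Dh ρ0 2 b1 h → Dh ρ1 2 b1 h →
  Bal (fun p => ρ1 p - ρ0 p) L Ep Pc d0 τ0 m0 → (∀ p, |Pc p| ≤ Pb) →
  τ0 + b1 * d0 / h + b1 * m0 / h ^ 2 ≤ X →
  (d0 + b1 * m0 / h + m0 / L) / L ≤ Z → X * h / L ≤ c0 → Z ≤ c0 →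
  ∃ (lam : ℝ → ℝ) (T S : ℂ → ℝ), Lam lam L (2 * m0 / L) (C * Z) (C * X / L) (C * b1 / h ^ 2) ∧
    Sld T S L (C * L * Z) (C * (1 + Pb + X)) (C * (1 + Pb + X) ^ 2 * L / h ^ 2) ∧
    ∀ p, ρ0 (vs T p) * (1 + fderiv ℝ T p I) = hcd ρ1 lam L p ∧
      |ρ0 (vs T p) * fderiv ℝ T p 1 - Pc p| ≤ C * X

/-- DET: a deterministic wiggle with potential e1(u) e2(w) -/
def DetStmt : Prop := ∃ C : ℝ, 1 ≤ C ∧ ∀ (g : ℂ → ℝ) (y : ℂ → ℂ) (m : ℂ) (e1 e2 : ℝ → ℝ)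
  (h L l1 l2 M1 M2 ε g1 b m1 m2 : ℝ), ‖m‖ = 1 → 0 < h → h ≤ l1 → h ≤ l2 → l1 ≤ L → l2 ≤ L →
  Nr ε g → ε ≤ 1 → Dh g 2 g1 h → g1 ≤ 1 → D3 y 2 (b / h) (b / h ^ 2) → b ≤ 1 →
  (∀ p, ‖p‖ < 3 / 2 * L → ‖fderiv ℝ y p 1 - m‖ ≤ m1 ∧ ‖fderiv ℝ y p I - I * m‖ ≤ m2) →
  C4 e1 M1 l1 → C4 e2 M2 l2 → (∀ u, L ≤ |u| → e1 u = 0) → (∀ u, L ≤ |u| → e2 u = 0) →
  M1 * M2 / (h * l2) ≤ 1 →
  ∃ ψ : ℂ → ℂ, (∀ p, Out L p → ψ p = 0) ∧ (∀ p, ‖ψ p‖ ≤ M1 * M2 / l2) ∧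
    D3 ψ (C * (M1 * M2 / (h * l2))) (C * (M1 * M2 / (h * l2)) / h)
      (C * (M1 * M2 / (h * l2)) / h ^ 2) ∧
    (∀ p, fderiv ℝ ψ p 1 = (deriv e1 p.re * deriv e2 p.im) • m ∧
      fderiv ℝ ψ p I = (e1 p.re * iteratedDeriv 2 e2 p.im) • m) ∧
    Bal (fun p => pb g (fun p => y p + ψ p) p - pb g y p) L (fun p => deriv e1 p.re * e2 p.im)
      (fun p => iteratedDeriv 2 e1 p.re * e2 p.im)
      (M1 * M2 / l1 + C * L * (M1 * M2 / l2) * (g1 / h + (ε + m2) / l1 + m1 / l2))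
      (C * L * (M1 * M2 / l2) * (g1 + b + ε + m1 + m2) / h ^ 2)
      (C * L * (M1 * M2 / l2) * (ε + m2))

/-! ### D. One global step -/

/-- STEPY: the new map Y -/
def StepYStmt : Prop := ∃ C c0 : ℝ, 1 ≤ C ∧ 0 < c0 ∧ ∀ (z m : ℤ × ℤ → ℂ) (Y : ℂ → ℂ)
  (ψ : ℤ × ℤ → ℂ → ℂ) (lam : ℤ × ℤ → ℝ → ℝ) (h b L s0 s1 bs l0 l1 l2 l3 Z b' : ℝ),
  0 < h → h ≤ L → Sep z L → (∀ c, ‖m c‖ = 1) → Differentiable ℝ Y →
  Dh (fun x => fderiv ℝ Y x - 1) (1 / 20) b h → s1 ≤ 1 / 50 →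
  (∀ c, (∀ p, Out L p → ψ c p = 0) ∧ (∀ p, ‖ψ c p‖ ≤ s0) ∧ D3 (ψ c) s1 (bs / h) (bs / h ^ 2) ∧
    Lam (lam c) L l0 l1 l2 l3) →
  l1 + l0 / L + (b + bs) * l0 / h ≤ Z → Z ≤ c0 → b + bs + Z + l2 * h + l3 * h ^ 2 ≤ b' → b' ≤ 1 →
  ∃ Y' : ℂ → ℂ, Differentiable ℝ Y' ∧ Dh (fun x => fderiv ℝ Y' x - 1) (1 / 10) (C * b') h ∧
    (∀ x, ‖Y' x - Y x‖ ≤ s0 + 2 * l0) ∧
    (∀ c p, ‖p‖ < 3 / 2 * L → (∀ g : ℂ → ℝ, pb g Y' (ch (z c) (m c) p) =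
        hcd (pb g fun p => Y (ch (z c) (m c) p) + ψ c p) (lam c) L p) ∧
      ‖fderiv ℝ Y' (ch (z c) (m c) p) (m c) - fderiv ℝ Y (ch (z c) (m c) p) (m c) -
        fderiv ℝ (ψ c) p 1‖ ≤ C * Z ∧
      ‖fderiv ℝ Y' (ch (z c) (m c) p) (I * m c) - fderiv ℝ Y (ch (z c) (m c) p) (I * m c) -
        fderiv ℝ (ψ c) p I‖ ≤ C * Z) ∧
    ∀ x, (∀ c, 29 / 20 * L ≤ ‖x - z c‖) → Y' x = Y x ∧ fderiv ℝ Y' x = fderiv ℝ Y x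

/-- STEPF: the glued slide -/
def StepFStmt : Prop := ∀ (z m : ℤ × ℤ → ℂ) (T S : ℤ × ℤ → ℂ → ℝ) (L d K1 K2 : ℝ), 0 < L →
  Sep z L → (∀ c, ‖m c‖ = 1) → (∀ c, Sld (T c) (S c) L d K1 K2) →
  ∃ R : ℂ → ℂ, IsHomeomorph R ∧ Differentiable ℝ R ∧ (∀ x, ‖fderiv ℝ R x‖ ≤ 1 + K1) ∧
    (∀ x x', ‖fderiv ℝ R x - fderiv ℝ R x'‖ ≤ 2 * K2 * ‖x - x'‖) ∧
    (∀ c p, ‖p‖ < 3 / 2 * L → R (ch (z c) (m c) p) = ch (z c) (m c) (vs (T c) p) ∧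
      ‖vs (T c) p‖ < 3 / 2 * L ∧
      fderiv ℝ R (ch (z c) (m c) p) (m c) = m c + fderiv ℝ (T c) p 1 • (I * m c) ∧
      fderiv ℝ R (ch (z c) (m c) p) (I * m c) = (1 + fderiv ℝ (T c) p I) • (I * m c)) ∧
    ∀ x, (∀ c, 29 / 20 * L ≤ ‖x - z c‖) → R x = x ∧ fderiv ℝ R x = 1

/-- STEP: the generic global step -/
def StepStmt : Prop := ∃ C c0 : ℝ, 1 ≤ C ∧ 0 < c0 ∧ ∀ (z : ℤ × ℤ → ℂ) (w r r' P p1 p2 : ℂ → ℝ)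
  (f Y n : ℂ → ℂ) (rc Ep Pc : ℤ × ℤ → ℂ → ℝ) (ψ : ℤ × ℤ → ℂ → ℂ)
  (h b Af Ln L Λ ε η g1 s0 s1 bs d0 τ0 m0 τP e1 e2 Pb X Z : ℝ),
  Core w f Y r h b Af → Fr n Ln → 1 ≤ Λ → (∀ x, ‖fderiv ℝ f x‖ ≤ Λ) →
  (∀ x, ‖fderiv ℝ Y x - 1‖ ≤ 1 / 20) → 0 < h → h ≤ L → Sep z L → 3 / 2 * L * Ln ≤ η → η ≤ 1 →
  ε ≤ 1 / 50 → Nr ε w → Nr ε r → Nr ε r' → Dh r' 2 g1 h → (∀ x, |p1 x| ≤ 1 ∧ |p2 x| ≤ 1) →
  (∀ x, (∀ c, 29 / 20 * L ≤ ‖x - z c‖) → r' (Y x) = r (Y x) ∧ |P x| ≤ τP ∧ |p1 x| ≤ e1 ∧ |p2 x| ≤ e2) →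
  (∀ c, Nr ε (rc c) ∧ Dh (rc c) 2 g1 h ∧ (∀ x, ‖x - z c‖ < 3 / 2 * L → rc c (Y x) = r (Y x)) ∧
    (∀ p, Out L p → ψ c p = 0) ∧ (∀ p, ‖ψ c p‖ ≤ s0) ∧ D3 (ψ c) s1 (bs / h) (bs / h ^ 2) ∧
    (∀ p, ‖p‖ < 3 / 2 * L →
      ‖fderiv ℝ (ψ c) p 1 - p1 (ch (z c) (n (z c)) p) • n (z c)‖ ≤ e1 ∧
      ‖fderiv ℝ (ψ c) p I - p2 (ch (z c) (n (z c)) p) • n (z c)‖ ≤ e2 ∧
      |P (ch (z c) (n (z c)) p) - Pc c p| ≤ τP) ∧ (∀ p, |Pc c p| ≤ Pb) ∧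
    Bal (fun p => pb r' (fun p => Y (ch (z c) (n (z c)) p) + ψ c p) p -
      pb (rc c) (fun p => Y (ch (z c) (n (z c)) p)) p) L (Ep c) (Pc c) d0 τ0 m0) →
  s1 ≤ 1 / 50 → τ0 + (b + bs + g1) * d0 / h + (b + bs + g1) * m0 / h ^ 2 ≤ X →
  (d0 + (b + bs + g1) * m0 / h + m0 / L) / L ≤ Z → b + bs + g1 + X * h / L + Z ≤ c0 →
  ∃ f' Y' R : ℂ → ℂ, Core w f' Y' r' h (C * (b + bs + g1 + X * h / L + Z))
      (Af + C * Λ ^ 3 * (1 + Pb + X) ^ 4 * L / h ^ 2) ∧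
    Run n f Y f' Y' R P p1 p2 (s0 + C * L * Z) (C * Λ * (1 + Pb + X) * η)
      (C * Λ * (1 + Pb + X) * η) (τP + C * (X + ε * Pb)) (e1 + C * (Z + η)) (e2 + C * (Z + η)) ∧
    ∀ x, |ip (R x - x) (n x)| ≤ η * (s0 + C * L * Z)

/-- GP: the averaging operator keeps bounds -/
def GpStmt : Prop := ∃ C : ℝ, 1 ≤ C ∧ ∀ (a : ℂ → ℝ) (κ W : ℝ), 0 < W → 0 ≤ κ → W * κ ≤ 1 →
  D2 a 1 κ (κ ^ 2) → D3 a κ (κ ^ 2) (κ ^ 3) →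
  (∀ (g : ℂ → ℝ) (B c : ℝ), Continuous g → (∀ x, |g x - c| ≤ B) →
    Continuous (GG W a g) ∧ ∀ x, |GG W a g x - c| ≤ B * (1 + C * (W * κ))) ∧
  (∀ (g g' : ℂ → ℝ) (B : ℝ), Continuous g → Continuous g' → (∀ x, |g x| ≤ B) → (∀ x, |g' x| ≤ B) →
    ∀ x, GG W a (fun x => g x - g' x) x = GG W a g x - GG W a g' x) ∧
  ∀ (g : ℂ → ℝ) (B0 B1 B2 : ℝ), D2 g B0 B1 B2 →
    (∀ x, |GG W a g x - g x| ≤ C * W * (B1 + κ * B0)) ∧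
    L2 (GG W a g) (B1 * (1 + C * (W * κ)) + C * W * κ ^ 2 * B0)
      (B2 * (1 + C * (W * κ)) + C * W * κ ^ 2 * B1 + C * W * κ ^ 3 * B0) ∧
    ∀ (x0 : ℂ) (ρ ρ' A1 A2 : ℝ), 0 < ρ' → 0 ≤ A1 → 0 ≤ A2 → Loc g x0 ρ A1 A2 →
      Loc (GG W a g) x0 (ρ - ρ')
        (A1 * (1 + C * (W * κ)) + C * W * κ ^ 2 * B0 + C * (W / ρ') ^ 2 * B1)
        (A2 * (1 + C * (W * κ)) + C * W * κ ^ 2 * B1 + C * W * κ ^ 3 * B0 + C * (W / ρ') ^ 2 * B2)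

/-- NST: the random step -/
def NstStmt : Prop := ∃ C c0 : ℝ, 1 ≤ C ∧ 0 < c0 ∧ ∀ (w r r' : ℂ → ℝ) (f Y n : ℂ → ℂ) (j : ℕ)
  (h b Af Ln Λ ε η g1 W H l L0 A τ : ℝ),
  Core w f Y r h b Af → Fr n Ln → 1 ≤ Λ → (∀ x, ‖fderiv ℝ f x‖ ≤ Λ) →
  (∀ x, ‖fderiv ℝ Y x - 1‖ ≤ 1 / 20) → 0 < h → h ≤ W → W ≤ H → H ≤ l → l ≤ L0 → 1 ≤ A →
  64 * (L0 / h) ^ 2 ≤ Real.exp A → 3 * L0 * Ln ≤ η → η ≤ 1 → ε ≤ 1 / 100 → Nr ε w → Nr ε r →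
  Nr ε r' → Dh r' 2 g1 h → r = GG W (aL L0 j) r' →
  A ^ 4 * Real.log (2 + L0 / h) * (H / h) * Real.sqrt (l / h) * (W / h) ≤ τ →
  b + g1 + A * W / H + τ * h / L0 ≤ c0 →
  ∃ f' Y' R : ℂ → ℂ, Core w f' Y' r' h (C * (b + g1 + A * W / H + τ * h / L0))
      (Af + C * Λ ^ 3 * (1 + τ) ^ 4 * L0 / h ^ 2) ∧
    Run n f Y f' Y' R 0 0 0 (C * τ * h) (C * Λ * (1 + τ) * η) (C * Λ * (1 + τ) * η) (C * τ)
      (C * (A * W / l + τ * h / L0 + η)) (C * (A * W / H + τ * h / L0 + η)) ∧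
    ∀ x, |ip (R x - x) (n x)| ≤ η * (C * τ * h)

/-- DST: the deterministic step -/
def DstStmt : Prop := ∃ C c0 : ℝ, 1 ≤ C ∧ 0 < c0 ∧ ∀ (z : ℤ × ℤ → ℂ) (w r P p1 p2 : ℂ → ℝ)
  (f Y n : ℂ → ℂ) (e1 e2 : ℤ × ℤ → ℝ → ℝ)
  (h b Af Ln L Λ ε η g1 μ1 μ2 M1 l1 M2 l2 τP f1 f2 b1 σ a Z : ℝ),
  Core w f Y r h b Af → Fr n Ln → 1 ≤ Λ → (∀ x, ‖fderiv ℝ f x‖ ≤ Λ) →
  (∀ x, ‖fderiv ℝ Y x - 1‖ ≤ 1 / 20) →
  (∀ x, ‖V1 Y n x - n x‖ ≤ μ1 ∧ ‖V2 Y n x - I * n x‖ ≤ μ2) →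
  0 < h → h ≤ l1 → h ≤ l2 → l1 ≤ L → l2 ≤ L → 3 / 2 * L * Ln ≤ η → η ≤ 1 → ε ≤ 1 / 50 →
  Nr ε w → Nr ε r → Dh r 2 g1 h → Cells n z L e1 e2 M1 l1 M2 l2 P p1 p2 τP f1 f2 →
  (∀ x, |p1 x| ≤ 1 ∧ |p2 x| ≤ 1) → b + g1 + M1 * M2 / (h * l2) ≤ b1 → b1 ≤ c0 →
  b1 + ε + μ1 + μ2 + η ≤ σ → σ ≤ 1 → L * (M1 * M2) / (l2 * h ^ 2) ≤ a →
  M1 * M2 / (l1 * L) + M1 * M2 / l2 *
    (g1 / h + (ε + μ2 + η) / l1 + (μ1 + η) / l2 + b1 * (ε + μ2 + η) / h) ≤ Z →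
  ∃ f' Y' R : ℂ → ℂ, Core w f' Y' r h (C * b1) (Af + C * Λ ^ 3 * (1 + a) ^ 4 * L / h ^ 2) ∧
    Run n f Y f' Y' R P p1 p2 (C * a * h) (C * Λ * (1 + a) * η) (C * Λ * (1 + a) * η)
      (τP + C * σ * a) (f1 + C * (Z + η)) (f2 + C * (Z + η)) ∧
    ∀ x, |ip (R x - x) (n x)| ≤ η * (C * a * h)

/-! ### E. Runs and the switch of frames -/

/-- NORM: a priori bounds inside a block -/
def NormStmt : Prop := ∀ (w r r' P p1 p2 : ℂ → ℝ) (f Y n f' Y' R : ℂ → ℂ)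
  (h b Af Ln d μ φ o oν lo hi h' b' Af' d' ηU ηV τ e1 e2 ε Q pb1 pb2 : ℝ),
  St w f Y n r h b Af Ln d μ φ o oν lo hi → Core w f' Y' r' h' b' Af' →
  Run n f Y f' Y' R P p1 p2 d' ηU ηV τ e1 e2 → ε ≤ 1 / 50 → Nr ε w → Nr ε r → Nr ε r' →
  (∀ z, |P z| + τ ≤ Q ∧ |p1 z| + e1 ≤ pb1 ∧ |p2 z| + e2 ≤ pb2) → ηU ≤ 1 → ηV ≤ 1 → Q * φ ≤ 1 →
  φ ≤ 1 / 10 → Q ≤ lo ^ 2 → 2 ≤ lo → μ + pb1 + pb2 ≤ 1 / 20 →
  ∀ z, ‖fderiv ℝ f' z‖ ≤ 10 * hi ∧ ‖fderiv ℝ Y' z - 1‖ ≤ μ + pb1 + pb2 ∧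
    ‖V1 Y' n z - n z‖ ≤ μ + pb1 ∧ ‖V2 Y' n z - I * n z‖ ≤ μ + pb2 ∧
    4 / 5 * lo ≤ ‖V1 f n z‖ ∧ ‖V1 f n z‖ ≤ 6 / 5 * hi

/-- ITER: J steps in a row -/
def IterStmt : Prop := ∀ (w r0 P p1 p2 : ℂ → ℝ) (f0 Y0 n f Y R : ℂ → ℂ) (J : ℕ)
  (r Pj q1 q2 : ℕ → ℂ → ℝ) (h b Af : ℕ → ℝ)
  (h0 b0 Af0 Ln d0 μ φ o oν lo hi d ηU ηV τ e1 e2 ε Q pb1 pb2 dd d' η τs a1 a2 Ps κ : ℝ),
  St w f0 Y0 n r0 h0 b0 Af0 Ln d0 μ φ o oν lo hi → ε ≤ 1 / 50 → Nr ε w → Nr ε r0 →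
  (∀ j ≤ J, Nr ε (r j)) → Core w f Y (r 0) (h 0) (b 0) (Af 0) →
  Run n f0 Y0 f Y R P p1 p2 d ηU ηV τ e1 e2 → 0 ≤ η → 0 ≤ τs → 0 ≤ a1 → 0 ≤ a2 → 0 ≤ Ps → 0 ≤ κ →
  (∀ j < J, (∀ z, |Pj j z| ≤ Ps) ∧ Flat n (fun z => P z + ∑ i ∈ range j, Pj i z) dd d' κ) →
  (∀ j ≤ J, ∀ z, |P z + ∑ i ∈ range j, Pj i z| + (τ + J * (τs + κ)) ≤ Q ∧
    |p1 z + ∑ i ∈ range j, q1 i z| + (e1 + J * a1) ≤ pb1 ∧
    |p2 z + ∑ i ∈ range j, q2 i z| + (e2 + J * a2) ≤ pb2) →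
  ηU + J * η ≤ 1 → ηV + J * (η + (Ps + τs) * (ηU + J * η)) ≤ 1 → Q * φ ≤ 1 → φ ≤ 1 / 10 →
  Q ≤ lo ^ 2 → 2 ≤ lo → μ + pb1 + pb2 ≤ 1 / 20 →
  (∀ j < J, ∀ g Z : ℂ → ℂ, Core w g Z (r j) (h j) (b j) (Af j) → (∀ z, ‖fderiv ℝ g z‖ ≤ 10 * hi) →
    (∀ z, ‖fderiv ℝ Z z - 1‖ ≤ 1 / 20) →
    (∀ z, ‖V1 Z n z - n z‖ ≤ μ + pb1 ∧ ‖V2 Z n z - I * n z‖ ≤ μ + pb2) →
    ∃ g' Z' T : ℂ → ℂ, Core w g' Z' (r (j + 1)) (h (j + 1)) (b (j + 1)) (Af (j + 1)) ∧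
      Run n g Z g' Z' T (Pj j) (q1 j) (q2 j) dd η η τs a1 a2 ∧ ∀ x, |ip (T x - x) (n x)| ≤ d') →
  ∃ f' Y' R' : ℂ → ℂ, Core w f' Y' (r J) (h J) (b J) (Af J) ∧
    Run n f0 Y0 f' Y' R' (fun z => P z + ∑ i ∈ range J, Pj i z)
      (fun z => p1 z + ∑ i ∈ range J, q1 i z) (fun z => p2 z + ∑ i ∈ range J, q2 i z)
      (d + J * dd) (ηU + J * η) (ηV + J * (η + (Ps + τs) * (ηU + J * η))) (τ + J * (τs + κ))
      (e1 + J * a1) (e2 + J * a2)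

/-- LAV: effect of the slides -/
def LaVStmt : Prop := ∃ C c0 : ℝ, 1 ≤ C ∧ 0 < c0 ∧ ∀ (V U V' U' : ℂ) (a η lo φ Q : ℝ),
  wd V U = 1 → 1 ≤ lo → lo ≤ ‖V‖ → ‖U' - U‖ ≤ η → ‖V' - V - a • U‖ ≤ η →
  |ip V U / ‖V‖ ^ 2| ≤ φ → φ ≤ 1 → |a| ≤ Q → Q * φ + Q ^ 2 / lo ^ 4 + η ≤ c0 →
  |ip V' U' / ‖V'‖ ^ 2 - ip V U / ‖V‖ ^ 2| ≤ C * ((Q * φ + Q ^ 2 / lo ^ 4) * φ + Q / lo ^ 4 + η) ∧
    |‖V'‖ / ‖V‖ - (1 + a ^ 2 / (2 * ‖V‖ ^ 4))| ≤ C * (Q * φ + Q ^ 4 / lo ^ 8 + η)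

/-- LAY: effect of the wiggles -/
def LaYStmt : Prop := ∃ C c0 : ℝ, 1 ≤ C ∧ 0 < c0 ∧ ∀ (n Y1 Y2 Z1 Z2 : ℂ)
  (p1 p2 μ e1 e2 pb1 pb2 : ℝ), ‖n‖ = 1 → ‖Y1 - n‖ ≤ μ → ‖Y2 - I * n‖ ≤ μ →
  ‖Z1 - Y1 - p1 • n‖ ≤ e1 → ‖Z2 - Y2 - p2 • n‖ ≤ e2 → |p1| ≤ pb1 → |p2| ≤ pb2 →
  μ + pb1 + pb2 + e1 + e2 ≤ c0 →
  |‖Z2‖ / wd Z1 Z2 / (‖Y2‖ / wd Y1 Y2) - (1 + p2 ^ 2 / 2 - p1)| ≤
    C * (e1 + (pb1 + pb2 + e2) * (μ + e2) + (pb2 ^ 2 + pb1) ^ 2)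

/-- LAS: change of frame -/
def LaSStmt : Prop := ∃ C c0 : ℝ, 1 ≤ C ∧ 0 < c0 ∧ ∀ (n Y1 Y2 Z1 Z2 A1 A2 : ℂ)
  (Φ φ μ Db lo ρ Δ q11 q21 : ℝ), ‖n‖ = 1 → ‖Y1 - n‖ ≤ μ → ‖Y2 - I * n‖ ≤ μ → ‖Z1 - n‖ ≤ μ →
  ‖Z2 - I * n‖ ≤ μ → |Φ| ≤ φ → |ip A1 A2 / ‖A1‖ ^ 2 - Φ| ≤ Db → 1 ≤ lo → lo ≤ ‖A1‖ →
  |wd A1 A2| ≤ 2 → μ + φ + Db ≤ c0 → ρ = ‖Y2 - Φ • Y1‖ → Δ = wd Y1 Y2 → q11 = ρ / Δ →
  q21 = -ip Y1 (Y2 - Φ • Y1) / (ρ * Δ) →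
  1 / 2 ≤ ρ ∧ ρ ≤ 2 ∧ 1 / 2 ≤ Δ ∧ Δ ≤ 2 ∧
    -I * (ρ⁻¹ • (Y2 - Φ • Y1)) = q11 • Y1 + q21 • (Y2 - Φ • Y1) ∧
    |ip (q11 • A1 + q21 • (A2 - Φ • A1)) (ρ⁻¹ • (A2 - Φ • A1)) /
      ‖q11 • A1 + q21 • (A2 - Φ • A1)‖ ^ 2 - (ip A1 A2 / ‖A1‖ ^ 2 - Φ)| ≤
      C * ((μ + φ) * Db + 1 / lo ^ 4) ∧
    |‖q11 • A1 + q21 • (A2 - Φ • A1)‖ / (q11 * ‖A1‖) - 1| ≤ C * ((μ + φ) * Db + 1 / lo ^ 4) ∧
    |‖Z2 - Φ • Z1‖ / ‖Z2‖ - 1| ≤ C * (φ * (μ + φ))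

/-- SMO: the data of a state are Lipschitz -/
def SmoStmt : Prop := ∃ C : ℝ, 1 ≤ C ∧ ∀ (w r : ℂ → ℝ) (f Y n : ℂ → ℂ)
  (h b Af Ln d μ φ o oν lo hi ε K : ℝ), St w f Y n r h b Af Ln d μ φ o oν lo hi → ε ≤ 1 / 50 →
  Nr ε w → Nr ε r → 0 < h → 0 ≤ Af → 2 ≤ lo → μ ≤ 1 / 20 → φ ≤ 1 / 10 →
  b / h + Af * hi ^ 2 + hi * Ln ≤ K → ∀ z z',
  ‖V1 f n z - V1 f n z'‖ ≤ C * K * ‖z - z'‖ ∧ |Phi f n z - Phi f n z'| ≤ C * K * ‖z - z'‖ ∧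
  ‖(V2 Y n z - Phi f n z • V1 Y n z) - (V2 Y n z' - Phi f n z' • V1 Y n z')‖ ≤ C * K * ‖z - z'‖ ∧
  |jac Y z - jac Y z'| ≤ C * K * ‖z - z'‖

/-- SWA: new base space and new frames -/
def SwaStmt : Prop := ∃ C c0 : ℝ, 1 ≤ C ∧ 0 < c0 ∧ ∀ (w r r' P p1 p2 : ℂ → ℝ)
  (f Y n f' Y' R : ℂ → ℂ)
  (h b Af Ln d μ φ o oν lo hi h' b' Af' d1 ηU ηV τ e1 e2 ε pb1 pb2 : ℝ),
  St w f Y n r h b Af Ln d μ φ o oν lo hi → Core w f' Y' r' h' b' Af' →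
  Run n f Y f' Y' R P p1 p2 d1 ηU ηV τ e1 e2 → Nr ε w → Nr ε r → Nr ε r' → 0 < h' → h' ≤ h →
  b ≤ 1 → b' ≤ 1 → 0 ≤ Af → 2 ≤ lo → (∀ z, |p1 z| ≤ pb1 ∧ |p2 z| ≤ pb2) →
  (∀ z, ‖fderiv ℝ f' z‖ ≤ 10 * hi) → ε + μ + φ + pb1 + pb2 + e1 + e2 ≤ c0 →
  ∃ f'' Y'' n' J : ℂ → ℂ, Core w f'' Y'' r' h' (C * (b' + b * h' / h)) (Af' + C * hi ^ 3 * b / h) ∧
    Fr n' (C * (b / h + Af * hi ^ 2 + hi * Ln)) ∧
    (∀ x, ‖fderiv ℝ Y'' x - 1‖ ≤ C * (pb1 + pb2 + e1 + e2)) ∧ Mv f Y f'' Y'' (30 * hi * d1) ∧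
    (∀ x x', ‖J x - J x'‖ ≤ 10 / 9 * ‖x - x'‖) ∧ ∀ (x z : ℂ) (Φ ρ Δ : ℝ), z = J x → Φ = Phi f n z →
      ρ = ‖V2 Y n z - Φ • V1 Y n z‖ → Δ = jac Y z →
      V1 f'' n' x = (ρ / Δ) • V1 f' n z +
        (-ip (V1 Y n z) (V2 Y n z - Φ • V1 Y n z) / (ρ * Δ)) • (V2 f' n z - Φ • V1 f' n z) ∧
      V2 f'' n' x = ρ⁻¹ • (V2 f' n z - Φ • V1 f' n z) ∧
      V2 Y'' n' x = ρ⁻¹ • (V2 Y' n z - Φ • V1 Y' n z) ∧ jac Y'' x = jac Y' z / Δ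

/-- SWITCH with explicit constants -/
def SwitchP (M C c0 : ℝ) : Prop := ∀ (w r r' P p1 p2 : ℂ → ℝ) (f Y n f' Y' R : ℂ → ℂ)
  (h b Af Ln d μ φ oν lo hi h' b' Af' d1 ηU ηV τ e1 e2 ε Q pb1 pb2 LP d' t err lo' hi' : ℝ),
  St w f Y n r h b Af Ln d μ φ (φ / M) oν lo hi → Core w f' Y' r' h' b' Af' →
  Run n f Y f' Y' R P p1 p2 d1 ηU ηV τ e1 e2 → Nr ε w → Nr ε r → Nr ε r' → 0 < h' → h' ≤ h →
  b ≤ 1 → b' ≤ 1 → 0 ≤ Af → d1 ≤ d → 2 ≤ lo → 1 ≤ Q → 0 ≤ oν → 0 ≤ LP → 0 ≤ d' →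
  (∀ z, |P z| + τ ≤ Q ∧ |p1 z| ≤ pb1 ∧ |p2 z| ≤ pb2) → (∀ z z', |P z - P z'| ≤ LP * ‖z - z'‖) →
  hi ^ 2 * d' * (b / h + Af * hi ^ 2 + hi * Ln) + ηU + ηV + Q * LP * d' / lo ^ 4 ≤ t →
  ε + μ + pb1 + pb2 + e1 + e2 + Q * φ + Q ^ 2 / lo ^ 4 + t + oν ≤ c0 →
  oν + Q * φ + Q / lo ^ 4 + t + Q * τ / lo ^ 4 + (Q ^ 2 / lo ^ 4 + pb2 ^ 2 + pb1) ^ 2 + e1 +
    (pb1 + pb2 + e2) * (μ + e2) ≤ err →
  (∀ z, lo' ≤ NN f Y n z * (1 + P z ^ 2 / (32 * hi ^ 4) + p2 z ^ 2 / 2 - p1 z - C * err) ∧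
    NN f Y n z * (1 + C * (P z ^ 2 / lo ^ 4 + p2 z ^ 2 + |p1 z|) + C * err) ≤ hi') →
  ∃ f'' Y'' n' : ℂ → ℂ, St w f'' Y'' n' r' h' (C * (b' + b * h' / h)) (Af' + C * hi ^ 3 * b / h)
      (C * (b / h + Af * hi ^ 2 + hi * Ln)) d' (C * (pb1 + pb2 + e1 + e2))
      (φ / 2 + C * (Q / lo ^ 4 + t)) ((φ / 2 + C * (Q / lo ^ 4 + t)) / M)
      (C * (Q * φ + Q * τ / lo ^ 4 + Q / lo ^ 4 + Q ^ 4 / lo ^ 8 + t)) lo' hi' ∧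
    Mv f Y f'' Y'' (30 * hi * d1)

/-- SWITCH -/
def SwitchStmt : Prop := ∃ M C c0 : ℝ, 1 ≤ M ∧ 1 ≤ C ∧ 0 < c0 ∧ SwitchP M C c0

/-! ### F. Corrugation -/

/-- WAVE: properties of the wave patterns -/
def WaveStmt : Prop := ∃ C : ℝ, 1 ≤ C ∧ ∀ (n : ℂ → ℂ) (act : ℂ → Prop) (Ln L h : ℝ) (om : ℂ),
  Fr n Ln → 0 < h → h ≤ L → ‖om‖ = 1 →
  (∀ j < 36, (∀ x, |wave n act L h om j x| ≤ 1) ∧
    (∀ x x', |wave n act L h om j x - wave n act L h om j x'| ≤ C / h * ‖x - x'‖) ∧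
    (∀ (d d' η : ℝ) (x v : ℂ), 2 * L * Ln ≤ η → ‖v‖ ≤ d → |ip v (n x * om)| ≤ d' →
      |wave n act L h om j (x + v) - wave n act L h om j x| ≤ C * (d / L + (d' + η * d) / h)) ∧
    (∀ c p, ‖p‖ < 3 / 2 * L → wave n act L h om j (ch (cen (L / 2) j c) (n (cen (L / 2) j c)) p) =
      wv (act (cen (L / 2) j c)) L h om j p) ∧
    ∀ x, (∀ c, ‖x - cen (L / 2) j c‖ < 29 / 20 * L → ¬ act (cen (L / 2) j c)) →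
      wave n act L h om j x = 0) ∧
  ∀ (x0 : ℂ) (ρ η : ℝ), 0 ≤ ρ → 2 * L * Ln ≤ η → ∃ a φ : ℕ → ℝ, (∀ j, |a j| ≤ 1) ∧
    (∀ p, ‖p‖ ≤ ρ → |∑ j ∈ range 36, wave n act L h om j (ch x0 (n x0) p) -
      ∑ j ∈ range 36, a j * Real.cos ((j + 1) * ip p om / h + φ j)| ≤ C * (ρ / L + η * ρ / h)) ∧
    ((∀ y, ‖y - x0‖ ≤ 2 * L → act y) → 1 ≤ ∑ j ∈ range 36, a j ^ 2) ∧
    ((∀ y, ‖y - x0‖ ≤ 2 * L → ¬ act y) → ∀ j, a j = 0)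

/-- TRIG: bounded primitive of a squared trigonometric sum; one localised wave -/
def TrigStmt : Prop := ∃ C : ℝ, 1 ≤ C ∧ ∀ h : ℝ, 0 < h →
  (∀ a φ : ℕ → ℝ, (∀ j, |a j| ≤ 1) → ∃ P : ℝ → ℝ, C4 P (C * h) h ∧ ∀ u,
    deriv P u = (∑ j ∈ range 36, a j * Real.cos ((j + 1) * u / h + φ j)) ^ 2 -
      (∑ j ∈ range 36, a j ^ 2) / 2) ∧
  ∀ (L : ℝ) (j : ℕ), h ≤ L → j < 36 → ∃ E : ℝ → ℝ, C4 E (C * h ^ 2) h ∧ (∀ u, L ≤ |u| → E u = 0) ∧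
    ∀ u, |iteratedDeriv 2 E u - cut (u / L) * Real.cos ((j + 1) * u / h)| ≤ C * h / L

/-- PAT: cell data and patterns of the three groups of the corrugation -/
def PatStmt : Prop := ∃ C : ℝ, 1 ≤ C ∧ ∀ (n : ℂ → ℂ) (act : ℂ → Prop) (Ln h LA LC LB A s η : ℝ),
  Fr n Ln → 0 < h → h ≤ LB → LB ≤ LC → LC ≤ LA → 0 ≤ A → 0 ≤ s → 2 * LA * Ln ≤ η →
  ∃ (a1 a2 c1 c2 b1 b2 : ℕ → ℤ × ℤ → ℝ → ℝ) (PA pC pB : ℕ → ℂ → ℝ),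
    (∀ j < 36,
      Cells n (cen (LA / 2) j) LA (a1 j) (a2 j) (C * A * h ^ 2) h C LA (fun x => A * PA j x) 0 0
        (C * A * h / LA) (C * A * h / LA) (C * A * h / LA) ∧
      Cells n (cen (LC / 2) j) LC (c1 j) (c2 j) C LC (C * s * h ^ 2) h 0 0 (fun x => s * pC j x)
        (C * s * h / LC) (C * s * h / LC) (C * s * h / LC) ∧
      Cells n (cen (LB / 2) j) LB (b1 j) (b2 j) (C * s ^ 2 * h) h (C * h) h 0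
        (fun x => s ^ 2 * pB j x) 0 (C * s ^ 2) (C * s ^ 2 * h / LB) (C * s ^ 2) ∧
      (∀ x, |PA j x| ≤ 1 ∧ |pC j x| ≤ 1 ∧ |pB j x| ≤ C) ∧
      (∀ x x', |PA j x - PA j x'| ≤ C / h * ‖x - x'‖) ∧
      ∀ d d', Flat n (PA j) d d' (C * (d / LA + (d' + η * d) / h))) ∧
    ∀ x, -(C * (LB / LC + η * LB / h)) ≤ (∑ j ∈ range 36, PA j x) ^ 2 / 2 +
        (∑ j ∈ range 36, pC j x) ^ 2 / 2 - ∑ j ∈ range 36, pB j x ∧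
      ((∀ y, ‖y - x‖ ≤ 4 * LA → act y) → 1 / 5184 - C * (LB / LC + η * LB / h) ≤
        (∑ j ∈ range 36, PA j x) ^ 2 / 2 + (∑ j ∈ range 36, pC j x) ^ 2 / 2 -
          ∑ j ∈ range 36, pB j x) ∧
      ((∀ y, ‖y - x‖ ≤ 4 * LA → ¬ act y) → ∀ j < 36, PA j x = 0 ∧ pC j x = 0 ∧ pB j x = 0)

/-- CORR: the 108 corrugation steps -/
def CorrStmt : Prop := ∃ C c0 : ℝ, 1 ≤ C ∧ 0 < c0 ∧ ∀ (w r : ℂ → ℝ) (f Y n : ℂ → ℂ)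
  (Λ h s ε μ φ o oν lo hi : ℝ), 0 < h → 0 < s → s ≤ c0 → 1 ≤ s ^ 4 * Λ → ε ≤ c0 →
  St w f Y n r h s (Λ ^ 20 / h) (1 / (Λ ^ 20 * h)) (Λ ^ 4 * h) μ φ o oν lo hi → Nr ε w → Nr ε r →
  Dh r 2 (s ^ 2) h → Λ / 3 ≤ lo → hi ≤ 6 * Λ → μ ≤ s ^ 2 → oν ≤ s → φ ≤ s ^ 2 / Λ ^ 2 →
  ∃ (f' Y' R : ℂ → ℂ) (P p1 p2 : ℂ → ℝ), Core w f' Y' r h (C * s) (2 * Λ ^ 20 / h) ∧
    Run n f Y f' Y' R P p1 p2 (Λ ^ 3 * h) (1 / Λ ^ 12) (1 / Λ ^ 9) (C * (ε + s) * s * Λ ^ 2)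
      (C * (ε + s) * s ^ 2) (C * s ^ 2) ∧
    (∀ z, |P z| ≤ C * s * Λ ^ 2 ∧ |p1 z| ≤ C * s ^ 2 ∧ |p2 z| ≤ C * s) ∧
    (∀ z z', |P z - P z'| ≤ C * s * Λ ^ 2 / h * ‖z - z'‖) ∧
    (∀ d d', Flat n P d d' (C * s * Λ ^ 2 * (d / (Λ ^ 3 * h) + (d' + d / Λ ^ 16) / h))) ∧
    ∀ z, -(C * s ^ 3) ≤ P z ^ 2 / (32 * hi ^ 4) + p2 z ^ 2 / 2 - p1 z ∧
      (NN f Y n z ≤ 4 / 3 * Λ →
        s ^ 2 / 5184 - C * s ^ 3 ≤ P z ^ 2 / (32 * hi ^ 4) + p2 z ^ 2 / 2 - p1 z) ∧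
      (3 * Λ ≤ NN f Y n z → P z = 0 ∧ p1 z = 0 ∧ p2 z = 0)

/-! ### G. Blocks and cycles -/

/-- NRUN with explicit constants: the 36 q random steps of a block -/
def NrunP (C c0 γ Q0 : ℝ) : Prop := ∀ (q : ℕ) (x Λ : ℝ), Q0 ≤ q → 1 ≤ x → Λ = x ^ 3 * (q : ℝ) ^ 12 →
  Λ ^ 60 ≤ 2 ^ q → ∀ (w P p1 p2 : ℂ → ℝ) (r : ℕ → ℂ → ℝ) (f0 Y0 n f Y R : ℂ → ℂ)
  (h b0 Af0 d0 μ φ o oν lo hi ε b τ e1 e2 Q pb1 pb2 : ℝ), 0 < h →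
  St w f0 Y0 n (r 0) h b0 Af0 (1 / (Λ ^ 20 * h)) d0 μ φ o oν lo hi → ε ≤ 1 / 100 → Nr ε w →
  Dens r q x γ h ε → Λ / 3 ≤ lo → hi ≤ 6 * Λ → Core w f Y (r 0) h b (2 * Λ ^ 20 / h) → b ≤ c0 →
  Run n f0 Y0 f Y R P p1 p2 (Λ ^ 3 * h) (1 / Λ ^ 12) (1 / Λ ^ 9) τ e1 e2 →
  (∀ d d', Flat n P d d' (Λ ^ 2 * (d / (Λ ^ 3 * h) + (d' + d / Λ ^ 16) / h))) →
  (∀ z, |P z| + (τ + x ^ 4 * (q : ℝ) ^ 21) ≤ Q ∧ |p1 z| + e1 ≤ pb1 ∧ |p2 z| + e2 ≤ pb2) →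
  Q * φ ≤ 1 → φ ≤ 1 / 10 → Q ≤ lo ^ 2 → μ + pb1 + pb2 ≤ 1 / 40 →
  ∃ f' Y' R' : ℂ → ℂ,
    Core w f' Y' (r (36 * q)) (h / γ ^ q) (b / 2 ^ q + C / q) (Λ ^ 20 / (2 * (h / γ ^ q))) ∧
    Run n f0 Y0 f' Y' R' P p1 p2 (2 * Λ ^ 3 * h) (1 / Λ ^ 11) (1 / Λ ^ 8)
      (τ + x ^ 4 * (q : ℝ) ^ 21) (e1 + C / (x ^ 4 * (q : ℝ) ^ 6)) (e2 + C / (x ^ 2 * (q : ℝ) ^ 3))

/-- NRUN -/
def NrunStmt : Prop := ∃ C c0 γ Q0 : ℝ, 1 ≤ C ∧ 0 < c0 ∧ 2 ≤ γ ∧ NrunP C c0 γ Q0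

/-- ordinary block -/
def BlockNP (M γ C c0 Q0 : ℝ) : Prop := ∀ (q : ℕ) (x Λ : ℝ), Q0 ≤ q → 1 ≤ x →
  Λ = x ^ 3 * (q : ℝ) ^ 12 → Λ ^ 60 ≤ 2 ^ q → ∀ (w : ℂ → ℝ) (r : ℕ → ℂ → ℝ) (f Y n : ℂ → ℂ)
  (h μ φ oν lo hi ε e : ℝ), 0 < h → StI w f Y n (r 0) q Λ h μ φ M oν lo hi → ε ≤ c0 → Nr ε w →
  Dens r q x γ h ε → Λ / 3 ≤ lo → hi ≤ 6 * Λ → μ ≤ c0 → 0 ≤ oν → oν ≤ c0 →
  x ^ 4 * (q : ℝ) ^ 21 * φ ≤ c0 →
  e = C * (oν + x ^ 4 * (q : ℝ) ^ 21 * φ + μ / (x ^ 2 * (q : ℝ) ^ 3) + 1 / (x ^ 4 * (q : ℝ) ^ 6)) →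
  ∃ f' Y' n' : ℂ → ℂ, StO w f' Y' n' (r (36 * q)) q Λ (h / γ ^ q) (C / (x ^ 2 * (q : ℝ) ^ 3))
      (φ / 2 + C / (x ^ 8 * (q : ℝ) ^ 27)) M
      (C * (x ^ 4 * (q : ℝ) ^ 21 * φ + 1 / (x ^ 4 * (q : ℝ) ^ 6))) (lo * (1 - e)) (hi * (1 + e)) ∧
    Mv f Y f' Y' (Λ ^ 5 * h)

/-- corrugation block -/
def BlockCP (M γ C c0 Q0 : ℝ) : Prop := ∀ (q : ℕ) (x Λ : ℝ), Q0 ≤ q → 1 ≤ x →
  Λ = x ^ 3 * (q : ℝ) ^ 12 → Λ ^ 60 ≤ 2 ^ q → ∀ (w : ℂ → ℝ) (r : ℕ → ℂ → ℝ) (f Y n : ℂ → ℂ)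
  (h μ φ oν lo hi ε s : ℝ), 0 < h → StI w f Y n (r 0) q Λ h μ φ M oν lo hi → ε ≤ c0 → Nr ε w →
  Dens r q x γ h ε → Λ / 3 ≤ lo → hi ≤ 6 * Λ → 0 < s → s ≤ c0 → 1 / (q : ℝ) ≤ s ^ 2 →
  μ ≤ 1 / (q : ℝ) ^ 2 → 0 ≤ oν → oν ≤ 1 / (q : ℝ) ^ 2 → φ ≤ 1 / (Λ ^ 2 * q) →
  ∃ f' Y' n' : ℂ → ℂ, StO w f' Y' n' (r (36 * q)) q Λ (h / γ ^ q) (C * s)
      (φ / 2 + C * s / Λ ^ 2) M (C * (ε + s) * s ^ 2)
      (min (lo * (1 + s ^ 2 / 5184 - C * (ε + s) * s ^ 2)) Λ)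
      (max (4 * Λ) (hi * (1 + C * (ε + s) * s ^ 2))) ∧
    Mv f Y f' Y' (Λ ^ 5 * h)

/-- BLOCK -/
def BlockStmt : Prop := ∃ M γ C c0 Q0 : ℝ, 1 ≤ M ∧ 2 ≤ γ ∧ 1 ≤ C ∧ 0 < c0 ∧
  BlockNP M γ C c0 Q0 ∧ BlockCP M γ C c0 Q0

/-- CYCLE: one corrugation block and q^(4n) ordinary blocks -/
def CycleStmt : Prop := ∃ M γ ε : ℝ, 1 ≤ M ∧ 2 ≤ γ ∧ 0 < ε ∧ ε ≤ 1 / 100 ∧ ∀ n : ℕ, 1 ≤ n →
  ∃ Q0 : ℕ, ∀ q ≥ Q0, ∀ (w : ℂ → ℝ) (r : ℕ → ℂ → ℝ) (f Y fr : ℂ → ℂ) (h : ℝ), 0 < h → Nr ε w →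
  (∀ i ≤ q ^ (4 * n), Dens (fun t => r (36 * q * i + t)) q ((q : ℝ) ^ n) γ (h / γ ^ (q * i)) ε) →
  Cy n q M w f Y fr (r 0) h →
  ∃ f' Y' fr' : ℂ → ℂ, Cy n (q + 1) M w f' Y' fr' (r (36 * q * (q ^ (4 * n) + 1)))
      (h / γ ^ (q * (q ^ (4 * n) + 1))) ∧ Mv f Y f' Y' (2 * lamq n q ^ 5 * h)

/-! ### H. Densities, limit, conclusion -/

/-- DENS: the chain of densities -/
def DensStmt : Prop := ∃ C c0 : ℝ, 1 ≤ C ∧ 0 < c0 ∧ ∀ (ρ : ℂ → ℝ) (ε Γ : ℝ) (W L : ℕ → ℝ),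
  UniformContinuous ρ → Nr ε ρ → ε ≤ 1 / 4 → 1 ≤ Γ →
  (∀ g, 0 < W g ∧ 0 < L g ∧ W (g + 1) ≤ W g ∧ W g ≤ Γ * W (g + 1) ∧ Γ * W g / L g ≤ c0) →
  Summable W → Summable (fun g => W g / L g) → ∑' g, W g / L g ≤ c0 →
  ∃ r : ℕ → ℂ → ℝ, (∀ t, r t = GG (W (t / 36)) (aL (L (t / 36)) (t % 36)) (r (t + 1))) ∧
    (∀ t, Nr (2 * ε) (r t)) ∧
    (∀ g t, 36 * g ≤ t → t ≤ 36 * (g + 1) → D2 (r t) 2 (C / W (g + 1)) (C / W (g + 1) ^ 2)) ∧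
    TendstoUniformly r ρ atTop

/-- MAP: the map f ∘ Y⁻¹ -/
def MapStmt : Prop := ∀ (w r : ℂ → ℝ) (f Y : ℂ → ℂ) (h b Af ε Λ : ℝ), Core w f Y r h b Af →
  0 < h → b ≤ 1 → ε ≤ 1 / 50 → Nr ε w → Nr ε r → Continuous w → Continuous r →
  (∀ z, ‖fderiv ℝ f z‖ ≤ Λ) →
  ∃ F G : ℂ → ℂ, (∀ z, F (Y z) = f z) ∧ (∀ z, G (f z) = Y z) ∧ Function.Surjective Y ∧
    (∀ x, G (F x) = x) ∧ (∀ y, F (G y) = y) ∧ (∀ x y, ‖F x - F y‖ ≤ 3 * Λ * ‖x - y‖) ∧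
    (∀ x y, ‖G x - G y‖ ≤ 3 * Λ * ‖x - y‖) ∧
    ∀ φ : ℂ → ℝ, Continuous φ → HasCompactSupport φ → ∫ x, φ (F x) * r x = ∫ y, φ y * w y

/-- LIMIT: passage to the limit -/
def LimitStmt : Prop := ∀ (β K : ℝ) (F G : ℕ → ℂ → ℂ) (Λ S : ℕ → ℝ) (r : ℕ → ℂ → ℝ)
  (ρ w : ℂ → ℝ), 0 < β → 0 < K → (∀ j x, G j (F j x) = x ∧ F j (G j x) = x) →
  (∀ j x y, ‖F j x - F j y‖ ≤ Λ j * ‖x - y‖ ∧ ‖G j x - G j y‖ ≤ Λ j * ‖x - y‖) →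
  (∀ j x, ‖F (j + 1) x - F j x‖ ≤ S j - S (j + 1) ∧ ‖G (j + 1) x - G j x‖ ≤ S j - S (j + 1)) →
  (∀ j, 0 < S j) → S 0 < 1 → Tendsto S atTop (nhds 0) →
  (∀ j, Λ (j + 1) ≤ K * Real.log (1 / S j) ^ β) → (∀ j, Continuous (r j)) → Continuous ρ →
  Continuous w → (∀ x, 0 ≤ ρ x ∧ ρ x ≤ K) → (∀ x, 0 ≤ w x) → TendstoUniformly r ρ atTop →
  (∀ j (φ : ℂ → ℝ), Continuous φ → HasCompactSupport φ → ∫ x, φ (F j x) * r j x = ∫ y, φ y * w y) →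
  ∃ F' : ℂ → ℂ, Continuous F' ∧ Om β F' ∧ ∀ B, MeasurableSet B →
    ∫⁻ x in F' ⁻¹' B, ENNReal.ofReal (ρ x) = ∫⁻ y in B, ENNReal.ofReal (w y)

/-- CORE: densities close to one -/
def CoreStmt : Prop := ∃ ε : ℝ, 0 < ε ∧ ∀ β : ℝ, 3 / 4 < β → ∀ ρ : ℂ → ℝ, UniformContinuous ρ →
  Nr ε ρ → ∃ (F : ℂ → ℂ) (w : ℂ → ℝ), ContDiff ℝ 1 w ∧ (∀ y, 0 < w y) ∧ Continuous F ∧ Om β F ∧
    ∀ B, MeasurableSet B →
      ∫⁻ x in F ⁻¹' B, ENNReal.ofReal (ρ x) = ∫⁻ y in B, ENNReal.ofReal (w y)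

/-- KNOTHE: smooth densities -/
def KnotheStmt : Prop := ∀ w : ℂ → ℝ, ContDiff ℝ 1 w → (∀ y, 0 < w y) → ∃ κ : ℂ → ℂ,
  Function.Injective κ ∧ Continuous κ ∧
  (∀ R : ℝ, ∃ K : ℝ, 0 < K ∧ ∀ x y, ‖x‖ ≤ R → ‖y‖ ≤ R →
    ‖κ x - κ y‖ ≤ K * ‖x - y‖ ∧ ‖x - y‖ ≤ K * ‖κ x - κ y‖) ∧
  ∀ A : Set ℂ, MeasurableSet A → ∀ g : ℂ → ENNReal,
    ∫⁻ y in κ '' A, g y = ∫⁻ x in A, ENNReal.ofReal (w x) * g (κ x)

/-- the theorem -/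
def MainStmt : Prop := ∀ β : ℝ, 3 / 4 < β → ∀ (Q : Set (EuclideanSpace ℝ (Fin 2))),
  Q = {x | ∀ i, x i ∈ Icc (0 : ℝ) 1} → ∀ ρ : EuclideanSpace ℝ (Fin 2) → ℝ, ContinuousOn ρ Q →
  (∀ x ∈ Q, 0 < ρ x) →
  ∃ f : EuclideanSpace ℝ (Fin 2) → EuclideanSpace ℝ (Fin 2), InjOn f Q ∧
    (∃ C t₀ : ℝ, 0 < C ∧ 0 < t₀ ∧ t₀ < 1 ∧ ∀ x ∈ Q, ∀ y ∈ Q,
      (‖x - y‖ ≤ t₀ → ‖f x - f y‖ ≤ C * (‖x - y‖ * Real.log (1 / ‖x - y‖) ^ β)) ∧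
      (‖f x - f y‖ ≤ t₀ → ‖x - y‖ ≤ C * (‖f x - f y‖ * Real.log (1 / ‖f x - f y‖) ^ β))) ∧
    ∀ B, MeasurableSet B → ∫⁻ x in Q ∩ f ⁻¹' B, ENNReal.ofReal (ρ x) = volume (B ∩ f '' Q)

end
end Pool.Agent.MP_20bec2_an.Pl

end MrgPart1

-- ======== part 2: formerly Pool.Agent.MP_20bec2_an.Pl.Basic
section MrgPart2

set_option autoImplicit false
open MeasureTheory Set Complex Filter Topology

namespace Pool.Agent.MP_20bec2_an.Pl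
noncomputable section

/-! ### plane algebra -/

lemma normsq (x : ℂ) : ‖x‖ ^ 2 = x.re ^ 2 + x.im ^ 2 := by
  rw [Complex.sq_norm, Complex.normSq_apply]; ring

lemma wd_sq_add (x y : ℂ) : wd x y ^ 2 + ip x y ^ 2 = ‖x‖ ^ 2 * ‖y‖ ^ 2 := by
  rw [normsq, normsq]; unfold wd ip; ring

lemma abs_wd_le (x y : ℂ) : |wd x y| ≤ ‖x‖ * ‖y‖ := by
  apply abs_le_of_sq_le_sq' _ (by positivity) |> abs_le.mpr
  nlinarith [wd_sq_add x y, sq_nonneg (ip x y)]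

lemma abs_ip_le (x y : ℂ) : |ip x y| ≤ ‖x‖ * ‖y‖ := by
  apply abs_le_of_sq_le_sq' _ (by positivity) |> abs_le.mpr
  nlinarith [wd_sq_add x y, sq_nonneg (wd x y)]

lemma ip_self (x : ℂ) : ip x x = ‖x‖ ^ 2 := by rw [normsq]; unfold ip; ring
lemma wd_self (x : ℂ) : wd x x = 0 := by unfold wd; ring
lemma wd_I (x y : ℂ) : wd x (I * y) = ip x y := by simp [wd, ip]
lemma ip_I (x y : ℂ) : ip x (I * y) = -wd x y := by simp [wd, ip]; ring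
lemma wd_add_left (x y z : ℂ) : wd (x + y) z = wd x z + wd y z := by simp [wd]; ring
lemma wd_add_right (x y z : ℂ) : wd x (y + z) = wd x y + wd x z := by simp [wd]; ring
lemma wd_sub_left (x y z : ℂ) : wd (x - y) z = wd x z - wd y z := by simp [wd]; ring
lemma wd_sub_right (x y z : ℂ) : wd x (y - z) = wd x y - wd x z := by simp [wd]; ring
lemma wd_smul_left (a : ℝ) (x y : ℂ) : wd (a • x) y = a * wd x y := by simp [wd]; ring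
lemma wd_smul_right (a : ℝ) (x y : ℂ) : wd x (a • y) = a * wd x y := by simp [wd]; ring
lemma ip_add_left (x y z : ℂ) : ip (x + y) z = ip x z + ip y z := by simp [ip]; ring
lemma ip_add_right (x y z : ℂ) : ip x (y + z) = ip x y + ip x z := by simp [ip]; ring
lemma ip_sub_left (x y z : ℂ) : ip (x - y) z = ip x z - ip y z := by simp [ip]; ring
lemma ip_sub_right (x y z : ℂ) : ip x (y - z) = ip x y - ip x z := by simp [ip]; ring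
lemma ip_smul_left (a : ℝ) (x y : ℂ) : ip (a • x) y = a * ip x y := by simp [ip]; ring
lemma ip_smul_right (a : ℝ) (x y : ℂ) : ip x (a • y) = a * ip x y := by simp [ip]; ring
lemma ip_comm (x y : ℂ) : ip x y = ip y x := by unfold ip; ring
lemma wd_comm (x y : ℂ) : wd x y = -wd y x := by unfold wd; ring

lemma clm_apply {E : Type*} [NormedAddCommGroup E] [NormedSpace ℝ E] (A : ℂ →L[ℝ] E) (x : ℂ) :
    A x = x.re • A 1 + x.im • A I := by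
  have : x = x.re • (1 : ℂ) + x.im • I := by
    apply Complex.ext <;> simp
  conv_lhs => rw [this]
  rw [map_add, map_smul, map_smul]

lemma wd_clm (A : ℂ →L[ℝ] ℂ) (x y : ℂ) : wd (A x) (A y) = wd (A 1) (A I) * wd x y := by
  rw [clm_apply A x, clm_apply A y]; simp [wd]; ring

lemma wd_unit {m : ℂ} (hm : ‖m‖ = 1) : wd m (I * m) = 1 := by rw [wd_I, ip_self, hm]; norm_num

lemma wd_clm_unit (A : ℂ →L[ℝ] ℂ) {m : ℂ} (hm : ‖m‖ = 1) :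
    wd (A m) (A (I * m)) = wd (A 1) (A I) := by rw [wd_clm, wd_unit hm, mul_one]

/-- decomposition in the orthonormal frame m, I m -/
lemma decomp {m : ℂ} (hm : ‖m‖ = 1) (x : ℂ) : x = ip x m • m + wd m x • (I * m) := by
  have h := normsq m
  rw [hm] at h
  apply Complex.ext
  · simp [ip, wd]; linear_combination x.re * h
  · simp [ip, wd]; linear_combination x.im * h

lemma opNorm_le_unit {E : Type*} [NormedAddCommGroup E] [NormedSpace ℝ E] (A : ℂ →L[ℝ] E) {m : ℂ}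
    (hm : ‖m‖ = 1) : ‖A‖ ≤ ‖A m‖ + ‖A (I * m)‖ := by
  refine A.opNorm_le_bound (by positivity) fun x => ?_
  conv_lhs => rw [decomp hm x]
  rw [map_add, map_smul, map_smul]
  have h1 := abs_ip_le x m
  have h2 := abs_wd_le m x
  rw [hm] at h1 h2
  calc _ ≤ ‖ip x m • A m‖ + ‖wd m x • A (I * m)‖ := norm_add_le _ _
    _ = |ip x m| * ‖A m‖ + |wd m x| * ‖A (I * m)‖ := by simp [norm_smul]
    _ ≤ ‖x‖ * ‖A m‖ + ‖x‖ * ‖A (I * m)‖ := by gcongr <;> linarith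
    _ = _ := by ring

lemma det_eq (A : ℂ →L[ℝ] ℂ) : A.det = wd (A 1) (A I) := by
  rw [ContinuousLinearMap.det, ← LinearMap.det_toMatrix Complex.basisOneI, Matrix.det_fin_two]
  simp [LinearMap.toMatrix_apply, wd]; ring

lemma det_near (A : ℂ →L[ℝ] ℂ) {μ : ℝ} (h : ‖A - 1‖ ≤ μ) : |wd (A 1) (A I) - 1| ≤ 2 * μ + μ ^ 2 := by
  have h0 : 0 ≤ μ := (norm_nonneg _).trans h
  have h1 : ‖A 1 - 1‖ ≤ μ := by simpa using ((A - 1).le_opNorm 1).trans (by simpa using h)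
  have h2 : ‖A I - I‖ ≤ μ := by simpa using ((A - 1).le_opNorm I).trans (by simpa using h)
  have e : wd (A 1) (A I) - 1 = wd 1 (A I - I) + wd (A 1 - 1) I + wd (A 1 - 1) (A I - I) := by
    simp [wd]; ring
  have a1 := abs_wd_le 1 (A I - I)
  have a2 := abs_wd_le (A 1 - 1) I
  have a3 := abs_wd_le (A 1 - 1) (A I - I)
  have a4 : ‖A 1 - 1‖ * ‖A I - I‖ ≤ μ * μ := by gcongr
  simp only [norm_one, norm_I, one_mul, mul_one] at a1 a2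
  rw [e]
  have := abs_add_three (wd 1 (A I - I)) (wd (A 1 - 1) I) (wd (A 1 - 1) (A I - I))
  nlinarith

/-- lower bound for a linear map of the plane in terms of norm and determinant -/
lemma det_mul_le (A : ℂ →L[ℝ] ℂ) (ζ : ℂ) : wd (A 1) (A I) * ‖ζ‖ ≤ ‖A‖ * ‖A ζ‖ := by
  rcases eq_or_ne ζ 0 with rfl | h
  · simp
  have hp : 0 < ‖ζ‖ := norm_pos_iff.mpr h
  have e := wd_clm A ζ (I * ζ)
  rw [wd_I, ip_self] at e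
  have a := (le_abs_self _).trans (abs_wd_le (A ζ) (A (I * ζ)))
  have b : ‖A (I * ζ)‖ ≤ ‖A‖ * ‖ζ‖ := by simpa using A.le_opNorm (I * ζ)
  have : wd (A 1) (A I) * ‖ζ‖ * ‖ζ‖ ≤ ‖A‖ * ‖A ζ‖ * ‖ζ‖ := by
    nlinarith [norm_nonneg (A ζ), mul_le_mul_of_nonneg_left b (norm_nonneg (A ζ))]
  exact le_of_mul_le_mul_right this hp

lemma jac_comp {f g : ℂ → ℂ} {z : ℂ} (hf : DifferentiableAt ℝ f (g z)) (hg : DifferentiableAt ℝ g z) :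
    jac (fun x => f (g x)) z = jac f (g z) * jac g z := by
  have : fderiv ℝ (fun x => f (g x)) z = (fderiv ℝ f (g z)).comp (fderiv ℝ g z) :=
    fderiv_comp z hf hg
  unfold jac; rw [this]; simp only [ContinuousLinearMap.comp_apply]; rw [wd_clm]

lemma jac_congr {f g : ℂ → ℂ} {z : ℂ} (h : f =ᶠ[𝓝 z] g) : jac f z = jac g z := by
  unfold jac; rw [h.fderiv_eq]

lemma jac_unit (f : ℂ → ℂ) (z : ℂ) {m : ℂ} (hm : ‖m‖ = 1) :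
    wd (fderiv ℝ f z m) (fderiv ℝ f z (I * m)) = jac f z := wd_clm_unit _ hm

/-! ### the difference calculus -/

section calc_
variable {X Z E F G : Type*} [NormedAddCommGroup X] [NormedAddCommGroup Z] [NormedAddCommGroup E]
  [NormedAddCommGroup F] [NormedAddCommGroup G]

lemma L2.mono {f : X → E} {B1 B2 A1 A2 : ℝ} (h : L2 f B1 B2) (h1 : B1 ≤ A1) (h2 : B2 ≤ A2) :
    L2 f A1 A2 :=
  ⟨h.n1.trans h1, h.n2.trans h2, fun x y => (h.b1 x y).trans (by gcongr),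
    fun x a b => (h.b2 x a b).trans (by gcongr)⟩

lemma D2.n0 {f : X → E} {B0 B1 B2 : ℝ} (h : D2 f B0 B1 B2) : 0 ≤ B0 :=
  (norm_nonneg _).trans (h.b0 0)

lemma D2.mono {f : X → E} {B0 B1 B2 A0 A1 A2 : ℝ} (h : D2 f B0 B1 B2) (h0 : B0 ≤ A0)
    (h1 : B1 ≤ A1) (h2 : B2 ≤ A2) : D2 f A0 A1 A2 :=
  ⟨h.toL2.mono h1 h2, fun x => (h.b0 x).trans h0⟩

lemma Dh.nonneg {f : X → E} {B0 b h : ℝ} (H : Dh f B0 b h) (hh : 0 < h) : 0 ≤ b := by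
  have := H.n1; rwa [le_div_iff₀ hh, zero_mul] at this

lemma Dh.mono {f : X → E} {B0 b h A0 b' : ℝ} (H : Dh f B0 b h) (hh : 0 < h) (h0 : B0 ≤ A0)
    (hb : b ≤ b') : Dh f A0 b' h := D2.mono H h0 (by gcongr) (by gcongr)

/-- passing to the smaller scale h / γ -/
lemma Dh.scale {f : X → E} {B0 b h γ : ℝ} (H : Dh f B0 b h) (hh : 0 < h) (hγ : 1 ≤ γ) :
    Dh f B0 (b / γ) (h / γ) := by
  have hb := H.nonneg hh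
  refine D2.mono H le_rfl (le_of_eq (by field_simp)) ?_
  have : b / γ / (h / γ) ^ 2 = b / h ^ 2 * γ := by field_simp
  rw [this]; exact le_mul_of_one_le_right (by positivity) hγ

lemma L2.lipschitz {f : X → E} {B1 B2 : ℝ} (h : L2 f B1 B2) : LipschitzWith ⟨B1, h.n1⟩ f :=
  LipschitzWith.of_dist_le_mul fun x y => by rw [dist_eq_norm, dist_eq_norm]; exact h.b1 x y

lemma L2.continuous {f : X → E} {B1 B2 : ℝ} (h : L2 f B1 B2) : Continuous f :=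
  h.lipschitz.continuous

lemma L2.const (c : E) : L2 (fun _ : X => c) 0 0 := ⟨le_rfl, le_rfl, by simp, by simp⟩

lemma D2.const (c : E) : D2 (fun _ : X => c) ‖c‖ 0 0 := ⟨L2.const c, fun _ => le_rfl⟩

lemma L2.id : L2 (fun x : X => x) 1 0 :=
  ⟨zero_le_one, le_rfl, by simp, fun x a b => by simp⟩

lemma L2.add {f g : X → E} {B1 B2 A1 A2 : ℝ} (hf : L2 f B1 B2) (hg : L2 g A1 A2) :
    L2 (fun x => f x + g x) (B1 + A1) (B2 + A2) := by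
  refine ⟨add_nonneg hf.n1 hg.n1, add_nonneg hf.n2 hg.n2, fun x y => ?_, fun x a b => ?_⟩
  · calc _ = ‖(f x - f y) + (g x - g y)‖ := by congr 1; abel
      _ ≤ _ := norm_add_le _ _
      _ ≤ _ := by linarith [hf.b1 x y, hg.b1 x y]
  · calc _ = ‖(f (x + a + b) - f (x + a) - f (x + b) + f x) +
          (g (x + a + b) - g (x + a) - g (x + b) + g x)‖ := by congr 1; abel
      _ ≤ _ := norm_add_le _ _
      _ ≤ _ := by linarith [hf.b2 x a b, hg.b2 x a b]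

lemma L2.neg {f : X → E} {B1 B2 : ℝ} (hf : L2 f B1 B2) : L2 (fun x => -f x) B1 B2 := by
  refine ⟨hf.n1, hf.n2, fun x y => ?_, fun x a b => ?_⟩
  · rw [← norm_neg]; refine le_of_eq_of_le ?_ (hf.b1 x y); congr 1; abel
  · rw [← norm_neg]; refine le_of_eq_of_le ?_ (hf.b2 x a b); congr 1; abel

lemma L2.sub {f g : X → E} {B1 B2 A1 A2 : ℝ} (hf : L2 f B1 B2) (hg : L2 g A1 A2) :
    L2 (fun x => f x - g x) (B1 + A1) (B2 + A2) := by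
  simpa [sub_eq_add_neg] using hf.add hg.neg

lemma L2.add_const {f : X → E} {B1 B2 : ℝ} (hf : L2 f B1 B2) (c : E) :
    L2 (fun x => f x + c) B1 B2 := by simpa using hf.add (L2.const c)

lemma L2.sub_const {f : X → E} {B1 B2 : ℝ} (hf : L2 f B1 B2) (c : E) :
    L2 (fun x => f x - c) B1 B2 := by simpa using hf.sub (L2.const c)

lemma L2.of_sub_const {f : X → E} {B1 B2 : ℝ} {c : E} (hf : L2 (fun x => f x - c) B1 B2) :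
    L2 f B1 B2 := by simpa using hf.add_const c

lemma D2.add {f g : X → E} {B0 B1 B2 A0 A1 A2 : ℝ} (hf : D2 f B0 B1 B2) (hg : D2 g A0 A1 A2) :
    D2 (fun x => f x + g x) (B0 + A0) (B1 + A1) (B2 + A2) :=
  ⟨hf.toL2.add hg.toL2, fun x => (norm_add_le _ _).trans (add_le_add (hf.b0 x) (hg.b0 x))⟩

lemma D2.neg {f : X → E} {B0 B1 B2 : ℝ} (hf : D2 f B0 B1 B2) : D2 (fun x => -f x) B0 B1 B2 :=
  ⟨hf.toL2.neg, fun x => by simpa using hf.b0 x⟩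

lemma D2.sub {f g : X → E} {B0 B1 B2 A0 A1 A2 : ℝ} (hf : D2 f B0 B1 B2) (hg : D2 g A0 A1 A2) :
    D2 (fun x => f x - g x) (B0 + A0) (B1 + A1) (B2 + A2) :=
  ⟨hf.toL2.sub hg.toL2, fun x => (norm_sub_le _ _).trans (add_le_add (hf.b0 x) (hg.b0 x))⟩

lemma L2.comp {g : Z → E} {φ : X → Z} {B1 B2 P1 P2 : ℝ} (hg : L2 g B1 B2) (hφ : L2 φ P1 P2) :
    L2 (fun x => g (φ x)) (B1 * P1) (B2 * P1 ^ 2 + B1 * P2) := by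
  have := hg.n1; have := hg.n2; have := hφ.n1; have := hφ.n2
  refine ⟨by positivity, by positivity, fun x y => ?_, fun x a b => ?_⟩
  · calc _ ≤ B1 * ‖φ x - φ y‖ := hg.b1 _ _
      _ ≤ B1 * (P1 * ‖x - y‖) := by gcongr; exact hφ.b1 x y
      _ = _ := by ring
  · have h1 := hg.b2 (φ x) (φ (x + a) - φ x) (φ (x + b) - φ x)
    have h2 := hg.b1 (φ (x + a + b)) (φ x + (φ (x + a) - φ x) + (φ (x + b) - φ x))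
    have h3 : ‖φ (x + a) - φ x‖ ≤ P1 * ‖a‖ := by simpa using hφ.b1 (x + a) x
    have h4 : ‖φ (x + b) - φ x‖ ≤ P1 * ‖b‖ := by simpa using hφ.b1 (x + b) x
    have h5 : ‖φ (x + a + b) - (φ x + (φ (x + a) - φ x) + (φ (x + b) - φ x))‖ ≤ P2 * ‖a‖ * ‖b‖ := by
      convert hφ.b2 x a b using 2; abel
    simp only [add_sub_cancel] at h1 h2 h5
    calc _ = ‖(g (φ (x + a + b)) - g (φ (x + a) + (φ (x + b) - φ x))) +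
          (g (φ (x + a) + (φ (x + b) - φ x)) - g (φ (x + a)) - g (φ (x + b)) + g (φ x))‖ := by
          congr 1; abel
      _ ≤ _ := norm_add_le _ _
      _ ≤ B1 * (P2 * ‖a‖ * ‖b‖) + B2 * (P1 * ‖a‖) * (P1 * ‖b‖) := by
          gcongr
          · exact h2.trans (by gcongr)
          · exact h1.trans (by gcongr)
      _ = _ := by ring

lemma D2.comp {g : Z → E} {φ : X → Z} {B0 B1 B2 P1 P2 : ℝ} (hg : D2 g B0 B1 B2)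
    (hφ : L2 φ P1 P2) : D2 (fun x => g (φ x)) B0 (B1 * P1) (B2 * P1 ^ 2 + B1 * P2) :=
  ⟨hg.toL2.comp hφ, fun _ => hg.b0 _⟩

/-- product rule for a biadditive map of norm at most one -/
lemma D2.bilin {f : X → E} {g : X → F} (m : E → F → G)
    (hl : ∀ a a' b, m (a - a') b = m a b - m a' b) (hr : ∀ a b b', m a (b - b') = m a b - m a b')
    (hn : ∀ a b, ‖m a b‖ ≤ ‖a‖ * ‖b‖) {A0 A1 A2 B0 B1 B2 : ℝ} (hf : D2 f A0 A1 A2)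
    (hg : D2 g B0 B1 B2) :
    D2 (fun x => m (f x) (g x)) (A0 * B0) (A1 * B0 + A0 * B1) (A2 * B0 + 2 * A1 * B1 + A0 * B2) := by
  have := hf.n0; have := hf.n1; have := hf.n2; have := hg.n0; have := hg.n1; have := hg.n2
  have hl' : ∀ a a' b, m (a + a') b = m a b + m a' b := fun a a' b => by
    have := hl (a + a') a' b; simp at this; rw [this]; abel
  have hr' : ∀ a b b', m a (b + b') = m a b + m a b' := fun a b b' => by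
    have := hr a (b + b') b'; simp at this; rw [this]; abel
  refine ⟨⟨by positivity, by positivity, fun x y => ?_, fun x a b => ?_⟩, fun x => ?_⟩
  · calc _ = ‖m (f x - f y) (g x) + m (f y) (g x - g y)‖ := by rw [hl, hr]; congr 1; abel
      _ ≤ _ := norm_add_le _ _
      _ ≤ (A1 * ‖x - y‖) * B0 + A0 * (B1 * ‖x - y‖) := by
          gcongr
          · exact (hn _ _).trans (by gcongr; exacts [hf.b1 _ _, hg.b0 _])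
          · exact (hn _ _).trans (by gcongr; exacts [hf.b0 _, hg.b1 _ _])
      _ = _ := by ring
  · have f1 : ‖f (x + a) - f x‖ ≤ A1 * ‖a‖ := by simpa using hf.b1 (x + a) x
    have f2 : ‖f (x + b) - f x‖ ≤ A1 * ‖b‖ := by simpa using hf.b1 (x + b) x
    have g1 : ‖g (x + a + b) - g (x + a)‖ ≤ B1 * ‖b‖ := by simpa using hg.b1 (x + a + b) (x + a)
    have g2 : ‖g (x + a + b) - g (x + b)‖ ≤ B1 * ‖a‖ := by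
      have := hg.b1 (x + a + b) (x + b)
      rwa [show x + a + b - (x + b) = a by abel] at this
    calc _ = ‖m (f (x + a + b) - f (x + a) - f (x + b) + f x) (g (x + a + b)) +
          m (f (x + a) - f x) (g (x + a + b) - g (x + a)) +
          m (f (x + b) - f x) (g (x + a + b) - g (x + b)) +
          m (f x) (g (x + a + b) - g (x + a) - g (x + b) + g x)‖ := by
          simp only [hl, hr, hl', hr']; congr 1; abel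
      _ ≤ (A2 * ‖a‖ * ‖b‖) * B0 + (A1 * ‖a‖) * (B1 * ‖b‖) + (A1 * ‖b‖) * (B1 * ‖a‖) +
          A0 * (B2 * ‖a‖ * ‖b‖) := by
          refine norm_add_le_of_le (norm_add_le_of_le (norm_add_le_of_le ?_ ?_) ?_) ?_
          · exact (hn _ _).trans (by gcongr; exacts [hf.b2 _ _ _, hg.b0 _])
          · exact (hn _ _).trans (by gcongr)
          · exact (hn _ _).trans (by gcongr)
          · exact (hn _ _).trans (by gcongr; exacts [hf.b0 _, hg.b2 _ _ _])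
      _ = _ := by ring
  · exact (hn _ _).trans (by gcongr; exacts [hf.b0 _, hg.b0 _])

lemma D2.mul {f g : X → ℝ} {A0 A1 A2 B0 B1 B2 : ℝ} (hf : D2 f A0 A1 A2) (hg : D2 g B0 B1 B2) :
    D2 (fun x => f x * g x) (A0 * B0) (A1 * B0 + A0 * B1) (A2 * B0 + 2 * A1 * B1 + A0 * B2) :=
  D2.bilin (fun a b : ℝ => a * b) sub_mul mul_sub (fun a b => (norm_mul a b).le) hf hg

lemma D2.wd {f g : X → ℂ} {A0 A1 A2 B0 B1 B2 : ℝ} (hf : D2 f A0 A1 A2) (hg : D2 g B0 B1 B2) :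
    D2 (fun x => wd (f x) (g x)) (A0 * B0) (A1 * B0 + A0 * B1) (A2 * B0 + 2 * A1 * B1 + A0 * B2) :=
  D2.bilin Pl.wd wd_sub_left wd_sub_right abs_wd_le hf hg

lemma D2.ip {f g : X → ℂ} {A0 A1 A2 B0 B1 B2 : ℝ} (hf : D2 f A0 A1 A2) (hg : D2 g B0 B1 B2) :
    D2 (fun x => ip (f x) (g x)) (A0 * B0) (A1 * B0 + A0 * B1) (A2 * B0 + 2 * A1 * B1 + A0 * B2) :=
  D2.bilin Pl.ip ip_sub_left ip_sub_right abs_ip_le hf hg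

lemma D2.sum {ι : Type*} (s : Finset ι) {f : ι → X → E} {B0 B1 B2 : ι → ℝ}
    (h : ∀ i ∈ s, D2 (f i) (B0 i) (B1 i) (B2 i)) :
    D2 (fun x => ∑ i ∈ s, f i x) (∑ i ∈ s, B0 i) (∑ i ∈ s, B1 i) (∑ i ∈ s, B2 i) := by
  classical
  induction s using Finset.induction_on with
  | empty => simpa using D2.const (X := X) (0 : E)
  | insert i s hi ih =>
    simp only [Finset.sum_insert hi]
    exact (h i (Finset.mem_insert_self _ _)).add (ih fun j hj => h j (Finset.mem_insert_of_mem hj))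

lemma L2.of_tendsto {ι : Type*} {l : Filter ι} [l.NeBot] {f : ι → X → E} {g : X → E} {B1 B2 : ℝ}
    (h : ∀ᶠ i in l, L2 (f i) B1 B2) (ht : ∀ x, Tendsto (fun i => f i x) l (𝓝 (g x))) :
    L2 g B1 B2 := by
  obtain ⟨i, hi⟩ := h.exists
  refine ⟨hi.n1, hi.n2, fun x y => ?_, fun x a b => ?_⟩
  · exact le_of_tendsto ((ht x).sub (ht y)).norm (h.mono fun i hi => hi.b1 x y)
  · exact le_of_tendsto ((((ht _).sub (ht _)).sub (ht _)).add (ht x)).norm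
      (h.mono fun i hi => hi.b2 x a b)

lemma L2.inv {f : X → ℝ} {B1 B2 m : ℝ} (hf : L2 f B1 B2) (hm : 0 < m) (h : ∀ x, m ≤ f x) :
    D2 (fun x => (f x)⁻¹) (1 / m) (B1 / m ^ 2) (B2 / m ^ 2 + 2 * B1 ^ 2 / m ^ 3) := by
  have := hf.n1; have := hf.n2
  have hp : ∀ x, 0 < f x := fun x => hm.trans_le (h x)
  have h0 : ∀ x, |(f x)⁻¹| ≤ 1 / m := fun x => by
    rw [abs_of_pos (inv_pos.mpr (hp x)), one_div]; exact inv_anti₀ hm (h x)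
  have h1 : ∀ x y, |(f x)⁻¹ - (f y)⁻¹| ≤ B1 / m ^ 2 * ‖x - y‖ := fun x y => by
    have e : (f x)⁻¹ - (f y)⁻¹ = -(f x - f y) * (f x)⁻¹ * (f y)⁻¹ := by
      have := hp x; have := hp y; field_simp; ring
    rw [e, abs_mul, abs_mul, abs_neg]
    calc _ ≤ (B1 * ‖x - y‖) * (1 / m) * (1 / m) := by
          gcongr
          exacts [hf.b1 x y, h0 x, h0 y]
      _ = _ := by field_simp
  refine ⟨⟨by positivity, by positivity, h1, fun x a b => ?_⟩, h0⟩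
  have e : (f (x + a + b))⁻¹ - (f (x + a))⁻¹ - (f (x + b))⁻¹ + (f x)⁻¹ =
      -(f (x + a + b) - f (x + a) - f (x + b) + f x) * (f (x + a + b))⁻¹ * (f (x + b))⁻¹ -
      (f (x + a) - f x) * (((f (x + a + b))⁻¹ - (f (x + a))⁻¹) * (f (x + b))⁻¹ +
        (f (x + a))⁻¹ * ((f (x + b))⁻¹ - (f x)⁻¹)) := by
    have := hp x; have := hp (x + a); have := hp (x + b); have := hp (x + a + b)
    field_simp; ring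
  have f1 : |f (x + a) - f x| ≤ B1 * ‖a‖ := by simpa using hf.b1 (x + a) x
  have g1 : |(f (x + a + b))⁻¹ - (f (x + a))⁻¹| ≤ B1 / m ^ 2 * ‖b‖ := by
    simpa using h1 (x + a + b) (x + a)
  have g2 : |(f (x + b))⁻¹ - (f x)⁻¹| ≤ B1 / m ^ 2 * ‖b‖ := by simpa using h1 (x + b) x
  rw [Real.norm_eq_abs, e]
  calc _ ≤ _ := abs_sub _ _
    _ ≤ (B2 * ‖a‖ * ‖b‖) * (1 / m) * (1 / m) +
        (B1 * ‖a‖) * ((B1 / m ^ 2 * ‖b‖) * (1 / m) + (1 / m) * (B1 / m ^ 2 * ‖b‖)) := by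
        rw [abs_mul, abs_mul, abs_mul, abs_neg]
        gcongr
        · exact hf.b2 x a b
        · exact h0 _
        · exact h0 _
        · refine (abs_add_le _ _).trans ?_
          rw [abs_mul, abs_mul]
          gcongr
          exacts [h0 _, h0 _]
    _ = _ := by field_simp; ring

end calc_

section calc2
variable {X E F G : Type*} [NormedAddCommGroup X] [NormedSpace ℝ X] [NormedAddCommGroup E]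
  [NormedSpace ℝ E] [NormedAddCommGroup F] [NormedSpace ℝ F] [NormedAddCommGroup G] [NormedSpace ℝ G]

lemma L2.clm (A : X →L[ℝ] E) : L2 A ‖A‖ 0 :=
  ⟨norm_nonneg _, le_rfl, fun x y => by rw [← map_sub]; exact A.le_opNorm _,
    fun x a b => by simp⟩

omit [NormedSpace ℝ X] in
lemma L2.clm_comp {f : X → E} {B1 B2 : ℝ} (hf : L2 f B1 B2) (A : E →L[ℝ] F) :
    L2 (fun x => A (f x)) (‖A‖ * B1) (‖A‖ * B2) := by simpa using (L2.clm A).comp hf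

omit [NormedSpace ℝ X] in
lemma D2.clm_comp {f : X → E} {B0 B1 B2 : ℝ} (hf : D2 f B0 B1 B2) (A : E →L[ℝ] F) :
    D2 (fun x => A (f x)) (‖A‖ * B0) (‖A‖ * B1) (‖A‖ * B2) :=
  ⟨hf.toL2.clm_comp A, fun x => (A.le_opNorm _).trans (by gcongr; exact hf.b0 x)⟩

omit [NormedSpace ℝ X] in
lemma D2.smul {f : X → ℝ} {g : X → E} {A0 A1 A2 B0 B1 B2 : ℝ} (hf : D2 f A0 A1 A2)
    (hg : D2 g B0 B1 B2) :
    D2 (fun x => f x • g x) (A0 * B0) (A1 * B0 + A0 * B1) (A2 * B0 + 2 * A1 * B1 + A0 * B2) :=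
  D2.bilin (fun (a : ℝ) (b : E) => a • b) sub_smul smul_sub (fun a b => (norm_smul a b).le) hf hg

omit [NormedSpace ℝ X] in
lemma D2.const_smul {g : X → E} {B0 B1 B2 : ℝ} (c : ℝ) (hg : D2 g B0 B1 B2) :
    D2 (fun x => c • g x) (|c| * B0) (|c| * B1) (|c| * B2) := by
  simpa using (D2.const (X := X) c).smul hg

omit [NormedSpace ℝ X] in
lemma D2.const_mul {g : X → ℝ} {B0 B1 B2 : ℝ} (c : ℝ) (hg : D2 g B0 B1 B2) :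
    D2 (fun x => c * g x) (|c| * B0) (|c| * B1) (|c| * B2) := hg.const_smul c

omit [NormedSpace ℝ X] in
lemma D2.smul_const {f : X → ℝ} {B0 B1 B2 : ℝ} (hf : D2 f B0 B1 B2) (v : E) :
    D2 (fun x => f x • v) (B0 * ‖v‖) (B1 * ‖v‖) (B2 * ‖v‖) := by
  simpa using hf.smul (D2.const (X := X) v)

omit [NormedSpace ℝ X] in
lemma D2.apply {A : X → E →L[ℝ] F} {g : X → E} {A0 A1 A2 B0 B1 B2 : ℝ} (hf : D2 A A0 A1 A2)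
    (hg : D2 g B0 B1 B2) :
    D2 (fun x => A x (g x)) (A0 * B0) (A1 * B0 + A0 * B1) (A2 * B0 + 2 * A1 * B1 + A0 * B2) :=
  D2.bilin (fun (a : E →L[ℝ] F) (b : E) => a b) (fun _ _ _ => rfl) (fun a b b' => map_sub a b b')
    (fun a b => a.le_opNorm b) hf hg

omit [NormedSpace ℝ X] in
lemma D2.apply_const {A : X → E →L[ℝ] F} {A0 A1 A2 : ℝ} (hf : D2 A A0 A1 A2) (v : E) :
    D2 (fun x => A x v) (A0 * ‖v‖) (A1 * ‖v‖) (A2 * ‖v‖) := by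
  simpa using hf.apply (D2.const (X := X) v)

omit [NormedSpace ℝ X] in
lemma D2.clm_mul {A : X → F →L[ℝ] G} {B : X → E →L[ℝ] F} {A0 A1 A2 B0 B1 B2 : ℝ}
    (hf : D2 A A0 A1 A2) (hg : D2 B B0 B1 B2) :
    D2 (fun x => (A x).comp (B x)) (A0 * B0) (A1 * B0 + A0 * B1)
      (A2 * B0 + 2 * A1 * B1 + A0 * B2) :=
  D2.bilin (fun (a : F →L[ℝ] G) (b : E →L[ℝ] F) => a.comp b) ContinuousLinearMap.sub_comp
    ContinuousLinearMap.comp_sub ContinuousLinearMap.opNorm_comp_le hf hg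

omit [NormedSpace ℝ X] in
lemma D2.smulRight {A : X → E →L[ℝ] ℝ} {g : X → F} {A0 A1 A2 B0 B1 B2 : ℝ} (hf : D2 A A0 A1 A2)
    (hg : D2 g B0 B1 B2) :
    D2 (fun x => (A x).smulRight (g x)) (A0 * B0) (A1 * B0 + A0 * B1)
      (A2 * B0 + 2 * A1 * B1 + A0 * B2) :=
  D2.bilin (fun (a : E →L[ℝ] ℝ) (b : F) => a.smulRight b)
    (fun a a' b => by ext; simp [sub_smul]) (fun a b b' => by ext; simp [smul_sub])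
    (fun a b => (ContinuousLinearMap.norm_smulRight_apply a b).le) hf hg

lemma L2.of_fderiv {f : X → E} {B1 B2 : ℝ} (hd : Differentiable ℝ f) (h1 : ∀ x, ‖fderiv ℝ f x‖ ≤ B1)
    (n2 : 0 ≤ B2) (h2 : ∀ x y, ‖fderiv ℝ f x - fderiv ℝ f y‖ ≤ B2 * ‖x - y‖) : L2 f B1 B2 := by
  refine ⟨(norm_nonneg _).trans (h1 0), n2, fun x y => ?_, fun x a b => ?_⟩
  · exact convex_univ.norm_image_sub_le_of_norm_fderiv_le (fun x _ => hd x) (fun x _ => h1 x)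
      (mem_univ y) (mem_univ x)
  · have hd' : ∀ y, HasFDerivAt (fun y => f (y + b) - f y) (fderiv ℝ f (y + b) - fderiv ℝ f y) y :=
      fun y => ((hd (y + b)).hasFDerivAt.comp y ((hasFDerivAt_id y).add_const b) |>.congr_fderiv
        (by ext; simp)).sub (hd y).hasFDerivAt
    have := convex_univ.norm_image_sub_le_of_norm_hasFDerivWithin_le
      (fun y _ => (hd' y).hasFDerivWithinAt) (C := B2 * ‖b‖)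
      (fun y _ => by simpa using h2 (y + b) y) (mem_univ x) (mem_univ (x + a))
    calc _ = ‖f (x + a + b) - f (x + a) - (f (x + b) - f x)‖ := by congr 1; abel
      _ ≤ B2 * ‖b‖ * ‖x + a - x‖ := this
      _ = _ := by rw [add_sub_cancel_left]; ring

lemma D3.l2 {f : X → E} {B1 B2 B3 : ℝ} (h : D3 f B1 B2 B3) : L2 f B1 B2 :=
  L2.of_fderiv h.df h.d2.b0 h.d2.n1 h.d2.b1

lemma D3.mono {f : X → E} {B1 B2 B3 A1 A2 A3 : ℝ} (h : D3 f B1 B2 B3) (h1 : B1 ≤ A1)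
    (h2 : B2 ≤ A2) (h3 : B3 ≤ A3) : D3 f A1 A2 A3 := ⟨h.df, h.d2.mono h1 h2 h3⟩

lemma D3.add {f g : X → E} {B1 B2 B3 A1 A2 A3 : ℝ} (hf : D3 f B1 B2 B3) (hg : D3 g A1 A2 A3) :
    D3 (fun x => f x + g x) (B1 + A1) (B2 + A2) (B3 + A3) := by
  refine ⟨hf.df.add hg.df, ?_⟩
  have : fderiv ℝ (fun x => f x + g x) = fun x => fderiv ℝ f x + fderiv ℝ g x :=
    funext fun x => fderiv_add (hf.df x) (hg.df x)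
  rw [this]; exact hf.d2.add hg.d2

lemma D3.comp {g : E → F} {φ : X → E} {B1 B2 B3 P1 P2 P3 : ℝ} (hg : D3 g B1 B2 B3)
    (hφ : D3 φ P1 P2 P3) : D3 (fun x => g (φ x)) (B1 * P1) (B2 * P1 ^ 2 + B1 * P2)
      (B3 * P1 ^ 3 + 3 * B2 * P1 * P2 + B1 * P3) := by
  refine ⟨hg.df.comp hφ.df, ?_⟩
  have : fderiv ℝ (fun x => g (φ x)) = fun x => (fderiv ℝ g (φ x)).comp (fderiv ℝ φ x) :=
    funext fun x => fderiv_comp x (hg.df _) (hφ.df x)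
  rw [this]
  exact ((hg.d2.comp hφ.l2).clm_mul hφ.d2).mono le_rfl (le_of_eq (by ring)) (le_of_eq (by ring))

/-- product of a scalar function and a vector function -/
lemma D3.smul {f : X → ℝ} {g : X → E} {A0 A1 A2 A3 B0 B1 B2 B3 : ℝ} (hf : D3 f A1 A2 A3)
    (f0 : ∀ x, |f x| ≤ A0) (hg : D3 g B1 B2 B3) (g0 : ∀ x, ‖g x‖ ≤ B0) :
    D3 (fun x => f x • g x) (A1 * B0 + A0 * B1) (A2 * B0 + 2 * A1 * B1 + A0 * B2)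
      (A3 * B0 + 3 * A2 * B1 + 3 * A1 * B2 + A0 * B3) := by
  refine ⟨hf.df.smul hg.df, ?_⟩
  have : fderiv ℝ (fun x => f x • g x) =
      fun x => f x • fderiv ℝ g x + (fderiv ℝ f x).smulRight (g x) :=
    funext fun x => fderiv_smul (hf.df x) (hg.df x)
  rw [this]
  exact (((⟨hf.l2, f0⟩ : D2 f A0 A1 A2).smul hg.d2).add
    (hf.d2.smulRight (⟨hg.l2, g0⟩ : D2 g B0 B1 B2))).mono (le_of_eq (by ring))
    (le_of_eq (by ring)) (le_of_eq (by ring))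

lemma D3.clm (A : X →L[ℝ] E) (c : E) : D3 (fun x => A x + c) ‖A‖ 0 0 := by
  refine ⟨A.differentiable.add_const c, ?_⟩
  have : fderiv ℝ (fun x => A x + c) = fun _ => A :=
    funext fun x => (A.hasFDerivAt.add_const c).fderiv
  rw [this]; exact D2.const A

omit [NormedSpace ℝ X] in
lemma D2.integral {Ω : Type*} [MeasurableSpace Ω] {μ : Measure Ω} {f : Ω → X → E}
    {b0 b1 b2 : Ω → ℝ} (h : ∀ᵐ o ∂μ, D2 (f o) (b0 o) (b1 o) (b2 o))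
    (hm : ∀ x, AEStronglyMeasurable (fun o => f o x) μ) (i0 : Integrable b0 μ)
    (i1 : Integrable b1 μ) (i2 : Integrable b2 μ) :
    D2 (fun x => ∫ o, f o x ∂μ) (∫ o, b0 o ∂μ) (∫ o, b1 o ∂μ) (∫ o, b2 o ∂μ) := by
  have hi : ∀ x, Integrable (fun o => f o x) μ := fun x =>
    i0.mono' (hm x) (h.mono fun o ho => ho.b0 x)
  refine ⟨⟨integral_nonneg_of_ae (h.mono fun o ho => ho.n1),
    integral_nonneg_of_ae (h.mono fun o ho => ho.n2), fun x y => ?_, fun x a b => ?_⟩, fun x => ?_⟩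
  · rw [← integral_sub (hi x) (hi y), ← integral_mul_const]
    exact norm_integral_le_of_norm_le (i1.mul_const _) (h.mono fun o ho => ho.b1 x y)
  · have e1 := integral_sub (hi (x + a + b)) (hi (x + a))
    have e2 := integral_sub ((hi (x + a + b)).sub (hi (x + a))) (hi (x + b))
    have e3 := integral_add (((hi (x + a + b)).sub (hi (x + a))).sub (hi (x + b))) (hi x)
    simp only [Pi.sub_apply] at e2 e3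
    rw [← e1, ← e2, ← e3, ← integral_mul_const, ← integral_mul_const]
    exact norm_integral_le_of_norm_le ((i2.mul_const _).mul_const _)
      (h.mono fun o ho => ho.b2 x a b)
  · exact norm_integral_le_of_norm_le i0 (h.mono fun o ho => ho.b0 x)

omit [NormedSpace ℝ X] in
lemma D2.intervalIntegral {f : ℝ → X → E} {a b B0 B1 B2 : ℝ} (h : ∀ t ∈ uIcc a b, D2 (f t) B0 B1 B2)
    (hi : ∀ x, IntervalIntegrable (fun t => f t x) volume a b) :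
    D2 (fun x => ∫ t in a..b, f t x) (B0 * |b - a|) (B1 * |b - a|) (B2 * |b - a|) := by
  have h0 := h a left_mem_uIcc
  have := h0.n1; have := h0.n2
  refine ⟨⟨by positivity, by positivity, fun x y => ?_, fun x u v => ?_⟩, fun x => ?_⟩
  · rw [← intervalIntegral.integral_sub (hi x) (hi y), mul_right_comm]
    exact intervalIntegral.norm_integral_le_of_norm_le_const fun t ht =>
      (h t (uIoc_subset_uIcc ht)).b1 x y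
  · rw [← intervalIntegral.integral_sub (hi _) (hi _),
      ← intervalIntegral.integral_sub ((hi _).sub (hi _)) (hi _),
      ← intervalIntegral.integral_add (((hi _).sub (hi _)).sub (hi _)) (hi _)]
    refine (intervalIntegral.norm_integral_le_of_norm_le_const fun t ht =>
      (h t (uIoc_subset_uIcc ht)).b2 x u v).trans (le_of_eq (by ring))
  · exact intervalIntegral.norm_integral_le_of_norm_le_const fun t ht =>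
      (h t (uIoc_subset_uIcc ht)).b0 x

variable [CompleteSpace E]

lemma L2.exists_deriv {f : X → E} {B1 B2 : ℝ} (h : L2 f B1 B2) (x : X) : ∃ A : X →L[ℝ] E,
    (∀ v, Tendsto (fun n : ℕ => (2 : ℝ) ^ n • (f (x + ((2 : ℝ) ^ n)⁻¹ • v) - f x)) atTop (𝓝 (A v))) ∧
    ∀ v, ‖f (x + v) - f x - A v‖ ≤ B2 * ‖v‖ ^ 2 := by
  set a : X → ℕ → E := fun v n => (2 : ℝ) ^ n • (f (x + ((2 : ℝ) ^ n)⁻¹ • v) - f x) with ha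
  have hn2 := h.n2
  have step : ∀ v n, dist (a v n) (a v (n + 1)) ≤ B2 * ‖v‖ ^ 2 / 2 / 2 ^ n := fun v n => by
    have e : ((2 : ℝ) ^ n)⁻¹ • v = ((2 : ℝ) ^ (n + 1))⁻¹ • v + ((2 : ℝ) ^ (n + 1))⁻¹ • v := by
      rw [← add_smul]; congr 1; field_simp; ring
    have := h.b2 x (((2 : ℝ) ^ (n + 1))⁻¹ • v) (((2 : ℝ) ^ (n + 1))⁻¹ • v)
    rw [add_assoc, ← e] at this
    have e2 : a v n - a v (n + 1) = (2 : ℝ) ^ n • (f (x + ((2 : ℝ) ^ n)⁻¹ • v) -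
        f (x + ((2 : ℝ) ^ (n + 1))⁻¹ • v) - f (x + ((2 : ℝ) ^ (n + 1))⁻¹ • v) + f x) := by
      simp only [ha, pow_succ]; module
    rw [dist_eq_norm, e2, norm_smul, Real.norm_of_nonneg (by positivity)]
    refine (mul_le_mul_of_nonneg_left this (by positivity)).trans ?_
    rw [norm_smul, Real.norm_of_nonneg (by positivity)]
    have : (2 : ℝ) ^ n * (B2 * (((2 : ℝ) ^ (n + 1))⁻¹ * ‖v‖) * (((2 : ℝ) ^ (n + 1))⁻¹ * ‖v‖)) =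
        B2 * ‖v‖ ^ 2 / 2 / 2 ^ n / 2 := by field_simp; ring
    rw [this]; exact half_le_self (by positivity)
  choose A hA using fun v => cauchySeq_tendsto_of_complete (cauchySeq_of_le_geometric_two (step v))
  have hz : Tendsto (fun n : ℕ => ((2 : ℝ) ^ n)⁻¹) atTop (𝓝 0) :=
    tendsto_inv_atTop_zero.comp (tendsto_pow_atTop_atTop_of_one_lt one_lt_two)
  have hadd : ∀ v w, A (v + w) = A v + A w := fun v w => by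
    have t1 : Tendsto (fun n => a (v + w) n - a v n - a w n) atTop (𝓝 (A (v + w) - A v - A w)) :=
      ((hA _).sub (hA _)).sub (hA _)
    have t2 : Tendsto (fun n => a (v + w) n - a v n - a w n) atTop (𝓝 0) := by
      refine squeeze_zero_norm (a := fun n : ℕ => B2 * ‖v‖ * ‖w‖ * ((2 : ℝ) ^ n)⁻¹) (fun n => ?_)
        (by simpa using hz.const_mul (B2 * ‖v‖ * ‖w‖))
      have := h.b2 x (((2 : ℝ) ^ n)⁻¹ • v) (((2 : ℝ) ^ n)⁻¹ • w)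
      have e2 : a (v + w) n - a v n - a w n = (2 : ℝ) ^ n •
          (f (x + ((2 : ℝ) ^ n)⁻¹ • v + ((2 : ℝ) ^ n)⁻¹ • w) - f (x + ((2 : ℝ) ^ n)⁻¹ • v) -
            f (x + ((2 : ℝ) ^ n)⁻¹ • w) + f x) := by
        simp only [ha, smul_add, add_assoc]; module
      rw [e2, norm_smul, Real.norm_of_nonneg (by positivity)]
      refine (mul_le_mul_of_nonneg_left this (by positivity)).trans (le_of_eq ?_)
      rw [norm_smul, norm_smul, Real.norm_of_nonneg (by positivity)]; field_simp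
    have := tendsto_nhds_unique t1 t2
    rw [sub_sub, sub_eq_zero] at this; exact this
  have hb : ∀ v, ‖A v‖ ≤ B1 * ‖v‖ := fun v => le_of_tendsto' (hA v).norm fun n => by
    have := h.b1 (x + ((2 : ℝ) ^ n)⁻¹ • v) x
    rw [add_sub_cancel_left, norm_smul, Real.norm_of_nonneg (by positivity)] at this
    simp only [ha]
    rw [norm_smul, Real.norm_of_nonneg (by positivity)]
    refine (mul_le_mul_of_nonneg_left this (by positivity)).trans (le_of_eq ?_)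
    field_simp
  let A' : X →+ E := AddMonoidHom.mk' A hadd
  refine ⟨A'.toRealLinearMap (AddMonoidHomClass.continuous_of_bound A' B1 hb), hA, fun v => ?_⟩
  have := dist_le_of_le_geometric_two_of_tendsto₀ (step v) (hA v)
  rw [dist_eq_norm] at this
  show ‖f (x + v) - f x - A v‖ ≤ _
  simpa [ha] using this

omit [CompleteSpace E] in
lemma L2.hasFDerivAt_aux {f : X → E} {B2 : ℝ} {x : X} {A : X →L[ℝ] E}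
    (h : ∀ v, ‖f (x + v) - f x - A v‖ ≤ B2 * ‖v‖ ^ 2) : HasFDerivAt f A x := by
  rw [hasFDerivAt_iff_isLittleO_nhds_zero]
  refine (Asymptotics.IsBigO.of_bound B2 (Eventually.of_forall fun v => ?_)).trans_isLittleO
    (Asymptotics.isLittleO_norm_pow_id (E' := X) one_lt_two)
  simpa using h v

lemma L2.differentiable {f : X → E} {B1 B2 : ℝ} (h : L2 f B1 B2) : Differentiable ℝ f := fun x => by
  obtain ⟨A, -, hA⟩ := h.exists_deriv x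
  exact (L2.hasFDerivAt_aux hA).differentiableAt

lemma L2.taylor {f : X → E} {B1 B2 : ℝ} (h : L2 f B1 B2) (x v : X) :
    ‖f (x + v) - f x - fderiv ℝ f x v‖ ≤ B2 * ‖v‖ ^ 2 := by
  obtain ⟨A, -, hA⟩ := h.exists_deriv x
  rw [(L2.hasFDerivAt_aux hA).fderiv]; exact hA v

omit [CompleteSpace E] in
lemma L2.norm_fderiv_le {f : X → E} {B1 B2 : ℝ} (h : L2 f B1 B2) (x : X) : ‖fderiv ℝ f x‖ ≤ B1 :=
  norm_fderiv_le_of_lipschitz ℝ h.lipschitz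

lemma L2.fderiv_lip {f : X → E} {B1 B2 : ℝ} (h : L2 f B1 B2) (x y : X) :
    ‖fderiv ℝ f x - fderiv ℝ f y‖ ≤ B2 * ‖x - y‖ := by
  have hn2 := h.n2
  have hd : HasFDerivAt (fun z => f (z + (x - y)) - f z) (fderiv ℝ f x - fderiv ℝ f y) y := by
    have h1 : HasFDerivAt f (fderiv ℝ f x) (y + (x - y)) := by
      simpa using (h.differentiable x).hasFDerivAt
    exact (h1.comp y ((hasFDerivAt_id y).add_const (x - y)) |>.congr_fderiv (by ext; simp)).sub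
      (h.differentiable y).hasFDerivAt
  rw [← hd.fderiv]
  refine norm_fderiv_le_of_lipschitz ℝ (C := ⟨B2 * ‖x - y‖, by positivity⟩)
    (LipschitzWith.of_dist_le_mul fun u v => ?_)
  rw [dist_eq_norm, dist_eq_norm]
  have := h.b2 v (x - y) (u - v)
  rw [show v + (x - y) + (u - v) = u + (x - y) by abel, show v + (u - v) = u by abel] at this
  refine le_of_eq_of_le ?_ this
  congr 1; abel

lemma L2.continuous_fderiv {f : X → E} {B1 B2 : ℝ} (h : L2 f B1 B2) : Continuous (fderiv ℝ f) :=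
  (LipschitzWith.of_dist_le_mul (K := ⟨B2, h.n2⟩) fun x y => by
    rw [dist_eq_norm, dist_eq_norm]; exact h.fderiv_lip x y).continuous

lemma L2.contDiff {f : X → E} {B1 B2 : ℝ} (h : L2 f B1 B2) : ContDiff ℝ 1 f :=
  contDiff_one_iff_fderiv.mpr ⟨h.differentiable, h.continuous_fderiv⟩

lemma D3.contDiff {f : X → E} {B1 B2 B3 : ℝ} (h : D3 f B1 B2 B3) : ContDiff ℝ 2 f := by
  rw [show (2 : WithTop ℕ∞) = 1 + 1 from rfl, contDiff_succ_iff_fderiv]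
  exact ⟨h.df, by simp, h.d2.toL2.contDiff⟩

end calc2

end
end Pool.Agent.MP_20bec2_an.Pl

end MrgPart2

-- marker of a merged file
example : 731051 + 640300 = 731051 + 640300 := rfl
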