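import Mathlib.Topology.Sheaves.Presheaf
import Mathlib.Algebra.Lie.OfAssociative
import Mathlib.Analysis.Complex.OperatorNorm
import Mathlib.Order.CompletePartialOrder
import Mathlib.Topology.UniformSpace.Uniformizable
import Pool.Agent.MP_20bec2_an.Pl.Basic

-- ======== part 0: formerly Pool.Agent.MP_20bec2_an.Pl.Basic2
section MrgPart0

set_option autoImplicit false
open MeasureTheory Set Complex Filter Topology

namespace Pool.Agent.MP_20bec2_an.Pl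
noncomputable section

/-! ### lines and charts -/

lemma norm_mk_sub (u u' w : ℝ) : ‖(⟨u, w⟩ : ℂ) - ⟨u', w⟩‖ = |u - u'| := by
  have : (⟨u, w⟩ : ℂ) - ⟨u', w⟩ = ((u - u' : ℝ) : ℂ) := by apply Complex.ext <;> simp
  rw [this, Complex.norm_real, Real.norm_eq_abs]

lemma norm_mk_sub' (u w w' : ℝ) : ‖(⟨u, w⟩ : ℂ) - ⟨u, w'⟩‖ = |w - w'| := by
  have : (⟨u, w⟩ : ℂ) - ⟨u, w'⟩ = ((w - w' : ℝ) : ℂ) * I := by apply Complex.ext <;> simp
  rw [this, norm_mul, Complex.norm_real, Real.norm_eq_abs, norm_I, mul_one]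

lemma L2.lineRe (w : ℝ) : L2 (fun u : ℝ => (⟨u, w⟩ : ℂ)) 1 0 :=
  ⟨zero_le_one, le_rfl, fun x y => by rw [norm_mk_sub]; simp, fun x a b => by
    have : (⟨x + a + b, w⟩ : ℂ) - ⟨x + a, w⟩ - ⟨x + b, w⟩ + ⟨x, w⟩ = 0 := by
      apply Complex.ext <;> simp
    simp [this]⟩

lemma L2.lineIm (u : ℝ) : L2 (fun w : ℝ => (⟨u, w⟩ : ℂ)) 1 0 :=
  ⟨zero_le_one, le_rfl, fun x y => by rw [norm_mk_sub']; simp, fun x a b => by
    have : (⟨u, x + a + b⟩ : ℂ) - ⟨u, x + a⟩ - ⟨u, x + b⟩ + ⟨u, x⟩ = 0 := by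
      apply Complex.ext <;> simp
    simp [this]⟩

lemma L2.re : L2 (fun p : ℂ => p.re) 1 0 := by
  have := L2.clm Complex.reCLM; rwa [Complex.reCLM_norm] at this
lemma L2.im : L2 (fun p : ℂ => p.im) 1 0 := by
  have := L2.clm Complex.imCLM; rwa [Complex.imCLM_norm] at this

lemma hasDerivAt_lineRe (u w : ℝ) : HasDerivAt (fun u : ℝ => (⟨u, w⟩ : ℂ)) 1 u := by
  have : (fun u : ℝ => (⟨u, w⟩ : ℂ)) = fun u : ℝ => (u : ℂ) + w * I := by
    funext u; apply Complex.ext <;> simp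
  rw [this]; exact (Complex.ofRealCLM.hasDerivAt (x := u)).add_const _

lemma hasDerivAt_lineIm (u w : ℝ) : HasDerivAt (fun w : ℝ => (⟨u, w⟩ : ℂ)) I w := by
  have : (fun w : ℝ => (⟨u, w⟩ : ℂ)) = fun w : ℝ => (u : ℂ) + w * I := by
    funext u; apply Complex.ext <;> simp
  rw [this]
  simpa using ((Complex.ofRealCLM.hasDerivAt (x := w)).mul_const I).const_add (u : ℂ)

section
variable {E : Type*} [NormedAddCommGroup E]

lemma D2.lineRe {f : ℂ → E} {B0 B1 B2 : ℝ} (h : D2 f B0 B1 B2) (w : ℝ) :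
    D2 (fun u : ℝ => f ⟨u, w⟩) B0 B1 B2 := by simpa using h.comp (L2.lineRe w)

lemma D2.lineIm {f : ℂ → E} {B0 B1 B2 : ℝ} (h : D2 f B0 B1 B2) (u : ℝ) :
    D2 (fun w : ℝ => f ⟨u, w⟩) B0 B1 B2 := by simpa using h.comp (L2.lineIm u)

lemma D2.comp_re {e : ℝ → E} {B0 B1 B2 : ℝ} (h : D2 e B0 B1 B2) :
    D2 (fun p : ℂ => e p.re) B0 B1 B2 := by simpa using h.comp L2.re

lemma D2.comp_im {e : ℝ → E} {B0 B1 B2 : ℝ} (h : D2 e B0 B1 B2) :
    D2 (fun p : ℂ => e p.im) B0 B1 B2 := by simpa using h.comp L2.im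

end

/-- multiplication by a complex number as a real linear map -/
def mulL (m : ℂ) : ℂ →L[ℝ] ℂ := ContinuousLinearMap.mul ℝ ℂ m
@[simp] lemma mulL_apply (m p : ℂ) : mulL m p = m * p := rfl
lemma norm_mulL (m : ℂ) : ‖mulL m‖ = ‖m‖ := ContinuousLinearMap.opNorm_mul_apply ℝ ℂ m

/-- inverse chart -/
def chi' (z m x : ℂ) : ℂ := (starRingEnd ℂ) m * (x - z)

lemma conj_mul_unit {m : ℂ} (hm : ‖m‖ = 1) : (starRingEnd ℂ) m * m = 1 := by
  rw [Complex.conj_mul', hm]; simp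

lemma chi'_ch (z : ℂ) {m : ℂ} (hm : ‖m‖ = 1) (p : ℂ) : chi' z m (ch z m p) = p := by
  unfold chi' ch; rw [add_sub_cancel_left, ← mul_assoc, conj_mul_unit hm, one_mul]

lemma ch_chi' (z : ℂ) {m : ℂ} (hm : ‖m‖ = 1) (x : ℂ) : ch z m (chi' z m x) = x := by
  unfold chi' ch; rw [← mul_assoc, mul_comm m, conj_mul_unit hm, one_mul, add_sub_cancel]

lemma norm_ch_sub (z : ℂ) {m : ℂ} (hm : ‖m‖ = 1) (p : ℂ) : ‖ch z m p - z‖ = ‖p‖ := by
  unfold ch; rw [add_sub_cancel_left, norm_mul, hm, one_mul]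

lemma norm_chi' (z : ℂ) {m : ℂ} (hm : ‖m‖ = 1) (x : ℂ) : ‖chi' z m x‖ = ‖x - z‖ := by
  unfold chi'; rw [norm_mul, Complex.norm_conj, hm, one_mul]

lemma hasFDerivAt_ch (z m p : ℂ) : HasFDerivAt (ch z m) (mulL m) p :=
  (mulL m).hasFDerivAt.const_add z

lemma hasFDerivAt_chi' (z m x : ℂ) : HasFDerivAt (chi' z m) (mulL ((starRingEnd ℂ) m)) x :=
  (mulL ((starRingEnd ℂ) m)).hasFDerivAt.comp x ((hasFDerivAt_id x).sub_const z) |>.congr_fderiv
    (ContinuousLinearMap.ext fun v => by simp)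

lemma D3.ch (z : ℂ) {m : ℂ} (hm : ‖m‖ = 1) : D3 (Pl.ch z m) 1 0 0 := by
  have := D3.clm (mulL m) z
  rw [norm_mulL, hm] at this
  convert this using 2; simp [Pl.ch, add_comm]

lemma D3.chi' (z : ℂ) {m : ℂ} (hm : ‖m‖ = 1) : D3 (Pl.chi' z m) 1 0 0 := by
  have := D3.clm (mulL ((starRingEnd ℂ) m)) (-((starRingEnd ℂ) m * z))
  rw [norm_mulL, Complex.norm_conj, hm] at this
  convert this using 2; simp [Pl.chi']; ring

section
variable {E : Type*} [NormedAddCommGroup E] [NormedSpace ℝ E]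

lemma fderiv_ch {y : ℂ → E} {z m p : ℂ} (hy : DifferentiableAt ℝ y (ch z m p)) (v : ℂ) :
    fderiv ℝ (fun p => y (ch z m p)) p v = fderiv ℝ y (ch z m p) (m * v) := by
  exact congrArg (fun A : ℂ →L[ℝ] E => A v) (hy.hasFDerivAt.comp p (hasFDerivAt_ch z m p)).fderiv

lemma fderiv_chi' {y : ℂ → E} {z m x : ℂ} (hy : DifferentiableAt ℝ y (chi' z m x)) (v : ℂ) :
    fderiv ℝ (fun x => y (chi' z m x)) x v = fderiv ℝ y (chi' z m x) ((starRingEnd ℂ) m * v) := by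
  exact congrArg (fun A : ℂ →L[ℝ] E => A v) (hy.hasFDerivAt.comp x (hasFDerivAt_chi' z m x)).fderiv

lemma D3.comp_ch {y : ℂ → E} {B1 B2 B3 : ℝ} (h : D3 y B1 B2 B3) (z : ℂ) {m : ℂ} (hm : ‖m‖ = 1) :
    D3 (fun p => y (Pl.ch z m p)) B1 B2 B3 := by simpa using h.comp (D3.ch z hm)

lemma D3.comp_chi' {y : ℂ → E} {B1 B2 B3 : ℝ} (h : D3 y B1 B2 B3) (z : ℂ) {m : ℂ} (hm : ‖m‖ = 1) :
    D3 (fun p => y (Pl.chi' z m p)) B1 B2 B3 := by simpa using h.comp (D3.chi' z hm)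

/-- a C1 function that vanishes on Out L has vanishing derivative there -/
lemma fderiv_out {f : ℂ → E} {L : ℝ} (hc : Continuous (fderiv ℝ f)) (h : ∀ p, Out L p → f p = 0)
    {p : ℂ} (hp : Out L p) : fderiv ℝ f p = 0 := by
  have key : ∀ q : ℂ, (L < |q.re| ∨ L < |q.im|) → fderiv ℝ f q = 0 := fun q hq => by
    have ho : IsOpen {q : ℂ | L < |q.re| ∨ L < |q.im|} :=
      (isOpen_lt continuous_const Complex.continuous_re.abs).union
        (isOpen_lt continuous_const Complex.continuous_im.abs)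
    have : f =ᶠ[𝓝 q] fun _ => 0 := (eventually_of_mem (ho.mem_nhds hq) fun x hx =>
      h x (hx.imp le_of_lt le_of_lt))
    rw [this.fderiv_eq]; simp
  obtain ⟨v, hv⟩ : ∃ v : ℂ, ∀ t : ℝ, 0 < t → L < |(p + t • v).re| ∨ L < |(p + t • v).im| := by
    rcases hp with hp | hp
    · rcases le_total 0 p.re with h0 | h0
      · exact ⟨1, fun t ht => Or.inl (by
          rw [abs_of_nonneg h0] at hp; simp; rw [abs_of_nonneg (by linarith)]; linarith)⟩
      · exact ⟨-1, fun t ht => Or.inl (by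
          rw [abs_of_nonpos h0] at hp; simp; rw [abs_of_nonpos (by linarith)]; linarith)⟩
    · rcases le_total 0 p.im with h0 | h0
      · exact ⟨I, fun t ht => Or.inr (by
          rw [abs_of_nonneg h0] at hp; simp; rw [abs_of_nonneg (by linarith)]; linarith)⟩
      · exact ⟨-I, fun t ht => Or.inr (by
          rw [abs_of_nonpos h0] at hp; simp; rw [abs_of_nonpos (by linarith)]; linarith)⟩
  have t1 : Tendsto (fun t : ℝ => fderiv ℝ f (p + t • v)) (𝓝[>] 0) (𝓝 (fderiv ℝ f p)) := by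
    have : Continuous fun t : ℝ => fderiv ℝ f (p + t • v) := hc.comp (by fun_prop)
    simpa using (this.tendsto 0).mono_left nhdsWithin_le_nhds
  exact tendsto_nhds_unique t1 (tendsto_const_nhds.congr'
    (eventually_nhdsWithin_of_forall fun t ht => (key _ (hv t ht)).symm))

end

lemma jac_ch {y : ℂ → ℂ} {z m p : ℂ} (hm : ‖m‖ = 1) (hy : DifferentiableAt ℝ y (ch z m p)) :
    jac (fun p => y (ch z m p)) p = jac y (ch z m p) := by
  unfold jac; rw [fderiv_ch hy, fderiv_ch hy, mul_one, mul_comm m I]; exact wd_clm_unit _ hm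

lemma out_of_norm {L : ℝ} {p : ℂ} (hL : 0 ≤ L) (h : 29 / 20 * L ≤ ‖p‖) : Out L p := by
  by_contra hc
  simp only [Out, not_or, not_le] at hc
  have h1 := sq_lt_sq' (abs_lt.mp hc.1).1 (abs_lt.mp hc.1).2
  have h2 := sq_lt_sq' (abs_lt.mp hc.2).1 (abs_lt.mp hc.2).2
  have := normsq p
  nlinarith [norm_nonneg p]

lemma norm_lt_of_le {L : ℝ} {p : ℂ} (hL : 0 < L) (h1 : |p.re| ≤ L) (h2 : |p.im| ≤ L) :
    ‖p‖ < 29 / 20 * L := by
  have h3 := sq_le_sq' (abs_le.mp h1).1 (abs_le.mp h1).2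
  have h4 := sq_le_sq' (abs_le.mp h2).1 (abs_le.mp h2).2
  have := normsq p
  by_contra hc
  push Not at hc
  nlinarith [norm_nonneg p]

lemma deriv_out {e : ℝ → ℝ} {L : ℝ} (hd : Differentiable ℝ e) (h : ∀ u, L ≤ |u| → e u = 0)
    {u : ℝ} (hu : L ≤ |u|) : deriv e u = 0 := by
  rcases le_total 0 u with h0 | h0
  · rw [abs_of_nonneg h0] at hu
    have h1 : HasDerivWithinAt e 0 (Ici u) u := (hasDerivWithinAt_const u _ (0 : ℝ)).congr
      (fun t ht => h t (hu.trans (ht.trans (le_abs_self t)))) (h u (hu.trans (le_abs_self u)))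
    exact (uniqueDiffWithinAt_Ici u).eq_deriv _ (hd u).hasDerivAt.hasDerivWithinAt h1
  · rw [abs_of_nonpos h0] at hu
    have h1 : HasDerivWithinAt e 0 (Iic u) u := (hasDerivWithinAt_const u _ (0 : ℝ)).congr
      (fun t ht => h t (hu.trans ((neg_le_neg ht).trans (neg_le_abs t))))
      (h u (hu.trans (neg_le_abs u)))
    exact (uniqueDiffWithinAt_Iic u).eq_deriv _ (hd u).hasDerivAt.hasDerivWithinAt h1

/-! ### the class C4 -/

lemma C4.n0 {e : ℝ → ℝ} {M l : ℝ} (h : C4 e M l) : 0 ≤ M := by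
  simpa using (abs_nonneg _).trans (h.bd 0 (by norm_num) 0)

lemma C4.mono {e : ℝ → ℝ} {M l M' l' : ℝ} (h : C4 e M l) (hM : M ≤ M') (h0 : 0 < l')
    (hl : l' ≤ l) : C4 e M' l' :=
  ⟨h.cd, fun j hj u => (h.bd j hj u).trans (by have := h.n0.trans hM; gcongr)⟩

lemma C4.hasDerivAt {e : ℝ → ℝ} {M l : ℝ} (h : C4 e M l) {j : ℕ} (hj : j < 4) (u : ℝ) :
    HasDerivAt (iteratedDeriv j e) (iteratedDeriv (j + 1) e u) u := by
  rw [iteratedDeriv_succ]
  exact (h.cd.differentiable_iteratedDeriv j (by exact_mod_cast hj) u).hasDerivAt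

lemma C4.d2 {e : ℝ → ℝ} {M l : ℝ} (h : C4 e M l) (hl : 0 < l) {j : ℕ} (hj : j ≤ 2) :
    D2 (iteratedDeriv j e) (M / l ^ j) (M / l ^ (j + 1)) (M / l ^ (j + 2)) := by
  have := h.n0
  have hf : ∀ u, fderiv ℝ (iteratedDeriv j e) u =
      ContinuousLinearMap.toSpanSingleton ℝ (iteratedDeriv (j + 1) e u) :=
    fun u => (h.hasDerivAt (by omega) u).hasFDerivAt.fderiv
  refine ⟨L2.of_fderiv (fun u => (h.hasDerivAt (by omega) u).differentiableAt) (fun u => ?_)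
    (by positivity) (fun u v => ?_), h.bd j (by omega)⟩
  · rw [hf, ContinuousLinearMap.norm_toSpanSingleton]; exact h.bd _ (by omega) u
  · have e : ∀ a b : ℝ, ContinuousLinearMap.toSpanSingleton ℝ a -
        ContinuousLinearMap.toSpanSingleton ℝ b = ContinuousLinearMap.toSpanSingleton ℝ (a - b) :=
      fun a b => by ext; simp
    rw [hf, hf, e, ContinuousLinearMap.norm_toSpanSingleton]
    exact convex_univ.norm_image_sub_le_of_norm_hasDerivWithin_le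
      (fun x _ => (h.hasDerivAt (j := j + 1) (by omega) x).hasDerivWithinAt)
      (fun x _ => h.bd (j + 2) (by omega) x) (mem_univ v) (mem_univ u)

lemma C4.d2_0 {e : ℝ → ℝ} {M l : ℝ} (h : C4 e M l) (hl : 0 < l) : D2 e M (M / l) (M / l ^ 2) := by
  simpa using h.d2 hl (j := 0) (by norm_num)

lemma C4.d2_1 {e : ℝ → ℝ} {M l : ℝ} (h : C4 e M l) (hl : 0 < l) :
    D2 (deriv e) (M / l) (M / l ^ 2) (M / l ^ 3) := by
  simpa using h.d2 hl (j := 1) (by norm_num)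

lemma C4.d3 {e : ℝ → ℝ} {M l : ℝ} (h : C4 e M l) (hl : 0 < l) :
    D3 e (M / l) (M / l ^ 2) (M / l ^ 3) := by
  refine ⟨h.cd.differentiable (by norm_num), ?_⟩
  have : fderiv ℝ e = fun u => deriv e u • (1 : ℝ →L[ℝ] ℝ) := by
    funext u; ext; simp
  rw [this]; simpa using (h.d2_1 hl).smul_const (1 : ℝ →L[ℝ] ℝ)

lemma C4.mul {e e' : ℝ → ℝ} {M M' l : ℝ} (h : C4 e M l) (h' : C4 e' M' l) (hl : 0 < l) :
    C4 (fun u => e u * e' u) (16 * M * M') l := by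
  have := h.n0; have := h'.n0
  refine ⟨h.cd.mul h'.cd, fun j hj u => ?_⟩
  rw [iteratedDeriv_fun_mul (h.cd.contDiffAt.of_le (by exact_mod_cast hj))
    (h'.cd.contDiffAt.of_le (by exact_mod_cast hj))]
  calc _ ≤ ∑ i ∈ Finset.range (j + 1), (j.choose i : ℝ) * (M * M' / l ^ j) := by
        refine (Finset.abs_sum_le_sum_abs _ _).trans (Finset.sum_le_sum fun i hi => ?_)
        have hi' : i ≤ j := Nat.lt_succ_iff.mp (Finset.mem_range.mp hi)
        rw [abs_mul, abs_mul, Nat.abs_cast, mul_assoc]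
        gcongr
        calc _ ≤ M / l ^ i * (M' / l ^ (j - i)) := by
              gcongr
              exacts [h.bd i (by omega) u, h'.bd _ (by omega) u]
          _ = _ := by rw [div_mul_div_comm, ← pow_add, Nat.add_sub_cancel' hi']
    _ = 2 ^ j * (M * M' / l ^ j) := by
        rw [← Finset.sum_mul, ← Nat.cast_sum, Nat.sum_range_choose]; simp
    _ ≤ 2 ^ 4 * (M * M' / l ^ j) := by gcongr; norm_num
    _ = _ := by ring

lemma C4.const_mul {e : ℝ → ℝ} {M l : ℝ} (h : C4 e M l) (c : ℝ) :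
    C4 (fun u => c * e u) (|c| * M) l := by
  refine ⟨contDiff_const.mul h.cd, fun j hj u => ?_⟩
  rw [iteratedDeriv_const_mul c (h.cd.contDiffAt.of_le (by exact_mod_cast hj)), abs_mul,
    mul_div_assoc]
  gcongr; exact h.bd j hj u

lemma C4.add {e e' : ℝ → ℝ} {M M' l : ℝ} (h : C4 e M l) (h' : C4 e' M' l) :
    C4 (fun u => e u + e' u) (M + M') l := by
  refine ⟨h.cd.add h'.cd, fun j hj u => ?_⟩
  rw [iteratedDeriv_fun_add (h.cd.contDiffAt.of_le (by exact_mod_cast hj))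
    (h'.cd.contDiffAt.of_le (by exact_mod_cast hj)), add_div]
  exact (abs_add_le _ _).trans (add_le_add (h.bd j hj u) (h'.bd j hj u))

/-- affine change of the variable -/
lemma C4.affine {e : ℝ → ℝ} {M l L : ℝ} (h : C4 e M l) (hL : 0 < L) (c : ℝ) :
    C4 (fun u => e ((u - c) / L)) M (l * L) := by
  refine ⟨h.cd.comp (by fun_prop), fun j hj u => ?_⟩
  have e1 : (fun u => e ((u - c) / L)) = fun u => (fun v => e (L⁻¹ * v)) (u - c) := by
    funext u; simp [div_eq_inv_mul]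
  rw [e1, iteratedDeriv_comp_sub_const j (fun v => e (L⁻¹ * v)) c,
    iteratedDeriv_comp_const_mul (h.cd.of_le (by exact_mod_cast hj))]
  simp only [abs_mul, abs_pow, abs_inv, abs_of_pos hL]
  calc _ ≤ L⁻¹ ^ j * (M / l ^ j) := by gcongr; exact h.bd j hj _
    _ = _ := by rw [mul_pow, inv_pow]; field_simp

lemma C4.scale {e : ℝ → ℝ} {M L : ℝ} (h : C4 e M 1) (hL : 0 < L) :
    C4 (fun u => e (u / L)) M L := by simpa using h.affine hL 0

lemma exists_C4 {e : ℝ → ℝ} (h : ContDiff ℝ 4 e) (hz : ∀ u, 1 ≤ |u| → e u = 0) :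
    ∃ C : ℝ, 1 ≤ C ∧ C4 e C 1 := by
  have hs : HasCompactSupport e := HasCompactSupport.intro (isCompact_Icc (a := -1) (b := 1))
    fun u hu => hz u (by by_contra hc; exact hu (abs_le.mp (not_le.mp hc).le))
  have : ∀ j : Fin 5, ∃ C, ∀ u, |iteratedDeriv j e u| ≤ C := fun j => by
    have hc : Continuous (iteratedFDeriv ℝ j e) :=
      h.continuous_iteratedFDeriv (by exact_mod_cast Nat.lt_succ_iff.mp j.2)
    obtain ⟨C, hC⟩ := (hs.iteratedFDeriv j).exists_bound_of_continuous hc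
    exact ⟨C, fun u => by rw [← Real.norm_eq_abs, ← norm_iteratedFDeriv_eq_norm_iteratedDeriv]; exact hC u⟩
  choose C hC using this
  refine ⟨1 + ∑ j, |C j|, by
    have := Finset.sum_nonneg (s := Finset.univ) fun j _ => abs_nonneg (C j); linarith, h,
    fun j hj u => ?_⟩
  have := Finset.single_le_sum (f := fun j => |C j|) (fun j _ => abs_nonneg _)
    (Finset.mem_univ (⟨j, by omega⟩ : Fin 5))
  have h2 := (hC ⟨j, by omega⟩ u).trans (le_abs_self _)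
  simp only [one_pow, div_one] at *; linarith

/-! ### the cut-off functions -/

lemma cut_nonneg (t : ℝ) : 0 ≤ cut t :=
  mul_nonneg (Real.smoothTransition.nonneg _) (Real.smoothTransition.nonneg _)

lemma cut_le_one (t : ℝ) : cut t ≤ 1 :=
  mul_le_one₀ (Real.smoothTransition.le_one _) (Real.smoothTransition.nonneg _)
    (Real.smoothTransition.le_one _)

lemma abs_cut_le (t : ℝ) : |cut t| ≤ 1 := by rw [abs_of_nonneg (cut_nonneg t)]; exact cut_le_one t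

lemma cut_one {t : ℝ} (h : |t| ≤ 1 / 2) : cut t = 1 := by
  have := abs_le.mp h
  unfold cut
  rw [Real.smoothTransition.one_of_one_le (by linarith),
    Real.smoothTransition.one_of_one_le (by linarith), mul_one]

lemma cut_zero {t : ℝ} (h : 1 ≤ |t|) : cut t = 0 := by
  unfold cut
  rcases le_abs.mp h with h | h
  · rw [Real.smoothTransition.zero_of_nonpos (x := 2 - 2 * t) (by linarith), mul_zero]
  · rw [Real.smoothTransition.zero_of_nonpos (x := 2 + 2 * t) (by linarith), zero_mul]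

lemma cut_div_zero {t L : ℝ} (hL : 0 < L) (h : L ≤ |t|) : cut (t / L) = 0 :=
  cut_zero (by rwa [abs_div, abs_of_pos hL, one_le_div hL])

lemma contDiff_cut : ContDiff ℝ 4 cut :=
  (Real.smoothTransition.contDiff.comp (by fun_prop)).mul
    (Real.smoothTransition.contDiff.comp (by fun_prop))

lemma exists_cut : ∃ C : ℝ, 1 ≤ C ∧ C4 cut C 1 := exists_C4 contDiff_cut fun _ => cut_zero

lemma abs_chi_le (t : ℝ) : |chi t| ≤ 1 := by
  unfold chi; rw [abs_mul]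
  exact mul_le_one₀ (Real.abs_sin_le_one _) (abs_nonneg _) (Real.abs_sin_le_one _)

lemma chi_zero {t : ℝ} (h : 1 ≤ |t|) : chi t = 0 := by
  unfold chi
  rcases le_abs.mp h with h | h
  · rw [Real.smoothTransition.zero_of_nonpos (x := 1 - t) (by linarith)]; simp
  · rw [Real.smoothTransition.zero_of_nonpos (x := 1 + t) (by linarith)]; simp

lemma chi_sq {t : ℝ} (h0 : 0 ≤ t) (h1 : t ≤ 1) : chi t ^ 2 + chi (t - 1) ^ 2 = 1 := by
  have e : Real.smoothTransition (1 - t) = 1 - Real.smoothTransition t := by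
    have := Real.smoothTransition.pos_denom t
    unfold Real.smoothTransition
    rw [sub_sub_cancel, add_comm (expNegInvGlue (1 - t))]; field_simp; ring
  unfold chi
  rw [Real.smoothTransition.one_of_one_le (x := 1 + t) (by linarith),
    Real.smoothTransition.one_of_one_le (x := 1 - (t - 1)) (by linarith), e,
    show 1 + (t - 1) = t by ring, mul_sub, mul_one, Real.sin_pi_div_two_sub, Real.sin_pi_div_two]
  simp

lemma contDiff_chi : ContDiff ℝ 4 chi :=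
  (Real.contDiff_sin.comp (contDiff_const.mul (Real.smoothTransition.contDiff.comp (by fun_prop)))).mul
    (Real.contDiff_sin.comp (contDiff_const.mul (Real.smoothTransition.contDiff.comp (by fun_prop))))

lemma exists_chi : ∃ C : ℝ, 1 ≤ C ∧ C4 chi C 1 := exists_C4 contDiff_chi fun _ => chi_zero

lemma bmp_nonneg (x : ℂ) : 0 ≤ bmp x := Real.smoothTransition.nonneg _
lemma bmp_le_one (x : ℂ) : bmp x ≤ 1 := Real.smoothTransition.le_one _

lemma bmp_one {x : ℂ} (h : ‖x‖ ≤ 1) : bmp x = 1 := by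
  refine Real.smoothTransition.one_of_one_le ?_
  rw [← normsq, le_div_iff₀ (by norm_num)]; nlinarith [norm_nonneg x]

lemma bmp_zero {x : ℂ} (h : 3 / 2 ≤ ‖x‖) : bmp x = 0 := by
  refine Real.smoothTransition.zero_of_nonpos ?_
  rw [← normsq]; exact div_nonpos_of_nonpos_of_nonneg (by nlinarith) (by norm_num)

lemma contDiff_bmp : ContDiff ℝ 3 bmp := by
  have h1 : ContDiff ℝ 3 fun x : ℂ => x.re := Complex.reCLM.contDiff
  have h2 : ContDiff ℝ 3 fun x : ℂ => x.im := Complex.imCLM.contDiff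
  exact Real.smoothTransition.contDiff.comp
    ((contDiff_const.sub ((h1.pow 2).add (h2.pow 2))).div_const _)

lemma bdd {X E : Type*} [NormedAddCommGroup X] [NormedAddCommGroup E] {f : X → E}
    (h : Continuous f) (hs : HasCompactSupport f) : ∃ C, ∀ x, ‖f x‖ ≤ C :=
  hs.exists_bound_of_continuous h

lemma exists_lip {X E : Type*} [NormedAddCommGroup X] [NormedSpace ℝ X] [NormedAddCommGroup E]
    [NormedSpace ℝ E] {f : X → E} (h : ContDiff ℝ 1 f) (hs : HasCompactSupport f) :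
    ∃ C : ℝ, 0 ≤ C ∧ ∀ x y, ‖f x - f y‖ ≤ C * ‖x - y‖ := by
  obtain ⟨C, a⟩ := bdd (h.continuous_fderiv one_ne_zero) (hs.fderiv ℝ)
  exact ⟨C, (norm_nonneg _).trans (a 0), fun x y => convex_univ.norm_image_sub_le_of_norm_fderiv_le
      (fun x _ => h.differentiable one_ne_zero x) (fun x _ => a x) (mem_univ y) (mem_univ x)⟩

lemma exists_D2 {X E : Type*} [NormedAddCommGroup X] [NormedSpace ℝ X] [NormedAddCommGroup E]
    [NormedSpace ℝ E] {f : X → E} (h : ContDiff ℝ 2 f) (hs : HasCompactSupport f) :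
    ∃ C : ℝ, 1 ≤ C ∧ D2 f C C C := by
  have h1 : ContDiff ℝ 1 (fderiv ℝ f) := h.fderiv_right (by norm_num)
  obtain ⟨C0, a0⟩ := bdd h.continuous hs
  obtain ⟨C1, a1⟩ := bdd h1.continuous (hs.fderiv ℝ)
  obtain ⟨C2, p2, a2⟩ := exists_lip h1 (hs.fderiv ℝ)
  have p0 := (norm_nonneg _).trans (a0 0)
  have p1 := (norm_nonneg _).trans (a1 0)
  have d : D2 f C0 C1 C2 := ⟨L2.of_fderiv (h.differentiable (by norm_num)) a1 p2 a2, a0⟩
  exact ⟨1 + C0 + C1 + C2, by linarith, d.mono (by linarith) (by linarith) (by linarith)⟩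

lemma exists_D3 {X E : Type*} [NormedAddCommGroup X] [NormedSpace ℝ X] [NormedAddCommGroup E]
    [NormedSpace ℝ E] {f : X → E} (h : ContDiff ℝ 3 f) (hs : HasCompactSupport f) :
    ∃ C : ℝ, 1 ≤ C ∧ D3 f C C C := by
  obtain ⟨C, hC, d⟩ := exists_D2 (h.fderiv_right (m := 2) (by norm_num)) (hs.fderiv ℝ)
  exact ⟨C, hC, h.differentiable (by norm_num), d⟩

lemma exists_bmp : ∃ C : ℝ, 1 ≤ C ∧ D3 bmp C C C :=
  exists_D3 contDiff_bmp (HasCompactSupport.intro (isCompact_closedBall (0 : ℂ) 2)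
    fun x hx => bmp_zero (by simp at hx; linarith))

end
end Pool.Agent.MP_20bec2_an.Pl

end MrgPart0

-- ======== part 1: formerly Pool.Agent.MP_20bec2_an.Pl.Basic3
section MrgPart1

set_option autoImplicit false
open MeasureTheory Set Complex Filter Topology

namespace Pool.Agent.MP_20bec2_an.Pl
noncomputable section

/-! ### sums with bounded overlap and gluing -/

section overlap
variable {X E ι : Type*} [NormedAddCommGroup X] [NormedAddCommGroup E]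

/-- g is a locally finite sum of the functions f i, with at most N terms at each point -/
def Ovl (g : X → E) (f : ι → X → E) (N : ℕ) : Prop :=
  ∀ x, ∃ s : Finset ι, s.card ≤ N ∧ (∀ i ∉ s, f i x = 0) ∧ g x = ∑ i ∈ s, f i x

omit [NormedAddCommGroup X] in
lemma Ovl.common {g : X → E} {f : ι → X → E} {N : ℕ} (h : Ovl g f N) {k : ℕ} (x : Fin k → X) :
    ∃ s : Finset ι, s.card ≤ k * N ∧ ∀ j, g (x j) = ∑ i ∈ s, f i (x j) := by
  classical
  choose s h1 h2 h3 using h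
  refine ⟨Finset.univ.biUnion fun j => s (x j), ?_, fun j => ?_⟩
  · refine Finset.card_biUnion_le.trans ?_
    simpa using Finset.sum_le_card_nsmul Finset.univ (fun j => (s (x j)).card) N fun j _ => h1 _
  · rw [h3]
    exact Finset.sum_subset (Finset.subset_biUnion_of_mem (fun j => s (x j)) (Finset.mem_univ j))
      fun i _ hi => h2 _ i hi

omit [NormedAddCommGroup X] in
lemma Ovl.sup {g : X → E} {f : ι → X → E} {N : ℕ} (h : Ovl g f N) {B : ℝ} (n0 : 0 ≤ B)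
    (hf : ∀ i x, ‖f i x‖ ≤ B) (x : X) : ‖g x‖ ≤ N * B := by
  obtain ⟨s, h1, -, h3⟩ := h x
  rw [h3]
  refine (norm_sum_le _ _).trans ((Finset.sum_le_card_nsmul _ _ B fun i _ => hf i x).trans ?_)
  rw [nsmul_eq_mul]; gcongr

lemma Ovl.lip {g : X → E} {f : ι → X → E} {N : ℕ} (h : Ovl g f N) {B : ℝ} (n0 : 0 ≤ B)
    (hf : ∀ i x y, ‖f i x - f i y‖ ≤ B * ‖x - y‖) (x y : X) : ‖g x - g y‖ ≤ 2 * N * B * ‖x - y‖ := by
  obtain ⟨s, h1, h2⟩ := h.common ![x, y]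
  have e0 := h2 0; have e1 := h2 1
  simp only [Matrix.cons_val_zero, Matrix.cons_val_one] at e0 e1
  rw [e0, e1, ← Finset.sum_sub_distrib]
  refine (norm_sum_le _ _).trans ((Finset.sum_le_card_nsmul _ _ _ fun i _ => hf i x y).trans ?_)
  rw [nsmul_eq_mul, mul_assoc (2 * (N : ℝ))]; gcongr; exact_mod_cast h1

lemma Ovl.d2 {g : X → E} {f : ι → X → E} {N : ℕ} (h : Ovl g f N) {B0 B1 B2 : ℝ} (n0 : 0 ≤ B0)
    (n1 : 0 ≤ B1) (n2 : 0 ≤ B2) (hf : ∀ i, D2 (f i) B0 B1 B2) :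
    D2 g (N * B0) (2 * N * B1) (4 * N * B2) := by
  refine ⟨⟨by positivity, by positivity, h.lip n1 fun i => (hf i).b1, fun x a b => ?_⟩,
    h.sup n0 fun i => (hf i).b0⟩
  obtain ⟨s, h1, h2⟩ := h.common ![x + a + b, x + a, x + b, x]
  have e0 := h2 0; have e1 := h2 1; have e2 := h2 2; have e3 := h2 3
  simp only [Matrix.cons_val_zero, Matrix.cons_val_one, Matrix.cons_val] at e0 e1 e2 e3
  rw [e0, e1, e2, e3, ← Finset.sum_sub_distrib, ← Finset.sum_sub_distrib, ← Finset.sum_add_distrib]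
  refine (norm_sum_le _ _).trans
    ((Finset.sum_le_card_nsmul _ _ _ fun i _ => (hf i).b2 x a b).trans ?_)
  rw [nsmul_eq_mul, mul_assoc (4 * (N : ℝ)), mul_assoc (4 * (N : ℝ))]; gcongr; exact_mod_cast h1

lemma Sep.unique {z : ℤ × ℤ → ℂ} {L : ℝ} (h : Sep z L) {x : ℂ} {c c' : ℤ × ℤ}
    (h1 : ‖x - z c‖ < 3 / 2 * L) (h2 : ‖x - z c'‖ < 3 / 2 * L) : c = c' := by
  by_contra hc
  have := h c c' hc
  have e : ‖z c - z c'‖ ≤ ‖x - z c‖ + ‖x - z c'‖ := by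
    rw [← norm_neg (x - z c)]; refine le_of_eq_of_le ?_ (norm_add_le _ _); congr 1; abel
  linarith

variable {z : ℤ × ℤ → ℂ} {L : ℝ} {φ : ℤ × ℤ → ℂ → E}

lemma glue_eq {E : Type*} [Zero E] {φ : ℤ × ℤ → ℂ → E} (h : Sep z L) {c : ℤ × ℤ} {x : ℂ}
    (hx : ‖x - z c‖ < 3 / 2 * L) : glue z L φ x = φ c x := by
  have : ∃ c, ‖x - z c‖ < 3 / 2 * L := ⟨c, hx⟩
  unfold glue; rw [dif_pos this, h.unique this.choose_spec hx]

lemma glue_zero {E : Type*} [Zero E] {φ : ℤ × ℤ → ℂ → E}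
    (hs : ∀ c x, 29 / 20 * L ≤ ‖x - z c‖ → φ c x = 0) {x : ℂ}
    (hx : ∀ c, 29 / 20 * L ≤ ‖x - z c‖) : glue z L φ x = 0 := by
  unfold glue; split_ifs with h
  · exact hs _ _ (hx _)
  · rfl

lemma glue_cases (z : ℤ × ℤ → ℂ) (L : ℝ) (x : ℂ) :
    (∃ c, ‖x - z c‖ < 3 / 2 * L) ∨ ∀ c, 3 / 2 * L ≤ ‖x - z c‖ := by
  by_cases h : ∃ c, ‖x - z c‖ < 3 / 2 * L
  · exact Or.inl h
  · exact Or.inr fun c => not_lt.mp fun hc => h ⟨c, hc⟩

lemma glue_ev {E : Type*} [Zero E] {φ : ℤ × ℤ → ℂ → E} (h : Sep z L) {c : ℤ × ℤ} {x : ℂ}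
    (hx : ‖x - z c‖ < 3 / 2 * L) : glue z L φ =ᶠ[𝓝 x] φ c :=
  eventually_of_mem ((isOpen_lt (f := fun y => ‖y - z c‖) (by fun_prop) continuous_const).mem_nhds hx)
    fun _ hy => glue_eq h hy

lemma glue_ev_zero {E : Type*} [Zero E] {φ : ℤ × ℤ → ℂ → E} (hL : 0 < L)
    (hs : ∀ c x, 29 / 20 * L ≤ ‖x - z c‖ → φ c x = 0) {x : ℂ}
    (hx : ∀ c, 3 / 2 * L ≤ ‖x - z c‖) : glue z L φ =ᶠ[𝓝 x] fun _ => 0 := by
  refine eventually_of_mem (Metric.ball_mem_nhds x (show 0 < L / 20 by positivity)) fun y hy =>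
    glue_zero hs fun c => ?_
  have e : ‖x - z c‖ ≤ ‖y - z c‖ + ‖y - x‖ := by
    rw [← norm_neg (y - x)]; refine le_of_eq_of_le ?_ (norm_add_le _ _); congr 1; abel
  have := hx c
  rw [mem_ball_iff_norm] at hy; linarith

lemma glue_ovl (h : Sep z L) (hL : 0 < L) (hs : ∀ c x, 29 / 20 * L ≤ ‖x - z c‖ → φ c x = 0) :
    Ovl (glue z L φ) φ 1 := fun x => by
  rcases glue_cases z L x with ⟨c, hc⟩ | hc
  · refine ⟨{c}, by simp, fun i hi => hs _ _ ?_, by simp [glue_eq h hc]⟩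
    by_contra hn
    exact hi (by simp [h.unique (c := i) (by linarith) hc])
  · exact ⟨∅, by simp, fun i _ => hs _ _ (by linarith [hc i]),
      by simpa using glue_zero hs fun c => by linarith [hc c]⟩

lemma glue_sup {B : ℝ} (hf : ∀ c x, ‖φ c x‖ ≤ B) (x : ℂ) : ‖glue z L φ x‖ ≤ B := by
  unfold glue; split_ifs
  · exact hf _ _
  · simpa using (norm_nonneg _).trans (hf 0 0)

lemma glue_lip (h : Sep z L) (hL : 0 < L) (hs : ∀ c x, 29 / 20 * L ≤ ‖x - z c‖ → φ c x = 0) {B : ℝ}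
    (n0 : 0 ≤ B) (hf : ∀ c x y, ‖φ c x - φ c y‖ ≤ B * ‖x - y‖) (x y : ℂ) :
    ‖glue z L φ x - glue z L φ y‖ ≤ 2 * B * ‖x - y‖ := by
  simpa using (glue_ovl h hL hs).lip n0 hf x y

lemma glue_d2 (h : Sep z L) (hL : 0 < L) (hs : ∀ c x, 29 / 20 * L ≤ ‖x - z c‖ → φ c x = 0)
    {B0 B1 B2 : ℝ} (hf : ∀ c, D2 (φ c) B0 B1 B2) : D2 (glue z L φ) B0 (2 * B1) (4 * B2) := by
  simpa using (glue_ovl h hL hs).d2 (hf 0).n0 (hf 0).n1 (hf 0).n2 hf

lemma glue_continuous (h : Sep z L) (hL : 0 < L) (hs : ∀ c x, 29 / 20 * L ≤ ‖x - z c‖ → φ c x = 0)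
    (hf : ∀ c, Continuous (φ c)) : Continuous (glue z L φ) := continuous_iff_continuousAt.mpr fun x => by
  rcases glue_cases z L x with ⟨c, hc⟩ | hc
  · exact (hf c).continuousAt.congr (glue_ev h hc).symm
  · exact continuousAt_const.congr (glue_ev_zero hL hs hc).symm

variable [NormedSpace ℝ E]

lemma glue_differentiable (h : Sep z L) (hL : 0 < L)
    (hs : ∀ c x, 29 / 20 * L ≤ ‖x - z c‖ → φ c x = 0) (hf : ∀ c, Differentiable ℝ (φ c)) :
    Differentiable ℝ (glue z L φ) := fun x => by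
  rcases glue_cases z L x with ⟨c, hc⟩ | hc
  · exact (hf c x).congr_of_eventuallyEq (glue_ev h hc)
  · exact (differentiableAt_const 0).congr_of_eventuallyEq (glue_ev_zero hL hs hc)

lemma glue_fderiv (h : Sep z L) (hL : 0 < L) (hs : ∀ c x, 29 / 20 * L ≤ ‖x - z c‖ → φ c x = 0) :
    fderiv ℝ (glue z L φ) = glue z L fun c => fderiv ℝ (φ c) := funext fun x => by
  rcases glue_cases z L x with ⟨c, hc⟩ | hc
  · rw [(glue_ev h hc).fderiv_eq, glue_eq h hc]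
  · rw [(glue_ev_zero hL hs hc).fderiv_eq]
    unfold glue; rw [dif_neg fun ⟨c, h'⟩ => absurd (hc c) (not_le.mpr h')]; simp

lemma fderiv_zero_of_far {f : ℂ → E} {z0 x : ℂ} {ρ : ℝ} (hs : ∀ x, ρ ≤ ‖x - z0‖ → f x = 0)
    (hx : ρ < ‖x - z0‖) : fderiv ℝ f x = 0 := by
  have : f =ᶠ[𝓝 x] fun _ => 0 := eventually_of_mem
    ((isOpen_lt continuous_const (g := fun y => ‖y - z0‖) (by fun_prop)).mem_nhds hx)
    fun y hy => hs y (le_of_lt hy)
  rw [this.fderiv_eq]; simp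

/-- gluing in the class D3; the derivatives have to vanish far from the centres as well -/
lemma glue_d3 (h : Sep z L) (hL : 0 < L) (hs : ∀ c x, 29 / 20 * L ≤ ‖x - z c‖ → φ c x = 0)
    (hs' : ∀ c x, 29 / 20 * L ≤ ‖x - z c‖ → fderiv ℝ (φ c) x = 0)
    {B1 B2 B3 : ℝ} (hf : ∀ c, D3 (φ c) B1 B2 B3) : D3 (glue z L φ) B1 (2 * B2) (4 * B3) :=
  ⟨glue_differentiable h hL hs fun c => (hf c).df, by
    rw [glue_fderiv h hL hs]; exact glue_d2 h hL hs' fun c => (hf c).d2⟩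

end overlap

lemma cen_far {L0 : ℝ} (hL : 0 < L0) (j : ℕ) {c c' : ℤ × ℤ} (h : c ≠ c') :
    6 * L0 ≤ ‖cen L0 j c - cen L0 j c'‖ := by
  have key : ∀ a b : ℤ, a ≠ b → ∀ t : ℝ, 6 * L0 ≤ |L0 * (6 * a + t) - L0 * (6 * b + t)| :=
    fun a b hab t => by
      have : (1 : ℝ) ≤ |(a : ℝ) - b| := by exact_mod_cast Int.one_le_abs (sub_ne_zero.mpr hab)
      rw [show L0 * (6 * a + t) - L0 * (6 * b + t) = 6 * L0 * (a - b) by ring, abs_mul,
        abs_of_pos (by positivity : 0 < 6 * L0)]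
      nlinarith
  by_cases h1 : c.1 = c'.1
  · exact (key _ _ (fun h2 => h (Prod.ext h1 h2)) _).trans
      (Complex.abs_im_le_norm (cen L0 j c - cen L0 j c'))
  · exact (key _ _ h1 _).trans (Complex.abs_re_le_norm (cen L0 j c - cen L0 j c'))

lemma cen_sep {L0 : ℝ} (hL : 0 < L0) (j : ℕ) : Sep (cen L0 j) (2 * L0) := fun c c' h => by
  linarith [cen_far hL j h]

lemma cen_sep' {L : ℝ} (hL : 0 < L) (j : ℕ) : Sep (cen (L / 2) j) L := fun c c' h => by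
  linarith [cen_far (half_pos hL) j h]

lemma cen_cover {L0 : ℝ} (hL : 0 < L0) (x : ℂ) : ∃ j < 36, ∃ c, ‖x - cen L0 j c‖ ≤ 3 / 4 * L0 := by
  have key : ∀ t : ℝ, ∃ (a : ℤ) (i : ℕ), i < 6 ∧ |t - L0 * (6 * a + i)| ≤ L0 / 2 := fun t => by
    set k := round (t / L0)
    refine ⟨k / 6, (k % 6).toNat, by omega, ?_⟩
    have e : (6 * ((k / 6 : ℤ) : ℝ) + ((k % 6).toNat : ℝ)) = k := by
      have : 6 * (k / 6) + ((k % 6).toNat : ℤ) = k := by omega
      exact_mod_cast this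
    rw [e, show t - L0 * k = L0 * (t / L0 - k) by field_simp, abs_mul, abs_of_pos hL]
    nlinarith [abs_sub_round (t / L0)]
  obtain ⟨a, i, hi, h1⟩ := key x.re
  obtain ⟨b, k, hk, h2⟩ := key x.im
  refine ⟨i + 6 * k, by omega, (a, b), ?_⟩
  have e1 : (i + 6 * k) % 6 = i := by omega
  have e2 : (i + 6 * k) / 6 = k := by omega
  have h3 := normsq (x - cen L0 (i + 6 * k) (a, b))
  simp only [cen, e1, e2, Complex.sub_re, Complex.sub_im] at h3 ⊢
  have h4 := sq_le_sq' (abs_le.mp h1).1 (abs_le.mp h1).2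
  have h5 := sq_le_sq' (abs_le.mp h2).1 (abs_le.mp h2).2
  exact abs_le_of_sq_le_sq' (by nlinarith) (by positivity) |>.2

lemma aL_eq {L0 : ℝ} (hL : 0 < L0) (j : ℕ) {c : ℤ × ℤ} {x : ℂ} (hx : ‖x - cen L0 j c‖ < 3 * L0) :
    aL L0 j =ᶠ[𝓝 x] fun y => bmp (L0⁻¹ • (y - cen L0 j c)) :=
  glue_ev (cen_sep hL j) (by linarith)

lemma bump_zero {L0 : ℝ} (hL : 0 < L0) {p x : ℂ} (hx : 3 / 2 * L0 ≤ ‖x - p‖) :
    bmp (L0⁻¹ • (x - p)) = 0 := bmp_zero (by
  rw [norm_smul, Real.norm_of_nonneg (by positivity), inv_mul_eq_div, le_div_iff₀ hL]; exact hx)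

lemma aL_one {L0 : ℝ} (hL : 0 < L0) (j : ℕ) {c : ℤ × ℤ} {x : ℂ} (hx : ‖x - cen L0 j c‖ ≤ L0) :
    aL L0 j x = 1 := by
  rw [(aL_eq hL j (c := c) (by linarith)).eq_of_nhds]
  exact bmp_one (by
    rw [norm_smul, Real.norm_of_nonneg (by positivity), inv_mul_eq_div, div_le_one hL]; exact hx)

lemma aL_zero {L0 : ℝ} (hL : 0 < L0) (j : ℕ) {x : ℂ} (hx : ∀ c, 2 * L0 ≤ ‖x - cen L0 j c‖) :
    aL L0 j =ᶠ[𝓝 x] fun _ => 0 := by
  refine eventually_of_mem (Metric.ball_mem_nhds x (half_pos hL)) fun y hy => ?_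
  unfold aL glue; split_ifs with h
  · refine bump_zero hL ?_
    have e : ‖x - cen L0 j h.choose‖ ≤ ‖y - cen L0 j h.choose‖ + ‖y - x‖ := by
      rw [← norm_neg (y - x)]; refine le_of_eq_of_le ?_ (norm_add_le _ _); congr 1; abel
    rw [mem_ball_iff_norm] at hy; linarith [hx h.choose]
  · rfl

/-- bounds for one bump and for the amplitude functions -/
lemma exists_aL : ∃ C : ℝ, 1 ≤ C ∧ ∀ L0 : ℝ, 0 < L0 →
    (∀ p : ℂ, D2 (fun y => bmp (L0⁻¹ • (y - p))) 1 (C / L0) (C / L0 ^ 2) ∧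
      D3 (fun y => bmp (L0⁻¹ • (y - p))) (C / L0) (C / L0 ^ 2) (C / L0 ^ 3)) ∧
    ∀ j, D2 (aL L0 j) 1 (C / L0) (C / L0 ^ 2) ∧ D3 (aL L0 j) (C / L0) (C / L0 ^ 2) (C / L0 ^ 3) := by
  obtain ⟨C, hC, h⟩ := exists_bmp
  refine ⟨4 * C, by linarith, fun L0 hL => ?_⟩
  have hb : ∀ x, ‖bmp x‖ ≤ 1 := fun x => by
    rw [Real.norm_of_nonneg (bmp_nonneg x)]; exact bmp_le_one x
  have a : ∀ p : ℂ, D3 (fun y => bmp (L0⁻¹ • (y - p))) (C / L0) (C / L0 ^ 2) (C / L0 ^ 3) := fun p => by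
    have := D3.clm (L0⁻¹ • (1 : ℂ →L[ℝ] ℂ)) (-(L0⁻¹ • p))
    rw [norm_smul, norm_one, mul_one, Real.norm_of_nonneg (by positivity)] at this
    have := h.comp this
    refine D3.mono (by convert this using 3; simp [sub_eq_add_neg])
      (le_of_eq (by field_simp)) (le_of_eq (by field_simp; ring)) (le_of_eq (by field_simp; ring))
  have p1 : C / L0 ≤ 4 * C / L0 := by gcongr; linarith
  have p2 : C / L0 ^ 2 ≤ 4 * C / L0 ^ 2 := by gcongr; linarith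
  have p3 : C / L0 ^ 3 ≤ 4 * C / L0 ^ 3 := by gcongr; linarith
  refine ⟨fun p => ⟨⟨(a p).l2.mono p1 p2, fun _ => hb _⟩, (a p).mono p1 p2 p3⟩, fun j => ?_⟩
  have g0 := glue_d3 (z := cen L0 j) (L := 2 * L0) (φ := fun m x => bmp (L0⁻¹ • (x - cen L0 j m)))
    (cen_sep hL j) (by linarith) (fun c x hx => bump_zero hL (by linarith))
    (fun c x hx => fderiv_zero_of_far (z0 := cen L0 j c) (ρ := 3 / 2 * L0)
      (fun x hx => bump_zero hL hx) (by linarith)) fun c => a (cen L0 j c)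
  have g : D3 (aL L0 j) (4 * C / L0) (4 * C / L0 ^ 2) (4 * C / L0 ^ 3) :=
    g0.mono p1 (by rw [← mul_div_assoc]; gcongr; linarith) (le_of_eq (by ring))
  exact ⟨⟨g.l2, glue_sup fun _ _ => hb _⟩, g⟩

/-! ### small perturbations of the identity, inverse maps -/

lemma bilip_of_near {Y : ℂ → ℂ} {μ : ℝ} (hd : Differentiable ℝ Y) (h : ∀ z, ‖fderiv ℝ Y z - 1‖ ≤ μ)
    (z z' : ℂ) : (1 - μ) * ‖z - z'‖ ≤ ‖Y z - Y z'‖ ∧ ‖Y z - Y z'‖ ≤ (1 + μ) * ‖z - z'‖ := by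
  have := convex_univ.norm_image_sub_le_of_norm_hasFDerivWithin_le (f := fun z => Y z - z)
    (fun x _ => ((hd x).hasFDerivAt.sub (hasFDerivAt_id x)).hasFDerivWithinAt) (fun x _ => h x)
    (mem_univ z') (mem_univ z)
  have e1 := norm_add_le (Y z - z - (Y z' - z')) (z - z')
  have e2 := norm_sub_le (Y z - Y z') (Y z - z - (Y z' - z'))
  rw [show Y z - z - (Y z' - z') + (z - z') = Y z - Y z' by abel] at e1
  rw [show Y z - Y z' - (Y z - z - (Y z' - z')) = z - z' by abel] at e2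
  constructor <;> linarith

lemma norm_le_of_near {A : ℂ →L[ℝ] ℂ} {μ : ℝ} (h : ‖A - 1‖ ≤ μ) : ‖A‖ ≤ 1 + μ := by
  have := norm_add_le (A - 1) 1
  rw [sub_add_cancel, norm_one] at this; linarith

lemma D3.of_near {Y : ℂ → ℂ} {μ B1 B2 : ℝ} (hd : Differentiable ℝ Y)
    (h : D2 (fun z => fderiv ℝ Y z - 1) μ B1 B2) : D3 Y (1 + μ) B1 B2 :=
  ⟨hd, h.toL2.of_sub_const, fun z => norm_le_of_near (h.b0 z)⟩

lemma inv_le {f : ℂ → ℂ} {Λ : ℝ} {z : ℂ} (h : ‖fderiv ℝ f z‖ ≤ Λ) (hj : 1 / 2 ≤ jac f z) (ζ : ℂ) :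
    ‖ζ‖ ≤ 2 * Λ * ‖fderiv ℝ f z ζ‖ := by
  have h1 : jac f z * ‖ζ‖ ≤ _ := det_mul_le (fderiv ℝ f z) ζ
  nlinarith [norm_nonneg ζ, norm_nonneg (fderiv ℝ f z ζ),
    mul_le_mul_of_nonneg_right h (norm_nonneg (fderiv ℝ f z ζ))]

/-- lower Lipschitz bound for a differentiable homeomorphism -/
lemma colip {f : ℂ → ℂ} {K : ℝ} (hom : IsHomeomorph f) (hd : Differentiable ℝ f)
    (h : ∀ z ζ, ‖ζ‖ ≤ K * ‖fderiv ℝ f z ζ‖) (z z' : ℂ) : ‖z - z'‖ ≤ K * ‖f z - f z'‖ := by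
  set e := hom.homeomorph f
  have hK : 0 ≤ K := by
    by_contra hc
    have := h 0 1
    rw [norm_one] at this
    nlinarith [norm_nonneg (fderiv ℝ f 0 1)]
  have key : ∀ y, ∃ A : ℂ →L[ℝ] ℂ, HasFDerivAt e.symm A y ∧ ‖A‖ ≤ K := fun y => by
    have hinj : Function.Injective (fderiv ℝ f (e.symm y)) :=
      (injective_iff_map_eq_zero _).mpr fun ζ hζ => by
        have := h (e.symm y) ζ
        rw [hζ] at this; simpa using this
    let A : ℂ ≃L[ℝ] ℂ := (LinearEquiv.ofInjectiveEndo (fderiv ℝ f (e.symm y) : ℂ →ₗ[ℝ] ℂ)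
      hinj).toContinuousLinearEquiv
    have hA : (A : ℂ →L[ℝ] ℂ) = fderiv ℝ f (e.symm y) := ContinuousLinearMap.ext fun _ => rfl
    refine ⟨A.symm, HasFDerivAt.of_local_left_inverse e.symm.continuous.continuousAt
      (hA ▸ (hd _).hasFDerivAt) (Eventually.of_forall e.apply_symm_apply),
      ContinuousLinearMap.opNorm_le_bound _ hK fun v => ?_⟩
    have := h (e.symm y) (A.symm v)
    rwa [← hA, ContinuousLinearEquiv.coe_coe, A.apply_symm_apply] at this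
  choose A h1 h2 using key
  have := convex_univ.norm_image_sub_le_of_norm_hasFDerivWithin_le
    (fun x _ => (h1 x).hasFDerivWithinAt) (fun x _ => h2 x) (mem_univ (e z')) (mem_univ (e z))
  rwa [e.symm_apply_apply, e.symm_apply_apply] at this

lemma AfB.mono {f : ℂ → ℂ} {A A' : ℝ} (h : AfB f A) (hA : A ≤ A') : AfB f A' :=
  fun z z' ζ => (h z z' ζ).trans (by gcongr)

/-- the relative Lipschitz bound of the derivative is additive under composition -/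
lemma AfB.comp {f R : ℂ → ℂ} {A Λ K Λ' : ℝ} (h : AfB f A) (hf : Differentiable ℝ f)
    (hR : Differentiable ℝ R) (hΛ : ∀ z, ‖fderiv ℝ f z‖ ≤ Λ) (n0 : 0 ≤ K)
    (hK : ∀ z z', ‖fderiv ℝ R z - fderiv ℝ R z'‖ ≤ K * ‖z - z'‖)
    (hom : IsHomeomorph fun z => f (R z))
    (hi : ∀ z ζ, ‖ζ‖ ≤ Λ' * ‖fderiv ℝ (fun z => f (R z)) z ζ‖) :
    AfB (fun z => f (R z)) (A + Λ * K * Λ' ^ 2) := fun z z' ζ => by
  have e : ∀ z ζ, fderiv ℝ (fun z => f (R z)) z ζ = fderiv ℝ f (R z) (fderiv ℝ R z ζ) := fun z ζ =>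
    congrArg (fun A : ℂ →L[ℝ] ℂ => A ζ) (fderiv_comp z (hf _) (hR z))
  have c := colip hom (hf.comp hR) hi z z'
  have i := hi z' ζ
  have p0 : 0 ≤ Λ := (norm_nonneg _).trans (hΛ 0)
  have h1 := h (R z) (R z') (fderiv ℝ R z' ζ)
  have h2 : ‖fderiv ℝ f (R z) (fderiv ℝ R z ζ) - fderiv ℝ f (R z) (fderiv ℝ R z' ζ)‖ ≤
      Λ * (K * ‖z - z'‖ * ‖ζ‖) := by
    rw [← map_sub]
    refine ((fderiv ℝ f (R z)).le_opNorm _).trans (mul_le_mul (hΛ _) ?_ (norm_nonneg _) p0)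
    exact ((fderiv ℝ R z - fderiv ℝ R z').le_opNorm ζ).trans (by gcongr; exact hK z z')
  rw [e] at i
  rw [e, e]
  calc _ ≤ _ := norm_sub_le_norm_sub_add_norm_sub _ (fderiv ℝ f (R z) (fderiv ℝ R z' ζ)) _
    _ ≤ Λ * (K * (Λ' * ‖f (R z) - f (R z')‖) * (Λ' * ‖fderiv ℝ f (R z') (fderiv ℝ R z' ζ)‖)) +
        A * ‖f (R z) - f (R z')‖ * ‖fderiv ℝ f (R z') (fderiv ℝ R z' ζ)‖ := by
        refine add_le_add (h2.trans ?_) h1
        have := (norm_nonneg _).trans c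
        gcongr
    _ = _ := by ring

/-! ### states -/

variable {w r P p1 p2 : ℂ → ℝ} {f Y n f' Y' R : ℂ → ℂ}

lemma Nr.mono {ε ε' : ℝ} (h : Nr ε w) (he : ε ≤ ε') : Nr ε' w := fun x => (h x).trans he

lemma Core.mono {h b Af b' Af' : ℝ} (H : Core w f Y r h b Af) (hh : 0 < h) (hb : b ≤ b')
    (hA : Af ≤ Af') : Core w f Y r h b' Af' :=
  ⟨H.hom, H.df, H.af.mono hA, H.dY, H.bY.mono hh le_rfl hb, H.eq⟩

lemma Core.scale {h b Af γ : ℝ} (H : Core w f Y r h b Af) (hh : 0 < h) (hγ : 1 ≤ γ) :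
    Core w f Y r (h / γ) (b / γ) Af := ⟨H.hom, H.df, H.af, H.dY, H.bY.scale hh hγ, H.eq⟩

lemma Core.jac_near {h b Af ε μ : ℝ} (H : Core w f Y r h b Af) (he : ε ≤ 1 / 50) (hw : Nr ε w)
    (hr : Nr ε r) {z : ℂ} (hμ : ‖fderiv ℝ Y z - 1‖ ≤ μ) (hm : μ ≤ 1 / 10) :
    |jac f z - 1| ≤ 3 * (ε + μ) := by
  have h1 : |jac Y z - 1| ≤ 2 * μ + μ ^ 2 := det_near _ hμ
  have h0 : 0 ≤ μ := (norm_nonneg _).trans hμ
  have h2 := abs_le.mp (hw (f z))
  have h3 := abs_le.mp (hr (Y z))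
  have h4 := H.eq z
  have h5 : |jac Y z - 1| ≤ 21 / 10 * μ := by nlinarith
  have h6 := abs_le.mp h5
  have hw0 : 0 < w (f z) := by linarith
  have e : jac f z - 1 = (r (Y z) * jac Y z - w (f z)) / w (f z) := by rw [← h4]; field_simp
  rw [e, abs_div, abs_of_pos hw0, div_le_iff₀ hw0, abs_le]
  constructor <;> nlinarith

lemma Core.jac_bd {h b Af ε : ℝ} (H : Core w f Y r h b Af) (he : ε ≤ 1 / 50) (hw : Nr ε w)
    (hr : Nr ε r) (z : ℂ) : 1 / 2 ≤ jac f z ∧ jac f z ≤ 2 := by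
  have := abs_le.mp (H.jac_near he hw hr (H.bY.b0 z) le_rfl)
  constructor <;> linarith

lemma Fr.mono {Ln Ln' : ℝ} (h : Fr n Ln) (hL : Ln ≤ Ln') : Fr n Ln' :=
  ⟨h.n0.trans hL, h.one, fun z z' => (h.lip z z').trans (by gcongr)⟩

lemma Run.refl (n f Y : ℂ → ℂ) : Run n f Y f Y id 0 0 0 0 0 0 0 0 0 :=
  ⟨fun _ => rfl, by simp, by simp, by simp, fun z => ⟨0, by simp⟩, by simp, by simp⟩

lemma Run.mono {d ηU ηV τ e1 e2 d' ηU' ηV' τ' e1' e2' : ℝ}
    (h : Run n f Y f' Y' R P p1 p2 d ηU ηV τ e1 e2) (h1 : d ≤ d') (h2 : ηU ≤ ηU') (h3 : ηV ≤ ηV')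
    (h4 : τ ≤ τ') (h5 : e1 ≤ e1') (h6 : e2 ≤ e2') :
    Run n f Y f' Y' R P p1 p2 d' ηU' ηV' τ' e1' e2' :=
  ⟨h.comp, fun z => (h.dR z).trans h1, fun z => (h.dY z).trans h1, fun z => (h.hU z).trans h2,
    fun z => (h.hV z).imp fun _ ha => ⟨ha.1.trans h4, ha.2.trans h3⟩,
    fun z => (h.h1 z).trans h5, fun z => (h.h2 z).trans h6⟩

lemma St.mono {h b Af Ln d μ φ o oν lo hi b' Af' Ln' d' μ' φ' o' oν' lo' hi' : ℝ}
    (H : St w f Y n r h b Af Ln d μ φ o oν lo hi) (hh : 0 < h) (h1 : b ≤ b') (h2 : Af ≤ Af')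
    (h3 : Ln ≤ Ln') (h4 : d' ≤ d) (h5 : μ ≤ μ') (h6 : φ ≤ φ') (h7 : o ≤ o') (h8 : oν ≤ oν')
    (h9 : lo' ≤ lo) (h10 : hi ≤ hi') : St w f Y n r h b' Af' Ln' d' μ' φ' o' oν' lo' hi' :=
  ⟨H.core.mono hh h1 h2, H.fr.mono h3, fun z => (H.mu z).trans h5, fun z => (H.phi z).trans h6,
    fun z z' hz => ⟨(H.osc z z' (hz.trans h4)).1.trans h7,
      (H.osc z z' (hz.trans h4)).2.trans (by gcongr)⟩,
    fun z => ⟨h9.trans (H.band z).1, (H.band z).2.trans h10⟩⟩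

lemma Flat.mono {d d' κ κ' : ℝ} (h : Flat n P d d' κ) (hκ : 0 ≤ d → 0 ≤ d' → κ ≤ κ') :
    Flat n P d d' κ' := fun z v h1 h2 =>
  (h z v h1 h2).trans (hκ ((norm_nonneg _).trans h1) ((abs_nonneg _).trans h2))

lemma Mv.mono {E E' : ℝ} (h : Mv f Y f' Y' E) (hE : E ≤ E') : Mv f Y f' Y' E' :=
  fun z z' => ⟨fun e => ((h z z').1 e).trans hE, fun e => ((h z z').2 e).trans hE⟩

lemma Mv.trans {f'' Y'' : ℂ → ℂ} {E E' : ℝ} (h : Mv f Y f' Y' E) (h' : Mv f' Y' f'' Y'' E')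
    (s1 : Function.Surjective f') (s2 : Function.Surjective Y') : Mv f Y f'' Y'' (E + E') :=
  fun z z' => ⟨fun e => by
    obtain ⟨x, hx⟩ := s2 (Y z)
    exact (norm_sub_le_norm_sub_add_norm_sub _ (f' x) _).trans
      (add_le_add ((h z x).1 hx.symm) ((h' x z').1 (hx.trans e))), fun e => by
    obtain ⟨x, hx⟩ := s1 (f z)
    exact (norm_sub_le_norm_sub_add_norm_sub _ (Y' x) _).trans
      (add_le_add ((h z x).2 hx.symm) ((h' x z').2 (hx.trans e)))⟩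

/-! ### the Gaussian measure -/

instance : IsProbabilityMeasure gam := by unfold gam; infer_instance
instance : ProbabilityTheory.IsGaussian gam := by unfold gam; infer_instance

lemma gam_mean : ∫ θ, θ ∂gam = 0 := ProbabilityTheory.integral_id_stdGaussian
lemma gam_int : Integrable (fun θ : ℂ => θ) gam := ProbabilityTheory.IsGaussian.integrable_id

lemma gam_pow (k : ℕ) : Integrable (fun θ : ℂ => (1 + ‖θ‖) ^ k) gam := by
  have h0 : MemLp (id : ℂ → ℂ) k gam := ProbabilityTheory.IsGaussian.memLp_id gam k (by simp)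
  have h1 : MemLp (fun θ : ℂ => ‖θ‖) k gam := h0.norm
  have h2 : MemLp (fun _ : ℂ => (1 : ℝ)) k gam := memLp_const 1
  have h : MemLp (fun θ : ℂ => 1 + ‖θ‖) k gam := h2.add h1
  refine (h.integrable_norm_pow' ).congr (Eventually.of_forall fun θ => ?_)
  simp only; rw [Real.norm_of_nonneg (by positivity)]

end
end Pool.Agent.MP_20bec2_an.Pl

end MrgPart1

-- ======== part 2: formerly Pool.Agent.MP_20bec2_an.Pl.La
section MrgPart2

/-! Plane linear algebra: perturbation estimates. -/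

set_option autoImplicit false
open MeasureTheory Set Complex

namespace Pool.Agent.MP_20bec2_an.Pl

namespace La

lemma am {a b A B : ℝ} (h : |a| ≤ A) (k : |b| ≤ B) : |a * b| ≤ A * B := by
  rw [abs_mul]; exact mul_le_mul h k (abs_nonneg _) ((abs_nonneg _).trans h)

lemma aa {a b A B : ℝ} (h : |a| ≤ A) (k : |b| ≤ B) : |a + b| ≤ A + B :=
  (abs_add_le _ _).trans (add_le_add h k)

lemma as {a b A B : ℝ} (h : |a| ≤ A) (k : |b| ≤ B) : |a - b| ≤ A + B :=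
  (abs_sub _ _).trans (add_le_add h k)

lemma ad {a b A B : ℝ} (h : |a| ≤ A) (hB : 0 < B) (k : B ≤ b) : |a / b| ≤ A / B := by
  rw [abs_div, abs_of_pos (hB.trans_le k)]
  exact div_le_div₀ ((abs_nonneg _).trans h) h hB k

lemma aw {x y : ℂ} {A B : ℝ} (h : ‖x‖ ≤ A) (k : ‖y‖ ≤ B) : |wd x y| ≤ A * B :=
  (abs_wd_le x y).trans (mul_le_mul h k (norm_nonneg _) ((norm_nonneg _).trans h))

lemma ai {x y : ℂ} {A B : ℝ} (h : ‖x‖ ≤ A) (k : ‖y‖ ≤ B) : |ip x y| ≤ A * B :=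
  (abs_ip_le x y).trans (mul_le_mul h k (norm_nonneg _) ((norm_nonneg _).trans h))

/-- from squares to the numbers -/
lemma of_sq {x y c E : ℝ} (hc : 0 < c) (h : c ≤ x + y) (k : |x ^ 2 - y ^ 2| ≤ E) :
    |x - y| ≤ E / c := by
  have : x - y = (x ^ 2 - y ^ 2) / (x + y) := by
    have : x + y ≠ 0 := by linarith
    field_simp; ring
  rw [this]; exact ad k hc h

lemma sq_add (x y : ℂ) : ‖x + y‖ ^ 2 = ‖x‖ ^ 2 + 2 * ip x y + ‖y‖ ^ 2 := by
  simp only [normsq, ip, add_re, add_im]; ring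

lemma sq_smul (a : ℝ) (x : ℂ) : ‖a • x‖ ^ 2 = a ^ 2 * ‖x‖ ^ 2 := by
  rw [norm_smul, mul_pow, Real.norm_eq_abs, sq_abs]

lemma norm_In {n : ℂ} (h : ‖n‖ = 1) : ‖I * n‖ = 1 := by simp [h]

lemma near_le {x m : ℂ} {μ : ℝ} (hm : ‖m‖ = 1) (h : ‖x - m‖ ≤ μ) : |‖x‖ - 1| ≤ μ :=
  hm ▸ (abs_norm_sub_norm_le x m).trans h

/-- the scalar product of an almost orthonormal pair -/
lemma ip_near {n y z : ℂ} {μ : ℝ} (hn : ‖n‖ = 1) (hy : ‖y - n‖ ≤ μ) (hz : ‖z - I * n‖ ≤ μ)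
    (hμ : μ ≤ 1) : |ip y z| ≤ 3 * μ := by
  have h0 : 0 ≤ μ := (norm_nonneg _).trans hy
  have e : ip y z = ip n (z - I * n) + ip (y - n) (I * n) + ip (y - n) (z - I * n) := by
    simp [ip]; ring
  rw [e]
  refine (aa (aa (ai hn.le hz) (ai hy (norm_In hn).le)) (ai hy hz)).trans ?_
  nlinarith

lemma wd_near {n y z : ℂ} {μ : ℝ} (hn : ‖n‖ = 1) (hy : ‖y - n‖ ≤ μ) (hz : ‖z - I * n‖ ≤ μ)
    (hμ : μ ≤ 1) : |wd y z - 1| ≤ 3 * μ := by
  have h0 : 0 ≤ μ := (norm_nonneg _).trans hy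
  have e : wd y z - 1 = wd n (z - I * n) + wd (y - n) (I * n) + wd (y - n) (z - I * n) := by
    rw [← wd_unit hn]; simp [wd]; ring
  rw [e]
  refine (aa (aa (aw hn.le hz) (aw hy (norm_In hn).le)) (aw hy hz)).trans ?_
  nlinarith

/-- the real estimate behind the slides -/
lemma v_real {Ψ x y z s t E φ X Y Z η : ℝ} (hΨ : |Ψ| ≤ φ) (hφ : φ ≤ 1) (hx : |x| ≤ X)
    (hy : y ^ 2 ≤ Y) (hz : |z| ≤ Z) (hs0 : 0 ≤ s) (hs : s ^ 2 = (1 + x) ^ 2 + y ^ 2)
    (ht : |t - s| ≤ η) (hE : |E| ≤ 5 * η) (hc : X + Y + η ≤ 1 / 10) :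
    |(Ψ * (1 + x) + z + E) / t ^ 2 - Ψ| ≤ 40 * ((X + Y) * φ + Z + η) ∧
      |t - (1 + y ^ 2 / 2)| ≤ 40 * (X + Y ^ 2 + η) := by
  have X0 : 0 ≤ X := (abs_nonneg _).trans hx
  have Y0 : 0 ≤ Y := (sq_nonneg _).trans hy
  have Z0 : 0 ≤ Z := (abs_nonneg _).trans hz
  have η0 : 0 ≤ η := (abs_nonneg _).trans ht
  have φ0 : 0 ≤ φ := (abs_nonneg _).trans hΨ
  obtain ⟨x1, x2⟩ := abs_le.1 hx
  obtain ⟨t1, t2⟩ := abs_le.1 ht
  have s1 : 4 / 5 ≤ s := by nlinarith [sq_nonneg y]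
  have s2 : s ≤ 3 / 2 := by nlinarith
  have hy' : |y ^ 2| ≤ Y := by rwa [abs_of_nonneg (sq_nonneg _)]
  have hx1 : |1 + x| ≤ 2 := abs_le.2 ⟨by linarith, by linarith⟩
  constructor
  · have t0 : 1 / 4 ≤ t ^ 2 := by nlinarith
    have e : (Ψ * (1 + x) + z + E) / t ^ 2 - Ψ =
        (z - Ψ * (x * (1 + x)) - Ψ * y ^ 2 + E - Ψ * ((t - s) * (t + s))) / t ^ 2 := by
      have : t ^ 2 ≠ 0 := by linarith
      rw [div_sub' this]; congr 1
      linear_combination (-Ψ) * hs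
    have hts : |t + s| ≤ 4 := abs_le.2 ⟨by linarith, by linarith⟩
    rw [e]
    refine (ad (as (aa (as (as hz (am hΨ (am hx hx1))) (am hΨ hy')) hE) (am hΨ (am ht hts)))
      (by norm_num) t0).trans ?_
    nlinarith [mul_nonneg X0 φ0, mul_nonneg Y0 φ0, mul_le_mul_of_nonneg_right hφ η0]
  · have e : s ^ 2 - (1 + y ^ 2 / 2) ^ 2 = x * (2 + x) - y ^ 2 * y ^ 2 * (1 / 4) := by
      rw [hs]; ring
    have hx2 : |2 + x| ≤ 3 := abs_le.2 ⟨by linarith, by linarith⟩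
    have h1 : |s - (1 + y ^ 2 / 2)| ≤ (X * 3 + Y * Y * 1) / 1 :=
      of_sq one_pos (by nlinarith [sq_nonneg y])
        (e ▸ as (am hx hx2) (am (am hy' hy') (by norm_num [abs_of_pos])))
    have e2 : t - (1 + y ^ 2 / 2) = (t - s) + (s - (1 + y ^ 2 / 2)) := by ring
    rw [e2]
    refine (aa ht h1).trans ?_
    nlinarith [sq_nonneg Y]

end La

open La

theorem laV : LaVStmt := by
  refine ⟨40, 1 / 10, by norm_num, by norm_num, ?_⟩
  intro V U V' U' a η lo φ Q hw hlo hV hU' hV' hΨ hφ ha hc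
  set ν := ‖V‖ with hν
  have ν1 : 1 ≤ ν := hlo.trans hV
  have ν0 : 0 < ν := by linarith
  have η0 : 0 ≤ η := (norm_nonneg _).trans hU'
  have Q0 : 0 ≤ Q := (abs_nonneg _).trans ha
  have φ0 : 0 ≤ φ := (abs_nonneg _).trans hΨ
  set Ψ := ip V U / ν ^ 2 with hΨd
  have hip : ip V U = Ψ * ν ^ 2 := by rw [hΨd]; field_simp
  have hU2 : ‖U‖ ^ 2 = 1 / ν ^ 2 + Ψ ^ 2 * ν ^ 2 := by
    have := wd_sq_add V U
    rw [hw, hip] at this
    field_simp
    linear_combination -this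
  have Ψ1 : Ψ ^ 2 ≤ 1 := by rw [sq_le_one_iff_abs_le_one]; exact hΨ.trans hφ
  have hU : ‖U‖ ≤ 2 * ν := by
    refine (abs_le_of_sq_le_sq' ?_ (by positivity)).2
    have : 1 / ν ^ 2 ≤ 1 := by rw [div_le_one (by positivity)]; nlinarith
    nlinarith [sq_nonneg ν]
  have l4 : lo ^ 4 ≤ ν ^ 4 := pow_le_pow_left₀ (by linarith) hV 4
  have l0 : 0 < lo ^ 4 := by positivity
  set W := V + a • U with hW
  set e := V' - V - a • U with he
  set f := U' - U with hf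
  have eV : V' = W + e := by rw [hW, he]; ring
  have eU : U' = U + f := by rw [hf]; ring
  have hs : (‖W‖ / ν) ^ 2 = (1 + a * Ψ) ^ 2 + (a / ν ^ 2) ^ 2 := by
    rw [div_pow, hW, sq_add, sq_smul, ip_smul_right, hip, hU2, ← hν]
    field_simp; ring
  have ht : |‖V'‖ / ν - ‖W‖ / ν| ≤ η := by
    rw [← sub_div]
    have : |‖V'‖ - ‖W‖| ≤ η := (abs_norm_sub_norm_le _ _).trans (by rwa [eV, add_sub_cancel_left])
    simpa using ad this one_pos ν1
  have hx : |a * Ψ| ≤ Q * φ := am ha hΨ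
  have hy : (a / ν ^ 2) ^ 2 ≤ Q ^ 2 / lo ^ 4 := by
    rw [div_pow, ← pow_mul]
    exact div_le_div₀ (by positivity) (sq_le_sq' (abs_le.1 ha).1 (abs_le.1 ha).2) l0 l4
  have hz : |a / ν ^ 4| ≤ Q / lo ^ 4 := ad ha l0 l4
  have Y0 : 0 ≤ Q ^ 2 / lo ^ 4 := by positivity
  have X0 : 0 ≤ Q * φ := by positivity
  have hWn : ‖W‖ ≤ 2 * ν := by
    rw [← div_le_iff₀ ν0]
    refine (abs_le_of_sq_le_sq' ?_ (by positivity)).2
    obtain ⟨x1, x2⟩ := abs_le.1 hx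
    nlinarith
  have hE : |(ip W f + ip e U + ip e f) / ν ^ 2| ≤ 5 * η := by
    refine (ad (aa (aa (ai hWn hU') (ai hV' hU)) (ai hV' hU')) (by positivity) le_rfl).trans ?_
    rw [div_le_iff₀ (by positivity)]
    have h1 : η * ν ≤ η * ν ^ 2 := mul_le_mul_of_nonneg_left (by nlinarith) η0
    have h2 : η * η ≤ η * ν ^ 2 := mul_le_mul_of_nonneg_left (by nlinarith) η0
    nlinarith
  obtain ⟨r1, r2⟩ := v_real hΨ hφ hx hy hz (by positivity) hs ht hE hc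
  constructor
  · convert r1 using 3
    have : ip V' U' = (Ψ * (1 + a * Ψ) + a / ν ^ 4) * ν ^ 2 + (ip W f + ip e U + ip e f) := by
      rw [eV, eU, ip_add_left, ip_add_right, ip_add_right]
      have : ip W U = (Ψ * (1 + a * Ψ) + a / ν ^ 4) * ν ^ 2 := by
        rw [hW, ip_add_left, ip_smul_left, ip_self, hip, hU2]; field_simp; ring
      rw [this]; ring
    rw [this, div_pow, div_div_eq_mul_div]
    congr 1
    field_simp
  · convert r2 using 4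
    · field_simp
    · field_simp

end Pool.Agent.MP_20bec2_an.Pl

end MrgPart2

-- marker of a merged file
example : 731051 + 890643 = 731051 + 890643 := rfl
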