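import Mathlib.Data.Int.Star
import Mathlib.Analysis.PSeries
import Mathlib.Analysis.Complex.ExponentialBounds
import Mathlib.RingTheory.PiTensorProduct
import Pool.Agent.MP_20bec2_an.Pl.La

-- ======== part 0: formerly Pool.Agent.MP_20bec2_an.Pl.Jadm
section MrgPart0

set_option autoImplicit false
open MeasureTheory Set Complex Filter Topology

namespace Pool.Agent.MP_20bec2_an.Pl
noncomputable section
namespace Jadm

section T3
variable {E : Type*} [NormedAddCommGroup E] [NormedSpace ℝ E]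

/-- bounded with three derivatives, the first at scale s, the others at scale h -/
structure T3 (f : ℂ → E) (M s h : ℝ) : Prop where
  b0 : ∀ p, ‖f p‖ ≤ M
  d3 : D3 f (M / s) (M / s / h) (M / s / h ^ 2)

lemma T3.n0 {f : ℂ → E} {M s h : ℝ} (H : T3 f M s h) : 0 ≤ M := (norm_nonneg _).trans (H.b0 0)

lemma T3.mono {f : ℂ → E} {M s s' h : ℝ} (H : T3 f M s h) (hh : 0 < h) (h0 : 0 < s')
    (hs : s' ≤ s) : T3 f M s' h := by
  have := H.n0
  exact ⟨H.b0, H.d3.mono (by gcongr) (by gcongr) (by gcongr)⟩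

lemma T3.smul {f : ℂ → ℝ} {g : ℂ → E} {M M' s h : ℝ} (hf : T3 f M s h) (hg : T3 g M' s h)
    (hh : 0 < h) (hs : h ≤ s) : T3 (fun p => f p • g p) (8 * M * M') s h := by
  have a1 := hf.n0
  have a2 := hg.n0
  have s0 : 0 < s := hh.trans_le hs
  have hxy : s⁻¹ ≤ h⁻¹ := inv_anti₀ hh hs
  have hP : 0 ≤ M * M' * s⁻¹ := by positivity
  have b1 := mul_le_mul_of_nonneg_left hxy hP
  have b2 := mul_le_mul_of_nonneg_left hxy (show 0 ≤ M * M' * s⁻¹ * h⁻¹ by positivity)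
  have b3 : 0 ≤ M * M' * s⁻¹ * h⁻¹ := by positivity
  refine ⟨fun p => ?_, (hf.d3.smul hf.b0 hg.d3 hg.b0).mono ?_ ?_ ?_⟩
  · rw [norm_smul]
    have := mul_le_mul (hf.b0 p) (hg.b0 p) (norm_nonneg _) a1
    nlinarith [mul_nonneg a1 a2]
  · simp only [div_eq_mul_inv]; nlinarith
  · simp only [div_eq_mul_inv]; nlinarith
  · simp only [div_eq_mul_inv, ← inv_pow]; nlinarith

lemma T3.const (c : E) {M s h : ℝ} (hc : ‖c‖ ≤ M) (hh : 0 < h) (hs : 0 < s) :
    T3 (fun _ : ℂ => c) M s h := by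
  have h0 : 0 ≤ M := (norm_nonneg _).trans hc
  have := D3.clm (0 : ℂ →L[ℝ] E) c
  simp only [zero_apply, zero_add, norm_zero] at this
  exact ⟨fun _ => hc, this.mono (by positivity) (by positivity) (by positivity)⟩

lemma T3.chi {Cc : ℝ} (hc : C4 chi Cc 1) (A : ℂ →L[ℝ] ℝ) (hA : ‖A‖ = 1) (c : ℝ) {l h : ℝ}
    (hh : 0 < h) (hl : h ≤ l) : T3 (fun p => Pl.chi ((A p - c) / l)) Cc l h := by
  have l0 : 0 < l := hh.trans_le hl
  have n0 := hc.n0
  have h1 := hc.affine l0 c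
  rw [one_mul] at h1
  have h2 := (h1.d3 l0).comp (D3.clm A 0)
  simp only [hA, add_zero] at h2
  refine ⟨fun p => by simpa using h1.bd 0 (by norm_num) (A p), h2.mono (by simp) ?_ ?_⟩
  · calc _ = Cc / l / l := by field_simp; ring
      _ ≤ _ := by gcongr
  · calc _ = Cc / l / l ^ 2 := by field_simp; ring
      _ ≤ _ := by gcongr

lemma T3.comp {a : ℂ → ℝ} {y : ℂ → ℂ} {Ca L h : ℝ} (hC : 1 ≤ Ca) (hh : 0 < h) (hL : h ≤ L)
    (hy : D3 y 2 (1 / h) (1 / h ^ 2)) (h0 : ∀ x, ‖a x‖ ≤ 1)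
    (ha : D3 a (Ca / L) (Ca / L ^ 2) (Ca / L ^ 3)) : T3 (fun p => a (y p)) (15 * Ca) L h := by
  have L0 : 0 < L := hh.trans_le hL
  have hxy : L⁻¹ ≤ h⁻¹ := inv_anti₀ hh hL
  have hP : 0 ≤ Ca * L⁻¹ := by positivity
  have b1 := mul_le_mul_of_nonneg_left hxy hP
  have b2 := mul_le_mul_of_nonneg_left hxy (show 0 ≤ Ca * L⁻¹ * h⁻¹ by positivity)
  have b3 := mul_le_mul_of_nonneg_left hxy (show 0 ≤ Ca * L⁻¹ * L⁻¹ by positivity)
  have b4 : 0 ≤ Ca * L⁻¹ * h⁻¹ := by positivity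
  refine ⟨fun p => (h0 _).trans (by linarith), (ha.comp hy).mono ?_ ?_ ?_⟩
  · simp only [div_eq_mul_inv]; nlinarith
  · simp only [div_eq_mul_inv, ← inv_pow]; nlinarith
  · simp only [div_eq_mul_inv, ← inv_pow]; nlinarith

/-- vanishing to first order -/
def Zr (f : ℂ → E) (p : ℂ) : Prop := f p = 0 ∧ fderiv ℝ f p = 0

lemma Zr.smul_left {f : ℂ → ℝ} {g : ℂ → E} {p : ℂ} (h : Zr f p) (hf : DifferentiableAt ℝ f p)
    (hg : DifferentiableAt ℝ g p) : Zr (fun p => f p • g p) p :=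
  ⟨by simp [h.1], by
    rw [show fderiv ℝ (fun p => f p • g p) p = _ from fderiv_smul hf hg, h.1, h.2]; ext; simp⟩

lemma Zr.smul_right {f : ℂ → ℝ} {g : ℂ → E} {p : ℂ} (h : Zr g p) (hf : DifferentiableAt ℝ f p)
    (hg : DifferentiableAt ℝ g p) : Zr (fun p => f p • g p) p :=
  ⟨by simp [h.1], by
    rw [show fderiv ℝ (fun p => f p • g p) p = _ from fderiv_smul hf hg, h.1, h.2]; ext; simp⟩

lemma hasFDerivAt_chi (A : ℂ →L[ℝ] ℝ) (c l : ℝ) (p : ℂ) :
    HasFDerivAt (fun p => chi ((A p - c) / l)) (deriv chi ((A p - c) / l) • (l⁻¹ • A)) p := by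
  have h1 : HasFDerivAt (fun p => (A p - c) / l) (l⁻¹ • A) p := by
    simpa [div_eq_inv_mul] using (A.hasFDerivAt.sub_const c).const_mul l⁻¹
  exact (contDiff_chi.differentiable (by norm_num) _).hasDerivAt.comp_hasFDerivAt p h1

lemma Zr.chi (A : ℂ →L[ℝ] ℝ) {c l : ℝ} (hl : 0 < l) {p : ℂ} (h : l ≤ |A p - c|) :
    Zr (fun p => Pl.chi ((A p - c) / l)) p := by
  have h1 : 1 ≤ |(A p - c) / l| := by rwa [abs_div, abs_of_pos hl, one_le_div hl]
  refine ⟨chi_zero h1, ?_⟩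
  rw [(hasFDerivAt_chi A c l p).fderiv,
    deriv_out (contDiff_chi.differentiable (by norm_num)) (fun _ => chi_zero) h1, zero_smul]

/-- sums with bounded overlap -/
lemma sum_T3 {ι : Type*} [Fintype ι] {ψ : ι → ℂ → E} {M s h : ℝ} (hM : 0 ≤ M) (hh : 0 < h)
    (hs : 0 < s) (hz : ∀ p, ∃ S : Finset ι, S.card ≤ 4 ∧ ∀ i ∉ S, Zr (ψ i) p)
    (hψ : ∀ i, T3 (ψ i) M s h) : T3 (fun p => ∑ i, ψ i p) (16 * M) s h ∧
      ∀ (B : ℝ) (v : ℂ), 0 ≤ B → (∀ i p, ‖fderiv ℝ (ψ i) p v‖ ≤ B) →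
        ∀ p, ‖fderiv ℝ (fun p => ∑ i, ψ i p) p v‖ ≤ 4 * B := by
  have hd : fderiv ℝ (fun p => ∑ i, ψ i p) = fun p => ∑ i, fderiv ℝ (ψ i) p :=
    funext fun p => fderiv_fun_sum fun i _ => (hψ i).d3.df p
  have o1 : Ovl (fun p => ∑ i, ψ i p) ψ 4 := fun p => by
    obtain ⟨S, h1, h2⟩ := hz p
    exact ⟨S, h1, fun i hi => (h2 i hi).1,
      (Finset.sum_subset (Finset.subset_univ S) fun i _ hi => (h2 i hi).1).symm⟩
  have o2 : Ovl (fun p => ∑ i, fderiv ℝ (ψ i) p) (fun i => fderiv ℝ (ψ i)) 4 := fun p => by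
    obtain ⟨S, h1, h2⟩ := hz p
    exact ⟨S, h1, fun i hi => (h2 i hi).2,
      (Finset.sum_subset (Finset.subset_univ S) fun i _ hi => (h2 i hi).2).symm⟩
  refine ⟨⟨fun p => (o1.sup hM (fun i => (hψ i).b0) p).trans (by push_cast; linarith),
    fun p => DifferentiableAt.fun_sum fun i _ => (hψ i).d3.df p, ?_⟩, fun B v hB hb p => ?_⟩
  · rw [hd]
    have a1 : 0 ≤ M / s := by positivity
    have a2 : 0 ≤ M / s / h := by positivity
    refine (o2.d2 a1 a2 (by positivity) fun i => (hψ i).d3.d2).mono ?_ ?_ (le_of_eq ?_)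
    · rw [mul_div_assoc]; push_cast; linarith
    · rw [mul_div_assoc, mul_div_assoc]; push_cast; linarith
    · push_cast; ring
  · have o3 : Ovl (fun p => ∑ i, fderiv ℝ (ψ i) p v) (fun i p => fderiv ℝ (ψ i) p v) 4 :=
      fun p => by
        obtain ⟨S, h1, h2⟩ := hz p
        have h3 : ∀ i ∉ S, fderiv ℝ (ψ i) p v = 0 := fun i hi => by rw [(h2 i hi).2]; rfl
        exact ⟨S, h1, h3, (Finset.sum_subset (Finset.subset_univ S) fun i _ hi => h3 i hi).symm⟩
    have := o3.sup hB hb p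
    rw [hd]
    simpa [sum_apply] using this

end T3

lemma card_near (N : ℕ) (x c : ℝ) {l : ℝ} (hl : 0 < l) :
    (Finset.univ.filter fun i : Fin N => |x - (c + i.val * l)| < l).card ≤ 2 := by
  have : (Finset.Icc ⌊(x - c) / l⌋ (⌊(x - c) / l⌋ + 1)).card = 2 := by
    rw [Int.card_Icc]; omega
  rw [← this]
  refine Finset.card_le_card_of_injOn (fun i => (i.val : ℤ)) (fun i hi => ?_) fun i _ j _ k => ?_
  · have h := abs_lt.mp (Finset.mem_filter.mp (Finset.mem_coe.mp hi)).2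
    have h1 : (x - c) / l < (i.val : ℝ) + 1 := by rw [div_lt_iff₀ hl]; linarith
    have h2 : (i.val : ℝ) - 1 < (x - c) / l := by rw [lt_div_iff₀ hl]; linarith
    have h3 := Int.floor_le ((x - c) / l)
    have h4 := Int.lt_floor_add_one ((x - c) / l)
    have h5 : (⌊(x - c) / l⌋ : ℝ) < ((i.val + 1 : ℤ) : ℝ) := by push_cast; linarith
    have h6 : ((i.val : ℤ) : ℝ) < ((⌊(x - c) / l⌋ + 2 : ℤ) : ℝ) := by push_cast; linarith
    have h7 := Int.cast_lt.mp h5
    have h8 := Int.cast_lt.mp h6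
    simp only [Finset.coe_Icc, mem_Icc]
    omega
  · exact Fin.ext (by simpa using k)

variable {N1 N2 : ℕ}

/-- the coefficient of one box variable -/
def ph (W L l H : ℝ) (a : ℂ → ℝ) (y : ℂ → ℂ) (k : Fin N1 × Fin N2) (p : ℂ) : ℝ :=
  chi ((imCLM p - (-L + k.2.val * H)) / H) •
    (chi ((reCLM p - (-L + k.1.val * l)) / l) • (a (y p) • W))

lemma wig_eq (W L l H : ℝ) (a : ℂ → ℝ) (y : ℂ → ℂ) (θ : Fin N1 × Fin N2 → ℂ) :
    wig W L l H a y θ = fun p => ∑ k, ph W L l H a y k p • θ k := by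
  funext p
  unfold wig ph
  rw [Finset.smul_sum]
  refine Finset.sum_congr rfl fun k _ => ?_
  rw [smul_smul]
  congr 1
  simp only [smul_eq_mul, reCLM_apply, imCLM_apply]; ring

/-- the facts on the coefficients -/
structure PhOK (φ : Fin N1 × Fin N2 → ℂ → ℝ) (C h W H l L : ℝ) : Prop where
  t3 : ∀ k, T3 (φ k) (C * W) H h
  sup : ∀ k p, |φ k p| ≤ W
  du : ∀ k p, |fderiv ℝ (φ k) p 1| ≤ C * W / l
  zr : ∀ (k : Fin N1 × Fin N2) (p : ℂ),
    l ≤ |p.re - (-L + k.1.val * l)| ∨ H ≤ |p.im - (-L + k.2.val * H)| → Zr (φ k) p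

lemma phOK {Cc Ca : ℝ} (hc : C4 chi Cc 1) (hc1 : 1 ≤ Cc) (hC : 1 ≤ Ca) {a : ℂ → ℝ} {y : ℂ → ℂ}
    {h W H l L : ℝ} (hh : 0 < h) (h1 : h ≤ W) (h2 : W ≤ H) (h3 : H ≤ l) (h4 : l ≤ L)
    (hy : D3 y 2 (1 / h) (1 / h ^ 2)) (h0 : ∀ x, ‖a x‖ ≤ 1)
    (ha : D3 a (Ca / L) (Ca / L ^ 2) (Ca / L ^ 3)) :
    PhOK (ph (N1 := N1) (N2 := N2) W L l H a y) (7680 * Cc ^ 2 * Ca) h W H l L := by
  have W0 : 0 < W := hh.trans_le h1
  have H0 : 0 < H := W0.trans_le h2
  have l0 : 0 < l := H0.trans_le h3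
  have hH : h ≤ H := h1.trans h2
  have hl : h ≤ l := hH.trans h3
  have tA : T3 (fun p => a (y p) • W) (8 * (15 * Ca) * W) l h :=
    ((T3.comp hC hh (hl.trans h4) hy h0 ha).mono hh l0 h4).smul
      (T3.const W (by rw [Real.norm_of_nonneg W0.le]) hh l0) hh hl
  have t1 := fun c => T3.chi hc reCLM reCLM_norm c hh hl
  have t2 := fun c => T3.chi hc imCLM imCLM_norm c hh hH
  have tB := fun c => (t1 c).smul tA hh hl
  refine ⟨fun k => ?_, fun k p => ?_, fun k p => ?_, fun k p hp => ?_⟩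
  · have := (t2 (-L + k.2.val * H)).smul ((tB (-L + k.1.val * l)).mono hh H0 h3) hh hH
    rw [show 7680 * Cc ^ 2 * Ca * W = 8 * Cc * (8 * Cc * (8 * (15 * Ca) * W)) by ring]
    exact this
  · unfold ph
    simp only [smul_eq_mul, abs_mul, abs_of_pos W0]
    calc _ ≤ 1 * (1 * (1 * W)) := by
          gcongr
          exacts [abs_chi_le _, abs_chi_le _, h0 _]
      _ = W := by ring
  · have e := fderiv_smul ((t2 (-L + k.2.val * H)).d3.df p) ((tB (-L + k.1.val * l)).d3.df p)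
    have e2 : fderiv ℝ (ph W L l H a y k) p = _ := e
    rw [e2, (hasFDerivAt_chi imCLM _ H p).fderiv]
    simp only [add_apply, smul_apply,
      ContinuousLinearMap.smulRight_apply, imCLM_apply, one_im, smul_zero, zero_smul, add_zero]
    rw [smul_eq_mul, abs_mul]
    have b1 := ((fderiv ℝ _ p).le_opNorm 1).trans
      (mul_le_mul_of_nonneg_right ((tB (-L + k.1.val * l)).d3.d2.b0 p) (norm_nonneg (1 : ℂ)))
    rw [norm_one, mul_one, Real.norm_eq_abs] at b1
    calc _ ≤ 1 * (8 * Cc * (8 * (15 * Ca) * W) / l) :=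
          mul_le_mul (abs_chi_le _) b1 (abs_nonneg _) zero_le_one
      _ ≤ (8 * Cc) * (8 * Cc * (8 * (15 * Ca) * W) / l) := by gcongr; linarith
      _ = _ := by ring
  · rcases hp with hp | hp
    · exact ((Zr.chi reCLM l0 hp).smul_left ((t1 _).d3.df p) (tA.d3.df p)).smul_right
        ((t2 _).d3.df p) ((tB _).d3.df p)
    · exact (Zr.chi imCLM H0 hp).smul_left ((t2 _).d3.df p) ((tB _).d3.df p)

lemma box (p : ℂ) {H l : ℝ} (L : ℝ) (H0 : 0 < H) (l0 : 0 < l) :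
    ∃ S : Finset (Fin N1 × Fin N2), S.card ≤ 4 ∧ ∀ k ∉ S,
      l ≤ |p.re - (-L + k.1.val * l)| ∨ H ≤ |p.im - (-L + k.2.val * H)| := by
  refine ⟨(Finset.univ.filter fun i : Fin N1 => |p.re - (-L + i.val * l)| < l) ×ˢ
    (Finset.univ.filter fun i : Fin N2 => |p.im - (-L + i.val * H)| < H), ?_, fun k hk => ?_⟩
  · rw [Finset.card_product]
    exact Nat.mul_le_mul (card_near N1 _ _ l0) (card_near N2 _ _ H0)
  · by_contra hc
    push Not at hc
    exact hk (by simpa using hc)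

/-- the wiggle with general coefficients -/
def Wg (φ : Fin N1 × Fin N2 → ℂ → ℝ) (θ : Fin N1 × Fin N2 → ℂ) (p : ℂ) : ℂ := ∑ k, φ k p • θ k

variable {φ : Fin N1 × Fin N2 → ℂ → ℝ} {C h W H l L : ℝ} {g : ℂ → ℝ} {y : ℂ → ℂ}

lemma fderiv_term (P : PhOK φ C h W H l L) (k : Fin N1 × Fin N2) (c p v : ℂ) :
    fderiv ℝ (fun p => φ k p • c) p v = fderiv ℝ (φ k) p v • c := by
  rw [fderiv_smul_const ((P.t3 k).d3.df p)]; rfl

lemma fderiv_Wg (P : PhOK φ C h W H l L) (θ : Fin N1 × Fin N2 → ℂ) (p v : ℂ) :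
    fderiv ℝ (Wg φ θ) p v = ∑ k, fderiv ℝ (φ k) p v • θ k := by
  have : fderiv ℝ (Wg φ θ) p = ∑ k, fderiv ℝ (fun p => φ k p • θ k) p :=
    fderiv_fun_sum fun k _ => ((P.t3 k).d3.df p).smul_const _
  rw [this, sum_apply]
  exact Finset.sum_congr rfl fun k _ => fderiv_term P k _ p v

lemma wg_bd (P : PhOK φ C h W H l L) (hC : 0 ≤ C) (hh : 0 < h) (h1 : h ≤ W) (h2 : W ≤ H)
    (h3 : H ≤ l) (θ : Fin N1 × Fin N2 → ℂ) : T3 (Wg φ θ) (128 * C * ‖θ‖ * W) H h ∧
      ∀ p, ‖fderiv ℝ (Wg φ θ) p 1‖ ≤ 128 * C * ‖θ‖ * W / l := by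
  have W0 : 0 < W := hh.trans_le h1
  have H0 : 0 < H := W0.trans_le h2
  have l0 : 0 < l := H0.trans_le h3
  obtain ⟨a1, a2⟩ := sum_T3 (ψ := fun k p => φ k p • θ k) (M := 8 * (C * W) * ‖θ‖)
    (by positivity) hh H0 (fun p => by
      obtain ⟨S, b1, b2⟩ := box (N1 := N1) (N2 := N2) p L H0 l0
      exact ⟨S, b1, fun k hk => (P.zr k p (b2 k hk)).smul_left ((P.t3 k).d3.df p)
        (differentiableAt_const _)⟩)
    fun k => (P.t3 k).smul (T3.const (θ k) (norm_le_pi_norm θ k) hh H0) hh (h1.trans h2)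
  refine ⟨?_, fun p => (a2 (C * W / l * ‖θ‖) 1 (by positivity) (fun k p => ?_) p).trans ?_⟩
  · rw [show 128 * C * ‖θ‖ * W = 16 * (8 * (C * W) * ‖θ‖) by ring]; exact a1
  · rw [fderiv_term P, norm_smul]
    exact mul_le_mul (P.du k p) (norm_le_pi_norm θ k) (norm_nonneg _) (by positivity)
  · have : 0 ≤ C * W / l * ‖θ‖ := by positivity
    calc _ ≤ 128 * (C * W / l * ‖θ‖) := by linarith
      _ = _ := by ring

lemma Y_d3 (P : PhOK φ C h W H l L) (hC : 0 ≤ C) (hh : 0 < h) (h1 : h ≤ W) (h2 : W ≤ H)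
    (h3 : H ≤ l) (hy : D3 y 2 (1 / h) (1 / h ^ 2)) (θ : Fin N1 × Fin N2 → ℂ) {K : ℝ}
    (hK : 2 + 128 * C * ‖θ‖ ≤ K) : D3 (fun p => y p + Wg φ θ p) K (K / h) (K / h ^ 2) := by
  have H0 : 0 < H := (hh.trans_le h1).trans_le h2
  have a1 : 128 * C * ‖θ‖ * W / H ≤ 128 * C * ‖θ‖ := by
    rw [div_le_iff₀ H0]; gcongr
  refine (hy.add (wg_bd P hC hh h1 h2 h3 θ).1.d3).mono (by linarith) ?_ ?_
  · rw [← add_div]; gcongr; linarith
  · rw [← add_div]; gcongr; linarith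

lemma pb_d2 {Y : ℂ → ℂ} {K : ℝ} (hh : 0 < h) (hg : Dh g 2 1 h) (hY : D3 Y K (K / h) (K / h ^ 2))
    (hK : 1 ≤ K) : Dh (pb g Y) (14 * K ^ 4) (14 * K ^ 4) h := by
  have a1 := (D2.comp hg hY.l2).mul ((hY.d2.apply_const 1).wd (hY.d2.apply_const I))
  simp only [norm_one, norm_I, mul_one] at a1
  have k2 : K ^ 2 ≤ K ^ 4 := pow_le_pow_right₀ hK (by norm_num)
  have k3 : K ^ 3 ≤ K ^ 4 := pow_le_pow_right₀ hK (by norm_num)
  have k4 : 0 ≤ K ^ 4 := by positivity
  refine D2.mono a1 (by nlinarith) ?_ ?_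
  · calc _ = (K ^ 3 + 4 * K ^ 2) / h := by field_simp; ring
      _ ≤ _ := by gcongr; linarith
  · calc _ = (K ^ 4 + 5 * K ^ 3 + 8 * K ^ 2) / h ^ 2 := by field_simp; ring
      _ ≤ _ := by gcongr; linarith

lemma pb_eq (P : PhOK φ C h W H l L) (hy : Differentiable ℝ y) (θ : Fin N1 × Fin N2 → ℂ) (p : ℂ) :
    pb g (fun p => y p + Wg φ θ p) p = g (y p + ∑ k, φ k p • θ k) *
      wd (fderiv ℝ y p 1 + ∑ k, fderiv ℝ (φ k) p 1 • θ k)
        (fderiv ℝ y p I + ∑ k, fderiv ℝ (φ k) p I • θ k) := by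
  have hd : DifferentiableAt ℝ (Wg φ θ) p :=
    DifferentiableAt.fun_sum fun k _ => ((P.t3 k).d3.df p).smul_const _
  have : fderiv ℝ (fun p => y p + Wg φ θ p) p = fderiv ℝ y p + fderiv ℝ (Wg φ θ) p :=
    fderiv_add (hy p) hd
  unfold pb jac
  rw [this, add_apply, add_apply, fderiv_Wg P, fderiv_Wg P]; rfl

lemma cont_mk {X : Type*} [TopologicalSpace X] {u w : X → ℝ} (hu : Continuous u)
    (hw : Continuous w) : Continuous fun x => (⟨u x, w x⟩ : ℂ) := by
  have : (fun x => (⟨u x, w x⟩ : ℂ)) = fun x => (u x : ℂ) + w x * I := by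
    funext x; apply Complex.ext <;> simp
  rw [this]; fun_prop

lemma pb_cont (P : PhOK φ C h W H l L) (hg : Continuous g) {B1 B2 B3 : ℝ} (hy : D3 y B1 B2 B3) :
    Continuous fun x : (Fin N1 × Fin N2 → ℂ) × ℂ => pb g (fun p => y p + Wg φ x.1 p) x.2 := by
  simp only [pb_eq P hy.df]
  have c1 := hy.df.continuous
  have c2 := hy.d2.toL2.continuous
  have c3 := fun k => (P.t3 k).d3.df.continuous
  have c4 := fun k => (P.t3 k).d3.d2.toL2.continuous
  unfold wd
  fun_prop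

lemma split_int {F G : ℂ → ℝ} (hF : Continuous F) (hG : Continuous G) (u0 u w0 w1 : ℝ) :
    ∫ a in u0..u, ∫ b in w0..w1, (F ⟨a, b⟩ + G ⟨a, b⟩) =
      (∫ a in u0..u, ∫ b in w0..w1, F ⟨a, b⟩) + ∫ a in u0..u, ∫ b in w0..w1, G ⟨a, b⟩ := by
  have c1 : ∀ {F : ℂ → ℝ}, Continuous F → Continuous fun a : ℝ => ∫ b in w0..w1, F ⟨a, b⟩ :=
    fun {F} hF => intervalIntegral.continuous_parametric_intervalIntegral_of_continuous'
      (f := fun a b : ℝ => F ⟨a, b⟩) (hF.comp (cont_mk continuous_fst continuous_snd)) _ _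
  have c2 : ∀ {F : ℂ → ℝ}, Continuous F → ∀ a : ℝ,
      IntervalIntegrable (fun b : ℝ => F ⟨a, b⟩) volume w0 w1 :=
    fun hF a => (hF.comp (cont_mk continuous_const continuous_id)).intervalIntegrable _ _
  rw [← intervalIntegral.integral_add ((c1 hF).intervalIntegrable _ _)
    ((c1 hG).intervalIntegrable _ _)]
  exact intervalIntegral.integral_congr fun a _ => intervalIntegral.integral_add (c2 hF a) (c2 hG a)

/-- the flux for a change of one variable in a fixed direction -/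
lemma flux1 (hF : FluxStmt) (P : PhOK φ C h W H l L) (hC : 0 ≤ C) (hh : 0 < h) (h1 : h ≤ W)
    (h2 : W ≤ H) (h3 : H ≤ l) (hg : Dh g 2 1 h) (hy : D3 y 2 (1 / h) (1 / h ^ 2))
    (θ θ' : Fin N1 × Fin N2 → ℂ) (k : Fin N1 × Fin N2) (hk : ∀ k', k' ≠ k → θ k' = θ' k')
    {c : ℝ} {m : ℂ} (hm : ‖m‖ = 1) (hc : θ k = θ' k + c • m) {K : ℝ}
    (hK : 2 + 128 * C * ‖θ'‖ ≤ K) :
    (∀ u, |∫ a in (-L + k.1.val * l - l)..u, ∫ b in (-L + k.2.val * H - H)..(-L + k.2.val * H + H),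
      (pb g (fun p => y p + Wg φ θ p) ⟨a, b⟩ - pb g (fun p => y p + Wg φ θ' p) ⟨a, b⟩)| ≤
        4 * |c| * K * W * H) ∧
    ∫ a in (-L + k.1.val * l - l)..(-L + k.1.val * l + l),
      ∫ b in (-L + k.2.val * H - H)..(-L + k.2.val * H + H),
      (pb g (fun p => y p + Wg φ θ p) ⟨a, b⟩ - pb g (fun p => y p + Wg φ θ' p) ⟨a, b⟩) = 0 := by
  have W0 : 0 < W := hh.trans_le h1
  have H0 : 0 < H := W0.trans_le h2
  have l0 : 0 < l := H0.trans_le h3
  have hY := Y_d3 P hC hh h1 h2 h3 hy θ' hK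
  have e : (fun p => y p + Wg φ θ p) = fun p => (y p + Wg φ θ' p) + (φ k p * c) • m := by
    funext p
    unfold Wg
    rw [← Finset.add_sum_erase _ _ (Finset.mem_univ k),
      ← Finset.add_sum_erase _ (fun k => φ k p • θ' k) (Finset.mem_univ k), hc,
      Finset.sum_congr rfl fun k' hk' => by rw [hk k' (Finset.ne_of_mem_erase hk')]]
    rw [smul_add, smul_smul]; abel
  have key := hF g (fun p => y p + Wg φ θ' p) (fun p => φ k p * c) m (-L + k.1.val * l - l)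
    (-L + k.2.val * H - H) (-L + k.2.val * H + H) hg.toL2.contDiff hY.contDiff
    ((P.t3 k).d3.l2.contDiff.mul contDiff_const) hm (fun p hp => by
      rw [(P.zr k p ?_).1, zero_mul]
      rcases hp with hp | hp | hp
      · left; rw [hp, sub_sub_cancel_left, abs_neg, abs_of_pos l0]
      · right; rw [hp, sub_sub_cancel_left, abs_neg, abs_of_pos H0]
      · right; rw [hp, add_sub_cancel_left, abs_of_pos H0])
  rw [e]
  refine ⟨fun u => ?_, ?_⟩
  · rw [key u]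
    have K0 : 0 ≤ K := hY.d2.n0
    rw [← Real.norm_eq_abs]
    refine (intervalIntegral.norm_integral_le_of_norm_le_const (C := 2 * (W * |c|) * K)
      fun b _ => ?_).trans (le_of_eq ?_)
    · rw [norm_mul]
      refine mul_le_mul ((intervalIntegral.norm_integral_le_of_norm_le_const (C := 2)
        fun r _ => hg.b0 _).trans ?_) ((abs_wd_le _ _).trans ?_) (norm_nonneg _) (by positivity)
      · rw [sub_zero, abs_mul]
        gcongr
        exact P.sup k _
      · rw [hm, one_mul]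
        simpa using (hY.d2.apply_const I).b0 ⟨u, b⟩
    · rw [show -L + k.2.val * H + H - (-L + k.2.val * H - H) = 2 * H by ring,
        abs_of_pos (show 0 < 2 * H by positivity)]
      ring
  · rw [key]
    refine intervalIntegral.integral_zero_ae (Eventually.of_forall fun b _ => ?_)
    have : φ k ⟨-L + k.1.val * l + l, b⟩ = 0 :=
      (P.zr k _ (Or.inl (by simp [abs_of_pos l0]))).1
    simp [this]

lemma adm (hF : FluxStmt) (P : PhOK φ C h W H l L) (hC : 1 ≤ C) (hh : 0 < h) (h1 : h ≤ W)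
    (h2 : W ≤ H) (h3 : H ≤ l) (hg : Dh g 2 1 h) (hy : D3 y 2 (1 / h) (1 / h ^ 2)) :
    Adm (fun (θ : Fin N1 × Fin N2 → ℂ) u w => pb g (fun p => y p + Wg φ θ p) ⟨u, w⟩)
      (-L) (-L) l H h W (14 * (128 * C) ^ 4) := by
  have C0 : 0 ≤ C := zero_le_one.trans hC
  have W0 : 0 < W := hh.trans_le h1
  have H0 : 0 < H := W0.trans_le h2
  have hc := pb_cont P hg.toL2.continuous hy
  refine ⟨fun θ θ' u w hk => ?_, fun θ w => ?_, ?_, fun θ θ' k hk => ?_⟩
  · have e : ∀ k (c : ℝ), (l ≤ |u - (-L + k.1.val * l)| ∨ H ≤ |w - (-L + k.2.val * H)| → c = 0) →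
        c • θ k = c • θ' k := fun k c hz => by
      by_cases a : l ≤ |u - (-L + k.1.val * l)| ∨ H ≤ |w - (-L + k.2.val * H)|
      · rw [hz a, zero_smul, zero_smul]
      · push Not at a
        rw [hk k a.1 a.2]
    have e1 : ∑ k, φ k ⟨u, w⟩ • θ k = ∑ k, φ k ⟨u, w⟩ • θ' k :=
      Finset.sum_congr rfl fun k _ => e k _ fun a => (P.zr k ⟨u, w⟩ a).1
    have e2 : ∀ v, ∑ k, fderiv ℝ (φ k) ⟨u, w⟩ v • θ k = ∑ k, fderiv ℝ (φ k) ⟨u, w⟩ v • θ' k :=
      fun v => Finset.sum_congr rfl fun k _ => e k _ fun a => by rw [(P.zr k ⟨u, w⟩ a).2]; rfl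
    simp only [pb_eq P hy.df, e1, e2]
  · have n0 := norm_nonneg θ
    have := pb_d2 hh hg (Y_d3 P C0 hh h1 h2 h3 hy θ (K := 128 * C * (1 + ‖θ‖)) (by nlinarith))
      (by nlinarith)
    rw [mul_pow, ← mul_assoc] at this
    exact D2.lineRe this w
  · exact (hc.comp (continuous_fst.prodMk (cont_mk (continuous_fst.comp continuous_snd)
      (continuous_snd.comp continuous_snd)))).measurable
  · classical
    have n0 := norm_nonneg θ
    have n1 := norm_nonneg θ'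
    set θ1 := Function.update θ' k (θ' k + (θ k - θ' k).re • (1 : ℂ)) with hθ1
    have hv : ‖θ k - θ' k‖ ≤ ‖θ‖ + ‖θ'‖ :=
      (norm_sub_le _ _).trans (add_le_add (norm_le_pi_norm θ k) (norm_le_pi_norm θ' k))
    have hre := (abs_re_le_norm _).trans hv
    have him := (abs_im_le_norm _).trans hv
    have n2 : ‖θ1‖ ≤ ‖θ‖ + 2 * ‖θ'‖ := (pi_norm_le_iff_of_nonneg (by positivity)).mpr fun k' => by
      by_cases a : k' = k
      · rw [a, hθ1, Function.update_self]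
        refine (norm_add_le _ _).trans ?_
        rw [norm_smul, norm_one, mul_one, Real.norm_eq_abs]
        linarith [norm_le_pi_norm θ' k]
      · rw [hθ1, Function.update_of_ne a]; linarith [norm_le_pi_norm θ' k']
    obtain ⟨a1, a2⟩ := flux1 hF P C0 hh h1 h2 h3 hg hy θ1 θ' k
      (fun k' a => Function.update_of_ne a _ _) norm_one (Function.update_self ..)
      (K := 256 * C * (1 + ‖θ‖ + ‖θ'‖)) (by nlinarith)
    obtain ⟨b1, b2⟩ := flux1 hF P C0 hh h1 h2 h3 hg hy θ θ1 k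
      (fun k' a => by rw [hθ1, Function.update_of_ne a, hk k' a]) (c := (θ k - θ' k).im) norm_I
      (by rw [hθ1, Function.update_self]; apply Complex.ext <;> simp)
      (K := 256 * C * (1 + ‖θ‖ + ‖θ'‖)) (by nlinarith)
    have cc : ∀ θ, Continuous (pb g fun p => y p + Wg φ θ p) := fun θ =>
      hc.comp (continuous_const.prodMk continuous_id)
    have sp := fun u => split_int ((cc θ).sub (cc θ1)) ((cc θ1).sub (cc θ'))
      (-L + k.1.val * l - l) u (-L + k.2.val * H - H) (-L + k.2.val * H + H)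
    simp only [Pi.sub_apply, sub_add_sub_cancel] at sp
    refine ⟨fun u => ?_, by rw [sp, a2, b2, add_zero]⟩
    rw [sp]
    refine (abs_add_le _ _).trans ((add_le_add (b1 u) (a1 u)).trans ?_)
    set S := 1 + ‖θ‖ + ‖θ'‖ with hS
    have S1 : 1 ≤ S := by linarith
    have S2 : S ^ 2 ≤ S ^ 4 := pow_le_pow_right₀ S1 (by norm_num)
    have C4 : C ≤ C ^ 4 := le_self_pow₀ hC (by norm_num)
    calc _ ≤ 4 * S * (256 * C * S) * W * H + 4 * S * (256 * C * S) * W * H := by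
          gcongr <;> linarith
      _ = 2048 * C * W * H * S ^ 2 := by ring
      _ ≤ 2048 * C ^ 4 * W * H * S ^ 4 := by gcongr
      _ ≤ (14 * 128 ^ 4) * C ^ 4 * W * H * S ^ 4 := by gcongr; norm_num
      _ = _ := by ring

end Jadm

open Jadm in
theorem jadm_of (hF : FluxStmt) : JadmStmt := by
  intro Ca hCa
  obtain ⟨Cc, hc1, hc⟩ := exists_chi
  have hC : 1 ≤ 7680 * Cc ^ 2 * Ca := by nlinarith [mul_le_mul hc1 hc1 zero_le_one (by linarith)]
  set C := 7680 * Cc ^ 2 * Ca with hCdef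
  have hM : 128 * C ≤ 14 * (128 * C) ^ 4 := by
    have : 128 * C ≤ (128 * C) ^ 4 := le_self_pow₀ (by linarith) (by norm_num)
    linarith
  refine ⟨14 * (128 * C) ^ 4, by linarith, ?_⟩
  intro N1 N2 g a y h W H l L hh h1 h2 h3 h4 hg hy ha2 ha3
  have P : PhOK (ph (N1 := N1) (N2 := N2) W L l H a y) C h W H l L :=
    phOK hc hc1 hCa hh h1 h2 h3 h4 hy ha2.b0 ha3
  have W0 : 0 < W := hh.trans_le h1
  have H0 : 0 < H := W0.trans_le h2
  have l0 : 0 < l := H0.trans_le h3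
  have e : ∀ θ, wig W L l H a y θ = Wg (ph (N1 := N1) (N2 := N2) W L l H a y) θ :=
    fun θ => wig_eq W L l H a y θ
  simp only [e]
  refine ⟨fun θ => ?_, adm hF P hC hh h1 h2 h3 hg hy⟩
  obtain ⟨a1, a2⟩ := wg_bd P (by linarith) hh h1 h2 h3 θ
  have n0 := norm_nonneg θ
  exact ⟨fun p => (a1.b0 p).trans (by gcongr), a1.d3.mono (by gcongr) (by gcongr) (by gcongr),
    fun p => (a2 p).trans (by gcongr)⟩

end
end Pool.Agent.MP_20bec2_an.Pl

end MrgPart0

-- ======== part 1: formerly Pool.Agent.MP_20bec2_an.Pl.Det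
section MrgPart1

set_option autoImplicit false
open MeasureTheory Set Complex Filter Topology

namespace Pool.Agent.MP_20bec2_an.Pl
noncomputable section

namespace Det

lemma int_bound {f : ℝ → ℝ} {L K : ℝ} (hL : 0 < L) (hc : Continuous f)
    (hz : ∀ t, L ≤ |t| → f t = 0) (hb : ∀ t, |f t| ≤ K) (w : ℝ) :
    |∫ t in (-L)..w, f t| ≤ 2 * L * K := by
  have hK : 0 ≤ K := (abs_nonneg _).trans (hb 0)
  have mid : ∀ w, -L ≤ w → w ≤ L → |∫ t in (-L)..w, f t| ≤ 2 * L * K := fun w h1 h2 => by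
    have := intervalIntegral.norm_integral_le_of_norm_le_const (a := -L) (b := w) (f := f) (C := K)
      fun t _ => hb t
    rw [Real.norm_eq_abs, abs_of_nonneg (by linarith : 0 ≤ w - -L)] at this
    nlinarith
  have zero : ∀ a b : ℝ, (∀ t ∈ uIcc a b, L ≤ |t|) → ∫ t in a..b, f t = 0 := fun a b h => by
    rw [intervalIntegral.integral_congr (g := fun _ => (0 : ℝ)) fun t ht => hz t (h t ht)]
    simp
  rcases le_total w (-L) with h1 | h1
  · rw [zero _ _ fun t ht => ?_, abs_zero]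
    · positivity
    · rw [uIcc_of_ge h1] at ht
      linarith [neg_le_abs t, ht.2]
  rcases le_total w L with h2 | h2
  · exact mid w h1 h2
  · rw [← intervalIntegral.integral_add_adjacent_intervals (b := L) (hc.intervalIntegrable _ _)
      (hc.intervalIntegrable _ _), zero L w fun t ht => ?_, add_zero]
    · exact mid L (by linarith) le_rfl
    · rw [uIcc_of_le h2] at ht
      exact ht.1.trans (le_abs_self t)

lemma lip_mul {F A F' A' F0 F1 A0 A1 d : ℝ} (h0 : |F'| ≤ F0) (h1 : |F - F'| ≤ F1 * d)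
    (a0 : |A| ≤ A0) (a1 : |A - A'| ≤ A1 * d) : |F * A - F' * A'| ≤ (F1 * A0 + F0 * A1) * d := by
  have e : F * A - F' * A' = (F - F') * A + F' * (A - A') := by ring
  rw [e]
  refine (abs_add_le _ _).trans ?_
  rw [abs_mul, abs_mul]
  have t1 := mul_le_mul h1 a0 (abs_nonneg _) ((abs_nonneg _).trans h1)
  have t2 := mul_le_mul h0 a1 (abs_nonneg _) ((abs_nonneg _).trans h0)
  linarith

lemma lip_mul_out {F A : ℂ → ℝ} {L F0 F1 A0 A1 : ℝ} (hz : ∀ p, Out L p → F p = 0)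
    (n0 : 0 ≤ F1 * A0 + F0 * A1) (h0 : ∀ p, |F p| ≤ F0)
    (h1 : ∀ p p', |F p - F p'| ≤ F1 * ‖p - p'‖) (a0 : ∀ p, ¬ Out L p → |A p| ≤ A0)
    (a1 : ∀ p p', |A p - A p'| ≤ A1 * ‖p - p'‖) (p p' : ℂ) :
    |F p * A p - F p' * A p'| ≤ (F1 * A0 + F0 * A1) * ‖p - p'‖ := by
  by_cases hp : Out L p
  · by_cases hp' : Out L p'
    · rw [hz p hp, hz p' hp']
      simpa using mul_nonneg n0 (norm_nonneg _)
    · rw [abs_sub_comm, norm_sub_rev]
      exact lip_mul (h0 p) (h1 p' p) (a0 p' hp') (a1 p' p)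
  · exact lip_mul (h0 p') (h1 p p') (a0 p hp) (a1 p p')

lemma sup_mul_out {F A : ℂ → ℝ} {L F0 A0 : ℝ} (hz : ∀ p, Out L p → F p = 0) (n0 : 0 ≤ A0)
    (h0 : ∀ p, |F p| ≤ F0) (a0 : ∀ p, ¬ Out L p → |A p| ≤ A0) (p : ℂ) :
    |F p * A p| ≤ F0 * A0 := by
  have n1 : 0 ≤ F0 := (abs_nonneg _).trans (h0 p)
  by_cases hp : Out L p
  · rw [hz p hp]
    simpa using mul_nonneg n1 n0
  · rw [abs_mul]
    exact mul_le_mul (h0 p) (a0 p hp) (abs_nonneg _) n1

lemma d3_re {e : ℝ → ℝ} {B1 B2 B3 : ℝ} (h : D3 e B1 B2 B3) :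
    D3 (fun p : ℂ => e p.re) B1 B2 B3 := by
  have := D3.clm Complex.reCLM 0
  rw [Complex.reCLM_norm] at this
  simpa using h.comp this

lemma d3_im {e : ℝ → ℝ} {B1 B2 B3 : ℝ} (h : D3 e B1 B2 B3) :
    D3 (fun p : ℂ => e p.im) B1 B2 B3 := by
  have := D3.clm Complex.imCLM 0
  rw [Complex.imCLM_norm] at this
  simpa using h.comp this

lemma der0 {e : ℝ → ℝ} {M l : ℝ} (h : C4 e M l) (u : ℝ) : HasDerivAt e (deriv e u) u :=
  (h.cd.differentiable (by norm_num) u).hasDerivAt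

lemma der1 {e : ℝ → ℝ} {M l : ℝ} (h : C4 e M l) (u : ℝ) :
    HasDerivAt (deriv e) (iteratedDeriv 2 e u) u := by
  simpa using h.hasDerivAt (j := 1) (by norm_num) u

lemma d3_deriv {e : ℝ → ℝ} {M l : ℝ} (h : C4 e M l) (hl : 0 < l) :
    D3 (deriv e) (M / l ^ 2) (M / l ^ 3) (M / l ^ 4) := by
  refine ⟨fun u => (der1 h u).differentiableAt, ?_⟩
  have : fderiv ℝ (deriv e) = fun u => iteratedDeriv 2 e u • (1 : ℝ →L[ℝ] ℝ) := by
    funext u; rw [(der1 h u).hasFDerivAt.fderiv]; ext; simp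
  rw [this]; simpa using (h.d2 hl (j := 2) le_rfl).smul_const (1 : ℝ →L[ℝ] ℝ)

/-- the amplitude of the wiggle -/
def amp (e1 e2 : ℝ → ℝ) (p : ℂ) : ℝ := e1 p.re * deriv e2 p.im

lemma amp_der {e1 e2 : ℝ → ℝ} {M1 l1 M2 l2 : ℝ} (h1 : C4 e1 M1 l1) (h2 : C4 e2 M2 l2) (p : ℂ) :
    fderiv ℝ (amp e1 e2) p 1 = deriv e1 p.re * deriv e2 p.im ∧
      fderiv ℝ (amp e1 e2) p I = e1 p.re * iteratedDeriv 2 e2 p.im := by
  have a := (der0 h1 p.re).comp_hasFDerivAt p (Complex.reCLM.hasFDerivAt (x := p))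
  have b := (der1 h2 p.im).comp_hasFDerivAt p (Complex.imCLM.hasFDerivAt (x := p))
  have c : HasFDerivAt (amp e1 e2) _ p := a.mul b
  rw [c.fderiv]
  constructor
  · simp [mul_comm]
  · simp

lemma amp_d3 {e1 e2 : ℝ → ℝ} {M1 l1 M2 l2 h : ℝ} (h1 : C4 e1 M1 l1) (h2 : C4 e2 M2 l2)
    (hh : 0 < h) (a1 : h ≤ l1) (a2 : h ≤ l2) : D3 (amp e1 e2) (2 * (M1 * M2 / l2) / h)
      (4 * (M1 * M2 / l2) / h ^ 2) (8 * (M1 * M2 / l2) / h ^ 3) := by
  have p1 : 0 < l1 := hh.trans_le a1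
  have p2 : 0 < l2 := hh.trans_le a2
  have n1 := h1.n0
  have n2 := h2.n0
  have A : D3 (fun p : ℂ => e1 p.re) (M1 / h) (M1 / h ^ 2) (M1 / h ^ 3) :=
    d3_re ((h1.mono le_rfl hh a1).d3 hh)
  have k : ∀ j : ℕ, M2 / l2 ^ (j + 1) ≤ M2 / l2 / h ^ j := fun j => by
    rw [pow_succ', ← div_div]
    gcongr
  have B : D3 (fun p : ℂ => deriv e2 p.im) (M2 / l2 / h) (M2 / l2 / h ^ 2) (M2 / l2 / h ^ 3) :=
    (d3_im (d3_deriv h2 p2)).mono (by simpa using k 1) (k 2) (k 3)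
  have A0 : ∀ p : ℂ, |e1 p.re| ≤ M1 := fun p => (h1.d2_0 p1).b0 _
  have B0 : ∀ p : ℂ, ‖deriv e2 p.im‖ ≤ M2 / l2 := fun p => (h2.d2_1 p2).b0 _
  exact (A.smul A0 B B0).mono (le_of_eq (by field_simp; ring)) (le_of_eq (by field_simp; ring))
    (le_of_eq (by field_simp; ring))

/-- the remainder -/
def rho (g : ℂ → ℝ) (y : ℂ → ℂ) (m : ℂ) (t : ℂ → ℝ) (p : ℂ) : ℝ :=
  (g (y p + t p • m) - g (y p)) * jac y p +
    fderiv ℝ t p 1 * (g (y p + t p • m) * wd m (fderiv ℝ y p I) - 1) +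
    fderiv ℝ t p I * (g (y p + t p • m) * wd (fderiv ℝ y p 1) m)

lemma fderiv_smul_const' {t : ℂ → ℝ} {p : ℂ} (ht : DifferentiableAt ℝ t p) (m v : ℂ) :
    fderiv ℝ (fun p => t p • m) p v = fderiv ℝ t p v • m := by
  rw [(ht.hasFDerivAt.smul_const m).fderiv]; simp

lemma split (g : ℂ → ℝ) {y : ℂ → ℂ} (m : ℂ) {t : ℂ → ℝ} {p : ℂ} (hy : DifferentiableAt ℝ y p)
    (ht : DifferentiableAt ℝ t p) :
    pb g (fun p => y p + t p • m) p - pb g y p = fderiv ℝ t p 1 + rho g y m t p := by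
  have e : ∀ v, fderiv ℝ (fun p => y p + t p • m) p v = fderiv ℝ y p v + fderiv ℝ t p v • m :=
    fun v => by
      rw [fderiv_fun_add hy (ht.smul_const m), add_apply, fderiv_smul_const' ht]
  simp only [pb, jac, rho, e, wd_add_left, wd_add_right, wd_smul_left, wd_smul_right, wd_self]
  ring

/-- hypotheses on the data -/
structure Hyp (g : ℂ → ℝ) (y : ℂ → ℂ) (m : ℂ) (t : ℂ → ℝ) (h L s ε g1 b m1 m2 : ℝ) : Prop where
  hm : ‖m‖ = 1
  hh : 0 < h
  hL : 0 < L
  nr : Nr ε g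
  dg : Dh g 2 g1 h
  dy : D3 y 2 (b / h) (b / h ^ 2)
  b1 : b ≤ 1
  fr : ∀ p, ‖p‖ < 3 / 2 * L → ‖fderiv ℝ y p 1 - m‖ ≤ m1 ∧ ‖fderiv ℝ y p I - I * m‖ ≤ m2
  t0 : ∀ p, |t p| ≤ s
  dt : D3 t (2 * s / h) (4 * s / h ^ 2) (8 * s / h ^ 3)
  sh : s ≤ h
  out : ∀ p, Out L p → t p = 0

namespace Hyp
variable {g : ℂ → ℝ} {y : ℂ → ℂ} {m : ℂ} {t : ℂ → ℝ} {h L s ε g1 b m1 m2 : ℝ}
  (H : Hyp g y m t h L s ε g1 b m1 m2)
include H

lemma nn : 0 ≤ s ∧ 0 ≤ ε ∧ 0 ≤ g1 ∧ 0 ≤ b ∧ 0 ≤ m1 ∧ 0 ≤ m2 := by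
  have := H.fr 0 (by simpa using H.hL)
  have hb := H.dy.d2.n1
  rw [le_div_iff₀ H.hh, zero_mul] at hb
  exact ⟨(abs_nonneg _).trans (H.t0 0), (abs_nonneg _).trans (H.nr 0), H.dg.nonneg H.hh, hb,
    (norm_nonneg _).trans this.1, (norm_nonneg _).trans this.2⟩

lemma dout {p : ℂ} (hp : Out L p) (v : ℂ) : fderiv ℝ t p v = 0 := by
  rw [fderiv_out H.dt.d2.toL2.continuous H.out hp]; simp

lemma frame {p : ℂ} (hp : ¬ Out L p) :
    ‖fderiv ℝ y p 1 - m‖ ≤ m1 ∧ ‖fderiv ℝ y p I - I * m‖ ≤ m2 := by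
  simp only [Out, not_or, not_le] at hp
  have := norm_lt_of_le H.hL hp.1.le hp.2.le
  exact H.fr p (by linarith [H.hL])

lemma wdI : D2 (fun p => wd m (fderiv ℝ y p I)) 2 (b / h) (b / h ^ 2) := by
  simpa [H.hm] using (D2.const (X := ℂ) m).wd (H.dy.d2.apply_const I)

lemma wd1 : D2 (fun p => wd (fderiv ℝ y p 1) m) 2 (b / h) (b / h ^ 2) := by
  simpa [H.hm] using (H.dy.d2.apply_const 1).wd (D2.const (X := ℂ) m)

lemma A0 {p : ℂ} (hp : ¬ Out L p) (x : ℂ) : |g x * wd m (fderiv ℝ y p I) - 1| ≤ 2 * ε + m2 := by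
  have e : g x * wd m (fderiv ℝ y p I) - 1 =
      (g x - 1) * wd m (fderiv ℝ y p I) + wd m (fderiv ℝ y p I - I * m) := by
    rw [wd_sub_right, wd_unit H.hm]; ring
  have h1 := (abs_wd_le m (fderiv ℝ y p I - I * m))
  rw [H.hm, one_mul] at h1
  have h2 : |wd m (fderiv ℝ y p I)| ≤ 2 := H.wdI.b0 p
  rw [e]
  refine (abs_add_le _ _).trans ?_
  rw [abs_mul]
  have := mul_le_mul (H.nr x) h2 (abs_nonneg _) H.nn.2.1
  linarith [(H.frame hp).2]

lemma B0 {p : ℂ} (hp : ¬ Out L p) (x : ℂ) : |g x * wd (fderiv ℝ y p 1) m| ≤ 2 * m1 := by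
  have e : wd (fderiv ℝ y p 1) m = wd (fderiv ℝ y p 1 - m) m := by
    rw [wd_sub_left, wd_self, sub_zero]
  have h1 := (abs_wd_le (fderiv ℝ y p 1 - m) m)
  rw [H.hm, mul_one] at h1
  rw [e, abs_mul]
  exact mul_le_mul (H.dg.b0 x) (h1.trans (H.frame hp).1) (abs_nonneg _) zero_le_two

lemma F0 (p : ℂ) : |g (y p + t p • m) - g (y p)| ≤ g1 / h * s := by
  have := H.dg.b1 (y p + t p • m) (y p)
  rw [add_sub_cancel_left, norm_smul, H.hm, mul_one] at this
  exact this.trans (mul_le_mul_of_nonneg_left (H.t0 p) H.dg.n1)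

lemma J0 : D2 (jac y) 4 (4 * (b / h)) (b / h ^ 2 * 2 + 2 * (b / h) * (b / h) + 2 * (b / h ^ 2)) := by
  have := (H.dy.d2.apply_const 1).wd (H.dy.d2.apply_const I)
  simp only [norm_one, norm_I, mul_one] at this
  exact this.mono (by norm_num) (le_of_eq (by ring)) le_rfl

lemma sup {k1 k2 : ℝ} (u1 : ∀ p, |fderiv ℝ t p 1| ≤ k1) (u2 : ∀ p, |fderiv ℝ t p I| ≤ k2) (p : ℂ) :
    |rho g y m t p| ≤ g1 / h * s * 4 + k1 * (2 * ε + m2) + k2 * (2 * m1) := by
  obtain ⟨n1, n2, n3, n4, n5, n6⟩ := H.nn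
  refine (abs_add_three _ _ _).trans (add_le_add (add_le_add ?_ ?_) ?_)
  · rw [abs_mul]
    exact mul_le_mul (H.F0 p) (H.J0.b0 p) (abs_nonneg _) ((abs_nonneg _).trans (H.F0 p))
  · exact sup_mul_out (F := fun p => fderiv ℝ t p 1)
      (A := fun p => g (y p + t p • m) * wd m (fderiv ℝ y p I) - 1)
      (fun p hp => H.dout hp 1) (by positivity) u1 (fun p hp => H.A0 hp _) p
  · exact sup_mul_out (F := fun p => fderiv ℝ t p I)
      (A := fun p => g (y p + t p • m) * wd (fderiv ℝ y p 1) m)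
      (fun p hp => H.dout hp I) (by positivity) u2 (fun p hp => H.B0 hp _) p

lemma t1 (p p' : ℂ) : ‖t p • m - t p' • m‖ ≤ 2 * s / h * ‖p - p'‖ := by
  rw [← sub_smul, norm_smul, H.hm, mul_one]
  exact H.dt.l2.b1 p p'

lemma G1 (p p' : ℂ) : |g (y p + t p • m) - g (y p' + t p' • m)| ≤ 4 * g1 / h * ‖p - p'‖ := by
  have h1 := H.dg.b1 (y p + t p • m) (y p' + t p' • m)
  have h2 : ‖y p + t p • m - (y p' + t p' • m)‖ ≤ 4 * ‖p - p'‖ := by
    rw [add_sub_add_comm]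
    have h3 : 2 * s / h ≤ 2 := by rw [div_le_iff₀ H.hh]; linarith [H.sh]
    have h4 := mul_le_mul_of_nonneg_right h3 (norm_nonneg (p - p'))
    linarith [norm_add_le (y p - y p') (t p • m - t p' • m), H.dy.l2.b1 p p', H.t1 p p']
  refine h1.trans ((mul_le_mul_of_nonneg_left h2 H.dg.n1).trans (le_of_eq (by ring)))

lemma F1 (p p' : ℂ) : |(g (y p + t p • m) - g (y p)) - (g (y p' + t p' • m) - g (y p'))| ≤
    4 * g1 * s / h ^ 2 * ‖p - p'‖ := by
  have hh := H.hh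
  have h1 := H.dg.b2 (y p') (y p - y p') (t p • m)
  rw [add_sub_cancel, norm_smul, H.hm, mul_one] at h1
  have h2 := H.dg.b1 (y p' + t p • m) (y p' + t p' • m)
  rw [add_sub_add_left_eq_sub] at h2
  have h3 : g1 / h ^ 2 * ‖y p - y p'‖ * ‖t p‖ ≤ g1 / h ^ 2 * (2 * ‖p - p'‖) * s :=
    mul_le_mul (mul_le_mul_of_nonneg_left (H.dy.l2.b1 p p') H.dg.n2) (H.t0 p) (norm_nonneg _)
      (mul_nonneg H.dg.n2 (by positivity))
  have h4 := mul_le_mul_of_nonneg_left (H.t1 p p') H.dg.n1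
  have e : (g (y p + t p • m) - g (y p)) - (g (y p' + t p' • m) - g (y p')) =
      (g (y p + t p • m) - g (y p) - g (y p' + t p • m) + g (y p')) +
        (g (y p' + t p • m) - g (y p' + t p' • m)) := by ring
  rw [e]
  refine (abs_add_le _ _).trans ((add_le_add (h1.trans h3) (h2.trans h4)).trans (le_of_eq ?_))
  field_simp
  ring

lemma lip (p p' : ℂ) : |rho g y m t p - rho g y m t p'| ≤
    52 * s * (g1 + b + ε + m1 + m2) / h ^ 2 * ‖p - p'‖ := by
  obtain ⟨n1, n2, n3, n4, n5, n6⟩ := H.nn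
  have hh := H.hh
  have dt : ∀ v : ℂ, ‖v‖ = 1 →
      D2 (fun p => fderiv ℝ t p v) (2 * s / h) (4 * s / h ^ 2) (8 * s / h ^ 3) := fun v hv => by
    simpa [hv] using H.dt.d2.apply_const v
  have q1 := lip_mul (H.F0 p') (H.F1 p p') (H.J0.b0 p) (H.J0.b1 p p')
  have q2 := lip_mul_out (F := fun p => fderiv ℝ t p 1)
    (A := fun p => g (y p + t p • m) * wd m (fderiv ℝ y p I) - 1)
    (A1 := 4 * g1 / h * 2 + 2 * (b / h)) (fun p hp => H.dout hp 1) (by positivity)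
    (dt 1 norm_one).b0 (dt 1 norm_one).b1 (fun p hp => H.A0 hp _) (fun p p' => by
      rw [sub_sub_sub_cancel_right]
      exact lip_mul (H.dg.b0 _) (H.G1 p p') (H.wdI.b0 p) (H.wdI.b1 p p')) p p'
  have q3 := lip_mul_out (F := fun p => fderiv ℝ t p I)
    (A := fun p => g (y p + t p • m) * wd (fderiv ℝ y p 1) m)
    (A1 := 4 * g1 / h * 2 + 2 * (b / h)) (fun p hp => H.dout hp I) (by positivity)
    (dt I norm_I).b0 (dt I norm_I).b1 (fun p hp => H.B0 hp _) (fun p p' =>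
      lip_mul (H.dg.b0 _) (H.G1 p p') (H.wd1.b0 p) (H.wd1.b1 p p')) p p'
  unfold rho
  rw [add_sub_add_comm, add_sub_add_comm]
  refine (abs_add_three _ _ _).trans ((add_le_add (add_le_add q1 q2) q3).trans ?_)
  rw [← add_mul, ← add_mul]
  refine mul_le_mul_of_nonneg_right ?_ (norm_nonneg _)
  have e : 4 * g1 * s / h ^ 2 * 4 + g1 / h * s * (4 * (b / h)) +
      (4 * s / h ^ 2 * (2 * ε + m2) + 2 * s / h * (4 * g1 / h * 2 + 2 * (b / h))) +
      (4 * s / h ^ 2 * (2 * m1) + 2 * s / h * (4 * g1 / h * 2 + 2 * (b / h))) =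
      s * (48 * g1 + 4 * (g1 * b) + 8 * b + 8 * ε + 8 * m1 + 4 * m2) / h ^ 2 := by
    field_simp
    ring
  rw [e, mul_comm 52 s, mul_assoc]
  have : g1 * b ≤ g1 := mul_le_of_le_one_right n3 H.b1
  gcongr
  linarith

lemma cont : Continuous (rho g y m t) := by
  obtain ⟨n1, n2, n3, n4, n5, n6⟩ := H.nn
  have hh := H.hh
  exact (LipschitzWith.of_dist_le_mul (K := ⟨52 * s * (g1 + b + ε + m1 + m2) / h ^ 2,
    by positivity⟩) fun p p' => by rw [dist_eq_norm, dist_eq_norm]; exact H.lip p p').continuous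

lemma rout {p : ℂ} (hp : Out L p) : rho g y m t p = 0 := by
  simp [rho, H.out p hp, H.dout hp]

lemma mass (hF : FluxStmt) (u : ℝ) :
    mas (fun p => pb g (fun p => y p + t p • m) p - pb g y p) L u =
      ∫ b in (-L)..L, (∫ r in (0 : ℝ)..(t ⟨u, b⟩), g (y ⟨u, b⟩ + r • m)) *
        wd m (fderiv ℝ y ⟨u, b⟩ I) := by
  refine hF g y t m (-L) (-L) L H.dg.toL2.contDiff H.dy.contDiff H.dt.l2.contDiff H.hm ?_ u
  rintro p (hp | hp | hp) <;> refine H.out p ?_
  · exact Or.inl (by rw [hp, abs_neg]; exact le_abs_self L)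
  · exact Or.inr (by rw [hp, abs_neg]; exact le_abs_self L)
  · exact Or.inr (by rw [hp]; exact le_abs_self L)

lemma mass_le (hF : FluxStmt) (u : ℝ) (hz : ∫ b in (-L)..L, t ⟨u, b⟩ = 0) :
    |mas (fun p => pb g (fun p => y p + t p • m) p - pb g y p) L u| ≤
      2 * L * (s * (2 * ε + m2)) := by
  obtain ⟨n1, n2, n3, n4, n5, n6⟩ := H.nn
  have cl : Continuous fun b : ℝ => (⟨u, b⟩ : ℂ) := (L2.lineIm u).continuous
  have cg := H.dg.toL2.continuous
  have cy := H.dy.l2.continuous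
  have ct : Continuous fun b : ℝ => t ⟨u, b⟩ := H.dt.l2.continuous.comp cl
  have c1 : Continuous fun b : ℝ => (∫ r in (0 : ℝ)..(t ⟨u, b⟩), g (y ⟨u, b⟩ + r • m)) *
      wd m (fderiv ℝ y ⟨u, b⟩ I) := by
    refine Continuous.mul ?_ (H.wdI.toL2.continuous.comp cl)
    exact intervalIntegral.continuous_parametric_intervalIntegral_of_continuous
      (f := fun b r : ℝ => g (y ⟨u, b⟩ + r • m))
      (cg.comp ((cy.comp (cl.comp continuous_fst)).add (continuous_snd.smul continuous_const))) ct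
  have es := intervalIntegral.integral_sub (c1.intervalIntegrable (μ := volume) (-L) L)
    (ct.intervalIntegrable (-L) L)
  rw [hz, sub_zero] at es
  rw [H.mass hF, ← es]
  refine int_bound H.hL (c1.fun_sub ct) (fun b hb => ?_) (fun b => ?_) L
  · simp [H.out ⟨u, b⟩ (Or.inr hb)]
  · by_cases hp : Out L ⟨u, b⟩
    · simpa [H.out _ hp] using mul_nonneg n1 (by positivity : 0 ≤ 2 * ε + m2)
    · have ci : Continuous fun r : ℝ => g (y ⟨u, b⟩ + r • m) * wd m (fderiv ℝ y ⟨u, b⟩ I) :=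
        (cg.comp (continuous_const.add (continuous_id.smul continuous_const))).mul
          continuous_const
      have e : (∫ r in (0 : ℝ)..(t ⟨u, b⟩), g (y ⟨u, b⟩ + r • m)) * wd m (fderiv ℝ y ⟨u, b⟩ I) -
          t ⟨u, b⟩ = ∫ r in (0 : ℝ)..(t ⟨u, b⟩),
            (g (y ⟨u, b⟩ + r • m) * wd m (fderiv ℝ y ⟨u, b⟩ I) - 1) := by
        rw [intervalIntegral.integral_sub (ci.intervalIntegrable _ _) (by simp),
          intervalIntegral.integral_mul_const]
        simp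
      rw [e]
      have := intervalIntegral.norm_integral_le_of_norm_le_const (a := 0) (b := t ⟨u, b⟩)
        (f := fun r : ℝ => g (y ⟨u, b⟩ + r • m) * wd m (fderiv ℝ y ⟨u, b⟩ I) - 1)
        (C := 2 * ε + m2) fun r _ => H.A0 hp _
      rw [sub_zero, mul_comm] at this
      exact this.trans (mul_le_mul_of_nonneg_right (H.t0 _) (by positivity))

end Hyp

end Det

open Det in
theorem det_of (hF : FluxStmt) : DetStmt := by
  refine ⟨104, by norm_num, ?_⟩
  intro g y m e1 e2 h L l1 l2 M1 M2 ε g1 b m1 m2 hm hh a1 a2 a3 a4 hnr _ hg _ hy hb hfr h1 h2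
    z1 z2 hs
  have p1 : 0 < l1 := hh.trans_le a1
  have p2 : 0 < l2 := hh.trans_le a2
  have hL : 0 < L := p1.trans_le a3
  have n1 := h1.n0
  have n2 := h2.n0
  obtain ⟨s, hs'⟩ : ∃ s, s = M1 * M2 / l2 := ⟨_, rfl⟩
  have es : M1 * M2 / (h * l2) = s / h := by rw [hs']; field_simp
  have z2' : ∀ u, L ≤ |u| → deriv e2 u = 0 := fun u hu =>
    deriv_out (h2.cd.differentiable (by norm_num)) z2 hu
  have H : Hyp g y m (amp e1 e2) h L s ε g1 b m1 m2 := by
    refine ⟨hm, hh, hL, hnr, hg, hy, hb, hfr, fun p => ?_, hs' ▸ amp_d3 h1 h2 hh a1 a2,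
      by rwa [es, div_le_one hh] at hs, ?_⟩
    · rw [amp, abs_mul, hs', mul_div_assoc]
      exact mul_le_mul ((h1.d2_0 p1).b0 _) ((h2.d2_1 p2).b0 _) (abs_nonneg _) n1
    · rintro p (hp | hp)
      · simp [amp, z1 _ hp]
      · simp [amp, z2' _ hp]
  obtain ⟨k1, k2, k3, k4, k5, k6⟩ := H.nn
  have sp := fun p => split g m (hy.df p) (H.dt.df p)
  have fund : ∀ w, ∫ t in (-L)..w, deriv e2 t = e2 w := fun w => by
    rw [intervalIntegral.integral_eq_sub_of_hasDerivAt (fun t _ => der0 h2 t)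
      ((h2.d2_1 p2).toL2.continuous.intervalIntegrable _ _),
      z2 (-L) (by rw [abs_neg]; exact le_abs_self L), sub_zero]
  have cr : ∀ u, Continuous fun w : ℝ => rho g y m (amp e1 e2) ⟨u, w⟩ := fun u =>
    H.cont.comp (L2.lineIm u).continuous
  have ecol : ∀ u w, col (fun p => pb g (fun p => y p + amp e1 e2 p • m) p - pb g y p) (-L) u w =
      deriv e1 u * e2 w + ∫ t in (-L)..w, rho g y m (amp e1 e2) ⟨u, t⟩ := fun u w => by
    simp only [col, sp, (amp_der h1 h2 _).1]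
    rw [intervalIntegral.integral_add
      ((continuous_const.fun_mul (h2.d2_1 p2).toL2.continuous).intervalIntegrable _ _)
      ((cr u).intervalIntegrable _ _), intervalIntegral.integral_const_mul, fund]
  rw [es, ← hs']
  refine ⟨fun p => amp e1 e2 p • m, fun p hp => by simp [H.out p hp], fun p => ?_, ?_,
    fun p => ?_, ⟨fun p hp => ?_, fun u w => ?_, fun u u' w => ?_, fun u w => ?_, fun u => ?_,
      fun u => ?_, ?_⟩⟩
  · rw [norm_smul, hm, mul_one]
    exact H.t0 p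
  · have c : D3 (fun _ : ℂ => m) 0 0 0 := by simpa using D3.clm (0 : ℂ →L[ℝ] ℂ) m
    refine (H.dt.smul H.t0 c fun _ => hm.le).mono ?_ ?_ ?_
    · calc _ = 2 * (s / h) := by ring
        _ ≤ _ := by gcongr; norm_num
    · calc _ = 4 * (s / h) / h := by field_simp; ring
        _ ≤ _ := by gcongr; norm_num
    · calc _ = 8 * (s / h) / h ^ 2 := by field_simp; ring
        _ ≤ _ := by gcongr; norm_num
  · rw [fderiv_smul_const' (H.dt.df p), fderiv_smul_const' (H.dt.df p), (amp_der h1 h2 p).1,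
      (amp_der h1 h2 p).2]
    exact ⟨rfl, rfl⟩
  · rw [sp, H.dout hp, H.rout hp, add_zero]
  · have u1 : ∀ p, |fderiv ℝ (amp e1 e2) p 1| ≤ s / l1 := fun p => by
      rw [(amp_der h1 h2 p).1, abs_mul]
      refine (mul_le_mul ((h1.d2_1 p1).b0 _) ((h2.d2_1 p2).b0 _) (abs_nonneg _)
        (by positivity)).trans (le_of_eq ?_)
      rw [hs']; field_simp
    have u2 : ∀ p, |fderiv ℝ (amp e1 e2) p I| ≤ s / l2 := fun p => by
      rw [(amp_der h1 h2 p).2, abs_mul]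
      refine (mul_le_mul ((h1.d2_0 p1).b0 _) (h2.bd 2 (by norm_num) _) (abs_nonneg _)
        n1).trans (le_of_eq ?_)
      rw [hs']; field_simp
    have q := int_bound hL (cr u) (fun t ht => H.rout (Or.inr ht))
      (fun t => H.sup u1 u2 ⟨u, t⟩) w
    have q0 : |deriv e1 u * e2 w| ≤ M1 * M2 / l1 := by
      rw [abs_mul]
      exact (mul_le_mul ((h1.d2_1 p1).b0 _) ((h2.d2_0 p2).b0 _) (abs_nonneg _)
        (by positivity)).trans (le_of_eq (by ring))
    rw [ecol]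
    refine (abs_add_le _ _).trans (add_le_add q0 (q.trans ?_))
    have e : 2 * L * (g1 / h * s * 4 + s / l1 * (2 * ε + m2) + s / l2 * (2 * m1)) =
        L * s * (8 * (g1 / h) + 4 * (ε / l1) + 2 * (m2 / l1) + 4 * (m1 / l2)) := by ring
    have e' : 104 * L * s * (g1 / h + (ε + m2) / l1 + m1 / l2) =
        L * s * (104 * (g1 / h) + 104 * (ε / l1) + 104 * (m2 / l1) + 104 * (m1 / l2)) := by ring
    rw [e, e']
    gcongr <;> norm_num
  · rw [ecol, ecol, add_sub_cancel_left, add_sub_cancel_left,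
      ← intervalIntegral.integral_sub ((cr u).intervalIntegrable _ _)
        ((cr u').intervalIntegrable _ _)]
    refine (int_bound hL ((cr u).fun_sub (cr u')) (fun t ht => ?_)
      (fun t => (H.lip ⟨u, t⟩ ⟨u', t⟩).trans_eq (by rw [norm_mk_sub])) w).trans (le_of_eq ?_)
    · rw [H.rout (p := ⟨u, t⟩) (Or.inr ht), H.rout (p := ⟨u', t⟩) (Or.inr ht), sub_zero]
    · ring
  · exact (der1 h1 u).mul_const (e2 w)
  · simp [z2 L (le_abs_self L)]
  · refine (H.mass_le hF u ?_).trans ?_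
    · simp only [amp]
      rw [intervalIntegral.integral_const_mul, fund, z2 L (le_abs_self L), mul_zero]
    · have : 0 ≤ L * s := by positivity
      nlinarith [mul_nonneg this k2, mul_nonneg this k6]
  · rw [H.mass hF]
    simp [amp, z1 L (le_abs_self L)]

end
end Pool.Agent.MP_20bec2_an.Pl

end MrgPart1

-- ======== part 2: formerly Pool.Agent.MP_20bec2_an.Pl.Wave
section MrgPart2

/-! Module WAVE: localised plane waves and squared trigonometric sums. -/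

set_option autoImplicit false
open MeasureTheory Set Complex Filter Topology

namespace Pool.Agent.MP_20bec2_an.Pl
noncomputable section

namespace Wave

variable {n : ℂ → ℂ} {act : ℂ → Prop} {Ln L h K : ℝ} {om : ℂ} {j : ℕ}

open Classical in
/-- amplitude of the wave in one cell -/
def cel (n : ℂ → ℂ) (act : ℂ → Prop) (L : ℝ) (j : ℕ) (c : ℤ × ℤ) (x : ℂ) : ℝ :=
  if act (cen (L / 2) j c) then cut ((chi' (cen (L / 2) j c) (n (cen (L / 2) j c)) x).re / L) *
    cut ((chi' (cen (L / 2) j c) (n (cen (L / 2) j c)) x).im / L) else 0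

/-- phase of the wave in one cell -/
def pha (n : ℂ → ℂ) (L h : ℝ) (om : ℂ) (j : ℕ) (c : ℤ × ℤ) (x : ℂ) : ℝ :=
  (j + 1) * ip (chi' (cen (L / 2) j c) (n (cen (L / 2) j c)) x) om / h

/-- global amplitude -/
def amp (n : ℂ → ℂ) (act : ℂ → Prop) (L : ℝ) (j : ℕ) : ℂ → ℝ :=
  glue (cen (L / 2) j) L (cel n act L j)

/-- global phase -/
def ph (n : ℂ → ℂ) (L h : ℝ) (om : ℂ) (j : ℕ) : ℂ → ℝ := glue (cen (L / 2) j) L (pha n L h om j)

lemma wave_eq (x : ℂ) : wave n act L h om j x = amp n act L j x * Real.cos (ph n L h om j x) := by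
  unfold wave amp ph glue
  by_cases k : ∃ c, ‖x - cen (L / 2) j c‖ < 3 / 2 * L
  · simp only [dif_pos k]
    unfold wv cel pha chi'
    split_ifs
    · rfl
    · exact (zero_mul _).symm
  · simp only [dif_neg k, zero_mul]

lemma cel_le (c : ℤ × ℤ) (x : ℂ) : |cel n act L j c x| ≤ 1 := by
  unfold cel
  split_ifs
  · rw [abs_mul]; exact mul_le_one₀ (abs_cut_le _) (abs_nonneg _) (abs_cut_le _)
  · simp

lemma amp_le (x : ℂ) : |amp n act L j x| ≤ 1 :=
  glue_sup (z := cen (L / 2) j) (L := L) (φ := cel n act L j) (fun c x => cel_le c x) x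

lemma cel_zero (hn : Fr n Ln) (hL : 0 < L) (c : ℤ × ℤ) (x : ℂ)
    (hx : 29 / 20 * L ≤ ‖x - cen (L / 2) j c‖) : cel n act L j c x = 0 := by
  unfold cel
  split_ifs
  · rw [← norm_chi' _ (hn.one (cen (L / 2) j c))] at hx
    rcases out_of_norm hL.le hx with k | k <;> simp [cut_div_zero hL k]
  · rfl

lemma cel_lip (hK : C4 cut K 1) (hn : Fr n Ln) (hL : 0 < L) (c : ℤ × ℤ) (x y : ℂ) :
    ‖cel n act L j c x - cel n act L j c y‖ ≤ 2 * K / L * ‖x - y‖ := by
  have h0 := hK.n0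
  unfold cel
  split_ifs
  · have h1 := ((hK.scale hL).d2_0 hL).toL2
    have h2 := (D3.chi' (cen (L / 2) j c) (hn.one (cen (L / 2) j c))).l2
    have h3 := (h1.comp (L2.re.comp h2)).b1 x y
    have h4 := (h1.comp (L2.im.comp h2)).b1 x y
    simp only [mul_one, Real.norm_eq_abs] at h3 h4 ⊢
    set a := cut ((chi' (cen (L / 2) j c) (n (cen (L / 2) j c)) x).re / L)
    set b := cut ((chi' (cen (L / 2) j c) (n (cen (L / 2) j c)) x).im / L) with hb
    set a' := cut ((chi' (cen (L / 2) j c) (n (cen (L / 2) j c)) y).re / L) with ha'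
    set b' := cut ((chi' (cen (L / 2) j c) (n (cen (L / 2) j c)) y).im / L)
    have e1 : |b| ≤ 1 := abs_cut_le _
    have e2 : |a'| ≤ 1 := abs_cut_le _
    calc |a * b - a' * b'| = |(a - a') * b + a' * (b - b')| := by ring_nf
      _ ≤ |a - a'| * |b| + |a'| * |b - b'| := by
        rw [← abs_mul, ← abs_mul]; exact abs_add_le _ _
      _ ≤ K / L * ‖x - y‖ * 1 + 1 * (K / L * ‖x - y‖) := by gcongr
      _ = _ := by ring
  · simp only [sub_self, norm_zero]; positivity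

/-- comparison of the wave with a frozen amplitude and a given phase -/
lemma cmp (hK : C4 cut K 1) (hn : Fr n Ln) (hL : 0 < L) (x0 x : ℂ) {ψ E : ℝ} (hE : 0 ≤ E)
    (hp : ∀ c, ‖x - cen (L / 2) j c‖ < 3 / 2 * L → ‖x0 - cen (L / 2) j c‖ < 3 / 2 * L →
      |pha n L h om j c x - ψ| ≤ E) :
    |wave n act L h om j x - amp n act L j x0 * Real.cos ψ| ≤ 8 * K / L * ‖x - x0‖ + E := by
  have h0 := hK.n0
  have hs := cen_sep' hL j
  have h1 : |amp n act L j x - amp n act L j x0| ≤ 2 * (2 * K / L) * ‖x - x0‖ :=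
    glue_lip hs hL (cel_zero hn hL) (by positivity) (cel_lip hK hn hL) x x0
  have h2 : |amp n act L j x| * |Real.cos (ph n L h om j x) - Real.cos ψ| ≤
      2 * (2 * K / L) * ‖x - x0‖ + E := by
    rcases glue_cases (cen (L / 2) j) L x with ⟨c, hc⟩ | hc
    · by_cases k : ‖x0 - cen (L / 2) j c‖ < 3 / 2 * L
      · have e1 : ph n L h om j x = pha n L h om j c x := glue_eq hs hc
        calc _ ≤ 1 * E := by
              rw [e1]
              exact mul_le_mul (amp_le x) ((Real.abs_cos_sub_cos_le _ _).trans (hp c hc k))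
                (abs_nonneg _) zero_le_one
          _ ≤ _ := by rw [one_mul]; exact le_add_of_nonneg_left (by positivity)
      · have e1 : amp n act L j x = cel n act L j c x := glue_eq hs hc
        have e2 := cel_lip (act := act) (j := j) hK hn hL c x x0
        rw [cel_zero hn hL c x0 (by linarith [not_lt.1 k]), sub_zero, ← e1] at e2
        have e3 : |Real.cos (ph n L h om j x) - Real.cos ψ| ≤ 1 + 1 :=
          (abs_sub _ _).trans (add_le_add (Real.abs_cos_le_one _) (Real.abs_cos_le_one _))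
        calc _ ≤ 2 * K / L * ‖x - x0‖ * (1 + 1) := mul_le_mul e2 e3 (abs_nonneg _) (by positivity)
          _ ≤ _ := by linarith
    · have e1 : amp n act L j x = 0 :=
        glue_zero (cel_zero hn hL) fun c => le_trans (by linarith) (hc c)
      rw [e1, abs_zero, zero_mul]; positivity
  rw [wave_eq]
  calc _ = |(amp n act L j x - amp n act L j x0) * Real.cos ψ +
        amp n act L j x * (Real.cos (ph n L h om j x) - Real.cos ψ)| := by ring_nf
    _ ≤ |amp n act L j x - amp n act L j x0| * |Real.cos ψ| +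
        |amp n act L j x| * |Real.cos (ph n L h om j x) - Real.cos ψ| := by
      rw [← abs_mul, ← abs_mul]; exact abs_add_le _ _
    _ ≤ 2 * (2 * K / L) * ‖x - x0‖ * 1 + (2 * (2 * K / L) * ‖x - x0‖ + E) :=
      add_le_add (mul_le_mul h1 (Real.abs_cos_le_one _) (abs_nonneg _) (by positivity)) h2
    _ = _ := by ring

lemma pha_sub (c : ℤ × ℤ) (x v : ℂ) : pha n L h om j c (x + v) - pha n L h om j c x =
    (j + 1) * ip v (n (cen (L / 2) j c) * om) / h := by
  simp only [pha, chi', ip, mul_re, mul_im, conj_re, conj_im, sub_re, sub_im, add_re, add_im]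
  ring

lemma abs_freq (hj : j < 36) (hh : 0 < h) {t s : ℝ} (ht : |t| ≤ s) :
    |(j + 1) * t / h| ≤ 36 * (s / h) := by
  have h1 : (j : ℝ) + 1 ≤ 36 := by exact_mod_cast hj
  rw [abs_div, abs_mul, abs_of_pos hh, abs_of_pos (by positivity : (0 : ℝ) < j + 1), mul_div_assoc]
  gcongr

lemma frame_near (hn : Fr n Ln) {η : ℝ} (hη : 2 * L * Ln ≤ η) {x z : ℂ} (hL : 0 < L)
    (hx : ‖x - z‖ < 3 / 2 * L) : ‖n x - n z‖ ≤ η := by
  have h0 := hn.n0
  calc _ ≤ Ln * (2 * L) := (hn.lip x z).trans (by gcongr; linarith)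
    _ ≤ η := by linarith

/-! ### trigonometric sums -/

lemma c4_osc {f : ℝ → ℝ} (hf : ContDiff ℝ 4 f) (hb : ∀ j u, |iteratedDeriv j f u| ≤ 1) {ν : ℝ}
    (hν : |ν| ≤ 72) (hh : 0 < h) (ψ : ℝ) : C4 (fun u => f (ν * u / h + ψ)) (72 ^ 4) h := by
  refine ⟨hf.comp (by fun_prop), fun j hj u => ?_⟩
  have e1 : (fun u => f (ν * u / h + ψ)) = fun u => (fun v => f (v + ψ)) (ν / h * u) := by
    funext u; simp only; ring_nf
  have hc : ContDiff ℝ j fun v => f (v + ψ) :=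
    (hf.of_le (by exact_mod_cast hj)).comp (by fun_prop)
  rw [e1, iteratedDeriv_comp_const_mul hc, iteratedDeriv_comp_add_const]
  simp only [abs_mul, abs_pow, abs_div, abs_of_pos hh, div_pow]
  calc _ ≤ 72 ^ j / h ^ j * 1 := by gcongr; exact hb _ _
    _ ≤ _ := by rw [mul_one]; gcongr; norm_num

/-- primitive of one frequency -/
def sn (h ν ψ u : ℝ) : ℝ := h / ν * Real.sin (ν * u / h + ψ)

lemma sn_c4 (hh : 0 < h) {ν : ℝ} (h1 : ν = 0 ∨ 1 ≤ |ν|) (h2 : |ν| ≤ 72) (ψ : ℝ) :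
    C4 (sn h ν ψ) (h * 72 ^ 4) h := by
  refine ((c4_osc Real.contDiff_sin Real.abs_iteratedDeriv_sin_le_one h2 hh ψ).const_mul
    (h / ν)).mono ?_ hh le_rfl
  gcongr
  rcases h1 with rfl | h1
  · simpa using hh.le
  · rw [abs_div, abs_of_pos hh]; exact div_le_self hh.le h1

lemma hasDerivAt_arg (h ν ψ u : ℝ) : HasDerivAt (fun u => ν * u / h + ψ) (ν / h) u := by
  simpa using (((hasDerivAt_id u).const_mul ν).div_const h).add_const ψ

lemma sn_deriv (hh : 0 < h) (ν ψ u : ℝ) :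
    HasDerivAt (sn h ν ψ) (if ν = 0 then 0 else Real.cos (ν * u / h + ψ)) u := by
  refine ((hasDerivAt_arg h ν ψ u).sin.const_mul (h / ν)).congr_deriv ?_
  split_ifs with k
  · simp [k]
  · field_simp

lemma c4_sum {ι : Type*} (s : Finset ι) {e : ι → ℝ → ℝ} {M l : ℝ} (he : ∀ i ∈ s, C4 (e i) M l) :
    C4 (fun u => ∑ i ∈ s, e i u) (s.card * M) l := by
  classical
  induction s using Finset.induction_on with
  | empty => exact ⟨by simpa using contDiff_const, fun j _ u => by simp⟩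
  | insert a s ha ih =>
    simp only [Finset.sum_insert ha, Finset.card_insert_of_notMem ha]
    rw [Nat.cast_succ, add_mul, one_mul, add_comm _ M]
    exact (he a (Finset.mem_insert_self _ _)).add
      (ih fun i hi => he i (Finset.mem_insert_of_mem hi))

lemma trig1 (hh : 0 < h) (a φ : ℕ → ℝ) (ha : ∀ j, |a j| ≤ 1) :
    ∃ P : ℝ → ℝ, C4 P (36 * (36 * (h * 72 ^ 4))) h ∧ ∀ u,
      deriv P u = (∑ j ∈ Finset.range 36, a j * Real.cos ((j + 1) * u / h + φ j)) ^ 2 -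
        (∑ j ∈ Finset.range 36, a j ^ 2) / 2 := by
  refine ⟨fun u => ∑ i ∈ Finset.range 36, ∑ k ∈ Finset.range 36, a i * a k / 2 *
    (sn h (i + k + 2) (φ i + φ k) u + sn h (i - k) (φ i - φ k) u), ?_, fun u => ?_⟩
  · have h1 := c4_sum (Finset.range 36) (M := (Finset.range 36).card * (h * 72 ^ 4)) (l := h)
      (e := fun i u => ∑ k ∈ Finset.range 36, a i * a k / 2 *
        (sn h (i + k + 2) (φ i + φ k) u + sn h (i - k) (φ i - φ k) u)) fun i hi =>
      c4_sum _ fun k hk => by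
        have i1 : (i : ℝ) < 36 := by exact_mod_cast Finset.mem_range.1 hi
        have k1 : (k : ℝ) < 36 := by exact_mod_cast Finset.mem_range.1 hk
        have i2 : (i : ℝ) + 1 ≤ 36 := by exact_mod_cast Finset.mem_range.1 hi
        have k2 : (k : ℝ) + 1 ≤ 36 := by exact_mod_cast Finset.mem_range.1 hk
        have i0 : (0 : ℝ) ≤ i := Nat.cast_nonneg _
        have k0 : (0 : ℝ) ≤ k := Nat.cast_nonneg _
        have s1 := sn_c4 hh (ν := i + k + 2) (Or.inr (le_abs.2 (Or.inl (by linarith))))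
          (abs_le.2 ⟨by linarith, by linarith⟩) (φ i + φ k)
        have s2 := sn_c4 hh (ν := i - k) (by
          rcases lt_trichotomy i k with l | l | l
          · have : (i : ℝ) + 1 ≤ k := by exact_mod_cast l
            exact Or.inr (le_abs.2 (Or.inr (by linarith)))
          · exact Or.inl (by rw [l, sub_self])
          · have : (k : ℝ) + 1 ≤ i := by exact_mod_cast l
            exact Or.inr (le_abs.2 (Or.inl (by linarith))))
          (abs_le.2 ⟨by linarith, by linarith⟩) (φ i - φ k)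
        refine ((s1.add s2).const_mul (a i * a k / 2)).mono ?_ hh le_rfl
        have : |a i * a k / 2| ≤ 1 / 2 := by
          rw [abs_div, abs_mul, abs_two]
          gcongr
          exact mul_le_one₀ (ha i) (abs_nonneg _) (ha k)
        calc _ ≤ 1 / 2 * (h * 72 ^ 4 + h * 72 ^ 4) := by gcongr
          _ = _ := by ring
    simpa only [Finset.card_range, Nat.cast_ofNat] using h1
  · rw [(HasDerivAt.fun_sum fun (i : ℕ) _ => HasDerivAt.fun_sum fun (k : ℕ) _ =>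
      ((sn_deriv hh (i + k + 2) (φ i + φ k) u).fun_add (sn_deriv hh (i - k) (φ i - φ k) u)).const_mul
        (a i * a k / 2)).deriv, sq, Finset.sum_mul_sum, Finset.sum_div, ← Finset.sum_sub_distrib]
    refine Finset.sum_congr rfl fun i hi => ?_
    have e : a i ^ 2 / 2 = ∑ k ∈ Finset.range 36, if i = k then a i * a k / 2 else 0 := by
      rw [Finset.sum_ite_eq, if_pos hi, sq]
    rw [e, ← Finset.sum_sub_distrib]
    refine Finset.sum_congr rfl fun k _ => ?_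
    have e1 : ((i : ℝ) + k + 2) * u / h + (φ i + φ k) =
        ((i + 1) * u / h + φ i) + ((k + 1) * u / h + φ k) := by ring
    have e2 : ((i : ℝ) - k) * u / h + (φ i - φ k) =
        ((i + 1) * u / h + φ i) - ((k + 1) * u / h + φ k) := by ring
    rw [if_neg (by positivity), e1, e2, Real.cos_add, Real.cos_sub]
    by_cases l : i = k
    · subst l
      rw [if_pos (sub_self _), if_pos rfl]
      have := Real.sin_sq_add_cos_sq ((i + 1) * u / h + φ i)
      linear_combination (-(a i * a i) / 2) * this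
    · rw [if_neg (sub_ne_zero.2 (by exact_mod_cast l)), if_neg l]
      ring

lemma trig2 (hK : C4 cut K 1) (hh : 0 < h) (hL : h ≤ L) (hj : j < 36) :
    ∃ E : ℝ → ℝ, C4 E (h ^ 2 * (16 * K * 72 ^ 4)) h ∧ (∀ u, L ≤ |u| → E u = 0) ∧
      ∀ u, |iteratedDeriv 2 E u - cut (u / L) * Real.cos ((j + 1) * u / h)| ≤ 3 * K * h / L := by
  have hL0 : 0 < L := hh.trans_le hL
  have h0 := hK.n0
  have hg := hK.scale hL0
  set g : ℝ → ℝ := fun u => cut (u / L) with hgd
  set k : ℝ := j + 1 with hk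
  have k1 : 1 ≤ k := le_add_of_nonneg_left (Nat.cast_nonneg _)
  have k2 : k ≤ 36 := by rw [hk]; exact_mod_cast hj
  have k3 : |h / k| ≤ h := by rw [abs_of_pos (by positivity)]; exact div_le_self hh.le k1
  refine ⟨fun u => -(h / k) ^ 2 * (g u * Real.cos (k * u / h + 0)), ?_, fun u hu => ?_,
    fun u => ?_⟩
  · refine (((hg.mono le_rfl hh hL).mul (c4_osc Real.contDiff_cos
      Real.abs_iteratedDeriv_cos_le_one (abs_le.2 ⟨by linarith, by linarith⟩) hh 0) hh).const_mul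
      _).mono ?_ hh le_rfl
    rw [abs_neg, abs_pow]
    gcongr
  · simp [hgd, cut_div_zero hL0 hu]
  · have d0 : ∀ u, HasDerivAt g (iteratedDeriv 1 g u) u := fun u => by
      simpa only [iteratedDeriv_zero] using hg.hasDerivAt (j := 0) (by norm_num) u
    have d1 : HasDerivAt (iteratedDeriv 1 g) (iteratedDeriv 2 g u) u :=
      hg.hasDerivAt (j := 1) (by norm_num) u
    have e1 : deriv (fun u => -(h / k) ^ 2 * (g u * Real.cos (k * u / h + 0))) = fun u =>
        -(h / k) ^ 2 * (iteratedDeriv 1 g u * Real.cos (k * u / h + 0) +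
          g u * (-Real.sin (k * u / h + 0) * (k / h))) :=
      funext fun u => (((d0 u).mul (hasDerivAt_arg h k 0 u).cos).const_mul _).deriv
    have e2 := (((d1.mul (hasDerivAt_arg h k 0 u).cos).add ((d0 u).mul
      ((hasDerivAt_arg h k 0 u).sin.neg.mul_const (k / h)))).const_mul (-(h / k) ^ 2)).deriv
    have e3 : iteratedDeriv 2 (fun u => -(h / k) ^ 2 * (g u * Real.cos (k * u / h + 0))) u -
        g u * Real.cos (k * u / h) = 2 * (h / k) * (iteratedDeriv 1 g u * Real.sin (k * u / h)) -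
          (h / k) ^ 2 * (iteratedDeriv 2 g u * Real.cos (k * u / h)) := by
      rw [iteratedDeriv_succ, iteratedDeriv_one, e1]
      refine (congrArg (· - g u * Real.cos (k * u / h)) e2).trans ?_
      simp only [add_zero, Pi.neg_apply]
      field_simp
      ring
    have b1 := hg.bd 1 (by norm_num) u
    have b2 := hg.bd 2 (by norm_num) u
    have b3 : h ^ 2 * (K / L ^ 2 * 1) ≤ K * h / L := by
      calc _ = K * h / L * (h / L) := by field_simp
        _ ≤ K * h / L * 1 := by gcongr; exact (div_le_one hL0).2 hL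
        _ = _ := mul_one _
    rw [e3]
    calc _ ≤ 2 * |h / k| * (|iteratedDeriv 1 g u| * |Real.sin (k * u / h)|) +
          |h / k| ^ 2 * (|iteratedDeriv 2 g u| * |Real.cos (k * u / h)|) := by
          refine (abs_sub _ _).trans (le_of_eq ?_)
          simp only [abs_mul, abs_pow, abs_two]
      _ ≤ 2 * h * (K / L ^ 1 * 1) + h ^ 2 * (K / L ^ 2 * 1) := by
          gcongr
          · exact Real.abs_sin_le_one _
          · exact Real.abs_cos_le_one _
      _ ≤ 2 * h * (K / L ^ 1 * 1) + K * h / L := by gcongr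
      _ = _ := by ring

end Wave

open Wave in
theorem wave_stmt : WaveStmt := by
  obtain ⟨K, K1, hK⟩ := exists_cut
  refine ⟨36 * (8 * K + 36), by linarith, fun n act Ln L h om hn hh hL hom => ?_⟩
  have hL0 : 0 < L := hh.trans_le hL
  have fin : ∀ s t : ℝ, 0 ≤ s → 0 ≤ t → 8 * K * s + 36 * t ≤ (8 * K + 36) * (s + t) :=
    fun s t hs ht => by nlinarith
  have hnorm : ∀ x, ‖n x * om‖ = 1 := fun x => by rw [norm_mul, hn.one, hom, one_mul]
  refine ⟨fun j hj => ⟨fun x => ?_, fun x x' => ?_, fun d d' η x v hη hv hd => ?_,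
    fun c p hp => ?_, fun x hx => ?_⟩, fun x0 ρ η hρ hη => ⟨fun j => amp n act L j x0,
      fun j => ph n L h om j x0, fun j => amp_le x0, fun p hp => ?_, fun ha => ?_,
      fun ha j => ?_⟩⟩
  · rw [wave_eq, abs_mul]
    exact mul_le_one₀ (amp_le x) (abs_nonneg _) (Real.abs_cos_le_one _)
  · rw [wave_eq x']
    refine (cmp hK hn hL0 x' x (E := 36 * (‖x - x'‖ / h)) (by positivity) fun c _ hc => ?_).trans ?_
    · have e : ph n L h om j x' = pha n L h om j c x' := glue_eq (cen_sep' hL0 j) hc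
      have e2 := pha_sub (n := n) (L := L) (h := h) (om := om) (j := j) c x' (x - x')
      rw [add_sub_cancel] at e2
      rw [e, e2]
      exact abs_freq hj hh ((abs_ip_le _ _).trans (by rw [hnorm, mul_one]))
    · calc _ ≤ 8 * K / h * ‖x - x'‖ + 36 * (‖x - x'‖ / h) := by gcongr
        _ = 1 * (8 * K + 36) / h * ‖x - x'‖ := by ring
        _ ≤ _ := by gcongr; norm_num
  · have η0 : 0 ≤ η := le_trans (by have := hn.n0; positivity) hη
    have d0 : 0 ≤ d := (norm_nonneg _).trans hv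
    have d1 : 0 ≤ d' := (abs_nonneg _).trans hd
    rw [wave_eq x]
    refine (cmp hK hn hL0 x (x + v) (E := 36 * ((d' + η * d) / h)) (by positivity)
      fun c _ hc => ?_).trans ?_
    · have e : ph n L h om j x = pha n L h om j c x := glue_eq (cen_sep' hL0 j) hc
      rw [e, pha_sub]
      refine abs_freq hj hh ?_
      have e2 : ip v (n (cen (L / 2) j c) * om) =
          ip v (n x * om) - ip v ((n x - n (cen (L / 2) j c)) * om) := by
        rw [← ip_sub_right]; congr 1; ring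
      rw [e2]
      refine (abs_sub _ _).trans (add_le_add hd ((abs_ip_le _ _).trans ?_))
      rw [norm_mul, hom, mul_one, mul_comm]
      exact mul_le_mul (frame_near hn hη hL0 hc) hv (norm_nonneg _) η0
    · rw [add_sub_cancel_left]
      calc _ ≤ 8 * K / L * d + 36 * ((d' + η * d) / h) := by gcongr
        _ = 8 * K * (d / L) + 36 * ((d' + η * d) / h) := by ring
        _ ≤ 1 * (8 * K + 36) * (d / L + (d' + η * d) / h) := by
          rw [one_mul]; exact fin _ _ (by positivity) (by positivity)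
        _ ≤ _ := by gcongr; norm_num
  · have e := glue_eq (φ := fun c x => wv (act (cen (L / 2) j c)) L h om j
      (chi' (cen (L / 2) j c) (n (cen (L / 2) j c)) x)) (cen_sep' hL0 j) (c := c)
      (x := ch (cen (L / 2) j c) (n (cen (L / 2) j c)) p) (by rwa [norm_ch_sub _ (hn.one _)])
    rw [chi'_ch _ (hn.one _)] at e
    exact e
  · have e : amp n act L j x = 0 := by
      rcases glue_cases (cen (L / 2) j) L x with ⟨c, hc⟩ | hc
      · refine (glue_eq (cen_sep' hL0 j) hc).trans ?_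
        by_cases k : ‖x - cen (L / 2) j c‖ < 29 / 20 * L
        · exact if_neg (hx c k)
        · exact cel_zero hn hL0 c x (not_lt.1 k)
      · exact glue_zero (cel_zero hn hL0) fun c => le_trans (by linarith) (hc c)
    rw [wave_eq, e, zero_mul]
  · have η0 : 0 ≤ η := le_trans (by have := hn.n0; positivity) hη
    rw [← Finset.sum_sub_distrib]
    refine (Finset.abs_sum_le_sum_abs _ _).trans ((Finset.sum_le_card_nsmul _ _
      ((8 * K + 36) * (ρ / L + η * ρ / h)) fun j hj => ?_).trans (le_of_eq (by simp; ring)))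
    refine (cmp hK hn hL0 x0 _ (E := 36 * (η * ρ / h)) (by positivity) fun c _ hc => ?_).trans ?_
    · have e : ph n L h om j x0 = pha n L h om j c x0 := glue_eq (cen_sep' hL0 j) hc
      have e1 := pha_sub (n := n) (L := L) (h := h) (om := om) (j := j) c x0 (n x0 * p)
      set m := n (cen (L / 2) j c) with hm
      have e2 : ip (m * p) (m * om) = ip p om := by
        have := normsq m
        rw [hm, hn.one, ← hm] at this
        simp only [ip, mul_re, mul_im]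
        linear_combination (-(p.re * om.re + p.im * om.im)) * this
      have e3 : pha n L h om j c (ch x0 (n x0) p) - ((j + 1) * ip p om / h + pha n L h om j c x0) =
          (j + 1) * ip ((n x0 - m) * p) (m * om) / h := by
        rw [sub_mul, ip_sub_left, e2, mul_sub, sub_div, ← e1, ch]; ring
      simp only [e, e3]
      refine abs_freq (Finset.mem_range.1 hj) hh ((abs_ip_le _ _).trans ?_)
      rw [hnorm, mul_one, norm_mul]
      exact mul_le_mul (frame_near hn hη hL0 hc) hp (norm_nonneg _) η0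
    · rw [norm_ch_sub _ (hn.one _)]
      calc _ ≤ 8 * K / L * ρ + 36 * (η * ρ / h) := by gcongr
        _ = 8 * K * (ρ / L) + 36 * (η * ρ / h) := by ring
        _ ≤ _ := fin _ _ (by positivity) (by positivity)
  · obtain ⟨j, hj, c, hc⟩ := cen_cover (half_pos hL0) x0
    have e : amp n act L j x0 = 1 := by
      refine (glue_eq (cen_sep' hL0 j) (c := c) (by linarith)).trans ?_
      have key : ∀ t : ℝ, |t| ≤ ‖x0 - cen (L / 2) j c‖ → cut (t / L) = 1 := fun t ht =>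
        cut_one (by rw [abs_div, abs_of_pos hL0, div_le_iff₀ hL0]; linarith)
      rw [← norm_chi' _ (hn.one (cen (L / 2) j c))] at key
      rw [cel, if_pos (ha _ (by rw [norm_sub_rev]; linarith)), key _ (abs_re_le_norm _),
        key _ (abs_im_le_norm _), one_mul]
    calc (1 : ℝ) = amp n act L j x0 ^ 2 := by rw [e, one_pow]
      _ ≤ _ := Finset.single_le_sum (f := fun j => amp n act L j x0 ^ 2)
        (fun _ _ => sq_nonneg _) (Finset.mem_range.2 hj)
  · rcases glue_cases (cen (L / 2) j) L x0 with ⟨c, hc⟩ | hc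
    · exact (glue_eq (cen_sep' hL0 j) hc).trans
        (if_neg (ha _ (by rw [norm_sub_rev]; linarith)))
    · exact glue_zero (cel_zero hn hL0) fun c => le_trans (by linarith) (hc c)

open Wave in
theorem trig : TrigStmt := by
  obtain ⟨K, K1, hK⟩ := exists_cut
  refine ⟨36 * 36 * 72 ^ 4 * K, by linarith, fun h hh => ⟨fun a φ ha => ?_, fun L j hL hj => ?_⟩⟩
  · obtain ⟨P, h1, h2⟩ := trig1 hh a φ ha
    exact ⟨P, h1.mono (by nlinarith) hh le_rfl, h2⟩
  · obtain ⟨E, h1, h2, h3⟩ := trig2 hK hh hL hj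
    have hL0 : 0 < L := hh.trans_le hL
    refine ⟨E, h1.mono (by nlinarith [mul_pos (pow_pos hh 2) (by linarith : 0 < K)]) hh le_rfl, h2,
      fun u => (h3 u).trans ?_⟩
    gcongr
    norm_num

end
end Pool.Agent.MP_20bec2_an.Pl

end MrgPart2

-- ======== part 3: formerly Pool.Agent.MP_20bec2_an.Pl.Core
section MrgPart3

set_option autoImplicit false
open MeasureTheory Set Complex Filter Topology

namespace Pool.Agent.MP_20bec2_an.Pl
noncomputable section

namespace CoreX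

/-- the first group of cycle `i` -/
def Gs (n q0 : ℕ) : ℕ → ℕ
  | 0 => 0
  | i + 1 => Gs n q0 i + (q0 + i) * ((q0 + i) ^ (4 * n) + 1)

lemma Gs_strict (n : ℕ) {q0 : ℕ} (hq : 1 ≤ q0) : StrictMono (Gs n q0) := by
  apply strictMono_nat_of_lt_succ
  intro i
  have : 0 < (q0 + i) * ((q0 + i) ^ (4 * n) + 1) := Nat.mul_pos (by omega) (by omega)
  simp only [Gs]; omega

/-- the cycle that contains group `g` -/
def idx (n q0 g : ℕ) : ℕ := Nat.findGreatest (fun i => Gs n q0 i ≤ g) g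

lemma idx_spec (n : ℕ) {q0 : ℕ} (hq : 1 ≤ q0) (g : ℕ) :
    Gs n q0 (idx n q0 g) ≤ g ∧ g < Gs n q0 (idx n q0 g + 1) := by
  refine ⟨Nat.findGreatest_spec (P := fun i => Gs n q0 i ≤ g) (Nat.zero_le g)
    (by simp [Gs]), ?_⟩
  by_contra hc
  push Not at hc
  exact Nat.findGreatest_is_greatest (P := fun i => Gs n q0 i ≤ g) (Nat.lt_succ_self _)
    (((Gs_strict n hq).le_apply).trans hc) hc

lemma idx_eq (n : ℕ) {q0 : ℕ} (hq : 1 ≤ q0) {g i : ℕ} (h1 : Gs n q0 i ≤ g)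
    (h2 : g < Gs n q0 (i + 1)) : idx n q0 g = i := by
  have k := idx_spec n hq g
  have a := (Gs_strict n hq).lt_iff_lt.1 (k.1.trans_lt h2)
  have b := (Gs_strict n hq).lt_iff_lt.1 (h1.trans_lt k.2)
  omega

lemma idx_succ (n : ℕ) {q0 : ℕ} (hq : 1 ≤ q0) (g : ℕ) :
    idx n q0 g ≤ idx n q0 (g + 1) ∧ idx n q0 (g + 1) ≤ idx n q0 g + 1 := by
  have k := idx_spec n hq g
  by_cases h : g + 1 < Gs n q0 (idx n q0 g + 1)
  · rw [idx_eq n hq (k.1.trans (Nat.le_succ g)) h]; omega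
  · have := Gs_strict n hq (Nat.lt_succ_self (idx n q0 g + 1))
    rw [idx_eq n hq (g := g + 1) (i := idx n q0 g + 1) (by omega)
      (by simp only [Nat.succ_eq_add_one] at this; omega)]
    omega

lemma Gs_le (n : ℕ) {q0 : ℕ} (hq : 1 ≤ q0) (i : ℕ) :
    Gs n q0 (i + 1) ≤ 2 * (q0 + i) ^ (4 * n + 2) := by
  have h1 : ∀ i, Gs n q0 (i + 1) ≤ (i + 1) * ((q0 + i) * ((q0 + i) ^ (4 * n) + 1)) := by
    intro i
    induction i with
    | zero => simp [Gs]
    | succ i ih =>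
      have : (q0 + i) * ((q0 + i) ^ (4 * n) + 1) ≤
          (q0 + (i + 1)) * ((q0 + (i + 1)) ^ (4 * n) + 1) := by gcongr <;> omega
      have h2 := Nat.mul_le_mul_left (i + 1) this
      rw [Gs]
      nlinarith
  have h2 : 1 ≤ (q0 + i) ^ (4 * n) := Nat.one_le_pow _ _ (by omega)
  calc Gs n q0 (i + 1) ≤ (i + 1) * ((q0 + i) * ((q0 + i) ^ (4 * n) + 1)) := h1 i
    _ ≤ (q0 + i) * ((q0 + i) * ((q0 + i) ^ (4 * n) + (q0 + i) ^ (4 * n))) :=
        Nat.mul_le_mul (by omega) (Nat.mul_le_mul_left _ (by omega))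
    _ = _ := by ring

lemma le_Gs (n q0 i : ℕ) : (q0 + i) ^ (4 * n + 1) ≤ Gs n q0 (i + 1) := by
  rw [Gs, pow_succ]
  nlinarith [Nat.zero_le (Gs n q0 i)]

lemma ratio (n : ℕ) {q γ : ℝ} (hq : 0 < q) (hγ : 0 < γ) (g : ℕ) :
    q ^ 2 * (1 / γ ^ g) / ((q ^ n) ^ 8 * q ^ 26 * (1 / γ ^ g)) = 1 / (q ^ (4 * n + 2)) ^ 2 / q ^ 20 := by
  field_simp
  ring

lemma dens (h3 : DensStmt) {γ ε : ℝ} (hγ : 2 ≤ γ) (hε : ε ≤ 1 / 100) (n : ℕ) :
    ∃ Q1 : ℕ, ∀ q0 ≥ Q1, ∀ ρ : ℂ → ℝ, UniformContinuous ρ → Nr (ε / 2) ρ →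
      ∃ r : ℕ → ℂ → ℝ, (∀ t, Nr ε (r t)) ∧ (∀ t, ContDiff ℝ 1 (r t)) ∧
        TendstoUniformly r ρ atTop ∧ ∀ i, ∀ k ≤ (q0 + i) ^ (4 * n),
          Dens (fun t => r (36 * Gs n q0 i + (36 * (q0 + i) * k + t))) (q0 + i)
            (((q0 + i : ℕ) : ℝ) ^ n) γ (1 / γ ^ Gs n q0 i / γ ^ ((q0 + i) * k)) ε := by
  obtain ⟨C, c0, hC, hc0, H⟩ := h3
  have hs : Summable (fun g : ℕ => 1 / ((g : ℝ) + 1) ^ 2) := by
    have := (summable_nat_add_iff 1).2 (Real.summable_one_div_nat_pow.2 (show 1 < 2 by norm_num))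
    simpa using this
  set S0 := ∑' g : ℕ, 1 / ((g : ℝ) + 1) ^ 2 with hS0
  have hS : 0 ≤ S0 := tsum_nonneg fun g => by positivity
  obtain ⟨Q1, hQ1⟩ := exists_nat_ge (5 + C * γ ^ 2 + γ / c0 + 4 * S0 / c0)
  refine ⟨Q1, fun q0 hq0 ρ hu hρ => ?_⟩
  have g0 : 0 < γ := by linarith
  have a0 : (Q1 : ℝ) ≤ q0 := by exact_mod_cast hq0
  have p1 : 0 ≤ C * γ ^ 2 := by positivity
  have p2 : 0 ≤ γ / c0 := by positivity
  have p3 : 0 ≤ 4 * S0 / c0 := by positivity
  have a1 : (5 : ℝ) ≤ q0 := by linarith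
  have a2 : C * γ ^ 2 ≤ q0 := by linarith
  have a3 : γ / c0 ≤ q0 := by linarith
  have a4 : 4 * S0 / c0 ≤ q0 := by linarith
  have hq : 1 ≤ q0 := by exact_mod_cast (show (1 : ℝ) ≤ q0 by linarith)
  set qf : ℕ → ℝ := fun g => ((q0 + idx n q0 g : ℕ) : ℝ) with hqf
  have b1 : ∀ g, (q0 : ℝ) ≤ qf g := fun g => by simp [hqf]
  have b2 : ∀ g, qf g ≤ qf (g + 1) ∧ qf (g + 1) ≤ qf g + 1 := fun g => by
    have := idx_succ n hq g
    simp only [hqf]
    constructor
    · exact_mod_cast (by omega)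
    · exact_mod_cast (by omega)
  have b3 : ∀ g, 0 < qf g := fun g => by linarith [b1 g]
  set W : ℕ → ℝ := fun g => qf g ^ 2 * (1 / γ ^ g) with hW
  set L : ℕ → ℝ := fun g => (qf g ^ n) ^ 8 * qf g ^ 26 * (1 / γ ^ g) with hL
  have w0 : ∀ g, 0 < W g := fun g => by have := b3 g; simp only [hW]; positivity
  have l0 : ∀ g, 0 < L g := fun g => by have := b3 g; simp only [hL]; positivity
  have w1 : ∀ g, W (g + 1) ≤ 3 / 4 * W g := fun g => by
    have k1 := b1 g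
    have k2 := b2 g
    have k3 : qf (g + 1) ^ 2 ≤ 3 / 2 * qf g ^ 2 := by nlinarith [b3 (g + 1)]
    have k4 : 1 / γ ^ (g + 1) ≤ 1 / 2 * (1 / γ ^ g) := by
      rw [pow_succ, div_mul_div_comm, one_mul]
      apply one_div_le_one_div_of_le (by positivity)
      rw [mul_comm]; gcongr
    calc W (g + 1) ≤ (3 / 2 * qf g ^ 2) * (1 / 2 * (1 / γ ^ g)) := by
          simp only [hW]; gcongr
      _ = _ := by simp only [hW]; ring
  have w2 : ∀ g, W g ≤ γ * W (g + 1) := fun g => by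
    have : γ * W (g + 1) = qf (g + 1) ^ 2 * (1 / γ ^ g) := by
      simp only [hW]; field_simp; ring
    rw [this]; simp only [hW]
    have := (b2 g).1
    have := b3 g
    gcongr
  have w3 : ∀ g : ℕ, W g / L g ≤ 4 / q0 * (1 / ((g : ℝ) + 1) ^ 2) ∧ W g / L g ≤ 1 / q0 := fun g => by
    have k1 := b1 g
    have k0 := b3 g
    have k2 : (g : ℝ) + 1 ≤ 2 * qf g ^ (4 * n + 2) := by
      have := (idx_spec n hq g).2.trans_le (Gs_le n hq _)
      simp only [hqf]; exact_mod_cast this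
    have k3 : 1 ≤ qf g ^ (4 * n + 2) := one_le_pow₀ (by linarith)
    have k4 : (q0 : ℝ) ≤ qf g ^ 20 :=
      k1.trans (le_self_pow₀ (by linarith) (by norm_num))
    have k5 : W g / L g = 1 / (qf g ^ (4 * n + 2)) ^ 2 / qf g ^ 20 := ratio n k0 g0 g
    have k6 : 1 / (qf g ^ (4 * n + 2)) ^ 2 ≤ 4 * (1 / ((g : ℝ) + 1) ^ 2) := by
      rw [mul_one_div, div_le_div_iff₀ (by positivity) (by positivity)]
      nlinarith [show (0 : ℝ) ≤ g + 1 by positivity]
    have k7 : 1 / (qf g ^ (4 * n + 2)) ^ 2 ≤ 1 := by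
      rw [div_le_one (by positivity)]; nlinarith
    rw [k5]
    constructor
    · calc _ ≤ 4 * (1 / ((g : ℝ) + 1) ^ 2) / q0 := by gcongr
        _ = _ := by ring
    · gcongr
  have s1 : Summable W := by
    apply summable_of_ratio_norm_eventually_le (r := 3 / 4) (by norm_num)
    refine Eventually.of_forall fun g => ?_
    rw [Real.norm_of_nonneg (w0 _).le, Real.norm_of_nonneg (w0 _).le]
    exact w1 g
  have s2 : Summable (fun g => W g / L g) :=
    Summable.of_nonneg_of_le (fun g => (div_pos (w0 g) (l0 g)).le) (fun g => (w3 g).1)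
      (hs.mul_left _)
  have s3 : ∑' g, W g / L g ≤ c0 := by
    calc ∑' g, W g / L g ≤ ∑' g : ℕ, 4 / q0 * (1 / ((g : ℝ) + 1) ^ 2) :=
          s2.tsum_le_tsum (fun g => (w3 g).1) (hs.mul_left _)
      _ = 4 / q0 * S0 := tsum_mul_left
      _ ≤ c0 := by
          rw [div_le_iff₀ hc0] at a4
          rw [div_mul_eq_mul_div, div_le_iff₀ (by linarith)]
          linarith
  obtain ⟨r, r1, r2, r3, r4⟩ := H ρ (ε / 2) γ W L hu hρ (by linarith) (by linarith)
    (fun g => ⟨w0 g, l0 g, by linarith [w1 g, w0 g], w2 g, by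
      rw [mul_div_assoc]
      rw [div_le_iff₀ hc0] at a3
      calc γ * (W g / L g) ≤ γ * (1 / q0) := mul_le_mul_of_nonneg_left (w3 g).2 g0.le
        _ ≤ c0 := by rw [mul_one_div, div_le_iff₀ (by linarith)]; linarith⟩) s1 s2 s3
  have r2' : ∀ t, Nr ε (r t) := fun t => by
    have := r2 t
    rwa [show 2 * (ε / 2) = ε by ring] at this
  have r5 : ∀ g t, 36 * g ≤ t → t ≤ 36 * (g + 1) → Dh (r t) 2 (1 / qf g) (1 / γ ^ g) := by
    intro g t h1 h2
    have k0 := b3 g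
    have k1 := b1 g
    have k2 : W g / γ ≤ W (g + 1) := by rw [div_le_iff₀ g0, mul_comm]; exact w2 g
    have k3 : 0 < W g / γ := div_pos (w0 g) g0
    have k4 : C * γ ≤ C * γ ^ 2 := by
      have : γ ≤ γ ^ 2 := by nlinarith
      gcongr
    refine (r3 g t h1 h2).mono le_rfl ?_ ?_
    · calc C / W (g + 1) ≤ C / (W g / γ) := by gcongr
        _ = C * γ / qf g * (1 / qf g / (1 / γ ^ g)) := by simp only [hW]; field_simp
        _ ≤ 1 * (1 / qf g / (1 / γ ^ g)) := by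
            gcongr; rw [div_le_one k0]; linarith
        _ = _ := one_mul _
    · calc C / W (g + 1) ^ 2 ≤ C / (W g / γ) ^ 2 := by gcongr
        _ = C * γ ^ 2 / qf g ^ 3 * (1 / qf g / (1 / γ ^ g) ^ 2) := by simp only [hW]; field_simp
        _ ≤ 1 * (1 / qf g / (1 / γ ^ g) ^ 2) := by
            gcongr
            rw [div_le_one (by positivity)]
            exact (a2.trans k1).trans (le_self_pow₀ (by linarith) (by norm_num))
        _ = _ := one_mul _
  refine ⟨r, r2', fun t => (r3 (t / 36) t (by omega) (by omega)).toL2.contDiff, r4,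
    fun i k hk => ⟨fun t _ => r2' _, fun t ht => ?_⟩⟩
  set g := Gs n q0 i + ((q0 + i) * k + t / 36) with hg
  have e1 : 36 * Gs n q0 i + (36 * (q0 + i) * k + t) = 36 * (Gs n q0 i + (q0 + i) * k) + t := by
    ring
  have e2 : (36 * Gs n q0 i + (36 * (q0 + i) * k + t)) / 36 = g := by rw [e1]; omega
  have e3 : (36 * Gs n q0 i + (36 * (q0 + i) * k + t)) % 36 = t % 36 := by rw [e1]; omega
  have e4 : idx n q0 g = i := by
    apply idx_eq n hq (by omega)
    have := Nat.mul_le_mul_left (q0 + i) hk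
    rw [Gs, mul_add, mul_one]
    omega
  have e5 : qf g = ((q0 + i : ℕ) : ℝ) := by simp only [hqf, e4]
  have e6 : 1 / γ ^ Gs n q0 i / γ ^ ((q0 + i) * k) / γ ^ (t / 36) = 1 / γ ^ g := by
    rw [hg, pow_add, pow_add]; field_simp
  rw [e6, ← e5]
  refine ⟨?_, r5 g _ (by omega) (by omega), r5 g _ (by omega) (by omega)⟩
  have := r1 (36 * Gs n q0 i + (36 * (q0 + i) * k + t))
  rw [e2, e3] at this
  exact this

lemma lamq_eq (n q : ℕ) : lamq n q = (q : ℝ) ^ (3 * n + 12) := by unfold lamq; ring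

/-- the diagonal map -/
def diag (a b : ℝ) : ℂ →L[ℝ] ℂ := (a • reCLM).smulRight 1 + (b • imCLM).smulRight I

lemma diag_re (a b : ℝ) (z : ℂ) : (diag a b z).re = a * z.re := by simp [diag]
lemma diag_im (a b : ℝ) (z : ℂ) : (diag a b z).im = b * z.im := by simp [diag]

lemma diag_inv {a : ℝ} (ha : a ≠ 0) (z : ℂ) :
    diag a⁻¹ a (diag a a⁻¹ z) = z ∧ diag a a⁻¹ (diag a⁻¹ a z) = z := by
  constructor <;> apply Complex.ext <;> simp only [diag_re, diag_im] <;> field_simp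

lemma init (n : ℕ) {q : ℕ} (hq : 1 ≤ q) {M h ε : ℝ} (hM : 1 ≤ M) (hh : 0 < h) {r0 : ℂ → ℝ}
    (hr : ContDiff ℝ 1 r0) (hn : Nr ε r0) : ∃ (w : ℂ → ℝ) (f : ℂ → ℂ), ContDiff ℝ 1 w ∧ Nr ε w ∧
      Cy n q M w f id (fun _ => 1) r0 h := by
  have q0 : (0 : ℝ) < q := by exact_mod_cast hq
  have l0 : 0 < lamq n q := by unfold lamq; positivity
  set Λ := lamq n q with hΛ
  have d1 : ∀ z, fderiv ℝ (diag Λ Λ⁻¹) z = diag Λ Λ⁻¹ := fun z => (diag Λ Λ⁻¹).fderiv
  have d2 : ∀ z : ℂ, fderiv ℝ (id : ℂ → ℂ) z - 1 = 0 := fun z => by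
    rw [fderiv_id]; exact sub_self _
  have v1 : ∀ z, V1 (diag Λ Λ⁻¹) (fun _ => 1) z = (Λ : ℂ) := fun z => by
    unfold V1; rw [d1]; apply Complex.ext <;> simp [diag_re, diag_im]
  have v2 : ∀ z, Phi (diag Λ Λ⁻¹) (fun _ => 1) z = 0 := fun z => by
    unfold Phi; rw [v1]; unfold V2; rw [d1]; simp [ip, diag_re]
  have j1 : ∀ z : ℂ, jac id z = 1 := fun z => by simp [jac, wd]
  have j2 : ∀ z : ℂ, jac (diag Λ Λ⁻¹) z = 1 := fun z => by
    unfold jac wd; rw [d1]; simp only [diag_re, diag_im]; simp; field_simp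
  have n1 : ∀ z, NN (diag Λ Λ⁻¹) id (fun _ => 1) z = Λ := fun z => by
    unfold NN; rw [v1, j1]; simp [V2, abs_of_pos l0]
  refine ⟨fun y => r0 (diag Λ⁻¹ Λ y), diag Λ Λ⁻¹, hr.comp (diag Λ⁻¹ Λ).contDiff, fun y => hn _,
    ⟨⟨?_, (diag Λ Λ⁻¹).differentiable, fun z z' ζ => ?_, differentiable_id, ?_, fun z => ?_⟩,
      ⟨by positivity, by simp, fun z z' => ?_⟩, fun z => ?_, fun z => ?_, fun z z' _ => ⟨?_, ?_⟩,
      fun z => ?_⟩⟩
  · exact isHomeomorph_iff_exists_inverse.2 ⟨(diag Λ Λ⁻¹).continuous, diag Λ⁻¹ Λ,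
      fun z => (diag_inv l0.ne' z).1, fun z => (diag_inv l0.ne' z).2, (diag Λ⁻¹ Λ).continuous⟩
  · rw [d1, d1, sub_self, norm_zero]; positivity
  · simp only [d2]
    exact (D2.const (X := ℂ) (0 : ℂ →L[ℝ] ℂ)).mono (by simp) (by positivity) (by positivity)
  · rw [j1, j2, (diag_inv l0.ne' z).1]; simp
  · rw [sub_self, norm_zero]; positivity
  · rw [d2, norm_zero]; positivity
  · rw [v2, abs_zero]; positivity
  · rw [v2, v2, sub_self, abs_zero]; positivity
  · rw [v1, v1]; exact le_mul_of_one_le_left (norm_nonneg _) (le_add_of_nonneg_right (by positivity))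
  · rw [n1]; constructor <;> linarith

lemma cy_bound (h1 : NormStmt) {n q : ℕ} (hq : 5 ≤ q) {M h ε : ℝ} {w r : ℂ → ℝ} {f Y fr : ℂ → ℂ}
    (H : Cy n q M w f Y fr r h) (hε : ε ≤ 1 / 100) (hw : Nr ε w) (hr : Nr ε r) (z : ℂ) :
    ‖fderiv ℝ f z‖ ≤ 50 * lamq n q := by
  have q5 : (5 : ℝ) ≤ q := by exact_mod_cast hq
  have a1 : (q : ℝ) ≤ lamq n q := by
    rw [lamq_eq]; exact le_self_pow₀ (by linarith) (by omega)
  have a2 : (25 : ℝ) ≤ q ^ 2 := by nlinarith
  have a3 : (10 : ℝ) ≤ ((q : ℝ) ^ n) ^ 8 * (q : ℝ) ^ 26 := by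
    have k1 : (1 : ℝ) ≤ ((q : ℝ) ^ n) ^ 8 := one_le_pow₀ (one_le_pow₀ (by linarith))
    have k2 : (q : ℝ) ^ 2 ≤ (q : ℝ) ^ 26 := pow_le_pow_right₀ (by linarith) (by norm_num)
    nlinarith
  have := (h1 w r r 0 0 0 f Y fr f Y id _ _ _ _ _ _ _ _ _ _ _ _ _ _ 0 0 0 0 0 0 ε 0 0 0 H H.core
    (Run.refl fr f Y) (by linarith) hw hr hr (by simp) zero_le_one zero_le_one (by simp)
    (one_div_le_one_div_of_le (by norm_num) a3) (by positivity) (by linarith)
    (by rw [add_zero, add_zero]; exact one_div_le_one_div_of_le (by norm_num) (by linarith)) z).1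
  linarith

lemma half (n : ℕ) {q : ℕ} {γ : ℝ} (hγ : 2 ≤ γ) (hq : 15 * n + 61 ≤ q) :
    2 * lamq n (q + 1) ^ 5 ≤ lamq n q ^ 5 * γ ^ (q * (q ^ (4 * n) + 1)) := by
  have q1 : (1 : ℝ) ≤ q := by exact_mod_cast (show 1 ≤ q by omega)
  rw [lamq_eq, lamq_eq, ← pow_mul, ← pow_mul]
  have k1 : ((q + 1 : ℕ) : ℝ) ^ ((3 * n + 12) * 5) ≤ (q * 2) ^ ((3 * n + 12) * 5) := by
    gcongr; push_cast; linarith
  have k2 : (2 : ℝ) ^ ((3 * n + 12) * 5 + 1) ≤ γ ^ (q * (q ^ (4 * n) + 1)) :=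
    (pow_le_pow_right₀ (by norm_num) (by nlinarith [Nat.zero_le (q * q ^ (4 * n))])).trans
      (pow_le_pow_left₀ (by norm_num) hγ _)
  rw [mul_pow] at k1
  rw [pow_succ] at k2
  have k3 : (0 : ℝ) ≤ (q : ℝ) ^ ((3 * n + 12) * 5) := by positivity
  nlinarith [mul_le_mul_of_nonneg_left k2 k3]

lemma logb {n q G : ℕ} {γ : ℝ} (hn : 1 ≤ n) (hγ : 2 ≤ γ) (hq : 60 * n + 248 ≤ q)
    (hG : q ^ (4 * n + 1) ≤ G) :
    (q : ℝ) ^ (4 * n + 1) / 4 ≤ Real.log (1 / (4 * lamq n (q + 1) ^ 5 * (1 / γ ^ G))) := by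
  have q1 : (1 : ℝ) ≤ q := by exact_mod_cast (show 1 ≤ q by omega)
  have q2 : (60 * n + 248 : ℝ) ≤ q := by exact_mod_cast hq
  have g0 : 0 < γ := by linarith
  have hG' : (q : ℝ) ^ (4 * n + 1) ≤ G := by exact_mod_cast hG
  have l0 : 0 < lamq n (q + 1) := by unfold lamq; positivity
  have e : 1 / (4 * lamq n (q + 1) ^ 5 * (1 / γ ^ G)) = γ ^ G / (4 * lamq n (q + 1) ^ 5) := by
    field_simp
  rw [e, Real.log_div (by positivity) (by positivity), Real.log_mul (by norm_num) (by positivity),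
    Real.log_pow, Real.log_pow, lamq_eq, Real.log_pow]
  have k1 : 1 / 2 ≤ Real.log γ := by
    have := Real.log_two_gt_d9
    have := Real.log_le_log (by norm_num) hγ
    linarith
  have k2 : Real.log 4 ≤ 2 := by
    have := Real.log_two_lt_d9
    rw [show (4 : ℝ) = 2 ^ 2 by norm_num, Real.log_pow]; push_cast; linarith
  have k3 : Real.log ((q + 1 : ℕ) : ℝ) ≤ q := by
    have := Real.log_le_sub_one_of_pos (show (0 : ℝ) < ((q + 1 : ℕ) : ℝ) by positivity)
    push_cast at this ⊢; linarith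
  have k4 : (q : ℝ) * q ≤ (q : ℝ) ^ (4 * n + 1) := by
    rw [← sq]; exact pow_le_pow_right₀ q1 (by omega)
  have k5 : (G : ℝ) * (1 / 2) ≤ G * Real.log γ := by gcongr
  have k6 : ((3 * n + 12 : ℕ) : ℝ) * Real.log ((q + 1 : ℕ) : ℝ) ≤ (3 * n + 12) * q := by
    push_cast at k3 ⊢; gcongr
  have k7 : (60 * n + 248 : ℝ) * q ≤ q * q := by gcongr
  push_cast at k6 ⊢
  nlinarith

lemma growth {n q : ℕ} {β u : ℝ} (hβ : 0 < β) (hn : (3 * n + 12 : ℝ) ≤ (4 * n + 1) * β)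
    (hq : 2 ≤ q) (hu : (q : ℝ) ^ (4 * n + 1) / 4 ≤ u) :
    3 * (50 * lamq n (q + 2)) ≤ (150 * 2 ^ (3 * n + 12) * 4 ^ β + 2) * u ^ β := by
  have q2 : (2 : ℝ) ≤ q := by exact_mod_cast hq
  have k1 : lamq n (q + 2) ≤ 2 ^ (3 * n + 12) * (q : ℝ) ^ (3 * n + 12) := by
    rw [lamq_eq, ← mul_pow]; gcongr; push_cast; linarith
  have k2 : (q : ℝ) ^ (3 * n + 12) ≤ ((q : ℝ) ^ (4 * n + 1)) ^ β := by
    rw [← Real.rpow_natCast, ← Real.rpow_natCast, ← Real.rpow_mul (by linarith)]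
    apply Real.rpow_le_rpow_of_exponent_le (by linarith)
    push_cast; exact hn
  have u0 : 0 ≤ u := le_trans (by positivity) hu
  have k3 : ((q : ℝ) ^ (4 * n + 1)) ^ β ≤ 4 ^ β * u ^ β := by
    rw [← Real.mul_rpow (by norm_num) u0]
    exact Real.rpow_le_rpow (by positivity) (by linarith) hβ.le
  have k4 : 0 ≤ u ^ β := Real.rpow_nonneg u0 _
  have k5 := mul_le_mul_of_nonneg_left (k2.trans k3) (show (0 : ℝ) ≤ 2 ^ (3 * n + 12) by positivity)
  nlinarith

lemma exists_seq {α : Type*} {P : ℕ → α → Prop} {R : ℕ → α → α → Prop} {a0 : α} (h0 : P 0 a0)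
    (hs : ∀ i a, P i a → ∃ a', P (i + 1) a' ∧ R i a a') :
    ∃ s : ℕ → α, ∀ i, P i (s i) ∧ R i (s i) (s (i + 1)) := by
  choose nx h1 h2 using hs
  let t : ∀ i, {a // P i a} := fun i =>
    Nat.rec (motive := fun i => {a // P i a}) ⟨a0, h0⟩ (fun i a => ⟨nx i a.1 a.2, h1 i a.1 a.2⟩) i
  exact ⟨fun i => (t i).1, fun i => ⟨(t i).2, h2 i (t i).1 (t i).2⟩⟩

end CoreX

open CoreX in
theorem core_of (h1 : NormStmt) (h2 : CycleStmt) (h3 : DensStmt) (h4 : MapStmt)
    (h5 : LimitStmt) : CoreStmt := by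
  obtain ⟨M, γ, ε, hM, hγ, e0, e1, HC⟩ := h2
  refine ⟨ε / 2, by positivity, fun β hβ ρ hu hρ => ?_⟩
  obtain ⟨n0, hn0⟩ := exists_nat_ge (12 / (4 * β - 3))
  have hn : ((3 * (n0 + 1 : ℕ) + 12 : ℝ)) ≤ (4 * (n0 + 1 : ℕ) + 1) * β := by
    rw [div_le_iff₀ (by linarith)] at hn0
    push_cast; nlinarith
  set n := n0 + 1 with hnd
  have n1 : 1 ≤ n := by omega
  obtain ⟨Q0, HC⟩ := HC n n1
  obtain ⟨Q1, HD⟩ := dens h3 hγ e1 n
  set q0 := Q0 + Q1 + (60 * n + 248) with hq0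
  have g0 : 0 < γ := by linarith
  obtain ⟨r, r1, r2, r3, r4⟩ := HD q0 (by omega) ρ hu hρ
  obtain ⟨w, f0, w1, w2, c0⟩ := init n (q := q0) (by omega) hM one_pos (r2 0) (r1 0)
  obtain ⟨s, hs⟩ := exists_seq (α := (ℂ → ℂ) × (ℂ → ℂ) × (ℂ → ℂ))
    (P := fun i a => Cy n (q0 + i) M w a.1 a.2.1 a.2.2 (r (36 * Gs n q0 i)) (1 / γ ^ Gs n q0 i))
    (R := fun i a a' => Mv a.1 a.2.1 a'.1 a'.2.1 (2 * lamq n (q0 + i) ^ 5 * (1 / γ ^ Gs n q0 i)))
    (a0 := (f0, id, fun _ => 1)) (by simpa [Gs] using c0) (fun i a ha => by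
      obtain ⟨f', Y', fr', k1, k2⟩ := HC (q0 + i) (by omega) w (fun t => r (36 * Gs n q0 i + t))
        a.1 a.2.1 a.2.2 (1 / γ ^ Gs n q0 i) (by positivity) w2 (r4 i) ha
      refine ⟨(f', Y', fr'), ?_, k2⟩
      have e2 : 36 * Gs n q0 i + 36 * (q0 + i) * ((q0 + i) ^ (4 * n) + 1) =
          36 * Gs n q0 (i + 1) := by rw [Gs]; ring
      have e3 : 1 / γ ^ Gs n q0 i / γ ^ ((q0 + i) * ((q0 + i) ^ (4 * n) + 1)) =
          1 / γ ^ Gs n q0 (i + 1) := by rw [Gs, pow_add]; field_simp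
      simp only [e2, e3] at k1
      exact k1)
  have hmap := fun i => h4 w (r (36 * Gs n q0 i)) (s i).1 (s i).2.1 _ _ _ ε
    (50 * lamq n (q0 + i)) (hs i).1.core (by positivity)
    (by
      rw [div_le_one (Real.sqrt_pos.2 (by exact_mod_cast (show 0 < q0 + i by omega)))]
      exact Real.one_le_sqrt.2 (by exact_mod_cast (show 1 ≤ q0 + i by omega)))
    (by linarith) w2 (r1 _) w1.continuous (r2 _).continuous
    (cy_bound h1 (by omega) (hs i).1 e1 w2 (r1 _))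
  choose F G m1 m2 m3 m4 m5 m6 m7 m8 using hmap
  set S : ℕ → ℝ := fun i => 4 * lamq n (q0 + i) ^ 5 * (1 / γ ^ Gs n q0 i) with hS
  have l0 : ∀ i, 0 < lamq n (q0 + i) := fun i => by
    have : (0 : ℝ) < (q0 + i : ℕ) := by exact_mod_cast (show 0 < q0 + i by omega)
    unfold lamq; positivity
  have s0 : ∀ i, 0 < S i := fun i => by have := l0 i; simp only [hS]; positivity
  have s1 : ∀ i, S (i + 1) ≤ S i / 2 := fun i => by
    have k := half n (q := q0 + i) hγ (by omega)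
    have e : S i / 2 = 2 * (lamq n (q0 + i) ^ 5 * γ ^ ((q0 + i) * ((q0 + i) ^ (4 * n) + 1))) *
        (1 / γ ^ Gs n q0 (i + 1)) := by
      simp only [hS]; rw [Gs, pow_add]; field_simp; ring
    rw [e]
    simp only [hS]
    apply mul_le_mul_of_nonneg_right _ (by positivity)
    rw [← add_assoc]; linarith
  have s2 : Tendsto S atTop (𝓝 0) := by
    apply Summable.tendsto_atTop_zero
    apply summable_of_ratio_norm_eventually_le (r := 1 / 2) (by norm_num)
    refine Eventually.of_forall fun g => ?_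
    rw [Real.norm_of_nonneg (s0 _).le, Real.norm_of_nonneg (s0 _).le]
    linarith [s1 g]
  have s3 : ∀ j, ((q0 + j : ℕ) : ℝ) ^ (4 * n + 1) / 4 ≤ Real.log (1 / S (j + 1)) := fun j =>
    logb n1 hγ (by omega) (le_Gs n q0 j)
  have s4 : ∀ i x, ‖F (i + 1) x - F i x‖ ≤ S i - S (i + 1) ∧
      ‖G (i + 1) x - G i x‖ ≤ S i - S (i + 1) := fun i x => by
    have k0 : 2 * lamq n (q0 + i) ^ 5 * (1 / γ ^ Gs n q0 i) ≤ S i - S (i + 1) := by
      have := s1 i
      have e : S i = 2 * (2 * lamq n (q0 + i) ^ 5 * (1 / γ ^ Gs n q0 i)) := by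
        simp only [hS]; ring
      linarith
    constructor
    · obtain ⟨z, hz⟩ := m3 i x
      obtain ⟨z', hz'⟩ := m3 (i + 1) x
      have k := ((hs i).2 z z').1 (hz.trans hz'.symm)
      rw [← m1 i z, ← m1 (i + 1) z', hz, hz', norm_sub_rev] at k
      exact k.trans k0
    · obtain ⟨z, hz⟩ := (hs i).1.core.hom.surjective x
      obtain ⟨z', hz'⟩ := (hs (i + 1)).1.core.hom.surjective x
      have k := ((hs i).2 z z').2 (hz.trans hz'.symm)
      rw [← m2 i z, ← m2 (i + 1) z', hz, hz', norm_sub_rev] at k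
      exact k.trans k0
  have b0 : 0 < β := by linarith
  have K2 : (0 : ℝ) ≤ 150 * 2 ^ (3 * n + 12) * 4 ^ β := by positivity
  have w3 : ∀ y, 0 < w y := fun y => by have := (abs_le.1 (w2 y)).1; linarith
  obtain ⟨F', f1, f2, f3⟩ := h5 β (150 * 2 ^ (3 * n + 12) * 4 ^ β + 2) (fun j => F (j + 1))
    (fun j => G (j + 1)) (fun j => 3 * (50 * lamq n (q0 + (j + 1)))) (fun j => S (j + 1))
    (fun j => r (36 * Gs n q0 (j + 1))) ρ w b0 (by linarith)
    (fun j x => ⟨m4 _ x, m5 _ x⟩) (fun j x y => ⟨m6 _ x y, m7 _ x y⟩) (fun j x => s4 (j + 1) x)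
    (fun j => s0 _)
    (by
      have k := s3 0
      have k1 : (0 : ℝ) < ((q0 + 0 : ℕ) : ℝ) ^ (4 * n + 1) / 4 := by
        have : (0 : ℝ) < (q0 + 0 : ℕ) := by exact_mod_cast (show 0 < q0 + 0 by omega)
        positivity
      have k2 := (Real.log_pos_iff (one_div_pos.2 (s0 (0 + 1))).le).1 (k1.trans_le k)
      rwa [lt_div_iff₀ (s0 _), one_mul] at k2)
    ((tendsto_add_atTop_iff_nat 1).2 s2)
    (fun j => growth (q := q0 + j) b0 hn (by omega) (s3 j))
    (fun j => (r2 _).continuous) hu.continuous w1.continuous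
    (fun x => by have := abs_le.1 (hρ x); constructor <;> linarith [this.1, this.2])
    (fun y => (w3 y).le)
    (fun u hu' => by
      have : Tendsto (fun j => 36 * Gs n q0 (j + 1)) atTop atTop :=
        tendsto_atTop_mono (fun j => by
          have := (Gs_strict n (q0 := q0) (by omega)).le_apply (x := j + 1)
          show j ≤ _
          omega) tendsto_id
      exact this.eventually (r3 u hu'))
    (fun j => m8 _)
  exact ⟨F', w, w1, w3, f1, f2, f3⟩

end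
end Pool.Agent.MP_20bec2_an.Pl

end MrgPart3

-- marker of a merged file
example : 731051 + 313218 = 731051 + 313218 := rfl
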