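import Mathlib.Data.Int.Star
import Pool.Agent.MP_20bec2_an.Pl.La

-- ======== part 0: formerly Pool.Agent.MP_20bec2_an.Pl.Nrun
section MrgPart0

/-!
The random steps of a block: bookkeeping of the parameters.
-/

set_option autoImplicit false
open MeasureTheory Set Complex Filter Finset

namespace Pool.Agent.MP_20bec2_an.Pl
noncomputable section

namespace Nrun

/-- the size conditions on the parameters -/
structure Par (C q x Λ : ℝ) : Prop where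
  hC : 1 ≤ C
  hq : 216000 * C ≤ q
  hx : 1 ≤ x
  hΛ : Λ = x ^ 3 * q ^ 12

variable {C q x Λ : ℝ}

lemma Par.big (H : Par C q x Λ) : 216000 ≤ q := by have := H.hC; have := H.hq; linarith

lemma Par.q1 (H : Par C q x Λ) : 1 ≤ q := by have := H.big; linarith

lemma Par.mono (H : Par C q x Λ) {a b a' b' : ℕ} (h1 : a ≤ a') (h2 : b ≤ b') :
    x ^ a * q ^ b ≤ x ^ a' * q ^ b' := by
  have h3 := H.hx
  have h4 := H.q1
  exact mul_le_mul (pow_le_pow_right₀ h3 h1) (pow_le_pow_right₀ h4 h2) (by positivity)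
    (by positivity)

lemma Par.sq_le (H : Par C q x Λ) : q ^ 2 ≤ Λ := by
  have := H.mono (a := 0) (b := 2) (a' := 3) (b' := 12) (by norm_num) (by norm_num)
  rw [H.hΛ]; simpa using this

lemma Par.q_le (H : Par C q x Λ) : 216000 * q ≤ Λ := by
  have := H.sq_le
  have := H.big
  nlinarith

lemma Par.C_le (H : Par C q x Λ) : 216000 * C ≤ Λ := by
  have := H.q_le
  have := H.hq
  have := H.q1
  linarith

lemma Par.Λbig (H : Par C q x Λ) : 216000 ≤ Λ := by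
  have := H.C_le
  have := H.hC
  linarith

lemma Par.L3 (H : Par C q x Λ) : x ^ 8 * q ^ 26 ≤ Λ ^ 3 := by
  have := H.mono (a := 8) (b := 26) (a' := 9) (b' := 36) (by norm_num) (by norm_num)
  rw [H.hΛ]; calc _ ≤ _ := this
    _ = _ := by ring

lemma Par.T1 (H : Par C q x Λ) : 1 ≤ x ^ 4 * q ^ 19 := by
  simpa using H.mono (a := 0) (b := 0) (a' := 4) (b' := 19) (by norm_num) (by norm_num)

lemma Par.T2 (H : Par C q x Λ) : q ^ 2 * (x ^ 4 * q ^ 19) ≤ Λ ^ 2 := by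
  have := H.mono (a := 4) (b := 21) (a' := 6) (b' := 24) (by norm_num) (by norm_num)
  rw [H.hΛ]; calc _ = x ^ 4 * q ^ 21 := by ring
    _ ≤ _ := this
    _ = _ := by ring

lemma Par.T3 (H : Par C q x Λ) : q * (1 + x ^ 4 * q ^ 19) ≤ Λ ^ 2 := by
  have h1 := H.T1
  have h2 := H.T2
  have h3 := H.big
  generalize x ^ 4 * q ^ 19 = T at *
  nlinarith [mul_le_mul_of_nonneg_left h1 (by linarith : 0 ≤ q),
    mul_nonneg (mul_nonneg (by linarith : 0 ≤ q) (by linarith : 0 ≤ T)) (by linarith : 0 ≤ q - 2)]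

lemma Par.T4 (H : Par C q x Λ) : 1 + x ^ 4 * q ^ 19 ≤ Λ ^ 2 := by
  have h1 := H.T1
  have h2 := H.T3
  have h3 := H.q1
  nlinarith

lemma Par.inv_le (H : Par C q x Λ) {a b : ℕ} (h1 : a ≤ 3) (h2 : b ≤ 12) {k : ℕ} (hk : 1 ≤ k) :
    1 / Λ ^ k ≤ 1 / (x ^ a * q ^ b) := by
  have h3 := H.hx
  have h4 := H.q1
  have h5 := H.Λbig
  refine one_div_le_one_div_of_le (by positivity) ?_
  calc x ^ a * q ^ b ≤ Λ := H.hΛ ▸ H.mono h1 h2
    _ ≤ Λ ^ k := le_self_pow₀ (by linarith) (by omega)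

lemma Par.inv16 (H : Par C q x Λ) : 1 / Λ ^ 16 ≤ 1 / (x ^ 4 * q ^ 7) := by
  have h3 := H.hx
  have h4 := H.q1
  have h5 := H.Λbig
  refine one_div_le_one_div_of_le (by positivity) ?_
  calc x ^ 4 * q ^ 7 ≤ x ^ 6 * q ^ 24 := H.mono (by norm_num) (by norm_num)
    _ = Λ ^ 2 := by rw [H.hΛ]; ring
    _ ≤ Λ ^ 16 := pow_le_pow_right₀ (by linarith) (by norm_num)

lemma Par.inv47 (H : Par C q x Λ) : 1 / (x ^ 4 * q ^ 7) ≤ 1 / (x ^ 2 * q ^ 4) := by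
  have h3 := H.hx
  have h4 := H.q1
  exact one_div_le_one_div_of_le (by positivity) (H.mono (by norm_num) (by norm_num))

lemma Par.inv24 (H : Par C q x Λ) : 1 / (x ^ 2 * q ^ 4) ≤ 1 / q := by
  have h3 := H.hx
  have h4 := H.q1
  refine one_div_le_one_div_of_le (by positivity) ?_
  simpa using H.mono (a := 0) (b := 1) (a' := 2) (b' := 4) (by norm_num) (by norm_num)

lemma Par.exp1 (H : Par C q x Λ) (he : Λ ^ 60 ≤ Real.exp q) :
    64 * (x ^ 8 * q ^ 26) ^ 2 ≤ Real.exp q ∧ Real.log (2 + x ^ 8 * q ^ 26) ≤ q := by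
  have h3 := H.hx
  have h4 := H.q1
  have h5 := H.Λbig
  have h6 := H.L3
  have h7 : 64 * (x ^ 8 * q ^ 26) ^ 2 ≤ Real.exp q := by
    calc 64 * (x ^ 8 * q ^ 26) ^ 2 ≤ Λ * (Λ ^ 3) ^ 2 := by gcongr; linarith
      _ = Λ ^ 7 := by ring
      _ ≤ Λ ^ 60 := pow_le_pow_right₀ (by linarith) (by norm_num)
      _ ≤ _ := he
  refine ⟨h7, ?_⟩
  have h8 : 1 ≤ x ^ 8 * q ^ 26 := by
    simpa using H.mono (a := 0) (b := 0) (a' := 8) (b' := 26) (by norm_num) (by norm_num)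
  rw [Real.log_le_iff_le_exp (by linarith)]
  generalize x ^ 8 * q ^ 26 = y at *
  nlinarith

/-- the random step with explicit constants -/
def NstP (C c0 : ℝ) : Prop := ∀ (w r r' : ℂ → ℝ) (f Y n : ℂ → ℂ) (j : ℕ)
  (h b Af Ln Λ ε η g1 W H l L0 A τ : ℝ),
  Core w f Y r h b Af → Fr n Ln → 1 ≤ Λ → (∀ x, ‖fderiv ℝ f x‖ ≤ Λ) →
  (∀ x, ‖fderiv ℝ Y x - 1‖ ≤ 1 / 20) → 0 < h → h ≤ W → W ≤ H → H ≤ l → l ≤ L0 → 1 ≤ A →
  64 * (L0 / h) ^ 2 ≤ Real.exp A → 3 * L0 * Ln ≤ η → η ≤ 1 → ε ≤ 1 / 100 → Nr ε w → Nr ε r →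
  Nr ε r' → Dh r' 2 g1 h → r = GG W (aL L0 j) r' →
  A ^ 4 * Real.log (2 + L0 / h) * (H / h) * Real.sqrt (l / h) * (W / h) ≤ τ →
  b + g1 + A * W / H + τ * h / L0 ≤ c0 →
  ∃ f' Y' R : ℂ → ℂ, Core w f' Y' r' h (C * (b + g1 + A * W / H + τ * h / L0))
      (Af + C * Λ ^ 3 * (1 + τ) ^ 4 * L0 / h ^ 2) ∧
    Run n f Y f' Y' R 0 0 0 (C * τ * h) (C * Λ * (1 + τ) * η) (C * Λ * (1 + τ) * η) (C * τ)
      (C * (A * W / l + τ * h / L0 + η)) (C * (A * W / H + τ * h / L0 + η)) ∧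
    ∀ x, |ip (R x - x) (n x)| ≤ η * (C * τ * h)

lemma step {c0 : ℝ} (hN : NstP C c0) (H : Par C q x Λ) (he : Λ ^ 60 ≤ Real.exp q)
    {w r r' : ℂ → ℝ} {f Y n : ℂ → ℂ} {j : ℕ} {h k b Af ε : ℝ} (hk : 0 < k) (hkh : k ≤ h)
    (hcore : Core w f Y r k b Af) (hfr : Fr n (1 / (Λ ^ 20 * h)))
    (hf : ∀ z, ‖fderiv ℝ f z‖ ≤ 60 * Λ) (hY : ∀ z, ‖fderiv ℝ Y z - 1‖ ≤ 1 / 20)
    (hε : ε ≤ 1 / 100) (hw : Nr ε w) (hr : Nr ε r) (hr' : Nr ε r') (hd : Dh r' 2 (1 / q) k)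
    (hG : r = GG (q ^ 2 * k) (aL (x ^ 8 * q ^ 26 * k) j) r') (hb : b + 3 / q ≤ c0) :
    ∃ f' Y' R : ℂ → ℂ, Core w f' Y' r' k (C * (b + 3 / q)) (Af + Λ ^ 15 / k) ∧
      Run n f Y f' Y' R 0 0 0 (C * (x ^ 4 * q ^ 19) * h) (1 / Λ ^ 13) (1 / Λ ^ 13)
        (C * (x ^ 4 * q ^ 19)) (3 * C / (x ^ 4 * q ^ 7)) (3 * C / (x ^ 2 * q ^ 4)) ∧
      ∀ z, |ip (R z - z) (n z)| ≤ 1 / Λ ^ 16 * (C * (x ^ 4 * q ^ 19) * h) := by
  have hC := H.hC
  have hx := H.hx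
  have hq := H.q1
  have hΛ := H.Λbig
  have hh : 0 < h := hk.trans_le hkh
  have x0 : 0 < x := by linarith
  have q0 : 0 < q := by linarith
  have Λ0 : 0 < Λ := by linarith
  have e1 : x ^ 8 * q ^ 26 * k / k = x ^ 8 * q ^ 26 := by field_simp
  have e2 : q * (q ^ 2 * k) / (x ^ 2 * q ^ 7 * k) = 1 / (x ^ 2 * q ^ 4) := by field_simp
  have e3 : x ^ 4 * q ^ 19 * k / (x ^ 8 * q ^ 26 * k) = 1 / (x ^ 4 * q ^ 7) := by field_simp
  have e4 : q * (q ^ 2 * k) / (x ^ 4 * q ^ 10 * k) = 1 / (x ^ 4 * q ^ 7) := by field_simp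
  have e5 : Real.sqrt (x ^ 4 * q ^ 10 * k / k) = x ^ 2 * q ^ 5 := by
    rw [show x ^ 4 * q ^ 10 * k / k = (x ^ 2 * q ^ 5) ^ 2 by field_simp]
    exact Real.sqrt_sq (by positivity)
  have i1 := H.inv16
  have i2 := H.inv47
  have i3 := H.inv24
  have hnew : b + 1 / q + 1 / (x ^ 2 * q ^ 4) + 1 / (x ^ 4 * q ^ 7) ≤ b + 3 / q := by
    have : 3 / q = 1 / q + 1 / q + 1 / q := by ring
    linarith
  obtain ⟨f', Y', R, k1, k2, k3⟩ := hN w r r' f Y n j k b Af (1 / (Λ ^ 20 * h)) (60 * Λ) ε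
    (1 / Λ ^ 16) (1 / q) (q ^ 2 * k) (x ^ 2 * q ^ 7 * k) (x ^ 4 * q ^ 10 * k) (x ^ 8 * q ^ 26 * k) q
    (x ^ 4 * q ^ 19) hcore hfr (by linarith) hf hY hk
    (le_mul_of_one_le_left hk.le (one_le_pow₀ hq))
    (mul_le_mul_of_nonneg_right (by
      simpa using H.mono (a := 0) (b := 2) (a' := 2) (b' := 7) (by norm_num) (by norm_num)) hk.le)
    (mul_le_mul_of_nonneg_right (H.mono (by norm_num) (by norm_num)) hk.le)
    (mul_le_mul_of_nonneg_right (H.mono (by norm_num) (by norm_num)) hk.le) hq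
    (by rw [e1]; exact (H.exp1 he).1)
    (by
      have := H.L3
      calc 3 * (x ^ 8 * q ^ 26 * k) * (1 / (Λ ^ 20 * h)) ≤ Λ * (Λ ^ 3 * h) * (1 / (Λ ^ 20 * h)) := by
            gcongr; linarith
        _ = 1 / Λ ^ 16 := by field_simp)
    (by rw [div_le_one (by positivity)]; exact one_le_pow₀ (by linarith)) hε hw hr hr' hd hG
    (by
      rw [e1, e5]
      have := (H.exp1 he).2
      calc q ^ 4 * Real.log (2 + x ^ 8 * q ^ 26) * (x ^ 2 * q ^ 7 * k / k) * (x ^ 2 * q ^ 5) *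
            (q ^ 2 * k / k) ≤ q ^ 4 * q * (x ^ 2 * q ^ 7 * k / k) * (x ^ 2 * q ^ 5) *
            (q ^ 2 * k / k) := by gcongr
        _ = x ^ 4 * q ^ 19 := by field_simp)
    (by rw [e2, e3]; linarith)
  rw [e2, e3] at k1
  rw [e2, e3, e4] at k2
  have hη : C * (60 * Λ) * (1 + x ^ 4 * q ^ 19) * (1 / Λ ^ 16) ≤ 1 / Λ ^ 13 := by
    have h1 := H.T3
    have h2 := H.hq
    have h3 := H.T1
    calc C * (60 * Λ) * (1 + x ^ 4 * q ^ 19) * (1 / Λ ^ 16)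
        = 60 * C * (1 + x ^ 4 * q ^ 19) * (Λ / Λ ^ 16) := by ring
      _ ≤ q * (1 + x ^ 4 * q ^ 19) * (Λ / Λ ^ 16) := by gcongr; linarith
      _ ≤ Λ ^ 2 * (Λ / Λ ^ 16) := by gcongr
      _ = 1 / Λ ^ 13 := by field_simp
  have hd' : C * (x ^ 4 * q ^ 19) * k ≤ C * (x ^ 4 * q ^ 19) * h := by gcongr
  refine ⟨f', Y', R, k1.mono hk (by gcongr) ?_, k2.mono hd' hη hη le_rfl ?_ ?_,
    fun z => (k3 z).trans (by gcongr)⟩
  · have h1 := H.T4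
    have h2 := H.L3
    have h3 := H.C_le
    have h4 := H.T1
    gcongr Af + ?_
    calc C * (60 * Λ) ^ 3 * (1 + x ^ 4 * q ^ 19) ^ 4 * (x ^ 8 * q ^ 26 * k) / k ^ 2
        = 216000 * C * Λ ^ 3 * (1 + x ^ 4 * q ^ 19) ^ 4 * (x ^ 8 * q ^ 26) / k := by
          field_simp; ring
      _ ≤ Λ * Λ ^ 3 * (Λ ^ 2) ^ 4 * Λ ^ 3 / k := by gcongr
      _ = Λ ^ 15 / k := by ring
  · calc C * (1 / (x ^ 4 * q ^ 7) + 1 / (x ^ 4 * q ^ 7) + 1 / Λ ^ 16)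
        ≤ C * (1 / (x ^ 4 * q ^ 7) + 1 / (x ^ 4 * q ^ 7) + 1 / (x ^ 4 * q ^ 7)) := by gcongr
      _ = _ := by ring
  · calc C * (1 / (x ^ 2 * q ^ 4) + 1 / (x ^ 4 * q ^ 7) + 1 / Λ ^ 16)
        ≤ C * (1 / (x ^ 2 * q ^ 4) + 1 / (x ^ 2 * q ^ 4) + 1 / (x ^ 2 * q ^ 4)) := by
          gcongr C * (_ + ?_ + ?_)
          exact i1.trans i2
      _ = _ := by ring

lemma Par.flat (H : Par C q x Λ) {h : ℝ} (hh : 0 < h) :
    Λ ^ 2 * (C * (x ^ 4 * q ^ 19) * h / (Λ ^ 3 * h) +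
      (1 / Λ ^ 16 * (C * (x ^ 4 * q ^ 19) * h) + C * (x ^ 4 * q ^ 19) * h / Λ ^ 16) / h) ≤
        x ^ 4 * q ^ 19 := by
  have hC := H.hC
  have hΛ := H.Λbig
  have hT := H.T1
  have h1 := H.C_le
  have Λ0 : 0 < Λ := by linarith
  generalize x ^ 4 * q ^ 19 = T at *
  have h2 : 1 / Λ ^ 14 ≤ 1 / Λ :=
    one_div_le_one_div_of_le Λ0 (le_self_pow₀ (by linarith) (by norm_num))
  calc _ = C * T * (1 / Λ + 2 * (1 / Λ ^ 14)) := by field_simp; ring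
    _ ≤ C * T * (1 / Λ + 2 * (1 / Λ)) := by gcongr
    _ = T * (3 * C / Λ) := by ring
    _ ≤ T * 1 := by
      gcongr
      rw [div_le_one Λ0]; linarith
    _ = T := mul_one T

lemma Par.tau (H : Par C q x Λ) :
    36 * q * (C * (x ^ 4 * q ^ 19) + x ^ 4 * q ^ 19) ≤ x ^ 4 * q ^ 21 := by
  have hC := H.hC
  have hq := H.q1
  have hT := H.T1
  have h1 := H.hq
  calc _ = 36 * (C + 1) * (q * (x ^ 4 * q ^ 19)) := by ring
    _ ≤ q * (q * (x ^ 4 * q ^ 19)) := by gcongr; linarith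
    _ = _ := by ring

lemma Par.etaU (H : Par C q x Λ) : 1 / Λ ^ 12 + 36 * q * (1 / Λ ^ 13) ≤ 2 / Λ ^ 12 := by
  have hΛ := H.Λbig
  have hq := H.q1
  have h1 := H.q_le
  have Λ0 : 0 < Λ := by linarith
  calc _ ≤ 1 / Λ ^ 12 + Λ * (1 / Λ ^ 13) := by gcongr; linarith
    _ = _ := by field_simp; ring

lemma Par.small (H : Par C q x Λ) {a : ℝ} (ha : a ≤ 1000) (k : ℕ) : a / Λ ^ (k + 1) ≤ 1 / Λ ^ k := by
  have hΛ := H.Λbig
  have Λ0 : 0 < Λ := by linarith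
  calc a / Λ ^ (k + 1) ≤ Λ / Λ ^ (k + 1) := by gcongr; linarith
    _ = _ := by rw [pow_succ]; field_simp

lemma Par.one (H : Par C q x Λ) (k : ℕ) : 1 / Λ ^ k ≤ 1 := by
  have hΛ := H.Λbig
  rw [div_le_one (by positivity)]
  exact one_le_pow₀ (by linarith)

lemma Par.etaV (H : Par C q x Λ) : 1 / Λ ^ 9 + 36 * q * (1 / Λ ^ 13 +
    (0 + C * (x ^ 4 * q ^ 19)) * (1 / Λ ^ 12 + 36 * q * (1 / Λ ^ 13))) ≤ 1 / Λ ^ 8 := by
  have hΛ := H.Λbig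
  have hq := H.q1
  have hC := H.hC
  have hT := H.T1
  have h1 := H.q_le
  have h2 := H.etaU
  have h3 := H.T2
  have h4 := H.hq
  have Λ0 : 0 < Λ := by linarith
  have Λ1 : 1 ≤ Λ := by linarith
  generalize x ^ 4 * q ^ 19 = T at *
  have k1 : 36 * q * (1 / Λ ^ 13) ≤ 1 / Λ ^ 9 := by
    calc _ ≤ Λ * (1 / Λ ^ 13) := by gcongr; linarith
      _ = 1 / Λ ^ 12 := by field_simp
      _ ≤ _ := one_div_le_one_div_of_le (by positivity) (pow_le_pow_right₀ Λ1 (by norm_num))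
  have k2 : 36 * q * ((0 + C * T) * (1 / Λ ^ 12 + 36 * q * (1 / Λ ^ 13))) ≤ 1 / Λ ^ 9 := by
    calc _ ≤ 36 * q * ((0 + C * T) * (2 / Λ ^ 12)) := by gcongr
      _ = 72 * C * (q * T) * (1 / Λ ^ 12) := by ring
      _ ≤ q * (q * T) * (1 / Λ ^ 12) := by gcongr; linarith
      _ ≤ Λ ^ 2 * (1 / Λ ^ 12) := by gcongr; linarith
      _ = 1 / Λ ^ 10 := by field_simp
      _ ≤ _ := one_div_le_one_div_of_le (by positivity) (pow_le_pow_right₀ Λ1 (by norm_num))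
  have k3 := H.small (a := 3) (by norm_num) 8
  have k4 : 3 / Λ ^ (8 + 1) = 1 / Λ ^ 9 + 1 / Λ ^ 9 + 1 / Λ ^ 9 := by ring
  rw [mul_add]
  linarith

lemma Par.dist (H : Par C q x Λ) {h : ℝ} (hh : 0 < h) :
    Λ ^ 3 * h + 36 * q * (C * (x ^ 4 * q ^ 19) * h) ≤ 2 * Λ ^ 3 * h := by
  have hΛ := H.Λbig
  have hq := H.q1
  have hT := H.T1
  have h3 := H.T2
  have h4 := H.hq
  have hC := H.hC
  generalize x ^ 4 * q ^ 19 = T at *
  have : 36 * q * (C * T * h) ≤ Λ ^ 3 * h := by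
    calc _ = 36 * C * (q * T) * h := by ring
      _ ≤ q * (q * T) * h := by gcongr; linarith
      _ ≤ Λ ^ 2 * h := by gcongr; linarith
      _ ≤ _ := by gcongr; linarith; norm_num
  linarith

lemma Par.af (H : Par C q x Λ) {h G : ℝ} (hh : 0 < h) (hG : 8 ≤ G) :
    2 * Λ ^ 20 / h + 36 * q * (Λ ^ 15 * G / h) ≤ Λ ^ 20 / (2 * (h / G)) := by
  have hΛ := H.Λbig
  have hq := H.q1
  have h1 := H.q_le
  have Λ0 : 0 < Λ := by linarith
  have G0 : 0 < G := by linarith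
  have k1 : 2 * Λ ^ 20 / h ≤ G / 4 * Λ ^ 20 / h := by gcongr; linarith
  have k2 : 36 * q * (Λ ^ 15 * G / h) ≤ Λ ^ 5 / 4 * (Λ ^ 15 * G / h) := by
    gcongr
    have : Λ ≤ Λ ^ 5 := le_self_pow₀ (by linarith) (by norm_num)
    linarith
  calc _ ≤ G / 4 * Λ ^ 20 / h + Λ ^ 5 / 4 * (Λ ^ 15 * G / h) := add_le_add k1 k2
    _ = _ := by field_simp; ring

lemma Par.pb (H : Par C q x Λ) :
    36 * q * (3 * C / (x ^ 4 * q ^ 7)) = 108 * C / (x ^ 4 * q ^ 6) ∧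
    36 * q * (3 * C / (x ^ 2 * q ^ 4)) = 108 * C / (x ^ 2 * q ^ 3) ∧
    108 * C / (x ^ 4 * q ^ 6) + 108 * C / (x ^ 2 * q ^ 3) ≤ 1 / 40 := by
  have hx := H.hx
  have hq := H.q1
  have hC := H.hC
  have h4 := H.hq
  have x0 : 0 < x := by linarith
  have q0 : 0 < q := by linarith
  refine ⟨by field_simp; ring, by field_simp; ring, ?_⟩
  have k1 : q ≤ x ^ 4 * q ^ 6 := by
    simpa using H.mono (a := 0) (b := 1) (a' := 4) (b' := 6) (by norm_num) (by norm_num)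
  have k2 : q ≤ x ^ 2 * q ^ 3 := by
    simpa using H.mono (a := 0) (b := 1) (a' := 2) (b' := 3) (by norm_num) (by norm_num)
  have k3 : 108 * C / q ≤ 1 / 80 := by rw [div_le_iff₀ q0]; linarith
  have k4 : 108 * C / (x ^ 4 * q ^ 6) ≤ 108 * C / q := by gcongr
  have k5 : 108 * C / (x ^ 2 * q ^ 3) ≤ 108 * C / q := by gcongr
  linarith

/-- the regularity parameter after `j` steps -/
def bs (C b ν : ℝ) (j : ℕ) : ℝ := C ^ (j % 36) * (b / 2 ^ (j / 36) + (36 + (j % 36 : ℕ)) * ν)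

lemma bs_le {b ν : ℝ} (hC : 1 ≤ C) (hb : 0 ≤ b) (hν : 0 ≤ ν) (j : ℕ) :
    bs C b ν j + ν ≤ C ^ 36 * (b + 72 * ν) := by
  have h1 : j % 36 ≤ 35 := by omega
  have h2 : ((j % 36 : ℕ) : ℝ) ≤ 35 := by exact_mod_cast h1
  have h3 : b / 2 ^ (j / 36) ≤ b := div_le_self hb (one_le_pow₀ (by norm_num))
  have h4 : (1 : ℝ) ≤ C ^ 36 := one_le_pow₀ hC
  have h5 : bs C b ν j ≤ C ^ 36 * (b + 71 * ν) := by
    have h6 : (36 + ((j % 36 : ℕ) : ℝ)) * ν ≤ 71 * ν := by gcongr; linarith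
    exact mul_le_mul (pow_le_pow_right₀ hC (by omega)) (add_le_add h3 h6) (by positivity)
      (by positivity)
  nlinarith

lemma bs_succ {b ν : ℝ} (hC : 1 ≤ C) (hν : 0 ≤ ν) (j : ℕ) :
    C * (bs C b ν j + ν) ≤ C ^ (j % 36 + 1) * (b / 2 ^ (j / 36) + (36 + (j % 36 : ℕ) + 1) * ν) := by
  have h4 : C ≤ C ^ (j % 36 + 1) := le_self_pow₀ hC (by omega)
  have h5 : C * ν ≤ C ^ (j % 36 + 1) * ν := by gcongr
  unfold bs
  rw [pow_succ] at h5 ⊢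
  nlinarith

lemma core_next {w r : ℂ → ℝ} {f Y : ℂ → ℂ} {h b ν Af : ℝ} (hC : 1 ≤ C) (hν : 0 ≤ ν) (hh : 0 < h)
    (j : ℕ) (H : Core w f Y r (h / (2 * C ^ 36) ^ (j / 36)) (C * (bs C b ν j + ν)) Af) :
    Core w f Y r (h / (2 * C ^ 36) ^ ((j + 1) / 36)) (bs C b ν (j + 1)) Af := by
  have h4 : (1 : ℝ) ≤ C ^ 36 := one_le_pow₀ hC
  have hk : 0 < h / (2 * C ^ 36) ^ (j / 36) := by positivity
  have H' := H.mono hk (bs_succ hC hν j) le_rfl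
  by_cases hj : j % 36 = 35
  · have e1 : (j + 1) / 36 = j / 36 + 1 := by omega
    have e2 : (j + 1) % 36 = 0 := by omega
    have H2 := H'.scale hk (γ := 2 * C ^ 36) (by linarith)
    rw [hj] at H2
    rw [bs, e1, e2, pow_succ, ← div_div]
    convert H2 using 1
    have : C ≠ 0 := by positivity
    push_cast
    field_simp
    ring
  · have e1 : (j + 1) / 36 = j / 36 := by omega
    have e2 : (j + 1) % 36 = j % 36 + 1 := by omega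
    rw [bs, e1, e2]
    convert H' using 1
    push_cast
    ring

end Nrun

open Nrun in
theorem nrun_of (h1 : IterStmt) (h2 : NstStmt) : NrunStmt := by
  obtain ⟨C, c0, hC, hc0, hN⟩ := h2
  have hN' : NstP C c0 := hN
  have h36 : (1 : ℝ) ≤ C ^ 36 := one_le_pow₀ hC
  refine ⟨108 * C, c0 / (2 * C ^ 36), 2 * C ^ 36, 216000 * C + 432 * C ^ 36 / c0, by linarith,
    by positivity, by linarith, ?_⟩
  intro q x Λ hq hx hΛ hexp w P p1 p2 r f0 Y0 n f Y R h b0 Af0 d0 μ φ o oν lo hi ε b τ e1 e2 Q pb1 pb2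
    hh hSt hε hw hD hlo hhi hcore hb hrun hflat hbd hQφ hφ hQ hμ
  have hpos : 0 ≤ 432 * C ^ 36 / c0 := by positivity
  have H : Par C q x Λ := ⟨hC, by linarith, hx, hΛ⟩
  have hq1 := H.q1
  have hΛ1 := H.Λbig
  have hT := H.T1
  have q0 : (0 : ℝ) < q := by linarith
  have x0 : 0 < x := by linarith
  have he : Λ ^ 60 ≤ Real.exp q := by
    refine hexp.trans ?_
    rw [← mul_one (q : ℝ), Real.exp_nat_mul]
    have := Real.add_one_le_exp (1 : ℝ)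
    gcongr
    linarith
  have hb0 : 0 ≤ b := by
    have := hcore.bY.n1
    exact (div_nonneg_iff.1 this).elim (fun k => k.1) fun k => absurd k.2 (not_le.2 hh)
  have hν : (0 : ℝ) ≤ 3 / q := by positivity
  have hγ : (1 : ℝ) ≤ 2 * C ^ 36 := by linarith
  have hbs : ∀ j, bs C b (3 / q) j + 3 / q ≤ c0 := fun j => by
    refine (bs_le hC hb0 hν j).trans ?_
    have k1 : C ^ 36 * b ≤ c0 / 2 := by
      calc C ^ 36 * b ≤ C ^ 36 * (c0 / (2 * C ^ 36)) := by gcongr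
        _ = c0 / 2 := by field_simp
    have k2 : C ^ 36 * (72 * (3 / q)) ≤ c0 / 2 := by
      have k3 : 432 * C ^ 36 / c0 ≤ q := by linarith
      rw [div_le_iff₀ hc0] at k3
      rw [show C ^ 36 * (72 * (3 / (q : ℝ))) = 216 * C ^ 36 / q by ring, div_le_iff₀ q0]
      linarith
    rw [mul_add]
    linarith
  have hJ : ((36 * q : ℕ) : ℝ) = 36 * (q : ℝ) := by push_cast; ring
  obtain ⟨pe1, pe2, pe3⟩ := H.pb
  have tau := H.tau
  have etaU := H.etaU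
  have etaU' := etaU.trans (H.small (a := 2) (by norm_num) 11)
  have etaV := H.etaV
  obtain ⟨f', Y', R', k1, k2⟩ := h1 w (r 0) P p1 p2 f0 Y0 n f Y R (36 * q) r 0 0 0
    (fun j => h / (2 * C ^ 36) ^ (j / 36)) (bs C b (3 / q))
    (fun j => 2 * Λ ^ 20 / h + j * (Λ ^ 15 * (2 * C ^ 36) ^ q / h))
    h b0 Af0 (1 / (Λ ^ 20 * h)) d0 μ φ o oν lo hi (Λ ^ 3 * h) (1 / Λ ^ 12) (1 / Λ ^ 9) τ e1 e2 ε Q
    (pb1 + 108 * C / (x ^ 4 * (q : ℝ) ^ 6)) (pb2 + 108 * C / (x ^ 2 * (q : ℝ) ^ 3))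
    (C * (x ^ 4 * (q : ℝ) ^ 19) * h) (1 / Λ ^ 16 * (C * (x ^ 4 * (q : ℝ) ^ 19) * h)) (1 / Λ ^ 13)
    (C * (x ^ 4 * (q : ℝ) ^ 19)) (3 * C / (x ^ 4 * (q : ℝ) ^ 7)) (3 * C / (x ^ 2 * (q : ℝ) ^ 4)) 0
    (x ^ 4 * (q : ℝ) ^ 19) hSt (by linarith) hw (hD.1 0 (Nat.zero_le _)) hD.1
    (by
      simp only [bs, Nat.zero_div, Nat.zero_mod, pow_zero, div_one, Nat.cast_zero, zero_mul,
        add_zero, one_mul]
      exact hcore.mono hh (by linarith) le_rfl)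
    hrun (by positivity) (by positivity) (by positivity) (by positivity) le_rfl (by positivity)
    (fun j _ => ⟨by simp, by
      simp only [Pi.zero_apply, sum_const_zero, add_zero]
      exact (hflat _ _).mono fun _ _ => H.flat hh⟩)
    (fun j _ z => by
      simp only [Pi.zero_apply, sum_const_zero, add_zero]
      rw [hJ, pe1, pe2]
      obtain ⟨m1, m2, m3⟩ := hbd z
      exact ⟨by linarith, by linarith, by linarith⟩)
    (by rw [hJ]; exact etaU'.trans (H.one 11)) (by rw [hJ]; exact etaV.trans (H.one 8)) hQφ hφ hQ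
    (by linarith) (by linarith)
    (fun j hj g Z hc hg hZ _ => by
      have hk : 0 < h / (2 * C ^ 36) ^ (j / 36) := by positivity
      obtain ⟨d1, _, d3⟩ := hD.2 j hj
      obtain ⟨g', Z', T, m1, m2, m3⟩ := step hN' H he hk (div_le_self hh.le (one_le_pow₀ hγ)) hc hSt.fr
        (fun z => (hg z).trans (by linarith)) hZ hε hw (hD.1 j hj.le) (hD.1 (j + 1) hj) d3 d1 (hbs j)
      refine ⟨g', Z', T, (core_next hC hν hh j m1).mono (by positivity) le_rfl ?_, m2, m3⟩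
      have k3 : (2 * C ^ 36) ^ (j / 36) ≤ (2 * C ^ 36) ^ q := pow_le_pow_right₀ hγ (by omega)
      have k4 : Λ ^ 15 / (h / (2 * C ^ 36) ^ (j / 36)) ≤ Λ ^ 15 * (2 * C ^ 36) ^ q / h := by
        rw [div_div_eq_mul_div]
        gcongr
      push_cast
      linarith)
  have e1' : 36 * q / 36 = q := by omega
  have e2' : 36 * q % 36 = 0 := by omega
  simp only [bs, e1', e2', pow_zero, one_mul, Nat.cast_zero, add_zero] at k1
  simp only [Pi.zero_apply, sum_const_zero, add_zero] at k2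
  rw [hJ] at k1 k2
  rw [pe1, pe2] at k2
  have hG : (8 : ℝ) ≤ (2 * C ^ 36) ^ q := by
    have k5 : 3 ≤ q := by
      have := H.big
      have : (3 : ℝ) ≤ q := by linarith
      exact_mod_cast this
    calc (8 : ℝ) = 2 ^ 3 := by norm_num
      _ ≤ (2 * C ^ 36) ^ 3 := by gcongr; linarith
      _ ≤ _ := pow_le_pow_right₀ hγ k5
  refine ⟨f', Y', R', k1.mono (by positivity) ?_ (H.af hh hG),
    k2.mono (H.dist hh) etaU' etaV (by linarith) le_rfl le_rfl⟩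
  have k6 : 36 * (3 / (q : ℝ)) = 108 * 1 / q := by ring
  rw [k6]
  gcongr

end
end Pool.Agent.MP_20bec2_an.Pl

end MrgPart0

-- ======== part 1: formerly Pool.Agent.MP_20bec2_an.Pl.Cycle
section MrgPart1

set_option autoImplicit false
open MeasureTheory Set Complex Filter Topology

namespace Pool.Agent.MP_20bec2_an.Pl
noncomputable section
namespace Cyc

section states
variable {w r : ℂ → ℝ} {f Y n : ℂ → ℂ}

lemma oMono {q : ℕ} {Λ h μ φ M oν lo hi μ' φ' oν' lo' hi' : ℝ}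
    (H : StO w f Y n r q Λ h μ φ M oν lo hi) (hh : 0 < h) (hM : 0 < M) (h5 : μ ≤ μ') (h6 : φ ≤ φ')
    (h8 : oν ≤ oν') (h9 : lo' ≤ lo) (h10 : hi ≤ hi') :
    StO w f Y n r q Λ h μ' φ' M oν' lo' hi' :=
  St.mono H hh le_rfl le_rfl le_rfl le_rfl h5 h6 (by gcongr) h8 h9 h10

lemma toI {q q' : ℕ} {Λ Λ' h μ φ M oν lo hi : ℝ} (H : StO w f Y n r q Λ h μ φ M oν lo hi)
    (hh : 0 < h) (hq' : 0 < q') (hq : q' ≤ 4 * q) (h0 : 0 < Λ) (h1 : Λ ≤ Λ')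
    (h2 : Λ' ^ 4 ≤ Λ ^ 5) : StI w f Y n r q' Λ' h μ φ M oν lo hi := by
  have h0' : 0 < Λ' := h0.trans_le h1
  refine St.mono H hh ?_ (by gcongr) ?_ (by gcongr) le_rfl le_rfl le_rfl le_rfl le_rfl le_rfl
  · have a1 : (0 : ℝ) < q' := by exact_mod_cast hq'
    have a2 : (q' : ℝ) ≤ 4 * q := by exact_mod_cast hq
    refine one_div_le_one_div_of_le (Real.sqrt_pos.mpr a1) ?_
    refine Real.sqrt_le_iff.mpr ⟨by positivity, ?_⟩
    rw [mul_pow, Real.sq_sqrt (by positivity)]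
    linarith
  · refine one_div_le_one_div_of_le (by positivity) ?_
    have : Λ' ^ 20 ≤ Λ ^ 25 := by
      calc Λ' ^ 20 = (Λ' ^ 4) ^ 5 := by ring
        _ ≤ (Λ ^ 5) ^ 5 := by gcongr
        _ = Λ ^ 25 := by ring
    gcongr

lemma surjY (h1 : InvStmt) {q : ℕ} {Λ h μ φ M oν lo hi : ℝ}
    (H : StO w f Y n r q Λ h μ φ M oν lo hi) (hh : 0 < h) (hq : 1 ≤ q) :
    Function.Surjective Y := by
  obtain ⟨C, -, hC⟩ := h1
  have a1 : (1 : ℝ) ≤ q := by exact_mod_cast hq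
  have a2 : 1 ≤ Real.sqrt q := Real.one_le_sqrt.mpr a1
  have hb : 1 / (2 * Real.sqrt q) ≤ 1 := by
    rw [div_le_one (by positivity)]
    linarith
  obtain ⟨J, hJ, -⟩ := hC Y _ h hh hb H.core.dY H.core.bY
  exact fun x => ⟨J x, hJ x⟩

end states

/-- the ordinary blocks of a cycle -/
lemma chain (h1 : InvStmt) {M γ C c0 Q0 : ℝ} (hM : 1 ≤ M) (hγ : 2 ≤ γ) (hC : 1 ≤ C)
    (hB : BlockNP M γ C c0 Q0) {q N : ℕ} {x Λ : ℝ} (hq : Q0 ≤ q) (hq1 : 1 ≤ q) (hx : 1 ≤ x)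
    (hΛ : Λ = x ^ 3 * (q : ℝ) ^ 12) (h60 : Λ ^ 60 ≤ 2 ^ q) {w : ℂ → ℝ} {r : ℕ → ℂ → ℝ}
    {f Y f1 Y1 n1 : ℂ → ℂ} {h ε b A μ0 δ a lo hi u v E : ℝ} (hh : 0 < h) (hε : ε ≤ c0)
    (hw : Nr ε w) (hD : ∀ i ≤ N, Dens (fun t => r (36 * q * i + t)) q x γ (h / γ ^ (q * i)) ε)
    (hb : b = 1 / (x ^ 2 * (q : ℝ) ^ 3)) (hA : A = x ^ 4 * (q : ℝ) ^ 21) (hμ : 0 ≤ μ0) (hδ : 0 ≤ δ)
    (ha : 0 ≤ a) (hu : u = C * (δ + (2 * C + 1) * a + μ0 * b))
    (hv : v = C * (2 * C ^ 2 + 4 * C + 1) * b ^ 2) (hE : 2 * u + N * v ≤ E) (hE1 : E ≤ c0)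
    (hE2 : E ≤ 1 / 2) (hm : μ0 + C * b ≤ c0) (hlo : Λ / 3 ≤ lo * (1 - E))
    (hhi : hi * (1 + 2 * E) ≤ 6 * Λ) (lo0 : 0 ≤ lo) (hi0 : 0 ≤ hi)
    (H : StO w f1 Y1 n1 (r (36 * q)) q Λ (h / γ ^ q) μ0 (a / A) M δ lo hi)
    (HM : Mv f Y f1 Y1 (Λ ^ 5 * h)) :
    ∀ j ≤ N, ∃ f' Y' n' : ℂ → ℂ, StO w f' Y' n' (r (36 * q * (j + 1))) q Λ (h / γ ^ (q * (j + 1)))
      (μ0 * (1 / 2) ^ j + C * b) ((a * (1 / 2) ^ j + 2 * C * b ^ 2) / A) M
      ((δ + 2 * C * a) * (1 / 2) ^ j + C * (2 * C + 1) * b ^ 2)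
      (lo * (1 - (2 * u * (1 - (1 / 2) ^ j) + j * v)))
      (hi * (1 + 2 * (2 * u * (1 - (1 / 2) ^ j) + j * v))) ∧
      Mv f Y f' Y' (Λ ^ 5 * h * (2 - (1 / 2) ^ j)) := by
  have q1 : (1 : ℝ) ≤ q := by exact_mod_cast hq1
  have γ0 : 0 < γ := by linarith
  have C0 : 0 < C := by linarith
  have M0 : 0 < M := by linarith
  have b0 : 0 < b := by rw [hb]; positivity
  have A0 : 0 < A := by rw [hA]; positivity
  have u0 : 0 ≤ u := by rw [hu]; positivity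
  have v0 : 0 ≤ v := by rw [hv]; positivity
  have Λ1 : 1 ≤ Λ := by
    rw [hΛ]; exact one_le_mul_of_one_le_of_one_le (one_le_pow₀ hx) (one_le_pow₀ q1)
  have Λ0 : 0 < Λ := by linarith
  have eb : ∀ z : ℝ, z / (x ^ 2 * (q : ℝ) ^ 3) = z * b := fun z => by rw [hb]; ring
  have eb2 : 1 / (x ^ 4 * (q : ℝ) ^ 6) = b ^ 2 := by rw [hb]; field_simp
  have eb3 : C / (x ^ 8 * (q : ℝ) ^ 27) = C * b ^ 2 / A := by rw [hb, hA]; field_simp
  intro j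
  induction j with
  | zero =>
    intro _
    refine ⟨f1, Y1, n1, ?_, HM.mono (by norm_num)⟩
    simp only [zero_add, mul_one, pow_zero, sub_self, mul_zero, Nat.cast_zero, zero_mul,
      add_zero, sub_zero]
    refine oMono H (by positivity) M0 ?_ ?_ ?_ le_rfl le_rfl
    · have := mul_pos C0 b0
      linarith
    · gcongr
      have : 0 ≤ 2 * C * b ^ 2 := by positivity
      linarith
    · have : 0 ≤ 2 * C * a + C * (2 * C + 1) * b ^ 2 := by positivity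
      linarith
  | succ j ih =>
    intro hj
    obtain ⟨f', Y', n', S', M'⟩ := ih (by omega)
    have jN : (j : ℝ) + 1 ≤ N := by exact_mod_cast hj
    have j0 : (0 : ℝ) ≤ j := by positivity
    have hp : h / γ ^ (q * (j + 1)) ≤ h * (1 / 2) ^ (j + 1) := by
      rw [one_div, inv_pow, ← div_eq_mul_inv]
      refine div_le_div_of_nonneg_left hh.le (by positivity) ?_
      calc (2 : ℝ) ^ (j + 1) ≤ γ ^ (j + 1) := by gcongr
        _ ≤ γ ^ (q * (j + 1)) := pow_le_pow_right₀ (by linarith) (by nlinarith)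
    have h'0 : 0 < h / γ ^ (q * (j + 1)) := by positivity
    have e1 : 36 * q * (j + 1 + 1) = 36 * q * (j + 1) + 36 * q := by ring
    have e2 : h / γ ^ (q * (j + 1 + 1)) = h / γ ^ (q * (j + 1)) / γ ^ q := by
      rw [div_div, ← pow_add]; congr 2
    rw [e1, e2, pow_succ (1 / 2 : ℝ) j]
    rw [pow_succ (1 / 2 : ℝ) j] at hp
    have p0 : 0 < (1 / 2 : ℝ) ^ j := by positivity
    have p1 : (1 / 2 : ℝ) ^ j ≤ 1 := pow_le_one₀ (by norm_num) (by norm_num)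
    generalize (1 / 2 : ℝ) ^ j = p at *
    have eA : x ^ 4 * (q : ℝ) ^ 21 * ((a * p + 2 * C * b ^ 2) / A) = a * p + 2 * C * b ^ 2 := by
      rw [← hA]; field_simp
    obtain ⟨S, hS⟩ : ∃ S, S = 2 * u * (1 - p) + j * v := ⟨_, rfl⟩
    obtain ⟨e, he⟩ : ∃ e, e = u * p + v := ⟨_, rfl⟩
    have S0 : 0 ≤ S := by
      have : 0 ≤ 1 - p := by linarith
      rw [hS]; positivity
    have e0 : 0 ≤ e := by rw [he]; positivity
    have eS : 2 * u * (1 - p * (1 / 2)) + ((j + 1 : ℕ) : ℝ) * v = S + e := by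
      rw [hS, he]; push_cast; ring
    have SE : S + e ≤ E := by
      have a1 : ((j : ℝ) + 1) * v ≤ N * v := by gcongr
      have a2 : 0 ≤ u * p := by positivity
      rw [hS, he]; linarith
    rw [← hS] at S'
    rw [eS]
    have ee : e = C * (((δ + 2 * C * a) * p + C * (2 * C + 1) * b ^ 2) + (a * p + 2 * C * b ^ 2) +
        (μ0 * p + C * b) * b + b ^ 2) := by rw [he, hu, hv]; ring
    have o0 : 0 ≤ (δ + 2 * C * a) * p + C * (2 * C + 1) * b ^ 2 := by positivity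
    have a0 : 0 ≤ a * p + 2 * C * b ^ 2 := by positivity
    have m0 : 0 ≤ (μ0 * p + C * b) * b + b ^ 2 := by positivity
    have eC : ((δ + 2 * C * a) * p + C * (2 * C + 1) * b ^ 2) + (a * p + 2 * C * b ^ 2) +
        (μ0 * p + C * b) * b + b ^ 2 ≤ e := by
      rw [ee]; exact le_mul_of_one_le_left (by linarith) hC
    obtain ⟨f'', Y'', n'', S'', M''⟩ := hB q x Λ hq hx hΛ h60 w
      (fun t => r (36 * q * (j + 1) + t)) f' Y' n' (h / γ ^ (q * (j + 1))) (μ0 * p + C * b)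
      ((a * p + 2 * C * b ^ 2) / A) ((δ + 2 * C * a) * p + C * (2 * C + 1) * b ^ 2)
      (lo * (1 - S)) (hi * (1 + 2 * S)) ε e h'0
      (toI S' h'0 hq1 (by omega) Λ0 le_rfl (pow_le_pow_right₀ Λ1 (by norm_num))) hε hw
      (hD (j + 1) hj) (hlo.trans (by gcongr; linarith)) (le_trans (by gcongr; linarith) hhi)
      (le_trans (by nlinarith) hm) o0 (by linarith) (by rw [eA]; linarith)
      (by rw [eA, eb, eb2]; exact ee)
    refine ⟨f'', Y'', n'', ?_, (M'.trans M'' S'.core.hom.surjective (surjY h1 S' h'0 hq1)).mono ?_⟩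
    · rw [eA, eb, eb2, eb3] at S''
      refine oMono S'' (by positivity) M0 ?_ (le_of_eq (by ring)) ?_ ?_ ?_
      · have : 0 ≤ μ0 * (p * (1 / 2)) := by positivity
        linarith
      · have : 0 ≤ δ * p := by positivity
        nlinarith
      · rw [mul_assoc]
        refine mul_le_mul_of_nonneg_left ?_ lo0
        nlinarith [mul_nonneg S0 e0]
      · rw [mul_assoc]
        refine mul_le_mul_of_nonneg_left ?_ hi0
        nlinarith [mul_nonneg e0 (show 0 ≤ 1 - 2 * S by linarith)]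
    · have := mul_le_mul_of_nonneg_left hp (show 0 ≤ Λ ^ 5 by positivity)
      linarith

lemma pow_up {y : ℝ} (hy : 0 ≤ y) (k : ℕ) (h : 2 * k * y ≤ 1) : (1 + y) ^ k ≤ 1 + 2 * k * y := by
  induction k with
  | zero => simp
  | succ k ih =>
    push_cast at h ⊢
    have a1 : 2 * k * y ≤ 1 := by nlinarith
    rw [pow_succ]
    calc (1 + y) ^ k * (1 + y) ≤ (1 + 2 * k * y) * (1 + y) := by gcongr; exact ih a1
      _ ≤ _ := by nlinarith [mul_nonneg hy (sub_nonneg.mpr a1)]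

lemma succ_pow {q : ℝ} (hq : 0 < q) (k : ℕ) (h : 2 * k ≤ q) :
    q ^ k * (1 + k / q) ≤ (q + 1) ^ k ∧ (q + 1) ^ k ≤ q ^ k * (1 + 2 * (k / q)) := by
  have e : (q + 1) ^ k = q ^ k * (1 + 1 / q) ^ k := by rw [← mul_pow]; congr 1; field_simp
  have y0 : 0 ≤ 1 / q := by positivity
  rw [e]
  constructor
  · gcongr
    have := one_add_mul_le_pow (show -2 ≤ 1 / q by linarith) k
    rwa [mul_one_div] at this
  · gcongr
    have := pow_up y0 k (by rw [mul_one_div, div_le_one hq]; exact h)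
    rwa [mul_one_div, mul_div_assoc] at this

lemma large (k : ℕ) : ∃ Q : ℕ, ∀ q ≥ Q, (q : ℝ) ^ k ≤ 2 ^ q := by
  have h := tendsto_pow_const_div_const_pow_of_one_lt k (show (1 : ℝ) < 2 by norm_num)
  obtain ⟨Q, hQ⟩ := eventually_atTop.mp (h.eventually (ge_mem_nhds (show (0 : ℝ) < 1 by norm_num)))
  exact ⟨Q, fun q hq => (div_le_one (by positivity)).mp (hQ q hq)⟩

/-- the sum of the errors of a cycle -/
lemma err {C g b y δ μ N : ℝ} (hC : 1 ≤ C) (g0 : 0 < g) (b0 : 0 < b) (hg : 8 * C * g ≤ 1)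
    (hb : b ≤ g ^ 5) (hN : N * b ^ 2 = g ^ 6) (hy : 15 * g ≤ y) (hδ : C * δ ≤ y / 16) (hμ : μ ≤ 1) :
    2 * (C * (δ + (2 * C + 1) * (2 * b) + μ * b)) + N * (C * (2 * C ^ 2 + 4 * C + 1) * b ^ 2) ≤
      y / 4 := by
  have C0 : 0 < C := by linarith
  have g1 : g ≤ 1 := by nlinarith
  have c1 : C * g ≤ 1 / 8 := by linarith
  have a1 : C ^ 2 * b ≤ g / 64 := by
    calc C ^ 2 * b ≤ C ^ 2 * g ^ 5 := by gcongr
      _ = (C * g) ^ 2 * g ^ 2 * g := by ring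
      _ ≤ (1 / 8) ^ 2 * 1 ^ 2 * g := by gcongr
      _ = g / 64 := by ring
  have a2 : C ^ 3 * g ^ 6 ≤ g / 512 := by
    calc C ^ 3 * g ^ 6 = (C * g) ^ 3 * g ^ 2 * g := by ring
      _ ≤ (1 / 8) ^ 3 * 1 ^ 2 * g := by gcongr
      _ = g / 512 := by ring
  have a3 : C * ((2 * C + 1) * 2 + μ) * b ≤ 7 * (C ^ 2 * b) := by
    calc C * ((2 * C + 1) * 2 + μ) * b ≤ C * (7 * C) * b := by gcongr; linarith
      _ = _ := by ring
  have a4 : C * (2 * C ^ 2 + 4 * C + 1) * g ^ 6 ≤ 7 * (C ^ 3 * g ^ 6) := by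
    calc C * (2 * C ^ 2 + 4 * C + 1) * g ^ 6 ≤ C * (7 * C ^ 2) * g ^ 6 := by gcongr; nlinarith
      _ = _ := by ring
  calc _ = 2 * (C * δ) + 2 * (C * ((2 * C + 1) * 2 + μ) * b) +
        C * (2 * C ^ 2 + 4 * C + 1) * (N * b ^ 2) := by ring
    _ ≤ _ := by rw [hN]; linarith

/-- the parameters at the end of a cycle -/
lemma fin {C g b p δ μ : ℝ} (hC : 1 ≤ C) (g0 : 0 < g) (b0 : 0 < b) (hg : 8 * C * g ≤ 1)
    (hb : b ≤ g ^ 5) (p0 : 0 ≤ p) (hp : p ≤ b) (hδ : δ ≤ 1) (hμ : μ ≤ 1) :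
    μ * p + C * b ≤ g ^ 2 / 4 ∧ g * (2 * b * p + 2 * C * b ^ 2) ≤ b ^ 2 / 2 ∧
      (δ + 2 * C * (2 * b)) * p + C * (2 * C + 1) * b ^ 2 ≤ g ^ 2 / 4 := by
  have C0 : 0 < C := by linarith
  have g1 : g ≤ 1 / 8 := by nlinarith
  have c1 : C * g ≤ 1 / 8 := by linarith
  have a1 : C * b ≤ g ^ 2 / 512 := by
    calc C * b ≤ C * g ^ 5 := by gcongr
      _ = (C * g) * g ^ 2 * g ^ 2 := by ring
      _ ≤ (1 / 8) * (1 / 8) ^ 2 * g ^ 2 := by gcongr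
      _ = g ^ 2 / 512 := by ring
  have a2 : b ≤ C * b := le_mul_of_one_le_left b0.le hC
  have a3 : g ^ 2 ≤ 1 := by nlinarith
  have a4 : μ * p ≤ 1 * p := by gcongr
  have a5 : 0 < C * b := by positivity
  refine ⟨by nlinarith, ?_, ?_⟩
  · calc g * (2 * b * p + 2 * C * b ^ 2) ≤ g * (2 * b * (C * b) + 2 * C * b ^ 2) := by
          gcongr; linarith
      _ = 4 * (C * g) * b ^ 2 := by ring
      _ ≤ 4 * (1 / 8) * b ^ 2 := by gcongr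
      _ = _ := by ring
  · have a6 : (δ + 2 * C * (2 * b)) * p ≤ 2 * p := by gcongr; linarith
    have a7 : C * (2 * C + 1) * b ^ 2 ≤ 3 * (C * b) := by
      calc C * (2 * C + 1) * b ^ 2 ≤ C * (3 * C) * b ^ 2 := by gcongr; linarith
        _ = 3 * (C * b) * (C * b) := by ring
        _ ≤ 3 * (C * b) * 1 := by gcongr; linarith
        _ = _ := by ring
    nlinarith

lemma lam_eq (n q : ℕ) : lamq n q = (q : ℝ) ^ (3 * n + 12) := by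
  rw [lamq, ← pow_mul, ← pow_add, mul_comm]

/-- the choice of the small parameters -/
lemma pars {C c0 : ℝ} (hC : 1 ≤ C) (hc : 0 < c0) : ∃ ε σ : ℝ, 0 < ε ∧ ε ≤ c0 ∧ ε ≤ 1 / 100 ∧
    0 < σ ∧ ∀ y g : ℝ, 0 < g → 15 * g ≤ y → 4 * 5184 * y ≤ σ ^ 2 → ∃ s δ : ℝ, 0 < s ∧
      s ^ 2 = 4 * 5184 * y ∧ δ = C * (ε + s) * s ^ 2 ∧ 0 ≤ δ ∧ C * δ ≤ y / 16 ∧ δ ≤ y / 16 ∧
      δ ≤ 1 ∧ s ≤ c0 ∧ C * s ≤ 1 ∧ g ≤ s ^ 2 ∧ y ≤ 1 / 100 ∧ y / 4 ≤ c0 ∧ y / 4 ≤ 1 / 2 ∧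
      8 * C * g ≤ 1 ∧ ∀ b, b ≤ g ^ 5 → C * s + C * b ≤ c0 := by
  have C0 : 0 < C := by linarith
  obtain ⟨σ0, hσ0⟩ : ∃ σ0 : ℝ, σ0 = 1 / (128 * 5184 * C ^ 2) := ⟨_, rfl⟩
  have σ00 : 0 < σ0 := by rw [hσ0]; positivity
  have σ01 : C ^ 2 * σ0 = 1 / (128 * 5184) := by rw [hσ0]; field_simp
  have C2 : C ≤ C ^ 2 := le_self_pow₀ hC (by norm_num)
  have σ02 : C * σ0 ≤ 1 / (128 * 5184) := by rw [← σ01]; gcongr
  clear hσ0
  obtain ⟨ε, ε0, ε1, ε2, ε3⟩ : ∃ ε : ℝ, 0 < ε ∧ ε ≤ c0 ∧ ε ≤ 1 / 100 ∧ ε ≤ σ0 :=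
    ⟨min c0 (min (1 / 100) σ0), by positivity, min_le_left _ _,
      (min_le_right _ _).trans (min_le_left _ _), (min_le_right _ _).trans (min_le_right _ _)⟩
  obtain ⟨σ, σ1, σ2, σ3⟩ : ∃ σ : ℝ, 0 < σ ∧ σ ≤ σ0 ∧ C * σ ≤ c0 / 2 :=
    ⟨min σ0 (c0 / 2 / C), by positivity, min_le_left _ _, by
      rw [mul_comm, ← le_div_iff₀ C0]; exact min_le_right _ _⟩
  refine ⟨ε, σ, ε0, ε1, ε2, σ1, fun y g g0 y1 y2 => ?_⟩
  have y0 : 0 < y := by linarith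
  obtain ⟨s, s0, s1⟩ : ∃ s : ℝ, 0 < s ∧ s ^ 2 = 4 * 5184 * y :=
    ⟨Real.sqrt (4 * 5184 * y), by positivity, Real.sq_sqrt (by positivity)⟩
  have s2 : s ≤ σ := by
    rw [← s1] at y2
    exact (pow_le_pow_iff_left₀ s0.le σ1.le two_ne_zero).mp y2
  have s3 : C * s ≤ c0 / 2 := le_trans (by gcongr) σ3
  have s4 : C * s ≤ 1 / (128 * 5184) := le_trans (by gcongr; linarith) σ02
  have s5 : s ≤ C * s := le_mul_of_one_le_left s0.le hC
  have s6 : s ^ 2 ≤ s := pow_le_of_le_one s0.le (by linarith) two_ne_zero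
  have y3 : y ≤ s := by linarith
  have gC : C * g ≤ C * s := by gcongr; linarith
  have δ0 : 0 ≤ C * (ε + s) * s ^ 2 := by positivity
  have δ1 : C * (C * (ε + s) * s ^ 2) ≤ y / 16 := by
    calc C * (C * (ε + s) * s ^ 2) = C ^ 2 * (ε + s) * s ^ 2 := by ring
      _ ≤ C ^ 2 * (σ0 + σ0) * s ^ 2 := by gcongr; linarith
      _ = 2 * (C ^ 2 * σ0) * s ^ 2 := by ring
      _ = _ := by rw [σ01, s1]; ring
  have δ2 := (le_mul_of_one_le_left δ0 hC).trans δ1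
  refine ⟨s, _, s0, s1, rfl, δ0, δ1, δ2, by linarith, by linarith, by linarith, by linarith,
    by linarith, by linarith, by linarith, by linarith, fun b b1 => ?_⟩
  have a0 : g ^ 5 ≤ g := pow_le_of_le_one g0.le (by linarith) (by norm_num)
  have a2 : C * b ≤ C * s := by gcongr; linarith
  linarith

/-- the band for the stretch -/
lemma band {Λ Λ' y δ s : ℝ} (h16 : 16 ≤ Λ) (y0 : 0 < y) (y1 : y ≤ 1 / 100)
    (s1 : s ^ 2 = 4 * 5184 * y) (δ2 : δ ≤ y / 16) (up1 : Λ * (1 + y) ≤ Λ')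
    (up2 : Λ' ≤ Λ * (1 + 2 * y)) :
    Λ / 2 * (1 + 3 * y) ≤ min (Λ / 2 * (1 + s ^ 2 / 5184 - δ)) Λ ∧
    max (4 * Λ) (5 * Λ * (1 + δ)) ≤ 5 * Λ * (1 + y / 8) ∧
    Λ / 3 ≤ Λ / 2 * (1 + 3 * y) * (1 - y / 4) ∧ 5 * Λ * (1 + y / 8) * (1 + 2 * (y / 4)) ≤ 6 * Λ ∧
    (∀ S, S ≤ y / 4 → Λ' / 2 ≤ Λ / 2 * (1 + 3 * y) * (1 - S) ∧
      5 * Λ * (1 + y / 8) * (1 + 2 * S) ≤ 5 * Λ') ∧ Λ ≤ Λ' ∧ Λ' ^ 4 ≤ Λ ^ 5 := by
  have Λ0 : 0 < Λ := by linarith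
  have Λy : 0 < Λ * y := by positivity
  have Λy' : Λ * y ≤ Λ * (1 / 100) := by gcongr
  have yy : y * y ≤ y := by nlinarith
  have lo1 : Λ * (1 + 2 * y) / 2 ≤ Λ / 2 * (1 + 3 * y) * (1 - y / 4) := by
    rw [mul_assoc, mul_div_right_comm]
    gcongr
    linarith
  have hi1 : 5 * Λ * (1 + y / 8) * (1 + 2 * (y / 4)) ≤ 5 * (Λ * (1 + y)) := by
    rw [mul_assoc, mul_assoc]
    gcongr
    linarith
  refine ⟨le_min ?_ (by linarith), max_le (by linarith) ?_, by linarith, by linarith,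
    fun S hS => ⟨?_, ?_⟩, by linarith, ?_⟩
  · gcongr Λ / 2 * ?_
    linarith
  · gcongr
    linarith
  · calc Λ' / 2 ≤ Λ * (1 + 2 * y) / 2 := by gcongr
      _ ≤ _ := lo1
      _ ≤ _ := by gcongr
  · calc _ ≤ 5 * Λ * (1 + y / 8) * (1 + 2 * (y / 4)) := by gcongr
      _ ≤ _ := hi1
      _ ≤ 5 * Λ' := by linarith
  · calc Λ' ^ 4 ≤ (2 * Λ) ^ 4 := by
          gcongr
          · linarith
          · linarith
      _ = Λ ^ 4 * 16 := by ring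
      _ ≤ Λ ^ 4 * Λ := by gcongr
      _ = _ := by ring

/-- powers of x and q -/
lemma pows {q x Λ g b A : ℝ} (q1 : 1 ≤ q) (xq : q ≤ x) (hΛ : Λ = x ^ 3 * q ^ 12) (hg : g = 1 / q)
    (hb : b = 1 / (x ^ 2 * q ^ 3)) (hA : A = x ^ 4 * q ^ 21) :
    q ≤ Λ ∧ 0 < b ∧ b ≤ g ^ 5 ∧ x ^ 4 * b ^ 2 = g ^ 6 ∧ 1 / (x ^ 8 * q ^ 26) ≤ 1 / (Λ ^ 2 * q) ∧
    (∀ μ, μ ≤ 1 → 1 / (x ^ 8 * q ^ 26) / 2 + μ / Λ ^ 2 ≤ 2 * b / A) ∧
    (∀ z T, g * z ≤ b ^ 2 / 2 → 0 < T → T ≤ 2 * (x ^ 8 * q ^ 26) → z / A ≤ 1 / T) ∧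
    ∀ T, Λ ^ 60 ≤ T → 1 / T ≤ b := by
  have q0 : 0 < q := by linarith
  have x1 : 1 ≤ x := q1.trans xq
  have x0 : 0 < x := by linarith
  have qΛ : q ≤ Λ := by
    rw [hΛ]
    exact (le_self_pow₀ q1 (by norm_num)).trans
      (le_mul_of_one_le_left (by positivity) (one_le_pow₀ x1))
  have Λ0 : 0 < Λ := by linarith
  have g0 : 0 < g := by rw [hg]; positivity
  have A0 : 0 < A := by rw [hA]; positivity
  have b3 : b / A = 1 / Λ ^ 2 := by rw [hb, hA, hΛ]; field_simp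
  have b4 : b ^ 2 / (g * A) = 1 / (x ^ 8 * q ^ 26) := by rw [hb, hA, hg]; field_simp
  have φ1 : 1 / (x ^ 8 * q ^ 26) ≤ 1 / (Λ ^ 2 * q) := by
    refine one_div_le_one_div_of_le (by positivity) ?_
    calc Λ ^ 2 * q = x ^ 6 * q ^ 25 := by rw [hΛ]; ring
      _ ≤ _ := by gcongr <;> norm_num
  have φ2 : 1 / (Λ ^ 2 * q) ≤ 1 / Λ ^ 2 :=
    one_div_le_one_div_of_le (by positivity) (le_mul_of_one_le_right (by positivity) q1)
  refine ⟨qΛ, by rw [hb]; positivity, ?_, by rw [hb, hg]; field_simp, φ1, fun μ hμ => ?_,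
    fun z T hz T0 hT => ?_, fun T hT => ?_⟩
  · rw [hb, hg, one_div_pow]
    refine one_div_le_one_div_of_le (by positivity) ?_
    calc q ^ 5 = q ^ 2 * q ^ 3 := by ring
      _ ≤ _ := by gcongr
  · have a1 : μ / Λ ^ 2 ≤ 1 / Λ ^ 2 := by gcongr
    have a2 : 0 < 1 / Λ ^ 2 := by positivity
    rw [mul_div_assoc, b3]
    linarith
  · calc z / A = g * z / (g * A) := by field_simp
      _ ≤ b ^ 2 / 2 / (g * A) := by gcongr
      _ = 1 / (2 * (x ^ 8 * q ^ 26)) := by rw [div_right_comm, b4]; field_simp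
      _ ≤ _ := one_div_le_one_div_of_le T0 hT
  · rw [hb]
    refine one_div_le_one_div_of_le (by positivity) ?_
    calc x ^ 2 * q ^ 3 ≤ Λ := by rw [hΛ]; gcongr <;> norm_num
      _ ≤ Λ ^ 60 := le_self_pow₀ (q1.trans qΛ) (by norm_num)
      _ ≤ T := hT

/-- from q to q + 1 -/
lemma next {n q : ℕ} {y : ℝ} (hq : 1 ≤ q) (hy : y = ((3 * n + 12 : ℕ) : ℝ) / q) (y4 : y ≤ 1 / 100) :
    16 ≤ (q : ℝ) ∧ lamq n q * (1 + y) ≤ lamq n (q + 1) ∧ lamq n (q + 1) ≤ lamq n q * (1 + 2 * y) ∧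
    (((q + 1 : ℕ) : ℝ) ^ n) ^ 8 * ((q + 1 : ℕ) : ℝ) ^ 26 ≤ 2 * (((q : ℝ) ^ n) ^ 8 * (q : ℝ) ^ 26) ∧
    (1 / (q : ℝ)) ^ 2 / 4 ≤ 1 / ((q + 1 : ℕ) : ℝ) ^ 2 := by
  have q1 : (1 : ℝ) ≤ q := by exact_mod_cast hq
  have q0 : (0 : ℝ) < q := by linarith
  have n0 : (0 : ℝ) ≤ n := by positivity
  have q100 : 100 * (3 * (n : ℝ) + 12) ≤ q := by
    rw [hy, div_le_iff₀ q0] at y4
    push_cast at y4
    linarith
  have up := succ_pow q0 (3 * n + 12) (by push_cast; linarith)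
  have up2 := (succ_pow q0 (n * 8 + 26) (by push_cast; linarith)).2
  have eL : lamq n (q + 1) = ((q : ℝ) + 1) ^ (3 * n + 12) := by rw [lam_eq]; push_cast; rfl
  rw [← hy, ← lam_eq, ← eL] at up
  refine ⟨by linarith, up.1, up.2, ?_, ?_⟩
  · rw [← pow_mul, ← pow_add, ← pow_mul, ← pow_add]
    push_cast at up2 ⊢
    refine up2.trans ?_
    rw [mul_comm]
    gcongr
    have : ((n : ℝ) * 8 + 26) / q ≤ 1 / 2 := by rw [div_le_iff₀ q0]; linarith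
    linarith
  · rw [one_div_pow, div_div]
    refine one_div_le_one_div_of_le (by positivity) ?_
    push_cast
    nlinarith

lemma last {u v p E L : ℝ} (u0 : 0 ≤ u) (p0 : 0 ≤ p) (h : 2 * u + v ≤ E) (L0 : 0 ≤ L) :
    2 * u * (1 - p) + v ≤ E ∧ L * (2 - p) ≤ 2 * L := by
  have := mul_nonneg u0 p0
  have := mul_nonneg L0 p0
  constructor <;> linarith

end Cyc
open Cyc

theorem cycle_of (h1 : InvStmt) (h2 : BlockStmt) : CycleStmt := by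
  obtain ⟨M, γ, C, c0, Q0, hM, hγ, hC, hc, hN, hB⟩ := h2
  have C0 : 0 < C := by linarith
  have γ0 : 0 < γ := by linarith
  have M0 : 0 < M := by linarith
  obtain ⟨ε, σ, ε0, ε1, ε2, σ1, hP⟩ := pars hC hc
  refine ⟨M, γ, ε, hM, hγ, ε0, ε2, fun n hn => ?_⟩
  obtain ⟨Q1, hQ1⟩ := large ((3 * n + 12) * 60)
  obtain ⟨Q2, hQ2⟩ := exists_nat_ge (max Q0 (4 * 5184 * ((3 * n + 12 : ℕ) : ℝ) / σ ^ 2))
  refine ⟨max 1 (max Q1 Q2), fun q hq w r f Y fr h hh hw hD H => ?_⟩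
  have hq1 : 1 ≤ q := le_of_max_le_left hq
  have hq2 : (Q2 : ℝ) ≤ q := by exact_mod_cast le_of_max_le_right (le_of_max_le_right hq)
  have hq0 : Q0 ≤ q := (le_of_max_le_left hQ2).trans hq2
  have q1 : (1 : ℝ) ≤ q := by exact_mod_cast hq1
  have q0 : (0 : ℝ) < q := one_pos.trans_le q1
  have h60 : lamq n q ^ 60 ≤ 2 ^ q := by
    rw [lam_eq, ← pow_mul]; exact hQ1 q (le_of_max_le_left (le_of_max_le_right hq))
  obtain ⟨y, hy⟩ : ∃ y : ℝ, y = ((3 * n + 12 : ℕ) : ℝ) / q := ⟨_, rfl⟩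
  have g0 : (0 : ℝ) < 1 / q := by positivity
  have y1 : 15 * (1 / (q : ℝ)) ≤ y := by
    rw [hy, mul_one_div]
    gcongr
    exact_mod_cast (show 15 ≤ 3 * n + 12 by omega)
  have y0 : 0 < y := lt_of_lt_of_le (by positivity) y1
  have y2 : 4 * 5184 * y ≤ σ ^ 2 := by
    have := (le_of_max_le_right hQ2).trans hq2
    rw [div_le_iff₀ (by positivity), mul_comm (q : ℝ)] at this
    rwa [hy, ← mul_div_assoc, div_le_iff₀ q0]
  obtain ⟨s, δ, s0, s1, hδ, δ0, δ1, δ2, δ3, s2, s3, s4, y3, y4, y5, gC, m1⟩ := hP y _ g0 y1 y2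
  obtain ⟨q16, up1, up2, up3, up4⟩ := next hq1 hy y3
  have eN : ((q ^ (4 * n) : ℕ) : ℝ) = ((q : ℝ) ^ n) ^ 4 := by push_cast; rw [← pow_mul, mul_comm]
  have qN : q ≤ q ^ (4 * n) := Nat.le_self_pow (by omega) q
  have xq : (q : ℝ) ≤ (q : ℝ) ^ n := le_self_pow₀ q1 (by omega)
  have hΛ : lamq n q = ((q : ℝ) ^ n) ^ 3 * (q : ℝ) ^ 12 := rfl
  have T0 : 0 < (((q + 1 : ℕ) : ℝ) ^ n) ^ 8 * ((q + 1 : ℕ) : ℝ) ^ 26 := by positivity
  unfold Cy at H ⊢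
  clear hQ1 hQ2 hq hy hP
  generalize lamq n (q + 1) = Λ' at *
  generalize lamq n q = Λ at *
  generalize q ^ (4 * n) = N at *
  generalize (q : ℝ) ^ n = x at *
  have x1 : 1 ≤ x := q1.trans xq
  obtain ⟨b, hb⟩ : ∃ b : ℝ, b = 1 / (x ^ 2 * (q : ℝ) ^ 3) := ⟨_, rfl⟩
  obtain ⟨A, hA⟩ : ∃ A : ℝ, A = x ^ 4 * (q : ℝ) ^ 21 := ⟨_, rfl⟩
  obtain ⟨qΛ, b0, b1, b2, φ1, φ2, φ3, p1⟩ := pows q1 xq hΛ rfl hb hA
  obtain ⟨B1, B2, B3, B4, B5, B6, B7⟩ := band (q16.trans qΛ) y0 y3 s1 δ2 up1 up2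
  have Λ0 : 0 < Λ := q0.trans_le qΛ
  rw [← eN] at b2
  have p2 : (1 / 2 : ℝ) ^ N ≤ b := by
    rw [one_div_pow]
    exact p1 _ (h60.trans (pow_le_pow_right₀ (by norm_num) qN))
  have D0 : Dens r q x γ h ε := by simpa using hD 0 (Nat.zero_le _)
  obtain ⟨f1, Y1, n1, S1, M1⟩ := hB q x Λ hq0 x1 hΛ h60 w r f Y fr h _ _ _ _ _ ε s hh H ε1 hw D0
    (div_le_div_of_nonneg_left Λ0.le (by norm_num) (by norm_num))
    (mul_le_mul_of_nonneg_right (by norm_num) Λ0.le) s0 s2 s4 le_rfl (by positivity) le_rfl φ1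
  rw [← hδ] at S1
  have hE := err hC g0 b0 gC b1 b2 y1 δ1 s3
  obtain ⟨f', Y', n', S', M'⟩ := chain h1 hM hγ hC hN hq0 hq1 x1 hΛ h60 hh ε1 hw hD hb hA
    (by positivity) δ0 (by positivity) rfl rfl hE y4 y5 (m1 b b1) B3 B4 (by positivity)
    (by positivity) (oMono S1 (by positivity) M0 le_rfl (φ2 _ s3) le_rfl B1 B2) M1 N le_rfl
  have p0 : 0 ≤ (1 / 2 : ℝ) ^ N := by positivity
  obtain ⟨F1, F2, F3⟩ := fin hC g0 b0 gC b1 p0 p2 δ3 s3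
  obtain ⟨L1, L2⟩ := last (by positivity) p0 hE (show 0 ≤ Λ ^ 5 * h by positivity)
  have h'0 : 0 < h / γ ^ (q * (N + 1)) := by positivity
  exact ⟨f', Y', n', toI (oMono S' h'0 M0 (F1.trans up4) (φ3 _ _ F2 T0 up3) (F3.trans up4)
    (B5 _ L1).1 (B5 _ L1).2) h'0 (by omega) (by omega) Λ0 B6 B7,
    M'.mono (L2.trans_eq (mul_assoc _ _ _).symm)⟩

end
end Pool.Agent.MP_20bec2_an.Pl

end MrgPart1

-- marker of a merged file
example : 731051 + 420709 = 731051 + 420709 := rfl
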