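import Mathlib.Algebra.Order.Archimedean.Real.Hom
import Mathlib.Analysis.Complex.ExponentialBounds
import Mathlib.Analysis.Convex.Integral
import Pool.Agent.MP_20bec2_an.Pl.La

-- ======== part 0: formerly Pool.Agent.MP_20bec2_an.Pl.Bal
section MrgPart0

set_option autoImplicit false
open MeasureTheory Set Complex Filter Topology

namespace Pool.Agent.MP_20bec2_an.Pl
noncomputable section

namespace Bal

/-- scaled iterated differences of a sequence -/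
def dq (N : ℝ) : ℕ → (ℕ → ℝ) → ℕ → ℝ
  | 0, s, j => s j
  | τ + 1, s, j => N * (dq N τ s (j + 1) - dq N τ s j)

lemma tele (s : ℕ → ℝ) (j N : ℕ) : ∑ i ∈ Finset.range N, s (j + i) - N * s j =
    ∑ i ∈ Finset.range N, ((N : ℝ) - 1 - i) * (s (j + i + 1) - s (j + i)) := by
  induction N with
  | zero => simp
  | succ N ih =>
    have h1 : ∑ i ∈ Finset.range N, (s (j + i + 1) - s (j + i)) = s (j + N) - s j :=
      Finset.sum_range_sub (fun i => s (j + i)) N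
    have h2 : ∑ i ∈ Finset.range N, (((N + 1 : ℕ) : ℝ) - 1 - i) * (s (j + i + 1) - s (j + i)) =
        ∑ i ∈ Finset.range N, ((N : ℝ) - 1 - i) * (s (j + i + 1) - s (j + i)) +
          ∑ i ∈ Finset.range N, (s (j + i + 1) - s (j + i)) := by
      rw [← Finset.sum_add_distrib]
      refine Finset.sum_congr rfl fun i _ => ?_
      push_cast; ring
    rw [Finset.sum_range_succ, Finset.sum_range_succ, h2, h1, ← ih]
    push_cast; ring

lemma dq_tele (s : ℕ → ℝ) (τ j N : ℕ) (hN : 0 < N) : dq N τ s j =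
    ∑ i ∈ Finset.range N, 1 * dq N τ s (j + i) / N -
      ∑ i ∈ Finset.range N, ((N : ℝ) - 1 - i) / N * dq N (τ + 1) s (j + i) / N := by
  have h0 : (0 : ℝ) < N := by exact_mod_cast hN
  have h1 := tele (dq N τ s) j N
  have h2 : ∀ i : ℕ, ((N : ℝ) - 1 - i) / N * dq N (τ + 1) s (j + i) / N =
      ((N : ℝ) - 1 - i) * (dq N τ s (j + i + 1) - dq N τ s (j + i)) / N := fun i => by
    rw [dq]; field_simp
  simp only [h2, one_mul]
  rw [← Finset.sum_div, ← Finset.sum_div, ← h1]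
  field_simp; ring

lemma dq_sum (N : ℝ) (F : Finset ℕ) (s : ℕ → ℕ → ℝ) (τ j : ℕ) :
    dq N τ (fun j => ∑ t ∈ F, s t j) j = ∑ t ∈ F, dq N τ (s t) j := by
  induction τ generalizing j with
  | zero => rfl
  | succ τ ih => simp only [dq, ih, ← Finset.sum_sub_distrib, Finset.mul_sum]

lemma dq_zero (N : ℝ) (s : ℕ → ℝ) (τ j : ℕ) (h : ∀ i ≤ τ, s (j + i) = 0) : dq N τ s j = 0 := by
  induction τ generalizing j with
  | zero => exact h 0 le_rfl
  | succ τ ih =>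
    rw [dq, ih j fun i hi => h i (by omega), ih (j + 1) fun i hi => by
      rw [add_assoc]; exact h _ (by omega)]
    simp

lemma dq_int (N : ℝ) (s : ℂ → ℕ → ℝ) (h : ∀ j, Measurable (fun θ => s θ j) ∧
    Integrable (fun θ => s θ j) gam ∧ ∫ θ, s θ j ∂gam = 0) (τ j : ℕ) :
    Measurable (fun θ => dq N τ (s θ) j) ∧ Integrable (fun θ => dq N τ (s θ) j) gam ∧
      ∫ θ, dq N τ (s θ) j ∂gam = 0 := by
  induction τ generalizing j with
  | zero => exact h j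
  | succ τ ih =>
    obtain ⟨a1, a2, a3⟩ := ih j
    obtain ⟨b1, b2, b3⟩ := ih (j + 1)
    simp only [dq]
    exact ⟨(b1.sub a1).const_mul _, (b2.sub a2).const_mul _, by
      rw [integral_const_mul, integral_sub b2 a2, a3, b3]; simp⟩

lemma dq_bd {f : ℝ → ℝ} {β h N a : ℝ} (hf : Dh f β β h) (hh : 0 < h) (hN : 0 < N) (τ : Fin 3)
    (j : ℕ) : |dq N τ (fun j => f (a + j * (h / N))) j| ≤ β := by
  have hη : ‖h / N‖ = h / N := Real.norm_of_nonneg (by positivity)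
  fin_cases τ
  · exact hf.b0 _
  · have h1 := hf.b1 (a + ((j + 1 : ℕ) : ℝ) * (h / N)) (a + j * (h / N))
    rw [show a + ((j + 1 : ℕ) : ℝ) * (h / N) - (a + j * (h / N)) = h / N by push_cast; ring, hη,
      Real.norm_eq_abs] at h1
    simp only [dq]
    rw [abs_mul, abs_of_pos hN]
    calc _ ≤ N * (β / h * (h / N)) := by gcongr
      _ = β := by field_simp
  · have h1 := hf.b2 (a + j * (h / N)) (h / N) (h / N)
    rw [hη, Real.norm_eq_abs] at h1
    simp only [dq]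
    have e1 : a + ((j + 1 + 1 : ℕ) : ℝ) * (h / N) = a + j * (h / N) + h / N + h / N := by
      push_cast; ring
    have e2 : a + ((j + 1 : ℕ) : ℝ) * (h / N) = a + j * (h / N) + h / N := by push_cast; ring
    rw [e1, e2, ← mul_sub, abs_mul, abs_mul, abs_of_pos hN]
    calc _ = N * (N * |f (a + j * (h / N) + h / N + h / N) - f (a + j * (h / N) + h / N) -
          f (a + j * (h / N) + h / N) + f (a + j * (h / N))|) := by congr 3; ring
      _ ≤ N * (N * (β / h ^ 2 * (h / N) * (h / N))) := by gcongr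
      _ = β := by field_simp

lemma pw_le {A : ℝ} (hA : 1 ≤ A) (θ : ℂ) : (1 + ‖θ‖ / A) ^ 4 ≤ (1 + ‖θ‖) ^ 4 := by
  have : ‖θ‖ / A ≤ ‖θ‖ := div_le_self (norm_nonneg _) hA
  gcongr

lemma pw_le' {A : ℝ} (hA : 1 ≤ A) {θ : ℂ} (h : ‖θ‖ ≤ A) : (1 + ‖θ‖ / A) ^ 4 ≤ 16 := by
  have : ‖θ‖ / A ≤ 1 := div_le_one_of_le₀ h (by linarith)
  calc _ ≤ (1 + 1 : ℝ) ^ 4 := by gcongr
    _ = 16 := by norm_num

/-- a point of the convex hull of the truncated range close to the origin -/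
lemma center {ι : Type} [Fintype ι] {C R A : ℝ} (hC : 1 ≤ C)
    (h1 : Integrable (fun θ : ℂ => (1 + ‖θ‖) ^ 8 * Real.exp ‖θ‖) gam)
    (h2 : ∫ θ, (1 + ‖θ‖) ^ 8 * Real.exp ‖θ‖ ∂gam ≤ C) (h3 : 1 / C ≤ gam.real {θ | ‖θ‖ ≤ 1})
    (hR : 0 < R) (hA : 1 ≤ A) (X : ℂ → EuclideanSpace ℝ ι) (hm : Measurable X)
    (hb : ∀ θ, ‖X θ‖ ≤ R * (1 + ‖θ‖ / A) ^ 4) (h0 : ∫ θ, X θ ∂gam = 0) :
    ∃ y ∈ convexHull ℝ (X '' {θ | ‖θ‖ ≤ A}), ‖y‖ ≤ (C ^ 2 + 1) * R * Real.exp (-A) := by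
  have hi : Integrable X gam := ((gam_pow 4).const_mul R).mono' hm.aestronglyMeasurable
    (Eventually.of_forall fun θ => (hb θ).trans (mul_le_mul_of_nonneg_left (pw_le hA θ) hR.le))
  set s : Set ℂ := {θ | ‖θ‖ ≤ A} with hs
  have hsm : MeasurableSet s := measurableSet_le measurable_norm measurable_const
  have hC0 : 0 < C := by linarith
  have h4 : 1 / C ≤ gam.real s := h3.trans (measureReal_mono fun θ h => le_trans h hA)
  have h5 : 0 < gam.real s := lt_of_lt_of_le (by positivity) h4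
  have h6 := (convex_convexHull ℝ (X '' s)).set_average_mem_closure (μ := gam) (t := s) (f := X)
    (fun h => by simp [Measure.real, h] at h5) (measure_ne_top _ _)
    ((ae_restrict_mem hsm).mono fun θ h => subset_convexHull ℝ _ (mem_image_of_mem X h))
    hi.integrableOn
  have h7 : ‖∫ θ in s, X θ ∂gam‖ ≤ C * R * Real.exp (-A) := by
    have e : ∫ θ in s, X θ ∂gam = -∫ θ in sᶜ, X θ ∂gam := by
      rw [eq_neg_iff_add_eq_zero, integral_add_compl hsm hi, h0]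
    rw [e, norm_neg]
    have hj := h1.const_mul (R * Real.exp (-A))
    refine (norm_integral_le_of_norm_le hj.integrableOn
      ((ae_restrict_mem hsm.compl).mono fun θ h => (hb θ).trans ?_)).trans ?_
    · have k1 : A ≤ ‖θ‖ := (not_le.1 (show ¬ ‖θ‖ ≤ A from h)).le
      have k2 : 1 ≤ Real.exp (-A) * Real.exp ‖θ‖ := by
        rw [← Real.exp_add]; exact Real.one_le_exp (by linarith)
      have k3 : (1 + ‖θ‖) ^ 4 ≤ (1 + ‖θ‖) ^ 8 :=
        pow_le_pow_right₀ (by linarith [norm_nonneg θ]) (by norm_num)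
      calc _ ≤ R * ((1 + ‖θ‖) ^ 8 * 1) := by rw [mul_one]; gcongr; exact (pw_le hA θ).trans k3
        _ ≤ R * ((1 + ‖θ‖) ^ 8 * (Real.exp (-A) * Real.exp ‖θ‖)) := by gcongr
        _ = _ := by ring
    · refine (setIntegral_le_integral hj (Eventually.of_forall fun θ => by positivity)).trans ?_
      rw [integral_const_mul]
      calc _ ≤ R * Real.exp (-A) * C := by gcongr
        _ = _ := by ring
  have h8 : ‖⨍ θ in s, X θ ∂gam‖ ≤ C ^ 2 * R * Real.exp (-A) := by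
    rw [setAverage_eq, norm_smul, norm_inv, Real.norm_of_nonneg h5.le]
    have : (gam.real s)⁻¹ ≤ C := by
      rw [inv_le_comm₀ h5 hC0, ← one_div]; exact h4
    calc _ ≤ C * (C * R * Real.exp (-A)) := by gcongr
      _ = _ := by ring
  obtain ⟨y, hy, hd⟩ := Metric.mem_closure_iff.1 h6 (R * Real.exp (-A)) (by positivity)
  refine ⟨y, hy, ?_⟩
  rw [dist_eq_norm, norm_sub_rev] at hd
  have := norm_le_insert' y (⨍ θ in s, X θ ∂gam)
  linarith

/-- balancing of random vectors -/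
lemma vec (hA : AlsStmt) {ι : Type} [Fintype ι] {C R A c : ℝ} (hC : 1 ≤ C)
    (h1 : Integrable (fun θ : ℂ => (1 + ‖θ‖) ^ 8 * Real.exp ‖θ‖) gam)
    (h2 : ∫ θ, (1 + ‖θ‖) ^ 8 * Real.exp ‖θ‖ ∂gam ≤ C) (h3 : 1 / C ≤ gam.real {θ | ‖θ‖ ≤ 1})
    (hR : 0 < R) (hA1 : 1 ≤ A) (T : ℕ) (hT : (T : ℝ) ≤ Real.exp A)
    (X : ℕ → ℂ → EuclideanSpace ℝ ι) (hm : ∀ t < T, Measurable (X t))
    (hb : ∀ t < T, ∀ θ, ‖X t θ‖ ≤ R * (1 + ‖θ‖ / A) ^ 4) (h0 : ∀ t < T, ∫ θ, X t θ ∂gam = 0)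
    (F : Finset (EuclideanSpace ℝ ι)) (hF : ∀ a ∈ F, ‖a‖ ≤ 1)
    (hc : 4 * ((F.card : ℝ) + Fintype.card ι + 1) * (T + 1) ≤ Real.exp (c / 8)) :
    ∃ θ : ℕ → ℂ, (∀ t, ‖θ t‖ ≤ A) ∧ ∀ T' ≤ T, ∀ a ∈ F,
      |inner ℝ a (∑ t ∈ Finset.range T', X t (θ t))| ≤ (C ^ 2 + 17) * R * c + (C ^ 2 + 1) * R := by
  have hy : ∀ t, ∃ y : EuclideanSpace ℝ ι, t < T → y ∈ convexHull ℝ (X t '' {θ | ‖θ‖ ≤ A}) ∧
      ‖y‖ ≤ (C ^ 2 + 1) * R * Real.exp (-A) := fun t => by
    by_cases ht : t < T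
    · obtain ⟨y, h⟩ := center hC h1 h2 h3 hR hA1 (X t) (hm t ht) (hb t ht) (h0 t ht)
      exact ⟨y, fun _ => h⟩
    · exact ⟨0, fun h => absurd h ht⟩
  choose y hy using hy
  set Q : ℝ := (C ^ 2 + 17) * R with hQ
  have hQ0 : 0 < Q := by positivity
  have he : Real.exp (-A) ≤ 1 := Real.exp_le_one_iff.2 (by linarith)
  let f : ℕ → EuclideanSpace ℝ ι →ᵃ[ℝ] EuclideanSpace ℝ ι := fun t =>
    ((Q⁻¹ • (LinearMap.id : EuclideanSpace ℝ ι →ₗ[ℝ] EuclideanSpace ℝ ι)).toAffineMap).comp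
      (AffineEquiv.constVAdd ℝ (EuclideanSpace ℝ ι) (-y t)).toAffineMap
  have hf : ∀ t z, f t z = Q⁻¹ • (-y t + z) := fun t z => rfl
  obtain ⟨x, hx, hs⟩ := hA ι T (fun t => f t '' (X t '' {θ | ‖θ‖ ≤ A})) F c (by
    rintro t ht _ ⟨_, ⟨θ, hθ, rfl⟩, rfl⟩
    rw [hf, norm_smul, norm_inv, Real.norm_of_nonneg hQ0.le, inv_mul_le_iff₀ hQ0, mul_one]
    have k1 : ‖X t θ‖ ≤ R * 16 := (hb t ht θ).trans (by gcongr; exact pw_le' hA1 hθ)
    have k2 : ‖y t‖ ≤ (C ^ 2 + 1) * R * 1 := (hy t ht).2.trans (by gcongr)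
    have k3 := norm_add_le (-y t) (X t θ)
    rw [norm_neg] at k3
    rw [hQ]; linarith) (fun t ht => by
    rw [← AffineMap.image_convexHull]
    exact ⟨y t, (hy t ht).1, by rw [hf]; simp⟩) hF hc
  have hθ : ∀ t, ∃ θ : ℂ, ‖θ‖ ≤ A ∧ (t < T → X t θ = Q • x t + y t) := fun t => by
    by_cases ht : t < T
    · obtain ⟨_, ⟨θ, h4, rfl⟩, h5⟩ := hx t ht
      refine ⟨θ, h4, fun _ => ?_⟩
      rw [← h5, hf, smul_inv_smul₀ hQ0.ne']; abel
    · exact ⟨0, by rw [norm_zero]; linarith, fun h => absurd h ht⟩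
  choose θ h4 h5 using hθ
  refine ⟨θ, h4, fun T' hT' a ha => ?_⟩
  rw [Finset.sum_congr rfl fun t ht => h5 t ((Finset.mem_range.1 ht).trans_le hT'),
    Finset.sum_add_distrib, ← Finset.smul_sum, inner_add_right, real_inner_smul_right]
  refine (abs_add_le _ _).trans (add_le_add ?_ ?_)
  · rw [abs_mul, abs_of_pos hQ0]
    exact mul_le_mul_of_nonneg_left (hs T' hT' a ha) hQ0.le
  · refine (abs_real_inner_le_norm _ _).trans ?_
    have k1 : ‖∑ t ∈ Finset.range T', y t‖ ≤ T' * ((C ^ 2 + 1) * R * Real.exp (-A)) := by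
      refine (norm_sum_le _ _).trans ((Finset.sum_le_sum fun t ht =>
        (hy t ((Finset.mem_range.1 ht).trans_le hT')).2).trans (le_of_eq ?_))
      rw [Finset.sum_const, Finset.card_range, nsmul_eq_mul]
    have k2 : (T' : ℝ) * Real.exp (-A) ≤ 1 := by
      have : (T' : ℝ) ≤ Real.exp A := le_trans (by exact_mod_cast hT') hT
      rw [Real.exp_neg, ← div_eq_mul_inv, div_le_one (Real.exp_pos _)]; exact this
    calc _ ≤ 1 * (T' * ((C ^ 2 + 1) * R * Real.exp (-A))) := by gcongr; exact hF a ha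
      _ = (C ^ 2 + 1) * R * (T' * Real.exp (-A)) := by ring
      _ ≤ (C ^ 2 + 1) * R * 1 := by gcongr
      _ = _ := mul_one _

/-- test vectors: weighted averages over a window of N grid points -/
def tv (N M : ℕ) (k : Fin 2) (τ : Fin 3) (j : ℕ) (w : ℕ → ℝ) :
    EuclideanSpace ℝ (Fin 2 × Fin 3 × Fin M) :=
  WithLp.toLp 2 fun p => if p.1 = k ∧ p.2.1 = τ ∧ j ≤ p.2.2.val ∧ p.2.2.val < j + N then
    w (p.2.2.val - j) / √N else 0

lemma win (N M j : ℕ) (k : Fin 2) (τ : Fin 3) (G : ℕ → ℝ) :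
    (∑ p : Fin 2 × Fin 3 × Fin M,
      if p.1 = k ∧ p.2.1 = τ ∧ j ≤ p.2.2.val ∧ p.2.2.val < j + N then G p.2.2.val else 0) =
      ∑ i ∈ Finset.range N, if j + i < M then G (j + i) else 0 := by
  have h1 : (∑ p : Fin 2 × Fin 3 × Fin M,
      if p.1 = k ∧ p.2.1 = τ ∧ j ≤ p.2.2.val ∧ p.2.2.val < j + N then G p.2.2.val else 0) =
      ∑ i : Fin M, if j ≤ i.val ∧ i.val < j + N then G i.val else 0 := by
    simp only [Fintype.sum_prod_type, ite_and, Finset.sum_ite_irrel, Finset.sum_const_zero,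
      Finset.sum_ite_eq', Finset.mem_univ, if_true]
  rw [h1, Fin.sum_univ_eq_sum_range (fun i => if j ≤ i ∧ i < j + N then G i else 0) M,
    ← Finset.sum_filter, ← Finset.sum_filter]
  refine Finset.sum_nbij' (fun i => i - j) (fun i => j + i) ?_ ?_ ?_ ?_ ?_ <;> intro i hi <;>
    simp only [Finset.mem_filter, Finset.mem_range] at hi ⊢
  · omega
  · omega
  · omega
  · omega
  · congr 1; omega

lemma tv_norm {N : ℕ} (hN : 0 < N) (M : ℕ) (k : Fin 2) (τ : Fin 3) (j : ℕ) {w : ℕ → ℝ}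
    (hw : ∀ i < N, |w i| ≤ 1) : ‖tv N M k τ j w‖ ≤ 1 := by
  have h0 : (0 : ℝ) < N := by exact_mod_cast hN
  rw [EuclideanSpace.norm_eq, Real.sqrt_le_one]
  have h1 : ∀ p : Fin 2 × Fin 3 × Fin M, ‖tv N M k τ j w p‖ ^ 2 =
      if p.1 = k ∧ p.2.1 = τ ∧ j ≤ p.2.2.val ∧ p.2.2.val < j + N then
        w (p.2.2.val - j) ^ 2 / N else 0 := fun p => by
    simp only [tv]
    split_ifs
    · rw [Real.norm_eq_abs, sq_abs, div_pow, Real.sq_sqrt h0.le]
    · simp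
  simp only [h1]
  rw [win N M j k τ fun i => w (i - j) ^ 2 / N]
  calc _ ≤ ∑ _i ∈ Finset.range N, (1 / N : ℝ) := by
        refine Finset.sum_le_sum fun i hi => ?_
        split_ifs
        · rw [Nat.add_sub_cancel_left]
          gcongr
          exact (sq_le_one_iff_abs_le_one _).2 (hw i (Finset.mem_range.1 hi))
        · positivity
    _ = 1 := by rw [Finset.sum_const, Finset.card_range, nsmul_eq_mul]; field_simp

lemma tv_inner {N : ℕ} (hN : 0 < N) (M : ℕ) (k : Fin 2) (τ : Fin 3) (j : ℕ) (w z : ℕ → ℝ)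
    (Y : EuclideanSpace ℝ (Fin 2 × Fin 3 × Fin M)) (hY : ∀ i : Fin M, Y (k, τ, i) = z i / √N)
    (hz : ∀ i, M ≤ i → z i = 0) :
    inner ℝ (tv N M k τ j w) Y = ∑ i ∈ Finset.range N, w i * z (j + i) / N := by
  have h0 : (0 : ℝ) < N := by exact_mod_cast hN
  rw [PiLp.inner_apply]
  have h1 : ∀ p : Fin 2 × Fin 3 × Fin M, inner ℝ (tv N M k τ j w p) (Y p) =
      if p.1 = k ∧ p.2.1 = τ ∧ j ≤ p.2.2.val ∧ p.2.2.val < j + N then
        w (p.2.2.val - j) * z p.2.2.val / N else 0 := by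
    rintro ⟨a, b, i⟩
    simp only [tv]
    split_ifs with h
    · obtain ⟨rfl, rfl, -⟩ := h
      rw [hY, Real.inner_apply, div_mul_div_comm, Real.mul_self_sqrt h0.le]
    · simp
  simp only [h1]
  rw [win N M j k τ fun i => w (i - j) * z i / N]
  refine Finset.sum_congr rfl fun i _ => ?_
  split_ifs with h
  · rw [Nat.add_sub_cancel_left]
  · rw [hz _ (not_lt.1 h)]; simp

lemma norm_le_of_supp {N M : ℕ} (hN : 0 < N) (Y : EuclideanSpace ℝ (Fin 2 × Fin 3 × Fin M))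
    {β q : ℝ} (hβ : 0 ≤ β) (hq : 1 ≤ q) (j L : ℕ) (hL : (L : ℝ) ≤ 6 * q * N)
    (h1 : ∀ p, |Y p| ≤ β / √N) (h2 : ∀ p, ¬ (j ≤ p.2.2.val ∧ p.2.2.val < j + L) → Y p = 0) :
    ‖Y‖ ≤ 6 * β * √q := by
  have h0 : (0 : ℝ) < N := by exact_mod_cast hN
  rw [EuclideanSpace.norm_eq, Real.sqrt_le_left (by positivity)]
  have h3 : ∀ p : Fin 2 × Fin 3 × Fin M, ‖Y p‖ ^ 2 ≤ ∑ k : Fin 2, ∑ τ : Fin 3,
      if p.1 = k ∧ p.2.1 = τ ∧ j ≤ p.2.2.val ∧ p.2.2.val < j + L then β ^ 2 / N else 0 := by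
    intro p
    simp only [ite_and, Finset.sum_ite_irrel, Finset.sum_const_zero, Finset.sum_ite_eq,
      Finset.mem_univ, if_true]
    rw [← ite_and]
    split_ifs with h
    · rw [← Real.sq_sqrt h0.le, ← div_pow, Real.norm_eq_abs]
      exact pow_le_pow_left₀ (abs_nonneg _) (h1 p) 2
    · rw [h2 p h]; simp
  refine (Finset.sum_le_sum fun p _ => h3 p).trans ?_
  rw [Finset.sum_comm]
  calc _ ≤ ∑ _k : Fin 2, ∑ _τ : Fin 3, 6 * q * β ^ 2 := by
        refine Finset.sum_le_sum fun k _ => ?_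
        rw [Finset.sum_comm]
        refine Finset.sum_le_sum fun τ _ => ?_
        rw [win L M j k τ fun _ => β ^ 2 / N]
        calc _ ≤ ∑ _i ∈ Finset.range L, β ^ 2 / N := Finset.sum_le_sum fun i _ => by
              split_ifs; exacts [le_rfl, by positivity]
          _ = L * (β ^ 2 / N) := by rw [Finset.sum_const, Finset.card_range, nsmul_eq_mul]
          _ ≤ 6 * q * N * (β ^ 2 / N) := by gcongr
          _ = _ := by field_simp
    _ = _ := by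
        rw [mul_pow, Real.sq_sqrt (by linarith)]
        simp only [Finset.sum_const, Finset.card_univ, Fintype.card_fin, nsmul_eq_mul]
        push_cast; ring

/-- from the grid to the line -/
lemma interp {S : ℝ → ℝ} {K h N a D : ℝ} (hS : L2 S (N * K / h) (N * K / h ^ 2)) (hh : 0 < h)
    (hN : 0 < N) (hK : 0 ≤ K) (hD : 0 ≤ D) (h0 : ∀ u, u ≤ a → S u = 0)
    (h1 : ∀ τ < 2, ∀ j, |dq N τ (fun j => S (a + j * (h / N))) j| ≤ D) :
    (∀ u, |S u| ≤ D + 2 * K) ∧ ∀ u u', |S u - S u'| ≤ (D + 2 * K) / h * |u - u'| := by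
  have hη : 0 < h / N := by positivity
  have key : ∀ u, ∃ y, |u - y| ≤ h / N ∧ |S y| ≤ D ∧ |N * (S (y + h / N) - S y)| ≤ D := by
    intro u
    rcases le_total u a with hu | hu
    · refine ⟨u - h / N, by rw [sub_sub_cancel, abs_of_pos hη], ?_, ?_⟩
      · rw [h0 _ (by linarith), abs_zero]; exact hD
      · rw [sub_add_cancel, h0 u hu, h0 _ (by linarith)]; simpa using hD
    · set j := ⌊(u - a) / (h / N)⌋₊ with hj
      have k1 : (j : ℝ) ≤ (u - a) / (h / N) := Nat.floor_le (div_nonneg (by linarith) hη.le)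
      have k2 : (u - a) / (h / N) < j + 1 := Nat.lt_floor_add_one _
      rw [le_div_iff₀ hη] at k1
      rw [div_lt_iff₀ hη] at k2
      refine ⟨a + j * (h / N), abs_le.2 ⟨by linarith, by linarith⟩, h1 0 (by norm_num) j, ?_⟩
      have k3 := h1 1 (by norm_num) j
      simp only [dq] at k3
      rwa [show a + ((j + 1 : ℕ) : ℝ) * (h / N) = a + j * (h / N) + h / N by push_cast; ring] at k3
  have hn1 := hS.n1
  have hn2 := hS.n2
  refine ⟨fun u => ?_, fun u u' => ?_⟩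
  · obtain ⟨y, k1, k2, -⟩ := key u
    have k3 : |S u - S y| ≤ N * K / h * (h / N) := (hS.b1 u y).trans (by gcongr; exact k1)
    rw [show N * K / h * (h / N) = K by field_simp] at k3
    linarith [abs_sub_abs_le_abs_sub (S u) (S y)]
  · refine convex_univ.norm_image_sub_le_of_norm_fderiv_le (𝕜 := ℝ)
      (fun x _ => hS.differentiable x) (fun x _ => ?_) (mem_univ u') (mem_univ u)
    obtain ⟨y, k1, -, k2⟩ := key x
    have k3 : ‖fderiv ℝ S x - fderiv ℝ S y‖ ≤ N * K / h ^ 2 * (h / N) :=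
      (hS.fderiv_lip x y).trans (by gcongr; exact k1)
    rw [show N * K / h ^ 2 * (h / N) = K / h by field_simp] at k3
    have k4 := hS.taylor y (h / N)
    have k5 : fderiv ℝ S y (h / N) = h / N * fderiv ℝ S y 1 := by
      rw [← smul_eq_mul, ← map_smul, smul_eq_mul, mul_one]
    rw [k5, Real.norm_of_nonneg hη.le, Real.norm_eq_abs] at k4
    have k6 : |fderiv ℝ S y 1| ≤ (D + K) / h := by
      rw [le_div_iff₀ hh]
      have e : fderiv ℝ S y 1 * h = N * (S (y + h / N) - S y) -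
          N * (S (y + h / N) - S y - h / N * fderiv ℝ S y 1) := by field_simp; ring
      rw [← abs_of_pos hh, ← abs_mul, e]
      refine (abs_sub _ _).trans (add_le_add k2 ?_)
      rw [abs_mul, abs_of_pos hN]
      calc _ ≤ N * (N * K / h ^ 2 * (h / N) ^ 2) := by gcongr
        _ = K := by field_simp
    have k7 : ‖fderiv ℝ S y‖ ≤ (D + K) / h := by
      refine ContinuousLinearMap.opNorm_le_bound _ (by positivity) fun v => ?_
      have : fderiv ℝ S y v = v * fderiv ℝ S y 1 := by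
        rw [← smul_eq_mul, ← map_smul, smul_eq_mul, mul_one]
      rw [this, norm_mul, mul_comm]
      gcongr; exact k6
    have k8 := norm_le_insert' (fderiv ℝ S x) (fderiv ℝ S y)
    have e : (D + 2 * K) / h = (D + K) / h + K / h := by ring
    linarith

end Bal

open Bal in
theorem bal_of (hG : GaStmt) (hA : AlsStmt) : BalStmt := by
  classical
  obtain ⟨C, hC, ⟨g1, g2⟩, g3, -, -⟩ := hG
  refine ⟨1000 * (C ^ 2 + 17), by nlinarith [sq_nonneg C], ?_⟩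
  intro T v x B h l Lb A d hB hh hl hLb hA1 hT hx hsupp hD hM hd
  have hl0 : 0 < l := by linarith
  have hq : 1 ≤ l / h := (one_le_div hh).2 hl
  have hq' : 1 ≤ Lb / h := (one_le_div hh).2 (hl.trans hLb)
  have hT0 : (0 : ℝ) ≤ T := Nat.cast_nonneg T
  obtain ⟨N, hN⟩ : ∃ N : ℕ, N = T + 1 := ⟨_, rfl⟩
  have hN0 : 0 < N := by omega
  have hNr : (N : ℝ) = T + 1 := by rw [hN]; push_cast; ring
  have hN1 : (1 : ℝ) ≤ N := by linarith
  have hNp : (0 : ℝ) < N := by linarith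
  have hη : 0 < h / N := by positivity
  set M : ℕ := ⌈4 * Lb / (h / N)⌉₊ with hMdef
  have hM1 : 4 * Lb ≤ M * (h / N) := (div_le_iff₀ hη).1 (Nat.le_ceil _)
  have hM2 : (M : ℝ) < 4 * Lb / (h / N) + 1 := Nat.ceil_lt_add_one (by
    have : 0 < Lb := by linarith
    positivity)
  clear_value M
  set P : ℝ := 2 + T + Lb / h with hP
  have hP3 : 3 ≤ P := by linarith
  have hlog : 1 ≤ Real.log P := by
    rw [Real.le_log_iff_exp_le (by linarith)]; linarith [Real.exp_one_lt_d9]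
  have hsq : 1 ≤ √(l / h) := Real.one_le_sqrt.2 hq
  let s : ℕ → Fin 2 → ℂ → ℕ → ℝ := fun t k θ j => v t k θ (-2 * Lb + j * (h / N))
  let X : ℕ → ℂ → EuclideanSpace ℝ (Fin 2 × Fin 3 × Fin M) := fun t θ =>
    WithLp.toLp 2 fun p => dq N p.2.1 (s t p.1 θ) p.2.2 / √N
  have hint : ∀ t < T, ∀ k τ j, Measurable (fun θ => dq N τ (s t k θ) j) ∧
      Integrable (fun θ => dq N τ (s t k θ) j) gam ∧ ∫ θ, dq N τ (s t k θ) j ∂gam = 0 := by
    intro t ht k
    refine dq_int N (s t k) fun j => ⟨(hM t ht k _).1, ?_, (hM t ht k _).2⟩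
    exact ((gam_pow 4).const_mul B).mono' (hM t ht k _).1.aestronglyMeasurable
      (Eventually.of_forall fun θ => ((hD t ht k θ).b0 _).trans
        (mul_le_mul_of_nonneg_left (pw_le hA1 θ) hB.le))
  have hout : ∀ t < T, ∀ k θ τ j, M ≤ j → dq N τ (s t k θ) j = 0 := by
    intro t ht k θ τ j hj
    refine dq_zero _ _ _ _ fun i _ => hsupp t ht k θ _ (le_trans ?_ (le_abs_self _))
    have k1 : (M : ℝ) * (h / N) ≤ ((j + i : ℕ) : ℝ) * (h / N) := by
      gcongr; exact_mod_cast (by omega : M ≤ j + i)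
    linarith [(abs_le.1 (hx t ht)).2]
  let w1 : ℕ → ℝ := fun _ => 1
  let w2 : ℕ → ℝ := fun i => ((N : ℝ) - 1 - i) / N
  let F : Finset (EuclideanSpace ℝ (Fin 2 × Fin 3 × Fin M)) :=
    Finset.univ.image (fun p : Fin 2 × Fin 3 × Fin M => tv N M p.1 p.2.1 p.2.2 w1) ∪
      Finset.univ.image fun p : Fin 2 × Fin 3 × Fin M => tv N M p.1 p.2.1 p.2.2 w2
  obtain ⟨θ, hθ, hb⟩ := vec hA (R := 6 * B * √(l / h)) (c := 72 * Real.log P) hC g1 g2 g3
    (by positivity) hA1 T hT X (fun t ht => (WithLp.measurable_toLp 2 _).comp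
      (measurable_pi_lambda _ fun p => (hint t ht _ _ _).1.div_const _)) (fun t ht θ => by
      have k0 : 0 ≤ B * (1 + ‖θ‖ / A) ^ 4 := by positivity
      set p : ℝ := (x t - l + 2 * Lb) / (h / N) - 2 with hp
      have k1 := norm_le_of_supp hN0 (X t θ) k0 hq ⌈p⌉₊ ⌈2 * l / (h / N) + 2⌉₊ (by
        have k2 := Nat.ceil_lt_add_one (show 0 ≤ 2 * l / (h / N) + 2 by positivity)
        have k3 : 2 * l / (h / N) = 2 * (l / h * N) := by field_simp
        have k4 : 1 ≤ l / h * N := one_le_mul_of_one_le_of_one_le hq hN1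
        linarith) (fun p => by
        simp only [X]
        rw [abs_div, abs_of_nonneg (Real.sqrt_nonneg _)]
        gcongr
        exact dq_bd (hD t ht p.1 θ) hh hNp p.2.1 p.2.2) (fun r hr => by
        simp only [X]
        rw [dq_zero, zero_div]
        intro i hi
        have hi2 : (i : ℝ) ≤ 2 := by exact_mod_cast (by omega : i ≤ 2)
        have hi0 : (0 : ℝ) ≤ i := Nat.cast_nonneg i
        refine hsupp t ht _ θ _ ?_
        by_contra k2
        obtain ⟨k3, k4⟩ := abs_lt.1 (not_le.1 k2)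
        push_cast at k3 k4
        have k5 : p < r.2.2.val := by
          rw [hp, sub_lt_iff_lt_add, div_lt_iff₀ hη]; nlinarith
        have k6 : (r.2.2.val : ℝ) < p + (2 * l / (h / N) + 2) := by
          have : p + (2 * l / (h / N) + 2) = (x t + l + 2 * Lb) / (h / N) := by rw [hp]; ring
          rw [this, lt_div_iff₀ hη]; nlinarith
        refine hr ⟨Nat.ceil_le.2 k5.le, ?_⟩
        have k7 := Nat.le_ceil p
        have k8 := Nat.le_ceil (2 * l / (h / N) + 2)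
        exact_mod_cast (by push_cast; linarith :
          (r.2.2.val : ℝ) < ((⌈p⌉₊ + ⌈2 * l / (h / N) + 2⌉₊ : ℕ) : ℝ)))
      exact k1.trans (le_of_eq (by ring))) (fun t ht => by
      ext p
      rw [eval_integral_piLp fun p => (hint t ht _ _ _).2.1.div_const _]
      simp only [X]
      rw [integral_div, (hint t ht _ _ _).2.2]; simp) F (fun a ha => by
      rcases Finset.mem_union.1 ha with ha | ha <;> obtain ⟨p, -, rfl⟩ := Finset.mem_image.1 ha
      · exact tv_norm hN0 _ _ _ _ fun i _ => by simp [w1]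
      · refine tv_norm hN0 _ _ _ _ fun i hi => ?_
        have : (i : ℝ) + 1 ≤ N := by exact_mod_cast hi
        have hi0 : (0 : ℝ) ≤ i := Nat.cast_nonneg i
        simp only [w2]
        rw [abs_of_nonneg (div_nonneg (by linarith) hNp.le), div_le_one hNp]; linarith) (by
      have k1 : Fintype.card (Fin 2 × Fin 3 × Fin M) = 6 * M := by simp; ring
      have k2 : F.card ≤ 12 * M := by
        refine (Finset.card_union_le _ _).trans ((add_le_add Finset.card_image_le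
          Finset.card_image_le).trans ?_)
        rw [Finset.card_univ, k1]; omega
      have k3 : (F.card : ℝ) ≤ 12 * M := by exact_mod_cast k2
      have k4 : (M : ℝ) ≤ 5 * P ^ 2 := by
        have e : 4 * Lb / (h / N) = 4 * (Lb / h * N) := by field_simp
        have : Lb / h * N ≤ P * P := by gcongr <;> linarith
        nlinarith
      have k5 : Real.exp (72 * Real.log P / 8) = P ^ 9 := by
        rw [show 72 * Real.log P / 8 = (9 : ℕ) * Real.log P by push_cast; ring, Real.exp_nat_mul,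
          Real.exp_log (by linarith)]
      rw [k1, k5]
      push_cast
      have k6 : (3 : ℝ) ^ 6 ≤ P ^ 6 := by gcongr
      have k7 : 1 ≤ P ^ 2 := one_le_pow₀ (by linarith)
      calc _ ≤ 4 * (91 * P ^ 2) * P := by gcongr <;> linarith
        _ = 364 * P ^ 3 := by ring
        _ ≤ P ^ 6 * P ^ 3 := by gcongr; linarith
        _ = _ := by ring)
  refine ⟨θ, hθ, fun T' hT' k => ?_⟩
  set D : ℝ := (C ^ 2 + 17) * (6 * B * √(l / h)) * (72 * Real.log P) +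
    (C ^ 2 + 1) * (6 * B * √(l / h)) with hDdef
  have hD0 : 0 ≤ D := by positivity
  have hlt : ∀ t ∈ Finset.range T', t < T := fun t ht => (Finset.mem_range.1 ht).trans_le hT'
  set σ : ℕ → ℝ := fun j => ∑ t ∈ Finset.range T', s t k (θ t) j with hσ
  have hz : ∀ τ j, M ≤ j → dq N τ σ j = 0 := fun τ j hj => by
    rw [hσ, dq_sum]; exact Finset.sum_eq_zero fun t ht => hout t (hlt t ht) _ _ _ _ hj
  have hY : ∀ (τ : Fin 3) (i : Fin M), (∑ t ∈ Finset.range T', X t (θ t)) (k, τ, i) =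
      dq N τ σ i / √N := fun τ i => by
    rw [hσ, dq_sum, Finset.sum_div, WithLp.ofLp_sum, Finset.sum_apply]
  have hS : L2 (fun u => ∑ t ∈ Finset.range T', v t k (θ t) u) (N * (16 * B) / h)
      (N * (16 * B) / h ^ 2) := by
    have k0 : (T' : ℝ) ≤ N := by exact_mod_cast (by omega : T' ≤ N)
    have k1 : ∀ t, B * (1 + ‖θ t‖ / A) ^ 4 ≤ 16 * B := fun t => by
      rw [mul_comm 16]; gcongr; exact pw_le' hA1 (hθ t)
    refine (D2.sum (Finset.range T') (B0 := fun _ => 16 * B) (B1 := fun _ => 16 * B / h)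
      (B2 := fun _ => 16 * B / h ^ 2) fun t ht => D2.mono (hD t (hlt t ht) k (θ t)) (k1 t)
        (div_le_div_of_nonneg_right (k1 t) hh.le)
        (div_le_div_of_nonneg_right (k1 t) (by positivity))).toL2.mono ?_ ?_ <;>
      rw [Finset.sum_const, Finset.card_range, nsmul_eq_mul, ← mul_div_assoc] <;> gcongr
  obtain ⟨r1, r2⟩ := interp (a := -2 * Lb) (D := 2 * D) hS hh hNp (by positivity) (by positivity)
    (fun u hu => Finset.sum_eq_zero fun t ht => hsupp t (hlt t ht) _ _ _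
      (le_trans (by linarith [(abs_le.1 (hx t (hlt t ht))).1]) (neg_le_abs _))) (fun τ hτ j => by
      change |dq N τ σ j| ≤ 2 * D
      rcases le_or_gt M j with hj | hj
      · rw [hz τ j hj, abs_zero]; positivity
      have k1 := hb T' hT' _ (Finset.mem_union_left _ (Finset.mem_image_of_mem _
        (Finset.mem_univ (k, (⟨τ, by omega⟩ : Fin 3), (⟨j, hj⟩ : Fin M)))))
      have k2 := hb T' hT' _ (Finset.mem_union_right _ (Finset.mem_image_of_mem _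
        (Finset.mem_univ (k, (⟨τ + 1, by omega⟩ : Fin 3), (⟨j, hj⟩ : Fin M)))))
      rw [tv_inner hN0 M _ _ _ _ _ _ (hY _) (hz _)] at k1 k2
      rw [dq_tele σ τ j N hN0]
      exact (abs_sub _ _).trans (by rw [two_mul]; exact add_le_add k1 k2))
  have hfin : 2 * D + 2 * (16 * B) ≤ d := by
    refine le_trans ?_ hd
    have k1 : B ≤ B * √(l / h) := le_mul_of_one_le_right hB.le hsq
    have k2 : B * √(l / h) ≤ B * √(l / h) * Real.log P :=
      le_mul_of_one_le_right (by positivity) hlog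
    have k3 : 0 ≤ C ^ 2 := sq_nonneg C
    have k4 : C ^ 2 * (B * √(l / h)) ≤ C ^ 2 * (B * √(l / h) * Real.log P) := by gcongr
    have k5 : 0 ≤ C ^ 2 * (B * √(l / h)) := by positivity
    rw [hDdef]
    nlinarith
  exact ⟨fun u => (r1 u).trans hfin, fun u u' => (r2 u u').trans (by gcongr)⟩

end
end Pool.Agent.MP_20bec2_an.Pl

end MrgPart0

-- ======== part 1: formerly Pool.Agent.MP_20bec2_an.Pl.Corr1
section MrgPart1

/-! PROJECT PLANE, module CORR, first file: constants, data of the steps, one step. -/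

set_option autoImplicit false
open MeasureTheory Set Complex Filter Finset

namespace Pool.Agent.MP_20bec2_an.Pl
noncomputable section

namespace Corr

/-- the size relations between the constants -/
structure Sm (D K β W s ε Λ : ℝ) : Prop where
  D1 : 1 ≤ D
  K1 : 1 ≤ K
  hβ : 290 * K ^ 2 ≤ β
  hW : W = 10 ^ 7 * (D * β * K ^ 2)
  s0 : 0 < s
  e0 : 0 ≤ ε
  hs : 1000 * W * s ≤ 1
  he : 1000 * W * ε ≤ 1
  hΛ : 1 ≤ s ^ 4 * Λ

variable {D K β W s ε Λ h : ℝ}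

lemma Sm.m1 (H : Sm D K β W s ε Λ) : 1 ≤ K ^ 2 := one_le_pow₀ H.K1
lemma Sm.Km (H : Sm D K β W s ε Λ) : K ≤ K ^ 2 := le_self_pow₀ H.K1 two_ne_zero
lemma Sm.β1 (H : Sm D K β W s ε Λ) : 290 ≤ β := by linarith [H.m1, H.hβ]

lemma Sm.w (H : Sm D K β W s ε Λ) : 10 ^ 7 * (D * β) ≤ W ∧ 10 ^ 7 * (D * K ^ 2) ≤ W ∧
    10 ^ 7 * β ≤ W ∧ 10 ^ 7 * D ≤ W ∧ 10 ^ 7 * K ^ 2 ≤ W ∧ 10 ^ 7 ≤ W ∧
    10 ^ 9 * (D * K ^ 2 * K ^ 2) ≤ W := by
  have h1 := H.D1
  have h2 := H.m1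
  have h3 := H.β1
  have h4 := H.hβ
  rw [H.hW]
  generalize K ^ 2 = m at *
  have a1 : D * β ≤ D * β * m := le_mul_of_one_le_right (by positivity) h2
  have a2 : β ≤ D * β := le_mul_of_one_le_left (by positivity) h1
  have a3 : D * (290 * m) * m ≤ D * β * m := by gcongr
  have a4 : D * m ≤ D * m * m := le_mul_of_one_le_right (by positivity) h2
  have a5 : m ≤ D * m := le_mul_of_one_le_left (by positivity) h1
  have a6 : D ≤ D * m := le_mul_of_one_le_right (by positivity) h2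
  refine ⟨?_, ?_, ?_, ?_, ?_, ?_, ?_⟩ <;> linarith

/-- a quantity below W is negligible after multiplication with s or ε -/
lemma Sm.small (H : Sm D K β W s ε Λ) {c : ℝ} (hc : c ≤ W) :
    c * s ≤ 1 / 1000 ∧ c * ε ≤ 1 / 1000 :=
  ⟨by linarith [mul_le_mul_of_nonneg_right hc H.s0.le, H.hs],
    by linarith [mul_le_mul_of_nonneg_right hc H.e0, H.he]⟩

lemma Sm.s1 (H : Sm D K β W s ε Λ) : s ≤ 1 / 10 ^ 10 := by
  linarith [(H.small H.w.2.2.2.2.2.1).1]

lemma Sm.e1 (H : Sm D K β W s ε Λ) : ε ≤ 1 / 10 ^ 10 := by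
  linarith [(H.small H.w.2.2.2.2.2.1).2]

lemma Sm.pw (H : Sm D K β W s ε Λ) {i j : ℕ} (hij : i ≤ j) : s ^ j ≤ s ^ i :=
  pow_le_pow_of_le_one H.s0.le (by linarith [H.s1]) hij

lemma Sm.s2 (H : Sm D K β W s ε Λ) : s ^ 2 ≤ s := by simpa using H.pw (i := 1) one_le_two

lemma Sm.L0 (H : Sm D K β W s ε Λ) : 0 < Λ := by
  by_contra h
  have := mul_nonpos_of_nonneg_of_nonpos (pow_pos H.s0 4).le (not_lt.1 h)
  linarith [H.hΛ]

lemma Sm.sL (H : Sm D K β W s ε Λ) {i : ℕ} (hi : i ≤ 4) : 1 ≤ s ^ i * Λ :=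
  H.hΛ.trans (mul_le_mul_of_nonneg_right (H.pw hi) H.L0.le)

lemma Sm.L1 (H : Sm D K β W s ε Λ) : 1 ≤ Λ := by simpa using H.sL (i := 0) (by norm_num)

lemma Sm.LW (H : Sm D K β W s ε Λ) : 1000 * W ≤ Λ := by
  have h1 : 1 ≤ s * Λ := by simpa using H.sL (i := 1) (by norm_num)
  have h2 : 0 ≤ 1000 * W := by linarith [H.w.2.2.2.2.2.1]
  nlinarith [mul_le_mul_of_nonneg_left h1 h2, mul_le_mul_of_nonneg_right H.hs H.L0.le]

lemma Sm.Lp (H : Sm D K β W s ε Λ) {i j : ℕ} (hij : i ≤ j) : Λ ^ i ≤ Λ ^ j :=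
  pow_le_pow_right₀ H.L1 hij

lemma Sm.inv (H : Sm D K β W s ε Λ) {i : ℕ} (hi : 1 ≤ i) : 1 / Λ ^ i ≤ s ^ 4 := by
  have := H.L0
  rw [div_le_iff₀ (by positivity)]
  exact H.hΛ.trans (mul_le_mul_of_nonneg_left (by simpa using H.Lp hi) (pow_pos H.s0 4).le)

/-- cell data together with the bounds that are needed for a deterministic step -/
def Dat (n : ℂ → ℂ) (K β s ε Λ h : ℝ) (P p1 p2 : ℂ → ℝ) : Prop :=
  ∃ (z : ℤ × ℤ → ℂ) (L : ℝ) (e1 e2 : ℤ × ℤ → ℝ → ℝ) (M1 l1 M2 l2 τP f1 f2 : ℝ),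
    Cells n z L e1 e2 M1 l1 M2 l2 P p1 p2 τP f1 f2 ∧ h ≤ l1 ∧ h ≤ l2 ∧ l1 ≤ L ∧ l2 ≤ L ∧
    L ≤ Λ ^ 3 * h ∧ M1 * M2 / (h * l2) ≤ 144 * K ^ 2 * s ∧
    L * (M1 * M2) / (l2 * h ^ 2) ≤ 144 * K ^ 2 * s * Λ ^ 2 ∧
    (∀ x y b : ℝ, 0 ≤ x → x ≤ 111 * K ^ 2 * s ^ 2 → 0 ≤ y → y ≤ 111 * (ε + s) → 0 ≤ b →
      b ≤ β * s → M1 * M2 / (l1 * L) + M1 * M2 / l2 * (s ^ 2 / h + y / l1 + x / l2 + b * y / h) ≤
        113 * K ^ 2 * β * (ε + s) * s ^ 2) ∧
    τP ≤ 144 * K ^ 2 * s ^ 2 ∧ f1 ≤ 144 * K ^ 2 * s ^ 3 ∧ f2 ≤ 144 * K ^ 2 * s ^ 2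

variable {n : ℂ → ℂ} {z : ℤ × ℤ → ℂ} {e1 e2 : ℤ × ℤ → ℝ → ℝ} {P p1 p2 : ℂ → ℝ}

lemma datA (H : Sm D K β W s ε Λ) (hh : 0 < h) {A : ℝ} (hA0 : 0 ≤ A) (hA : A ≤ 144 * s * Λ ^ 2)
    (hc : Cells n z (Λ ^ 3 * h) e1 e2 (K * A * h ^ 2) h K (Λ ^ 3 * h) P p1 p2
      (K * A * h / (Λ ^ 3 * h)) (K * A * h / (Λ ^ 3 * h)) (K * A * h / (Λ ^ 3 * h))) :
    Dat n K β s ε Λ h P p1 p2 := by
  have hL := H.L0
  have s0 := H.s0
  have e0 := H.e0
  have m1 := H.m1
  have b1 := H.β1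
  have h3 : 1 ≤ Λ ^ 3 := one_le_pow₀ H.L1
  have h1 : h ≤ Λ ^ 3 * h := le_mul_of_one_le_left hh.le h3
  obtain ⟨v, hv⟩ : ∃ v, v = A / Λ ^ 3 := ⟨_, rfl⟩
  have v0 : 0 ≤ v := by rw [hv]; positivity
  have v1 : v ≤ 144 * s ^ 3 := by
    rw [hv, div_le_iff₀ (by positivity)]
    have := mul_le_mul_of_nonneg_left (H.sL (i := 2) (by norm_num))
      (show 0 ≤ 144 * s * Λ ^ 2 by positivity)
    linarith
  have v2 : K ^ 2 * v ≤ 144 * K ^ 2 * s ^ 3 := by nlinarith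
  have v3 : K * v ≤ 144 * K ^ 2 * s ^ 3 := (mul_le_mul_of_nonneg_right H.Km v0).trans v2
  have v4 : 144 * K ^ 2 * s ^ 3 ≤ 144 * K ^ 2 * s ^ 2 :=
    mul_le_mul_of_nonneg_left (H.pw (by norm_num)) (by positivity)
  have v5 : 144 * K ^ 2 * s ^ 2 ≤ 144 * K ^ 2 * s := mul_le_mul_of_nonneg_left H.s2 (by positivity)
  have q1 : K * A * h / (Λ ^ 3 * h) = K * v := by rw [hv]; field_simp
  refine ⟨z, _, e1, e2, _, _, _, _, _, _, _, hc, le_rfl, h1, h1, le_rfl, le_rfl, ?_, ?_,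
    fun x y b x0 x1 y0 y1 b0 b2 => ?_, by linarith, by linarith, by linarith⟩
  · exact le_trans (le_of_eq (by rw [hv]; field_simp)) ((v2.trans v4).trans v5)
  · refine le_trans (le_of_eq (show _ = K ^ 2 * A by field_simp)) ?_
    nlinarith
  · have a1 := (H.small H.w.2.2.2.2.1).1
    have a2 := (H.small H.w.2.2.1).1
    have a3 : x / Λ ^ 3 ≤ 1 := (div_le_one (by positivity)).2 (by linarith)
    have a4 : y ≤ 1 := by linarith [H.s1, H.e1]
    have a5 : b * y ≤ 1 := mul_le_one₀ (by linarith) y0 a4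
    have a6 : K ^ 2 * v * (1 + (s ^ 2 + y + x / Λ ^ 3 + b * y)) ≤ 144 * K ^ 2 * s ^ 3 * 5 :=
      mul_le_mul v2 (by linarith [H.s2, H.s1]) (by positivity) (by positivity)
    have a7 : K ^ 2 * s ^ 2 * (290 * s) ≤ K ^ 2 * s ^ 2 * (β * (ε + s)) := by
      gcongr; linarith
    have a8 : 0 ≤ K ^ 2 * s ^ 3 := by positivity
    refine le_trans (le_of_eq (by rw [hv]; field_simp)) (a6.trans ?_)
    linarith

lemma zbd (H : Sm D K β W s ε Λ) {x y b u : ℝ} (x1 : x ≤ 111 * K ^ 2 * s ^ 2) (y0 : 0 ≤ y)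
    (y1 : y ≤ 111 * (ε + s)) (b2 : b ≤ β * s) (hu : u ≤ 113 * s * (ε + s)) :
    u + x + b * y ≤ 113 * β * (ε + s) * s := by
  have s0 := H.s0
  have e0 := H.e0
  have b1 := H.β1
  have a1 : b * y ≤ β * s * (111 * (ε + s)) := mul_le_mul b2 y1 y0 (by positivity)
  have a2 : 290 * K ^ 2 * (s * s) ≤ β * (s * (ε + s)) :=
    mul_le_mul H.hβ (mul_le_mul_of_nonneg_left (by linarith) s0.le) (by positivity) (by positivity)
  have a3 : 290 * (s * (ε + s)) ≤ β * (s * (ε + s)) := by gcongr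
  have a4 : 0 ≤ β * (s * (ε + s)) := by positivity
  linarith

lemma datC (H : Sm D K β W s ε Λ) (hh : 0 < h)
    (hc : Cells n z (h / s ^ 2) e1 e2 K (h / s ^ 2) (K * s * h ^ 2) h P p1 p2
      (K * s * h / (h / s ^ 2)) (K * s * h / (h / s ^ 2)) (K * s * h / (h / s ^ 2))) :
    Dat n K β s ε Λ h P p1 p2 := by
  have hL := H.L0
  have s0 := H.s0
  have e0 := H.e0
  have m1 := H.m1
  have s1 : s ≤ 1 := by linarith [H.s1]
  have h1 : h ≤ h / s ^ 2 := le_div_self hh.le (by positivity) (H.s2.trans s1)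
  have h2 : 1 ≤ s ^ 2 * Λ ^ 2 := (H.sL (i := 2) (by norm_num)).trans
    (mul_le_mul_of_nonneg_left (by simpa using H.Lp (i := 1) one_le_two) (by positivity))
  have q1 : K * s * h / (h / s ^ 2) = K * s ^ 3 := by field_simp
  have v3 : K * s ^ 3 ≤ K ^ 2 * s ^ 3 := mul_le_mul_of_nonneg_right H.Km (by positivity)
  have v4 : K ^ 2 * s ^ 3 ≤ K ^ 2 * s ^ 2 :=
    mul_le_mul_of_nonneg_left (H.pw (by norm_num)) (by positivity)
  have v5 : 0 ≤ K ^ 2 * s ^ 3 := by positivity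
  refine ⟨z, _, e1, e2, _, _, _, _, _, _, _, hc, h1, le_rfl, le_rfl, h1, ?_, ?_, ?_,
    fun x y b x0 x1 y0 y1 b0 b2 => ?_, by linarith, by linarith, by linarith⟩
  · rw [div_le_iff₀ (by positivity)]
    have := mul_le_mul_of_nonneg_left (h2.trans (mul_le_mul_of_nonneg_left
      (H.Lp (i := 2) (j := 3) (by norm_num)) (by positivity))) hh.le
    linarith
  · refine le_trans (le_of_eq (show _ = K ^ 2 * s by field_simp)) ?_
    nlinarith
  · refine le_trans (le_of_eq (show _ = K ^ 2 / s by field_simp)) ?_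
    rw [div_le_iff₀ s0]
    nlinarith
  · have a1 : y * s ^ 2 ≤ 111 * (ε + s) * s := mul_le_mul y1 H.s2 (by positivity) (by positivity)
    have a2 : s ^ 4 ≤ s ^ 2 := H.pw (by norm_num)
    have a3 := zbd H (u := s ^ 4 + s ^ 2 + y * s ^ 2) x1 y0 y1 b2 (by nlinarith)
    refine le_trans (le_of_eq (show _ = K ^ 2 * s * (s ^ 4 + s ^ 2 + y * s ^ 2 + x + b * y) by
      field_simp; ring)) ((mul_le_mul_of_nonneg_left a3 (by positivity)).trans_eq (by ring))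

lemma datB (H : Sm D K β W s ε Λ) (hh : 0 < h)
    (hc : Cells n z (h / s) e1 e2 (K * s ^ 2 * h) h (K * h) h P p1 p2
      (K * s ^ 2) (K * s ^ 2 * h / (h / s)) (K * s ^ 2)) : Dat n K β s ε Λ h P p1 p2 := by
  have hL := H.L0
  have s0 := H.s0
  have e0 := H.e0
  have m1 := H.m1
  have b1 := H.β1
  have s1 : s ≤ 1 := by linarith [H.s1]
  have h1 : h ≤ h / s := le_div_self hh.le s0 s1
  have q1 : K * s ^ 2 * h / (h / s) = K * s ^ 3 := by field_simp
  have v3 : K * s ^ 3 ≤ K ^ 2 * s ^ 3 := mul_le_mul_of_nonneg_right H.Km (by positivity)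
  have v4 : K * s ^ 2 ≤ K ^ 2 * s ^ 2 := mul_le_mul_of_nonneg_right H.Km (by positivity)
  have v5 : 0 ≤ K ^ 2 * s ^ 3 := by positivity
  have v6 : 0 ≤ K ^ 2 * s ^ 2 := by positivity
  have v7 : 0 ≤ K ^ 2 * s := by positivity
  refine ⟨z, _, e1, e2, _, _, _, _, _, _, _, hc, le_rfl, le_rfl, h1, h1, ?_, ?_, ?_,
    fun x y b x0 x1 y0 y1 b0 b2 => ?_, by linarith, by linarith, by linarith⟩
  · rw [div_le_iff₀ s0]
    have := mul_le_mul_of_nonneg_left ((H.sL (i := 1) (by norm_num)).trans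
      (mul_le_mul_of_nonneg_left (show Λ ≤ Λ ^ 3 by simpa using H.Lp (i := 1) (j := 3) (by norm_num))
        (by positivity))) hh.le
    linarith
  · refine le_trans (le_of_eq (show _ = K ^ 2 * s ^ 2 by field_simp)) ?_
    linarith [mul_le_mul_of_nonneg_left H.s2 (show 0 ≤ K ^ 2 by positivity)]
  · refine le_trans (le_of_eq (show _ = K ^ 2 * s by field_simp)) ?_
    linarith [mul_le_mul_of_nonneg_left (one_le_pow₀ H.L1 (n := 2)) v7]
  · have a3 := zbd H (u := s ^ 2) x1 y0 y1 b2 (by nlinarith)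
    have a4 : β * (ε + s) * s ≤ β * (ε + s) * (1 / 10 ^ 10) :=
      mul_le_mul_of_nonneg_left H.s1 (by positivity)
    have a5 : 290 * (ε + s) ≤ β * (ε + s) := by gcongr
    have a6 : s + y + (s ^ 2 + x + b * y) ≤ 113 * β * (ε + s) := by linarith
    refine le_trans (le_of_eq (show _ = K ^ 2 * s ^ 2 * (s + y + (s ^ 2 + x + b * y)) by
      field_simp; ring)) ((mul_le_mul_of_nonneg_left a6 v6).trans_eq (by ring))

/-- the deterministic step with explicit constants -/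
def DstP (C c0 : ℝ) : Prop := ∀ (z : ℤ × ℤ → ℂ) (w r P p1 p2 : ℂ → ℝ)
  (f Y n : ℂ → ℂ) (e1 e2 : ℤ × ℤ → ℝ → ℝ)
  (h b Af Ln L Λ ε η g1 μ1 μ2 M1 l1 M2 l2 τP f1 f2 b1 σ a Z : ℝ),
  Core w f Y r h b Af → Fr n Ln → 1 ≤ Λ → (∀ x, ‖fderiv ℝ f x‖ ≤ Λ) →
  (∀ x, ‖fderiv ℝ Y x - 1‖ ≤ 1 / 20) →
  (∀ x, ‖V1 Y n x - n x‖ ≤ μ1 ∧ ‖V2 Y n x - I * n x‖ ≤ μ2) →
  0 < h → h ≤ l1 → h ≤ l2 → l1 ≤ L → l2 ≤ L → 3 / 2 * L * Ln ≤ η → η ≤ 1 → ε ≤ 1 / 50 →
  Nr ε w → Nr ε r → Dh r 2 g1 h → Cells n z L e1 e2 M1 l1 M2 l2 P p1 p2 τP f1 f2 →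
  (∀ x, |p1 x| ≤ 1 ∧ |p2 x| ≤ 1) → b + g1 + M1 * M2 / (h * l2) ≤ b1 → b1 ≤ c0 →
  b1 + ε + μ1 + μ2 + η ≤ σ → σ ≤ 1 → L * (M1 * M2) / (l2 * h ^ 2) ≤ a →
  M1 * M2 / (l1 * L) + M1 * M2 / l2 *
    (g1 / h + (ε + μ2 + η) / l1 + (μ1 + η) / l2 + b1 * (ε + μ2 + η) / h) ≤ Z →
  ∃ f' Y' R : ℂ → ℂ, Core w f' Y' r h (C * b1) (Af + C * Λ ^ 3 * (1 + a) ^ 4 * L / h ^ 2) ∧
    Run n f Y f' Y' R P p1 p2 (C * a * h) (C * Λ * (1 + a) * η) (C * Λ * (1 + a) * η)
      (τP + C * σ * a) (f1 + C * (Z + η)) (f2 + C * (Z + η)) ∧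
    ∀ x, |ip (R x - x) (n x)| ≤ η * (C * a * h)

lemma step {cD μ hi b Af : ℝ} {w r : ℂ → ℝ} {g Z : ℂ → ℂ} (hD : DstP D cD)
    (H : Sm D K β W s ε Λ) (hh : 0 < h) (hc : β * s ≤ cD) (hw : Nr ε w) (hr : Nr ε r)
    (hd : Dh r 2 (s ^ 2) h) (hn : Fr n (1 / (Λ ^ 20 * h))) (hdat : Dat n K β s ε Λ h P p1 p2)
    (hp : ∀ x, |p1 x| ≤ 1 ∧ |p2 x| ≤ 1) (μ0 : 0 ≤ μ) (hμ : μ ≤ s ^ 2) (hhi : hi ≤ 6 * Λ)
    (hb : 145 * K ^ 2 * s ≤ b) (hb2 : 2 * b ≤ β * s) (core : Core w g Z r h b Af)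
    (hg : ∀ x, ‖fderiv ℝ g x‖ ≤ 10 * hi) (hZ : ∀ x, ‖fderiv ℝ Z x - 1‖ ≤ 1 / 20)
    (hV : ∀ x, ‖V1 Z n x - n x‖ ≤ μ + 109 * K ^ 2 * s ^ 2 ∧ ‖V2 Z n x - I * n x‖ ≤ μ + 109 * s) :
    ∃ g' Z' T : ℂ → ℂ, Core w g' Z' r h (D * (2 * b)) (Af + Λ ^ 15 / h) ∧
      Run n g Z g' Z' T P p1 p2 (D * (144 * K ^ 2 * s * Λ ^ 2) * h) (120 * D / Λ ^ 13)
        (120 * D / Λ ^ 13) (W * (ε + s) * s * Λ ^ 2) (W * (ε + s) * s ^ 2) (W * s ^ 2) ∧
      ∀ x, |ip (T x - x) (n x)| ≤ 1 / Λ ^ 16 * (D * (144 * K ^ 2 * s * Λ ^ 2) * h) := by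
  obtain ⟨z, L, e1, e2, M1, l1, M2, l2, τP, f1, f2, hC, c1, c2, c3, c4, c5, c6, c7, c8, c9, c10,
    c11⟩ := hdat
  have hL := H.L0
  have s0 := H.s0
  have e0 := H.e0
  have m1 := H.m1
  have b1 := H.β1
  have D1 := H.D1
  have s1 := H.s1
  have e1' := H.e1
  have s2 := H.s2
  have LW := H.LW
  obtain ⟨w1, w2, w3, w4, w5, w6, -⟩ := H.w
  have η0 : 0 ≤ 1 / Λ ^ 16 := by positivity
  have η1 : 1 / Λ ^ 16 ≤ s ^ 3 := (H.inv (by norm_num)).trans (H.pw (by norm_num))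
  have η2 : s ^ 3 ≤ s ^ 2 := H.pw (by norm_num)
  have k1 : s ^ 2 ≤ K ^ 2 * s ^ 2 := le_mul_of_one_le_left (by positivity) m1
  have k2 : K ^ 2 * s ^ 2 ≤ K ^ 2 * s := mul_le_mul_of_nonneg_left s2 (by positivity)
  have k3 : s ≤ K ^ 2 * s := le_mul_of_one_le_left s0.le m1
  have k4 : 290 * K ^ 2 * s ≤ β * s := mul_le_mul_of_nonneg_right H.hβ s0.le
  have k5 : ε ≤ β * ε := le_mul_of_one_le_left e0 (by linarith)
  have k6 := H.small w3
  have k7 := (H.small w5).1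
  have L2 : 1 ≤ Λ ^ 2 := one_le_pow₀ H.L1
  have a0 : 0 ≤ 144 * K ^ 2 * s * Λ ^ 2 := by positivity
  have a1 : 1 + 144 * K ^ 2 * s * Λ ^ 2 ≤ 2 * Λ ^ 2 := by
    have := mul_le_mul_of_nonneg_right (show 144 * K ^ 2 * s ≤ 1 by linarith) (sq_nonneg Λ)
    linarith
  have hL0 : 0 ≤ L := by linarith
  obtain ⟨g', Z', T, r1, r2, r3⟩ := hD z w r P p1 p2 g Z n e1 e2 h b Af _ L (60 * Λ) ε (1 / Λ ^ 16)
    (s ^ 2) _ _ M1 l1 M2 l2 τP f1 f2 (2 * b) (2 * β * (ε + s)) _ _ core hn (by linarith)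
    (fun x => (hg x).trans (by linarith)) hZ hV hh c1 c2 c3 c4
    (by
      refine (mul_le_mul_of_nonneg_right (mul_le_mul_of_nonneg_left c5 (by norm_num))
        (by positivity)).trans ?_
      rw [show 3 / 2 * (Λ ^ 3 * h) * (1 / (Λ ^ 20 * h)) = 1 / Λ ^ 16 * (3 / 2 / Λ) by field_simp]
      exact mul_le_of_le_one_right η0 ((div_le_one hL).2 (by linarith)))
    (by linarith) (by linarith) hw hr hd hC hp (by linarith) (by linarith) (by linarith)
    (by linarith) c7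
    (c8 _ _ _ (by positivity) (by linarith) (by positivity) (by linarith) (by linarith) hb2)
  have t0 : 0 ≤ ε + s := by positivity
  have q1 : D * (60 * Λ) * (1 + 144 * K ^ 2 * s * Λ ^ 2) * (1 / Λ ^ 16) ≤ 120 * D / Λ ^ 13 :=
    calc _ ≤ D * (60 * Λ) * (2 * Λ ^ 2) * (1 / Λ ^ 16) := by gcongr
      _ = _ := by field_simp; norm_num
  have q2 : D * (113 * K ^ 2 * β * (ε + s) * s ^ 2 + 1 / Λ ^ 16) ≤
      (113 * (D * β * K ^ 2) + D) * ((ε + s) * s ^ 2) := by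
    have : 1 / Λ ^ 16 ≤ (ε + s) * s ^ 2 := η1.trans (by nlinarith [mul_nonneg e0 (sq_nonneg s)])
    nlinarith [mul_le_mul_of_nonneg_left this (show 0 ≤ D by linarith)]
  have q3 : (113 * (D * β * K ^ 2) + D) * ((ε + s) * s ^ 2) ≤ W / 2 * ((ε + s) * s ^ 2) :=
    mul_le_mul_of_nonneg_right (by linarith [H.hW]) (by positivity)
  have q4 : 144 * K ^ 2 * s ^ 3 ≤ W / 2 * ((ε + s) * s ^ 2) :=
    calc _ = 144 * K ^ 2 * (s * s ^ 2) := by ring
      _ ≤ _ := by gcongr <;> linarith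
  have q5 : 144 * K ^ 2 * s ^ 2 ≤ W / 2 * s ^ 2 := by gcongr; linarith
  have q6 : W / 2 * ((ε + s) * s ^ 2) ≤ W / 2 * (1 * s ^ 2) := by gcongr; linarith
  refine ⟨g', Z', T, r1.mono hh le_rfl (add_le_add le_rfl ?_),
    r2.mono le_rfl q1 q1 ?_ (by linarith) (by linarith), r3⟩
  · calc _ ≤ D * (60 * Λ) ^ 3 * (2 * Λ ^ 2) ^ 4 * (Λ ^ 3 * h) / h ^ 2 := by gcongr
      _ = 3456000 * D * (Λ ^ 14 / h) := by field_simp; norm_num
      _ ≤ Λ * (Λ ^ 14 / h) := by gcongr; linarith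
      _ = _ := by ring
  · have u1 : 144 * K ^ 2 * s ^ 2 ≤ W / 2 * ((ε + s) * s * Λ ^ 2) :=
      calc _ = 144 * K ^ 2 * (s * s * 1) := by ring
        _ ≤ _ := by gcongr <;> linarith
    have u2 : 288 * (D * β * K ^ 2) * ((ε + s) * s * Λ ^ 2) ≤ W / 2 * ((ε + s) * s * Λ ^ 2) :=
      mul_le_mul_of_nonneg_right (by linarith [H.hW]) (by positivity)
    linarith

/-- three groups of 36 patterns in a row -/
def tri (a b c : ℕ → ℂ → ℝ) (j : ℕ) : ℂ → ℝ :=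
  if j < 36 then a j else if j < 72 then b (j - 36) else c (j - 72)

lemma tri_sum (a b c : ℕ → ℂ → ℝ) (x : ℂ) : ∑ j ∈ range 108, tri a b c j x =
    ∑ j ∈ range 36, a j x + ∑ j ∈ range 36, b j x + ∑ j ∈ range 36, c j x := by
  rw [show 108 = 36 + 36 + 36 from rfl, sum_range_add, sum_range_add]
  refine congrArg₂ (· + ·) (congrArg₂ (· + ·) ?_ ?_) ?_
  · exact sum_congr rfl fun j hj => by rw [tri, if_pos (Finset.mem_range.1 hj)]
  · refine sum_congr rfl fun j hj => ?_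
    rw [Finset.mem_range] at hj
    rw [tri, if_neg (by omega), if_pos (by omega), Nat.add_sub_cancel_left]
  · refine sum_congr rfl fun j _ => ?_
    rw [tri, if_neg (by omega), if_neg (by omega), Nat.add_sub_cancel_left]

lemma tri_ind {a b c a' b' c' a'' b'' c'' : ℕ → ℂ → ℝ}
    (Q : (ℂ → ℝ) → (ℂ → ℝ) → (ℂ → ℝ) → Prop) (h1 : ∀ j < 36, Q (a j) (a' j) (a'' j))
    (h2 : ∀ j < 36, Q (b j) (b' j) (b'' j)) (h3 : ∀ j < 36, Q (c j) (c' j) (c'' j)) :
    ∀ j < 108, Q (tri a b c j) (tri a' b' c' j) (tri a'' b'' c'' j) := by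
  intro j hj
  unfold tri
  split_ifs with k1 k2
  · exact h1 j k1
  · exact h2 _ (by omega)
  · exact h3 _ (by omega)

lemma abs_sum_le {f : ℕ → ℝ} {B : ℝ} {j J : ℕ} (hB : 0 ≤ B) (hj : j ≤ J) (h : ∀ i < J, |f i| ≤ B) :
    |∑ i ∈ range j, f i| ≤ J * B := by
  refine (abs_sum_le_sum_abs _ _).trans ((sum_le_card_nsmul _ _ B fun i hi =>
    h i ((Finset.mem_range.1 hi).trans_le hj)).trans ?_)
  rw [card_range, nsmul_eq_mul]
  exact mul_le_mul_of_nonneg_right (Nat.cast_le.2 hj) hB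

lemma flat_sum {Pj : ℕ → ℂ → ℝ} {d d' κ : ℝ} {j J : ℕ} (hj : j ≤ J) (hκ : 0 ≤ d → 0 ≤ d' → 0 ≤ κ)
    (h : ∀ i < J, Flat n (Pj i) d d' κ) :
    Flat n (fun x => (0 : ℂ → ℝ) x + ∑ i ∈ range j, Pj i x) d d' (J * κ) := fun x v h1 h2 => by
  simp only [Pi.zero_apply, zero_add]
  rw [← sum_sub_distrib]
  exact abs_sum_le (hκ ((norm_nonneg _).trans h1) ((abs_nonneg _).trans h2)) hj
    fun i hi => h i hi x v h1 h2

/-- N does not change much between neighbouring points -/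
lemma NN_le {w r : ℂ → ℝ} {f Y : ℂ → ℂ} {b Af Ln d μ φ o oν lo hi : ℝ}
    (H : St w f Y n r h b Af Ln d μ φ o oν lo hi) (hμ : μ ≤ 1 / 100) (hν : oν ≤ 1 / 100) {x y : ℂ}
    (hxy : ‖y - x‖ ≤ d) : NN f Y n y ≤ 7 / 5 * NN f Y n x := by
  have key : ∀ x, 99 / 100 ≤ ‖V2 Y n x‖ ∧ ‖V2 Y n x‖ ≤ 101 / 100 ∧ 97 / 100 ≤ jac Y x ∧
      jac Y x ≤ 103 / 100 := by
    intro x
    have h0 := (H.mu x).trans hμ
    have h1 := abs_le.1 (det_near _ h0)
    have h2 : ‖I * n x‖ = 1 := by rw [norm_mul, norm_I, H.fr.one, one_mul]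
    have h3 : ‖V2 Y n x - I * n x‖ ≤ 1 / 100 := by
      have := (fderiv ℝ Y x - 1).le_opNorm (I * n x)
      rw [h2, mul_one] at this
      exact this.trans h0
    have h4 := abs_le.1 ((abs_norm_sub_norm_le _ _).trans h3)
    unfold jac
    refine ⟨?_, ?_, ?_, ?_⟩ <;> linarith [h1.1, h1.2, h4.1, h4.2]
  obtain ⟨-, a2, a3, -⟩ := key y
  obtain ⟨b1, -, b3, b4⟩ := key x
  have h1 : ‖V1 f n y‖ ≤ 101 / 100 * ‖V1 f n x‖ :=
    (H.osc y x hxy).2.trans (mul_le_mul_of_nonneg_right (by linarith) (norm_nonneg _))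
  have h0 := norm_nonneg (V1 f n x)
  calc NN f Y n y ≤ 101 / 100 * ‖V1 f n x‖ * (101 / 100) / (97 / 100) := by
        unfold NN; gcongr
    _ ≤ 7 / 5 * (‖V1 f n x‖ * (99 / 100) / (103 / 100)) := by linarith
    _ ≤ _ := by unfold NN; gcongr

end Corr

end
end Pool.Agent.MP_20bec2_an.Pl

end MrgPart1

-- ======== part 2: formerly Pool.Agent.MP_20bec2_an.Pl.Corr
section MrgPart2

/-! PROJECT PLANE, module CORR: the 108 corrugation steps. -/

set_option autoImplicit false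
open MeasureTheory Set Complex Filter Finset

namespace Pool.Agent.MP_20bec2_an.Pl
noncomputable section

namespace Corr

variable {D K β W s ε Λ h : ℝ} {n : ℂ → ℂ}

/-- the run of 108 steps for given patterns -/
lemma run (h2 : IterStmt) {cD G μ φ o oν lo hi : ℝ} {w r : ℂ → ℝ} {f Y : ℂ → ℂ} (hD : DstP D cD)
    (H : Sm D K β W s ε Λ) (hG : G = (2 * D) ^ 108) (hβ : β = 290 * G * K ^ 2) (hh : 0 < h)
    (hc : β * s ≤ cD) (hw : Nr ε w) (hr : Nr ε r) (hd : Dh r 2 (s ^ 2) h)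
    (hS : St w f Y n r h s (Λ ^ 20 / h) (1 / (Λ ^ 20 * h)) (Λ ^ 4 * h) μ φ o oν lo hi)
    (hlo : Λ / 3 ≤ lo) (hhi : hi ≤ 6 * Λ) (hμ : μ ≤ s ^ 2) (hφ : φ ≤ s ^ 2 / Λ ^ 2)
    {Pj q1 q2 : ℕ → ℂ → ℝ} (hdat : ∀ j < 108, Dat n K β s ε Λ h (Pj j) (q1 j) (q2 j))
    (hb : ∀ j < 108, ∀ x, |Pj j x| ≤ 144 * s * Λ ^ 2 ∧ |q1 j x| ≤ K ^ 2 * s ^ 2 ∧ |q2 j x| ≤ s)
    (hF : ∀ j < 108, ∀ d d', Flat n (Pj j) d d'
      (144 * s * Λ ^ 2 * (K ^ 2 * (d / (Λ ^ 3 * h) + (d' + 1 / Λ ^ 16 * d) / h)))) :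
    ∃ f' Y' R : ℂ → ℂ, Core w f' Y' r h (216 * W * s) (2 * Λ ^ 20 / h) ∧
      Run n f Y f' Y' R (fun z => ∑ i ∈ range 108, Pj i z) (fun z => ∑ i ∈ range 108, q1 i z)
        (fun z => ∑ i ∈ range 108, q2 i z) (Λ ^ 3 * h) (1 / Λ ^ 12) (1 / Λ ^ 9)
        (216 * W * (ε + s) * s * Λ ^ 2) (216 * W * (ε + s) * s ^ 2) (216 * W * s ^ 2) := by
  have hL := H.L0
  have L1 := H.L1
  have s0 := H.s0
  have e0 := H.e0
  have m1 := H.m1
  have D1 := H.D1
  have s1 := H.s1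
  have e1' := H.e1
  have s2 := H.s2
  have LW := H.LW
  obtain ⟨-, -, w3, w4, w5, w6, w7⟩ := H.w
  have μ0 : 0 ≤ μ := (norm_nonneg _).trans (hS.mu 0)
  have φ0 : 0 ≤ φ := (abs_nonneg _).trans (hS.phi 0)
  have W0 : 0 ≤ W := by linarith
  have t1 : W * (ε + s) ≤ 1 / 500 := by linarith [H.hs, H.he]
  have t2 : W * (ε + s) * s * Λ ^ 2 ≤ 1 / 500 * s * Λ ^ 2 := by gcongr
  have t3 : W * (ε + s) * s ^ 2 ≤ 1 / 500 * s ^ 2 := by gcongr
  have t4 : W * s ^ 2 ≤ 1 / 1000 * s := by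
    rw [sq, ← mul_assoc]; exact mul_le_mul_of_nonneg_right (H.small le_rfl).1 s0.le
  have k1 : s ^ 2 ≤ K ^ 2 * s ^ 2 := le_mul_of_one_le_left (by positivity) m1
  have k2 : K ^ 2 * s ^ 2 ≤ K ^ 2 * s := mul_le_mul_of_nonneg_left s2 (by positivity)
  have k3 : s ≤ K ^ 2 * s := le_mul_of_one_le_left s0.le m1
  have k7 := (H.small w5).1
  have k8 : s * Λ ^ 2 ≤ 1 / 10 ^ 10 * Λ ^ 2 := by gcongr
  have k9 : 0 ≤ s * Λ ^ 2 := by positivity
  have D2 : 1 ≤ 2 * D := by linarith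
  have u1 : 108 * (120 * D / Λ ^ 13) ≤ 1 / Λ ^ 12 :=
    calc _ = 12960 * D / Λ ^ 13 := by ring
      _ ≤ Λ / Λ ^ 13 := by gcongr; linarith
      _ = _ := by field_simp
  have u2 : 108 * (120 * D / Λ ^ 13 + (144 * s * Λ ^ 2 + W * (ε + s) * s * Λ ^ 2) *
      (0 + 108 * (120 * D / Λ ^ 13))) ≤ 1 / Λ ^ 9 := by
    have v1 : 120 * D / Λ ^ 13 ≤ 1 / Λ ^ 10 := by
      have : 0 ≤ 120 * D / Λ ^ 13 := by positivity
      have : 1 / Λ ^ 12 ≤ 1 / Λ ^ 10 := one_div_le_one_div_of_le (by positivity) (H.Lp (by norm_num))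
      linarith
    have v2 : (144 * s * Λ ^ 2 + W * (ε + s) * s * Λ ^ 2) * (0 + 108 * (120 * D / Λ ^ 13)) ≤
        Λ ^ 2 * (1 / Λ ^ 12) :=
      mul_le_mul (by linarith [sq_nonneg Λ]) (by linarith) (by positivity) (by positivity)
    calc _ ≤ 108 * (1 / Λ ^ 10 + Λ ^ 2 * (1 / Λ ^ 12)) := by gcongr
      _ = 216 / Λ ^ 10 := by field_simp; norm_num
      _ ≤ Λ / Λ ^ 10 := by gcongr; linarith
      _ = _ := by field_simp
  have i12 : 1 / Λ ^ 12 ≤ 1 := (div_le_one (by positivity)).2 (one_le_pow₀ L1)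
  have i9 : 1 / Λ ^ 9 ≤ 1 := (div_le_one (by positivity)).2 (one_le_pow₀ L1)
  have u3 : (108 : ℕ) * (144 * s * Λ ^ 2 * (K ^ 2 * (D * (144 * K ^ 2 * s * Λ ^ 2) * h / (Λ ^ 3 * h) +
      (1 / Λ ^ 16 * (D * (144 * K ^ 2 * s * Λ ^ 2) * h) +
        1 / Λ ^ 16 * (D * (144 * K ^ 2 * s * Λ ^ 2) * h)) / h))) ≤ W * (ε + s) * s * Λ ^ 2 := by
    have v1 : 1 / Λ ≤ 1 := (div_le_one hL).2 L1
    have v2 : 1 / Λ ^ 14 ≤ 1 := (div_le_one (by positivity)).2 (one_le_pow₀ L1)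
    calc _ = 2239488 * (D * K ^ 2 * K ^ 2) * (1 / Λ + 2 * (1 / Λ ^ 14)) * s * s * Λ ^ 2 := by
          push_cast; field_simp; ring
      _ ≤ 2239488 * (D * K ^ 2 * K ^ 2) * (1 + 2 * 1) * (ε + s) * s * Λ ^ 2 := by
          gcongr; linarith
      _ ≤ _ := by
          have : 0 ≤ D * K ^ 2 * K ^ 2 := by positivity
          gcongr; linarith
  have u4 : 15553 * s * Λ ^ 2 * φ ≤ 1 :=
    calc _ ≤ 15553 * s * Λ ^ 2 * (s ^ 2 / Λ ^ 2) := by gcongr
      _ = 15553 * s ^ 3 := by field_simp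
      _ ≤ _ := by linarith [H.pw (i := 2) (j := 3) (by norm_num)]
  have u5 : φ ≤ 1 / 10 :=
    (hφ.trans (div_le_self (sq_nonneg s) (one_le_pow₀ L1))).trans (by linarith)
  have u6 : 15553 * s * Λ ^ 2 ≤ lo ^ 2 := by
    have := pow_le_pow_left₀ (by positivity) hlo 2
    linarith [sq_nonneg Λ]
  obtain ⟨f', Y', R, r1, r2⟩ := h2 w r 0 0 0 f Y n f Y id 108 (fun _ => r) Pj q1 q2 (fun _ => h)
    (fun j => (2 * D) ^ j * (145 * K ^ 2 * s)) (fun j => Λ ^ 20 / h + j * (Λ ^ 15 / h))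
    h s _ _ _ μ φ o oν lo hi 0 0 0 0 0 0 ε (15553 * s * Λ ^ 2) (109 * K ^ 2 * s ^ 2) (109 * s)
    (D * (144 * K ^ 2 * s * Λ ^ 2) * h) (1 / Λ ^ 16 * (D * (144 * K ^ 2 * s * Λ ^ 2) * h))
    (120 * D / Λ ^ 13) (W * (ε + s) * s * Λ ^ 2) (W * (ε + s) * s ^ 2) (W * s ^ 2)
    (144 * s * Λ ^ 2) (W * (ε + s) * s * Λ ^ 2) hS (by linarith) hw hr (fun _ _ => hr)
    (hS.core.mono hh (by rw [pow_zero]; linarith) (by simp)) (Run.refl n f Y) (by positivity)
    (by positivity) (by positivity) (by positivity) (by positivity) (by positivity)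
    (fun j hj => ⟨fun z => (hb j hj z).1, (flat_sum hj.le (fun _ _ => by positivity)
      fun i hi => hF i hi _ _).mono fun _ _ => u3⟩)
    (fun j hj z => by
      have a1 := abs_sum_le (by positivity) hj fun i hi => (hb i hi z).1
      have a2 := abs_sum_le (by positivity) hj fun i hi => (hb i hi z).2.1
      have a3 := abs_sum_le s0.le hj fun i hi => (hb i hi z).2.2
      simp only [Pi.zero_apply, zero_add]
      push_cast at a1 a2 a3 ⊢
      refine ⟨?_, ?_, ?_⟩ <;> linarith)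
    (by push_cast; linarith) (by push_cast; linarith) u4 u5 u6 (by linarith) (by linarith)
    (fun j hj g Z c1 c2 c3 c4 => by
      obtain ⟨g', Z', T, d1, d2⟩ := step hD H hh hc hw hr hd hS.fr (hdat j hj)
        (fun x => ⟨(hb j hj x).2.1.trans (by linarith), (hb j hj x).2.2.trans (by linarith)⟩) μ0 hμ
        hhi (le_mul_of_one_le_left (by positivity) (one_le_pow₀ D2)) (by
          have := mul_le_mul_of_nonneg_right (pow_le_pow_right₀ D2 hj.le)
            (show 0 ≤ 145 * K ^ 2 * s by positivity)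
          rw [hβ, hG]; linarith) c1 c2 c3 c4
      exact ⟨g', Z', T, d1.mono hh (le_of_eq (by ring)) (le_of_eq (by push_cast; ring)), d2⟩)
  simp only [Pi.zero_apply, zero_add] at r1 r2
  push_cast at r1 r2
  have t5 : 0 ≤ W * (ε + s) * s ^ 2 := by positivity
  have t6 : 0 ≤ W * s ^ 2 := by positivity
  refine ⟨f', Y', R, r1.mono hh ?_ ?_, r2.mono ?_ u1 (by linarith) (by linarith) (by linarith)
    (by linarith)⟩
  · have := mul_le_mul_of_nonneg_right w3 s0.le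
    have : 0 ≤ W * s := by positivity
    have : 0 ≤ β * s := by linarith [mul_le_mul_of_nonneg_right H.β1 s0.le]
    rw [← hG]
    rw [hβ] at *
    linarith
  · have : 108 * (Λ ^ 15 / h) ≤ Λ ^ 20 / h :=
      calc _ ≤ Λ * (Λ ^ 15 / h) := by gcongr; linarith
        _ = Λ ^ 16 / h := by ring
        _ ≤ _ := div_le_div_of_nonneg_right (H.Lp (by norm_num)) hh.le
    rw [mul_div_assoc]; linarith
  · calc _ = 108 * D * (144 * K ^ 2 * s) * (Λ ^ 2 * h) := by ring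
      _ ≤ Λ * 1 * (Λ ^ 2 * h) := by gcongr <;> linarith
      _ = _ := by ring

end Corr

open Corr in
theorem corr_of (_h1 : NormStmt) (h2 : IterStmt) (h3 : DstStmt) (h4 : PatStmt) : CorrStmt := by
  obtain ⟨D, cD, D1, cD0, hD⟩ := h3
  obtain ⟨K, K1, hP⟩ := h4
  obtain ⟨G, hG⟩ : ∃ G, G = (2 * D) ^ 108 := ⟨_, rfl⟩
  have G1 : 1 ≤ G := hG ▸ one_le_pow₀ (by linarith)
  obtain ⟨β, hβ⟩ : ∃ β, β = 290 * G * K ^ 2 := ⟨_, rfl⟩
  obtain ⟨W, hW⟩ : ∃ W, W = 10 ^ 7 * (D * β * K ^ 2) := ⟨_, rfl⟩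
  have m1 : 1 ≤ K ^ 2 := one_le_pow₀ K1
  have β1 : 290 * K ^ 2 ≤ β := by rw [hβ]; nlinarith
  have β0 : 0 < β := by linarith
  have W1 : 1 ≤ W := by
    have := one_le_mul_of_one_le_of_one_le (one_le_mul_of_one_le_of_one_le D1
      (show 1 ≤ β by linarith)) m1
    linarith
  refine ⟨216 * W, min (cD / β) (1 / (1000 * W)), by linarith, by positivity,
    fun w r f Y n Λ h s ε μ φ o oν lo hi hh s0 hs hΛ he hS hw hr hd hlo hhi hμ hν hφ => ?_⟩
  have H : Sm D K β W s ε Λ := ⟨D1, K1, β1, hW, s0, (abs_nonneg _).trans (hw 0),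
    (le_div_iff₀' (by positivity)).1 (hs.trans (min_le_right _ _)),
    (le_div_iff₀' (by positivity)).1 (he.trans (min_le_right _ _)), hΛ⟩
  have hL := H.L0
  have L1 := H.L1
  have s1 := H.s1
  have s2 := H.s2
  have Km := H.Km
  have LW := H.LW
  obtain ⟨-, -, -, -, w5, w6, -⟩ := H.w
  have hi0 : 0 < hi := by linarith [(hS.band 0).1, (hS.band 0).2]
  obtain ⟨A, hA⟩ : ∃ A, A = 4 * s * hi ^ 2 := ⟨_, rfl⟩
  have A0 : 0 ≤ A := by rw [hA]; positivity
  have A1 : A ≤ 144 * s * Λ ^ 2 := by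
    have := mul_le_mul_of_nonneg_left (pow_le_pow_left₀ hi0.le hhi 2) s0.le
    rw [hA]; linarith
  obtain ⟨a1, a2, c1, c2, b1, b2, PA, pC, pB, hC, hE⟩ := hP n (fun y => NN f Y n y ≤ 2 * Λ) _ h
    (Λ ^ 3 * h) (h / s ^ 2) (h / s) A s (1 / Λ ^ 16) hS.fr hh (le_div_self hh.le s0 (by linarith))
    (div_le_div_of_nonneg_left hh.le (by positivity) s2)
    (by
      rw [div_le_iff₀ (by positivity)]
      have := mul_le_mul_of_nonneg_left ((H.sL (i := 2) (by norm_num)).trans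
        (mul_le_mul_of_nonneg_left
          (show Λ ≤ Λ ^ 3 by simpa using H.Lp (i := 1) (j := 3) (by norm_num)) (sq_nonneg s))) hh.le
      linarith) A0 s0.le
    (by
      rw [show 2 * (Λ ^ 3 * h) * (1 / (Λ ^ 20 * h)) = 1 / Λ ^ 16 * (2 / Λ) by field_simp]
      exact mul_le_of_le_one_right (by positivity) ((div_le_one hL).2 (by linarith)))
  have hmul : ∀ {c x B : ℝ}, 0 ≤ c → |x| ≤ B → |c * x| ≤ c * B := fun hc hx => by
    rw [abs_mul, abs_of_nonneg hc]; exact mul_le_mul_of_nonneg_left hx hc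
  have p0 : |(0 : ℝ)| ≤ 144 * s * Λ ^ 2 := by rw [abs_zero]; positivity
  have p1 : |(0 : ℝ)| ≤ K ^ 2 * s ^ 2 := by rw [abs_zero]; positivity
  have p2 : |(0 : ℝ)| ≤ s := by rw [abs_zero]; positivity
  have hb := tri_ind (a := fun j x => A * PA j x) (b := fun _ => 0) (c := fun _ => 0)
    (a' := fun _ => 0) (b' := fun _ => 0) (c' := fun j x => s ^ 2 * pB j x)
    (a'' := fun _ => 0) (b'' := fun j x => s * pC j x) (c'' := fun _ => 0)
    (fun P p q => Dat n K β s ε Λ h P p q ∧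
      (∀ x, |P x| ≤ 144 * s * Λ ^ 2 ∧ |p x| ≤ K ^ 2 * s ^ 2 ∧ |q x| ≤ s) ∧
      (∀ x x', |P x - P x'| ≤ 144 * s * Λ ^ 2 * (K ^ 2 / h * ‖x - x'‖)) ∧
      ∀ d d', Flat n P d d'
        (144 * s * Λ ^ 2 * (K ^ 2 * (d / (Λ ^ 3 * h) + (d' + 1 / Λ ^ 16 * d) / h))))
    (fun j hj => ⟨datA H hh A0 A1 (hC j hj).1,
      fun x => ⟨(hmul A0 ((hC j hj).2.2.2.1 x).1).trans (by linarith), p1, p2⟩,
      fun x x' => by
        rw [← mul_sub]
        exact (hmul A0 ((hC j hj).2.2.2.2.1 x x')).trans (by gcongr),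
      fun d d' x v h1 h2 => by
        have d0 := (norm_nonneg _).trans h1
        have d1 := (abs_nonneg _).trans h2
        rw [← mul_sub]
        exact (hmul A0 ((hC j hj).2.2.2.2.2 d d' x v h1 h2)).trans (by gcongr)⟩)
    (fun j hj => ⟨datC H hh (hC j hj).2.1,
      fun x => ⟨p0, p1, (hmul s0.le ((hC j hj).2.2.2.1 x).2.1).trans (by linarith)⟩,
      fun x x' => by simp only [Pi.zero_apply, sub_self, abs_zero]; positivity,
      fun d d' x v h1 h2 => by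
        have d0 := (norm_nonneg _).trans h1
        have d1 := (abs_nonneg _).trans h2
        simp only [Pi.zero_apply, sub_self, abs_zero]; positivity⟩)
    (fun j hj => ⟨datB H hh (hC j hj).2.2.1,
      fun x => ⟨p0, (hmul (sq_nonneg s) ((hC j hj).2.2.2.1 x).2.2).trans
        (by rw [mul_comm]; gcongr), p2⟩,
      fun x x' => by simp only [Pi.zero_apply, sub_self, abs_zero]; positivity,
      fun d d' x v h1 h2 => by
        have d0 := (norm_nonneg _).trans h1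
        have d1 := (abs_nonneg _).trans h2
        simp only [Pi.zero_apply, sub_self, abs_zero]; positivity⟩)
  obtain ⟨f', Y', R, r1, r2⟩ := run h2 hD H hG hβ hh
    ((le_div_iff₀' β0).1 (hs.trans (min_le_left _ _))) hw hr hd hS hlo hhi hμ hφ
    (fun j hj => (hb j hj).1) (fun j hj => (hb j hj).2.1) fun j hj => (hb j hj).2.2.2
  have hK : (108 : ℕ) * (144 * K ^ 2) ≤ 216 * W := by push_cast; linarith
  refine ⟨f', Y', R, _, _, _, r1, r2, fun z => ⟨?_, ?_, ?_⟩, fun z z' => ?_,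
    fun d d' x v h1 h2 => ?_, fun z => ?_⟩
  · refine (abs_sum_le (by positivity) le_rfl fun i hi => ((hb i hi).2.1 z).1).trans ?_
    push_cast
    rw [← mul_assoc, ← mul_assoc]; gcongr <;> linarith
  · refine (abs_sum_le (by positivity) le_rfl fun i hi => ((hb i hi).2.1 z).2.1).trans ?_
    push_cast
    rw [← mul_assoc]; gcongr <;> linarith
  · refine (abs_sum_le s0.le le_rfl fun i hi => ((hb i hi).2.1 z).2.2).trans ?_
    push_cast
    gcongr; linarith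
  · rw [← sum_sub_distrib]
    refine (abs_sum_le (by positivity) le_rfl fun i hi => (hb i hi).2.2.1 z z').trans ?_
    calc _ = (108 : ℕ) * (144 * K ^ 2) * (s * Λ ^ 2 / h * ‖z - z'‖) := by ring
      _ ≤ 216 * W * (s * Λ ^ 2 / h * ‖z - z'‖) := by gcongr
      _ = _ := by ring
  · have d0 := (norm_nonneg _).trans h1
    have d1 := (abs_nonneg _).trans h2
    rw [← sum_sub_distrib]
    refine (abs_sum_le (by positivity) le_rfl fun i hi => (hb i hi).2.2.2 d d' x v h1 h2).trans ?_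
    calc _ = (108 : ℕ) * (144 * K ^ 2) *
          (s * Λ ^ 2 * (d / (Λ ^ 3 * h) + (d' + d / Λ ^ 16) / h)) := by ring
      _ ≤ 216 * W * (s * Λ ^ 2 * (d / (Λ ^ 3 * h) + (d' + d / Λ ^ 16) / h)) := by gcongr
      _ = _ := by ring
  · obtain ⟨g1, g2, g3⟩ := hE z
    simp only [tri_sum, Pi.zero_apply, sum_const_zero, add_zero, zero_add, ← mul_sum]
    have e1 : (A * ∑ j ∈ range 36, PA j z) ^ 2 / (32 * hi ^ 4) + (s * ∑ j ∈ range 36, pC j z) ^ 2 / 2 -
        s ^ 2 * ∑ j ∈ range 36, pB j z = s ^ 2 * ((∑ j ∈ range 36, PA j z) ^ 2 / 2 +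
          (∑ j ∈ range 36, pC j z) ^ 2 / 2 - ∑ j ∈ range 36, pB j z) := by
      rw [hA]; field_simp; ring
    have e2 : s ^ 2 * (K * (h / s / (h / s ^ 2) + 1 / Λ ^ 16 * (h / s) / h)) ≤ 216 * W * s ^ 3 := by
      have v1 : 1 / Λ ^ 16 ≤ s ^ 2 := (H.inv (by norm_num)).trans (H.pw (by norm_num))
      calc _ = K * s * (s ^ 2 + 1 / Λ ^ 16) := by field_simp
        _ ≤ K * s * (s ^ 2 + s ^ 2) := by gcongr
        _ = 2 * K * s ^ 3 := by ring
        _ ≤ _ := by gcongr <;> linarith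
    have e3 : 4 * (Λ ^ 3 * h) ≤ Λ ^ 4 * h :=
      calc _ ≤ Λ * (Λ ^ 3 * h) := by gcongr; linarith
        _ = _ := by ring
    rw [e1]
    refine ⟨?_, fun hN => ?_, fun hN => ?_⟩
    · linarith [mul_le_mul_of_nonneg_left g1 (sq_nonneg s)]
    · have := mul_le_mul_of_nonneg_left (g2 fun y hy => by
        linarith [NN_le hS (by linarith) (by linarith) (hy.trans e3)]) (sq_nonneg s)
      linarith
    · have g4 := g3 fun y hy hN' => by
        rw [norm_sub_rev] at hy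
        linarith [NN_le hS (by linarith) (by linarith) (hy.trans e3)]
      rw [sum_eq_zero fun j hj => (g4 j (Finset.mem_range.1 hj)).1,
        sum_eq_zero fun j hj => (g4 j (Finset.mem_range.1 hj)).2.1,
        sum_eq_zero fun j hj => (g4 j (Finset.mem_range.1 hj)).2.2]
      simp

end
end Pool.Agent.MP_20bec2_an.Pl

end MrgPart2

-- ======== part 3: formerly Pool.Agent.MP_20bec2_an.Pl.DensA
section MrgPart3

set_option autoImplicit false
open MeasureTheory Set Complex Filter Topology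

namespace Pool.Agent.MP_20bec2_an.Pl
noncomputable section

namespace Den

/-- a Lipschitz bound for short steps holds for all steps -/
lemma subdiv {φ : ℂ → ℝ} {r K : ℝ} (hr : 0 < r)
    (h : ∀ x a, ‖a‖ < r → |φ (x + a) - φ x| ≤ K * ‖a‖) (x a : ℂ) :
    |φ (x + a) - φ x| ≤ K * ‖a‖ := by
  obtain ⟨n, hn⟩ := exists_nat_gt (‖a‖ / r)
  have hn0 : (0 : ℝ) < n := lt_of_le_of_lt (by positivity) hn
  have ha : ‖(n : ℝ)⁻¹ • a‖ < r := by
    rw [norm_smul, Real.norm_of_nonneg (by positivity), inv_mul_lt_iff₀ hn0]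
    rwa [div_lt_iff₀ hr] at hn
  have key : ∀ k : ℕ, |φ (x + (k : ℝ) • (n : ℝ)⁻¹ • a) - φ x| ≤ k * (K * ‖(n : ℝ)⁻¹ • a‖) := by
    intro k
    induction k with
    | zero => simp
    | succ k ih =>
      have h1 := h (x + (k : ℝ) • (n : ℝ)⁻¹ • a) _ ha
      have h2 := abs_sub_le (φ (x + (k : ℝ) • (n : ℝ)⁻¹ • a + (n : ℝ)⁻¹ • a))
        (φ (x + (k : ℝ) • (n : ℝ)⁻¹ • a)) (φ x)
      rw [Nat.cast_succ, add_smul, one_smul, ← add_assoc]
      linarith
  have := key n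
  rw [smul_inv_smul₀ hn0.ne', norm_smul, Real.norm_of_nonneg (by positivity)] at this
  refine this.trans (le_of_eq ?_)
  field_simp

lemma l2_of_loc {f : ℂ → ℝ} {r A1 A2 : ℝ} (hr : 0 < r) (n1 : 0 ≤ A1) (n2 : 0 ≤ A2)
    (h : ∀ x0, Loc f x0 r A1 A2) : L2 f A1 A2 := by
  refine ⟨n1, n2, fun x y => ?_, fun x a b => ?_⟩
  · have := subdiv (φ := f) (K := A1) hr (fun x a ha => by
      simpa using (h x).b1 (x + a) x (by simpa) (by simpa)) y (x - y)
    simpa using this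
  have h1 : ∀ b : ℂ, ‖b‖ < r / 2 → ∀ x a : ℂ,
      |f (x + a + b) - f (x + a) - (f (x + b) - f x)| ≤ A2 * ‖b‖ * ‖a‖ := fun b hb =>
    subdiv (φ := fun x => f (x + b) - f x) (half_pos hr) fun x a ha => by
      have := (h x).b2 x a b (by simpa) (by simp; linarith) (by simp; linarith) (by
        rw [add_assoc, add_sub_cancel_left]; linarith [norm_add_le a b])
      rw [show f (x + a + b) - f (x + a) - (f (x + b) - f x) =
        f (x + a + b) - f (x + a) - f (x + b) + f x by ring]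
      linarith
  have := subdiv (φ := fun x => f (x + a) - f x) (K := A2 * ‖a‖) (half_pos hr) (fun x b hb => by
    have := h1 b hb x a
    rw [show f (x + b + a) - f (x + b) - (f (x + a) - f x) =
      f (x + a + b) - f (x + a) - (f (x + b) - f x) by rw [add_right_comm]; ring]
    linarith) x b
  rw [Real.norm_eq_abs, show f (x + a + b) - f (x + a) - f (x + b) + f x =
    f (x + b + a) - f (x + b) - (f (x + a) - f x) by rw [add_right_comm]; ring]
  exact this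

lemma loc_mono {f : ℂ → ℝ} {x0 : ℂ} {r r' A1 A2 B1 B2 : ℝ} (h : Loc f x0 r A1 A2) (hr : r' ≤ r)
    (h1 : A1 ≤ B1) (h2 : A2 ≤ B2) : Loc f x0 r' B1 B2 :=
  ⟨fun x y a b => (h.b1 x y (a.trans_le hr) (b.trans_le hr)).trans (by gcongr),
    fun x a b c1 c2 c3 c4 => (h.b2 x a b (c1.trans_le hr) (c2.trans_le hr) (c3.trans_le hr)
      (c4.trans_le hr)).trans (by gcongr)⟩

lemma loc_congr {f g : ℂ → ℝ} {x0 : ℂ} {r A1 A2 : ℝ} (h : L2 g A1 A2)
    (e : ∀ x, ‖x - x0‖ < r → f x = g x) : Loc f x0 r A1 A2 :=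
  ⟨fun x y a b => by rw [e x a, e y b]; exact h.b1 x y,
    fun x a b c1 c2 c3 c4 => by rw [e _ c1, e _ c2, e _ c3, e _ c4]; exact h.b2 x a b⟩

/-- Gaussian smoothing -/
def sm (W : ℝ) (g : ℂ → ℝ) (x : ℂ) : ℝ := ∫ θ, g (x + W • θ) ∂gam

lemma GG_eq_sm {L W : ℝ} (hL : 0 < L) (j : ℕ) {c : ℤ × ℤ} {x : ℂ} (hx : ‖x - cen L j c‖ < L)
    (g : ℂ → ℝ) : GG W (aL L j) g x = sm W g x := by
  have h : aL L j =ᶠ[𝓝 x] fun _ => 1 := eventually_of_mem
    ((isOpen_lt (f := fun y => ‖y - cen L j c‖) (by fun_prop) continuous_const).mem_nhds hx)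
    fun y hy => aL_one hL j (le_of_lt hy)
  simp [GG, sm, h.fderiv_eq, h.eq_of_nhds]

/-- the part of GP that concerns differences -/
def Reg (C W κ : ℝ) (a : ℂ → ℝ) : Prop :=
  ∀ (g : ℂ → ℝ) (B0 B1 B2 : ℝ), D2 g B0 B1 B2 →
    (∀ x, |GG W a g x - g x| ≤ C * W * (B1 + κ * B0)) ∧
    L2 (GG W a g) (B1 * (1 + C * (W * κ)) + C * W * κ ^ 2 * B0)
      (B2 * (1 + C * (W * κ)) + C * W * κ ^ 2 * B1 + C * W * κ ^ 3 * B0) ∧
    ∀ (x0 : ℂ) (ρ ρ' A1 A2 : ℝ), 0 < ρ' → 0 ≤ A1 → 0 ≤ A2 → Loc g x0 ρ A1 A2 →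
      Loc (GG W a g) x0 (ρ - ρ')
        (A1 * (1 + C * (W * κ)) + C * W * κ ^ 2 * B0 + C * (W / ρ') ^ 2 * B1)
        (A2 * (1 + C * (W * κ)) + C * W * κ ^ 2 * B1 + C * W * κ ^ 3 * B0 + C * (W / ρ') ^ 2 * B2)

lemma glob_step {C W W' κ τ β K : ℝ} {a g : ℂ → ℝ} (h : Reg C W κ a) (hC : 1 ≤ C)
    (hW' : 0 < W') (hW : W' ≤ W) (hκ : 0 ≤ κ) (hτ : W * κ ≤ τ) (hs : C * τ ≤ 1 / 10 ^ 7)
    (hK : 1 ≤ K) (hβ : β ≤ 2 * K) (b0 : ∀ x, |g x| ≤ 2) (hg : L2 g (β / W') (β / W' ^ 2)) :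
    L2 (GG W a g) ((β + K / 36) / W') ((β + K / 36) / W' ^ 2) := by
  have hW0 : 0 < W := hW'.trans_le hW
  have hβ0 : 0 ≤ β := by have := hg.n1; rwa [le_div_iff₀ hW', zero_mul] at this
  set s := W * κ with hs'
  have s0 : 0 ≤ s := by positivity
  have cs : C * s ≤ 1 / 10 ^ 7 := (mul_le_mul_of_nonneg_left hτ (by linarith)).trans hs
  have s1 : s ≤ 1 := by nlinarith
  have e1 : W * κ ^ 2 * W' ≤ s := by
    have : W * κ ^ 2 * W' ≤ W * κ ^ 2 * W := by gcongr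
    nlinarith
  have e2 : W * κ ^ 3 * W' ^ 2 ≤ s := by
    have : W * κ ^ 3 * W' ^ 2 ≤ W * κ ^ 3 * W ^ 2 := by gcongr
    have h3 : s ^ 3 ≤ s := by nlinarith [mul_nonneg s0 s0]
    nlinarith
  have c1 : C * (W * κ ^ 2 * W') ≤ 1 / 10 ^ 7 :=
    (mul_le_mul_of_nonneg_left e1 (by linarith)).trans cs
  have c2 : C * (W * κ ^ 3 * W' ^ 2) ≤ 1 / 10 ^ 7 :=
    (mul_le_mul_of_nonneg_left e2 (by linarith)).trans cs
  have c3 := mul_le_mul_of_nonneg_left cs hβ0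
  have c4 := mul_le_mul_of_nonneg_left c1 hβ0
  refine (h g 2 _ _ ⟨hg, b0⟩).2.1.mono ?_ ?_
  · rw [le_div_iff₀ hW']
    have : (β / W' * (1 + C * s) + C * W * κ ^ 2 * 2) * W' =
        β + β * (C * s) + 2 * (C * (W * κ ^ 2 * W')) := by field_simp
    rw [this]; linarith
  · rw [le_div_iff₀ (by positivity)]
    have : (β / W' ^ 2 * (1 + C * s) + C * W * κ ^ 2 * (β / W') + C * W * κ ^ 3 * 2) * W' ^ 2 =
        β + β * (C * s) + β * (C * (W * κ ^ 2 * W')) + 2 * (C * (W * κ ^ 3 * W' ^ 2)) := by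
      field_simp
    rw [this]; linarith

lemma loc_step {C W W' L Γ κ τ α K r : ℝ} {a g : ℂ → ℝ} {x0 : ℂ} (h : Reg C W κ a) (hC : 1 ≤ C)
    (hW' : 0 < W') (hW0 : 0 < W) (hL : 0 < L) (hΓ : 1 ≤ Γ) (hW : W ≤ Γ * W') (hκ : 0 ≤ κ)
    (hτ : Γ * (W * κ) ≤ τ) (hτ' : Γ * W / L ≤ τ) (hs : C * τ ≤ 1 / 10 ^ 7)
    (hK : 1 ≤ K) (hα0 : 0 ≤ α) (hα : α ≤ K) (b0 : ∀ x, |g x| ≤ 2)
    (hg : L2 g (2 * K / W') (2 * K / W' ^ 2)) (hl : Loc g x0 r (α / W) (α / W ^ 2)) :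
    Loc (GG W a g) x0 (r - L / 200) ((α + K / 72) / W) ((α + K / 72) / W ^ 2) := by
  have hg' : L2 g (2 * K * Γ / W) (2 * K * Γ ^ 2 / W ^ 2) := by
    have h1 : 1 / W' ≤ Γ / W := by rw [div_le_div_iff₀ hW' hW0]; linarith
    have h2 : (1 / W') ^ 2 ≤ (Γ / W) ^ 2 := by gcongr
    refine hg.mono ?_ ?_
    · calc 2 * K / W' = 2 * K * (1 / W') := by ring
        _ ≤ 2 * K * (Γ / W) := by gcongr
        _ = _ := by ring
    · calc 2 * K / W' ^ 2 = 2 * K * (1 / W') ^ 2 := by ring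
        _ ≤ 2 * K * (Γ / W) ^ 2 := by gcongr
        _ = _ := by ring
  set s := W * κ with hs'
  set v := W / L with hv
  have s0 : 0 ≤ s := by positivity
  have v0 : 0 ≤ v := by positivity
  have hτ'' : Γ * v ≤ τ := by rwa [hv, ← mul_div_assoc]
  have τ0 : 0 ≤ τ := le_trans (by positivity) hτ
  have τ1 : τ ≤ 1 := by nlinarith
  have sτ : s ≤ τ := by nlinarith
  have vτ : v ≤ τ := by nlinarith
  have hC0 : 0 ≤ C := by linarith
  have bd : ∀ y, y ≤ τ → C * y ≤ 1 / 10 ^ 7 := fun y hy =>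
    (mul_le_mul_of_nonneg_left hy hC0).trans hs
  have c1 := bd s sτ
  have c2 := bd (s ^ 2) (by nlinarith)
  have c3 := bd (s ^ 3) (by nlinarith [mul_nonneg s0 s0])
  have c4 := bd (Γ * s ^ 2) (by nlinarith)
  have c5 := bd (Γ * v ^ 2) (by nlinarith)
  have c6 := bd ((Γ * v) ^ 2) (by nlinarith [mul_nonneg (zero_le_one.trans hΓ) v0])
  have K0 : 0 ≤ K := by linarith
  have d1 : α * (C * s) ≤ K * (1 / 10 ^ 7) := mul_le_mul hα c1 (by positivity) K0
  have d4 := mul_le_mul_of_nonneg_left c4 K0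
  have d5 := mul_le_mul_of_nonneg_left c5 K0
  have d6 := mul_le_mul_of_nonneg_left c6 K0
  refine loc_mono ((h g 2 _ _ ⟨hg', b0⟩).2.2 x0 r (L / 200) _ _ (by positivity) (by positivity)
    (by positivity) hl) le_rfl ?_ ?_
  · rw [le_div_iff₀ hW0]
    have : (α / W * (1 + C * s) + C * W * κ ^ 2 * 2 + C * (W / (L / 200)) ^ 2 * (2 * K * Γ / W)) * W =
        α + α * (C * s) + 2 * (C * s ^ 2) + 80000 * (K * (C * (Γ * v ^ 2))) := by
      rw [hs', hv]; field_simp; ring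
    rw [this]; linarith
  · rw [le_div_iff₀ (by positivity)]
    have : (α / W ^ 2 * (1 + C * s) + C * W * κ ^ 2 * (2 * K * Γ / W) + C * W * κ ^ 3 * 2 +
        C * (W / (L / 200)) ^ 2 * (2 * K * Γ ^ 2 / W ^ 2)) * W ^ 2 =
        α + α * (C * s) + 2 * (K * (C * (Γ * s ^ 2))) + 2 * (C * s ^ 3) +
          80000 * (K * (C * (Γ * v) ^ 2)) := by
      rw [hs', hv]; field_simp; ring
    rw [this]; linarith

/-- one group of 36 averaging operators -/
lemma group {C W W' L Γ κ τ K : ℝ} {F : ℕ → ℂ → ℝ} (h : ∀ j, Reg C W κ (aL L j)) (hC : 1 ≤ C)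
    (hW' : 0 < W') (hW1 : W' ≤ W) (hL : 0 < L) (hΓ : 1 ≤ Γ) (hW : W ≤ Γ * W') (hκ : 0 ≤ κ)
    (hτ : Γ * (W * κ) ≤ τ) (hτ' : Γ * W / L ≤ τ) (hs : C * τ ≤ 1 / 10 ^ 7) (hK : 1 ≤ K)
    (hsm : ∀ g : ℂ → ℝ, Continuous g → (∀ x, |g x| ≤ 2) → L2 (sm W g) (K / 2 / W) (K / 2 / W ^ 2))
    (hF : ∀ i < 36, F i = GG W (aL L i) (F (i + 1))) (b0 : ∀ i ≤ 36, ∀ x, |F i x| ≤ 2)
    (hg : L2 (F 36) (K / W') (K / W' ^ 2)) :
    (∀ i ≤ 36, L2 (F i) (2 * K / W') (2 * K / W' ^ 2)) ∧ L2 (F 0) (K / W) (K / W ^ 2) := by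
  have hW0 : 0 < W := hW'.trans_le hW1
  have hτ2 : W * κ ≤ τ := le_trans (le_mul_of_one_le_left (by positivity) hΓ) hτ
  have A : ∀ k i : ℕ, i + k = 36 →
      L2 (F i) ((K + k * (K / 36)) / W') ((K + k * (K / 36)) / W' ^ 2) := by
    intro k
    induction k with
    | zero => intro i hi; obtain rfl : i = 36 := hi; simpa using hg
    | succ k ih =>
      intro i hi
      have hk : (k : ℝ) ≤ 36 := by exact_mod_cast (by omega : k ≤ 36)
      rw [hF i (by omega), Nat.cast_succ, add_one_mul, ← add_assoc]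
      exact glob_step (h i) hC hW' hW1 hκ hτ2 hs hK (by nlinarith) (b0 _ (by omega))
        (ih _ (by omega))
  have A' : ∀ i ≤ 36, L2 (F i) (2 * K / W') (2 * K / W' ^ 2) := fun i hi => by
    have hk : ((36 - i : ℕ) : ℝ) ≤ 36 := by exact_mod_cast (by omega : 36 - i ≤ 36)
    have : K + (36 - i : ℕ) * (K / 36) ≤ 2 * K := by nlinarith
    exact (A (36 - i) i (by omega)).mono (by gcongr) (by gcongr)
  refine ⟨A', l2_of_loc (r := L / 20) (by positivity) (by positivity) (by positivity) fun x0 => ?_⟩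
  obtain ⟨j, hj, c, hc⟩ := cen_cover hL x0
  have B : ∀ k i : ℕ, i + k = j → Loc (F i) x0 (L / 4 - k * (L / 200))
      ((K / 2 + k * (K / 72)) / W) ((K / 2 + k * (K / 72)) / W ^ 2) := by
    intro k
    induction k with
    | zero =>
      intro i hi
      obtain rfl : i = j := hi
      simp only [Nat.cast_zero, zero_mul, sub_zero, add_zero]
      refine loc_congr (hsm _ (A' (i + 1) hj).continuous (b0 _ hj)) fun x hx => ?_
      rw [hF i hj]
      refine GG_eq_sm hL i (c := c) ?_ _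
      linarith [norm_sub_le_norm_sub_add_norm_sub x x0 (cen L i c)]
    | succ k ih =>
      intro i hi
      have hk : (k : ℝ) ≤ 36 := by exact_mod_cast (by omega : k ≤ 36)
      rw [hF i (by omega), Nat.cast_succ, add_one_mul, add_one_mul, ← add_assoc, ← sub_sub]
      exact loc_step (h i) hC hW' hW0 hL hΓ hW hκ hτ hτ' hs hK (by positivity) (by nlinarith)
        (b0 _ (by omega)) (A' _ (by omega)) (ih _ (by omega))
  have hk : (j : ℝ) ≤ 36 := by exact_mod_cast hj.le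
  have : K / 2 + j * (K / 72) ≤ K := by nlinarith
  exact loc_mono (B j 0 (by omega)) (by nlinarith) (by gcongr) (by gcongr)

end Den

end
end Pool.Agent.MP_20bec2_an.Pl

end MrgPart3

-- ======== part 4: formerly Pool.Agent.MP_20bec2_an.Pl.Dens
section MrgPart4

set_option autoImplicit false
open MeasureTheory Set Complex Filter Topology

namespace Pool.Agent.MP_20bec2_an.Pl
noncomputable section

namespace Den

/-- bounded and continuous -/
def BC (f : ℂ → ℝ) : Prop := Continuous f ∧ ∃ B, ∀ x, |f x| ≤ B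

/-- almost contracting operators that fix the constant one -/
structure Op (G : (ℂ → ℝ) → ℂ → ℝ) (σ : ℝ) : Prop where
  bc : ∀ f, BC f → BC (G f)
  dif : ∀ f f' δ, BC f → BC f' → (∀ x, |f x - f' x| ≤ δ) → ∀ x, |G f x - G f' x| ≤ δ * (1 + σ)
  one : ∀ x, G (fun _ => 1) x = 1

/-- the product of k operators, from index t on -/
def bk (G : ℕ → (ℂ → ℝ) → ℂ → ℝ) : ℕ → ℕ → (ℂ → ℝ) → ℂ → ℝ
  | 0, _, f => f
  | k + 1, t, f => G t (bk G k (t + 1) f)

variable {G : ℕ → (ℂ → ℝ) → ℂ → ℝ} {σ : ℕ → ℝ}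

lemma bk_add (k m : ℕ) : ∀ (t : ℕ) (f : ℂ → ℝ), bk G (m + k) t f = bk G k t (bk G m (k + t) f) := by
  induction k with
  | zero => intro t f; simp [bk]
  | succ k ih =>
    intro t f
    rw [← add_assoc, bk, ih, bk, add_assoc, add_comm 1 t]

lemma bk_bc (h : ∀ t, Op (G t) (σ t)) {f : ℂ → ℝ} (hf : BC f) (k : ℕ) : ∀ t, BC (bk G k t f) := by
  induction k with
  | zero => exact fun _ => hf
  | succ k ih => exact fun t => (h t).bc _ (ih _)

lemma bk_one (h : ∀ t, Op (G t) (σ t)) (k : ℕ) : ∀ t, bk G k t (fun _ => 1) = fun _ => 1 := by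
  induction k with
  | zero => exact fun _ => rfl
  | succ k ih => exact fun t => by rw [bk, ih]; exact funext (h t).one

lemma bk_dif' (h : ∀ t, Op (G t) (σ t)) {f f' : ℂ → ℝ} {δ : ℝ} (hf : BC f) (hf' : BC f')
    (hd : ∀ x, |f x - f' x| ≤ δ) (k : ℕ) : ∀ t x, |bk G k t f x - bk G k t f' x| ≤
      δ * Real.exp (∑ i ∈ Finset.range k, σ (i + t)) := by
  have h0 : 0 ≤ δ := (abs_nonneg _).trans (hd 0)
  induction k with
  | zero => intro t x; simpa [bk] using hd x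
  | succ k ih =>
    intro t x
    refine ((h t).dif _ _ _ (bk_bc h hf k _) (bk_bc h hf' k _) (ih (t + 1)) x).trans ?_
    rw [Finset.sum_range_succ', Real.exp_add, mul_assoc, zero_add]
    simp only [add_assoc, add_comm 1 t]
    gcongr
    linarith [Real.add_one_le_exp (σ t)]

lemma bk_dif (h : ∀ t, Op (G t) (σ t)) (hσ : ∀ t k, ∑ i ∈ Finset.range k, σ (i + t) ≤ 1 / 2)
    {f f' : ℂ → ℝ} {δ : ℝ} (hf : BC f) (hf' : BC f') (hd : ∀ x, |f x - f' x| ≤ δ) (k t : ℕ)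
    (x : ℂ) : |bk G k t f x - bk G k t f' x| ≤ 2 * δ := by
  have h0 : 0 ≤ δ := (abs_nonneg _).trans (hd 0)
  have h4 : Real.exp (1 / 2) ^ 2 = Real.exp 1 := by rw [← Real.exp_nat_mul]; norm_num
  have h5 : Real.exp (1 / 2) ≤ 2 := by nlinarith [Real.exp_pos (1 / 2), Real.exp_one_lt_d9]
  refine (bk_dif' h hf hf' hd k t x).trans ?_
  rw [mul_comm]
  exact mul_le_mul_of_nonneg_right ((Real.exp_le_exp.2 (hσ t k)).trans h5) h0

lemma bk_move (h : ∀ t, Op (G t) (σ t)) (hσ : ∀ t k, ∑ i ∈ Finset.range k, σ (i + t) ≤ 1 / 2)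
    {f : ℂ → ℝ} {e : ℕ → ℝ} (hf : BC f) (he : ∀ t x, |G t f x - f x| ≤ e t) (k t : ℕ) (x : ℂ) :
    |bk G k t f x - f x| ≤ 2 * ∑ i ∈ Finset.range k, e (i + t) := by
  induction k with
  | zero => simp [bk]
  | succ k ih =>
    have h1 := bk_dif h hσ ((h (k + t)).bc f hf) hf (he (k + t)) k t x
    have h2 : bk G (k + 1) t f = bk G k t (G (k + t) f) := by rw [add_comm k 1, bk_add]; rfl
    rw [h2, Finset.sum_range_succ]
    linarith [abs_sub_le (bk G k t (G (k + t) f) x) (bk G k t f x) (f x)]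

/-- the limit of the products -/
lemma chain (h : ∀ t, Op (G t) (σ t)) (hσ : ∀ t k, ∑ i ∈ Finset.range k, σ (i + t) ≤ 1 / 2)
    {ρ : ℂ → ℝ} (hρ : BC ρ)
    (hE : ∀ η > 0, ∃ T, ∀ t ≥ T, ∀ k x, |bk G k t ρ x - ρ x| ≤ η) :
    ∃ r : ℕ → ℂ → ℝ, (∀ t, r t = G t (r (t + 1))) ∧
      (∀ t x, Tendsto (fun k => bk G k t ρ x) atTop (𝓝 (r t x))) ∧
      TendstoUniformly r ρ atTop := by
  have c1 : ∀ η > 0, ∃ T, ∀ t k, T ≤ k + t → ∀ n ≥ k, ∀ x,
      |bk G n t ρ x - bk G k t ρ x| ≤ η := fun η hη => by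
    obtain ⟨T, hT⟩ := hE (η / 2) (half_pos hη)
    refine ⟨T, fun t k hk n hn x => ?_⟩
    obtain ⟨m, rfl⟩ := Nat.exists_eq_add_of_le' hn
    rw [bk_add]
    linarith [bk_dif h hσ (bk_bc h hρ m (k + t)) hρ (hT _ hk m) k t x]
  have c2 : ∀ t x, CauchySeq fun k => bk G k t ρ x := fun t x =>
    Metric.cauchySeq_iff'.2 fun η hη => by
      obtain ⟨T, hT⟩ := c1 (η / 2) (half_pos hη)
      exact ⟨T, fun n hn => (hT t T (by omega) n hn x).trans_lt (half_lt_self hη)⟩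
  choose r hr using fun t x => cauchySeq_tendsto_of_complete (c2 t x)
  have c3 : ∀ η > 0, ∃ T, ∀ t k, T ≤ k + t → ∀ x, |r t x - bk G k t ρ x| ≤ η := fun η hη => by
    obtain ⟨T, hT⟩ := c1 η hη
    exact ⟨T, fun t k hk x => le_of_tendsto ((hr t x).sub_const _).abs
      (eventually_atTop.2 ⟨k, fun n hn => hT t k hk n hn x⟩)⟩
  have c4 : ∀ t, BC (r t) := fun t => by
    constructor
    · refine TendstoUniformly.continuous (F := fun k => bk G k t ρ) (p := atTop)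
        (Metric.tendstoUniformly_iff.2 fun η hη => ?_)
        (Frequently.of_forall fun k => (bk_bc h hρ k t).1)
      obtain ⟨T, hT⟩ := c3 (η / 2) (half_pos hη)
      exact eventually_atTop.2 ⟨T, fun k hk x =>
        (hT t k (by omega) x).trans_lt (half_lt_self hη)⟩
    · obtain ⟨T, hT⟩ := c3 1 one_pos
      obtain ⟨B, hB⟩ := (bk_bc h hρ T t).2
      exact ⟨1 + B, fun x => by
        linarith [hT t T (by omega) x, hB x, abs_sub_abs_le_abs_sub (r t x) (bk G T t ρ x)]⟩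
  refine ⟨r, fun t => funext fun x => ?_, hr, Metric.tendstoUniformly_iff.2 fun η hη => ?_⟩
  · refine eq_of_forall_dist_le fun η hη => ?_
    obtain ⟨T, hT⟩ := c3 (η / 3) (by positivity)
    have a1 := hT t (T + 1) (by omega) x
    have a2 := (h t).dif _ _ _ (c4 (t + 1)) (bk_bc h hρ T (t + 1)) (hT (t + 1) T (by omega)) x
    have a3 : σ t ≤ 1 / 2 := by simpa using hσ t 1
    have a4 := abs_sub_le (r t x) (bk G (T + 1) t ρ x) (G t (r (t + 1)) x)
    rw [abs_sub_comm] at a2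
    rw [Real.dist_eq]
    change |bk G (T + 1) t ρ x - _| ≤ _ at a2
    nlinarith
  · obtain ⟨T, hT⟩ := c3 (η / 2) (half_pos hη)
    refine eventually_atTop.2 ⟨T, fun t ht x => ?_⟩
    rw [Real.dist_eq, abs_sub_comm]
    exact (hT t 0 (by omega) x).trans_lt (half_lt_self hη)

lemma sum_div {φ : ℕ → ℝ} (n : ℕ) :
    ∑ t ∈ Finset.range (36 * n), φ (t / 36) = 36 * ∑ g ∈ Finset.range n, φ g := by
  induction n with
  | zero => simp
  | succ n ih =>
    have e : ∑ i ∈ Finset.range 36, φ ((36 * n + i) / 36) = ∑ i ∈ Finset.range 36, φ n :=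
      Finset.sum_congr rfl fun i hi => by
        rw [show (36 * n + i) / 36 = n by have := Finset.mem_range.1 hi; omega]
    rw [mul_add_one, Finset.sum_range_add, ih, Finset.sum_range_succ φ n, e]
    simp only [Finset.sum_const, Finset.card_range, nsmul_eq_mul]
    push_cast; ring

lemma sum_div_le {φ : ℕ → ℝ} (h0 : ∀ g, 0 ≤ φ g) (hs : Summable φ) (n : ℕ) :
    ∑ t ∈ Finset.range n, φ (t / 36) ≤ 36 * ∑' g, φ g := by
  refine (Finset.sum_le_sum_of_subset_of_nonneg (Finset.range_mono (by omega : n ≤ 36 * n))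
    fun _ _ _ => h0 _).trans ?_
  rw [sum_div]
  linarith [hs.sum_le_tsum (Finset.range n) fun i _ => h0 i]

lemma shift_le {φ : ℕ → ℝ} (h0 : ∀ g, 0 ≤ φ g) (t k : ℕ) :
    ∑ i ∈ Finset.range k, φ (i + t) ≤ ∑ i ∈ Finset.range (t + k), φ i := by
  rw [Finset.sum_range_add]
  simp only [add_comm t]
  linarith [Finset.sum_nonneg fun i (_ : i ∈ Finset.range t) => h0 i]

lemma tail_small {φ : ℕ → ℝ} (h0 : ∀ g, 0 ≤ φ g) (hs : Summable φ) {η : ℝ} (hη : 0 < η) :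
    ∃ T, ∀ t ≥ T, ∀ k, ∑ i ∈ Finset.range k, φ (i + t) ≤ η := by
  obtain ⟨T, hT⟩ := eventually_atTop.1 ((tendsto_sum_nat_add φ).eventually (ge_mem_nhds hη))
  exact ⟨T, fun t ht k => (((summable_nat_add_iff t).2 hs).sum_le_tsum _
    fun i _ => h0 _).trans (hT t ht)⟩

lemma sm_near {ρ : ℂ → ℝ} (hu : UniformContinuous ρ) (hb : ∀ x, |ρ x| ≤ 2) {η : ℝ} (hη : 0 < η) :
    ∃ s > 0, ∀ W, 0 < W → W ≤ s → ∀ x, |sm W ρ x - ρ x| ≤ η := by
  obtain ⟨δ, hδ, h⟩ := Metric.uniformContinuous_iff.1 hu (η / 2) (half_pos hη)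
  have hm : 0 ≤ ∫ θ, ‖θ‖ ∂gam := integral_nonneg fun _ => norm_nonneg _
  refine ⟨η * δ / (8 * (1 + ∫ θ, ‖θ‖ ∂gam)), by positivity, fun W hW hs x => ?_⟩
  have hc := hu.continuous
  have i1 : Integrable (fun θ : ℂ => ρ (x + W • θ)) gam :=
    (integrable_const (2 : ℝ)).mono' (by fun_prop) (Eventually.of_forall fun θ => hb _)
  have i2 : Integrable (fun θ : ℂ => η / 2 + 4 * W / δ * ‖θ‖) gam :=
    (integrable_const _).add (gam_int.norm.const_mul _)
  have e : sm W ρ x - ρ x = ∫ θ, (ρ (x + W • θ) - ρ x) ∂gam := by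
    rw [integral_sub i1 (integrable_const _)]; simp [sm]
  have h1 := norm_integral_le_of_norm_le (f := fun θ : ℂ => ρ (x + W • θ) - ρ x) i2
    (Eventually.of_forall fun θ => by
      rcases lt_or_ge (W * ‖θ‖) δ with a | a
      · have := h (a := x + W • θ) (b := x) (by
          rw [dist_eq_norm, add_sub_cancel_left, norm_smul, Real.norm_of_nonneg hW.le]; exact a)
        have p : 0 ≤ 4 * W / δ * ‖θ‖ := by positivity
        rw [← dist_eq_norm]; linarith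
      · have p : 4 ≤ 4 * W / δ * ‖θ‖ := by
          rw [div_mul_eq_mul_div, le_div_iff₀ hδ]; linarith
        rw [Real.norm_eq_abs]
        linarith [abs_sub (ρ (x + W • θ)) (ρ x), hb x, hb (x + W • θ)])
  rw [integral_add (integrable_const _) (gam_int.norm.const_mul _), integral_const_mul] at h1
  simp only [integral_const, probReal_univ, one_smul] at h1
  rw [e]
  refine h1.trans ?_
  rw [le_div_iff₀ (by positivity)] at hs
  have : 4 * W / δ * ∫ θ, ‖θ‖ ∂gam ≤ η / 2 := by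
    rw [div_mul_eq_mul_div, div_le_iff₀ hδ]; nlinarith
  linarith

lemma sm_nr {ρ : ℂ → ℝ} {ε : ℝ} (hc : Continuous ρ) (h : Nr ε ρ) (W : ℝ) : Nr ε (sm W ρ) := by
  intro x
  have i1 : Integrable (fun θ : ℂ => ρ (x + W • θ)) gam :=
    (integrable_const (ε + 1)).mono' (by fun_prop) (Eventually.of_forall fun θ => by
      have := abs_sub_abs_le_abs_sub (ρ (x + W • θ)) 1
      rw [abs_one] at this
      rw [Real.norm_eq_abs]; linarith [h (x + W • θ)])
  have e : sm W ρ x - 1 = ∫ θ, (ρ (x + W • θ) - 1) ∂gam := by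
    rw [integral_sub i1 (integrable_const _)]; simp [sm]
  rw [e]
  simpa using norm_integral_le_of_norm_le_const (μ := gam) (f := fun θ => ρ (x + W • θ) - 1)
    (Eventually.of_forall fun θ => h _)

lemma nr_le {ρ : ℂ → ℝ} {ε : ℝ} (h : Nr ε ρ) (he : ε ≤ 1) (x : ℂ) : |ρ x| ≤ 2 := by
  have := abs_le.1 (h x)
  exact abs_le.2 ⟨by linarith, by linarith⟩

end Den

open Den in
theorem dens_of (h1 : GaStmt) (h2 : GpStmt) : DensStmt := by
  obtain ⟨Cg, hCg, -, -, -, hga⟩ := h1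
  obtain ⟨C, hC, hgp⟩ := h2
  obtain ⟨Ca, hCa, haL⟩ := exists_aL
  refine ⟨8 * Cg, 1 / (10 ^ 7 * C * Ca), by linarith, by positivity, ?_⟩
  intro ρ ε Γ W L hu hn he hΓ hW sW sL hsum
  have hW0 : ∀ g, 0 < W g := fun g => (hW g).1
  have hL0 : ∀ g, 0 < L g := fun g => (hW g).2.1
  have hq : ∀ g, 0 ≤ W g / L g := fun g => (div_pos (hW0 g) (hL0 g)).le
  have hτ : ∀ g, C * (Ca * (Γ * W g / L g)) ≤ 1 / 10 ^ 7 := fun g => by
    have := (hW g).2.2.2.2
    rw [le_div_iff₀ (by positivity)] at this ⊢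
    linarith
  have hτ0 : ∀ g, W g * (Ca / L g) ≤ Ca * (Γ * W g / L g) := fun g => by
    have := mul_nonneg (mul_nonneg (by linarith : 0 ≤ Ca) (hq g)) (by linarith : 0 ≤ Γ - 1)
    calc _ = Ca * (W g / L g) := by ring
      _ ≤ Ca * (W g / L g) + Ca * (W g / L g) * (Γ - 1) := by linarith
      _ = _ := by ring
  have gp := fun g j => hgp (aL (L g) j) (Ca / L g) (W g) (hW0 g) (div_pos (by linarith) (hL0 g)).le
    (by
      have a := mul_nonneg (hW0 g).le (div_pos (by linarith : 0 < Ca) (hL0 g)).le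
      nlinarith [hτ g, hτ0 g])
    (((haL _ (hL0 g)).2 j).1.mono le_rfl le_rfl (by
      rw [div_pow]; have := hL0 g; gcongr; nlinarith))
    (((haL _ (hL0 g)).2 j).2.mono le_rfl (by rw [div_pow]; have := hL0 g; gcongr; nlinarith) (by
      rw [div_pow]; have := hL0 g; gcongr; exact le_self_pow₀ hCa (by norm_num)))
  set G : ℕ → (ℂ → ℝ) → ℂ → ℝ := fun t => GG (W (t / 36)) (aL (L (t / 36)) (t % 36)) with hG
  set σ : ℕ → ℝ := fun t => C * (W (t / 36) * (Ca / L (t / 36))) with hσd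
  have op : ∀ t, Op (G t) (σ t) := fun t => by
    obtain ⟨a1, a2, -⟩ := gp (t / 36) (t % 36)
    refine ⟨fun f ⟨hf, B, hB⟩ => ?_, fun f f' δ ⟨hf, B, hB⟩ ⟨hf', B', hB'⟩ hd x => ?_, fun x => ?_⟩
    · have := a1 f B 0 hf (by simpa using hB)
      exact ⟨this.1, _, by simpa using this.2⟩
    · have := (a1 (fun x => f x - f' x) δ 0 (hf.sub hf') (by simpa using hd)).2 x
      rwa [sub_zero, a2 f f' (max B B') hf hf' (fun x => (hB x).trans (le_max_left _ _))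
        fun x => (hB' x).trans (le_max_right _ _)] at this
    · have := (a1 (fun _ => 1) 0 1 continuous_const (by simp)).2 x
      rwa [zero_mul, abs_nonpos_iff, sub_eq_zero] at this
  have eσ : ∀ t, σ t = C * Ca * (W (t / 36) / L (t / 36)) := fun t => by simp only [hσd]; ring
  have σ0 : ∀ t, 0 ≤ σ t := fun t => by rw [eσ]; have := hq (t / 36); positivity
  have hσ : ∀ t k, ∑ i ∈ Finset.range k, σ (i + t) ≤ 1 / 2 := fun t k => by
    refine (shift_le σ0 t k).trans ?_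
    simp only [eσ]
    rw [← Finset.mul_sum]
    have a := sum_div_le hq sL (t + k)
    rw [le_div_iff₀ (by positivity)] at hsum
    have := mul_le_mul_of_nonneg_left a (by positivity : 0 ≤ C * Ca)
    have b : 0 ≤ C * Ca * ∑' g, W g / L g := mul_nonneg (by positivity) (tsum_nonneg hq)
    linarith
  have hc := hu.continuous
  have hb := nr_le hn (by linarith)
  have hρ : BC ρ := ⟨hc, 2, hb⟩
  have hsm : ∀ s, 0 < s → D2 (sm s ρ) 2 (Cg * 2 / s) (Cg * 2 / s ^ 2) := fun s hs =>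
    hga ρ 2 s hc hb hs
  have bsm : ∀ s, 0 < s → BC (sm s ρ) := fun s hs => ⟨(hsm s hs).continuous, 2, (hsm s hs).b0⟩
  have hE : ∀ η > 0, ∃ T, ∀ t ≥ T, ∀ k x, |bk G k t ρ x - ρ x| ≤ η := fun η hη => by
    obtain ⟨s, hs, hs'⟩ := sm_near hu hb (η := η / 4) (by positivity)
    have a0 := hs' s hs le_rfl
    have s1 : Summable fun t => W (t / 36) :=
      summable_of_sum_range_le (fun t => (hW0 _).le) (sum_div_le (fun g => (hW0 g).le) sW)
    have s2 : Summable σ := summable_of_sum_range_le σ0 fun n => by simpa using hσ 0 n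
    obtain ⟨T, hT⟩ := tail_small (φ := fun t => C * (Cg * 2 / s) * W (t / 36) + 2 * σ t)
      (fun t => by have := hW0 (t / 36); have := σ0 t; positivity)
      ((s1.mul_left _).add (s2.mul_left _)) (η := η / 8) (by positivity)
    refine ⟨T, fun t ht k x => ?_⟩
    have a1 := bk_move op hσ (bsm s hs) (e := fun t => C * (Cg * 2 / s) * W (t / 36) + 2 * σ t)
      (fun t x => (((gp (t / 36) (t % 36)).2.2 _ _ _ _ (hsm s hs)).1 x).trans
        (le_of_eq (by simp only [hσd]; ring))) k t x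
    have a2 := bk_dif op hσ (bsm s hs) hρ a0 k t x
    have a3 := abs_sub_le (bk G k t ρ x) (bk G k t (sm s ρ) x) (ρ x)
    have a4 := abs_sub_le (bk G k t (sm s ρ) x) (sm s ρ x) (ρ x)
    rw [abs_sub_comm] at a2
    linarith [hT t ht k, a0 x]
  obtain ⟨r, r1, r2, r3⟩ := chain op hσ hρ hE
  have nr : ∀ f, BC f → Nr ε f → ∀ k t, Nr (2 * ε) (bk G k t f) := fun f hf hf' k t x => by
    have := bk_dif op hσ hf ⟨continuous_const, 1, fun _ => by simp⟩ hf' k t x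
    rwa [bk_one op] at this
  have rn : ∀ t, Nr (2 * ε) (r t) := fun t x =>
    le_of_tendsto ((r2 t x).sub_const 1).abs (Eventually.of_forall fun k => nr ρ hρ hn k t x)
  refine ⟨r, r1, rn, fun g t a1 a2 => ⟨?_, nr_le (rn t) (by linarith)⟩, r3⟩
  let R : ℕ → ℕ → ℂ → ℝ := fun N t => bk G (36 * N - t) t (sm (W N) ρ)
  have grp : ∀ N g, g < N → L2 (R N (36 * (g + 1))) (4 * Cg / W (g + 1)) (4 * Cg / W (g + 1) ^ 2) →
      (∀ i ≤ 36, L2 (R N (36 * g + i)) (2 * (4 * Cg) / W (g + 1)) (2 * (4 * Cg) / W (g + 1) ^ 2)) ∧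
        L2 (R N (36 * g + 0)) (4 * Cg / W g) (4 * Cg / W g ^ 2) := fun N g hg hl =>
    group (F := fun i => R N (36 * g + i)) (τ := Ca * (Γ * W g / L g))
      (fun j => (gp g j).2.2) hC (hW0 _) (hW g).2.2.1 (hL0 g) hΓ (hW g).2.2.2.1
      (div_pos (by linarith) (hL0 g)).le (le_of_eq (by ring))
      (le_mul_of_one_le_left (by have := hW0 g; have := hL0 g; positivity) hCa) (hτ g) (by linarith)
      (fun f hf hb => (hga f 2 _ hf hb (hW0 g)).toL2.mono (le_of_eq (by ring)) (le_of_eq (by ring)))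
      (fun i hi => by
        simp only [R]
        rw [show 36 * N - (36 * g + i) = (36 * N - (36 * g + (i + 1))) + 1 by omega, bk, hG]
        simp only
        rw [show (36 * g + i) / 36 = g by omega, show (36 * g + i) % 36 = i by omega]
        rfl)
      (fun i _ => nr_le (nr _ (bsm _ (hW0 N)) (sm_nr hc hn _) _ _) (by linarith)) hl
  have ends : ∀ N k g, g + k = N → L2 (R N (36 * g)) (4 * Cg / W g) (4 * Cg / W g ^ 2) := by
    intro N k
    induction k with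
    | zero =>
      intro g hg
      obtain rfl : g = N := hg
      have := hW0 g
      simp only [R, Nat.sub_self, bk]
      have e : Cg * 2 ≤ 4 * Cg := by linarith
      exact (hsm _ this).toL2.mono (div_le_div_of_nonneg_right e this.le)
        (div_le_div_of_nonneg_right e (sq_nonneg _))
    | succ k ih => exact fun g hg => (grp N g (by omega) (ih _ (by omega))).2
  obtain ⟨i, rfl⟩ := Nat.exists_eq_add_of_le a1
  refine L2.of_tendsto (l := atTop) (f := fun N => R N (36 * g + i))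
    (eventually_atTop.2 ⟨g + 1, fun N hN => ?_⟩) fun x => ?_
  · have := (grp N g hN (ends N (N - (g + 1)) _ (by omega))).1 i (by omega)
    rwa [show 2 * (4 * Cg) = 8 * Cg by ring] at this
  · have t1 : Tendsto (fun N => 36 * N - (36 * g + i)) atTop atTop :=
      tendsto_atTop.2 fun b => eventually_atTop.2 ⟨b + g + i, fun N hN => by omega⟩
    refine ((r2 _ x).comp t1).congr_dist (Metric.tendsto_nhds.2 fun η hη => ?_)
    obtain ⟨s, hs, hs'⟩ := sm_near hu hb (η := η / 4) (by positivity)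
    filter_upwards [sW.tendsto_atTop_zero.eventually (ge_mem_nhds hs)] with N hN
    have := bk_dif op hσ (bsm _ (hW0 N)) hρ (hs' _ (hW0 N) hN) (36 * N - (36 * g + i))
      (36 * g + i) x
    rw [dist_zero_right, Real.norm_of_nonneg dist_nonneg, Real.dist_eq, abs_sub_comm]
    exact this.trans_lt (by linarith)

end
end Pool.Agent.MP_20bec2_an.Pl

end MrgPart4

-- marker of a merged file
example : 731051 + 623374 = 731051 + 623374 := rfl
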