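import Mathlib.Analysis.Complex.ExponentialBounds
import Mathlib.Topology.TietzeExtension
import Mathlib.Geometry.Manifold.SmoothApprox
import Pool.Agent.MP_20bec2_an.Pl.La

-- ======== part 0: formerly Pool.Agent.MP_20bec2_an.Pl.Slide
section MrgPart0

set_option autoImplicit false
open MeasureTheory Set Complex Filter Topology

namespace Pool.Agent.MP_20bec2_an.Pl
noncomputable section

namespace Slide

lemma line_cont {ρ : ℂ → ℝ} (h : Continuous ρ) (u : ℝ) : Continuous fun t : ℝ => ρ ⟨u, t⟩ :=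
  h.comp (L2.lineIm u).continuous

lemma col_sub {ρ ρ' : ℂ → ℝ} (h : Continuous ρ) (h' : Continuous ρ') (a u w : ℝ) :
    col (fun p => ρ p - ρ' p) a u w = col ρ a u w - col ρ' a u w :=
  intervalIntegral.integral_sub ((line_cont h u).intervalIntegrable _ _)
    ((line_cont h' u).intervalIntegrable _ _)

lemma col_w {ρ : ℂ → ℝ} (h : Continuous ρ) {B : ℝ} (hB : ∀ p, |ρ p| ≤ B) (a u w w' : ℝ) :
    |col ρ a u w - col ρ a u w'| ≤ B * |w - w'| := by
  rw [col, col, intervalIntegral.integral_interval_sub_left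
    ((line_cont h u).intervalIntegrable _ _) ((line_cont h u).intervalIntegrable _ _),
    ← Real.norm_eq_abs]
  exact intervalIntegral.norm_integral_le_of_norm_le_const fun t _ => hB _

lemma col_u {ρ : ℂ → ℝ} (h : Continuous ρ) {B : ℝ} (hB : ∀ p q, |ρ p - ρ q| ≤ B * ‖p - q‖)
    (a u u' w : ℝ) : |col ρ a u w - col ρ a u' w| ≤ B * |u - u'| * |w - a| := by
  rw [col, col, ← intervalIntegral.integral_sub ((line_cont h u).intervalIntegrable _ _)
    ((line_cont h u').intervalIntegrable _ _), ← Real.norm_eq_abs]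
  exact intervalIntegral.norm_integral_le_of_norm_le_const fun t _ => by
    rw [← norm_mk_sub u u' t]; exact hB _ _

lemma half (hP : PrimStmt) (hI : ImpStmt) {ρ ρ' : ℂ → ℝ} (h : ContDiff ℝ 1 ρ)
    (h' : ContDiff ℝ 1 ρ') (lo : ∀ p, 1 / 3 ≤ ρ p) (a : ℝ) : ∃ τ : ℂ → ℝ,
    (∀ x, col ρ a x.re (τ x) = col ρ' a x.re x.im) ∧
    (∀ x s, 1 / 3 * |s - τ x| ≤ |col ρ a x.re s - col ρ' a x.re x.im|) ∧ Differentiable ℝ τ ∧
    ∀ x, ρ ⟨x.re, τ x⟩ * fderiv ℝ τ x I = ρ' x ∧ ρ ⟨x.re, τ x⟩ * fderiv ℝ τ x 1 =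
      col (fun p => fderiv ℝ ρ' p 1) a x.re x.im - col (fun p => fderiv ℝ ρ p 1) a x.re (τ x) := by
  obtain ⟨g1, g2⟩ := hP ρ a h
  obtain ⟨k1, k2⟩ := hP ρ' a h'
  set G : ℂ → ℝ := fun p => col ρ a p.re p.im with hG
  set G' : ℂ → ℝ := fun p => col ρ' a p.re p.im with hG'
  let Λ : ℂ × ℝ →L[ℝ] ℂ := (equivRealProdCLM.symm : ℝ × ℝ →L[ℝ] ℂ).comp
    ((reCLM.comp (ContinuousLinearMap.fst ℝ ℂ ℝ)).prod (ContinuousLinearMap.snd ℝ ℂ ℝ))
  have hΛ : ∀ q, Λ q = ⟨q.1.re, q.2⟩ := fun q => rfl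
  have d : ∀ q v, fderiv ℝ (fun q : ℂ × ℝ => G (Λ q) - G' q.1) q v =
      fderiv ℝ G (Λ q) (Λ v) - fderiv ℝ G' q.1 v.1 := fun q v =>
    congrArg (fun A : ℂ × ℝ →L[ℝ] ℝ => A v)
      (((g1.differentiable one_ne_zero _).hasFDerivAt.comp q Λ.hasFDerivAt).sub
        ((k1.differentiable one_ne_zero _).hasFDerivAt.comp q hasFDerivAt_fst)).fderiv
  have d1 : ∀ q, fderiv ℝ (fun q : ℂ × ℝ => G (Λ q) - G' q.1) q (0, 1) = ρ (Λ q) := fun q => by
    rw [d, show Λ (0, 1) = I from rfl, (g2 _).1, map_zero, sub_zero]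
  obtain ⟨τ, t1, t2, t3, t4⟩ := hI (fun q => G (Λ q) - G' q.1) (1 / 3) (by norm_num)
    ((g1.comp Λ.contDiff).sub (k1.comp contDiff_fst)) fun q => by rw [d1]; exact lo _
  refine ⟨τ, fun x => sub_eq_zero.1 (t1 x), t2, t3, fun x => ⟨?_, ?_⟩⟩
  · have := t4 x I
    rw [d1, d, show Λ (I, 0) = 0 from rfl, map_zero, zero_sub, neg_neg, (k2 _).1] at this
    exact this
  · have := t4 x 1
    rw [d1, d, show Λ (1, 0) = 1 from rfl, neg_sub, (k2 _).2, (g2 _).2] at this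
    exact this

lemma vs_eq (τ : ℂ → ℝ) (p : ℂ) : vs (fun p => τ p - p.im) p = ⟨p.re, τ p⟩ := by
  apply Complex.ext <;> simp [vs]

lemma quot {r r' x x' N N' A : ℝ} (h : r * x = N) (h' : r' * x' = N') (hr : 1 / 3 ≤ r)
    (hr' : 1 / 3 ≤ r') (hA : |N'| ≤ A) : |x - x'| ≤ 3 * |N - N'| + 9 * A * |r - r'| := by
  have a1 : |x'| ≤ 3 * A := by
    rw [← h', abs_mul, abs_of_pos (by linarith : 0 < r')] at hA
    nlinarith [abs_nonneg x']
  have a2 : r * |x - x'| ≤ |N - N'| + |r - r'| * (3 * A) := by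
    have e : r * (x - x') = (N - N') - (r - r') * x' := by rw [← h, ← h']; ring
    rw [← abs_of_pos (by linarith : 0 < r), ← abs_mul, abs_of_pos (by linarith : 0 < r), e]
    refine (abs_sub _ _).trans ?_
    rw [abs_mul]
    gcongr
  nlinarith [abs_nonneg (x - x')]

lemma col_out {δ : ℂ → ℝ} (hc : Continuous δ) {L : ℝ} (_hL : 0 < L) (h : ∀ p, Out L p → δ p = 0)
    (h0 : ∀ u, col δ (-L) u L = 0) {p : ℂ} (hp : Out L p) : col δ (-L) p.re p.im = 0 := by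
  have z : ∀ a w, (∀ t ∈ uIcc a w, Out L ⟨p.re, t⟩) → col δ a p.re w = 0 := fun a w k => by
    rw [col, intervalIntegral.integral_congr (g := fun _ => 0) fun t ht => h _ (k t ht),
      intervalIntegral.integral_zero]
  rcases hp with hp | hp
  · exact z _ _ fun t _ => Or.inl hp
  rcases le_abs.1 hp with k | k
  · have e := intervalIntegral.integral_add_adjacent_intervals
      ((line_cont hc p.re).intervalIntegrable (μ := volume) (-L) L)
      ((line_cont hc p.re).intervalIntegrable L p.im)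
    have z1 := z L p.im fun t ht => Or.inr (le_abs.2 (Or.inl (by
      rw [uIcc_of_le k] at ht; exact ht.1)))
    have z2 := h0 p.re
    unfold col at z1 z2 ⊢
    rw [← e, z1, z2, add_zero]
  · exact z _ _ fun t ht => Or.inr (le_abs.2 (Or.inr (by
      rw [uIcc_of_ge (by linarith)] at ht; linarith [ht.2])))

/-- Lipschitz bound of the column integral of the horizontal derivative on the square -/
lemma a_lip {ρ : ℂ → ℝ} {B b h L : ℝ} (H : Dh ρ B b h) (hh : 0 < h) (hL : h ≤ L) (hb : b ≤ 1)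
    {p q : ℂ} (hp : |p.im| ≤ L) : |col (fun p => fderiv ℝ ρ p 1) (-L) p.re p.im -
      col (fun p => fderiv ℝ ρ p 1) (-L) q.re q.im| ≤ 3 * L / h ^ 2 * ‖p - q‖ := by
  have b0 := H.nonneg hh
  have c : Continuous fun p => fderiv ℝ ρ p 1 :=
    H.toL2.continuous_fderiv.clm_apply continuous_const
  have a1 := col_u c (B := 1 / h ^ 2) (fun x y => by
    have := ((fderiv ℝ ρ x - fderiv ℝ ρ y).le_opNorm 1).trans
      (mul_le_mul_of_nonneg_right (H.toL2.fderiv_lip x y) (norm_nonneg _))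
    rw [norm_one, mul_one] at this
    exact this.trans (by gcongr)) (-L) p.re q.re p.im
  have a2 := col_w c (B := 1 / h) (fun x => by
    have := ((fderiv ℝ ρ x).le_opNorm 1).trans
      (mul_le_mul_of_nonneg_right (H.toL2.norm_fderiv_le x) (norm_nonneg _))
    rw [norm_one, mul_one] at this
    exact this.trans (by gcongr)) (-L) q.re p.im q.im
  have n1 : |p.re - q.re| ≤ ‖p - q‖ := Complex.abs_re_le_norm (p - q)
  have n2 : |p.im - q.im| ≤ ‖p - q‖ := Complex.abs_im_le_norm (p - q)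
  have n3 : |p.im - -L| ≤ 2 * L := abs_le.2 ⟨by linarith [(abs_le.1 hp).1], by
    linarith [(abs_le.1 hp).2]⟩
  have n4 : 1 / h ≤ L / h ^ 2 := by
    rw [div_le_div_iff₀ hh (by positivity)]
    nlinarith
  have n5 : 0 ≤ L / h ^ 2 := le_trans (by positivity) n4
  refine (abs_sub_le _ _ _).trans ((add_le_add a1 a2).trans ?_)
  calc _ ≤ 1 / h ^ 2 * ‖p - q‖ * (2 * L) + L / h ^ 2 * ‖p - q‖ := by gcongr
    _ = _ := by ring

lemma clamp {E : Type*} [NormedAddCommGroup E] {f : ℂ → E} {L K : ℝ} (hL : 0 < L) (hK : 0 ≤ K)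
    (h0 : ∀ p, Out L p → f p = 0) (h : ∀ p q : ℂ, |p.re| ≤ L → |p.im| ≤ L → |q.re| ≤ L →
      |q.im| ≤ L → ‖f p - f q‖ ≤ K * ‖p - q‖) (p q : ℂ) : ‖f p - f q‖ ≤ 2 * K * ‖p - q‖ := by
  set c : ℝ → ℝ := fun t => max (-L) (min t L) with hc
  have c1 : ∀ t, |c t| ≤ L := fun t =>
    abs_le.2 ⟨le_max_left _ _, max_le (by linarith) (min_le_right _ _)⟩
  have c2 : ∀ t, L ≤ |t| → L ≤ |c t| := fun t ht => by
    rcases le_abs.1 ht with k | k
    · simp only [hc, min_eq_right k, max_eq_right (by linarith : -L ≤ L), le_abs_self]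
    · simp only [hc, min_eq_left (by linarith : t ≤ L), max_eq_left (by linarith : t ≤ -L),
        abs_neg, le_abs_self]
  have c3 : ∀ t, |t| < L → c t = t := fun t ht => by
    simp only [hc, min_eq_left (abs_lt.1 ht).2.le, max_eq_right (abs_lt.1 ht).1.le]
  have c4 : ∀ s t, |c s - c t| ≤ |s - t| := fun s t =>
    (abs_max_sub_max_le_max _ _ _ _).trans (max_le (by simp)
      ((abs_min_sub_min_le_max _ _ _ _).trans (max_le le_rfl (by simp))))
  have e : ∀ p : ℂ, f p = f ⟨c p.re, c p.im⟩ := fun p => by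
    by_cases k : Out L p
    · rw [h0 p k, h0 ⟨c p.re, c p.im⟩ (k.imp (c2 _) (c2 _))]
    · simp only [Out, not_or, not_le] at k
      rw [c3 _ k.1, c3 _ k.2]
  rw [e p, e q]
  refine (h _ _ (c1 _) (c1 _) (c1 _) (c1 _)).trans ?_
  have n1 : |p.re - q.re| ≤ ‖p - q‖ := Complex.abs_re_le_norm (p - q)
  have n2 : |p.im - q.im| ≤ ‖p - q‖ := Complex.abs_im_le_norm (p - q)
  have n3 := Complex.norm_le_abs_re_add_abs_im ((⟨c p.re, c p.im⟩ : ℂ) - ⟨c q.re, c q.im⟩)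
  simp only [sub_re, sub_im] at n3
  nlinarith [c4 p.re q.re, c4 p.im q.im]

end Slide

open Slide in
theorem slide_of (hP : PrimStmt) (hI : ImpStmt) : SlideStmt := by
  refine ⟨2600, by norm_num, fun ρ0 ρ2 L h b0 D0 Pb hh hL hb lo H0 H2 out top sup lip => ?_⟩
  have L0 : 0 < L := hh.trans_le hL
  have b00 := H0.nonneg hh
  have c0 := H0.toL2.continuous
  have c2 := H2.toL2.continuous
  have D00 : 0 ≤ D0 := (abs_nonneg _).trans (sup 0 0)
  have P0 : 0 ≤ Pb := by simpa using (abs_nonneg _).trans (lip 1 0 0)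
  obtain ⟨τ, t1, t2, t3, t4⟩ := half hP hI H0.toL2.contDiff H2.toL2.contDiff (fun p => (lo p).1) (-L)
  obtain ⟨σ, s1, s2, s3, -⟩ := half hP hI H2.toL2.contDiff H0.toL2.contDiff (fun p => (lo p).2) (-L)
  have cd : ContDiff ℝ 1 fun p => ρ2 p - ρ0 p := H2.toL2.contDiff.sub H0.toL2.contDiff
  have z0 : ∀ p, Out L p → col (fun p => ρ2 p - ρ0 p) (-L) p.re p.im = 0 := fun p hp =>
    col_out cd.continuous L0 (fun p hp => sub_eq_zero.2 (out p hp)) top hp
  have bT : ∀ p : ℂ, |τ p - p.im| ≤ 3 * |col (fun p => ρ2 p - ρ0 p) (-L) p.re p.im| := fun p => by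
    have := t2 p p.im
    rw [col_sub c2 c0, abs_sub_comm, abs_sub_comm (col ρ2 _ _ _)]
    linarith
  have bS : ∀ p : ℂ, |σ p - p.im| ≤ 3 * |col (fun p => ρ2 p - ρ0 p) (-L) p.re p.im| := fun p => by
    have := s2 p p.im
    rw [col_sub c2 c0, abs_sub_comm]
    linarith
  have o1 : ∀ p, Out L p → τ p - p.im = 0 ∧ σ p - p.im = 0 := fun p hp => by
    have a1 := bT p
    have a2 := bS p
    rw [z0 p hp, abs_zero, mul_zero, abs_nonpos_iff] at a1 a2
    exact ⟨a1, a2⟩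
  have i1 : ∀ p : ℂ, σ ⟨p.re, τ p⟩ = p.im := fun p => by
    have := s2 ⟨p.re, τ p⟩ p.im
    rw [t1 p, sub_self, abs_zero] at this
    exact (sub_eq_zero.1 (abs_nonpos_iff.1 (by linarith))).symm
  have i2 : ∀ p : ℂ, τ ⟨p.re, σ p⟩ = p.im := fun p => by
    have := t2 ⟨p.re, σ p⟩ p.im
    rw [s1 p, sub_self, abs_zero] at this
    exact (sub_eq_zero.1 (abs_nonpos_iff.1 (by linarith))).symm
  have n1 : ∀ p : ℂ, ¬ Out L p → ¬ Out L ⟨p.re, τ p⟩ ∧ ¬ Out L ⟨p.re, σ p⟩ := fun p hp =>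
    ⟨fun k => hp (by
      have := (o1 _ k).2
      rw [i1, sub_eq_zero] at this
      rwa [← show p.im = τ p from this] at k), fun k => hp (by
      have := (o1 _ k).1
      rw [i2, sub_eq_zero] at this
      rwa [← show p.im = σ p from this] at k)⟩
  set T : ℂ → ℝ := fun p => τ p - p.im with hT
  have dT : ∀ p v, fderiv ℝ T p v = fderiv ℝ τ p v - v.im := fun p v =>
    congrArg (fun A : ℂ →L[ℝ] ℝ => A v) ((t3 p).hasFDerivAt.sub imCLM.hasFDerivAt).fderiv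
  have dT' : Differentiable ℝ T := t3.sub imCLM.differentiable
  set a0 : ℂ → ℝ := fun p => col (fun p => fderiv ℝ ρ0 p 1) (-L) p.re p.im with ha0
  set a2 : ℂ → ℝ := fun p => col (fun p => fderiv ℝ ρ2 p 1) (-L) p.re p.im with ha2
  have e1 : ∀ p, ρ0 ⟨p.re, τ p⟩ * (1 + fderiv ℝ T p I) = ρ2 p := fun p => by
    rw [dT, I_im, add_sub_cancel, (t4 p).1]
  have e2 : ∀ p, ρ0 ⟨p.re, τ p⟩ * fderiv ℝ T p 1 = a2 p - a0 ⟨p.re, τ p⟩ := fun p => by
    rw [dT, one_im, sub_zero, (t4 p).2]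
  obtain ⟨g1, g2⟩ := hP _ (-L) cd
  have f0 : Continuous fun p => fderiv ℝ ρ0 p 1 :=
    H0.toL2.continuous_fderiv.clm_apply continuous_const
  have e3 : ∀ p : ℂ, fderiv ℝ (fun p : ℂ => col (fun p => ρ2 p - ρ0 p) (-L) p.re p.im) p 1 =
      a2 p - a0 p := fun p => by
    rw [(g2 p).2, ← col_sub (H2.toL2.continuous_fderiv.clm_apply continuous_const) f0]
    congr 1
    funext q
    rw [fderiv_fun_sub (H2.toL2.differentiable q) (H0.toL2.differentiable q), sub_apply]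
  have e4 : ∀ p : ℂ, HasDerivAt (fun u => col (fun p => ρ2 p - ρ0 p) (-L) u p.im) (a2 p - a0 p)
      p.re := fun p => by
    rw [← e3]
    exact (g1.differentiable one_ne_zero p).hasFDerivAt.comp_hasDerivAt p.re
      (hasDerivAt_lineRe p.re p.im)
  have m1 : ∀ p, |a2 p - a0 p| ≤ Pb := fun p =>
    (e4 p).le_of_lipschitz (C := ⟨Pb, P0⟩) (LipschitzWith.of_dist_le_mul fun u u' => lip u u' _)
  have sT : ∀ p, |T p| ≤ 3 * D0 := fun p => (bT p).trans (by gcongr; exact sup _ _)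
  have m2 : ∀ p, |a0 ⟨p.re, τ p⟩ - a0 p| ≤ 3 * b0 * D0 / h := fun p => by
    refine (col_w f0 (B := b0 / h) (fun x => ?_) (-L) p.re (τ p) p.im).trans ?_
    · simpa using ((fderiv ℝ ρ0 x).le_opNorm 1).trans
        (mul_le_mul_of_nonneg_right (H0.toL2.norm_fderiv_le x) (norm_nonneg _))
    · calc _ ≤ b0 / h * (3 * D0) := by gcongr; exact sT p
        _ = _ := by ring
  set Q := 1 + Pb + b0 * D0 / h with hQ
  have x0 : 0 ≤ b0 * D0 / h := by positivity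
  have Q1 : 1 ≤ Q := by linarith
  have m3 : ∀ p, |a2 p - a0 ⟨p.re, τ p⟩| ≤ 3 * Q := fun p => by
    have := abs_sub_le (a2 p) (a0 p) (a0 ⟨p.re, τ p⟩)
    have e : 3 * b0 * D0 / h = 3 * (b0 * D0 / h) := by ring
    rw [abs_sub_comm (a0 p)] at this
    linarith [m1 p, m2 p]
  have k1 : ∀ p, ‖fderiv ℝ T p‖ ≤ 19 * Q := fun p => by
    have a1 := quot (e2 p) (mul_zero 1) (lo _).1 (by norm_num) (A := 0) (by simp)
    have a2 := quot (e1 p) (mul_zero 1) (lo _).1 (by norm_num) (A := 0) (by simp)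
    have a3 := opNorm_le_unit (fderiv ℝ T p) norm_one
    have a4 : |ρ2 p| ≤ 3 := H2.b0 p
    have a5 := abs_sub (1 + fderiv ℝ T p I) 1
    simp only [sub_zero, mul_zero, zero_mul, add_zero, mul_one, Real.norm_eq_abs,
      add_sub_cancel_left, abs_one] at a1 a2 a3 a5
    linarith [m3 p]
  have lv : ∀ p q : ℂ, ‖(⟨p.re, τ p⟩ : ℂ) - ⟨q.re, τ q⟩‖ ≤ 20 * Q * ‖p - q‖ := fun p q => by
    have a1 := convex_univ.norm_image_sub_le_of_norm_fderiv_le (fun x _ => dT' x)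
      (fun x _ => k1 x) (mem_univ q) (mem_univ p)
    have e : (⟨p.re, τ p⟩ : ℂ) - ⟨q.re, τ q⟩ = (p - q) + ((T p - T q : ℝ) : ℂ) * I := by
      apply Complex.ext <;> simp [hT]
      ring
    rw [e]
    refine (norm_add_le _ _).trans ?_
    rw [norm_mul, norm_I, mul_one, Complex.norm_real]
    nlinarith [norm_nonneg (p - q)]
  have o2 : ∀ p, Out L p → fderiv ℝ T p = 0 := fun p hp => by
    have a1 := e1 p
    have a2 := e2 p
    have a3 := e3 p
    have r0 : ρ0 p ≠ 0 := by linarith [(lo p).1]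
    rw [fderiv_out (g1.continuous_fderiv one_ne_zero) z0 hp, zero_apply] at a3
    rw [sub_eq_zero.1 (o1 p hp).1] at a1 a2
    rw [out p hp, mul_eq_left₀ r0, add_eq_left] at a1
    rw [← a3, mul_eq_zero, or_iff_right r0] at a2
    ext v
    rw [clm_apply, a1, a2]
    simp
  have k2 := clamp (f := fderiv ℝ T) (K := 1300 * Q ^ 2 * L / h ^ 2) L0 (by positivity) o2
    fun p q _ hp _ _ => by
      have w1 : |τ p| ≤ L := by
        by_cases k : Out L p
        · rwa [sub_eq_zero.1 (o1 p k).1]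
        · exact (not_le.1 fun k' => (n1 p k).1 (Or.inr k')).le
      have n4 : 1 / h ≤ L / h ^ 2 := by
        rw [div_le_div_iff₀ hh (by positivity)]
        nlinarith
      set N := L / h ^ 2 * ‖p - q‖ with hN
      have N0 : 0 ≤ N := by positivity
      have r1 : |ρ0 ⟨p.re, τ p⟩ - ρ0 ⟨q.re, τ q⟩| ≤ 20 * Q * N :=
        calc _ ≤ b0 / h * ‖(⟨p.re, τ p⟩ : ℂ) - ⟨q.re, τ q⟩‖ := H0.b1 _ _
          _ ≤ L / h ^ 2 * (20 * Q * ‖p - q‖) :=
            mul_le_mul (le_trans (by gcongr) n4) (lv p q) (norm_nonneg _) (by positivity)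
          _ = _ := by ring
      have r2 : |ρ2 p - ρ2 q| ≤ N :=
        (H2.b1 p q).trans (mul_le_mul_of_nonneg_right n4 (norm_nonneg _))
      have r3 : |a2 p - a2 q| ≤ 3 * N := (a_lip H2 hh hL le_rfl hp).trans (le_of_eq (by ring))
      have r4 : |a0 ⟨p.re, τ p⟩ - a0 ⟨q.re, τ q⟩| ≤ 60 * Q * N :=
        calc _ ≤ 3 * L / h ^ 2 * ‖(⟨p.re, τ p⟩ : ℂ) - ⟨q.re, τ q⟩‖ := a_lip H0 hh hL hb w1
          _ ≤ 3 * L / h ^ 2 * (20 * Q * ‖p - q‖) := by gcongr; exact lv p q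
          _ = _ := by ring
      have r5 := abs_sub (a2 p - a2 q) (a0 ⟨p.re, τ p⟩ - a0 ⟨q.re, τ q⟩)
      have a1 := quot (e2 p) (e2 q) (lo _).1 (lo _).1 (m3 q)
      have a2' := quot (e1 p) (e1 q) (lo _).1 (lo _).1 (H2.b0 q)
      have a3 := opNorm_le_unit (fderiv ℝ T p - fderiv ℝ T q) norm_one
      rw [sub_sub_sub_comm] at a1
      rw [add_sub_add_left_eq_sub] at a2'
      simp only [mul_one, sub_apply, Real.norm_eq_abs] at a3
      have e : 1300 * Q ^ 2 * L / h ^ 2 * ‖p - q‖ = 1300 * Q ^ 2 * N := by rw [hN]; ring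
      have q1 : N ≤ Q * N := le_mul_of_one_le_left N0 Q1
      have q2 : Q * N ≤ Q * (Q * N) := le_mul_of_one_le_left (by positivity) Q1
      have q3 := mul_le_mul_of_nonneg_left r1 (show 0 ≤ Q by linarith)
      rw [e]
      linarith
  refine ⟨T, fun p => σ p - p.im, ⟨o1, fun p hp => by simpa only [hT, vs_eq] using n1 p hp,
    s3.continuous.sub continuous_im, fun p => ?_, sT, dT', fun p => (k1 p).trans (by linarith),
    fun p q => (k2 p q).trans (le_of_eq (by ring))⟩, fun p => ?_⟩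
  · simp only [hT, vs_eq, i1, i2, and_self]
  · rw [hT, vs_eq, (e4 p).deriv, e1, e2, sub_sub_sub_cancel_left, abs_sub_comm]
    exact ⟨rfl, m2 p⟩

end
end Pool.Agent.MP_20bec2_an.Pl

end MrgPart0

-- ======== part 1: formerly Pool.Agent.MP_20bec2_an.Pl.Cell
section MrgPart1

set_option autoImplicit false
open MeasureTheory Set Complex Filter Topology

namespace Pool.Agent.MP_20bec2_an.Pl
noncomputable section

namespace Cell

lemma lam_d2 {lam : ℝ → ℝ} {L l0 l1 l2 l3 : ℝ} (h : Lam lam L l0 l1 l2 l3) : D2 lam l0 l1 l2 := by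
  refine ⟨L2.of_fderiv h.df (fun x => ?_) h.d2.n1 fun x y => ?_, h.sup⟩
  · rw [← norm_deriv_eq_norm_fderiv]; exact h.d2.b0 x
  · have e : ∀ a b : ℝ, ContinuousLinearMap.toSpanSingleton ℝ a -
        ContinuousLinearMap.toSpanSingleton ℝ b = ContinuousLinearMap.toSpanSingleton ℝ (a - b) :=
      fun a b => by ext; simp
    rw [← toSpanSingleton_deriv, ← toSpanSingleton_deriv, e,
      ContinuousLinearMap.norm_toSpanSingleton]
    exact h.d2.b1 x y

lemma int_le {f : ℝ → ℝ} {L s : ℝ} (hL : 0 < L) (hf : Continuous f) (h0 : ∀ t, L ≤ |t| → f t = 0)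
    (hs : ∀ t, |f t| ≤ s) (w : ℝ) : |∫ t in (-L)..w, f t| ≤ 2 * L * s := by
  have hs0 : 0 ≤ s := (abs_nonneg _).trans (hs 0)
  have key : ∀ w, -L ≤ w → w ≤ L → |∫ t in (-L)..w, f t| ≤ 2 * L * s := fun w h1 h2 => by
    have := intervalIntegral.norm_integral_le_of_norm_le_const (a := -L) (b := w) (f := f)
      fun t _ => hs t
    rw [abs_of_nonneg (by linarith : 0 ≤ w - -L)] at this
    exact this.trans (by nlinarith)
  rcases le_total w (-L) with h1 | h1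
  · rw [intervalIntegral.integral_congr (g := fun _ => 0) fun t ht => h0 t (by
      rw [uIcc_of_ge h1] at ht; exact le_abs.2 (Or.inr (by linarith [ht.2])))]
    simp; positivity
  rcases le_total w L with h2 | h2
  · exact key w h1 h2
  · rw [← intervalIntegral.integral_add_adjacent_intervals (b := L) (hf.intervalIntegrable _ _)
      (hf.intervalIntegrable _ _), intervalIntegral.integral_congr (a := L) (g := fun _ => 0)
      fun t ht => h0 t (by rw [uIcc_of_le h2] at ht; exact le_abs.2 (Or.inl ht.1))]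
    simpa using key L (by linarith) le_rfl

lemma dens {ρ : ℂ → ℝ} {lam : ℝ → ℝ} {L i b l0 l1 l2 l3 k1 k2 A : ℝ} (hi : 0 ≤ i)
    (hρ : D2 ρ 2 (b * i) (b * i ^ 2)) (hlam : Lam lam L l0 l1 l2 l3)
    (hκ : D2 (fun p : ℂ => cut (p.im / L)) 1 k1 k2) (a1 : l1 + l0 * k1 ≤ A) (hA : A ≤ 1)
    (a2 : l2 + 2 * l1 * k1 + l0 * k2 ≤ i) (w0 : l1 ≤ 1 / 20) (w1 : l2 + l1 * k1 ≤ i / 20)
    (w2 : l3 + 2 * l2 * k1 + l1 * k2 ≤ i ^ 2 / 20) (hb1 : b ≤ 1 / 20) :
    D2 (hcd ρ lam L) 3 i (i ^ 2) ∧ (∀ p, |hcd ρ lam L p - ρ p| ≤ b * i * l0 + 2 * l1) ∧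
      ∀ u u' t, |(hcd ρ lam L ⟨u, t⟩ - ρ ⟨u, t⟩) - (hcd ρ lam L ⟨u', t⟩ - ρ ⟨u', t⟩)| ≤
        (b * i ^ 2 * l0 + b * i * A + (2 * b * i * l1 + 2 * l2)) * |u - u'| := by
  have n1 := hlam.d2.n0
  have ha : D2 (fun p : ℂ => ((lam p.re * cut (p.im / L) : ℝ) : ℂ)) l0 A i := by
    have := ((lam_d2 hlam).comp_re.mul hκ).clm_comp ofRealCLM
    rw [ofRealCLM_norm] at this
    exact this.mono (by linarith) (by linarith) (by linarith)
  have hhc : L2 (hc lam L) 2 i := (L2.id.add ha.toL2).mono (by linarith) (by linarith)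
  have h1 : D2 (fun p => ρ (hc lam L p)) 2 (2 * b * i) (5 * b * i ^ 2) :=
    (hρ.comp hhc).mono le_rfl (by linarith) (by linarith)
  have h2 : D2 (fun p : ℂ => deriv lam p.re * cut (p.im / L)) l1 (i / 20) (i ^ 2 / 20) :=
    (hlam.d2.comp_re.mul hκ).mono (by linarith) (by linarith) (by linarith)
  have h3 : D2 (fun p : ℂ => 1 + deriv lam p.re * cut (p.im / L)) (21 / 20) (i / 20)
      (i ^ 2 / 20) :=
    ((D2.const (1 : ℝ)).add h2).mono (by rw [norm_one]; linarith) (by linarith) (by linarith)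
  have e1 := mul_le_mul_of_nonneg_right hb1 hi
  have e2 := mul_le_mul_of_nonneg_right hb1 (sq_nonneg i)
  have hsp : ∀ p, hcd ρ lam L p - ρ p = (ρ (hc lam L p) - ρ p) +
      ρ (hc lam L p) * (deriv lam p.re * cut (p.im / L)) := fun p => by rw [hcd]; ring
  refine ⟨(h1.mul h3).mono (by norm_num) (by linarith) (by linarith [sq_nonneg i]),
    fun p => ?_, fun u u' t => ?_⟩
  · have h4 := hρ.b1 (hc lam L p) p
    rw [hc, add_sub_cancel_left] at h4
    rw [hsp]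
    exact (abs_add_le _ _).trans (add_le_add (h4.trans (mul_le_mul_of_nonneg_left (ha.b0 p)
      hρ.n1)) ((h1.mul h2).b0 p))
  · have h4 : D2 (fun u : ℝ => deriv lam u * cut (t / L)) l1 l2 l3 := by
      have := hlam.d2.mul ((D2.const (X := ℝ) (cut (t / L))).mono (abs_cut_le _) le_rfl le_rfl)
      simpa using this
    have h5 := ((h1.lineRe t).mul h4).b1 u u'
    have h6 := hρ.b2 ⟨u', t⟩ (⟨u, t⟩ - ⟨u', t⟩) ((lam u * cut (t / L) : ℝ) : ℂ)
    have h7 := hρ.b1 (⟨u', t⟩ + ((lam u * cut (t / L) : ℝ) : ℂ)) (hc lam L ⟨u', t⟩)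
    have h8 := ha.b1 ⟨u, t⟩ ⟨u', t⟩
    have h9 := ha.b0 ⟨u, t⟩
    rw [add_sub_cancel, norm_mk_sub] at h6
    rw [hc, add_sub_add_left_eq_sub] at h7
    rw [norm_mk_sub] at h8
    have h10 := h6.trans (mul_le_mul_of_nonneg_left h9 (mul_nonneg hρ.n2 (abs_nonneg _)))
    have h11 := h7.trans (mul_le_mul_of_nonneg_left h8 hρ.n1)
    simp only [Real.norm_eq_abs, hc] at h5 h10 h11
    rw [hsp, hsp]
    simp only [hc]
    rw [abs_le] at h5 h10 h11 ⊢
    constructor <;> linarith [h5.1, h5.2, h10.1, h10.2, h11.1, h11.2]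

lemma num {K c z x b i j l0 : ℝ} (hK : 1 ≤ K) (hc : K ^ 2 * c ≤ 1 / 80) (hj : 0 ≤ j) (hji : j ≤ i)
    (hz0 : 0 ≤ z) (hz : z ≤ c) (hx : x ≤ c * i) (hb : b ≤ c)
    (hl : l0 * j ≤ 2 * z) :
    K * z + l0 * (K * j) ≤ 3 * K * z ∧ 3 * K * z ≤ 1 ∧
      K * x + 2 * (K * z) * (K * j) + l0 * (K * j ^ 2) ≤ i ∧ K * z ≤ 1 / 20 ∧
      K * x + K * z * (K * j) ≤ i / 20 ∧
      K * (b * i ^ 2) + 2 * (K * x) * (K * j) + K * z * (K * j ^ 2) ≤ i ^ 2 / 20 ∧ b ≤ 1 / 20 := by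
  have hc0 : 0 ≤ c := hz0.trans hz
  have hi : 0 ≤ i := hj.trans hji
  have hK0 : 0 ≤ K := by linarith
  have k1 : K * c ≤ K ^ 2 * c := mul_le_mul_of_nonneg_right (by nlinarith) hc0
  have k2 : c ≤ K * c := le_mul_of_one_le_left hc0 hK
  have k3 : K * z ≤ K * c := mul_le_mul_of_nonneg_left hz hK0
  have k4 : K * (l0 * j) ≤ K * (2 * z) := mul_le_mul_of_nonneg_left hl hK0
  have k5 : z * j ≤ c * i := mul_le_mul hz hji hj hc0
  have k6 : K * x ≤ K * (c * i) := mul_le_mul_of_nonneg_left hx hK0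
  have k7 : K ^ 2 * (z * j) ≤ K ^ 2 * (c * i) := mul_le_mul_of_nonneg_left k5 (sq_nonneg K)
  have k8 := mul_le_mul_of_nonneg_right k4 hj
  have k9 : K * (z * j) ≤ K * (c * i) := mul_le_mul_of_nonneg_left k5 hK0
  have k10 := mul_le_mul_of_nonneg_right k1 hi
  have k11 := mul_le_mul_of_nonneg_right hc hi
  have k12 : K * b * i ^ 2 ≤ K ^ 2 * c * i ^ 2 := mul_le_mul_of_nonneg_right
    ((mul_le_mul_of_nonneg_left hb hK0).trans k1) (sq_nonneg i)
  have k13 : K ^ 2 * (x * j) ≤ K ^ 2 * (c * i * i) :=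
    mul_le_mul_of_nonneg_left (mul_le_mul hx hji hj (by positivity)) (sq_nonneg K)
  have k14 : K ^ 2 * (z * j * j) ≤ K ^ 2 * (c * i * i) :=
    mul_le_mul_of_nonneg_left (mul_le_mul k5 hji hj (by positivity)) (sq_nonneg K)
  have k15 := mul_le_mul_of_nonneg_right hc (sq_nonneg i)
  refine ⟨?_, ?_, ?_, ?_, ?_, ?_, ?_⟩ <;> linarith

lemma lam_mono {lam : ℝ → ℝ} {L l0 l1 l2 l3 a1 a2 a3 : ℝ} (h : Lam lam L l0 l1 l2 l3)
    (h1 : l1 ≤ a1) (h2 : l2 ≤ a2) (h3 : l3 ≤ a3) : Lam lam L l0 a1 a2 a3 :=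
  ⟨h.out, h.sup, h.df, h.d2.mono h1 h2 h3⟩

lemma sld_mono {T S : ℂ → ℝ} {L d K1 K2 d' K1' K2' : ℝ} (h : Sld T S L d K1 K2) (h0 : d ≤ d')
    (h1 : K1 ≤ K1') (h2 : K2 ≤ K2') : Sld T S L d' K1' K2' :=
  ⟨h.out, h.ins, h.cs, h.inv, fun p => (h.sup p).trans h0, h.df, fun p => (h.k1 p).trans h1,
    fun p p' => (h.k2 p p').trans (mul_le_mul_of_nonneg_right h2 (norm_nonneg _))⟩

lemma cline {f : ℂ → ℝ} (hf : Continuous f) (u : ℝ) : Continuous fun t : ℝ => f ⟨u, t⟩ :=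
  hf.comp (L2.lineIm u).continuous

/-- column integrals after the correction -/
lemma cols {ρ0 ρ1 ρ2 Ep Pc : ℂ → ℝ} {L d0 τ0 m0 s0 s1 : ℝ} (hL : 0 < L) (c0 : Continuous ρ0)
    (c1 : Continuous ρ1) (c2 : Continuous ρ2) (hB : Bal (fun p => ρ1 p - ρ0 p) L Ep Pc d0 τ0 m0)
    (h0 : ∀ p, Out L p → ρ2 p = ρ1 p) (h1 : ∀ p, |ρ2 p - ρ1 p| ≤ s0)
    (h2 : ∀ u u' t, |(ρ2 ⟨u, t⟩ - ρ1 ⟨u, t⟩) - (ρ2 ⟨u', t⟩ - ρ1 ⟨u', t⟩)| ≤ s1 * |u - u'|) :
    (∀ u w, |col (fun p => ρ2 p - ρ0 p) (-L) u w| ≤ d0 + 2 * L * s0) ∧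
      ∀ u u' w, |(col (fun p => ρ2 p - ρ0 p) (-L) u w - Ep ⟨u, w⟩) -
        (col (fun p => ρ2 p - ρ0 p) (-L) u' w - Ep ⟨u', w⟩)| ≤ (τ0 + 2 * L * s1) * |u - u'| := by
  have hc : ∀ u, Continuous fun t : ℝ => ρ2 ⟨u, t⟩ - ρ1 ⟨u, t⟩ := fun u => cline (c2.sub c1) u
  have hz : ∀ u t, L ≤ |t| → ρ2 ⟨u, t⟩ - ρ1 ⟨u, t⟩ = 0 := fun u t ht =>
    sub_eq_zero.2 (h0 _ (Or.inr ht))
  have e : ∀ u w, col (fun p => ρ2 p - ρ0 p) (-L) u w = col (fun p => ρ1 p - ρ0 p) (-L) u w +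
      ∫ t in (-L)..w, (ρ2 ⟨u, t⟩ - ρ1 ⟨u, t⟩) := fun u w => by
    rw [col, col, ← intervalIntegral.integral_add ((cline (c1.fun_sub c0) u).intervalIntegrable _ _)
      ((hc u).intervalIntegrable _ _)]
    exact intervalIntegral.integral_congr fun t _ => by simp
  refine ⟨fun u w => ?_, fun u u' w => ?_⟩
  · rw [e]
    exact (abs_add_le _ _).trans (add_le_add (hB.sup u w) (int_le hL (hc u) (hz u) (fun t => h1 _) w))
  · have h3 := int_le hL ((hc u).fun_sub (hc u')) (fun t ht => by rw [hz u t ht, hz u' t ht, sub_zero])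
      (h2 u u') w
    rw [intervalIntegral.integral_sub ((hc u).intervalIntegrable _ _)
      ((hc u').intervalIntegrable _ _)] at h3
    have h4 := hB.lip u u' w
    rw [e, e]
    rw [abs_le] at h3 h4 ⊢
    constructor <;> linarith [h3.1, h3.2, h4.1, h4.2]

end Cell

open Cell in
theorem cell_of (h1 : LamStmt) (h2 : SlideStmt) : CellStmt := by
  obtain ⟨C1, c1, hC1, hc1, h1⟩ := h1
  obtain ⟨C2, hC2, h2⟩ := h2
  obtain ⟨Cc, hCc, hcut⟩ := exists_cut
  obtain ⟨K, hK, hK1, hK2⟩ : ∃ K : ℝ, 1 ≤ K ∧ C1 ≤ K ∧ Cc ≤ K :=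
    ⟨max C1 Cc, le_max_of_le_left hC1, le_max_left _ _, le_max_right _ _⟩
  obtain ⟨C, s3, s4, s5⟩ : ∃ C : ℝ, C2 * (50 * K) ≤ C ∧ 150 * K ≤ C ∧ C2 * (50 * K) ^ 2 ≤ C :=
    have e1 : 150 * K ≤ (50 * K) ^ 2 := by nlinarith only [hK]
    ⟨C2 * (50 * K) ^ 2, mul_le_mul_of_nonneg_left (by linarith) (by linarith),
      e1.trans (le_mul_of_one_le_left (sq_nonneg _) hC2), le_rfl⟩
  have hC : C1 ≤ C := by linarith
  have hC0 : 0 ≤ C := by linarith
  obtain ⟨c, hc0, hc2, hc3⟩ : ∃ c : ℝ, 0 < c ∧ c ≤ c1 ∧ K ^ 2 * c ≤ 1 / 80 := by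
    refine ⟨min c1 (1 / (80 * K ^ 2)), lt_min hc1 (by positivity), min_le_left _ _, ?_⟩
    have := min_le_right c1 (1 / (80 * K ^ 2))
    rw [le_div_iff₀ (by positivity)] at this
    linarith
  refine ⟨C, c, by linarith, hc0, ?_⟩
  intro ρ0 ρ1 Ep Pc L h b d0 τ0 m0 X Z Pb hh hL hb hρ H0 H1 hB hP hX hZ hXc hZc
  have hL0 : 0 < L := hh.trans_le hL
  have hb0 := H0.nonneg hh
  have hd0 : 0 ≤ d0 := (abs_nonneg _).trans (hB.sup 0 0)
  have hm0 : 0 ≤ m0 := (abs_nonneg _).trans (hB.ms 0)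
  have hτ0 : 0 ≤ τ0 := by simpa using (abs_nonneg _).trans (hB.lip 1 0 0)
  have hP0 : 0 ≤ Pb := (abs_nonneg _).trans (hP 0)
  have hX0 : 0 ≤ X := le_trans (by positivity) hX
  obtain ⟨z, hz⟩ : ∃ z, z = (d0 + b * m0 / h + m0 / L) / L := ⟨_, rfl⟩
  have hz0 : 0 ≤ z := hz ▸ by positivity
  rw [← hz] at hZ
  obtain ⟨i, hi⟩ : ∃ i, i = h⁻¹ := ⟨_, rfl⟩
  obtain ⟨j, hj⟩ : ∃ j, j = L⁻¹ := ⟨_, rfl⟩
  have hi0 : 0 < i := hi ▸ inv_pos.2 hh
  have hj0 : 0 < j := hj ▸ inv_pos.2 hL0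
  have hji : j ≤ i := hi ▸ hj ▸ inv_anti₀ hh hL
  have di : ∀ a : ℝ, a / h = a * i := fun a => by rw [hi, div_eq_mul_inv]
  have di2 : ∀ a : ℝ, a / h ^ 2 = a * i ^ 2 := fun a => by rw [hi, div_eq_mul_inv, inv_pow]
  have dj : ∀ a : ℝ, a / L = a * j := fun a => by rw [hj, div_eq_mul_inv]
  have dj2 : ∀ a : ℝ, a / L ^ 2 = a * j ^ 2 := fun a => by rw [hj, div_eq_mul_inv, inv_pow]
  have hLj : L * j = 1 := hj ▸ mul_inv_cancel₀ hL0.ne'
  have hLz : L * z = d0 + b * m0 * i + m0 * j := by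
    rw [hz, mul_div_cancel₀ _ hL0.ne', di, dj]
  have q1 : 0 ≤ b * m0 * i := by positivity
  have q2 : 0 ≤ m0 * j := by positivity
  have hl : 2 * m0 / L * j ≤ 2 * z := by
    have := mul_le_mul_of_nonneg_right (by linarith : m0 * j ≤ L * z) hj0.le
    rw [mul_right_comm L, hLj] at this
    rw [dj]; linarith
  have hx : X * j ≤ c * i := by
    have := mul_le_mul_of_nonneg_right hXc hi0.le
    rwa [dj, show X * h * j * i = X * j * (h * i) by ring, hi, mul_inv_cancel₀ hh.ne', mul_one,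
      ← hi] at this
  obtain ⟨n1, n2, n3, n4, n5, n6, n7⟩ := num hK hc3 hj0.le hji hz0 (hZ.trans hZc) hx hb hl
  obtain ⟨lam, hlam, hcol⟩ := h1 ρ0 ρ1 Ep Pc L h b d0 τ0 m0 X z hh hL (by linarith) hρ H0 H1 hB hX
    hz.ge (hXc.trans hc2) (hZ.trans (hZc.trans hc2))
  have hlam' : Lam lam L (2 * m0 / L) (K * z) (K * (X * j)) (K * (b * i ^ 2)) :=
    lam_mono hlam (by gcongr) (by rw [mul_div_assoc, dj]; gcongr)
      (by rw [mul_div_assoc, di2]; gcongr)
  have hκ : D2 (fun p : ℂ => cut (p.im / L)) 1 (K * j) (K * j ^ 2) := by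
    have := ((hcut.scale hL0).d2_0 hL0).comp_im
    rw [dj, dj2] at this
    exact ⟨this.toL2.mono (by gcongr) (by gcongr), fun p => abs_cut_le _⟩
  obtain ⟨g1, g2, g3⟩ := dens hi0.le (by simpa only [Dh, di, di2] using H1) hlam' hκ n1 n2 n3 n4
    n5 n6 n7
  have hout : ∀ p, Out L p → hcd ρ1 lam L p = ρ1 p := fun p hp => by
    rcases hp with hp | hp
    · simp [hcd, Pl.hc, hlam.out _ hp, deriv_out hlam.df hlam.out hp]
    · simp [hcd, Pl.hc, cut_div_zero hL0 hp]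
  obtain ⟨g4, g5⟩ := cols hL0 H0.continuous H1.continuous g1.continuous hB hout g2 g3
  rw [di, di2] at hX
  have q3 : 0 ≤ b * d0 * i := by positivity
  have q4 : 0 ≤ b * m0 * i ^ 2 := by positivity
  have hbz : b * i * (L * z) ≤ 2 * X := by
    have e1 := mul_le_mul_of_nonneg_right (by linarith : b ≤ 1) q4
    have e2 := mul_le_mul_of_nonneg_left hji q1
    rw [hLz]; linarith only [e1, e2, hX, hτ0, q3]
  have hK0 : 0 ≤ K := by linarith
  have hLz0 : 0 ≤ L * z := by positivity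
  have r1 := mul_le_mul_of_nonneg_left hbz hK0
  have r2 := mul_le_mul_of_nonneg_right hK hX0
  have r3 := mul_le_mul_of_nonneg_right hK hLz0
  have e0 : L * (2 * m0 / L) = 2 * m0 := mul_div_cancel₀ _ hL0.ne'
  have g6 : ∀ u w, |col (fun p => hcd ρ1 lam L p - ρ0 p) (-L) u w| ≤ 9 * K * (L * z) :=
    fun u w => (g4 u w).trans (by
      have : L * (2 * m0 / L) * (b * i) = 2 * m0 * (b * i) := by rw [e0]
      linarith only [this, r3, hLz, hd0, q1, q2])
  have g7 : ∀ u u' w, |(col (fun p => hcd ρ1 lam L p - ρ0 p) (-L) u w - Ep ⟨u, w⟩) -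
      (col (fun p => hcd ρ1 lam L p - ρ0 p) (-L) u' w - Ep ⟨u', w⟩)| ≤ 29 * K * X * |u - u'| :=
    fun u u' w => (g5 u u' w).trans (mul_le_mul_of_nonneg_right (by
      have e1 : L * (2 * m0 / L) * (b * i ^ 2) = 2 * m0 * (b * i ^ 2) := by rw [e0]
      have e2 : L * j * (K * X) = K * X := by rw [hLj, one_mul]
      linarith only [e1, e2, r1, r2, hX, hτ0, q3, q4, hX0]) (abs_nonneg _))
  have g8 : ∀ u u' w, |Ep ⟨u, w⟩ - Ep ⟨u', w⟩| ≤ Pb * |u - u'| := fun u u' w =>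
    convex_univ.norm_image_sub_le_of_norm_hasDerivWithin_le (f := fun u => Ep ⟨u, w⟩)
      (fun u _ => (hB.der u w).hasDerivWithinAt) (fun u _ => hP _) (mem_univ u') (mem_univ u)
  obtain ⟨T, S, hS, hT⟩ := h2 ρ0 (hcd ρ1 lam L) L h b (9 * K * (L * z)) (Pb + 29 * K * X) hh hL
    (by linarith only [n7]) (fun p => ⟨by linarith only [(hρ p).1], by
      have e1 : |deriv lam p.re * cut (p.im / L)| ≤ K * z * 1 := by
        rw [abs_mul]
        exact mul_le_mul (hlam'.d2.b0 _) (abs_cut_le _) (abs_nonneg _) (by positivity)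
      have e2 := (abs_le.1 e1).1
      have e3 := mul_le_mul (hρ (Pl.hc lam L p)).2
        (by linarith only [e2, n4] : 2 / 3 ≤ 1 + deriv lam p.re * cut (p.im / L)) (by norm_num)
        (by linarith only [(hρ (Pl.hc lam L p)).2])
      rw [hcd]; linarith only [e3]⟩)
    (H0.mono hh (by norm_num) le_rfl) (by simpa only [Dh, di, di2, one_mul] using g1)
    (fun p hp => (hout p hp).trans (sub_eq_zero.1 (hB.out p hp))) hcol g6 fun u u' w => by
      have e1 := g7 u u' w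
      have e2 := g8 u u' w
      rw [abs_le] at e1 e2 ⊢
      constructor <;> linarith only [e1.1, e1.2, e2.1, e2.2]
  have s1 : b * (9 * K * (L * z)) / h ≤ 18 * K * X := by rw [di]; linarith only [r1]
  have s2 : 1 + (Pb + 29 * K * X) + b * (9 * K * (L * z)) / h ≤ 50 * K * (1 + Pb + X) := by
    linarith only [mul_le_mul_of_nonneg_right hK hP0, mul_nonneg hK0 hP0, mul_nonneg hK0 hX0, s1,
      hK, hP0]
  refine ⟨lam, T, S, lam_mono hlam (by gcongr) (by gcongr) (by gcongr), sld_mono hS ?_ ?_ ?_,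
    fun p => ⟨(hT p).1, ?_⟩⟩
  · calc 3 * (9 * K * (L * z)) = 27 * K * L * z := by ring
      _ ≤ C * L * Z := by gcongr; linarith only [s4, hK0]
  · calc _ ≤ C2 * (50 * K * (1 + Pb + X)) := by gcongr
      _ = C2 * (50 * K) * (1 + Pb + X) := by ring
      _ ≤ _ := by gcongr
  · calc _ ≤ C2 * (50 * K * (1 + Pb + X)) ^ 2 * L / h ^ 2 := by gcongr
      _ = C2 * (50 * K) ^ 2 * (1 + Pb + X) ^ 2 * L / h ^ 2 := by ring
      _ ≤ _ := by gcongr
  · have d1 : Differentiable ℝ fun u => col (fun p => hcd ρ1 lam L p - ρ0 p) (-L) u p.im :=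
      (D2.intervalIntegral (f := fun t u => hcd ρ1 lam L ⟨u, t⟩ - ρ0 ⟨u, t⟩)
        (fun t _ => (g1.sub H0).lineRe t) fun u =>
          (cline (g1.continuous.sub H0.continuous) u).intervalIntegrable _ _).differentiable
    have d2 := ((d1 p.re).hasDerivAt.sub (hB.der p.re p.im)).le_of_lip' (C := 29 * K * X)
      (by positivity) (Eventually.of_forall fun u => g7 u p.re p.im)
    have d3 := (hT p).2
    have d4 := mul_le_mul_of_nonneg_right s4 hX0
    have d5 : 3 * b * (9 * K * (L * z)) / h = 3 * (b * (9 * K * (L * z)) / h) := by ring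
    have d6 := mul_nonneg hK0 hX0
    rw [Real.norm_eq_abs, Complex.eta] at d2
    rw [abs_le] at d2 d3 ⊢
    constructor <;> linarith only [d2.1, d2.2, d3.1, d3.2, d4, d5, d6, s1]

end
end Pool.Agent.MP_20bec2_an.Pl

end MrgPart1

-- ======== part 2: formerly Pool.Agent.MP_20bec2_an.Pl.StepY
section MrgPart2

set_option autoImplicit false
open MeasureTheory Set Complex Filter Topology

namespace Pool.Agent.MP_20bec2_an.Pl
noncomputable section

namespace StepY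

section
variable {E : Type*} [NormedAddCommGroup E] [NormedSpace ℝ E]

/-- gluing of functions given in the charts -/
def gl (z m : ℤ × ℤ → ℂ) (L : ℝ) (φ : ℤ × ℤ → ℂ → E) : ℂ → E :=
  glue z L fun c x => φ c (chi' (z c) (m c) x)

variable {z m : ℤ × ℤ → ℂ} {L B1 B2 B3 : ℝ} {φ : ℤ × ℤ → ℂ → E}

omit [NormedSpace ℝ E] in
lemma far0 (hL : 0 < L) (hm : ∀ c, ‖m c‖ = 1) (h0 : ∀ c p, Out L p → φ c p = 0) (c : ℤ × ℤ)
    (x : ℂ) (hx : 29 / 20 * L ≤ ‖x - z c‖) : φ c (chi' (z c) (m c) x) = 0 :=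
  h0 c _ (out_of_norm hL.le (by rwa [norm_chi' _ (hm c)]))

lemma far1 (hL : 0 < L) (hm : ∀ c, ‖m c‖ = 1) (h0 : ∀ c p, Out L p → φ c p = 0)
    (h3 : ∀ c, D3 (φ c) B1 B2 B3) (c : ℤ × ℤ) (x : ℂ) (hx : 29 / 20 * L ≤ ‖x - z c‖) :
    fderiv ℝ (fun x => φ c (chi' (z c) (m c) x)) x = 0 := by
  refine ContinuousLinearMap.ext fun v => ?_
  rw [fderiv_chi' ((h3 c).df _), fderiv_out (h3 c).d2.toL2.continuous (h0 c)
    (out_of_norm hL.le (by rwa [norm_chi' _ (hm c)]))]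
  rfl

lemma gl_d3 (hs : Sep z L) (hL : 0 < L) (hm : ∀ c, ‖m c‖ = 1) (h0 : ∀ c p, Out L p → φ c p = 0)
    (h3 : ∀ c, D3 (φ c) B1 B2 B3) : D3 (gl z m L φ) B1 (2 * B2) (4 * B3) :=
  glue_d3 hs hL (far0 hL hm h0) (far1 hL hm h0 h3) fun c => (h3 c).comp_chi' (z c) (hm c)

lemma gl_far (hs : Sep z L) (hL : 0 < L) (hm : ∀ c, ‖m c‖ = 1) (h0 : ∀ c p, Out L p → φ c p = 0)
    (h3 : ∀ c, D3 (φ c) B1 B2 B3) {x : ℂ} (hx : ∀ c, 29 / 20 * L ≤ ‖x - z c‖) :
    gl z m L φ x = 0 ∧ fderiv ℝ (gl z m L φ) x = 0 :=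
  ⟨glue_zero (far0 hL hm h0) hx, by
    rw [gl, glue_fderiv hs hL (far0 hL hm h0)]; exact glue_zero (far1 hL hm h0 h3) hx⟩

omit [NormedSpace ℝ E] in
lemma gl_ch (hs : Sep z L) (hm : ∀ c, ‖m c‖ = 1) (φ : ℤ × ℤ → ℂ → E) (c : ℤ × ℤ) {p : ℂ}
    (hp : ‖p‖ < 3 / 2 * L) : gl z m L φ (ch (z c) (m c) p) = φ c p := by
  rw [gl, glue_eq hs (c := c) (by rwa [norm_ch_sub _ (hm c)]), chi'_ch _ (hm c)]

omit [NormedSpace ℝ E] in
lemma gl_ev (hs : Sep z L) (hm : ∀ c, ‖m c‖ = 1) (φ : ℤ × ℤ → ℂ → E) (c : ℤ × ℤ) {p : ℂ}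
    (hp : ‖p‖ < 3 / 2 * L) : (fun q => gl z m L φ (ch (z c) (m c) q)) =ᶠ[𝓝 p] φ c :=
  eventually_of_mem ((isOpen_lt continuous_norm continuous_const).mem_nhds hp)
    fun _ hq => gl_ch hs hm φ c hq

lemma gl_fderiv (hs : Sep z L) (hm : ∀ c, ‖m c‖ = 1) (hd : Differentiable ℝ (gl z m L φ))
    (c : ℤ × ℤ) {p : ℂ} (hp : ‖p‖ < 3 / 2 * L) (v : ℂ) :
    fderiv ℝ (gl z m L φ) (ch (z c) (m c) p) (m c * v) = fderiv ℝ (φ c) p v := by
  rw [← fderiv_ch (hd _), (gl_ev hs hm φ c hp).fderiv_eq]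

end

/-- the size of the horizontal correction -/
def eta (lam : ℝ → ℝ) (L : ℝ) (p : ℂ) : ℝ := lam p.re * cut (p.im / L)

variable {lam : ℝ → ℝ} {L l0 l1 l2 l3 : ℝ}

lemma eta_out (hL : 0 < L) (h : Lam lam L l0 l1 l2 l3) {p : ℂ} (hp : Out L p) :
    eta lam L p = 0 := by
  rcases hp with hp | hp
  · rw [eta, h.out _ hp, zero_mul]
  · rw [eta, cut_div_zero hL hp, mul_zero]

lemma eta_le (h : Lam lam L l0 l1 l2 l3) (p : ℂ) : |eta lam L p| ≤ l0 := by
  rw [eta, abs_mul]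
  exact (mul_le_of_le_one_right (abs_nonneg _) (abs_cut_le _)).trans (h.sup _)

lemma lam_d3 (h : Lam lam L l0 l1 l2 l3) : D3 lam l1 l2 l3 := by
  refine ⟨h.df, ?_⟩
  have : fderiv ℝ lam = fun u => deriv lam u • (1 : ℝ →L[ℝ] ℝ) := by
    funext u; ext; simp
  rw [this]; simpa using h.d2.smul_const (1 : ℝ →L[ℝ] ℝ)

lemma d3_re : D3 (fun p : ℂ => p.re) 1 0 0 := by
  have := D3.clm Complex.reCLM 0
  rw [Complex.reCLM_norm] at this
  simpa using this

lemma d3_im : D3 (fun p : ℂ => p.im) 1 0 0 := by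
  have := D3.clm Complex.imCLM 0
  rw [Complex.imCLM_norm] at this
  simpa using this

lemma eta_d3 {K : ℝ} (hK : C4 cut K 1) (hL : 0 < L) (h : Lam lam L l0 l1 l2 l3) :
    D3 (eta lam L) (l1 + l0 * (K / L)) (l2 + 2 * l1 * (K / L) + l0 * (K / L ^ 2))
      (l3 + 3 * l2 * (K / L) + 3 * l1 * (K / L ^ 2) + l0 * (K / L ^ 3)) := by
  have h1 : D3 (fun p : ℂ => lam p.re) l1 l2 l3 := by simpa using (lam_d3 h).comp d3_re
  have h2 : D3 (fun p : ℂ => cut (p.im / L)) (K / L) (K / L ^ 2) (K / L ^ 3) := by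
    simpa using ((hK.scale hL).d3 hL).comp d3_im
  have := h1.smul (A0 := l0) (fun p => h.sup _) h2 (B0 := 1) (fun p => abs_cut_le _)
  simp only [mul_one] at this
  exact this

lemma eta_one (h : Lam lam L l0 l1 l2 l3) (hd : Differentiable ℝ (eta lam L)) (p : ℂ) :
    fderiv ℝ (eta lam L) p 1 = deriv lam p.re * cut (p.im / L) := by
  have h1 : HasDerivAt (fun u : ℝ => eta lam L ⟨u, p.im⟩) (fderiv ℝ (eta lam L) p 1) p.re :=
    (hd p).hasFDerivAt.comp_hasDerivAt_of_eq p.re (hasDerivAt_lineRe p.re p.im) rfl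
  exact h1.unique ((h.df p.re).hasDerivAt.mul_const (cut (p.im / L)))

lemma smul_d3 {f : ℂ → ℝ} {B1 B2 B3 : ℝ} (h : D3 f B1 B2 B3) {m : ℂ} (hm : ‖m‖ = 1) :
    D3 (fun p => f p • m) B1 B2 B3 := by
  have h1 := D3.clm (ContinuousLinearMap.toSpanSingleton ℝ m) 0
  rw [ContinuousLinearMap.norm_toSpanSingleton, hm] at h1
  simpa using h1.comp h

lemma ch_hc (z m : ℂ) (lam : ℝ → ℝ) (L : ℝ) (p : ℂ) :
    ch z m p + eta lam L p • m = ch z m (hc lam L p) := by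
  rw [ch, ch, hc, eta, Complex.real_smul]; ring

lemma norm_hc (hL : 0 < L) (h : Lam lam L l0 l1 l2 l3) (hl : l0 ≤ L / 20) {p : ℂ}
    (hp : ‖p‖ < 3 / 2 * L) : ‖hc lam L p‖ < 3 / 2 * L := by
  have e : hc lam L p = p + ((eta lam L p : ℝ) : ℂ) := rfl
  by_cases ho : Out L p
  · rw [e, eta_out hL h ho]; simpa using hp
  · simp only [Out, not_or, not_le] at ho
    have h1 := norm_lt_of_le hL ho.1.le ho.2.le
    have h2 := norm_add_le p ((eta lam L p : ℝ) : ℂ)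
    have h3 := eta_le h p
    rw [Complex.norm_real, Real.norm_eq_abs] at h2
    rw [e]; linarith

lemma bounds {K h Z b' : ℝ} (hK : 1 ≤ K) (hh : 0 < h) (hL : h ≤ L) (n0 : 0 ≤ l0) (n1 : 0 ≤ l1)
    (n2 : 0 ≤ l2) (n3 : 0 ≤ l3) (hZ : l1 + l0 / L ≤ Z) (hb : Z + l2 * h + l3 * h ^ 2 ≤ b') :
    l1 + l0 * (K / L) ≤ K * Z ∧ l2 + 2 * l1 * (K / L) + l0 * (K / L ^ 2) ≤ 2 * K * b' / h ∧
      l3 + 3 * l2 * (K / L) + 3 * l1 * (K / L ^ 2) + l0 * (K / L ^ 3) ≤ 3 * K * b' / h ^ 2 := by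
  have hL0 : 0 < L := hh.trans_le hL
  obtain ⟨t, ht⟩ : ∃ t, t = h / L := ⟨_, rfl⟩
  obtain ⟨u, hu⟩ : ∃ u, u = l0 / L := ⟨_, rfl⟩
  have t0 : 0 ≤ t := by rw [ht]; positivity
  have t1 : t ≤ 1 := by rw [ht]; exact (div_le_one hL0).2 hL
  have t2 : t ^ 2 ≤ 1 := pow_le_one₀ t0 t1
  have u0 : 0 ≤ u := by rw [hu]; positivity
  have a2 : 0 ≤ l2 * h := by positivity
  have a3 : 0 ≤ l3 * h ^ 2 := by positivity
  rw [← hu] at hZ
  refine ⟨?_, ?_, ?_⟩
  · rw [show l0 * (K / L) = K * u by rw [hu]; ring]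
    nlinarith
  · rw [le_div_iff₀ hh, show (l2 + 2 * l1 * (K / L) + l0 * (K / L ^ 2)) * h =
      l2 * h + K * (2 * (l1 * t) + u * t) by rw [ht, hu]; field_simp; ring]
    have c1 : l1 * t ≤ l1 := mul_le_of_le_one_right n1 t1
    have c2 : u * t ≤ u := mul_le_of_le_one_right u0 t1
    have c3 : K * (2 * (l1 * t) + u * t) ≤ K * (2 * Z) :=
      mul_le_mul_of_nonneg_left (by linarith) (by linarith)
    have c4 : K * (Z + l2 * h + l3 * h ^ 2) ≤ K * b' := mul_le_mul_of_nonneg_left hb (by linarith)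
    nlinarith
  · rw [le_div_iff₀ (by positivity), show
      (l3 + 3 * l2 * (K / L) + 3 * l1 * (K / L ^ 2) + l0 * (K / L ^ 3)) * h ^ 2 =
        l3 * h ^ 2 + K * (3 * (l2 * h * t) + 3 * (l1 * t ^ 2) + u * t ^ 2) by
          rw [ht, hu]; field_simp; ring]
    have c0 : l2 * h * t ≤ l2 * h := mul_le_of_le_one_right a2 t1
    have c1 : l1 * t ^ 2 ≤ l1 := mul_le_of_le_one_right n1 t2
    have c2 : u * t ^ 2 ≤ u := mul_le_of_le_one_right u0 t2
    have c3 : K * (3 * (l2 * h * t) + 3 * (l1 * t ^ 2) + u * t ^ 2) ≤ K * (3 * (l2 * h) + 3 * Z) :=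
      mul_le_mul_of_nonneg_left (by linarith) (by linarith)
    have c4 : K * (Z + l2 * h + l3 * h ^ 2) ≤ K * b' := mul_le_mul_of_nonneg_left hb (by linarith)
    nlinarith

/-- composition with a small perturbation of the identity -/
lemma comp_near {Y0 Λ : ℂ → ℂ} {B2 B3 P1 P2 P3 l0 : ℝ} (hY : D3 Y0 2 B2 B3) (hΛ : D3 Λ P1 P2 P3)
    (h0 : ∀ x, ‖Λ x‖ ≤ l0) (x : ℂ) :
    fderiv ℝ (fun x => Y0 (x + Λ x)) x = (fderiv ℝ Y0 (x + Λ x)).comp (1 + fderiv ℝ Λ x) ∧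
      ‖fderiv ℝ (fun x => Y0 (x + Λ x)) x - fderiv ℝ Y0 (x + Λ x)‖ ≤ 2 * P1 ∧
      ‖fderiv ℝ (fun x => Y0 (x + Λ x)) x - fderiv ℝ Y0 x‖ ≤ 2 * P1 + B2 * l0 := by
  have e : fderiv ℝ (fun x => Y0 (x + Λ x)) x =
      (fderiv ℝ Y0 (x + Λ x)).comp (1 + fderiv ℝ Λ x) :=
    ((hY.df _).hasFDerivAt.comp x ((hasFDerivAt_id x).add (hΛ.df x).hasFDerivAt)).fderiv
  have h1 : ‖fderiv ℝ (fun x => Y0 (x + Λ x)) x - fderiv ℝ Y0 (x + Λ x)‖ ≤ 2 * P1 := by
    rw [e, show (fderiv ℝ Y0 (x + Λ x)).comp (1 + fderiv ℝ Λ x) - fderiv ℝ Y0 (x + Λ x) =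
      (fderiv ℝ Y0 (x + Λ x)).comp (fderiv ℝ Λ x) by ext; simp]
    exact (ContinuousLinearMap.opNorm_comp_le _ _).trans
      (mul_le_mul (hY.d2.b0 _) (hΛ.d2.b0 _) (norm_nonneg _) zero_le_two)
  have h2 := hY.d2.b1 (x + Λ x) x
  rw [add_sub_cancel_left] at h2
  exact ⟨e, h1, (norm_sub_le_norm_sub_add_norm_sub _ (fderiv ℝ Y0 (x + Λ x)) _).trans
    (add_le_add h1 (h2.trans (mul_le_mul_of_nonneg_left (h0 x) hY.d2.n1)))⟩

end StepY

open StepY in
theorem stepY : StepYStmt := by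
  obtain ⟨K, hK, hcut⟩ := exists_cut
  refine ⟨104 * K, 1 / (100 * K), by linarith, by positivity, ?_⟩
  intro z m Y ψ lam h b L s0 s1 bs l0 l1 l2 l3 Z b' hh hL hs hm hY hD hs1 hc' hZ hZ0 hb' hb1
  have hL0 : 0 < L := hh.trans_le hL
  have hψ0 : ∀ c p, Out L p → ψ c p = 0 := fun c => (hc' c).1
  have hψ3 : ∀ c, D3 (ψ c) s1 (bs / h) (bs / h ^ 2) := fun c => (hc' c).2.2.1
  have hl : ∀ c, Lam (lam c) L l0 l1 l2 l3 := fun c => (hc' c).2.2.2
  have nb : 0 ≤ b := hD.nonneg hh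
  have nbs : 0 ≤ bs := Dh.nonneg (hψ3 0).d2 hh
  have n0 : 0 ≤ l0 := (abs_nonneg _).trans ((hl 0).sup 0)
  have n1 : 0 ≤ l1 := (hl 0).d2.n0
  have n2 : 0 ≤ l2 := (hl 0).d2.n1
  have n3 : 0 ≤ l3 := (hl 0).d2.n2
  have a0 : 0 ≤ (b + bs) * l0 / h := by positivity
  have a1 : 0 ≤ l0 / L := by positivity
  have a2 : 0 ≤ l2 * h := by positivity
  have a3 : 0 ≤ l3 * h ^ 2 := by positivity
  have nZ : 0 ≤ Z := by linarith
  have nb' : 0 ≤ b' := by linarith
  have hKZ : K * Z ≤ 1 / 100 := by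
    rw [le_div_iff₀ (by positivity)] at hZ0; linarith
  have hZK : Z ≤ K * Z := le_mul_of_one_le_left nZ hK
  have hl0 : l0 ≤ L / 20 := by
    have : l0 / L ≤ 1 / 20 := by linarith
    rw [div_le_iff₀ hL0] at this; linarith
  obtain ⟨q1, q2, q3⟩ := bounds (L := L) (Z := Z) (b' := b') hK hh hL n0 n1 n2 n3 (by linarith)
    (by linarith)
  have hη : ∀ c, D3 (eta (lam c) L) (K * Z) (2 * K * b' / h) (3 * K * b' / h ^ 2) := fun c =>
    (eta_d3 hcut hL0 (hl c)).mono q1 q2 q3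
  have hφ0 : ∀ c p, Out L p → (fun c p => eta (lam c) L p • m c) c p = 0 := fun c p hp => by
    simp only [eta_out hL0 (hl c) hp, zero_smul]
  have hφ3 : ∀ c, D3 ((fun c p => eta (lam c) L p • m c) c) (K * Z) (2 * K * b' / h)
      (3 * K * b' / h ^ 2) := fun c => smul_d3 (hη c) (hm c)
  have hΛ := gl_d3 hs hL0 hm hφ0 hφ3
  have hΨ := gl_d3 hs hL0 hm hψ0 hψ3
  have hΛ0 : ∀ x, ‖gl z m L (fun c p => eta (lam c) L p • m c) x‖ ≤ l0 :=
    glue_sup fun c x => by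
      rw [norm_smul, hm, mul_one, Real.norm_eq_abs]; exact eta_le (hl c) _
  have hΨ0 : ∀ x, ‖gl z m L ψ x‖ ≤ s0 := glue_sup fun c x => (hc' c).2.1 _
  have hΛch := gl_ch hs hm fun c p => eta (lam c) L p • m c
  have hΛd := gl_fderiv hs hm hΛ.df
  have hΛf := fun x => gl_far (x := x) hs hL0 hm hφ0 hφ3
  have hΨd := gl_fderiv hs hm hΨ.df
  have hΨf := fun x => gl_far (x := x) hs hL0 hm hψ0 hψ3
  have hΨev := gl_ev hs hm ψ
  generalize gl z m L (fun c p => eta (lam c) L p • m c) = Λ at hΛ hΛ0 hΛch hΛd hΛf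
  generalize gl z m L ψ = Ψ at hΨ hΨ0 hΨd hΨf hΨev
  have hY0 : D3 (fun x => Y x + Ψ x) 2 (b / h + 2 * (bs / h)) (b / h ^ 2 + 4 * (bs / h ^ 2)) :=
    ((D3.of_near hY hD).add hΨ).mono (by linarith) le_rfl le_rfl
  have dY0 : ∀ x, fderiv ℝ (fun x => Y x + Ψ x) x = fderiv ℝ Y x + fderiv ℝ Ψ x := fun x =>
    fderiv_add (hY x) (hΨ.df x)
  have hC : D3 (fun x => x + Λ x) 2 (2 * (2 * K * b' / h)) (4 * (3 * K * b' / h ^ 2)) := by
    have h1 := D3.clm (1 : ℂ →L[ℝ] ℂ) 0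
    rw [norm_one] at h1
    simp only [one_apply_eq_self, add_zero] at h1
    exact (h1.add hΛ).mono (by linarith) (le_of_eq (zero_add _)) (le_of_eq (zero_add _))
  have key := comp_near hY0 hΛ hΛ0
  have hY' : D3 (fun x => Y (x + Λ x) + Ψ (x + Λ x)) 4 (104 * K * b' / h)
      (104 * K * b' / h ^ 2) := by
    have w1 : b / h + 2 * (bs / h) ≤ 2 * b' / h := by
      rw [← mul_div_assoc, ← add_div]; gcongr; linarith
    have w2 : b / h ^ 2 + 4 * (bs / h ^ 2) ≤ 4 * b' / h ^ 2 := by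
      rw [← mul_div_assoc, ← add_div]; gcongr; linarith
    have w3 : b' ≤ K * b' := le_mul_of_one_le_left nb' hK
    have w4 : K * b' * b' ≤ K * b' := mul_le_of_le_one_right (by positivity) hb1
    refine ((hY0.mono le_rfl w1 w2).comp hC).mono (by norm_num) ?_ ?_
    · rw [show 2 * b' / h * 2 ^ 2 + 2 * (2 * (2 * K * b' / h)) = (8 * b' + 8 * (K * b')) / h by
        ring]
      gcongr; linarith
    · rw [show 4 * b' / h ^ 2 * 2 ^ 3 + 3 * (2 * b' / h) * 2 * (2 * (2 * K * b' / h)) +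
          2 * (4 * (3 * K * b' / h ^ 2)) =
          (32 * b' + 48 * (K * b' * b') + 24 * (K * b')) / h ^ 2 by field_simp; ring]
      gcongr; linarith
  have hest : ∀ x v : ℂ, ‖v‖ = 1 → ‖fderiv ℝ (fun x => Y (x + Λ x) + Ψ (x + Λ x)) x v -
      fderiv ℝ Y x v - fderiv ℝ Ψ x v‖ ≤ 104 * K * Z := fun x v hv => by
    have h1 := (fderiv ℝ (fun x => Y (x + Λ x) + Ψ (x + Λ x)) x -
      fderiv ℝ (fun x => Y x + Ψ x) x).le_opNorm v
    have h2 := (key x).2.2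
    rw [hv, mul_one, sub_apply] at h1
    have h3 : (b / h + 2 * (bs / h)) * l0 ≤ 2 * ((b + bs) * l0 / h) := by
      have : 0 ≤ b / h * l0 := by positivity
      rw [show 2 * ((b + bs) * l0 / h) = (b / h + 2 * (bs / h)) * l0 + b / h * l0 by ring]
      linarith
    have h4 := h1.trans h2
    rw [dY0, add_apply, ← sub_sub] at h4
    linarith
  refine ⟨fun x => Y (x + Λ x) + Ψ (x + Λ x), hY'.df, ⟨hY'.d2.toL2.sub_const 1, fun x => ?_⟩,
    fun x => ?_, fun c p hp => ⟨fun g => ?_, ?_, ?_⟩, fun x hx => ?_⟩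
  · have h1 := (key x).2.1
    have h2 := hD.b0 (x + Λ x)
    have h3 := hΨ.d2.b0 (x + Λ x)
    have h4 := norm_add_le (fderiv ℝ Y (x + Λ x) - 1) (fderiv ℝ Ψ (x + Λ x))
    have h5 := norm_sub_le_norm_sub_add_norm_sub
      (fderiv ℝ (fun x => Y (x + Λ x) + Ψ (x + Λ x)) x)
      (fderiv ℝ (fun x => Y x + Ψ x) (x + Λ x)) 1
    rw [show fderiv ℝ Y (x + Λ x) - 1 + fderiv ℝ Ψ (x + Λ x) =
      fderiv ℝ (fun x => Y x + Ψ x) (x + Λ x) - 1 by rw [dY0]; abel] at h4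
    linarith
  · have h1 := (bilip_of_near hY hD.b0 (x + Λ x) x).2
    rw [add_sub_cancel_left] at h1
    have h2 := norm_add_le (Y (x + Λ x) - Y x) (Ψ (x + Λ x))
    rw [show Y (x + Λ x) - Y x + Ψ (x + Λ x) = Y (x + Λ x) + Ψ (x + Λ x) - Y x by abel] at h2
    linarith [hΛ0 x, hΨ0 (x + Λ x)]
  · have hq := norm_hc hL0 (hl c) hl0 hp
    have e1 : ch (z c) (m c) p + Λ (ch (z c) (m c) p) = ch (z c) (m c) (hc (lam c) L p) := by
      rw [hΛch c hp, ch_hc]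
    have e2 : (fun q => Y (ch (z c) (m c) q) + Ψ (ch (z c) (m c) q)) =ᶠ[𝓝 (hc (lam c) L p)]
        fun q => Y (ch (z c) (m c) q) + ψ c q := (hΨev c hq).mono fun q hq =>
          congrArg (fun t => Y (ch (z c) (m c) q) + t) hq
    have e3 : ∀ v, fderiv ℝ (fun x => x + Λ x) (ch (z c) (m c) p) (m c * v) =
        m c * v + fderiv ℝ (eta (lam c) L) p v • m c := fun v => by
      have e0 : fderiv ℝ (fun x => x + Λ x) (ch (z c) (m c) p) =
          1 + fderiv ℝ Λ (ch (z c) (m c) p) :=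
        ((hasFDerivAt_id _).add (hΛ.df _).hasFDerivAt).fderiv
      rw [e0, add_apply, hΛd c hp, fderiv_smul_const ((hη c).df p)]
      rfl
    have e4 : jac (fun x => x + Λ x) (ch (z c) (m c) p) =
        1 + deriv (lam c) p.re * cut (p.im / L) := by
      have f1 := e3 1
      have f2 := e3 I
      rw [mul_one, eta_one (hl c) (hη c).df] at f1
      rw [mul_comm (m c) I] at f2
      rw [← jac_unit _ _ (hm c), f1, f2, wd_add_left, wd_add_right, wd_add_right, wd_smul_left,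
        wd_smul_left, wd_smul_right, wd_self, wd_unit (hm c)]
      ring
    have e5 := jac_comp (f := fun x => Y x + Ψ x) (g := fun x => x + Λ x)
      (z := ch (z c) (m c) p) (hY0.df _) (hC.df _)
    have e6 := jac_ch (y := fun x => Y x + Ψ x) (z := z c) (p := hc (lam c) L p) (hm c) (hY0.df _)
    rw [jac_congr e2] at e6
    simp only [pb, hcd]
    rw [e5, e4, e1, ← e6, e2.eq_of_nhds, mul_assoc]
  · have := hest (ch (z c) (m c) p) (m c) (hm c)
    rwa [← hΨd c hp 1, mul_one]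
  · have := hest (ch (z c) (m c) p) (I * m c) (by rw [norm_mul, norm_I, hm, mul_one])
    rwa [← hΨd c hp I, mul_comm (m c) I]
  · obtain ⟨f1, f2⟩ := hΛf x hx
    obtain ⟨f3, f4⟩ := hΨf x hx
    refine ⟨by simp only [f1, add_zero, f3], ?_⟩
    rw [(key x).1, f1, f2, add_zero, add_zero, dY0, f4, add_zero]
    rfl

end
end Pool.Agent.MP_20bec2_an.Pl

end MrgPart2

-- ======== part 3: formerly Pool.Agent.MP_20bec2_an.Pl.Nst
section MrgPart3

set_option autoImplicit false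
open MeasureTheory Set Complex Filter Topology

namespace Pool.Agent.MP_20bec2_an.Pl
noncomputable section

namespace Nst

lemma GG_congr {W : ℝ} {a a' g : ℂ → ℝ} {x : ℂ} (h : a =ᶠ[𝓝 x] a') :
    GG W a g x = GG W a' g x := by
  unfold GG; rw [h.eq_of_nhds, h.fderiv_eq]

lemma GG_zero (W : ℝ) (g : ℂ → ℝ) (x : ℂ) : GG W (fun _ => 0) g x = g x := by
  simp [GG]

lemma le_norm_of_out {L : ℝ} {p : ℂ} (h : Out L p) : L ≤ ‖p‖ :=
  h.elim (fun k => k.trans (abs_re_le_norm p)) fun k => k.trans (abs_im_le_norm p)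

/-- the averaged density of one cell -/
lemma cell_dens {Cg : ℝ} (hC : 1 ≤ Cg) {a g : ℂ → ℝ} {κ W h g1 ε t : ℝ} (hh : 0 < h) (hW : h ≤ W)
    (hκ : 0 ≤ κ) (ht : W * κ ≤ t) (h1 : Cg * t ≤ 1) (hε : ε ≤ 1 / 100) (hg : Nr ε g)
    (hd : Dh g 2 g1 h) (s1 : ∀ x, |GG W a g x - 1| ≤ ε * (1 + Cg * (W * κ)))
    (s2 : L2 (GG W a g) (g1 / h * (1 + Cg * (W * κ)) + Cg * W * κ ^ 2 * 2)
      (g1 / h ^ 2 * (1 + Cg * (W * κ)) + Cg * W * κ ^ 2 * (g1 / h) + Cg * W * κ ^ 3 * 2)) :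
    Nr (2 * ε) (GG W a g) ∧ Dh (GG W a g) 2 (3 * g1 + 2 * Cg * t) h := by
  have e0 : 0 ≤ ε := (abs_nonneg _).trans (hg 0)
  have g0 := hd.nonneg hh
  have W0 : 0 < W := hh.trans_le hW
  have k0 : 0 ≤ W * κ := by positivity
  have k1 : Cg * (W * κ) ≤ Cg * t := by gcongr
  have k2 : Cg * (W * κ) ≤ 1 := k1.trans h1
  have k3 : h * κ ≤ 1 := by nlinarith
  have k4 : 0 ≤ h * κ := by positivity
  have k5 : 0 ≤ Cg * (W * κ) := by positivity
  have hN : Nr (2 * ε) (GG W a g) := fun x => (s1 x).trans (by nlinarith)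
  refine ⟨hN, s2.mono ?_ ?_, fun x => ?_⟩
  · rw [le_div_iff₀ hh]
    have : (g1 / h * (1 + Cg * (W * κ)) + Cg * W * κ ^ 2 * 2) * h =
        g1 * (1 + Cg * (W * κ)) + 2 * (Cg * (W * κ) * (h * κ)) := by field_simp
    rw [this]
    nlinarith [mul_le_mul k1 k3 k4 (k5.trans k1)]
  · rw [le_div_iff₀ (by positivity)]
    have : (g1 / h ^ 2 * (1 + Cg * (W * κ)) + Cg * W * κ ^ 2 * (g1 / h) + Cg * W * κ ^ 3 * 2) *
        h ^ 2 = g1 * (1 + Cg * (W * κ)) + Cg * (W * κ) * (h * κ) * g1 +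
          2 * (Cg * (W * κ) * ((h * κ) * (h * κ))) := by field_simp
    rw [this]
    have a1 : Cg * (W * κ) * (h * κ) ≤ 1 := mul_le_one₀ k2 k4 k3
    have a2 : (h * κ) * (h * κ) ≤ 1 := mul_le_one₀ k3 k4 k3
    nlinarith [mul_le_mul k1 a2 (mul_nonneg k4 k4) (k5.trans k1), mul_le_mul_of_nonneg_right a1 g0,
      mul_le_mul_of_nonneg_left k2 g0]
  · have := abs_le.1 (hN x)
    rw [Real.norm_eq_abs, abs_le]; constructor <;> linarith

/-- consequences of the lower bound for tau -/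
lemma tau_facts {h W H l L0 A τ : ℝ} (hh : 0 < h) (h1 : h ≤ W) (h2 : W ≤ H) (h3 : H ≤ l)
    (h4 : l ≤ L0) (hA : 1 ≤ A)
    (hτ : A ^ 4 * Real.log (2 + L0 / h) * (H / h) * Real.sqrt (l / h) * (W / h) ≤ τ) :
    A * W ≤ τ * h ∧ A ^ 4 * H * Real.sqrt (l / h) * Real.log (2 + 7 / 4 * L0 / h) ≤
      2 * (τ * h ^ 2 / W) := by
  have W0 : 0 < W := hh.trans_le h1
  have L0p : 0 < L0 := by linarith
  have x1 : 1 ≤ L0 / h := (one_le_div hh).2 (by linarith)
  have a1 : 1 ≤ Real.log (2 + L0 / h) := by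
    rw [Real.le_log_iff_exp_le (by linarith)]
    linarith [Real.exp_one_lt_d9]
  have a2 : 1 ≤ H / h := (one_le_div hh).2 (by linarith)
  have a3 : 1 ≤ Real.sqrt (l / h) := Real.one_le_sqrt.2 ((one_le_div hh).2 (by linarith))
  have a4 : A ≤ A ^ 4 := le_self_pow₀ hA (by norm_num)
  constructor
  · rw [← div_le_iff₀ hh]
    refine le_trans ?_ hτ
    calc A * W / h = A * 1 * 1 * 1 * (W / h) := by ring
      _ ≤ _ := by gcongr
  · have a5 : Real.log (2 + 7 / 4 * L0 / h) ≤ 2 * Real.log (2 + L0 / h) := by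
      rw [show (2 : ℝ) * Real.log (2 + L0 / h) = Real.log ((2 + L0 / h) ^ 2) by simp]
      refine Real.log_le_log (by positivity) ?_
      rw [mul_div_assoc]; nlinarith
    have a6 : A ^ 4 * H * Real.sqrt (l / h) * Real.log (2 + L0 / h) ≤ τ * h ^ 2 / W := by
      rw [le_div_iff₀ W0, ← div_le_iff₀ (by positivity)]
      refine le_trans (le_of_eq ?_) hτ
      field_simp
    have a7 : 0 ≤ A ^ 4 * H * Real.sqrt (l / h) := by
      have : 0 ≤ H := by linarith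
      positivity
    nlinarith [mul_le_mul_of_nonneg_left a5 a7]

lemma pow_facts {Ca L0 L : ℝ} (ca : 1 ≤ Ca) (h0 : 0 < L0) (hL : L = 7 / 4 * L0) :
    Ca / L0 ^ 2 ≤ (Ca / L0) ^ 2 ∧ Ca / L0 ^ 3 ≤ (Ca / L0) ^ 3 ∧ Ca / L0 ≤ 6 * Ca / L ∧
      Ca / L0 ^ 2 ≤ 6 * Ca / L ^ 2 ∧ Ca / L0 ^ 3 ≤ 6 * Ca / L ^ 3 := by
  have c0 : 0 < Ca := by linarith
  refine ⟨?_, ?_, ?_, ?_, ?_⟩
  · rw [div_pow]; gcongr; exact le_self_pow₀ ca (by norm_num)
  · rw [div_pow]; gcongr; exact le_self_pow₀ ca (by norm_num)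
  · rw [hL, div_le_div_iff₀ h0 (by positivity)]; nlinarith [mul_pos c0 h0]
  · rw [hL, div_le_div_iff₀ (by positivity) (by positivity)]
    nlinarith [mul_pos c0 (pow_pos h0 2)]
  · rw [hL, div_le_div_iff₀ (by positivity) (by positivity)]
    nlinarith [mul_pos c0 (pow_pos h0 3)]

lemma sum_le {Cw G K b g1 u v : ℝ} (cw : 1 ≤ Cw) (ga : 1 ≤ G) (hK : K = 3 + 12 * Cw + 2 * G)
    (b0 : 0 ≤ b) (g0 : 0 ≤ g1) (u0 : 0 ≤ u) (v0 : 0 ≤ v) :
    b + Cw * u + (3 * g1 + 2 * (G * v)) + 6 * Cw * v + 6 * Cw * v ≤ K * (b + g1 + u + v) := by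
  have := mul_nonneg (by linarith : 0 ≤ K - 3) (add_nonneg b0 g0)
  have := mul_nonneg (by linarith : 0 ≤ K - Cw) u0
  have := mul_nonneg (by linarith : 0 ≤ K - 12 * Cw - 2 * G) v0
  linarith

lemma xz_facts {Cw τ h W L0 L d v b1 : ℝ} (cw : 1 ≤ Cw) (τ0 : 0 ≤ τ) (hh : 0 < h) (q1 : h ≤ W)
    (q2 : W ≤ L0) (hL : L = 7 / 4 * L0) (hd : d = 2 * Cw * (τ * h ^ 2 / W)) (hv : v = τ * h / L0)
    (b11 : b1 ≤ 1) :
    d / h + b1 * d / h + b1 * (d * W) / h ^ 2 ≤ 6 * Cw * τ ∧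
      (d + b1 * (d * W) / h + d * W / L) / L ≤ 6 * Cw * v ∧ 6 * Cw * τ * h / L ≤ 6 * Cw * v := by
  have W0 : 0 < W := hh.trans_le q1
  have L0p : 0 < L0 := W0.trans_le q2
  have Lp : 0 < L := by linarith
  have d0 : 0 ≤ d := by rw [hd]; positivity
  have x1 : d * W / h ^ 2 = 2 * Cw * τ := by rw [hd]; field_simp
  have x2 : d / h ≤ 2 * Cw * τ := by
    rw [← x1, div_le_div_iff₀ hh (by positivity)]
    nlinarith [mul_le_mul_of_nonneg_left q1 (mul_nonneg d0 hh.le)]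
  have x3 : d * W / h = 2 * Cw * τ * h := by rw [hd]; field_simp
  have x4 : d ≤ 2 * Cw * τ * h := (div_le_iff₀ hh).1 x2
  have x5 : d * W / L ≤ 2 * Cw * τ * h := by rw [← x3]; gcongr; linarith
  have x6 : 6 * Cw * τ * h / L ≤ 6 * Cw * v := by
    rw [hv, ← mul_div_assoc, ← mul_assoc]; gcongr; linarith
  refine ⟨?_, le_trans ?_ x6, x6⟩
  · rw [mul_div_assoc, mul_div_assoc, x1]
    linarith [mul_le_of_le_one_left (by positivity : 0 ≤ d / h) b11,
      mul_le_of_le_one_left (by positivity : 0 ≤ 2 * Cw * τ) b11]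
  · rw [mul_div_assoc, x3]
    gcongr
    linarith [mul_le_of_le_one_left (by positivity : 0 ≤ 2 * Cw * τ * h) b11]

lemma out_facts {Cs Cw K C Λ η τ h A W L0 L v s B : ℝ} (c1 : 1 ≤ Cs) (cw : 1 ≤ Cw) (K1 : 1 ≤ K)
    (hC : C = Cs * K + 2 * (Cs * (6 * Cw) ^ 4) + 12 * (Cs * Cw)) (hΛ : 1 ≤ Λ) (η0 : 0 ≤ η)
    (τ0 : 0 ≤ τ) (hh : 0 < h) (aw : 0 ≤ A * W) (t1 : A * W ≤ τ * h) (L0p : 0 < L0)
    (hL : L = 7 / 4 * L0) (hv : v = τ * h / L0) (s0 : 0 ≤ s) (hB : B ≤ K * s) :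
    Cw * A * W + Cs * L * (6 * Cw * v) ≤ C * τ * h ∧
      Cs * Λ * (1 + 0 + 6 * Cw * τ) * η ≤ C * Λ * (1 + τ) * η ∧
      (∀ t, 0 ≤ t → Cw * t + Cs * (6 * Cw * v + η) ≤ C * (t + v + η)) ∧ Cs * B ≤ C * s ∧
      Cs * Λ ^ 3 * (1 + 0 + 6 * Cw * τ) ^ 4 * L / h ^ 2 ≤ C * Λ ^ 3 * (1 + τ) ^ 4 * L0 / h ^ 2 ∧
      ∀ e, 0 + Cs * (6 * Cw * τ + e * 0) ≤ C * τ := by
  have sw : 1 ≤ Cs * Cw := one_le_mul_of_one_le_of_one_le c1 cw
  have sw' : Cw ≤ Cs * Cw := le_mul_of_one_le_left (by linarith) c1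
  have sw'' : Cs ≤ Cs * Cw := le_mul_of_one_le_right (by linarith) cw
  have C1 : 0 ≤ Cs * K := by positivity
  have C2 : 0 ≤ Cs * (6 * Cw) ^ 4 := by positivity
  have C3 : 12 * (Cs * Cw) ≤ C := by linarith
  have C4 : 2 * (Cs * (6 * Cw) ^ 4) ≤ C := by linarith
  have C5 : Cs * K ≤ C := by linarith
  clear hC
  have v0 : 0 ≤ v := by rw [hv]; positivity
  have y1 : 1 + 0 + 6 * Cw * τ ≤ 6 * Cw * (1 + τ) := by linarith
  refine ⟨?_, ?_, fun t ht => ?_, ?_, ?_, fun e => ?_⟩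
  · have a1 : Cs * L * (6 * Cw * v) = 21 / 2 * (Cs * Cw * (τ * h)) := by
      rw [hL, hv]; field_simp; ring
    have a2 : 0 ≤ τ * h := by positivity
    have a3 := mul_le_mul sw' t1 aw (by positivity)
    have a4 := mul_le_mul_of_nonneg_right C3 a2
    linarith [mul_nonneg (by linarith : 0 ≤ Cs * Cw) a2]
  · have a1 : 0 ≤ Λ * (1 + τ) * η := by positivity
    calc _ ≤ Cs * Λ * (6 * Cw * (1 + τ)) * η := by gcongr
      _ = 6 * (Cs * Cw) * (Λ * (1 + τ) * η) := by ring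
      _ ≤ C * (Λ * (1 + τ) * η) := mul_le_mul_of_nonneg_right (by linarith) a1
      _ = _ := by ring
  · have a1 := mul_le_mul_of_nonneg_right (show Cw ≤ C by linarith) ht
    have a2 := mul_le_mul_of_nonneg_right (show 6 * (Cs * Cw) ≤ C by linarith) v0
    have a3 := mul_le_mul_of_nonneg_right (show Cs ≤ C by linarith) η0
    linarith
  · calc _ ≤ Cs * (K * s) := by gcongr
      _ = Cs * K * s := by ring
      _ ≤ _ := by gcongr
  · have a1 : 0 ≤ Λ ^ 3 * (1 + τ) ^ 4 * L0 / h ^ 2 := by positivity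
    have a2 : L ≤ 2 * L0 := by linarith
    have a3 : 0 ≤ L := by linarith
    calc _ ≤ Cs * Λ ^ 3 * (6 * Cw * (1 + τ)) ^ 4 * (2 * L0) / h ^ 2 := by gcongr
      _ = 2 * (Cs * (6 * Cw) ^ 4) * (Λ ^ 3 * (1 + τ) ^ 4 * L0 / h ^ 2) := by ring
      _ ≤ C * (Λ ^ 3 * (1 + τ) ^ 4 * L0 / h ^ 2) := mul_le_mul_of_nonneg_right C4 a1
      _ = _ := by ring
  · linarith [mul_le_mul_of_nonneg_right (show 6 * (Cs * Cw) ≤ C by linarith) τ0]

end Nst

open Nst

theorem nst_of (h1 : InvStmt) (h2 : GpStmt) (h3 : WigStmt) (h4 : StepStmt) : NstStmt := by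
  obtain ⟨_, _, hI⟩ := h1
  obtain ⟨Cg, cg, hG⟩ := h2
  obtain ⟨Ca, ca, hB⟩ := exists_aL
  obtain ⟨Cw, cw, hW⟩ := h3 (6 * Ca) (by linarith)
  obtain ⟨Cs, cs, c1, c2, hS⟩ := h4
  obtain ⟨K, hK⟩ : ∃ K, K = 3 + 12 * Cw + 2 * (Cg * Ca) := ⟨_, rfl⟩
  have ga : 1 ≤ Cg * Ca := one_le_mul_of_one_le_of_one_le cg ca
  have K1 : 1 ≤ K := by linarith
  obtain ⟨C, hC⟩ : ∃ C, C = Cs * K + 2 * (Cs * (6 * Cw) ^ 4) + 12 * (Cs * Cw) := ⟨_, rfl⟩
  refine ⟨C, min cs 1 / (50 * K), ?_, by positivity, ?_⟩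
  · have sw : 1 ≤ Cs * Cw := one_le_mul_of_one_le_of_one_le c1 cw
    have C1 : 0 ≤ Cs * K := by positivity
    have C2 : 0 ≤ Cs * (6 * Cw) ^ 4 := by positivity
    linarith
  intro w r r' f Y n j h b Af Ln Λ ε η g1 W H l L0 A τ hc hn hΛ hf hY hh q1 q2 q3 q4 hA hE hη hη1
    hε nw nr nr' hd hr hτ hs
  obtain ⟨t1, t2⟩ := tau_facts hh q1 q2 q3 q4 hA hτ
  clear hτ
  have W0 : 0 < W := hh.trans_le q1
  have H0 : 0 < H := W0.trans_le q2
  have l0 : 0 < l := H0.trans_le q3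
  have L0p : 0 < L0 := l0.trans_le q4
  have q5 : W ≤ L0 := q2.trans (q3.trans q4)
  have A0 : 0 < A := one_pos.trans_le hA
  have w0 : 0 < Cw := one_pos.trans_le cw
  have a0 : 0 < Ca := one_pos.trans_le ca
  have gp : 0 < Cg := one_pos.trans_le cg
  have b0 := hc.bY.nonneg hh
  have g0 := hd.nonneg hh
  have e0 : 0 ≤ ε := (abs_nonneg _).trans (nw 0)
  have n0 : 0 ≤ L0 * Ln := mul_nonneg L0p.le hn.n0
  have η0 : 0 ≤ η := by linarith only [n0, hη]
  have t3 : W ≤ τ * h := le_trans (le_mul_of_one_le_left W0.le hA) t1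
  have τ0 : 0 ≤ τ := nonneg_of_mul_nonneg_left (W0.le.trans t3) hh
  obtain ⟨u, hu⟩ : ∃ u, u = A * W / H := ⟨_, rfl⟩
  obtain ⟨v, hv⟩ : ∃ v, v = τ * h / L0 := ⟨_, rfl⟩
  have u0 : 0 ≤ u := by rw [hu]; positivity
  have v0 : 0 ≤ v := by rw [hv]; positivity
  rw [← hu, ← hv] at hs ⊢
  rw [le_div_iff₀ (by positivity)] at hs
  have s1 : K * (b + g1 + u + v) ≤ 1 / 50 := by linarith only [min_le_right cs 1, hs]
  have s2 : K * (b + g1 + u + v) ≤ cs := by linarith only [min_le_left cs 1, hs, c2]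
  have s3 := sum_le cw ga hK b0 g0 u0 v0
  have m1 : 0 ≤ Cw * u := by positivity
  have m2 : 0 ≤ Cw * v := by positivity
  have m3 : 0 ≤ Cg * (Ca * v) := by positivity
  have s4 : b ≤ 1 ∧ g1 ≤ 1 ∧ Cw * u ≤ 1 / 50 ∧ Cg * (Ca * v) ≤ 1 ∧
      b + Cw * u + (3 * g1 + 2 * Cg * (Ca * v)) ≤ 1 := by
    refine ⟨?_, ?_, ?_, ?_, ?_⟩ <;> linarith only [s1, s3, m1, m2, m3, b0, g0]
  obtain ⟨s4, s5, s6, κ2, b11⟩ := s4
  obtain ⟨J, hJ, -⟩ := hI Y b h hh s4 hc.dY hc.bY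
  have bl : ∀ x c, 19 / 20 * ‖x - J (cen L0 j c)‖ ≤ ‖Y x - cen L0 j c‖ ∧
      ‖Y x - cen L0 j c‖ ≤ 21 / 20 * ‖x - J (cen L0 j c)‖ := fun x c => by
    have := bilip_of_near hc.dY hY x (J (cen L0 j c))
    rw [hJ] at this
    constructor <;> linarith only [this.1, this.2]
  obtain ⟨L, hL⟩ : ∃ L, L = 7 / 4 * L0 := ⟨_, rfl⟩
  have κ1 : W * (Ca / L0) ≤ Ca * v := by
    rw [hv, mul_div_assoc', mul_div_assoc', mul_comm]
    exact div_le_div_of_nonneg_right (mul_le_mul_of_nonneg_left t3 a0.le) L0p.le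
  have κ3 : W * (Ca / L0) ≤ 1 :=
    κ1.trans ((le_mul_of_one_le_left (by positivity) cg).trans κ2)
  obtain ⟨p2, p3, o1, o2, o3⟩ := pow_facts ca L0p hL
  have hrc : ∀ p : ℂ, Nr (2 * ε) (GG W (fun y => bmp (L0⁻¹ • (y - p))) r') ∧
      Dh (GG W (fun y => bmp (L0⁻¹ • (y - p))) r') 2 (3 * g1 + 2 * Cg * (Ca * v)) h := fun p => by
    obtain ⟨a1, a2⟩ := (hB L0 L0p).1 p
    obtain ⟨a3, -, a4⟩ := hG _ (Ca / L0) W W0 (by positivity) κ3 (a1.mono le_rfl le_rfl p2)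
      (a2.mono le_rfl p2 p3)
    exact cell_dens cg hh q1 (by positivity) κ1 κ2 hε nr' hd
      (a3 r' ε 1 hd.toL2.continuous nr').2 (a4 r' _ _ _ hd).2.1
  obtain ⟨d, hdd⟩ : ∃ d, d = 2 * Cw * (τ * h ^ 2 / W) := ⟨_, rfl⟩
  have hw := fun c : ℤ × ℤ => hW r' (fun y => bmp (L0⁻¹ • (y - cen L0 j c)))
    (fun p => Y (ch (J (cen L0 j c)) (n (J (cen L0 j c))) p)) h W H l L A d hh q1 q2 q3
    (by linarith only [hL, q4, L0p]) hA
    (le_trans (by rw [hL, mul_div_assoc]; linarith only [sq_nonneg (L0 / h)]) hE)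
    (hd.mono hh le_rfl s5)
    (((D3.of_near hc.dY hc.bY).comp_ch _ (hn.one _)).mono (by norm_num)
      (div_le_div_of_nonneg_right s4 hh.le) (div_le_div_of_nonneg_right s4 (sq_nonneg h)))
    (fun x => bmp_nonneg _) (((hB L0 L0p).1 _).1.mono le_rfl o1 o2)
    (((hB L0 L0p).1 _).2.mono o1 o2 o3)
    (fun p hp => bump_zero L0p (by
      have a1 := (bl (ch (J (cen L0 j c)) (n (J (cen L0 j c))) p) c).1
      rw [norm_ch_sub _ (hn.one _)] at a1
      linarith only [le_norm_of_out hp, a1, hL, L0p]))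
    (by
      rw [hdd, hL]
      linarith only [mul_le_mul_of_nonneg_left t2 w0.le])
  choose ψ ψ1 ψ2 ψ3 ψ4 ψ5 using hw
  have eu : Cw * A * W / H = Cw * u := by rw [hu]; ring
  rw [eu] at ψ3
  obtain ⟨x1, x2, x3⟩ := xz_facts cw τ0 hh q1 q5 hL hdd hv b11
  have s7 : b + Cw * u + (3 * g1 + 2 * Cg * (Ca * v)) + 6 * Cw * τ * h / L + 6 * Cw * v ≤
      K * (b + g1 + u + v) := by linarith only [x3, s3]
  have he : ε ≤ 2 * ε := by linarith only [e0]
  obtain ⟨f', Y', R, r1, r2, r3⟩ := hS (fun c => J (cen L0 j c)) w r r' 0 0 0 f Y n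
    (fun c => GG W (fun y => bmp (L0⁻¹ • (y - cen L0 j c))) r') (fun _ => 0) (fun _ => 0) ψ
    h b Af Ln L Λ (2 * ε) η (3 * g1 + 2 * Cg * (Ca * v)) (Cw * A * W) (Cw * u) (Cw * u) d (d / h)
    (d * W) 0 (Cw * A * W / l) (Cw * u) 0 (6 * Cw * τ) (6 * Cw * v) hc hn hΛ hf hY hh
    (by linarith only [hL, q1, q5, L0p])
    (fun c c' k => by
      have a1 := (bl (J (cen L0 j c)) c').2
      rw [hJ] at a1
      linarith only [cen_far L0p j k, a1, hL, L0p])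
    (by rw [hL]; linarith only [n0, hη]) hη1 (by linarith only [hε]) (nw.mono he)
    (nr.mono he) (nr'.mono he) (hd.mono hh le_rfl (by linarith only [g0, m3]))
    (fun x => by simp)
    (fun x hx => ⟨by
      rw [hr, GG_congr (aL_zero L0p j fun c => by linarith only [(bl x c).1, hx c, hL, L0p]),
        GG_zero], by simp, abs_zero.trans_le (by positivity), abs_zero.trans_le m1⟩)
    (fun c => ⟨(hrc _).1, (hrc _).2, fun x hx => by
      rw [hr, GG_congr (aL_eq L0p j (c := c) (by linarith only [(bl x c).2, hx, hL, L0p]))],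
      ψ1 c, ψ2 c, ψ3 c, fun p _ => ⟨by simpa using ψ4 c p, by
        simpa using ((fderiv ℝ (ψ c) p).le_opNorm I).trans (by simpa using (ψ3 c).d2.b0 p),
        by simp⟩, fun p => by simp, ψ5 c⟩) s6 x1 x2 (s7.trans s2)
  obtain ⟨y2, y3, y4, y5, y6, y7⟩ := out_facts c1 cw K1 hC hΛ η0 τ0 hh (by positivity) t1 L0p hL hv
    (by positivity : 0 ≤ b + g1 + u + v) s7
  refine ⟨f', Y', R, r1.mono hh y5 (add_le_add le_rfl y6), r2.mono y2 y3 y3 (y7 _) ?_ (y4 u u0),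
    fun x => (r3 x).trans (mul_le_mul_of_nonneg_left y2 η0)⟩
  refine le_trans (le_of_eq ?_) (y4 (A * W / l) (by positivity))
  ring

end
end Pool.Agent.MP_20bec2_an.Pl

end MrgPart3

-- ======== part 4: formerly Pool.Agent.MP_20bec2_an.Pl.Dst
section MrgPart4

set_option autoImplicit false
open MeasureTheory Set Complex

namespace Pool.Agent.MP_20bec2_an.Pl
noncomputable section

namespace Dst

/-- the parameter bookkeeping of the deterministic step -/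
lemma arith {D h L l1 l2 M ε g1 b m1 m2 b1 σ Z a0 bt d0 τ0 m0 B : ℝ} (hD : 1 ≤ D) (hh : 0 < h)
    (h1 : h ≤ l1) (h2 : h ≤ l2) (h3 : l1 ≤ L) (h4 : l2 ≤ L) (hM : 0 ≤ M) (hε : 0 ≤ ε)
    (hg : 0 ≤ g1) (hb : 0 ≤ b) (hm1 : 0 ≤ m1) (hm2 : 0 ≤ m2)
    (ea : a0 = L * M / (l2 * h ^ 2)) (ebt : bt = M / (h * l2))
    (ed : d0 = M / l1 + D * L * (M / l2) * (g1 / h + (ε + m2) / l1 + m1 / l2))
    (eτ : τ0 = D * L * (M / l2) * (g1 + b + ε + m1 + m2) / h ^ 2)
    (em : m0 = D * L * (M / l2) * (ε + m2)) (eB : B = b + D * bt + g1)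
    (hb1 : b + g1 + bt ≤ b1) (hσ1 : b1 ≤ σ) (hσ2 : ε + m2 ≤ σ) (hσ3 : b1 + ε + m1 + m2 ≤ 2 * σ)
    (hσ : σ ≤ 1)
    (hZ : M / (l1 * L) + M / l2 * (g1 / h + (ε + m2) / l1 + m1 / l2 + b1 * (ε + m2) / h) ≤ Z) :
    0 ≤ a0 ∧ 0 ≤ bt ∧ B ≤ D * b1 ∧ a0 * h / L = bt ∧ M / l1 ^ 2 ≤ a0 ∧ M / l2 ≤ a0 * h ∧
    τ0 + B * d0 / h + B * m0 / h ^ 2 ≤ 6 * D ^ 2 * σ * a0 ∧
    0 ≤ (d0 + B * m0 / h + m0 / L) / L ∧
    L * ((d0 + B * m0 / h + m0 / L) / L) ≤ 5 * D ^ 2 * a0 * h ∧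
    (d0 + B * m0 / h + m0 / L) / L ≤ 5 * D ^ 2 * bt ∧
    (d0 + B * m0 / h + m0 / L) / L ≤ 2 * D ^ 2 * Z := by
  have p1 : 0 < l1 := by linarith
  have p2 : 0 < l2 := by linarith
  have pL : 0 < L := by linarith
  have hL : h ≤ L := by linarith
  have na : 0 ≤ a0 := by rw [ea]; positivity
  have nbt : 0 ≤ bt := by rw [ebt]; positivity
  have nb1 : 0 ≤ b1 := by linarith
  have nσ : 0 ≤ σ := by linarith
  have nB : 0 ≤ B := by rw [eB]; positivity
  have nd : 0 ≤ d0 := by rw [ed]; positivity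
  have nm : 0 ≤ m0 := by rw [em]; positivity
  have hB : B ≤ D * b1 := by
    have i1 := le_mul_of_one_le_left (add_nonneg hb hg) hD
    have i2 := mul_le_mul_of_nonneg_left hb1 (zero_le_one.trans hD)
    rw [eB]; linarith
  have hBσ : B ≤ D * σ := hB.trans (by gcongr)
  have hBD : B ≤ D := hBσ.trans (mul_le_of_le_one_right (by linarith) hσ)
  have e1 : a0 * h / L = bt := by rw [ea, ebt]; field_simp
  have e2 : L * (M / l2) = a0 * h ^ 2 := by rw [ea]; field_simp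
  have k1 : M / h ≤ a0 * h := by
    calc M / h = l2 * M / (l2 * h) := by field_simp
      _ ≤ L * M / (l2 * h) := by gcongr
      _ = a0 * h := by rw [ea]; field_simp
  have k2 : M / l1 ≤ a0 * h := le_trans (by gcongr) k1
  have k3 : M / l2 ≤ a0 * h := le_trans (by gcongr) k1
  have k4 : M / l1 ^ 2 ≤ a0 := by
    calc M / l1 ^ 2 ≤ M / h ^ 2 := by gcongr
      _ = M / h / h := by field_simp
      _ ≤ a0 * h / h := by gcongr
      _ = a0 := by field_simp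
  have k5 : g1 / h + (ε + m2) / l1 + m1 / l2 ≤ 2 / h := by
    calc _ ≤ g1 / h + (ε + m2) / h + m1 / h := by gcongr
      _ = (g1 + ε + m1 + m2) / h := by ring
      _ ≤ 2 / h := by gcongr; linarith
  have k6 : d0 ≤ 3 * D * a0 * h := by
    calc d0 = M / l1 + D * (L * (M / l2)) * (g1 / h + (ε + m2) / l1 + m1 / l2) := by rw [ed]; ring
      _ ≤ a0 * h + D * (a0 * h ^ 2) * (2 / h) := by rw [e2]; gcongr
      _ = 1 * (a0 * h) + 2 * D * a0 * h := by field_simp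
      _ ≤ D * (a0 * h) + 2 * D * a0 * h := by gcongr
      _ = _ := by ring
  have k7 : m0 ≤ D * a0 * h ^ 2 := by
    calc m0 = D * (L * (M / l2)) * (ε + m2) := by rw [em]; ring
      _ ≤ D * (a0 * h ^ 2) * 1 := by rw [e2]; gcongr; linarith
      _ = _ := by ring
  have k8 : τ0 ≤ 2 * D ^ 2 * σ * a0 := by
    calc τ0 = D * (L * (M / l2)) * (g1 + b + ε + m1 + m2) / h ^ 2 := by rw [eτ]; ring
      _ ≤ D * (a0 * h ^ 2) * (2 * σ) / h ^ 2 := by rw [e2]; gcongr; linarith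
      _ = 2 * (D * 1) * σ * a0 := by field_simp
      _ ≤ 2 * (D * D) * σ * a0 := by gcongr
      _ = _ := by ring
  have k9 : B * d0 / h ≤ 3 * D ^ 2 * σ * a0 := by
    calc B * d0 / h ≤ D * σ * (3 * D * a0 * h) / h := by gcongr
      _ = _ := by field_simp
  have k10 : B * m0 / h ^ 2 ≤ D ^ 2 * σ * a0 := by
    calc B * m0 / h ^ 2 ≤ D * σ * (D * a0 * h ^ 2) / h ^ 2 := by gcongr
      _ = _ := by field_simp
  have k11 : d0 + B * m0 / h + m0 / L ≤ 5 * D ^ 2 * a0 * h := by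
    calc _ ≤ 3 * D * a0 * h + D * (D * a0 * h ^ 2) / h + D * a0 * h ^ 2 / h := by gcongr
      _ = 4 * (D * 1) * (a0 * h) + D ^ 2 * a0 * h := by field_simp; ring
      _ ≤ 4 * (D * D) * (a0 * h) + D ^ 2 * a0 * h := by gcongr
      _ = _ := by ring
  refine ⟨na, nbt, hB, e1, k4, k3, by linarith, by positivity, ?_, ?_, ?_⟩
  · rwa [mul_div_cancel₀ _ pL.ne']
  · calc _ ≤ 5 * D ^ 2 * a0 * h / L := by gcongr
      _ = _ := by rw [← e1]; ring
  · have hD2 : D ≤ D ^ 2 := le_self_pow₀ hD two_ne_zero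
    have q1 : B * m0 / h / L ≤ D ^ 2 * (M / l2 * (b1 * (ε + m2) / h)) := by
      calc B * m0 / h / L ≤ D * b1 * m0 / h / L := by gcongr
        _ = _ := by rw [em]; field_simp
    have q2 : m0 / L / L ≤ D ^ 2 * (M / l2 * ((ε + m2) / l1)) := by
      calc m0 / L / L = D * (M / l2 * ((ε + m2) / L)) := by rw [em]; field_simp
        _ ≤ _ := by gcongr
    have q3 : d0 / L ≤ D ^ 2 * (M / (l1 * L) + M / l2 * (g1 / h + (ε + m2) / l1 + m1 / l2)) := by
      calc d0 / L = 1 * (M / (l1 * L)) + D * (M / l2 * (g1 / h + (ε + m2) / l1 + m1 / l2)) := by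
            rw [ed]; field_simp
        _ ≤ D ^ 2 * (M / (l1 * L)) + D ^ 2 * (M / l2 * (g1 / h + (ε + m2) / l1 + m1 / l2)) := by
            gcongr; linarith
        _ = _ := by ring
    have q4 : 0 ≤ D ^ 2 * (M / (l1 * L)) := by positivity
    have q5 : 0 ≤ D ^ 2 * (M / l2 * (g1 / h)) := by positivity
    have q6 : 0 ≤ D ^ 2 * (M / l2 * (m1 / l2)) := by positivity
    have q7 : 0 ≤ D ^ 2 * (M / l2 * (b1 * (ε + m2) / h)) := by positivity
    have q8 := mul_le_mul_of_nonneg_left hZ (show 0 ≤ 2 * D ^ 2 by positivity)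
    rw [add_div, add_div]
    linarith

/-- the derivative of Y in the frame of the centre of a cell -/
lemma frame {A : ℂ →L[ℝ] ℂ} {m v : ℂ} {μ η : ℝ} (hA : ‖A - 1‖ ≤ 1 / 20) (h1 : ‖A v - v‖ ≤ μ)
    (h2 : ‖m - v‖ ≤ η) : ‖A m - m‖ ≤ μ + η := by
  have e : A m - m = (A v - v) + (A - 1) (m - v) := by simp; ring
  have h3 := (A - 1).le_opNorm (m - v)
  have h4 := norm_add_le (A v - v) ((A - 1) (m - v))
  have h5 : ‖A - 1‖ * ‖m - v‖ ≤ 1 * η := by gcongr; linarith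
  rw [e]; linarith

/-- the bounds of the generic step imply those of the deterministic step -/
lemma fin {D S h L Λ a0 a σ ε η b1 Z Pb K Z0 bb : ℝ} (hD : 1 ≤ D) (hS : 1 ≤ S) (hh : 0 < h)
    (hL : 0 < L) (hΛ : 1 ≤ Λ) (na : 0 ≤ a0) (ha : a0 ≤ a) (nσ : 0 ≤ σ) (hσ : σ ≤ 1) (hε : ε ≤ σ)
    (nη : 0 ≤ η) (nb : 0 ≤ b1) (nZ : 0 ≤ Z) (nP : 0 ≤ Pb) (hP : Pb ≤ a0)
    (hK : K ≤ a0 * h) (h1 : L * Z0 ≤ 5 * D ^ 2 * a0 * h) (h2 : Z0 ≤ 2 * D ^ 2 * Z)
    (h3 : bb ≤ 12 * D ^ 2 * b1) :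
    S * bb ≤ S * (7 * D ^ 2) ^ 4 * b1 ∧
    S * Λ ^ 3 * (1 + Pb + 6 * D ^ 2 * σ * a0) ^ 4 * L / h ^ 2 ≤
      S * (7 * D ^ 2) ^ 4 * Λ ^ 3 * (1 + a) ^ 4 * L / h ^ 2 ∧
    K + S * L * Z0 ≤ S * (7 * D ^ 2) ^ 4 * a * h ∧
    S * Λ * (1 + Pb + 6 * D ^ 2 * σ * a0) * η ≤ S * (7 * D ^ 2) ^ 4 * Λ * (1 + a) * η ∧
    S * (6 * D ^ 2 * σ * a0 + ε * Pb) ≤ S * (7 * D ^ 2) ^ 4 * σ * a ∧
    S * (Z0 + η) ≤ S * (7 * D ^ 2) ^ 4 * (Z + η) ∧
    η * (K + S * L * Z0) ≤ η * (S * (7 * D ^ 2) ^ 4 * a * h) := by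
  have hQ : 1 ≤ D ^ 2 := one_le_pow₀ hD
  generalize D ^ 2 = Q at *
  have hE : 14 * Q ≤ (7 * Q) ^ 4 := by
    have : (2 : ℝ) ≤ (7 * Q) ^ 3 :=
      le_trans (by norm_num) (pow_le_pow_left₀ (by norm_num) (show 7 ≤ 7 * Q by linarith) 3)
    calc 14 * Q = 2 * (7 * Q) := by ring
      _ ≤ (7 * Q) ^ 3 * (7 * Q) := by gcongr
      _ = _ := by ring
  have nA : 0 ≤ a := by linarith
  have u1 : 1 + Pb + 6 * Q * σ * a0 ≤ 7 * Q * (1 + a) := by
    have v1 : 6 * Q * σ * a0 ≤ 6 * Q * 1 * a := by gcongr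
    have v2 : 1 * a ≤ Q * a := by gcongr
    linarith
  have u2 : K + S * L * Z0 ≤ S * (7 * Q) ^ 4 * a * h := by
    calc K + S * L * Z0 = K + S * (L * Z0) := by ring
      _ ≤ 1 * (1 * a * h) + S * (5 * Q * a * h) := by
          rw [one_mul, one_mul]
          exact add_le_add (hK.trans (by gcongr))
            (mul_le_mul_of_nonneg_left (h1.trans (by gcongr)) (by linarith))
      _ ≤ S * (Q * a * h) + S * (5 * Q * a * h) := by gcongr
      _ = S * (6 * Q) * a * h := by ring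
      _ ≤ _ := by gcongr; linarith
  refine ⟨?_, ?_, u2, ?_, ?_, ?_, by gcongr⟩
  · calc S * bb ≤ S * (12 * Q * b1) := by gcongr
      _ = S * (12 * Q) * b1 := by ring
      _ ≤ _ := by gcongr; linarith
  · calc _ ≤ S * Λ ^ 3 * (7 * Q * (1 + a)) ^ 4 * L / h ^ 2 := by gcongr
      _ = _ := by ring
  · calc _ ≤ S * Λ * (7 * Q * (1 + a)) * η := by gcongr
      _ = S * (7 * Q) * Λ * (1 + a) * η := by ring
      _ ≤ _ := by gcongr; linarith
  · calc _ ≤ S * (6 * Q * σ * a + 1 * (σ * a)) := by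
          rw [one_mul]; gcongr; linarith
      _ ≤ S * (6 * Q * σ * a + Q * (σ * a)) := by gcongr
      _ = S * (7 * Q) * σ * a := by ring
      _ ≤ _ := by gcongr; linarith
  · calc S * (Z0 + η) ≤ S * (2 * Q * Z + 1 * η) := by rw [one_mul]; gcongr
      _ ≤ S * (2 * Q * Z + 2 * Q * η) := by gcongr; linarith
      _ = S * (2 * Q) * (Z + η) := by ring
      _ ≤ _ := by gcongr; linarith

end Dst

theorem dst_of (h1 : DetStmt) (h2 : StepStmt) : DstStmt := by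
  obtain ⟨D, hD, hDet⟩ := h1
  obtain ⟨S, c0, hS, hc0, hStep⟩ := h2
  refine ⟨S * (7 * D ^ 2) ^ 4, min c0 (1 / 50) / (12 * D ^ 2),
    one_le_mul_of_one_le_of_one_le hS (one_le_pow₀ (by nlinarith)), by positivity, ?_⟩
  intro z w r P p1 p2 f Y n e1 e2 h b Af Ln L Λ ε η g1 μ1 μ2 M1 l1 M2 l2 τP f1 f2 b1 σ a Z
    hC hF hΛ hf hY hV hh hl1 hl2 hL1 hL2 hη hη1 hε hw hr hrD hce hp hb1 hb1c hσ hσ1 ha hZ
  have pL : 0 < L := by linarith
  have p1' : 0 < l1 := by linarith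
  have nM1 := (hce.c1 0).n0
  have nM2 := (hce.c2 0).n0
  have nε : 0 ≤ ε := (abs_nonneg _).trans (hr 0)
  have nη : 0 ≤ η := le_trans (by have := hF.n0; positivity) hη
  have nμ1 : 0 ≤ μ1 := (norm_nonneg _).trans (hV 0).1
  have nμ2 : 0 ≤ μ2 := (norm_nonneg _).trans (hV 0).2
  have nb : 0 ≤ b := hC.bY.nonneg hh
  have ng : 0 ≤ g1 := hrD.nonneg hh
  obtain ⟨na, nbt, kB, k1, k2, k3, k4, k5, k6, k7, k8⟩ := Dst.arith (M := M1 * M2) (ε := ε)
    (g1 := g1) (b := b) (m1 := μ1 + η) (m2 := μ2 + η) (b1 := b1) (σ := σ) (Z := Z) hD hh hl1 hl2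
    hL1 hL2 (by positivity) nε ng nb (by positivity) (by positivity) rfl rfl rfl rfl rfl rfl hb1
    (by linarith) (by have : 0 ≤ M1 * M2 / (h * l2) := by have : 0 < l2 := by linarith
                                                          positivity
                      linarith)
    (by have : 0 ≤ M1 * M2 / (h * l2) := by have : 0 < l2 := by linarith
                                            positivity
        linarith) hσ1 (by simpa only [add_assoc] using hZ)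
  have hb12 : 12 * D ^ 2 * b1 ≤ min c0 (1 / 50) := by
    rw [le_div_iff₀ (by positivity)] at hb1c; linarith
  have nb1 : 0 ≤ b1 := by linarith
  have hc1 : 12 * D ^ 2 * b1 ≤ c0 := hb12.trans (min_le_left _ _)
  have hc2 : 12 * D ^ 2 * b1 ≤ 1 / 50 := hb12.trans (min_le_right _ _)
  have hD2 : D ≤ D ^ 2 := le_self_pow₀ hD two_ne_zero
  have hDb : D * b1 ≤ D ^ 2 * b1 := by gcongr
  have hDb1 : b1 ≤ D * b1 := le_mul_of_one_le_left nb1 hD
  have nDb : 0 ≤ D ^ 2 * b1 := by positivity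
  have hnear : ∀ c p, ‖p‖ < 3 / 2 * L → ‖n (z c) - n (ch (z c) (n (z c)) p)‖ ≤ η := by
    intro c p hp
    refine (hF.lip _ _).trans (le_trans ?_ hη)
    rw [norm_sub_rev, norm_ch_sub _ (hF.one _), mul_comm]
    have := hF.n0
    gcongr
  have key := fun c => hDet r (fun p => Y (ch (z c) (n (z c)) p)) (n (z c)) (e1 c) (e2 c) h L l1 l2
    M1 M2 ε g1 b (μ1 + η) (μ2 + η) (hF.one _) hh hl1 hl2 hL1 hL2 hr (by linarith) hrD
    (by linarith)
    (((D3.of_near hC.dY hC.bY).comp_ch (z c) (hF.one _)).mono (by norm_num) le_rfl le_rfl)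
    (by linarith)
    (fun p hp => by
      rw [fderiv_ch (hC.dY _), fderiv_ch (hC.dY _), mul_one, mul_comm _ I]
      refine ⟨Dst.frame (hY _) (hV _).1 (hnear c p hp), Dst.frame (hY _) (hV _).2 ?_⟩
      rw [← mul_sub, norm_mul, norm_I, one_mul]
      exact hnear c p hp)
    (hce.c1 c) (hce.c2 c) (hce.z1 c) (hce.z2 c) (by linarith)
  choose ψ hψ1 hψ2 hψ3 hψ4 hψ5 using key
  generalize L * (M1 * M2) / (l2 * h ^ 2) = a0 at *
  generalize hbt : M1 * M2 / (h * l2) = bt at *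
  have nσ : 0 ≤ σ := by linarith
  have kX : 6 * D ^ 2 * σ * a0 * h / L ≤ 6 * D ^ 2 * b1 := by
    calc _ = 6 * D ^ 2 * σ * (a0 * h / L) := by ring
      _ ≤ 6 * D ^ 2 * 1 * b1 := by rw [k1]; gcongr; linarith
      _ = _ := by ring
  have kZ : 5 * D ^ 2 * bt ≤ 5 * D ^ 2 * b1 := by gcongr; linarith
  obtain ⟨f', Y', R, o1, o2, o3⟩ := hStep z w r r P p1 p2 f Y n (fun _ => r)
    (fun c p => deriv (e1 c) p.re * e2 c p.im) (fun c p => iteratedDeriv 2 (e1 c) p.re * e2 c p.im)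
    ψ h b Af Ln L Λ ε η g1 (M1 * M2 / l2) (D * bt) (D * bt) _ _ _ τP f1 f2 (M1 * M2 / l1 ^ 2)
    (6 * D ^ 2 * σ * a0) _ hC hF hΛ hf hY hh (by linarith) hce.sep hη hη1 hε hw hr hr hrD hp
    (fun x hx => ⟨rfl, hce.out x hx⟩)
    (fun c => ⟨hr, hrD, fun _ _ => rfl, hψ1 c, hψ2 c, hψ3 c, fun p hp => by
      obtain ⟨i1, i2, i3⟩ := hce.ins c p hp
      rw [(hψ4 c p).1, (hψ4 c p).2, ← sub_smul, ← sub_smul, norm_smul, norm_smul, hF.one, mul_one,
        mul_one, Real.norm_eq_abs, Real.norm_eq_abs]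
      exact ⟨by rwa [abs_sub_comm], by rwa [abs_sub_comm], i1⟩, fun p => by
      have b1 := (hce.c1 c).bd 2 (by norm_num) p.re
      have b2 : |e2 c p.im| ≤ M2 := by simpa using (hce.c2 c).bd 0 (by norm_num) p.im
      rw [abs_mul]
      calc _ ≤ M1 / l1 ^ 2 * M2 := by gcongr
        _ = _ := by ring, hψ5 c⟩)
    (by linarith) k4 le_rfl (by linarith)
  generalize (_ + _ + _) / L = Z0 at k5 k6 k7 k8 o1 o2 o3
  have nPb : 0 ≤ M1 * M2 / l1 ^ 2 := by positivity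
  generalize M1 * M2 / l1 ^ 2 = Pb at k2 nPb o1 o2
  generalize M1 * M2 / l2 = K at k3 o2 o3
  have nZ : 0 ≤ Z := by
    by_contra hc
    have : 2 * D ^ 2 * Z < 0 := mul_neg_of_pos_of_neg (by positivity) (not_le.1 hc)
    linarith
  obtain ⟨r1, r2, r3, r4, r5, r6, r7⟩ := Dst.fin hD hS hh pL hΛ na ha nσ hσ1 (by linarith : ε ≤ σ)
    nη nb1 nZ nPb k2 k3 k6 k8 (by linarith : b + D * bt + g1 +
      6 * D ^ 2 * σ * a0 * h / L + Z0 ≤ 12 * D ^ 2 * b1)
  exact ⟨f', Y', R, o1.mono hh r1 (by linarith),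
    o2.mono r3 r4 r4 (by linarith) (by linarith) (by linarith), fun x => (o3 x).trans r7⟩

end
end Pool.Agent.MP_20bec2_an.Pl

end MrgPart4

-- ======== part 5: formerly Pool.Agent.MP_20bec2_an.Pl.Pat
section MrgPart5

set_option autoImplicit false
open MeasureTheory Set Complex Filter Topology
open Finset (range)

namespace Pool.Agent.MP_20bec2_an.Pl
noncomputable section
namespace Pat

lemma prod_bd {e1 e2 : ℝ → ℝ} {M1 l1 M2 l2 : ℝ} (h1 : C4 e1 M1 l1) (h2 : C4 e2 M2 l2) {i j : ℕ}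
    (hi : i ≤ 4) (hj : j ≤ 4) (u w : ℝ) :
    |iteratedDeriv i e1 u * iteratedDeriv j e2 w| ≤ M1 / l1 ^ i * (M2 / l2 ^ j) := by
  rw [abs_mul]
  exact mul_le_mul (h1.bd i hi u) (h2.bd j hj w) (abs_nonneg _)
    ((abs_nonneg _).trans (h1.bd i hi u))

open Classical in
/-- one localised wave: the three products of the cell data -/
lemma one_wave {E : ℝ → ℝ} {Ct Cc L h A : ℝ} (j : ℕ) (on : Prop) (hh : 0 < h) (hL : h ≤ L)
    (hA : 0 ≤ A) (hc1 : 1 ≤ Cc) (hE : C4 E (Ct * h ^ 2) h) (hc : C4 cut Cc 1)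
    (hE2 : ∀ u, |iteratedDeriv 2 E u - cut (u / L) * Real.cos ((j + 1) * u / h)| ≤ Ct * h / L) :
    C4 (fun u => (if on then A else 0) * E u) (Cc * Ct * A * h ^ 2) h ∧ ∀ u w,
      |A * (if on then cut (u / L) * cut (w / L) * Real.cos ((j + 1) * u / h) else 0) -
        iteratedDeriv 2 (fun u => (if on then A else 0) * E u) u * cut (w / L)| ≤
          Cc * Ct * A * h / L ∧
      |deriv (fun u => (if on then A else 0) * E u) u * deriv (fun w => cut (w / L)) w| ≤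
          Cc * Ct * A * h / L ∧
      |(if on then A else 0) * E u * iteratedDeriv 2 (fun w => cut (w / L)) w| ≤
          Cc * Ct * A * h / L := by
  have hL0 : 0 < L := hh.trans_le hL
  have hCt : 0 ≤ Ct := nonneg_of_mul_nonneg_left hE.n0 (by positivity)
  have h1 : C4 (fun u => (if on then A else 0) * E u) (Ct * A * h ^ 2) h := by
    refine (hE.const_mul _).mono ?_ hh le_rfl
    have : |if on then A else 0| ≤ A := by split_ifs <;> simp [abs_of_nonneg hA, hA]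
    nlinarith [mul_le_mul_of_nonneg_right this hE.n0]
  have h2 := hc.scale hL0
  have h3 : 0 ≤ Ct * A * h / L := by positivity
  refine ⟨h1.mono (by nlinarith [h1.n0]) hh le_rfl, fun u w => ⟨?_, ?_, ?_⟩⟩
  · rw [iteratedDeriv_const_mul _ (hE.cd.contDiffAt.of_le (by norm_num))]
    split_ifs
    · rw [show A * (cut (u / L) * cut (w / L) * Real.cos ((j + 1) * u / h)) -
          A * iteratedDeriv 2 E u * cut (w / L) = -(A * (cut (w / L) *
          (iteratedDeriv 2 E u - cut (u / L) * Real.cos ((j + 1) * u / h)))) by ring,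
        abs_neg, abs_mul, abs_mul, abs_of_nonneg hA]
      calc _ ≤ A * (1 * (Ct * h / L)) := by gcongr; exacts [abs_cut_le _, hE2 u]
        _ = 1 * (Ct * A * h / L) := by ring
        _ ≤ Cc * (Ct * A * h / L) := by gcongr
        _ = _ := by ring
    · simp only [mul_zero, zero_mul, sub_zero, abs_zero]; positivity
  · have := prod_bd h1 h2 (i := 1) (j := 1) (by norm_num) (by norm_num) u w
    rw [iteratedDeriv_one, iteratedDeriv_one] at this
    refine this.trans_eq ?_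
    field_simp
  · have := prod_bd h1 h2 (i := 0) (j := 2) (by norm_num) (by norm_num) u w
    rw [iteratedDeriv_zero] at this
    refine this.trans ?_
    calc _ = Cc * Ct * A * h / L * (h / L) := by field_simp
      _ ≤ Cc * Ct * A * h / L * 1 := by gcongr; exact (div_le_one hL0).2 hL
      _ = _ := mul_one _

/-- the cell data of the third group -/
lemma b_cell {P Q : ℝ → ℝ} {Ct Cc L h s : ℝ} (hh : 0 < h) (hL : h ≤ L) (hc1 : 1 ≤ Cc)
    (hP : C4 P (Ct * h) h) (hQ : C4 Q (Ct * h) h) (hc : C4 cut Cc 1) :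
    C4 (fun u => -(1 / 1296) * s ^ 2 * (cut (u / L) * P u)) (16 * (Cc * Ct) * s ^ 2 * h) h ∧
    C4 (fun w => cut (w / L) * Q w) (16 * (Cc * Ct) * h) h ∧ ∀ u w,
      |s ^ 2 * (-(1 / 1296) * (cut (u / L) * cut (w / L)) * (deriv P u * deriv Q w)) -
        deriv (fun u => -(1 / 1296) * s ^ 2 * (cut (u / L) * P u)) u *
          deriv (fun w => cut (w / L) * Q w) w| ≤ (Cc * Ct) ^ 2 * s ^ 2 * h / L := by
  have hL0 : 0 < L := hh.trans_le hL
  have hCt : 0 ≤ Ct := nonneg_of_mul_nonneg_left hP.n0 hh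
  have h2 := hc.scale hL0
  have h3 := (h2.mono le_rfl hh hL).mul hP hh
  have h4 := (h2.mono le_rfl hh hL).mul hQ hh
  refine ⟨(h3.const_mul _).mono ?_ hh le_rfl, h4.mono (le_of_eq (by ring)) hh le_rfl,
    fun u w => ?_⟩
  · rw [abs_mul, abs_neg, abs_of_nonneg (sq_nonneg s), abs_of_pos (by norm_num)]
    nlinarith [mul_nonneg (sq_nonneg s) h3.n0]
  have d2 := h2.cd.differentiable (by norm_num)
  have dP := hP.cd.differentiable (by norm_num)
  have dQ := hQ.cd.differentiable (by norm_num)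
  have b1 : ∀ u, |deriv (fun w => cut (w / L)) u| ≤ Cc / L := fun u => by
    simpa using h2.bd 1 (by norm_num) u
  have b2 : |P u| ≤ Ct * h := by simpa using hP.bd 0 (by norm_num) u
  have b3 : |Q w| ≤ Ct * h := by simpa using hQ.bd 0 (by norm_num) w
  have b4 : |deriv P u| ≤ Ct := by simpa [hh.ne'] using hP.bd 1 (by norm_num) u
  have b5 : |deriv (fun w => cut (w / L) * Q w) w| ≤ 16 * Cc * Ct := by
    have := h4.bd 1 (by norm_num) w
    rw [iteratedDeriv_one] at this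
    exact this.trans_eq (by field_simp)
  have e1 : deriv (fun w => cut (w / L) * Q w) w =
      deriv (fun w => cut (w / L)) w * Q w + cut (w / L) * deriv Q w := deriv_fun_mul (d2 w) (dQ w)
  rw [deriv_const_mul_field, deriv_fun_mul (d2 u) (dP u)]
  have e2 : s ^ 2 * (-(1 / 1296) * (cut (u / L) * cut (w / L)) * (deriv P u * deriv Q w)) -
      -(1 / 1296) * s ^ 2 * (deriv (fun w => cut (w / L)) u * P u + cut (u / L) * deriv P u) *
        deriv (fun w => cut (w / L) * Q w) w =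
      1 / 1296 * s ^ 2 * (deriv (fun w => cut (w / L)) u * P u *
        deriv (fun w => cut (w / L) * Q w) w +
        cut (u / L) * deriv P u * (deriv (fun w => cut (w / L)) w * Q w)) := by
    rw [e1]; ring
  rw [e2, abs_mul, abs_of_nonneg (by positivity)]
  have b6 : |deriv (fun w => cut (w / L)) u * P u * deriv (fun w => cut (w / L) * Q w) w| ≤
      Cc / L * (Ct * h) * (16 * Cc * Ct) := by
    rw [abs_mul, abs_mul]; gcongr; exact b1 u
  have b7 : |cut (u / L) * deriv P u * (deriv (fun w => cut (w / L)) w * Q w)| ≤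
      Cc * Ct * (Cc / L * (Ct * h)) := by
    rw [abs_mul, abs_mul, abs_mul]; gcongr
    exacts [(abs_cut_le _).trans hc1, b1 w]
  calc _ ≤ 1 / 1296 * s ^ 2 * (Cc / L * (Ct * h) * (16 * Cc * Ct) +
        Cc * Ct * (Cc / L * (Ct * h))) := by
        gcongr; exact (abs_add_le _ _).trans (add_le_add b6 b7)
    _ = 17 / 1296 * ((Cc * Ct) ^ 2 * s ^ 2 * h / L) := by ring
    _ ≤ _ := mul_le_of_le_one_left (by positivity) (by norm_num)

lemma abs_sum_le {f : ℕ → ℝ} (h : ∀ j < 36, |f j| ≤ 1) : |∑ j ∈ range 36, f j| ≤ 36 := by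
  refine (Finset.abs_sum_le_sum_abs _ _).trans ?_
  simpa using Finset.sum_le_card_nsmul (range 36) _ 1 fun j hj => h j (Finset.mem_range.1 hj)

lemma sq_close {X S δ : ℝ} (hX : |X| ≤ 36) (hS : |S| ≤ 36) (h : |X - S| ≤ δ) :
    S ^ 2 ≤ X ^ 2 + 72 * δ := by
  have h1 : |(X - S) * (X + S)| ≤ δ * 72 := by
    rw [abs_mul]
    exact mul_le_mul h ((abs_add_le _ _).trans (by linarith)) (abs_nonneg _)
      ((abs_nonneg _).trans h)
  nlinarith [(abs_le.1 h1).1]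

/-- the algebra of the gain in one cell -/
lemma gain {X Y S T x y α δ : ℝ} (h1 : S ^ 2 ≤ X ^ 2 + 72 * δ) (h2 : T ^ 2 ≤ Y ^ 2 + 72 * δ)
    (hx0 : 0 ≤ x) (hx : x ≤ 36) (hy0 : 0 ≤ y) (hy : y ≤ 36) (ha0 : 0 ≤ α) (ha : α ≤ 1) :
    -(1 / 1296) * α * ((S ^ 2 - x / 2) * (T ^ 2 - y / 2)) ≤
      (X ^ 2 + Y ^ 2) / 72 + 2 * δ - α * x * y / 5184 := by
  have h3 : α * (x * T ^ 2) ≤ 1 * (36 * T ^ 2) := by gcongr
  have h4 : α * (y * S ^ 2) ≤ 1 * (36 * S ^ 2) := by gcongr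
  have h5 : 0 ≤ α * (S ^ 2 * T ^ 2) := by positivity
  nlinarith

end Pat

open Pat in
theorem pat_of (h1 : WaveStmt) (h2 : TrigStmt) : PatStmt := by
  classical
  obtain ⟨Cw, hw1, hW⟩ := h1
  obtain ⟨Ct, ht1, hT⟩ := h2
  obtain ⟨Cc, hc1, hc⟩ := exists_cut
  have hT1 : 1 ≤ Cc * Ct := one_le_mul_of_one_le_of_one_le hc1 ht1
  have hT2 : Cc * Ct ≤ (Cc * Ct) ^ 2 := by nlinarith
  have hT3 : Cc ≤ Cc * Ct := le_mul_of_one_le_right (by linarith) ht1
  have hT4 : Ct ≤ Cc * Ct := le_mul_of_one_le_left (by linarith) hc1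
  obtain ⟨C, hC1, hC2⟩ : ∃ C, 256 * (Cc * Ct) ^ 2 ≤ C ∧ 108 * Cw ≤ C :=
    ⟨_, le_max_left _ _, le_max_right _ _⟩
  have hC3 : Cc * Ct ≤ C := by linarith
  have hC4 : Cw ≤ C := by linarith
  refine ⟨C, by linarith, fun n act Ln h LA LC LB A s η hn hh hB hBC hCA hA hs hη => ?_⟩
  have hB0 : 0 < LB := hh.trans_le hB
  have hC0 : 0 < LC := hB0.trans_le hBC
  have hA0 : 0 < LA := hC0.trans_le hCA
  have hη0 : 0 ≤ η := le_trans (by have := hn.n0; positivity) hη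
  have hηC : 2 * LC * Ln ≤ η := le_trans (by have := hn.n0; gcongr) hη
  obtain ⟨hWA, hRA⟩ := hW n act Ln LA h 1 hn hh (by linarith) norm_one
  obtain ⟨hWC, hRC⟩ := hW n act Ln LC h I hn hh (by linarith) norm_I
  choose aA φA haA hrA hpA hzA using fun x0 => hRA x0 (3 / 2 * LB) η (by positivity) hη
  choose aC φC haC hrC hpC hzC using fun x0 => hRC x0 (3 / 2 * LB) η (by positivity) hηC
  choose P hP hP' using fun x0 => (hT h hh).1 (aA x0) (φA x0) (haA x0)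
  choose Q hQ hQ' using fun x0 => (hT h hh).1 (aC x0) (φC x0) (haC x0)
  choose! EA hEA using fun j => (hT h hh).2 LA j (by linarith)
  choose! EC hEC using fun j => (hT h hh).2 LC j (by linarith)
  have ip1 : ∀ p : ℂ, ip p 1 = p.re := fun p => by simp [ip]
  have ipI : ∀ p : ℂ, ip p I = p.im := fun p => by simp [ip]
  set gB : ℂ → ℂ → ℝ := fun z p => -(1 / 1296) * (cut (p.re / LB) * cut (p.im / LB)) *
    (deriv (P z) p.re * deriv (Q z) p.im) with hgB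
  set pB : ℕ → ℂ → ℝ := fun j => glue (cen (LB / 2) j) LB fun c x =>
    gB (cen (LB / 2) j c) (chi' (cen (LB / 2) j c) (n (cen (LB / 2) j c)) x) with hpB
  have pB_in : ∀ j c x, ‖x - cen (LB / 2) j c‖ < 3 / 2 * LB → pB j x =
      gB (cen (LB / 2) j c) (chi' (cen (LB / 2) j c) (n (cen (LB / 2) j c)) x) :=
    fun j c x hx => glue_eq (cen_sep' hB0 j) hx
  have pB_out : ∀ j x, (∀ c, 29 / 20 * LB ≤ ‖x - cen (LB / 2) j c‖) → pB j x = 0 := by
    intro j x hx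
    refine glue_zero (fun c x hx => ?_) hx
    rw [← norm_chi' _ (hn.one (cen (LB / 2) j c))] at hx
    rcases out_of_norm hB0.le hx with h3 | h3 <;> simp only [hgB, cut_div_zero hB0 h3] <;> ring
  refine ⟨fun j c u => (if act (cen (LA / 2) j c) then A else 0) * EA j u,
    fun _ _ w => cut (w / LA), fun _ _ u => cut (u / LC),
    fun j c w => (if act (cen (LC / 2) j c) then s else 0) * EC j w,
    fun j c u => -(1 / 1296) * s ^ 2 * (cut (u / LB) * P (cen (LB / 2) j c) u),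
    fun j c w => cut (w / LB) * Q (cen (LB / 2) j c) w,
    wave n act LA h 1, wave n act LC h I, pB, fun j hj => ⟨?_, ?_, ?_, ?_, ?_, ?_⟩, fun x => ?_⟩
  · have key := fun c => one_wave j (act (cen (LA / 2) j c)) hh (by linarith : h ≤ LA) hA hc1
      (hEA j hj).1 hc (hEA j hj).2.2
    have hb : Cc * Ct * A * h / LA ≤ C * A * h / LA := by gcongr
    have h0 : 0 ≤ C * A * h / LA := by have : 0 ≤ C := by linarith
                                       positivity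
    refine ⟨cen_sep' hA0 j, fun c => (key c).1.mono (by gcongr) hh le_rfl,
      fun _ => (hc.scale hA0).mono (by linarith) hA0 le_rfl,
      fun c u hu => by simp only [(hEA j hj).2.1 u hu, mul_zero], fun _ u hu => cut_div_zero hA0 hu,
      fun c p hp => ⟨?_, ?_, ?_⟩, fun x hx => ⟨?_, by simpa using h0, by simpa using h0⟩⟩
    · rw [(hWA j hj).2.2.2.1 c p hp, wv, ip1]
      exact ((key c).2 _ _).1.trans hb
    · rw [Pi.zero_apply, zero_sub, abs_neg]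
      exact ((key c).2 _ _).2.1.trans hb
    · rw [Pi.zero_apply, zero_sub, abs_neg]
      exact ((key c).2 _ _).2.2.trans hb
    · rw [(hWA j hj).2.2.2.2 x fun c hc => absurd (hx c) (not_le.2 hc), mul_zero, abs_zero]
      exact h0
  · have key := fun c => one_wave j (act (cen (LC / 2) j c)) hh (by linarith : h ≤ LC) hs hc1
      (hEC j hj).1 hc (hEC j hj).2.2
    have hb : Cc * Ct * s * h / LC ≤ C * s * h / LC := by gcongr
    have h0 : 0 ≤ C * s * h / LC := by have : 0 ≤ C := by linarith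
                                       positivity
    refine ⟨cen_sep' hC0 j, fun _ => (hc.scale hC0).mono (by linarith) hC0 le_rfl,
      fun c => (key c).1.mono (by gcongr) hh le_rfl, fun _ u hu => cut_div_zero hC0 hu,
      fun c u hu => by simp only [(hEC j hj).2.1 u hu, mul_zero],
      fun c p hp => ⟨?_, ?_, ?_⟩, fun x hx => ⟨by simpa using h0, by simpa using h0, ?_⟩⟩
    · rw [Pi.zero_apply, zero_sub, abs_neg, mul_comm]
      exact ((key c).2 _ _).2.2.trans hb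
    · rw [Pi.zero_apply, zero_sub, abs_neg, mul_comm]
      exact ((key c).2 _ _).2.1.trans hb
    · rw [(hWC j hj).2.2.2.1 c p hp, wv, ipI, mul_comm (cut (p.re / LC)) (cut (p.im / LC)),
        mul_comm (cut (p.re / LC))]
      exact ((key c).2 _ _).1.trans hb
    · rw [(hWC j hj).2.2.2.2 x fun c hc => absurd (hx c) (not_le.2 hc), mul_zero, abs_zero]
      exact h0
  · have key := fun c => b_cell (s := s) hh hB hc1 (hP (cen (LB / 2) j c))
      (hQ (cen (LB / 2) j c)) hc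
    have hCn : 0 ≤ C := by linarith
    have hb : 256 * (Cc * Ct) ^ 2 * s ^ 2 ≤ C * s ^ 2 := by gcongr
    refine ⟨cen_sep' hB0 j, fun c => (key c).1.mono (by gcongr; linarith) hh le_rfl,
      fun c => (key c).2.1.mono (by gcongr; linarith) hh le_rfl,
      fun _ u hu => by simp [cut_div_zero hB0 hu],
      fun _ u hu => by simp [cut_div_zero hB0 hu],
      fun c p hp => ⟨?_, ?_, ?_⟩, fun x hx => ⟨by simp; positivity, ?_, by simp; positivity⟩⟩
    · have := prod_bd (key c).1 (key c).2.1 (i := 2) (j := 0) (by norm_num) (by norm_num) p.re p.im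
      rw [iteratedDeriv_zero] at this
      rw [Pi.zero_apply, zero_sub, abs_neg]
      exact this.trans (le_trans (le_of_eq (by field_simp; ring)) hb)
    · rw [pB_in j c _ (by rwa [norm_ch_sub _ (hn.one _)]), chi'_ch _ (hn.one _)]
      exact ((key c).2.2 _ _).trans (by gcongr; linarith [sq_nonneg (Cc * Ct)])
    · have := prod_bd (key c).1 (key c).2.1 (i := 0) (j := 2) (by norm_num) (by norm_num) p.re p.im
      rw [iteratedDeriv_zero] at this
      rw [Pi.zero_apply, zero_sub, abs_neg]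
      exact this.trans (le_trans (le_of_eq (by field_simp; ring)) hb)
    · rw [pB_out j x hx, mul_zero, abs_zero]; positivity
  · refine fun x => ⟨(hWA j hj).1 x, (hWC j hj).1 x,
      (Real.norm_eq_abs _).symm.trans_le (glue_sup (B := C) (fun c x => ?_) x)⟩
    have b1 : ∀ z u, |deriv (P z) u| ≤ Ct := fun z u => by
      simpa [hh.ne'] using (hP z).bd 1 (by norm_num) u
    have b2 : ∀ z u, |deriv (Q z) u| ≤ Ct := fun z u => by
      simpa [hh.ne'] using (hQ z).bd 1 (by norm_num) u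
    simp only [hgB, Real.norm_eq_abs, abs_mul, abs_neg]
    calc _ ≤ 1 * (1 * 1) * (Ct * Ct) := by
          gcongr
          exacts [by rw [abs_of_pos] <;> norm_num, abs_cut_le _, abs_cut_le _, b1 _ _, b2 _ _]
      _ ≤ _ := by nlinarith
  · exact fun x x' => ((hWA j hj).2.1 x x').trans (by gcongr)
  · intro d d' z v hv hv'
    have : 0 ≤ d := (norm_nonneg _).trans hv
    have : 0 ≤ d' := (abs_nonneg _).trans hv'
    exact ((hWA j hj).2.2.1 d d' η z v hη hv (by rwa [mul_one])).trans (by gcongr)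
  set X := ∑ j ∈ range 36, wave n act LA h 1 j x with hX
  set Y := ∑ j ∈ range 36, wave n act LC h I j x with hY
  set δ := Cw * (3 / 2 * LB / LC + η * (3 / 2 * LB) / h) with hδ
  have hδ0 : 0 ≤ δ := by positivity
  have hsq : ∀ a : ℕ → ℝ, (∀ j, |a j| ≤ 1) → 0 ≤ ∑ j ∈ range 36, a j ^ 2 ∧
      ∑ j ∈ range 36, a j ^ 2 ≤ 36 := fun a ha => abs_le.1 (abs_sum_le fun j _ => by
        rw [abs_pow]; exact pow_le_one₀ (abs_nonneg _) (ha j)) |>.imp_left
          fun _ => Finset.sum_nonneg fun _ _ => sq_nonneg _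
  have hcos : ∀ (a t : ℕ → ℝ), (∀ j, |a j| ≤ 1) → |∑ j ∈ range 36, a j * Real.cos (t j)| ≤ 36 :=
    fun a t ha => abs_sum_le fun j _ => by
      rw [abs_mul]; exact mul_le_one₀ (ha j) (abs_nonneg _) (Real.abs_cos_le_one _)
  have main : ∀ z : ℂ, ‖x - z‖ < 3 / 2 * LB → gB z (chi' z (n z) x) ≤ (X ^ 2 + Y ^ 2) / 72 + 2 * δ -
      cut ((chi' z (n z) x).re / LB) * cut ((chi' z (n z) x).im / LB) *
        (∑ j ∈ range 36, aA z j ^ 2) * (∑ j ∈ range 36, aC z j ^ 2) / 5184 := by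
    intro z hz
    rw [← norm_chi' _ (hn.one z)] at hz
    have r1 := hrA z _ hz.le
    have r2 := hrC z _ hz.le
    rw [ch_chi' _ (hn.one z), ip1] at r1
    rw [ch_chi' _ (hn.one z), ipI] at r2
    simp only [hgB, hP', hQ']
    exact gain (sq_close (abs_sum_le fun j hj => (hWA j hj).1 x) (hcos _ _ (haA z))
      (r1.trans (by rw [hδ]; gcongr))) (sq_close (abs_sum_le fun j hj => (hWC j hj).1 x)
      (hcos _ _ (haC z)) r2) (hsq _ (haA z)).1 (hsq _ (haA z)).2 (hsq _ (haC z)).1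
      (hsq _ (haC z)).2 (mul_nonneg (cut_nonneg _) (cut_nonneg _))
      (mul_le_one₀ (cut_le_one _) (cut_nonneg _) (cut_le_one _))
  have all : ∀ j, pB j x ≤ (X ^ 2 + Y ^ 2) / 72 + 2 * δ := by
    intro j
    rcases glue_cases (cen (LB / 2) j) LB x with ⟨c, hc⟩ | hc
    · rw [pB_in j c x hc]
      refine (main _ hc).trans (sub_le_self _ (div_nonneg (mul_nonneg (mul_nonneg
        (mul_nonneg (cut_nonneg _) (cut_nonneg _)) (hsq _ (haA _)).1) (hsq _ (haC _)).1)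
        (by norm_num)))
    · rw [pB_out j x fun c => le_trans (by linarith) (hc c)]; positivity
  have herr : 72 * δ ≤ C * (LB / LC + η * LB / h) :=
    calc _ = 108 * Cw * (LB / LC + η * LB / h) := by rw [hδ]; ring
      _ ≤ _ := by gcongr
  have tri : ∀ z y : ℂ, ‖x - z‖ < 3 / 2 * LB → ‖y - z‖ ≤ 2 * LA → ‖y - x‖ ≤ 4 * LA := by
    intro z y h3 h4
    have := norm_sub_le_norm_sub_add_norm_sub y z x
    rw [norm_sub_rev z x] at this
    linarith
  refine ⟨?_, fun hact => ?_, fun hact j hj => ⟨?_, ?_, ?_⟩⟩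
  · have := Finset.sum_le_card_nsmul (range 36) _ _ fun j _ => all j
    rw [Finset.card_range, nsmul_eq_mul] at this
    push_cast at this
    linarith
  · obtain ⟨j0, hj0, c, hc0⟩ := cen_cover (half_pos hB0) x
    have hc' : ‖x - cen (LB / 2) j0 c‖ < 3 / 2 * LB := by linarith
    have h3 := main _ hc'
    rw [← pB_in j0 c x hc'] at h3
    rw [← norm_chi' _ (hn.one (cen (LB / 2) j0 c))] at hc0
    have hcut : ∀ t : ℝ, |t| ≤ 3 / 4 * (LB / 2) → cut (t / LB) = 1 := fun t ht =>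
      cut_one (by rw [abs_div, abs_of_pos hB0, div_le_iff₀ hB0]; linarith)
    rw [hcut _ ((abs_re_le_norm _).trans hc0), hcut _ ((abs_im_le_norm _).trans hc0)] at h3
    have h4 := one_le_mul_of_one_le_of_one_le (hpA _ fun y hy => hact y (tri _ y hc' hy))
      (hpC _ fun y hy => hact y (tri _ y hc' (hy.trans (by linarith))))
    have h5 := Finset.sum_le_card_nsmul ((range 36).erase j0) _ _ fun j _ => all j
    rw [Finset.card_erase_of_mem (Finset.mem_range.2 hj0), Finset.card_range, nsmul_eq_mul] at h5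
    rw [← Finset.add_sum_erase _ _ (Finset.mem_range.2 hj0)]
    push_cast at h5
    linarith
  · exact (hWA j hj).2.2.2.2 x fun c hc => hact _ (by rw [norm_sub_rev]; linarith)
  · exact (hWC j hj).2.2.2.2 x fun c hc => hact _ (by rw [norm_sub_rev]; linarith)
  · rcases glue_cases (cen (LB / 2) j) LB x with ⟨c, hc⟩ | hc
    · rw [pB_in j c x hc]
      simp [hgB, hP', hzA _ fun y hy => hact y (tri _ y hc hy)]
    · exact pB_out j x fun c => le_trans (by linarith) (hc c)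

end
end Pool.Agent.MP_20bec2_an.Pl

end MrgPart5

-- ======== part 6: formerly Pool.Agent.MP_20bec2_an.Pl.Final
section MrgPart6

set_option autoImplicit false
open MeasureTheory Set Complex Filter Topology

namespace Pool.Agent.MP_20bec2_an.Pl
noncomputable section

namespace Final

/-- the triangular map of a density -/
def kn (w : ℂ → ℝ) (p : ℂ) : ℂ := (p.re : ℂ) + (col w 0 p.re p.im : ℝ) • I

lemma kn_re (w : ℂ → ℝ) (p : ℂ) : (kn w p).re = p.re := by simp [kn]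

lemma kn_im (w : ℂ → ℝ) (p : ℂ) : (kn w p).im = col w 0 p.re p.im := by simp [kn]

lemma kn_deriv {w : ℂ → ℝ} (hd : Differentiable ℝ fun p : ℂ => col w 0 p.re p.im) (p : ℂ) :
    HasFDerivAt (kn w) (ofRealCLM.comp reCLM +
      (fderiv ℝ (fun p : ℂ => col w 0 p.re p.im) p).smulRight I) p :=
  (ofRealCLM.comp reCLM).hasFDerivAt.add ((hd p).hasFDerivAt.smul_const I)

/-- the column primitive expands vertical distances -/
lemma col_lower {w : ℂ → ℝ} (hw : Continuous w) {m u s t : ℝ} (hst : s ≤ t)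
    (hm : ∀ v ∈ Icc s t, m ≤ w ⟨u, v⟩) : m * (t - s) ≤ col w 0 u t - col w 0 u s := by
  have hc : Continuous fun v : ℝ => w ⟨u, v⟩ := hw.comp (L2.lineIm u).continuous
  unfold col
  rw [intervalIntegral.integral_interval_sub_left (hc.intervalIntegrable _ _)
    (hc.intervalIntegrable _ _)]
  have := intervalIntegral.integral_mono_on (μ := volume) hst (f := fun _ => m)
    (continuous_const.intervalIntegrable _ _) (hc.intervalIntegrable _ _) hm
  rw [intervalIntegral.integral_const, smul_eq_mul] at this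
  linarith

lemma col_lower' {w : ℂ → ℝ} (hw : Continuous w) {m R u s t : ℝ} (hs : |s| ≤ R) (ht : |t| ≤ R)
    (hm : ∀ v, |v| ≤ R → m ≤ w ⟨u, v⟩) : m * |t - s| ≤ |col w 0 u t - col w 0 u s| := by
  rw [abs_le] at hs ht
  rcases le_total s t with h | h
  · rw [abs_of_nonneg (sub_nonneg.2 h)]
    exact (col_lower hw h fun v hv => hm v (abs_le.2 ⟨by linarith [hv.1], by linarith [hv.2]⟩)).trans
      (le_abs_self _)
  · rw [abs_sub_comm t s, abs_sub_comm (col w 0 u t), abs_of_nonneg (sub_nonneg.2 h)]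
    exact (col_lower hw h fun v hv => hm v (abs_le.2 ⟨by linarith [hv.1], by linarith [hv.2]⟩)).trans
      (le_abs_self _)

lemma norm_mk_le {u v R : ℝ} (hu : |u| ≤ R) (hv : |v| ≤ R) : ‖(⟨u, v⟩ : ℂ)‖ ≤ 2 * R := by
  have := Complex.norm_le_abs_re_add_abs_im (⟨u, v⟩ : ℂ)
  simp only at this
  linarith

lemma kn_bilip {w : ℂ → ℝ} (hw : Continuous w) (hpos : ∀ y, 0 < w y)
    (hc : ContDiff ℝ 1 fun p : ℂ => col w 0 p.re p.im) (R : ℝ) :
    ∃ K : ℝ, 0 < K ∧ ∀ x y, ‖x‖ ≤ R → ‖y‖ ≤ R →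
      ‖kn w x - kn w y‖ ≤ K * ‖x - y‖ ∧ ‖x - y‖ ≤ K * ‖kn w x - kn w y‖ := by
  set c : ℂ → ℝ := fun p => col w 0 p.re p.im with hcd
  have hK : IsCompact (Metric.closedBall (0 : ℂ) (2 * |R|)) := isCompact_closedBall _ _
  obtain ⟨K1, hK1⟩ := hK.exists_bound_of_continuousOn
    (hc.continuous_fderiv one_ne_zero).continuousOn
  obtain ⟨z0, -, hz0⟩ := hK.exists_isMinOn ⟨0, Metric.mem_closedBall_self (by positivity)⟩
    hw.continuousOn
  have hm := hpos z0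
  have hK0 : 0 ≤ K1 := (norm_nonneg _).trans (hK1 0 (Metric.mem_closedBall_self (by positivity)))
  have hlip : ∀ x y : ℂ, ‖x‖ ≤ 2 * |R| → ‖y‖ ≤ 2 * |R| → |c x - c y| ≤ K1 * ‖x - y‖ := by
    intro x y hx hy
    exact (convex_closedBall (0 : ℂ) (2 * |R|)).norm_image_sub_le_of_norm_fderiv_le
      (fun p _ => hc.differentiable one_ne_zero p) hK1 (mem_closedBall_zero_iff.2 hy)
      (mem_closedBall_zero_iff.2 hx)
  have hq : 0 ≤ (1 + K1) / w z0 := by positivity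
  refine ⟨1 + K1 + (1 + K1) / w z0, by positivity, fun x y hx hy => ?_⟩
  have hR := le_abs_self R
  have hR0 := abs_nonneg R
  have hx' : ‖x‖ ≤ 2 * |R| := by linarith
  have hy' : ‖y‖ ≤ 2 * |R| := by linarith
  have e1 : (kn w x - kn w y).re = (x - y).re := by simp [kn_re]
  have e2 : (kn w x - kn w y).im = c x - c y := by simp [kn_im, hcd]
  have n1 := norm_nonneg (x - y)
  have n2 := norm_nonneg (kn w x - kn w y)
  constructor
  · have h1 := Complex.norm_le_abs_re_add_abs_im (kn w x - kn w y)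
    have h2 := Complex.abs_re_le_norm (x - y)
    have h3 := hlip x y hx' hy'
    rw [e1, e2] at h1
    nlinarith [mul_nonneg hq n1]
  · have hxr : |x.re| ≤ |R| := (Complex.abs_re_le_norm x).trans (hx.trans hR)
    have hxi : |x.im| ≤ |R| := (Complex.abs_im_le_norm x).trans (hx.trans hR)
    have hyi : |y.im| ≤ |R| := (Complex.abs_im_le_norm y).trans (hy.trans hR)
    have h1 : w z0 * |x.im - y.im| ≤ |c x - c ⟨x.re, y.im⟩| :=
      col_lower' hw hyi hxi fun v hv => hz0 (mem_closedBall_zero_iff.2 (norm_mk_le hxr hv))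
    have h2 : |c ⟨x.re, y.im⟩ - c y| ≤ K1 * |x.re - y.re| := by
      have := hlip ⟨x.re, y.im⟩ y (norm_mk_le hxr hyi) hy'
      rwa [show ‖(⟨x.re, y.im⟩ : ℂ) - y‖ = |x.re - y.re| from norm_mk_sub x.re y.re y.im] at this
    have h3 : |x.re - y.re| ≤ ‖kn w x - kn w y‖ := by
      have := Complex.abs_re_le_norm (kn w x - kn w y)
      rwa [e1, Complex.sub_re] at this
    have h4 : |c x - c y| ≤ ‖kn w x - kn w y‖ := by
      have := Complex.abs_im_le_norm (kn w x - kn w y)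
      rwa [e2] at this
    have h5 : |c x - c ⟨x.re, y.im⟩| ≤ |c x - c y| + |c ⟨x.re, y.im⟩ - c y| := by
      rw [show c x - c ⟨x.re, y.im⟩ = (c x - c y) - (c ⟨x.re, y.im⟩ - c y) by ring]
      exact abs_sub _ _
    have h6 : |x.im - y.im| ≤ (1 + K1) / w z0 * ‖kn w x - kn w y‖ := by
      rw [div_mul_eq_mul_div, le_div_iff₀ hm]
      nlinarith [mul_le_mul_of_nonneg_left h3 hK0]
    have h7 := Complex.norm_le_abs_re_add_abs_im (x - y)
    rw [Complex.sub_re, Complex.sub_im] at h7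
    nlinarith [mul_nonneg hK0 n2]

/-- the modulus changes by a bounded factor under a bounded change of the argument -/
lemma om_cmp {β K r s : ℝ} (hβ : 0 ≤ β) (hK : 1 ≤ K) (hr : 0 ≤ r) (h1 : r ≤ K * s) (h2 : s ≤ K * r)
    (h3 : K * r ≤ 1) :
    s * Real.log (1 / s) ^ β ≤ K * 2 ^ β * (r * Real.log (1 / r) ^ β) := by
  rcases hr.eq_or_lt with rfl | hr'
  · have h4 : s = 0 := by nlinarith
    rw [h4]; simp
  have hs : 0 < s := by
    by_contra hc
    nlinarith [not_lt.1 hc]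
  have hr1 : r ≤ 1 := by nlinarith
  have l1 : 0 ≤ Real.log (1 / s) := Real.log_nonneg (by rw [le_div_iff₀ hs]; linarith)
  have l2 : 0 ≤ Real.log (1 / r) := Real.log_nonneg (by rw [le_div_iff₀ hr']; linarith)
  have l3 : Real.log (1 / s) ≤ 2 * Real.log (1 / r) := by
    have e : (1 / r) ^ 2 = 1 / r ^ 2 := by rw [div_pow, one_pow]
    have h5 : 1 / s ≤ (1 / r) ^ 2 := by
      rw [e]
      refine one_div_le_one_div_of_le (by positivity) ?_
      nlinarith [mul_le_mul_of_nonneg_left h1 hr, mul_le_mul_of_nonneg_right h3 hs.le]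
    have := Real.log_le_log (by positivity) h5
    rwa [Real.log_pow, Nat.cast_ofNat] at this
  have l4 : Real.log (1 / s) ^ β ≤ 2 ^ β * Real.log (1 / r) ^ β := by
    rw [← Real.mul_rpow (by norm_num) l2]
    exact Real.rpow_le_rpow l1 l3 hβ
  calc s * Real.log (1 / s) ^ β ≤ (K * r) * (2 ^ β * Real.log (1 / r) ^ β) :=
        mul_le_mul h2 l4 (Real.rpow_nonneg l1 β) (by positivity)
    _ = K * 2 ^ β * (r * Real.log (1 / r) ^ β) := by ring

lemma Om.inj {β : ℝ} {F : ℂ → ℂ} (h : Om β F) : Function.Injective F := by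
  obtain ⟨C, t0, -, ht, -, h⟩ := h
  intro x y e
  have := (h x y).2 (by rw [e, sub_self, norm_zero]; exact ht.le)
  rw [e, sub_self, norm_zero, zero_mul, mul_zero] at this
  exact sub_eq_zero.1 (norm_le_zero_iff.1 this)

/-- a smooth positive density close to a continuous one on a compact set -/
lemma exists_smooth {Q : Set ℂ} (hQ : IsCompact Q) {ρ : ℂ → ℝ} (hρ : ContinuousOn ρ Q)
    (hpos : ∀ x ∈ Q, 0 < ρ x) {ε : ℝ} (hε : 0 < ε) :
    ∃ ρ0 : ℂ → ℝ, ContDiff ℝ 1 ρ0 ∧ (∀ x, 0 < ρ0 x) ∧ ∀ x ∈ Q, |ρ x / ρ0 x - 1| ≤ ε := by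
  have hl : ContinuousOn (fun x => Real.log (ρ x)) Q := hρ.log fun x hx => (hpos x hx).ne'
  obtain ⟨L, hL⟩ := ContinuousMap.exists_restrict_eq hQ.isClosed
    (⟨Q.domRestrict fun x => Real.log (ρ x), hl.domRestrict⟩ : C(Q, ℝ))
  have hδ : 0 < min 1 (ε / 2) := lt_min one_pos (half_pos hε)
  obtain ⟨L0, h0, h1, -⟩ := L.continuous.exists_contDiff_approx 1 (ε := fun _ => min 1 (ε / 2))
    continuous_const fun _ => hδ
  refine ⟨fun x => Real.exp (L0 x), by exact_mod_cast h0.exp, fun x => Real.exp_pos _,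
    fun x hx => ?_⟩
  have e : L x = Real.log (ρ x) := DFunLike.congr_fun hL ⟨x, hx⟩
  have h2 := h1 x
  rw [e, Real.dist_eq, abs_sub_comm] at h2
  have h3 := Real.abs_exp_sub_one_le (h2.le.trans (min_le_left _ _))
  rw [Real.exp_sub, Real.exp_log (hpos x hx)] at h3
  linarith [min_le_right 1 (ε / 2)]

/-- extension of a density close to one from the image of a compact set -/
lemma exists_ext {Q : Set ℂ} (hQ : IsCompact Q) {u : ℂ → ℝ} (hu : ContinuousOn u Q) {ε : ℝ}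
    (hε : 0 < ε) (hb : ∀ x ∈ Q, |u x - 1| ≤ ε) {κ : ℂ → ℂ} (hκ : Continuous κ)
    (hi : Function.Injective κ) :
    ∃ g : ℂ → ℝ, UniformContinuous g ∧ Nr ε g ∧ ∀ x ∈ Q, g (κ x) = u x := by
  have : CompactSpace Q := isCompact_iff_compactSpace.1 hQ
  have he : IsClosedEmbedding fun x : Q => κ x :=
    (hκ.comp continuous_subtype_val).isClosedEmbedding (hi.comp Subtype.val_injective)
  obtain ⟨v, hv, hv'⟩ := ContinuousMap.exists_extension_forall_mem_of_isClosedEmbedding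
    (⟨Q.domRestrict fun x => u x - 1, (hu.sub continuousOn_const).domRestrict⟩ : C(Q, ℝ))
    (t := Icc (-ε) ε) (fun x => abs_le.1 (hb x x.2)) ⟨0, by linarith, hε.le⟩ he
  obtain ⟨χ, h1, -, h2, h3⟩ := exists_continuous_one_zero_of_isCompact (hQ.image hκ)
    isClosed_empty (disjoint_empty _)
  refine ⟨fun y => χ y * v y + 1, ?_, fun y => ?_, fun x hx => ?_⟩
  · exact (HasCompactSupport.uniformContinuous_of_continuous (h2.mul_right (f' := v))
      (χ.continuous.mul v.continuous)).add uniformContinuous_const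
  · rw [add_sub_cancel_right, abs_mul, abs_of_nonneg (h3 y).1]
    have := abs_le.2 (hv y)
    nlinarith [(h3 y).1, (h3 y).2, abs_nonneg (v y)]
  · have e1 : χ (κ x) = 1 := h1 (mem_image_of_mem κ hx)
    have e2 : v (κ x) = u x - 1 := congrFun hv' ⟨x, hx⟩
    simp only [e1, e2]
    ring

/-- the theorem for a compact subset of the complex plane -/
lemma main_C (h1 : CoreStmt) (h2 : KnotheStmt) {β : ℝ} (hβ : 3 / 4 < β) {Q : Set ℂ}
    (hQ : IsCompact Q) {ρ : ℂ → ℝ} (hρ : ContinuousOn ρ Q) (hpos : ∀ x ∈ Q, 0 < ρ x) :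
    ∃ f : ℂ → ℂ, Function.Injective f ∧
      (∃ C t₀ : ℝ, 0 < C ∧ 0 < t₀ ∧ t₀ < 1 ∧ ∀ x ∈ Q, ∀ y ∈ Q,
        (‖x - y‖ ≤ t₀ → ‖f x - f y‖ ≤ C * (‖x - y‖ * Real.log (1 / ‖x - y‖) ^ β)) ∧
        (‖f x - f y‖ ≤ t₀ → ‖x - y‖ ≤ C * (‖f x - f y‖ * Real.log (1 / ‖f x - f y‖) ^ β))) ∧
      ∀ B, MeasurableSet B → ∫⁻ x in Q ∩ f ⁻¹' B, ENNReal.ofReal (ρ x) = volume (B ∩ f '' Q) := by
  obtain ⟨ε, hε, hcore⟩ := h1
  obtain ⟨ρ0, s0, p0, n0⟩ := exists_smooth hQ hρ hpos hε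
  obtain ⟨κ0, i0, c0, b0, m0⟩ := h2 ρ0 s0 p0
  obtain ⟨g, ug, ng, eg⟩ := exists_ext hQ (u := fun x => ρ x / ρ0 x)
    (hρ.div s0.continuous.continuousOn fun x _ => (p0 x).ne') hε n0 c0 i0
  obtain ⟨F, w, sw, pw, cF, oF, mF⟩ := hcore β hβ g ug ng
  obtain ⟨κ, i1, c1, b1, m1⟩ := h2 w sw pw
  have iF := Om.inj oF
  refine ⟨κ ∘ F ∘ κ0, i1.comp (iF.comp i0), ?_, fun B hB => ?_⟩
  · obtain ⟨C, t0, hC, ht0, ht1, hF⟩ := oF
    obtain ⟨R0, hR0⟩ := hQ.exists_bound_of_continuousOn (f := fun x => x) continuousOn_id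
    obtain ⟨R1, hR1⟩ := hQ.exists_bound_of_continuousOn (cF.comp c0).continuousOn
    obtain ⟨K0, hK0, b0⟩ := b0 R0
    obtain ⟨K1, hK1, b1⟩ := b1 R1
    have hK : 1 ≤ K0 + K1 + 1 := by linarith
    have hK' : 0 < K0 + K1 + 1 := by linarith
    have hβ0 : 0 ≤ β := by linarith
    have hp : (0 : ℝ) < 2 ^ β := by positivity
    refine ⟨(K0 + K1 + 1) * (C * ((K0 + K1 + 1) * 2 ^ β)), t0 / (K0 + K1 + 1), by positivity,
      by positivity, (div_le_self ht0.le hK).trans_lt ht1, fun x hx y hy => ?_⟩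
    obtain ⟨a1, a2⟩ := b0 x y (hR0 x hx) (hR0 y hy)
    obtain ⟨a3, a4⟩ := b1 (F (κ0 x)) (F (κ0 y)) (hR1 x hx) (hR1 y hy)
    obtain ⟨a5, a6⟩ := hF (κ0 x) (κ0 y)
    simp only [Function.comp_apply]
    have w0 : ∀ {a b : ℝ}, 0 ≤ b → a ≤ K0 * b → a ≤ (K0 + K1 + 1) * b := fun hb h =>
      h.trans (mul_le_mul_of_nonneg_right (by linarith) hb)
    have w1 : ∀ {a b : ℝ}, 0 ≤ b → a ≤ K1 * b → a ≤ (K0 + K1 + 1) * b := fun hb h =>
      h.trans (mul_le_mul_of_nonneg_right (by linarith) hb)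
    replace a1 := w0 (norm_nonneg _) a1
    replace a2 := w0 (norm_nonneg _) a2
    replace a3 := w1 (norm_nonneg _) a3
    replace a4 := w1 (norm_nonneg _) a4
    constructor
    · intro hr
      rw [le_div_iff₀' hK'] at hr
      have e := om_cmp hβ0 hK (norm_nonneg _) a2 a1 (hr.trans ht1.le)
      calc _ ≤ _ := a3
        _ ≤ (K0 + K1 + 1) * (C * ((K0 + K1 + 1) * 2 ^ β *
            (‖x - y‖ * Real.log (1 / ‖x - y‖) ^ β))) :=
          mul_le_mul_of_nonneg_left ((a5 (a1.trans hr)).trans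
            (mul_le_mul_of_nonneg_left e hC.le)) hK'.le
        _ = _ := by ring
    · intro hr
      rw [le_div_iff₀' hK'] at hr
      have e := om_cmp hβ0 hK (norm_nonneg _) a3 a4 (hr.trans ht1.le)
      calc _ ≤ _ := a2
        _ ≤ (K0 + K1 + 1) * (C * ((K0 + K1 + 1) * 2 ^ β *
            (‖κ (F (κ0 x)) - κ (F (κ0 y))‖ *
              Real.log (1 / ‖κ (F (κ0 x)) - κ (F (κ0 y))‖) ^ β))) :=
          mul_le_mul_of_nonneg_left ((a6 (a4.trans hr)).trans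
            (mul_le_mul_of_nonneg_left e hC.le)) hK'.le
        _ = _ := by ring
  · have hA : MeasurableSet (Q ∩ (κ ∘ F ∘ κ0) ⁻¹' B) :=
      hQ.measurableSet.inter ((c1.comp (cF.comp c0)).measurable hB)
    set A := Q ∩ (κ ∘ F ∘ κ0) ⁻¹' B with hAd
    have hA1 : MeasurableSet (κ0 '' A) := (c0.measurableEmbedding i0).measurableSet_image' hA
    have hA2 : MeasurableSet (F '' (κ0 '' A)) :=
      (cF.measurableEmbedding iF).measurableSet_image' hA1
    have e1 : B ∩ (κ ∘ F ∘ κ0) '' Q = κ '' (F '' (κ0 '' A)) := by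
      rw [inter_comm, ← image_inter_preimage, ← hAd, image_comp, image_comp]
    have e2 := m1 _ hA2 fun _ => 1
    have e3 := mF _ hA2
    have e4 := m0 _ hA fun y => ENNReal.ofReal (g y)
    rw [preimage_image_eq _ iF] at e3
    simp only [mul_one, lintegral_one, Measure.restrict_apply_univ] at e2
    rw [e1, e2, ← e3, e4]
    refine setLIntegral_congr_fun hA fun x hx => ?_
    rw [eg x hx.1, ← ENNReal.ofReal_mul (p0 x).le, mul_div_cancel₀ _ (p0 x).ne']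

end Final

open Final

theorem knothe_of (h : PrimStmt) : KnotheStmt := by
  intro w hw hpos
  obtain ⟨hc, hd⟩ := h w 0 hw
  have hdf := hc.differentiable one_ne_zero
  have hb := kn_bilip hw.continuous hpos hc
  have hi : Function.Injective (kn w) := fun x y e => by
    obtain ⟨K, -, hK⟩ := hb (max ‖x‖ ‖y‖)
    have := (hK x y (le_max_left _ _) (le_max_right _ _)).2
    rw [e, sub_self, norm_zero, mul_zero] at this
    exact sub_eq_zero.1 (norm_le_zero_iff.1 this)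
  refine ⟨kn w, hi, continuous_iff_continuousAt.2 fun p => (kn_deriv hdf p).continuousAt, hb,
    fun A hA g => ?_⟩
  rw [lintegral_image_eq_lintegral_abs_det_fderiv_mul volume hA
    (fun p _ => (kn_deriv hdf p).hasFDerivWithinAt) hi.injOn g]
  refine lintegral_congr fun p => ?_
  congr 2
  rw [det_eq]
  simp [wd, (hd p).1, abs_of_pos (hpos p)]

theorem main_of (h1 : CoreStmt) (h2 : KnotheStmt) : MainStmt := by
  intro β hβ Q hQ ρ hρ hpos
  set e := Complex.orthonormalBasisOneI.repr with he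
  have hQ' : IsCompact (e ⁻¹' Q) := by
    have : e ⁻¹' Q = Icc (0 : ℝ) 1 ×ℂ Icc (0 : ℝ) 1 := by
      ext z
      rw [hQ, mem_preimage, mem_ofPred_eq, Fin.forall_fin_two, mem_reProdIm]
      rfl
    rw [this]
    exact isCompact_Icc.reProdIm isCompact_Icc
  obtain ⟨f, fi, ⟨C, t0, hC, ht0, ht1, hf⟩, hm⟩ := main_C h1 h2 hβ hQ' (ρ := ρ ∘ e)
    (hρ.comp e.continuous.continuousOn fun _ hx => hx) fun x hx => hpos _ hx
  have mp : MeasurePreserving e volume volume := e.measurePreserving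
  have me : MeasurableEmbedding e := e.toHomeomorph.measurableEmbedding
  refine ⟨e ∘ f ∘ e.symm, (e.injective.comp (fi.comp e.symm.injective)).injOn,
    ⟨C, t0, hC, ht0, ht1, fun x hx y hy => ?_⟩, fun B hB => ?_⟩
  · have := hf (e.symm x) (by simpa using hx) (e.symm y) (by simpa using hy)
    simp only [Function.comp_apply]
    rw [← map_sub, e.norm_map]
    rwa [← map_sub, e.symm.norm_map] at this
  · have e1 : e ⁻¹' (Q ∩ (e ∘ f ∘ e.symm) ⁻¹' B) = e ⁻¹' Q ∩ f ⁻¹' (e ⁻¹' B) := by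
      ext z
      simp only [mem_preimage, mem_inter_iff, Function.comp_apply,
        LinearIsometryEquiv.symm_apply_apply]
    have e2 : e ⁻¹' (B ∩ (e ∘ f ∘ e.symm) '' Q) = e ⁻¹' B ∩ f '' (e ⁻¹' Q) := by
      rw [preimage_inter, image_comp, preimage_image_eq _ e.injective, image_comp,
        e.symm.image_eq_preimage_symm, e.symm_symm]
    rw [← mp.setLIntegral_comp_preimage_emb me, ← mp.measure_preimage_emb me, e1, e2]
    exact hm _ (me.measurable hB)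

end
end Pool.Agent.MP_20bec2_an.Pl

end MrgPart6

-- marker of a merged file
example : 731051 + 856354 = 731051 + 856354 := rfl
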