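import Mathlib.Data.Int.Star
import Mathlib.Analysis.Complex.ExponentialBounds
import Mathlib.Analysis.Convex.Caratheodory
import Mathlib.RingTheory.PiTensorProduct
import Pool.Agent.MP_20bec2_an.Pl.La

-- ======== part 0: formerly Pool.Agent.MP_20bec2_an.Pl.Als
section MrgPart0

set_option autoImplicit false
open Set Finset

namespace Pool.Agent.MP_20bec2_an.Pl
noncomputable section

namespace Als
open Classical

variable {E : Type*} [NormedAddCommGroup E] [InnerProductSpace ℝ E]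

/-- the running sum W passes all tests of step t -/
def good (s : ℕ → Finset E) (A : Finset E) (c : ℝ) (t : ℕ) (W : E) : Prop :=
  ∀ v ∈ s t ∪ A, |inner ℝ v W| ≤ c

/-- expectation functional of the killed self balancing walk -/
def ex (s : ℕ → Finset E) (p : ℕ → E → ℝ) (A : Finset E) (c : ℝ) : ℕ → (E → ℝ) → ℝ
  | 0, F => F 0
  | t + 1, F => ex s p A c t (fun W => if good s A c t W then
      ∑ v ∈ s t, p t v * (1 - inner ℝ v W / c) * F (W + v) else 0)

variable {s : ℕ → Finset E} {p : ℕ → E → ℝ} {A : Finset E} {c : ℝ}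

lemma wt_nonneg (hc : 0 < c) (hp : ∀ t, ∀ v ∈ s t, 0 ≤ p t v) {t : ℕ} {W : E}
    (hW : good s A c t W) {v : E} (hv : v ∈ s t) : 0 ≤ p t v * (1 - inner ℝ v W / c) := by
  refine mul_nonneg (hp t v hv) ?_
  have := (abs_le.1 (hW v (mem_union_left _ hv))).2
  rw [sub_nonneg, div_le_one hc]
  exact this

lemma ex_mono (hc : 0 < c) (hp : ∀ t, ∀ v ∈ s t, 0 ≤ p t v) (t : ℕ) :
    ∀ F G : E → ℝ, (∀ W, F W ≤ G W) → ex s p A c t F ≤ ex s p A c t G := by
  induction t with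
  | zero => intro F G h; exact h 0
  | succ t ih =>
    intro F G h
    refine ih _ _ (fun W => ?_)
    split_ifs with hW
    · exact sum_le_sum (fun v hv => mul_le_mul_of_nonneg_left (h _) (wt_nonneg hc hp hW hv))
    · exact le_rfl

lemma ex_add (t : ℕ) : ∀ F G : E → ℝ,
    ex s p A c t (fun W => F W + G W) = ex s p A c t F + ex s p A c t G := by
  induction t with
  | zero => intro F G; rfl
  | succ t ih =>
    intro F G
    simp only [ex]
    rw [← ih]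
    congr 1
    funext W
    split_ifs
    · rw [← sum_add_distrib]; exact sum_congr rfl (fun v _ => by ring)
    · simp

lemma ex_mul (t : ℕ) (r : ℝ) : ∀ F : E → ℝ,
    ex s p A c t (fun W => r * F W) = r * ex s p A c t F := by
  induction t with
  | zero => intro F; rfl
  | succ t ih =>
    intro F
    simp only [ex]
    rw [← ih]
    congr 1
    funext W
    split_ifs
    · rw [mul_sum]; exact sum_congr rfl (fun v _ => by ring)
    · simp

lemma ex_sum {κ : Type*} (t : ℕ) (B : Finset κ) (F : κ → E → ℝ) :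
    ex s p A c t (fun W => ∑ i ∈ B, F i W) = ∑ i ∈ B, ex s p A c t (F i) := by
  induction B using Finset.induction_on with
  | empty => simpa using ex_mul (s := s) (p := p) (A := A) (c := c) t 0 (fun _ => 0)
  | insert a B ha ih =>
    simp only [sum_insert ha]
    rw [ex_add, ih]

lemma exp_le_quad {x : ℝ} (h : |x| ≤ 1) : Real.exp x ≤ 1 + x + x ^ 2 := by
  have := (abs_le.1 (Real.abs_exp_sub_one_sub_id_le h)).2
  linarith

lemma mgf (hc : 1 ≤ c) (hp : ∀ t, ∀ v ∈ s t, 0 ≤ p t v) (h1 : ∀ t, ∑ v ∈ s t, p t v = 1)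
    (h0 : ∀ t, ∑ v ∈ s t, p t v • v = 0) (hn : ∀ t, ∀ v ∈ s t, ‖v‖ ≤ 1) (t : ℕ) :
    ∀ a : E, ‖a‖ ≤ 1 →
      ex s p A c t (fun W => Real.exp (inner ℝ a W)) ≤ Real.exp (2 * c * ‖a‖ ^ 2) := by
  have hc0 : 0 < c := by linarith
  induction t with
  | zero =>
    intro a _
    simp only [ex, inner_zero_right, Real.exp_zero]
    exact Real.one_le_exp (by positivity)
  | succ t ih =>
    intro a ha
    set m : E := ∑ v ∈ s t, (p t v * inner ℝ a v) • v with hm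
    set q : ℝ := ∑ v ∈ s t, p t v * (inner ℝ a v) ^ 2 with hq
    have hz : ∀ W : E, ∑ v ∈ s t, p t v * inner ℝ v W = 0 := by
      intro W
      have := congrArg (fun x => inner ℝ x W) (h0 t)
      simpa [sum_inner, real_inner_smul_left] using this
    have hmW : ∀ W : E, inner ℝ m W = ∑ v ∈ s t, p t v * inner ℝ a v * inner ℝ v W := by
      intro W
      simp [hm, sum_inner, real_inner_smul_left]
    have hma : inner ℝ m a = q := by
      rw [hmW, hq]
      exact sum_congr rfl (fun v _ => by rw [real_inner_comm a v]; ring)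
    have hq0 : 0 ≤ q := sum_nonneg (fun v hv => mul_nonneg (hp t v hv) (sq_nonneg _))
    have hm2 : ‖m‖ ^ 2 ≤ q := by
      have e1 : ‖m‖ ≤ ∑ v ∈ s t, p t v * |inner ℝ a v| := by
        refine (norm_sum_le _ _).trans (sum_le_sum (fun v hv => ?_))
        rw [norm_smul, Real.norm_eq_abs, abs_mul, abs_of_nonneg (hp t v hv)]
        exact mul_le_of_le_one_right (mul_nonneg (hp t v hv) (abs_nonneg _)) (hn t v hv)
      have e2 : (∑ v ∈ s t, p t v * |inner ℝ a v|) ^ 2 ≤ (∑ v ∈ s t, p t v) * q := by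
        refine sum_sq_le_sum_mul_sum_of_sq_le_mul _ (fun v hv => hp t v hv)
          (fun v hv => mul_nonneg (hp t v hv) (sq_nonneg _)) (fun v hv => le_of_eq ?_)
        rw [mul_pow, sq_abs]; ring
      rw [h1, one_mul] at e2
      exact (pow_le_pow_left₀ (norm_nonneg _) e1 2).trans e2
    have hb : ‖a - c⁻¹ • m‖ ^ 2 ≤ ‖a‖ ^ 2 - q / c := by
      rw [norm_sub_sq_real, real_inner_smul_right, real_inner_comm, hma, norm_smul, mul_pow,
        Real.norm_eq_abs, sq_abs]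
      have e1 : c⁻¹ ^ 2 * ‖m‖ ^ 2 ≤ c⁻¹ * q := by
        have i1 : c⁻¹ ≤ 1 := inv_le_one_of_one_le₀ hc
        have i0 : 0 < c⁻¹ := inv_pos.2 hc0
        calc c⁻¹ ^ 2 * ‖m‖ ^ 2 ≤ c⁻¹ ^ 2 * q := by gcongr
          _ = c⁻¹ * (c⁻¹ * q) := by ring
          _ ≤ 1 * (c⁻¹ * q) := by gcongr
          _ = c⁻¹ * q := one_mul _
      rw [div_eq_mul_inv]
      nlinarith
    have hb1 : ‖a - c⁻¹ • m‖ ≤ 1 := by
      have : q / c ≥ 0 := by positivity
      have h2 : ‖a‖ ^ 2 ≤ 1 := by nlinarith [norm_nonneg a]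
      nlinarith [norm_nonneg (a - c⁻¹ • m)]
    have step : ∀ W : E, (if good s A c t W then
        ∑ v ∈ s t, p t v * (1 - inner ℝ v W / c) * Real.exp (inner ℝ a (W + v)) else 0) ≤
        Real.exp (2 * q) * Real.exp (inner ℝ (a - c⁻¹ • m) W) := by
      intro W
      split_ifs with hW
      · have e1 : ∑ v ∈ s t, p t v * (1 - inner ℝ v W / c) * Real.exp (inner ℝ a (W + v)) ≤
            ∑ v ∈ s t, Real.exp (inner ℝ a W) * (p t v - c⁻¹ * (p t v * inner ℝ v W) +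
              p t v * inner ℝ v a - c⁻¹ * (p t v * inner ℝ a v * inner ℝ v W) +
              2 * (p t v * (inner ℝ a v) ^ 2)) := by
          refine sum_le_sum (fun v hv => ?_)
          have w0 := wt_nonneg hc0 hp hW hv
          have x1 : |inner ℝ a v| ≤ 1 :=
            (abs_real_inner_le_norm a v).trans (mul_le_one₀ ha (norm_nonneg _) (hn t v hv))
          have x2 := exp_le_quad x1
          have x3 : 1 - inner ℝ v W / c ≤ 2 := by
            have := (abs_le.1 (hW v (mem_union_left _ hv))).1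
            have : -1 ≤ inner ℝ v W / c := by rw [le_div_iff₀ hc0]; linarith
            linarith
          have x4 : p t v * (1 - inner ℝ v W / c) * (inner ℝ a v) ^ 2 ≤
              p t v * 2 * (inner ℝ a v) ^ 2 := by
            have := hp t v hv
            gcongr
          rw [inner_add_right, Real.exp_add, real_inner_comm a v]
          have x5 := mul_le_mul_of_nonneg_left x2 w0
          have x6 : p t v * (1 - inner ℝ v W / c) * Real.exp (inner ℝ a v) ≤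
              p t v - c⁻¹ * (p t v * inner ℝ v W) + p t v * inner ℝ a v -
                c⁻¹ * (p t v * inner ℝ a v * inner ℝ v W) + 2 * (p t v * (inner ℝ a v) ^ 2) := by
            rw [div_eq_mul_inv] at x4 x5 ⊢
            nlinarith
          calc _ = Real.exp (inner ℝ a W) *
                (p t v * (1 - inner ℝ v W / c) * Real.exp (inner ℝ a v)) := by ring
            _ ≤ _ := mul_le_mul_of_nonneg_left x6 (Real.exp_pos _).le
        refine e1.trans ?_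
        rw [← mul_sum]
        simp only [sum_add_distrib, sum_sub_distrib, ← mul_sum, h1, hz, ← hmW, ← hq]
        rw [inner_sub_left, real_inner_smul_left, ← Real.exp_add,
          show 2 * q + (inner ℝ a W - c⁻¹ * inner ℝ m W) =
            inner ℝ a W + (2 * q - c⁻¹ * inner ℝ m W) by ring, Real.exp_add]
        refine mul_le_mul_of_nonneg_left ?_ (Real.exp_pos _).le
        have := Real.add_one_le_exp (2 * q - c⁻¹ * inner ℝ m W)
        linarith
      · positivity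
    refine (ex_mono hc0 hp t _ _ step).trans ?_
    rw [ex_mul]
    refine (mul_le_mul_of_nonneg_left (ih _ hb1) (Real.exp_pos _).le).trans ?_
    rw [← Real.exp_add, Real.exp_le_exp]
    have : 2 * c * ‖a - c⁻¹ • m‖ ^ 2 ≤ 2 * c * (‖a‖ ^ 2 - q / c) := by gcongr
    have e : 2 * c * (‖a‖ ^ 2 - q / c) = 2 * c * ‖a‖ ^ 2 - 2 * q := by field_simp
    linarith

lemma tail (hc : 1 ≤ c) (hp : ∀ t, ∀ v ∈ s t, 0 ≤ p t v) (h1 : ∀ t, ∑ v ∈ s t, p t v = 1)
    (h0 : ∀ t, ∑ v ∈ s t, p t v • v = 0) (hn : ∀ t, ∀ v ∈ s t, ‖v‖ ≤ 1) (t : ℕ)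
    (B : Finset E) (hB : ∀ a ∈ B, ‖a‖ ≤ 1) :
    ex s p A c t (fun W => if ∀ a ∈ B, |inner ℝ a W| ≤ c then 0 else 1) ≤
      2 * B.card * Real.exp (-(c / 8)) := by
  have hc0 : 0 < c := by linarith
  have one : ∀ a : E, ‖a‖ ≤ 1 → ex s p A c t
      (fun W => Real.exp (-(c / 4)) * Real.exp (inner ℝ ((1 / 4 : ℝ) • a) W)) ≤
      Real.exp (-(c / 8)) := by
    intro a ha
    rw [ex_mul]
    have n1 : ‖(1 / 4 : ℝ) • a‖ ≤ 1 / 4 := by
      rw [norm_smul]; norm_num; linarith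
    refine (mul_le_mul_of_nonneg_left (mgf hc hp h1 h0 hn t _ (by linarith))
      (Real.exp_pos _).le).trans ?_
    rw [← Real.exp_add, Real.exp_le_exp]
    have : ‖(1 / 4 : ℝ) • a‖ ^ 2 ≤ (1 / 4) ^ 2 := by gcongr
    nlinarith
  have pt : ∀ W : E, (if ∀ a ∈ B, |inner ℝ a W| ≤ c then (0 : ℝ) else 1) ≤
      ∑ a ∈ B, (Real.exp (-(c / 4)) * Real.exp (inner ℝ ((1 / 4 : ℝ) • a) W) +
        Real.exp (-(c / 4)) * Real.exp (inner ℝ ((1 / 4 : ℝ) • (-a)) W)) := by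
    intro W
    split_ifs with h
    · positivity
    · push Not at h
      obtain ⟨a, ha, h⟩ := h
      refine le_trans ?_ (single_le_sum (f := fun a => Real.exp (-(c / 4)) *
        Real.exp (inner ℝ ((1 / 4 : ℝ) • a) W) + Real.exp (-(c / 4)) *
          Real.exp (inner ℝ ((1 / 4 : ℝ) • (-a)) W)) (fun a _ => by positivity) ha)
      simp only [← Real.exp_add, real_inner_smul_left, inner_neg_left]
      rcases lt_abs.1 h with h | h
      · have := Real.one_le_exp (x := -(c / 4) + 1 / 4 * inner ℝ a W) (by linarith)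
        have := Real.exp_pos (-(c / 4) + 1 / 4 * -inner ℝ a W)
        linarith
      · have := Real.one_le_exp (x := -(c / 4) + 1 / 4 * -inner ℝ a W) (by linarith)
        have := Real.exp_pos (-(c / 4) + 1 / 4 * inner ℝ a W)
        linarith
  refine (ex_mono hc0 hp t _ _ pt).trans ?_
  rw [ex_sum]
  refine (sum_le_card_nsmul B _ (2 * Real.exp (-(c / 8))) (fun a ha => ?_)).trans
    (le_of_eq (by rw [nsmul_eq_mul]; ring))
  rw [ex_add]
  have a1 := one a (hB a ha)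
  have a2 := one (-a) (by simpa using hB a ha)
  linarith

lemma split (t : ℕ) (P : E → Prop) : ex s p A c t (fun W => if P W then 1 else 0) =
    ex s p A c t (fun _ => 1) - ex s p A c t (fun W => if P W then 0 else 1) := by
  rw [eq_sub_iff_add_eq, ← ex_add]
  congr 1
  funext W
  split_ifs <;> simp

lemma mass (hc : 1 ≤ c) (hp : ∀ t, ∀ v ∈ s t, 0 ≤ p t v) (h1 : ∀ t, ∑ v ∈ s t, p t v = 1)
    (h0 : ∀ t, ∑ v ∈ s t, p t v • v = 0) (hn : ∀ t, ∀ v ∈ s t, ‖v‖ ≤ 1)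
    (hA : ∀ a ∈ A, ‖a‖ ≤ 1) (N : ℝ) (hN : ∀ t, ((s t).card : ℝ) ≤ N) (t : ℕ) :
    1 - t * (2 * (A.card + N) * Real.exp (-(c / 8))) ≤ ex s p A c t (fun _ => 1) := by
  induction t with
  | zero => simp [ex]
  | succ t ih =>
    have e : ex s p A c (t + 1) (fun _ => 1) =
        ex s p A c t (fun W => if good s A c t W then 1 else 0) := by
      simp only [ex]
      congr 1
      funext W
      split_ifs
      · have := congrArg (fun x => inner ℝ x W) (h0 t)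
        simp only [sum_inner, real_inner_smul_left, inner_zero_left] at this
        simp only [mul_one, mul_sub, sum_sub_distrib, h1, ← mul_div_assoc, ← sum_div, this]
        simp
      · rfl
    rw [e, split]
    have b := tail (A := A) hc hp h1 h0 hn t (s t ∪ A) (fun a ha => by
      rcases mem_union.1 ha with h | h
      · exact hn t a h
      · exact hA a h)
    have c1 : (((s t ∪ A).card : ℕ) : ℝ) ≤ A.card + N := by
      have := card_union_le (s t) A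
      have h2 : (((s t ∪ A).card : ℕ) : ℝ) ≤ (s t).card + A.card := by exact_mod_cast this
      linarith [hN t]
    have c2 : 2 * (((s t ∪ A).card : ℕ) : ℝ) * Real.exp (-(c / 8)) ≤
        2 * (A.card + N) * Real.exp (-(c / 8)) := by gcongr
    have b' : ex s p A c t (fun W => if good s A c t W then 0 else 1) ≤
        2 * (((s t ∪ A).card : ℕ) : ℝ) * Real.exp (-(c / 8)) := by
      convert b using 3
      exact if_congr Iff.rfl rfl rfl
    push_cast
    linarith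

lemma extract (hc : 0 < c) (hp : ∀ t, ∀ v ∈ s t, 0 ≤ p t v) (t : ℕ) :
    ∀ F : E → ℝ, 0 < ex s p A c t F → ∃ x : ℕ → E, (∀ r < t, x r ∈ s r) ∧
      (∀ r < t, good s A c r (∑ i ∈ range r, x i)) ∧ 0 < F (∑ i ∈ range t, x i) := by
  induction t with
  | zero => intro F h; exact ⟨fun _ => 0, by simp, by simp, by simpa [ex] using h⟩
  | succ t ih =>
    intro F h
    obtain ⟨x, x1, x2, x3⟩ := ih _ h
    by_cases hW : good s A c t (∑ i ∈ range t, x i)
    · rw [if_pos hW] at x3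
      obtain ⟨v, hv, hF⟩ : ∃ v ∈ s t, 0 < F (∑ i ∈ range t, x i + v) := by
        by_contra k
        push Not at k
        exact absurd x3 (not_lt.2 (sum_nonpos (fun v hv =>
          mul_nonpos_of_nonneg_of_nonpos (wt_nonneg hc hp hW hv) (k v hv))))
      have hs : ∀ r ≤ t, ∑ i ∈ range r, Function.update x t v i = ∑ i ∈ range r, x i := by
        intro r hr
        refine sum_congr rfl (fun i hi => ?_)
        rw [Function.update_of_ne]
        have := mem_range.1 hi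
        omega
      refine ⟨Function.update x t v, fun r hr => ?_, fun r hr => ?_, ?_⟩
      · rcases Nat.lt_succ_iff_lt_or_eq.1 hr with h | rfl
        · rw [Function.update_of_ne h.ne]; exact x1 r h
        · simpa using hv
      · rw [hs r (by omega)]
        rcases Nat.lt_succ_iff_lt_or_eq.1 hr with h | rfl
        · exact x2 r h
        · exact hW
      · rw [sum_range_succ, hs t le_rfl]
        simpa using hF
    · rw [if_neg hW] at x3
      exact absurd x3 (lt_irrefl _)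

lemma cara [FiniteDimensional ℝ E] (S : Set E) (h : (0 : E) ∈ convexHull ℝ S) :
    ∃ (s : Finset E) (w : E → ℝ), (s : Set E) ⊆ S ∧ s.card ≤ Module.finrank ℝ E + 1 ∧
      (∀ v ∈ s, 0 ≤ w v) ∧ ∑ v ∈ s, w v = 1 ∧ ∑ v ∈ s, w v • v = 0 := by
  rw [convexHull_eq_union] at h
  simp only [mem_iUnion] at h
  obtain ⟨s, hs, ha, hm⟩ := h
  obtain ⟨w, w1, w2, w3⟩ := Finset.mem_convexHull'.1 hm
  refine ⟨s, w, hs, ?_, w1, w2, w3⟩
  have := ha.card_le_finrank_succ
  rw [Fintype.card_coe] at this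
  exact this.trans (Nat.add_le_add_right (Submodule.finrank_le _) 1)

end Als

theorem als : AlsStmt := by
  classical
  intro ι _ T S A c hS h0 hA hc
  have hdata : ∀ t, ∃ (s : Finset (EuclideanSpace ℝ ι)) (w : EuclideanSpace ℝ ι → ℝ),
      (t < T → (s : Set (EuclideanSpace ℝ ι)) ⊆ S t) ∧ s.card ≤ Fintype.card ι + 1 ∧
      (∀ v ∈ s, 0 ≤ w v) ∧ ∑ v ∈ s, w v = 1 ∧ ∑ v ∈ s, w v • v = 0 ∧ ∀ v ∈ s, ‖v‖ ≤ 1 := by
    intro t
    by_cases ht : t < T
    · obtain ⟨s, w, a1, a2, a3, a4, a5⟩ := Als.cara (S t) (h0 t ht)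
      rw [finrank_euclideanSpace] at a2
      exact ⟨s, w, fun _ => a1, a2, a3, a4, a5, fun v hv => hS t ht v (a1 hv)⟩
    · exact ⟨{0}, fun _ => 1, fun h => absurd h ht, by simp, by simp, by simp, by simp, by simp⟩
  choose s p d1 d2 d3 d4 d5 d6 using hdata
  have hM : (1 : ℝ) ≤ (A.card : ℝ) + Fintype.card ι + 1 := by
    have : (0 : ℝ) ≤ (A.card : ℝ) + Fintype.card ι := by positivity
    linarith
  have hT : (1 : ℝ) ≤ (T : ℝ) + 1 := by
    have : (0 : ℝ) ≤ T := by positivity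
    linarith
  have hc1 : 1 ≤ c := by
    by_contra k
    have e1 : Real.exp (c / 8) ≤ Real.exp 1 := Real.exp_le_exp.2 (by linarith)
    have e2 := Real.exp_one_lt_d9
    nlinarith
  have hc0 : 0 < c := by linarith
  have m := Als.mass (A := A) hc1 d3 d4 d5 d6 hA ((Fintype.card ι : ℝ) + 1)
    (fun t => by exact_mod_cast d2 t) T
  have b := Als.tail (A := A) hc1 d3 d4 d5 d6 T A hA
  have hδ : 4 * ((A.card : ℝ) + Fintype.card ι + 1) * (T + 1) * Real.exp (-(c / 8)) ≤ 1 := by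
    rw [Real.exp_neg, ← div_eq_mul_inv, div_le_one (Real.exp_pos _)]
    exact hc
  have he := Real.exp_pos (-(c / 8))
  have pos : 0 < Als.ex s p A c T (fun W => if ∀ a ∈ A, |inner ℝ a W| ≤ c then 1 else 0) := by
    have sp := Als.split (s := s) (p := p) (A := A) (c := c) T (fun W => ∀ a ∈ A, |inner ℝ a W| ≤ c)
    have c2 : 2 * (A.card : ℝ) * Real.exp (-(c / 8)) ≤
        2 * (A.card + ((Fintype.card ι : ℝ) + 1)) * Real.exp (-(c / 8)) := by
      gcongr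
      have : (0 : ℝ) ≤ (Fintype.card ι : ℝ) + 1 := by positivity
      linarith
    have b' : Als.ex s p A c T (fun W => @ite ℝ (∀ a ∈ A, |inner ℝ a W| ≤ c)
        (Classical.propDecidable _) 0 1) ≤ 2 * (A.card : ℝ) * Real.exp (-(c / 8)) := by
      refine le_of_eq_of_le (congrArg _ (funext fun W => ?_)) b
      split_ifs <;> rfl
    have : 0 < Als.ex s p A c T (fun W => @ite ℝ (∀ a ∈ A, |inner ℝ a W| ≤ c)
        (Classical.propDecidable _) 1 0) := by
      rw [sp]; nlinarith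
    refine lt_of_lt_of_eq this (congrArg _ (funext fun W => ?_))
    split_ifs <;> rfl
  obtain ⟨x, x1, x2, x3⟩ := Als.extract hc0 d3 T _ pos
  refine ⟨x, fun t ht => d1 t ht (x1 t ht), fun T' hT' a ha => ?_⟩
  rcases hT'.lt_or_eq with h | rfl
  · exact x2 T' h a (by simp [ha])
  · by_contra k
    rw [if_neg (fun h => k (h a ha))] at x3
    exact lt_irrefl _ x3

end
end Pool.Agent.MP_20bec2_an.Pl

end MrgPart0

-- ======== part 1: formerly Pool.Agent.MP_20bec2_an.Pl.StgA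
section MrgPart1

/-!
Balancing of a family of box functions.
-/

set_option autoImplicit false
open MeasureTheory Set Filter Finset

namespace Pool.Agent.MP_20bec2_an.Pl
namespace Stg
noncomputable section

lemma meas_int {α : Type} [MeasurableSpace α] {f : α → ℝ → ℝ}
    (hf : Measurable fun x : α × ℝ => f x.1 x.2) (a b : ℝ) :
    Measurable fun x => ∫ t in a..b, f x t :=
  (hf.stronglyMeasurable.integral_prod_right' (ν := volume.restrict (Ioc a b))).measurable.sub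
    (hf.stronglyMeasurable.integral_prod_right' (ν := volume.restrict (Ioc b a))).measurable

lemma ii_of_bd {f : ℝ → ℝ} (hf : Measurable f) {B : ℝ} (h : ∀ t, |f t| ≤ B) (a b : ℝ) :
    IntervalIntegrable f volume a b :=
  (intervalIntegrable_const (c := B)).mono_fun' hf.aestronglyMeasurable (Eventually.of_forall h)

lemma ii_sum {f : ℕ → ℝ → ℝ} {a b : ℝ} (s : Finset ℕ) (h : ∀ i, IntervalIntegrable (f i) volume a b) :
    IntervalIntegrable (fun t => ∑ i ∈ s, f i t) volume a b :=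
  (IntervalIntegrable.sum s fun i _ => h i).congr fun t _ => by simp

lemma abs_int_le {f : ℝ → ℝ} {B : ℝ} (h : ∀ t, |f t| ≤ B) (a b : ℝ) :
    |∫ t in a..b, f t| ≤ B * |b - a| :=
  intervalIntegral.norm_integral_le_of_norm_le_const (f := f) fun t _ => h t

lemma swap1 {f : ℂ → ℝ → ℝ} (hf : Measurable fun x : ℂ × ℝ => f x.1 x.2) {g : ℂ → ℝ}
    (hg : Integrable g gam) (h : ∀ o t, |f o t| ≤ g o) (a b : ℝ) :
    ∫ t in a..b, ∫ o, f o t ∂gam = ∫ o, (∫ t in a..b, f o t) ∂gam := by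
  have : IsFiniteMeasure (volume.restrict (uIoc a b)) :=
    isFiniteMeasure_restrict.mpr (by simp [uIoc])
  exact intervalIntegral_integral_swap ((hg.comp_snd _).mono'
    (hf.comp measurable_swap).aestronglyMeasurable (Eventually.of_forall fun x => h x.2 x.1))

lemma swap2 {f : ℂ → ℝ → ℝ → ℝ} (hf : Measurable fun x : ℂ × ℝ × ℝ => f x.1 x.2.1 x.2.2)
    {g : ℂ → ℝ} (hg : Integrable g gam) (h : ∀ o a b, |f o a b| ≤ g o) (a1 a2 b1 b2 : ℝ) :
    ∫ a in a1..a2, ∫ b in b1..b2, ∫ o, f o a b ∂gam =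
      ∫ o, (∫ a in a1..a2, ∫ b in b1..b2, f o a b) ∂gam := by
  rw [← swap1 (f := fun o a => ∫ b in b1..b2, f o a b) (g := fun o => g o * |b2 - b1|)
    (meas_int (f := fun (x : ℂ × ℝ) b => f x.1 x.2 b) (hf.comp (by fun_prop :
      Measurable fun x : (ℂ × ℝ) × ℝ => (x.1.1, x.1.2, x.2))) b1 b2) (hg.mul_const _)
    fun o a => abs_int_le (h o a) b1 b2]
  refine intervalIntegral.integral_congr fun a _ => ?_
  exact swap1 (f := fun o b => f o a b) (hf.comp (by fun_prop :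
    Measurable fun x : ℂ × ℝ => (x.1, a, x.2))) hg (fun o b => h o a b) b1 b2

/-- an integral of a function that vanishes off `(c - H, c + H)` -/
lemma int_clamp {f : ℝ → ℝ} (hi : ∀ a b, IntervalIntegrable f volume a b) {c H : ℝ} (hH : 0 < H)
    (h0 : ∀ t, H ≤ |t - c| → f t = 0) {a : ℝ} (ha : a ≤ c - H) (w : ℝ) :
    ∫ t in a..w, f t = ∫ t in (c - H)..(max (c - H) (min w (c + H))), f t := by
  have hz : ∀ x y : ℝ, (x ≤ c - H ∧ y ≤ c - H ∨ c + H ≤ x ∧ c + H ≤ y) → ∫ t in x..y, f t = 0 :=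
    fun x y h => by
      rw [intervalIntegral.integral_congr (g := fun _ => 0) fun t ht => h0 t ?_,
        intervalIntegral.integral_zero]
      rcases h with h | h
      · exact le_abs.mpr (Or.inr (by linarith [ht.2.trans (max_le h.1 h.2)]))
      · exact le_abs.mpr (Or.inl (by linarith [(le_min h.1 h.2).trans ht.1]))
  rw [← intervalIntegral.integral_add_adjacent_intervals (hi a (c - H)) (hi _ w),
    hz _ _ (Or.inl ⟨ha, le_rfl⟩), zero_add]
  rcases le_total w (c - H) with h | h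
  · rw [hz _ _ (Or.inl ⟨le_rfl, h⟩), max_eq_left ((min_le_left _ _).trans h),
      intervalIntegral.integral_same]
  · rcases le_total w (c + H) with h' | h'
    · rw [min_eq_left h', max_eq_right h]
    · rw [min_eq_right h', max_eq_right (by linarith),
        ← intervalIntegral.integral_add_adjacent_intervals (hi _ (c + H)) (hi _ w),
        hz _ _ (Or.inr ⟨le_rfl, h'⟩), add_zero]

/-- a family of centred box functions -/
structure Fam (n : ℕ → ℕ → ℂ → ℝ → ℝ → ℝ) (u0 w0 l H h W B A : ℝ) : Prop where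
  out : ∀ (i r : ℕ) ϑ u w, l ≤ |u - (u0 + i * l)| ∨ H ≤ |w - (w0 + r * H)| → n i r ϑ u w = 0
  reg : ∀ i r ϑ w, Dh (fun u => n i r ϑ u w) (B * (1 + ‖ϑ‖ / A) ^ 4) (B * (1 + ‖ϑ‖ / A) ^ 4) h
  mea : ∀ i r, Measurable fun x : ℂ × ℝ × ℝ => n i r x.1 x.2.1 x.2.2
  mean : ∀ i r u w, ∫ ϑ, n i r ϑ u w ∂gam = 0
  flux : ∀ (i r : ℕ) ϑ u, |∫ a in (u0 + i * l - l)..u, ∫ b in (w0 + r * H - H)..(w0 + r * H + H),
    n i r ϑ a b| ≤ B * W * H * (1 + ‖ϑ‖ / A) ^ 4
  tot : ∀ (i r : ℕ) ϑ, ∫ a in (u0 + i * l - l)..(u0 + i * l + l),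
    ∫ b in (w0 + r * H - H)..(w0 + r * H + H), n i r ϑ a b = 0

variable {n : ℕ → ℕ → ℂ → ℝ → ℝ → ℝ} {u0 w0 l H h W B A : ℝ}

lemma Fam.ii (F : Fam n u0 w0 l H h W B A) (i r : ℕ) (ϑ : ℂ) (u a b : ℝ) :
    IntervalIntegrable (n i r ϑ u) volume a b :=
  ii_of_bd ((F.mea i r).comp (by fun_prop : Measurable fun t : ℝ => (ϑ, u, t)))
    (fun t => (F.reg i r ϑ t).b0 u) a b

lemma Fam.d2 (F : Fam n u0 w0 l H h W B A) (hh : 0 < h) (i r : ℕ) (ϑ : ℂ) {a b : ℝ}
    (hab : |b - a| ≤ 2 * H) : Dh (fun u => ∫ t in a..b, n i r ϑ u t)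
      (2 * H * B * (1 + ‖ϑ‖ / A) ^ 4) (2 * H * B * (1 + ‖ϑ‖ / A) ^ 4) h := by
  have h0 := (F.reg i r ϑ 0).n0
  have h1 : B * (1 + ‖ϑ‖ / A) ^ 4 * |b - a| ≤ 2 * H * B * (1 + ‖ϑ‖ / A) ^ 4 :=
    (mul_le_mul_of_nonneg_left hab h0).trans_eq (by ring)
  refine (D2.intervalIntegral (f := fun t u => n i r ϑ u t) (fun t _ => F.reg i r ϑ t)
    fun u => F.ii i r ϑ u a b).mono h1 ?_ ?_
  · rw [div_mul_eq_mul_div]; gcongr
  · rw [div_mul_eq_mul_div]; gcongr

/-- the column integral over the box -/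
def vv (n : ℕ → ℕ → ℂ → ℝ → ℝ → ℝ) (w0 H : ℝ) (i r : ℕ) (ϑ : ℂ) (u : ℝ) : ℝ :=
  ∫ b in (w0 + r * H - H)..(w0 + r * H + H), n i r ϑ u b

/-- the mass of the part of the box left of `u` -/
def VV (n : ℕ → ℕ → ℂ → ℝ → ℝ → ℝ) (u0 w0 l H : ℝ) (i r : ℕ) (ϑ : ℂ) (u : ℝ) : ℝ :=
  ∫ a in (u0 + i * l - l)..u, vv n w0 H i r ϑ a

lemma Fam.v_d2 (F : Fam n u0 w0 l H h W B A) (hh : 0 < h) (hH : 0 < H) (i r : ℕ) (ϑ : ℂ) :
    Dh (vv n w0 H i r ϑ) (2 * H * B * (1 + ‖ϑ‖ / A) ^ 4) (2 * H * B * (1 + ‖ϑ‖ / A) ^ 4) h :=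
  F.d2 hh i r ϑ (by rw [abs_of_nonneg] <;> linarith)

lemma Fam.int_out (F : Fam n u0 w0 l H h W B A) (i r : ℕ) (ϑ : ℂ) {u : ℝ}
    (hu : l ≤ |u - (u0 + i * l)|) (a b : ℝ) : ∫ t in a..b, n i r ϑ u t = 0 := by
  simp [F.out i r ϑ u _ (Or.inl hu)]

lemma Fam.V_eq (F : Fam n u0 w0 l H h W B A) (hh : 0 < h) (hH : 0 < H) (hl : 0 < l) (i r : ℕ) (ϑ : ℂ)
    {a : ℝ} (ha : a ≤ u0 + i * l - l) (u : ℝ) : ∫ t in a..u, vv n w0 H i r ϑ t =
      ∫ t in (u0 + i * l - l)..(max (u0 + i * l - l) (min u (u0 + i * l + l))), vv n w0 H i r ϑ t :=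
  int_clamp (fun a b => (F.v_d2 hh hH i r ϑ).continuous.intervalIntegrable a b) hl
    (fun _ ht => F.int_out i r ϑ ht _ _) ha u

lemma Fam.V_out (F : Fam n u0 w0 l H h W B A) (hh : 0 < h) (hH : 0 < H) (hl : 0 < l) (i r : ℕ)
    (ϑ : ℂ) {u : ℝ} (hu : l ≤ |u - (u0 + i * l)|) : VV n u0 w0 l H i r ϑ u = 0 := by
  rw [VV, F.V_eq hh hH hl i r ϑ le_rfl]
  rcases le_abs.mp hu with h1 | h1
  · rw [min_eq_right (by linarith), max_eq_right (by linarith)]
    exact F.tot i r ϑ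
  · rw [max_eq_left ((min_le_left _ _).trans (by linarith)), intervalIntegral.integral_same]

lemma Fam.V_d2 (F : Fam n u0 w0 l H h W B A) (hh : 0 < h) (hW : h ≤ W) (hH : 0 < H) (i r : ℕ)
    (ϑ : ℂ) : Dh (fun u => W⁻¹ * VV n u0 w0 l H i r ϑ u) (2 * H * B * (1 + ‖ϑ‖ / A) ^ 4)
      (2 * H * B * (1 + ‖ϑ‖ / A) ^ 4) h := by
  have h0 := F.v_d2 hh hH i r ϑ
  have h1 := h0.n0
  have hW0 : 0 < W := hh.trans_le hW
  have hd : ∀ u, HasDerivAt (VV n u0 w0 l H i r ϑ) (vv n w0 H i r ϑ u) u := fun u =>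
    (h0.continuous.integral_hasStrictDerivAt _ u).hasDerivAt
  have h2 : D2 (VV n u0 w0 l H i r ϑ) (B * W * H * (1 + ‖ϑ‖ / A) ^ 4) _ _ :=
    ⟨L2.of_fderiv (fun u => (hd u).differentiableAt) (fun u => by
      rw [(hd u).hasFDerivAt.fderiv, ContinuousLinearMap.norm_toSpanSingleton]
      exact h0.b0 u) h0.n1 (fun x y => by
      rw [(hd x).hasFDerivAt.fderiv, (hd y).hasFDerivAt.fderiv]
      refine ContinuousLinearMap.opNorm_le_bound _ (mul_nonneg h0.n1 (norm_nonneg _)) fun t => ?_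
      rw [sub_apply, ContinuousLinearMap.toSpanSingleton_apply,
        ContinuousLinearMap.toSpanSingleton_apply, ← smul_sub, norm_smul, mul_comm]
      exact mul_le_mul_of_nonneg_right (h0.b1 x y) (norm_nonneg _)), F.flux i r ϑ⟩
  have h3 : |W⁻¹| ≤ h⁻¹ := by rw [abs_of_pos (inv_pos.mpr hW0)]; gcongr
  refine (h2.const_mul W⁻¹).mono ?_ ?_ ?_
  · rw [abs_of_pos (inv_pos.mpr hW0)]
    have : W⁻¹ * (B * W * H * (1 + ‖ϑ‖ / A) ^ 4) = H * B * (1 + ‖ϑ‖ / A) ^ 4 := by field_simp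
    rw [this]
    linarith
  · exact (mul_le_mul_of_nonneg_right h3 h1).trans_eq (div_eq_inv_mul _ _).symm
  · refine (mul_le_mul_of_nonneg_right h3 h0.n1).trans_eq ?_
    field_simp

lemma int_q {A : ℝ} (hA : 1 ≤ A) (c : ℝ) : Integrable (fun ϑ : ℂ => c * (1 + ‖ϑ‖ / A) ^ 4) gam := by
  refine Integrable.const_mul ((gam_pow 4).mono' (by fun_prop) (Eventually.of_forall fun ϑ => ?_)) c
  rw [Real.norm_of_nonneg (by positivity)]
  gcongr
  exact div_le_self (norm_nonneg _) hA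

lemma Fam.v_mea (F : Fam n u0 w0 l H h W B A) (i r : ℕ) :
    Measurable fun x : ℂ × ℝ => vv n w0 H i r x.1 x.2 :=
  meas_int (f := fun (x : ℂ × ℝ) b => n i r x.1 x.2 b) ((F.mea i r).comp (by fun_prop :
    Measurable fun x : (ℂ × ℝ) × ℝ => (x.1.1, x.1.2, x.2))) _ _

lemma Fam.v_mean (F : Fam n u0 w0 l H h W B A) (hA : 1 ≤ A) (i r : ℕ) (u : ℝ) :
    ∫ ϑ, vv n w0 H i r ϑ u ∂gam = 0 := by
  unfold vv
  rw [← swap1 (f := fun ϑ b => n i r ϑ u b) ((F.mea i r).comp (by fun_prop :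
    Measurable fun x : ℂ × ℝ => (x.1, u, x.2))) (int_q hA B) fun ϑ b => (F.reg i r ϑ b).b0 u]
  simp [F.mean]

lemma Fam.V_mean (F : Fam n u0 w0 l H h W B A) (hh : 0 < h) (hH : 0 < H) (hA : 1 ≤ A) (i r : ℕ)
    (u : ℝ) : ∫ ϑ, W⁻¹ * VV n u0 w0 l H i r ϑ u ∂gam = 0 := by
  unfold VV
  rw [integral_const_mul, ← swap1 (F.v_mea i r) (int_q hA _) fun ϑ a => (F.v_d2 hh hH i r ϑ).b0 a]
  simp [F.v_mean hA]

lemma sum_col (f : ℕ → ℕ → ℝ) {N : ℕ} (i : ℕ) {r0 : ℕ} (h : r0 ≤ N) :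
    ∑ t ∈ range (i * N + r0), f (t / N) (t % N) =
      ∑ t ∈ range (i * N), f (t / N) (t % N) + ∑ r ∈ range r0, f i r := by
  rw [sum_range_add]
  congr 1
  refine sum_congr rfl fun r hr => ?_
  have h1 : r < N := (mem_range.mp hr).trans_le h
  rw [mul_comm, Nat.mul_add_div (by omega), Nat.mul_add_mod, Nat.div_eq_of_lt h1,
    Nat.mod_eq_of_lt h1, add_zero]

lemma sum_all (f : ℕ → ℕ → ℝ) (N1 N : ℕ) : ∑ t ∈ range (N1 * N), f (t / N) (t % N) =
    ∑ i ∈ range N1, ∑ r ∈ range N, f i r := by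
  induction N1 with
  | zero => simp
  | succ i ih => rw [sum_range_succ, ← ih, ← sum_col f i le_rfl, add_mul, one_mul]

lemma ovl_cols {G : ℕ → ℝ → ℝ} (hl : 0 < l) (N1 : ℕ)
    (h0 : ∀ (i : ℕ) u, l ≤ |u - (u0 + i * l)| → G i u = 0) :
    Ovl (fun u => ∑ i ∈ range N1, G i u) (fun i u => if i < N1 then G i u else 0) 2 := fun u => by
  refine ⟨(range N1).filter fun i => |u - (u0 + i * l)| < l, ?_, fun i hi => ?_, ?_⟩
  · refine (card_le_card_of_injOn (t := {⌊(u - u0) / l⌋, ⌊(u - u0) / l⌋ + 1}) (fun i : ℕ => (i : ℤ))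
      (fun i hi => ?_) fun i _ k _ h => Nat.cast_injective h).trans card_le_two
    obtain ⟨h1, h2⟩ := abs_lt.mp (mem_filter.mp hi).2
    have h3 : ⌊(u - u0) / l⌋ < i + 1 := Int.floor_lt.mpr (by
      rw [div_lt_iff₀ hl]; push_cast; linarith)
    have h4 : (i : ℤ) - 1 ≤ ⌊(u - u0) / l⌋ := Int.le_floor.mpr (by
      rw [le_div_iff₀ hl]; push_cast; linarith)
    simp only [coe_insert, coe_singleton, mem_insert_iff, mem_singleton_iff]
    omega
  · beta_reduce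
    split_ifs with h1
    · exact h0 i u (not_lt.mp fun h2 => hi (mem_filter.mpr ⟨mem_range.mpr h1, h2⟩))
    · rfl
  · rw [sum_congr rfl fun i hi => if_pos (Finset.mem_range.mp (mem_filter.mp hi).1)]
    exact (sum_filter_of_ne fun i _ h1 => not_le.mp fun h2 => h1 (h0 i u h2)).symm

/-- the rows below `r0` count fully, two rows are cut, the others vanish -/
lemma Fam.rows (F : Fam n u0 w0 l H h W B A) (hH : 0 < H) (N : ℕ) {a0 : ℝ} (ha : a0 ≤ w0 - H)
    (w : ℝ) : ∃ r0 ≤ N, ∃ s : Finset ℕ, s.card ≤ 2 ∧ ∀ (i : ℕ) (ϑ : ℕ → ℂ) (u : ℝ),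
      ∑ r ∈ range N, ∫ b in a0..w, n i r (ϑ r) u b = ∑ r ∈ range r0, vv n w0 H i r (ϑ r) u +
        ∑ r ∈ s, ∫ b in (w0 + r * H - H)..(max (w0 + r * H - H) (min w (w0 + r * H + H))),
          n i r (ϑ r) u b := by
  set m := ⌊(w - w0) / H⌋₊
  refine ⟨min N m, min_le_left _ _, (range N).filter fun r => r = m ∨ r = m + 1,
    (Finset.card_le_card (t := {m, m + 1}) fun r hr => by simpa using (mem_filter.mp hr).2).trans
      card_le_two, fun i ϑ u => ?_⟩
  have h1 : ∀ r : ℕ, a0 ≤ w0 + r * H - H := fun r => by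
    have : 0 ≤ r * H := by positivity
    linarith
  rw [sum_congr rfl fun r _ => int_clamp (F.ii i r (ϑ r) u) hH
    (fun t ht => F.out i r _ u t (Or.inr ht)) (h1 r) w,
    ← sum_filter_add_sum_filter_not (range N) fun r => r < m]
  congr 1
  · refine sum_congr (by ext r; simp) fun r hr => ?_
    have h2 : r + 1 ≤ m := (mem_range.mp hr).trans_le (min_le_right _ _)
    have h3 := (Nat.le_floor_iff' (by omega)).mp h2
    rw [le_div_iff₀ hH] at h3
    push_cast at h3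
    rw [min_eq_right (by linarith), max_eq_right (by linarith), vv]
  · refine (sum_subset (fun r hr => ?_) fun r hr hr' => ?_).symm
    · simp only [mem_filter] at hr ⊢
      exact ⟨hr.1, by omega⟩
    · simp only [mem_filter] at hr hr'
      have h2 : m + 2 ≤ r := by
        have := hr.2
        have := not_and.mp hr' hr.1
        omega
      have h3 := Nat.lt_floor_add_one ((w - w0) / H)
      have h4 : (m : ℝ) + 2 ≤ r := by exact_mod_cast h2
      rw [div_lt_iff₀ hH] at h3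
      rw [max_eq_left ((min_le_left _ _).trans (by nlinarith)), intervalIntegral.integral_same]

lemma fam_bal (hB : BalStmt) : ∃ C : ℝ, 1 ≤ C ∧ ∀ (N1 N2 : ℕ) (n : ℕ → ℕ → ℂ → ℝ → ℝ → ℝ)
    (u0 w0 l H h W B Lb A a0 a1 b0 d : ℝ), Fam n u0 w0 l H h W B A → 0 < B → 0 < h → h ≤ W →
    0 < H → h ≤ l → l ≤ Lb → (∀ i < N1, |u0 + i * l| ≤ Lb) → 1 ≤ A →
    ((N1 * N2 : ℕ) : ℝ) ≤ Real.exp A → a0 ≤ w0 - H → w0 + N2 * H ≤ a1 → b0 ≤ u0 - l →
    C * B * H * Real.sqrt (l / h) * Real.log (2 + (N1 * N2 : ℕ) + Lb / h) ≤ d →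
    ∃ ϑ : ℕ → ℕ → ℂ, (∀ i r, ‖ϑ i r‖ ≤ A) ∧ ∀ f : ℝ → ℝ → ℝ,
      (∀ u w, f u w = ∑ i ∈ range N1, ∑ r ∈ range N2, n i r (ϑ i r) u w) →
      (∀ u w, |∫ b in a0..w, f u b| ≤ d) ∧
      (∀ u u' w, |(∫ b in a0..w, f u b) - ∫ b in a0..w, f u' b| ≤ d / h * |u - u'|) ∧
      (∀ u, |∫ a in b0..u, ∫ b in a0..a1, f a b| ≤ d * W) ∧
      ∀ u, u0 + N1 * l ≤ u → ∫ a in b0..u, ∫ b in a0..a1, f a b = 0 := by
  obtain ⟨C, hC, hB⟩ := hB
  refine ⟨272 * C, by linarith, fun N1 N2 n u0 w0 l H h W B Lb A a0 a1 b0 d F hB0 hh hW hH hl hLb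
    hx hA hT ha0 ha1 hb0 hd => ?_⟩
  have hl0 : 0 < l := hh.trans_le hl
  have hW0 : 0 < W := hh.trans_le hW
  have hd' : C * (2 * H * B) * Real.sqrt (l / h) * Real.log (2 + (N1 * N2 : ℕ) + Lb / h) ≤ d / 136 := by
    linarith
  have h2 : 2 * H * B ≤ d / 136 := by
    refine le_trans ?_ hd'
    have h3 : 1 ≤ Real.sqrt (l / h) := Real.one_le_sqrt.mpr ((one_le_div hh).mpr hl)
    have h4 : 1 ≤ Real.log (2 + (N1 * N2 : ℕ) + Lb / h) := by
      rw [Real.le_log_iff_exp_le (by have := hl0.trans_le hLb; positivity)]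
      have := (one_le_div hh).mpr (hl.trans hLb)
      have := Real.exp_one_lt_three
      have : (0 : ℝ) ≤ (N1 * N2 : ℕ) := Nat.cast_nonneg _
      linarith
    calc 2 * H * B = 1 * (2 * H * B) * 1 * 1 := by ring
      _ ≤ _ := by gcongr
  have hd0 : 0 ≤ d := by
    have : 0 < 2 * H * B := by positivity
    linarith
  obtain ⟨θ, h3, h4⟩ := hB (N1 * N2) (fun t k => if k = 0 then vv n w0 H (t / N2) (t % N2)
    else fun ϑ u => W⁻¹ * VV n u0 w0 l H (t / N2) (t % N2) ϑ u) (fun t => u0 + (t / N2 : ℕ) * l)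
    (2 * H * B) h l Lb A (d / 136) (by positivity) hh hl hLb hA hT
    (fun t ht => hx _ (Nat.div_lt_of_lt_mul (by rwa [mul_comm])))
    (fun t _ k ϑ u hu => by
      split_ifs
      · exact F.int_out _ _ ϑ hu _ _
      · simp only [F.V_out hh hH hl0 _ _ ϑ hu, mul_zero])
    (fun t _ k ϑ => by
      split_ifs
      exacts [F.v_d2 hh hH _ _ ϑ, F.V_d2 hh hW hH _ _ ϑ])
    (fun t _ k u => by
      split_ifs
      · exact ⟨(F.v_mea _ _).comp (by fun_prop : Measurable fun ϑ : ℂ => (ϑ, u)), F.v_mean hA _ _ u⟩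
      · exact ⟨(meas_int (F.v_mea _ _) _ _).const_mul _, F.V_mean hh hH hA _ _ u⟩) hd'
  set ϑ : ℕ → ℕ → ℂ := fun i r => θ (N2 * i + r) with hϑ
  have h5 : ∀ t, θ t = ϑ (t / N2) (t % N2) := fun t => by simp only [hϑ, Nat.div_add_mod]
  refine ⟨ϑ, fun i r => h3 _, fun f hf => ?_⟩
  have h6 : ∀ u w, ∫ b in a0..w, f u b =
      ∑ i ∈ range N1, ∑ r ∈ range N2, ∫ b in a0..w, n i r (ϑ i r) u b := fun u w => by
    simp only [hf]
    rw [intervalIntegral.integral_finsetSum fun i _ => ii_sum _ fun r => F.ii i r _ u a0 w]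
    exact sum_congr rfl fun i _ => intervalIntegral.integral_finsetSum fun r _ => F.ii i r _ u a0 w
  have key : ∀ w, ∀ i < N1,
      (∀ u, |∑ r ∈ range N2, ∫ b in a0..w, n i r (ϑ i r) u b| ≤ d / 4) ∧
      ∀ u u', |∑ r ∈ range N2, (∫ b in a0..w, n i r (ϑ i r) u b) -
        ∑ r ∈ range N2, ∫ b in a0..w, n i r (ϑ i r) u' b| ≤ d / 4 / h * |u - u'| := fun w i hi => by
    obtain ⟨r0, h7, s, h8, h9⟩ := F.rows hH N2 ha0 w
    have e1 : i * N2 + r0 ≤ N1 * N2 := by nlinarith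
    obtain ⟨p1, p2⟩ := h4 _ e1 0
    obtain ⟨p3, p4⟩ := h4 (i * N2) (by omega) 0
    simp only [if_true, h5] at p1 p2 p3 p4
    have e2 := fun u => sum_col (fun i r => vv n w0 H i r (ϑ i r) u) i h7
    have e3 := D2.sum s fun r _ => (F.d2 hh i r (ϑ i r) (a := w0 + r * H - H)
      (b := max (w0 + r * H - H) (min w (w0 + r * H + H))) (by
        rw [abs_of_nonneg (sub_nonneg.mpr (le_max_left _ _)), sub_le_iff_le_add]
        exact max_le (by linarith) ((min_le_right _ _).trans (by linarith)))).mono hh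
          (A0 := 16 * (d / 136)) (b' := 16 * (d / 136)) ?_ ?_
    · have e4 : (s.card : ℝ) ≤ 2 := by exact_mod_cast h8
      simp only [sum_const, nsmul_eq_mul] at e3
      refine ⟨fun u => ?_, fun u u' => ?_⟩
      · have q1 := abs_le.mp (p1 u)
        have q2 := abs_le.mp (p3 u)
        have q3 := abs_le.mp ((e3.b0 u).trans (mul_le_mul_of_nonneg_right e4 (by positivity)))
        rw [e2] at q1
        rw [h9, abs_le]
        constructor <;> linarith
      · have q1 := abs_le.mp (p2 u u')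
        have q2 := abs_le.mp (p4 u u')
        have q3 := abs_le.mp ((e3.b1 u u').trans (mul_le_mul_of_nonneg_right
          (mul_le_mul_of_nonneg_right e4 (by positivity)) (norm_nonneg _)))
        have q4 : d / 4 / h * |u - u'| = 2 * (d / 136 / h * |u - u'|) +
          2 * (16 * (d / 136) / h) * ‖u - u'‖ := by rw [Real.norm_eq_abs]; ring
        rw [e2, e2] at q1
        rw [h9, h9, abs_le, q4]
        constructor <;> linarith
    all_goals
      have q1 : (1 + ‖ϑ i r‖ / A) ^ 4 ≤ 2 ^ 4 := by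
        have : ‖ϑ i r‖ / A ≤ 1 := (div_le_one (by linarith)).mpr (h3 _)
        gcongr
        linarith
      calc _ ≤ d / 136 * 2 ^ 4 := by gcongr
        _ = _ := by ring
  have ov := fun w => ovl_cols (u0 := u0) hl0 N1
    (G := fun i u => ∑ r ∈ range N2, ∫ b in a0..w, n i r (ϑ i r) u b)
    fun i u hu => sum_eq_zero fun r _ => F.int_out i r _ hu _ _
  have h7 : ∀ u, ∫ a in b0..u, ∫ b in a0..a1, f a b =
      ∑ i ∈ range N1, ∑ r ∈ range N2, VV n u0 w0 l H i r (ϑ i r) u := fun u => by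
    have e1 : ∀ a, ∫ b in a0..a1, f a b =
        ∑ i ∈ range N1, ∑ r ∈ range N2, vv n w0 H i r (ϑ i r) a := fun a => by
      rw [h6]
      refine sum_congr rfl fun i _ => sum_congr rfl fun r hr => ?_
      have q1 : (r : ℝ) + 1 ≤ N2 := by exact_mod_cast mem_range.mp hr
      have q2 : 0 ≤ r * H := by positivity
      rw [int_clamp (F.ii i r _ a) hH (fun t ht => F.out i r _ a t (Or.inr ht)) (by linarith),
        min_eq_right (by nlinarith), max_eq_right (by linarith), vv]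
    have e2 := fun i r => (F.v_d2 hh hH i r (ϑ i r)).continuous.intervalIntegrable (μ := volume) b0 u
    simp only [e1]
    rw [intervalIntegral.integral_finsetSum fun i _ => ii_sum _ (e2 i)]
    refine sum_congr rfl fun i _ => ?_
    rw [intervalIntegral.integral_finsetSum fun r _ => e2 i r]
    refine sum_congr rfl fun r _ => ?_
    have q2 : 0 ≤ i * l := by positivity
    rw [VV, F.V_eq hh hH hl0 i r _ le_rfl, F.V_eq hh hH hl0 i r _ (by linarith)]
  refine ⟨fun u w => ?_, fun u u' w => ?_, fun u => ?_, fun u hu => ?_⟩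
  · rw [h6]
    refine ((ov w).sup (B := d / 4) (by positivity) (fun i x => ?_) u).trans (by push_cast; linarith)
    split_ifs with hi
    · exact (key w i hi).1 x
    · rw [norm_zero]; positivity
  · rw [h6, h6]
    refine ((ov w).lip (B := d / 4 / h) (by positivity) (fun i x y => ?_) u u').trans_eq
      (by rw [Real.norm_eq_abs]; push_cast; ring)
    split_ifs with hi
    · exact (key w i hi).2 x y
    · rw [sub_zero, norm_zero]; positivity
  · have e1 := (h4 _ le_rfl 1).1 u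
    simp only [one_ne_zero, if_false, h5, ← mul_sum] at e1
    rw [sum_all fun i r => VV n u0 w0 l H i r (ϑ i r) u, abs_mul, abs_of_pos (inv_pos.mpr hW0),
      inv_mul_le_iff₀ hW0] at e1
    rw [h7]
    nlinarith
  · rw [h7]
    refine sum_eq_zero fun i hi => sum_eq_zero fun r _ => F.V_out hh hH hl0 i r _ ?_
    have q1 : (i : ℝ) + 1 ≤ N1 := by exact_mod_cast mem_range.mp hi
    exact le_abs.mpr (Or.inl (by nlinarith))

end
end Stg
end Pool.Agent.MP_20bec2_an.Pl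

end MrgPart1

-- ======== part 2: formerly Pool.Agent.MP_20bec2_an.Pl.Wig
section MrgPart2

set_option autoImplicit false
open MeasureTheory Set Complex Filter Topology

namespace Pool.Agent.MP_20bec2_an.Pl
namespace Wig
noncomputable section

/-- sum of the windows of one parity -/
def par (N r : ℕ) (t : ℝ) : ℝ := ∑ i : Fin N, if i.val % 2 = r then chi (t - i.val) else 0

lemma par_single {N r : ℕ} {t : ℝ} {i0 : ℕ} (hi : i0 < N) (hr : i0 % 2 = r)
    (h : ∀ i : ℕ, i % 2 = r → i ≠ i0 → chi (t - i) = 0) : par N r t = chi (t - i0) := by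
  unfold par
  rw [Finset.sum_eq_single (⟨i0, hi⟩ : Fin N)]
  · rw [if_pos hr]
  · intro i _ hne
    split_ifs with h1
    · exact h i h1 fun e => hne (Fin.ext e)
    · rfl
  · intro hh; exact absurd (Finset.mem_univ _) hh

lemma par_sq {N : ℕ} {t : ℝ} (h0 : 0 ≤ t) (hN : ⌊t⌋₊ + 1 < N) :
    par N 0 t ^ 2 + par N 1 t ^ 2 = 1 := by
  have f1 := Nat.floor_le h0
  have f2 := Nat.lt_floor_add_one t
  generalize ⌊t⌋₊ = n at *
  have far : ∀ i : ℕ, i ≠ n → i ≠ n + 1 → chi (t - i) = 0 := by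
    intro i a b
    apply chi_zero
    rcases lt_or_gt_of_ne a with c | c
    · have : (i : ℝ) + 1 ≤ n := by exact_mod_cast c
      exact le_abs.2 (Or.inl (by linarith))
    · have : (n : ℝ) + 2 ≤ i := by exact_mod_cast (show n + 2 ≤ i by omega)
      exact le_abs.2 (Or.inr (by linarith))
  have key := chi_sq (t := t - n) (by linarith) (by linarith)
  have e : t - n - 1 = t - ((n + 1 : ℕ) : ℝ) := by push_cast; ring
  rw [e] at key
  rcases Nat.mod_two_eq_zero_or_one n with hn | hn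
  · rw [par_single (i0 := n) (by omega) hn fun i a b => far i b (by omega),
      par_single (i0 := n + 1) hN (by omega) fun i a b => far i (by omega) b, key]
  · rw [par_single (i0 := n + 1) hN (by omega) fun i a b => far i (by omega) b,
      par_single (i0 := n) (by omega) hn fun i a b => far i b (by omega), add_comm, key]

lemma par_diff (N r : ℕ) : Differentiable ℝ (par N r) := by
  unfold par
  refine Differentiable.fun_sum fun i _ => ?_
  split_ifs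
  · exact (contDiff_chi.differentiable (by simp)).comp (differentiable_id.sub_const _)
  · exact differentiable_const _

/-- amplitude of colour `j` -/
def kap (N1 N2 : ℕ) (W L l H : ℝ) (a : ℂ → ℝ) (y : ℂ → ℂ) (j : ℕ) (p : ℂ) : ℝ :=
  W * a (y p) * (par N1 (j % 2) ((p.re + L) / l) * par N2 (j / 2) ((p.im + L) / H))

/-- one value for each colour -/
def four {N1 N2 : ℕ} (a b c d : ℂ) : Fin N1 × Fin N2 → ℂ :=
  setc 3 (setc 2 (setc 1 (setc 0 0 a) b) c) d

lemma wig_four {N1 N2 : ℕ} {W L l H : ℝ} (hl : 0 < l) (hH : 0 < H) (a : ℂ → ℝ) (y : ℂ → ℂ)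
    (o0 o1 o2 o3 p : ℂ) : wig W L l H a y (four (N1 := N1) (N2 := N2) o0 o1 o2 o3) p =
      kap N1 N2 W L l H a y 0 p • o0 + kap N1 N2 W L l H a y 1 p • o1 +
        kap N1 N2 W L l H a y 2 p • o2 + kap N1 N2 W L l H a y 3 p • o3 := by
  have e1 : ∀ i : ℕ, (p.re - (-L + i * l)) / l = (p.re + L) / l - i := fun i => by
    field_simp; ring
  have e2 : ∀ i : ℕ, (p.im - (-L + i * H)) / H = (p.im + L) / H - i := fun i => by
    field_simp; ring
  have pr : ∀ r s : ℕ, par N1 r ((p.re + L) / l) * par N2 s ((p.im + L) / H) =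
      ∑ k : Fin N1 × Fin N2, (if k.1.val % 2 = r then chi ((p.re + L) / l - k.1.val) else 0) *
        (if k.2.val % 2 = s then chi ((p.im + L) / H - k.2.val) else 0) := fun r s => by
    rw [par, par, Finset.sum_mul_sum, Fintype.sum_prod_type]
  simp only [wig, kap, e1, e2, pr, mul_smul (W * a (y p)), ← smul_add, Finset.sum_smul,
    ← Finset.sum_add_distrib]
  congr 1
  refine Finset.sum_congr rfl fun k _ => ?_
  rcases Nat.mod_two_eq_zero_or_one k.1.val with h1 | h1 <;>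
  rcases Nat.mod_two_eq_zero_or_one k.2.val with h2 | h2 <;>
  simp [four, setc, colr, h1, h2]

lemma kap_sq {N1 N2 : ℕ} {W L l H : ℝ} (hl : 0 < l) (hH : 0 < H) (h1 : ⌈2 * L / l⌉₊ < N1)
    (h2 : ⌈2 * L / H⌉₊ < N2) {a : ℂ → ℝ} {y : ℂ → ℂ} (ho : ∀ p, Out L p → a (y p) = 0) (p : ℂ) :
    ∑ j ∈ Finset.range 4, kap N1 N2 W L l H a y j p ^ 2 = (W * a (y p)) ^ 2 := by
  by_cases hp : Out L p
  · simp [kap, ho p hp]
  simp only [Out, not_or, not_le, abs_lt] at hp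
  have key : ∀ (N : ℕ) (s u : ℝ), 0 < s → ⌈2 * L / s⌉₊ < N → -L < u → u < L →
      par N 0 ((u + L) / s) ^ 2 + par N 1 ((u + L) / s) ^ 2 = 1 := by
    intro N s u hs hN a1 a2
    have h0 : 0 ≤ (u + L) / s := div_nonneg (by linarith) hs.le
    refine par_sq h0 ?_
    have : ⌊(u + L) / s⌋₊ < ⌈2 * L / s⌉₊ := by
      rw [Nat.lt_ceil]
      exact (Nat.floor_le h0).trans_lt (div_lt_div_of_pos_right (by linarith) hs)
    omega
  have k1 := key N1 l p.re hl h1 hp.1.1 hp.1.2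
  have k2 := key N2 H p.im hH h2 hp.2.1 hp.2.2
  simp only [Finset.sum_range_succ, Finset.sum_range_zero, kap]
  norm_num
  generalize par N1 0 _ = A0 at *
  generalize par N1 1 _ = A1 at *
  generalize par N2 0 _ = B0 at *
  generalize par N2 1 _ = B1 at *
  linear_combination (W * a (y p)) ^ 2 * (B0 ^ 2 + B1 ^ 2) * k1 + (W * a (y p)) ^ 2 * k2

lemma kap_diff {N1 N2 : ℕ} {W L l H : ℝ} {a : ℂ → ℝ} {y : ℂ → ℂ} (ha : Differentiable ℝ a)
    (hy : Differentiable ℝ y) (j : ℕ) : Differentiable ℝ (kap N1 N2 W L l H a y j) := by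
  have r1 : Differentiable ℝ fun p : ℂ => (p.re + L) / l := by
    simp only [div_eq_mul_inv]; exact (reCLM.differentiable.add_const L).mul_const _
  have r2 : Differentiable ℝ fun p : ℂ => (p.im + L) / H := by
    simp only [div_eq_mul_inv]; exact (imCLM.differentiable.add_const L).mul_const _
  exact ((ha.comp hy).const_mul W).mul
    (((par_diff _ _).comp r1).mul ((par_diff _ _).comp r2))

lemma cramer (A : ℂ →L[ℝ] ℝ) (W : ℝ) (Y1 Y2 θ : ℂ) :
    wd (Y1 + (W * A Y1) • θ) (Y2 + (W * A Y2) • θ) = (1 + W * A θ) * wd Y1 Y2 := by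
  rw [clm_apply A Y1, clm_apply A Y2, clm_apply A θ]
  simp [wd]; ring

/-- the full average is the pull-back of the averaged density -/
lemma mean_eq (h3 : MeanStmt) {N1 N2 : ℕ} {W L l H B : ℝ} (hW : 0 ≤ W) (hl : 0 < l) (hH : 0 < H)
    (h1 : ⌈2 * L / l⌉₊ < N1) (h2 : ⌈2 * L / H⌉₊ < N2) {g a : ℂ → ℝ} {y : ℂ → ℂ}
    (hg : Continuous g) (hB : ∀ x, |g x| ≤ B) (ha : Differentiable ℝ a) (hy : Differentiable ℝ y)
    (a0 : ∀ x, 0 ≤ a x) (ho : ∀ p, Out L p → a (y p) = 0) (p : ℂ) :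
    ∫ o0, ∫ o1, ∫ o2, ∫ o3, pb g (fun p => y p +
      wig W L l H a y (four (N1 := N1) (N2 := N2) o0 o1 o2 o3) p) p ∂gam ∂gam ∂gam ∂gam =
      pb (GG W a g) y p := by
  set κ := kap N1 N2 W L l H a y with hκ
  have dκ : ∀ j, HasFDerivAt (κ j) (fderiv ℝ (κ j) p) p := fun j =>
    (kap_diff ha hy j p).hasFDerivAt
  have d0 : HasFDerivAt (fun p => W * a (y p))
      (W • (fderiv ℝ a (y p)).comp (fderiv ℝ y p)) p :=
    ((ha (y p)).hasFDerivAt.comp p (hy p).hasFDerivAt).const_mul W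
  have e1 : ∀ o0 o1 o2 o3 : ℂ, pb g (fun p => y p +
      wig W L l H a y (four (N1 := N1) (N2 := N2) o0 o1 o2 o3) p) p =
      g (y p + (κ 0 p • o0 + κ 1 p • o1 + κ 2 p • o2 + κ 3 p • o3)) *
        wd (fderiv ℝ y p 1 + (fderiv ℝ (κ 0) p 1 • o0 + fderiv ℝ (κ 1) p 1 • o1 +
            fderiv ℝ (κ 2) p 1 • o2 + fderiv ℝ (κ 3) p 1 • o3))
          (fderiv ℝ y p I + (fderiv ℝ (κ 0) p I • o0 + fderiv ℝ (κ 1) p I • o1 +
            fderiv ℝ (κ 2) p I • o2 + fderiv ℝ (κ 3) p I • o3)) := by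
    intro o0 o1 o2 o3
    simp only [wig_four hl hH, pb, jac, ← hκ]
    have := (hy p).hasFDerivAt.add (((((dκ 0).smul_const o0).add ((dκ 1).smul_const o1)).add
      ((dκ 2).smul_const o2)).add ((dκ 3).smul_const o3))
    erw [this.fderiv]
    simp only [add_apply, ContinuousLinearMap.smulRight_apply]
  have e2 : ∀ v, ∑ j ∈ Finset.range 4, κ j p * fderiv ℝ (κ j) p v =
      W * a (y p) * (W * fderiv ℝ a (y p) (fderiv ℝ y p v)) := by
    intro v
    have s1 : HasFDerivAt (fun q => ∑ j ∈ Finset.range 4, κ j q * κ j q) _ p :=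
      HasFDerivAt.fun_sum fun j _ => (dκ j).mul (dκ j)
    have s2 : (fun q => ∑ j ∈ Finset.range 4, κ j q * κ j q) =
        fun q => (W * a (y q)) * (W * a (y q)) := by
      funext q
      simpa only [sq] using kap_sq (W := W) hl hH h1 h2 ho q
    rw [s2] at s1
    have s3 := congrArg (fun A : ℂ →L[ℝ] ℝ => A v) (s1.unique (d0.mul d0))
    simp only [Finset.sum_range_succ, Finset.sum_range_zero, add_apply, smul_apply, zero_apply,
      ContinuousLinearMap.comp_apply, smul_eq_mul] at s3 ⊢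
    linarith
  simp only [e1]
  rw [h3 g B hg hB (y p) _ _ (fun j => κ j p) (fun j => fderiv ℝ (κ j) p 1)
    (fun j => fderiv ℝ (κ j) p I) (W * a (y p)) _ _ (mul_nonneg hW (a0 _))
    (kap_sq hl hH h1 h2 ho p) (e2 1) (e2 I) ?_]
  · simp only [cramer, pb, GG, jac, ← mul_assoc]
    exact integral_mul_const _ _
  · intro e
    rcases mul_eq_zero.1 e with e | e
    · simp [e]
    · have : fderiv ℝ a (y p) = 0 :=
        IsLocalMin.fderiv_eq_zero (Eventually.of_forall fun x => by rw [e]; exact a0 x)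
      simp [this]

lemma adm_ii {N1 N2 : ℕ} {J : (Fin N1 × Fin N2 → ℂ) → ℝ → ℝ → ℝ} {u0 w0 l H h W M : ℝ}
    (hJ : Adm J u0 w0 l H h W M) (θ : Fin N1 × Fin N2 → ℂ) (u a b : ℝ) :
    IntervalIntegrable (fun w => J θ u w) volume a b := by
  have hm : Measurable fun w => J θ u w :=
    hJ.mea.comp (measurable_const.prodMk (measurable_const.prodMk measurable_id) :
      Measurable fun w : ℝ => ((θ, u, w) : (Fin N1 × Fin N2 → ℂ) × ℝ × ℝ))
  exact (intervalIntegrable_const (c := M * (1 + ‖θ‖) ^ 4)).mono_fun' hm.aestronglyMeasurable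
    (Eventually.of_forall fun w => (hJ.reg θ w).b0 u)

/-- the conclusions of the selection step -/
structure Sel (e : ℝ → ℝ → ℝ) (a0 a1 b0 u1 d τ m : ℝ) : Prop where
  ii : ∀ u a b, IntervalIntegrable (e u) volume a b
  sup : ∀ u w, |∫ b in a0..w, e u b| ≤ d
  lip : ∀ u u' w, |(∫ b in a0..w, e u b) - ∫ b in a0..w, e u' b| ≤ τ * |u - u'|
  ms : ∀ u, |∫ a in b0..u, ∫ b in a0..a1, e a b| ≤ m
  tot : ∀ u, u1 ≤ u → ∫ a in b0..u, ∫ b in a0..a1, e a b = 0

lemma Sel.cont {e : ℝ → ℝ → ℝ} {a0 a1 b0 u1 d τ m : ℝ} (h : Sel e a0 a1 b0 u1 d τ m) (w : ℝ) :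
    Continuous fun u => ∫ b in a0..w, e u b :=
  (LipschitzWith.of_dist_le' (K := τ) fun u u' => by
    rw [Real.dist_eq, Real.dist_eq]; exact h.lip u u' w).continuous

lemma Sel.add {e e' : ℝ → ℝ → ℝ} {a0 a1 b0 u1 d τ m d' τ' m' : ℝ} (h : Sel e a0 a1 b0 u1 d τ m)
    (h' : Sel e' a0 a1 b0 u1 d' τ' m') :
    Sel (fun u w => e u w + e' u w) a0 a1 b0 u1 (d + d') (τ + τ') (m + m') := by
  have s : ∀ u w, ∫ b in a0..w, (e u b + e' u b) = (∫ b in a0..w, e u b) + ∫ b in a0..w, e' u b :=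
    fun u w => intervalIntegral.integral_add (h.ii u _ _) (h'.ii u _ _)
  have s2 : ∀ u, ∫ a in b0..u, ∫ b in a0..a1, (e a b + e' a b) =
      (∫ a in b0..u, ∫ b in a0..a1, e a b) + ∫ a in b0..u, ∫ b in a0..a1, e' a b := fun u => by
    simp only [s]
    exact intervalIntegral.integral_add ((h.cont a1).intervalIntegrable _ _)
      ((h'.cont a1).intervalIntegrable _ _)
  refine ⟨fun u a b => (h.ii u a b).add (h'.ii u a b), fun u w => ?_, fun u u' w => ?_,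
    fun u => ?_, fun u hu => ?_⟩
  · rw [s]; exact (abs_add_le _ _).trans (add_le_add (h.sup u w) (h'.sup u w))
  · rw [s, s, add_sub_add_comm, add_mul]
    exact (abs_add_le _ _).trans (add_le_add (h.lip u u' w) (h'.lip u u' w))
  · rw [s2]; exact (abs_add_le _ _).trans (add_le_add (h.ms u) (h'.ms u))
  · rw [s2, h.tot u hu, h'.tot u hu, add_zero]

lemma int_zero {f : ℝ → ℝ} {L a b : ℝ} (h : ∀ t, L ≤ |t| → f t = 0)
    (hab : (a ≤ -L ∧ b ≤ -L) ∨ (L ≤ a ∧ L ≤ b)) : ∫ t in a..b, f t = 0 := by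
  rw [intervalIntegral.integral_congr (g := fun _ => 0), intervalIntegral.integral_zero]
  intro t ht
  refine h t (le_abs.2 ?_)
  rcases hab with hab | hab
  · exact Or.inr (by have := ht.2; have := max_le hab.1 hab.2; linarith)
  · exact Or.inl (by have := ht.1; have := le_min hab.1 hab.2; linarith)

lemma Sel.bal {δ : ℂ → ℝ} {L a0 a1 b0 u1 d τ m : ℝ}
    (h : Sel (fun u w => δ ⟨u, w⟩) a0 a1 b0 u1 d τ m) (ho : ∀ p, Out L p → δ p = 0)
    (h0 : a0 ≤ -L) (h1 : L ≤ a1) (h2 : b0 ≤ -L) (h3 : L ≤ u1) : Bal δ L 0 0 d τ m := by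
  have c1 : ∀ u w, col δ (-L) u w = ∫ b in a0..w, δ ⟨u, b⟩ := fun u w => by
    rw [← intervalIntegral.integral_add_adjacent_intervals (h.ii u a0 (-L)) (h.ii u (-L) w),
      int_zero (fun t ht => ho ⟨u, t⟩ (Or.inr ht)) (Or.inl ⟨h0, le_rfl⟩), zero_add, col]
  have c2 : ∀ u, col δ (-L) u L = ∫ b in a0..a1, δ ⟨u, b⟩ := fun u => by
    rw [← intervalIntegral.integral_add_adjacent_intervals (h.ii u a0 L) (h.ii u L a1),
      int_zero (f := fun b => δ ⟨u, b⟩) (a := L) (fun t ht => ho ⟨u, t⟩ (Or.inr ht))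
        (Or.inr ⟨le_rfl, h1⟩), add_zero, c1]
  have z : ∀ t, L ≤ |t| → ∫ b in a0..a1, δ ⟨t, b⟩ = 0 := fun t ht => by
    simp only [fun b => ho ⟨t, b⟩ (Or.inl ht), intervalIntegral.integral_zero]
  have ic := fun a b => (h.cont a1).intervalIntegrable (μ := volume) a b
  have c3 : ∀ u, mas δ L u = ∫ a in b0..u, ∫ b in a0..a1, δ ⟨a, b⟩ := fun u => by
    rw [← intervalIntegral.integral_add_adjacent_intervals (ic b0 (-L)) (ic (-L) u),
      int_zero z (Or.inl ⟨h2, le_rfl⟩), zero_add, mas]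
    simp only [c2]
  refine ⟨ho, fun u w => ?_, fun u u' w => ?_, fun u w => hasDerivAt_const u (0 : ℝ),
    fun u => rfl, fun u => ?_, ?_⟩
  · rw [c1]; exact h.sup u w
  · simp only [c1, Pi.zero_apply, sub_zero]; exact h.lip u u' w
  · rw [c3]; exact h.ms u
  · have := h.tot u1 le_rfl
    rwa [← intervalIntegral.integral_add_adjacent_intervals (ic b0 L) (ic L u1),
      int_zero (a := L) z (Or.inr ⟨le_rfl, h3⟩), add_zero, ← c3] at this

lemma out_zero {L W : ℝ} {g a : ℂ → ℝ} {y ψ : ℂ → ℂ} (hy : Differentiable ℝ y)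
    (hψ : Differentiable ℝ ψ) (hc : Continuous (fderiv ℝ ψ)) (h0 : ∀ p, Out L p → ψ p = 0)
    (a0 : ∀ x, 0 ≤ a x) (ho : ∀ p, Out L p → a (y p) = 0) {p : ℂ} (hp : Out L p) :
    pb g (fun p => y p + ψ p) p - pb (GG W a g) y p = 0 := by
  have e1 : fderiv ℝ (fun p => y p + ψ p) p = fderiv ℝ y p := by
    rw [fderiv_fun_add (hy p) (hψ p), fderiv_out hc h0 hp, add_zero]
  have e2 : fderiv ℝ a (y p) = 0 :=
    IsLocalMin.fderiv_eq_zero (Eventually.of_forall fun x => by rw [ho p hp]; exact a0 x)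
  have : IsProbabilityMeasure gam := by unfold gam; infer_instance
  simp [pb, jac, GG, e1, e2, h0 p hp, ho p hp]

lemma log_le {x N : ℝ} (hx : 1 ≤ x) (hN0 : 0 ≤ N) (hN : N ≤ 16 * x ^ 2) :
    Real.log (2 + N + 2 * x) ≤ 4 * Real.log (2 + x) := by
  have : 4 * Real.log (2 + x) = Real.log ((2 + x) ^ 4) := by rw [Real.log_pow]; norm_num
  rw [this]
  refine Real.log_le_log (by linarith) ?_
  have : 0 ≤ x ^ 3 := by positivity
  have : 0 ≤ x ^ 4 := by positivity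
  nlinarith

end
end Wig

open Wig in
theorem wig_of (h1 : AvgStmt) (h2 : StgStmt) (h3 : MeanStmt) (h4 : JadmStmt) : WigStmt := by
  intro Ca hCa
  obtain ⟨CA, hCA, hA⟩ := h1
  obtain ⟨CS, hCS, hS⟩ := h2
  obtain ⟨CJ, hCJ, hJ⟩ := h4 Ca hCa
  have c3 : 1 ≤ CA ^ 3 := one_le_pow₀ hCA
  have cC : CJ ≤ 16 * CS * CA ^ 3 * CJ := by
    have : 1 ≤ CS * CA ^ 3 := one_le_mul_of_one_le_of_one_le hCS c3
    nlinarith
  refine ⟨16 * CS * CA ^ 3 * CJ, hCJ.trans cC, ?_⟩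
  intro g a y h W H l L A d hh hW hH hl hL hA1 hexp hg hy a0 ha2 ha3 ho hd
  have W0 : 0 < W := hh.trans_le hW
  have H0 : 0 < H := W0.trans_le hH
  have l0 : 0 < l := H0.trans_le hl
  have L0 : 0 < L := l0.trans_le hL
  have hhl : h ≤ l := hW.trans (hH.trans hl)
  set N1 := ⌈2 * L / l⌉₊ + 1 with hN1
  set N2 := ⌈2 * L / H⌉₊ + 1 with hN2
  obtain ⟨hw, J4⟩ := hJ N1 N2 g a y h W H l L hh hW hH hl hL hg hy ha2 ha3
  set J : (Fin N1 × Fin N2 → ℂ) → ℝ → ℝ → ℝ :=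
    fun θ u w => pb g (fun p => y p + wig W L l H a y θ p) ⟨u, w⟩ with hJd
  have J3 := hA N1 N2 _ _ _ _ _ _ _ _ 3 hh l0 H0 W0 (by positivity) J4
  have J2 := hA N1 N2 _ _ _ _ _ _ _ _ 2 hh l0 H0 W0 (by positivity) J3
  have J1 := hA N1 N2 _ _ _ _ _ _ _ _ 1 hh l0 H0 W0 (by positivity) J2
  have x1 : 1 ≤ L / h := (one_le_div hh).2 (hhl.trans hL)
  have bN : ∀ s : ℝ, h ≤ s → s ≤ L →
      2 * L ≤ ((⌈2 * L / s⌉₊ + 1 : ℕ) : ℝ) * s ∧ ((⌈2 * L / s⌉₊ : ℕ) : ℝ) * s ≤ 3 * L ∧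
      ((⌈2 * L / s⌉₊ + 1 : ℕ) : ℝ) ≤ 4 * (L / h) := by
    intro s s1 s2
    have s0 : 0 < s := hh.trans_le s1
    have a1 := Nat.le_ceil (2 * L / s)
    have a2 := Nat.ceil_lt_add_one (show 0 ≤ 2 * L / s by positivity)
    have a3 : 2 * L / s * s = 2 * L := by field_simp
    have a4 : L / s ≤ L / h := div_le_div_of_nonneg_left L0.le hh s1
    have a5 : 2 * L / s = 2 * (L / s) := by ring
    push_cast
    exact ⟨by nlinarith, by nlinarith, by linarith⟩
  obtain ⟨n1a, n1b, n1c⟩ := bN l hhl hL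
  obtain ⟨n2a, -, n2c⟩ := bN H (hW.trans hH) (hl.trans hL)
  rw [← hN1] at n1a n1c
  rw [← hN2] at n2a n2c
  have nN : ((N1 * N2 : ℕ) : ℝ) ≤ 16 * (L / h) ^ 2 := by
    push_cast
    have := mul_le_mul n1c n2c (Nat.cast_nonneg _) (by positivity)
    linarith
  have sel : ∀ (K : (Fin N1 × Fin N2 → ℂ) → ℝ → ℝ → ℝ) (M : ℝ) (j : ℕ)
      (θ : Fin N1 × Fin N2 → ℂ), Adm K (-L) (-L) l H h W M → 0 < M → M ≤ CA ^ 3 * CJ → ‖θ‖ ≤ A →
      ∃ θ' : Fin N1 × Fin N2 → ℂ, ‖θ'‖ ≤ A ∧ Sel (fun u w => K θ' u w - avg j K θ u w)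
        (-L - H) (-L + N2 * H) (-L - l) (-L + N1 * l) (d / 4) (d / 4 / h) (d / 4 * W) := by
    intro K M j θ hK M0 M1 hθ
    obtain ⟨θ', t1, -, t2, t3, t4, t5⟩ := hS N1 N2 K (-L) (-L) l H h W M (2 * L) A (-L - H)
      (-L + N2 * H) (-L - l) (d / 4) j θ hK M0 hh hW H0 hhl (by linarith) (fun i hi => by
        have : (i : ℝ) ≤ ⌈2 * L / l⌉₊ := by exact_mod_cast (show i ≤ _ by omega)
        have i0 : 0 ≤ (i : ℝ) * l := by positivity
        rw [abs_le]; constructor <;> nlinarith) hA1 (nN.trans hexp) hθ le_rfl le_rfl le_rfl (by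
        have k1 := log_le x1 (Nat.cast_nonneg (N1 * N2)) nN
        rw [← mul_div_assoc] at k1
        have k0 : 0 ≤ Real.log (2 + L / h) := Real.log_nonneg (by linarith)
        calc _ ≤ CS * (CA ^ 3 * CJ) * H * A ^ 4 * Real.sqrt (l / h) *
              (4 * Real.log (2 + L / h)) := by
              have : 0 ≤ Real.log (2 + ((N1 * N2 : ℕ) : ℝ) + 2 * L / h) :=
                Real.log_nonneg (by
                  have : 0 ≤ ((N1 * N2 : ℕ) : ℝ) := Nat.cast_nonneg _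
                  have : 0 ≤ 2 * L / h := by positivity
                  linarith)
              gcongr
          _ = 16 * CS * CA ^ 3 * CJ * A ^ 4 * H * Real.sqrt (l / h) *
              Real.log (2 + L / h) / 4 := by ring
          _ ≤ d / 4 := by linarith)
    exact ⟨θ', t1, fun u a b => (adm_ii hK θ' u a b).sub
      (adm_ii (hA N1 N2 _ _ _ _ _ _ _ _ j hh l0 H0 W0 M0.le hK) θ u a b), t2, t3, t4, t5⟩
  have CA0 : 0 < CA := by linarith
  have CJ0 : 0 < CJ := by linarith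
  have m2 : CA * (CA * CJ) ≤ CA * (CA * (CA * CJ)) :=
    le_mul_of_one_le_left (by positivity) hCA
  have m1 : CA * CJ ≤ CA * (CA * CJ) := le_mul_of_one_le_left (by positivity) hCA
  have m0 : CJ ≤ CA * CJ := le_mul_of_one_le_left (by positivity) hCA
  have m3 : CA * (CA * (CA * CJ)) = CA ^ 3 * CJ := by ring
  obtain ⟨θ1, b1, s1⟩ := sel _ _ 0 0 J1 (by positivity) m3.le (by simp; linarith)
  obtain ⟨θ2, b2, s2⟩ := sel _ _ 1 θ1 J2 (by positivity) (by linarith) b1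
  obtain ⟨θ3, b3, s3⟩ := sel _ _ 2 θ2 J3 (by positivity) (by linarith) b2
  obtain ⟨θ4, b4, s4⟩ := sel _ _ 3 θ3 J4 (by positivity) (by linarith) b3
  obtain ⟨w1, w2, w3⟩ := hw θ4
  have z0 : ∀ p, Out L p → wig W L l H a y θ4 p = 0 := fun p hp => by simp [wig, ho p hp]
  have cb : CJ * ‖θ4‖ * W ≤ 16 * CS * CA ^ 3 * CJ * A * W := by gcongr
  refine ⟨wig W L l H a y θ4, z0, fun p => (w1 p).trans cb,
    w2.mono (by gcongr) (by gcongr) (by gcongr), fun p => (w3 p).trans (by gcongr), ?_⟩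
  have s := ((s1.add s2).add s3).add s4
  have e : (fun u w => avg 1 (avg 2 (avg 3 J)) θ1 u w - avg 0 (avg 1 (avg 2 (avg 3 J))) 0 u w +
      (avg 2 (avg 3 J) θ2 u w - avg 1 (avg 2 (avg 3 J)) θ1 u w) +
      (avg 3 J θ3 u w - avg 2 (avg 3 J) θ2 u w) + (J θ4 u w - avg 3 J θ3 u w)) =
      fun u w => pb g (fun p => y p + wig W L l H a y θ4 p) ⟨u, w⟩ - pb (GG W a g) y ⟨u, w⟩ := by
    funext u w
    rw [← mean_eq h3 (N1 := N1) (N2 := N2) W0.le l0 H0 (by omega) (by omega) hg.continuous hg.b0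
      ha3.df hy.df a0 ho ⟨u, w⟩]
    have : avg 0 (avg 1 (avg 2 (avg 3 J))) 0 u w = ∫ o0, ∫ o1, ∫ o2, ∫ o3, pb g (fun p => y p +
      wig W L l H a y (four (N1 := N1) (N2 := N2) o0 o1 o2 o3) p) ⟨u, w⟩ ∂gam ∂gam ∂gam ∂gam := rfl
    rw [← this]
    simp only [hJd]
    ring
  rw [e, show d / 4 + d / 4 + d / 4 + d / 4 = d by ring,
    show d / 4 / h + d / 4 / h + d / 4 / h + d / 4 / h = d / h by ring,
    show d / 4 * W + d / 4 * W + d / 4 * W + d / 4 * W = d * W by ring] at s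
  exact Sel.bal (δ := fun p => pb g (fun p => y p + wig W L l H a y θ4 p) p - pb (GG W a g) y p) s
    (fun p hp => out_zero hy.df w2.df w2.d2.continuous z0 a0 ho hp) (by linarith) (by linarith)
    (by linarith) (by linarith)

end Pool.Agent.MP_20bec2_an.Pl

end MrgPart2

-- ======== part 3: formerly Pool.Agent.MP_20bec2_an.Pl.Gp
section MrgPart3

set_option autoImplicit false
open MeasureTheory Set Complex Filter Topology

namespace Pool.Agent.MP_20bec2_an.Pl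
noncomputable section

namespace Gp

/-- the universal weight -/
def mm (θ : ℂ) : ℝ := (1 + ‖θ‖) ^ 5
/-- its mean -/
def C0 : ℝ := ∫ θ, mm θ ∂gam

lemma mm_int : Integrable mm gam := gam_pow 5

lemma one_le_mm (θ : ℂ) : 1 ≤ mm θ := one_le_pow₀ (by linarith [norm_nonneg θ])

lemma one_le_C0 : 1 ≤ C0 := by
  have := integral_mono (integrable_const (1 : ℝ)) mm_int one_le_mm
  simpa [C0] using this

lemma int_le {f : ℂ → ℝ} {p q : ℝ} (h : ∀ θ, |f θ| ≤ p + q * mm θ) :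
    |∫ θ, f θ ∂gam| ≤ p + q * C0 := by
  have i1 : Integrable (fun θ => p + q * mm θ) gam := (integrable_const p).add (mm_int.const_mul q)
  have := norm_integral_le_of_norm_le (f := f) i1 (Eventually.of_forall h)
  rw [integral_add (integrable_const p) (mm_int.const_mul q), integral_const_mul] at this
  simpa [C0] using this

section ineq
variable {σ : ℝ} (θ : ℂ) (h0 : 0 ≤ σ) (h1 : σ ≤ 1)
include h0 h1

lemma i3 : (1 + σ * ‖θ‖) ^ 3 ≤ 1 + σ * mm θ := by
  have ht := norm_nonneg θ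
  unfold mm; set t := ‖θ‖
  have a1 : σ * t ^ 2 ≤ t ^ 2 := mul_le_of_le_one_left (by positivity) h1
  have a2 : σ ^ 2 * t ^ 3 ≤ t ^ 3 := mul_le_of_le_one_left (by positivity) (pow_le_one₀ h0 h1)
  have a3 : 3 * t + 3 * (σ * t ^ 2) + σ ^ 2 * t ^ 3 ≤ (1 + t) ^ 5 := by
    have : 0 ≤ 1 + 2 * t + 7 * t ^ 2 + 9 * t ^ 3 + 5 * t ^ 4 + t ^ 5 := by positivity
    nlinarith
  calc (1 + σ * t) ^ 3 = 1 + σ * (3 * t + 3 * (σ * t ^ 2) + σ ^ 2 * t ^ 3) := by ring
    _ ≤ _ := by gcongr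

lemma i2 : (1 + σ * ‖θ‖) ^ 2 ≤ 1 + σ * mm θ :=
  (pow_le_pow_right₀ (by linarith [mul_nonneg h0 (norm_nonneg θ)]) (by norm_num)).trans
    (i3 θ h0 h1)

lemma i1 : 1 + σ * ‖θ‖ ≤ 1 + σ * mm θ :=
  (le_self_pow₀ (by linarith [mul_nonneg h0 (norm_nonneg θ)]) (by norm_num)).trans (i2 θ h0 h1)

lemma j (k l : ℕ) (h : k + l ≤ 5) : (1 + σ * ‖θ‖) ^ k * ‖θ‖ ^ l ≤ mm θ := by
  have ht := norm_nonneg θ
  have a1 : σ * ‖θ‖ ≤ ‖θ‖ := mul_le_of_le_one_left ht h1
  calc (1 + σ * ‖θ‖) ^ k * ‖θ‖ ^ l ≤ (1 + ‖θ‖) ^ k * (1 + ‖θ‖) ^ l := by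
        gcongr; linarith
    _ = (1 + ‖θ‖) ^ (k + l) := (pow_add _ _ _).symm
    _ ≤ _ := pow_le_pow_right₀ (by linarith) h

end ineq

/-- the displaced point -/
def ph (W : ℝ) (a : ℂ → ℝ) (θ x : ℂ) : ℂ := x + (W * a x) • θ
/-- the weight -/
def wt (W : ℝ) (a : ℂ → ℝ) (θ x : ℂ) : ℝ := 1 + W * fderiv ℝ a x θ
/-- the integrand -/
def FF (W : ℝ) (a g : ℂ → ℝ) (θ x : ℂ) : ℝ := g (ph W a θ x) * wt W a θ x

lemma GG_eq (W : ℝ) (a g : ℂ → ℝ) (x : ℂ) : GG W a g x = ∫ θ, FF W a g θ x ∂gam := rfl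

/-- the standing hypotheses -/
structure Hy (a : ℂ → ℝ) (κ W : ℝ) : Prop where
  hW : 0 < W
  hκ : 0 ≤ κ
  hs : W * κ ≤ 1
  d2 : D2 a 1 κ (κ ^ 2)
  d3 : D3 a κ (κ ^ 2) (κ ^ 3)

variable {a g : ℂ → ℝ} {κ W : ℝ}

lemma Hy.s0 (H : Hy a κ W) : 0 ≤ W * κ := mul_nonneg H.hW.le H.hκ

lemma Hy.ph_l2 (H : Hy a κ W) (θ : ℂ) :
    L2 (ph W a θ) (1 + W * κ * ‖θ‖) (W * κ ^ 2 * ‖θ‖) := by
  have := L2.id.add ((H.d2.const_mul W).smul_const θ).toL2
  rw [abs_of_pos H.hW, zero_add] at this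
  exact this

lemma Hy.wt_d2 (H : Hy a κ W) (θ : ℂ) :
    D2 (wt W a θ) (1 + W * κ * ‖θ‖) (W * κ ^ 2 * ‖θ‖) (W * κ ^ 3 * ‖θ‖) := by
  have := (D2.const (X := ℂ) (1 : ℝ)).add ((H.d3.d2.apply_const θ).const_mul W)
  rw [abs_of_pos H.hW, zero_add, zero_add, norm_one] at this
  exact this.mono (le_of_eq (by ring)) (le_of_eq (by ring)) (le_of_eq (by ring))

lemma Hy.ph_near (H : Hy a κ W) (θ x : ℂ) : ‖ph W a θ x - x‖ ≤ W * ‖θ‖ := by
  have := H.d2.b0 x
  have hW := H.hW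
  rw [ph, add_sub_cancel_left, norm_smul, norm_mul, Real.norm_of_nonneg hW.le]
  calc W * ‖a x‖ * ‖θ‖ ≤ W * 1 * ‖θ‖ := by gcongr
    _ = _ := by ring

lemma wt_int (W : ℝ) (a : ℂ → ℝ) (x : ℂ) : Integrable (fun θ => wt W a θ x) gam :=
  (integrable_const 1).add (((fderiv ℝ a x).integrable_comp gam_int).const_mul W)

lemma wt_mean (W : ℝ) (a : ℂ → ℝ) (x : ℂ) : ∫ θ, wt W a θ x ∂gam = 1 := by
  unfold wt
  rw [integral_add (integrable_const 1) (((fderiv ℝ a x).integrable_comp gam_int).const_mul W),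
    integral_const_mul, (fderiv ℝ a x).integral_comp_comm gam_int, gam_mean]
  simp

lemma FF_cont (hg : Continuous g) (x : ℂ) : Continuous fun θ => FF W a g θ x := by
  unfold FF ph wt; fun_prop

lemma FF_int (hg : Continuous g) {B : ℝ} (hB : ∀ x, |g x| ≤ B) (x : ℂ) :
    Integrable (fun θ => FF W a g θ x) gam := by
  refine (wt_int W a x).bdd_mul (c := B) ?_ (Eventually.of_forall fun θ => hB _)
  exact (show Continuous fun θ => g (ph W a θ x) by unfold ph; fun_prop).aestronglyMeasurable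

lemma GG_sub_const (hg : Continuous g) {B : ℝ} (hB : ∀ x, |g x| ≤ B) (x : ℂ) (c : ℝ) :
    GG W a g x - c = ∫ θ, (g (ph W a θ x) - c) * wt W a θ x ∂gam := by
  have : (fun θ => (g (ph W a θ x) - c) * wt W a θ x) =
      fun θ => FF W a g θ x - c * wt W a θ x := by
    funext θ; unfold FF; ring
  rw [this, integral_sub (FF_int hg hB x) ((wt_int W a x).const_mul c), integral_const_mul,
    wt_mean, GG_eq, mul_one]

lemma Hy.part1 (H : Hy a κ W) {B c : ℝ} (hg : Continuous g) (hB : ∀ x, |g x - c| ≤ B) :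
    Continuous (GG W a g) ∧ ∀ x, |GG W a g x - c| ≤ B + B * (W * κ) * C0 := by
  have B0 : 0 ≤ B := (abs_nonneg _).trans (hB 0)
  have hB' : ∀ x, |g x| ≤ B + |c| := fun x => by
    have := abs_add_le (g x - c) c
    rw [sub_add_cancel] at this; linarith [hB x]
  have hw : ∀ θ x, |wt W a θ x| ≤ 1 + W * κ * mm θ := fun θ x =>
    ((H.wt_d2 θ).b0 x).trans (i1 θ H.s0 H.hs)
  refine ⟨?_, fun x => ?_⟩
  · refine continuous_of_dominated (F := fun x θ => FF W a g θ x)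
      (bound := fun θ => (B + |c|) * (1 + W * κ * mm θ))
      (fun x => (FF_cont hg x).aestronglyMeasurable) (fun x => Eventually.of_forall fun θ => ?_)
      (((integrable_const 1).add (mm_int.const_mul _)).const_mul _)
      (Eventually.of_forall fun θ => ?_)
    · rw [FF, Real.norm_eq_abs, abs_mul]
      exact mul_le_mul (hB' _) (hw θ x) (abs_nonneg _) (by positivity)
    · exact (hg.comp (H.ph_l2 θ).continuous).mul (H.wt_d2 θ).continuous
  · rw [GG_sub_const hg hB' x c]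
    refine int_le fun θ => ?_
    rw [abs_mul]
    exact (mul_le_mul (hB _) (hw θ x) (abs_nonneg _) B0).trans (le_of_eq (by ring))

variable {B0 B1 B2 : ℝ}

lemma Hy.near (H : Hy a κ W) (hg : D2 g B0 B1 B2) (x : ℂ) :
    |GG W a g x - g x| ≤ W * B1 * C0 := by
  rw [GG_sub_const hg.continuous hg.b0 x]
  have := int_le (f := fun θ => (g (ph W a θ x) - g x) * wt W a θ x) (p := 0) (q := W * B1)
    fun θ => ?_
  · simpa using this
  have n1 := hg.n1
  have hW := H.hW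
  have e1 : |g (ph W a θ x) - g x| ≤ B1 * (W * ‖θ‖) :=
    (hg.b1 _ _).trans (by gcongr; exact H.ph_near θ x)
  have e2 : |wt W a θ x| ≤ 1 + W * κ * ‖θ‖ := (H.wt_d2 θ).b0 x
  have e3 := j θ H.s0 H.hs 1 1 (by norm_num)
  rw [abs_mul]
  calc _ ≤ B1 * (W * ‖θ‖) * (1 + W * κ * ‖θ‖) := mul_le_mul e1 e2 (abs_nonneg _) (by positivity)
    _ = W * B1 * ((1 + W * κ * ‖θ‖) ^ 1 * ‖θ‖ ^ 1) := by ring
    _ ≤ W * B1 * mm θ := by gcongr
    _ = _ := by ring

/-- first differences of the integrand -/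
lemma Hy.pt1 (H : Hy a κ W) (hg : D2 g B0 B1 B2) (θ x y : ℂ) {A : ℝ} (hA : 0 ≤ A)
    (h : |g (ph W a θ x) - g (ph W a θ y)| ≤ A * ‖ph W a θ x - ph W a θ y‖) :
    |FF W a g θ x - FF W a g θ y| ≤
      (A * (1 + W * κ * ‖θ‖) ^ 2 + W * κ ^ 2 * B0 * mm θ) * ‖x - y‖ := by
  have n0 := hg.n0
  have hW := H.hW
  have hκ := H.hκ
  have e1 := (H.ph_l2 θ).b1 x y
  have e2 : |wt W a θ x| ≤ 1 + W * κ * ‖θ‖ := (H.wt_d2 θ).b0 x
  have e3 : |wt W a θ x - wt W a θ y| ≤ _ := (H.wt_d2 θ).b1 x y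
  have e4 : |g (ph W a θ y)| ≤ B0 := hg.b0 _
  have e5 := j θ H.s0 H.hs 0 1 (by norm_num)
  rw [pow_zero, one_mul, pow_one] at e5
  calc _ = |(g (ph W a θ x) - g (ph W a θ y)) * wt W a θ x +
        g (ph W a θ y) * (wt W a θ x - wt W a θ y)| := by unfold FF; congr 1; ring
    _ ≤ _ := abs_add_le _ _
    _ ≤ A * ((1 + W * κ * ‖θ‖) * ‖x - y‖) * (1 + W * κ * ‖θ‖) +
        B0 * (W * κ ^ 2 * mm θ * ‖x - y‖) := by
        rw [abs_mul, abs_mul]
        gcongr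
        · exact h.trans (by gcongr)
        · exact e3.trans (by gcongr)
    _ = _ := by ring

/-- second differences of the integrand -/
lemma Hy.pt2 (H : Hy a κ W) (hg : D2 g B0 B1 B2) (θ x u v : ℂ) {A : ℝ} (hA : 0 ≤ A)
    (h : |g (ph W a θ (x + u) + (ph W a θ (x + v) - ph W a θ x)) - g (ph W a θ (x + u)) -
      g (ph W a θ (x + v)) + g (ph W a θ x)| ≤
      A * ‖ph W a θ (x + u) - ph W a θ x‖ * ‖ph W a θ (x + v) - ph W a θ x‖) :
    |FF W a g θ (x + u + v) - FF W a g θ (x + u) - FF W a g θ (x + v) + FF W a g θ x| ≤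
      (A * (1 + W * κ * ‖θ‖) ^ 3 + 3 * (W * κ ^ 2 * B1) * mm θ + W * κ ^ 3 * B0 * mm θ) *
        ‖u‖ * ‖v‖ := by
  have n0 := hg.n0
  have n1 := hg.n1
  have hW := H.hW
  have hκ := H.hκ
  have hφ := H.ph_l2 θ
  have hw := H.wt_d2 θ
  have e5 := j θ H.s0 H.hs 0 1 (by norm_num)
  have e6 := j θ H.s0 H.hs 1 1 (by norm_num)
  rw [pow_zero, one_mul, pow_one] at e5
  rw [pow_one, pow_one] at e6
  set φ := ph W a θ
  set w := wt W a θ
  set P := 1 + W * κ * ‖θ‖ with hP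
  have P0 : 0 ≤ P := by positivity
  have h3 : ‖φ (x + u) - φ x‖ ≤ P * ‖u‖ := by simpa using hφ.b1 (x + u) x
  have h4 : ‖φ (x + v) - φ x‖ ≤ P * ‖v‖ := by simpa using hφ.b1 (x + v) x
  have h5 : ‖φ (x + u + v) - (φ (x + u) + (φ (x + v) - φ x))‖ ≤ W * κ ^ 2 * ‖θ‖ * ‖u‖ * ‖v‖ := by
    refine le_of_eq_of_le ?_ (hφ.b2 x u v); congr 1; abel
  have G2 : |g (φ (x + u + v)) - g (φ (x + u)) - g (φ (x + v)) + g (φ x)| ≤
      B1 * (W * κ ^ 2 * ‖θ‖ * ‖u‖ * ‖v‖) + A * (P * ‖u‖) * (P * ‖v‖) := by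
    calc _ = |(g (φ (x + u + v)) - g (φ (x + u) + (φ (x + v) - φ x))) +
          (g (φ (x + u) + (φ (x + v) - φ x)) - g (φ (x + u)) - g (φ (x + v)) + g (φ x))| := by
          congr 1; ring
      _ ≤ _ := abs_add_le _ _
      _ ≤ _ := by
          gcongr
          · exact (hg.b1 _ _).trans (by gcongr)
          · exact h.trans (by gcongr)
  have f1 : |g (φ (x + u)) - g (φ x)| ≤ B1 * (P * ‖u‖) := (hg.b1 _ _).trans (by gcongr)
  have f2 : |g (φ (x + v)) - g (φ x)| ≤ B1 * (P * ‖v‖) := (hg.b1 _ _).trans (by gcongr)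
  have g1 : |w (x + u + v) - w (x + u)| ≤ W * κ ^ 2 * ‖θ‖ * ‖v‖ := by
    simpa using hw.b1 (x + u + v) (x + u)
  have g2 : |w (x + u + v) - w (x + v)| ≤ W * κ ^ 2 * ‖θ‖ * ‖u‖ := by
    have := hw.b1 (x + u + v) (x + v)
    rwa [show x + u + v - (x + v) = u by abel] at this
  have g3 : |w (x + u + v) - w (x + u) - w (x + v) + w x| ≤ _ := hw.b2 x u v
  have g0 : |w (x + u + v)| ≤ P := hw.b0 _
  have f0 : |g (φ x)| ≤ B0 := hg.b0 _
  calc _ = |(g (φ (x + u + v)) - g (φ (x + u)) - g (φ (x + v)) + g (φ x)) * w (x + u + v) +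
        (g (φ (x + u)) - g (φ x)) * (w (x + u + v) - w (x + u)) +
        (g (φ (x + v)) - g (φ x)) * (w (x + u + v) - w (x + v)) +
        g (φ x) * (w (x + u + v) - w (x + u) - w (x + v) + w x)| := by
        unfold FF; congr 1; ring
    _ ≤ (B1 * (W * κ ^ 2 * ‖θ‖ * ‖u‖ * ‖v‖) + A * (P * ‖u‖) * (P * ‖v‖)) * P +
        B1 * (P * ‖u‖) * (W * κ ^ 2 * ‖θ‖ * ‖v‖) + B1 * (P * ‖v‖) * (W * κ ^ 2 * ‖θ‖ * ‖u‖) +
        B0 * (W * κ ^ 3 * ‖θ‖ * ‖u‖ * ‖v‖) := by
        refine (abs_add_le _ _).trans (add_le_add ((abs_add_three _ _ _).trans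
          (add_le_add (add_le_add ?_ ?_) ?_)) ?_) <;> rw [abs_mul] <;> gcongr
    _ = (A * P ^ 3 + 3 * (W * κ ^ 2 * B1) * (P * ‖θ‖) + W * κ ^ 3 * B0 * ‖θ‖) * ‖u‖ * ‖v‖ := by
        ring
    _ ≤ _ := by gcongr

lemma int1 (hg : D2 g B0 B1 B2) (x y : ℂ) {p q : ℝ}
    (h : ∀ θ, |FF W a g θ x - FF W a g θ y| ≤ (p + q * mm θ) * ‖x - y‖) :
    |GG W a g x - GG W a g y| ≤ (p + q * C0) * ‖x - y‖ := by
  have hi := FF_int (W := W) (a := a) hg.continuous hg.b0
  rw [GG_eq, GG_eq, ← integral_sub (hi x) (hi y)]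
  refine (int_le (p := p * ‖x - y‖) (q := q * ‖x - y‖) fun θ => ?_).trans (le_of_eq (by ring))
  exact (h θ).trans (le_of_eq (by ring))

lemma int2 (hg : D2 g B0 B1 B2) (x u v : ℂ) {p q : ℝ}
    (h : ∀ θ, |FF W a g θ (x + u + v) - FF W a g θ (x + u) - FF W a g θ (x + v) + FF W a g θ x| ≤
      (p + q * mm θ) * ‖u‖ * ‖v‖) :
    |GG W a g (x + u + v) - GG W a g (x + u) - GG W a g (x + v) + GG W a g x| ≤
      (p + q * C0) * ‖u‖ * ‖v‖ := by
  have hi := FF_int (W := W) (a := a) hg.continuous hg.b0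
  have e1 := integral_sub (hi (x + u + v)) (hi (x + u))
  have e2 := integral_sub ((hi (x + u + v)).sub (hi (x + u))) (hi (x + v))
  have e3 := integral_add (((hi (x + u + v)).sub (hi (x + u))).sub (hi (x + v))) (hi x)
  simp only [Pi.sub_apply] at e2 e3
  simp only [GG_eq]
  rw [← e1, ← e2, ← e3]
  refine (int_le (p := p * ‖u‖ * ‖v‖) (q := q * ‖u‖ * ‖v‖) fun θ => ?_).trans (le_of_eq (by ring))
  exact (h θ).trans (le_of_eq (by ring))

lemma glob2 (hg : D2 g B0 B1 B2) (y y1 y2 : ℂ) :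
    |g (y1 + (y2 - y)) - g y1 - g y2 + g y| ≤ B2 * ‖y1 - y‖ * ‖y2 - y‖ := by
  simpa only [add_sub_cancel, Real.norm_eq_abs] using hg.b2 y (y1 - y) (y2 - y)

lemma Hy.glob (H : Hy a κ W) (hg : D2 g B0 B1 B2) :
    L2 (GG W a g) (B1 + (B1 * (W * κ) + W * κ ^ 2 * B0) * C0)
      (B2 + (B2 * (W * κ) + 3 * (W * κ ^ 2 * B1) + W * κ ^ 3 * B0) * C0) := by
  have n0 := hg.n0; have n1 := hg.n1; have n2 := hg.n2
  have hW := H.hW; have hκ := H.hκ
  have hC : 0 ≤ C0 := zero_le_one.trans one_le_C0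
  refine ⟨by positivity, by positivity, fun x y => int1 hg x y fun θ => ?_,
    fun x u v => int2 hg x u v fun θ => ?_⟩
  · refine (H.pt1 hg θ x y n1 (hg.b1 _ _)).trans ?_
    refine mul_le_mul_of_nonneg_right ?_ (norm_nonneg _)
    nlinarith [mul_le_mul_of_nonneg_left (i2 θ H.s0 H.hs) n1]
  · refine (H.pt2 hg θ x u v n2 (glob2 hg _ _ _)).trans ?_
    refine mul_le_mul_of_nonneg_right (mul_le_mul_of_nonneg_right ?_ (norm_nonneg _))
      (norm_nonneg _)
    nlinarith [mul_le_mul_of_nonneg_left (i3 θ H.s0 H.hs) n2]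

lemma Hy.far (H : Hy a κ W) {θ : ℂ} {ρ' : ℝ} (hρ : 0 < ρ') (h : ρ' ≤ 3 * (W * ‖θ‖)) {k : ℕ}
    (hk : k ≤ 3) : (1 + W * κ * ‖θ‖) ^ k ≤ 9 * (W / ρ') ^ 2 * mm θ := by
  have e := j θ H.s0 H.hs k 2 (by omega)
  have h1 : 1 ≤ 3 * (W / ρ' * ‖θ‖) := by
    rw [div_mul_eq_mul_div, ← mul_div_assoc, le_div_iff₀ hρ]; linarith
  have h2 : 1 ≤ (3 * (W / ρ' * ‖θ‖)) ^ 2 := one_le_pow₀ h1
  have := H.s0
  calc (1 + W * κ * ‖θ‖) ^ k ≤ (1 + W * κ * ‖θ‖) ^ k * (3 * (W / ρ' * ‖θ‖)) ^ 2 :=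
        le_mul_of_one_le_right (by positivity) h2
    _ = 9 * (W / ρ') ^ 2 * ((1 + W * κ * ‖θ‖) ^ k * ‖θ‖ ^ 2) := by ring
    _ ≤ _ := by gcongr

lemma Hy.loc (H : Hy a κ W) (hg : D2 g B0 B1 B2) {x0 : ℂ} {ρ ρ' A1 A2 : ℝ} (hρ : 0 < ρ')
    (a1 : 0 ≤ A1) (a2 : 0 ≤ A2) (hl : Loc g x0 ρ A1 A2) :
    Loc (GG W a g) x0 (ρ - ρ')
      (A1 + (A1 * (W * κ) + W * κ ^ 2 * B0 + 9 * (W / ρ') ^ 2 * B1) * C0)
      (A2 + (A2 * (W * κ) + 3 * (W * κ ^ 2 * B1) + W * κ ^ 3 * B0 + 9 * (W / ρ') ^ 2 * B2) * C0) := by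
  have n0 := hg.n0; have n1 := hg.n1; have n2 := hg.n2
  have hW := H.hW; have hκ := H.hκ; have s0 := H.s0
  have ins : ∀ θ x, 3 * (W * ‖θ‖) < ρ' → ‖x - x0‖ < ρ - ρ' → ‖ph W a θ x - x0‖ < ρ :=
    fun θ x h1 h2 => by
      have := norm_sub_le_norm_sub_add_norm_sub (ph W a θ x) x x0
      have := H.ph_near θ x
      have : 0 ≤ W * ‖θ‖ := by positivity
      linarith
  refine ⟨fun x y hx hy => int1 hg x y fun θ => ?_,
    fun x u v h0 hu hv huv => int2 hg x u v fun θ => ?_⟩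
  · have m0 : 0 ≤ mm θ := zero_le_one.trans (one_le_mm θ)
    rcases lt_or_ge (3 * (W * ‖θ‖)) ρ' with c | c
    · refine (H.pt1 hg θ x y a1 (hl.b1 _ _ (ins θ x c hx) (ins θ y c hy))).trans ?_
      refine mul_le_mul_of_nonneg_right ?_ (norm_nonneg _)
      have : 0 ≤ 9 * (W / ρ') ^ 2 * B1 * mm θ := by positivity
      nlinarith [mul_le_mul_of_nonneg_left (i2 θ H.s0 H.hs) a1]
    · refine (H.pt1 hg θ x y n1 (hg.b1 _ _)).trans ?_
      refine mul_le_mul_of_nonneg_right ?_ (norm_nonneg _)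
      have : 0 ≤ A1 * (W * κ) * mm θ := by positivity
      nlinarith [mul_le_mul_of_nonneg_left (H.far hρ c (k := 2) (by norm_num)) n1]
  · have m0 : 0 ≤ mm θ := zero_le_one.trans (one_le_mm θ)
    rcases lt_or_ge (3 * (W * ‖θ‖)) ρ' with c | c
    · have k : ‖ph W a θ (x + u) + (ph W a θ (x + v) - ph W a θ x) - x0‖ < ρ := by
        have e : ph W a θ (x + u) + (ph W a θ (x + v) - ph W a θ x) - x0 = (x + u + v - x0) +
            (ph W a θ (x + u) - (x + u)) + (ph W a θ (x + v) - (x + v)) - (ph W a θ x - x) := by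
          abel
        have := H.ph_near θ x
        have := H.ph_near θ (x + u)
        have := H.ph_near θ (x + v)
        have := norm_sub_le ((x + u + v - x0) + (ph W a θ (x + u) - (x + u)) +
          (ph W a θ (x + v) - (x + v))) (ph W a θ x - x)
        have := norm_add₃_le (a := x + u + v - x0) (b := ph W a θ (x + u) - (x + u))
          (c := ph W a θ (x + v) - (x + v))
        rw [e]; linarith
      have := hl.b2 (ph W a θ x) (ph W a θ (x + u) - ph W a θ x) (ph W a θ (x + v) - ph W a θ x)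
      simp only [add_sub_cancel] at this
      refine (H.pt2 hg θ x u v a2
        (this (ins θ x c h0) (ins θ _ c hu) (ins θ _ c hv) k)).trans ?_
      refine mul_le_mul_of_nonneg_right (mul_le_mul_of_nonneg_right ?_ (norm_nonneg _))
        (norm_nonneg _)
      have : 0 ≤ 9 * (W / ρ') ^ 2 * B2 * mm θ := by positivity
      nlinarith [mul_le_mul_of_nonneg_left (i3 θ H.s0 H.hs) a2]
    · refine (H.pt2 hg θ x u v n2 (glob2 hg _ _ _)).trans ?_
      refine mul_le_mul_of_nonneg_right (mul_le_mul_of_nonneg_right ?_ (norm_nonneg _))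
        (norm_nonneg _)
      have : 0 ≤ A2 * (W * κ) * mm θ := by positivity
      nlinarith [mul_le_mul_of_nonneg_left (H.far hρ c (k := 3) le_rfl) n2]

lemma loc_mono {f : ℂ → ℝ} {x0 : ℂ} {r A1 A2 A1' A2' : ℝ} (h : Loc f x0 r A1 A2) (h1 : A1 ≤ A1')
    (h2 : A2 ≤ A2') : Loc f x0 r A1' A2' :=
  ⟨fun x y hx hy => (h.b1 x y hx hy).trans (by gcongr),
    fun x u v h0 hu hv huv => (h.b2 x u v h0 hu hv huv).trans (by gcongr)⟩

end Gp

theorem gp : GpStmt := by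
  have hC := Gp.one_le_C0
  refine ⟨9 * Gp.C0, by linarith, fun a κ W hW hκ hs d2 d3 => ?_⟩
  have H : Gp.Hy a κ W := ⟨hW, hκ, hs, d2, d3⟩
  have hC0 : 0 ≤ Gp.C0 := by linarith
  refine ⟨fun g B c hg hB => ⟨(H.part1 hg hB).1, fun x => ((H.part1 hg hB).2 x).trans ?_⟩,
    fun g g' B hg hg' hB hB' x => ?_, fun g B0 B1 B2 hg => ?_⟩
  · have B0 : 0 ≤ B := (abs_nonneg _).trans (hB 0)
    have : 0 ≤ B * (W * κ) * Gp.C0 := by positivity
    nlinarith
  · rw [Gp.GG_eq, Gp.GG_eq, Gp.GG_eq, ← integral_sub (Gp.FF_int hg hB x) (Gp.FF_int hg' hB' x)]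
    congr 1; funext θ; unfold Gp.FF; ring
  · have n0 := hg.n0; have n1 := hg.n1; have n2 := hg.n2
    have p1 : 0 ≤ W * B1 * Gp.C0 := by positivity
    have p2 : 0 ≤ W * κ * B0 * Gp.C0 := by positivity
    have p3 : 0 ≤ W * κ * B1 * Gp.C0 := by positivity
    have p4 : 0 ≤ W * κ ^ 2 * B0 * Gp.C0 := by positivity
    have p5 : 0 ≤ W * κ * B2 * Gp.C0 := by positivity
    have p6 : 0 ≤ W * κ ^ 2 * B1 * Gp.C0 := by positivity
    have p7 : 0 ≤ W * κ ^ 3 * B0 * Gp.C0 := by positivity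
    refine ⟨fun x => (H.near hg x).trans (by nlinarith),
      (H.glob hg).mono (by nlinarith) (by nlinarith), fun x0 ρ ρ' A1 A2 hρ a1 a2 hl => ?_⟩
    have p8 : 0 ≤ W * κ * A1 * Gp.C0 := by positivity
    have p9 : 0 ≤ W * κ * A2 * Gp.C0 := by positivity
    exact Gp.loc_mono (H.loc hg hρ a1 a2 hl) (by nlinarith) (by nlinarith)

end
end Pool.Agent.MP_20bec2_an.Pl

end MrgPart3

-- ======== part 4: formerly Pool.Agent.MP_20bec2_an.Pl.Iter
section MrgPart4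

set_option autoImplicit false
open MeasureTheory Set Complex Filter Topology Finset

namespace Pool.Agent.MP_20bec2_an.Pl
noncomputable section

namespace Iter

lemma near_unit {A : ℂ →L[ℝ] ℂ} {μ : ℝ} (h : ‖A - 1‖ ≤ μ) {m : ℂ} (hm : ‖m‖ = 1) :
    ‖A m - m‖ ≤ μ := by
  have := (A - 1).le_opNorm m
  rw [hm, mul_one] at this
  exact this.trans h

lemma norm_I_mul {m : ℂ} (hm : ‖m‖ = 1) : ‖I * m‖ = 1 := by rw [norm_mul, norm_I, hm, one_mul]

lemma norm_mul_le (V U : ℂ) : ‖V‖ * ‖U‖ ≤ |wd V U| + |ip V U| := by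
  refine (abs_le_of_sq_le_sq' ?_ (by positivity)).2
  have := wd_sq_add V U
  nlinarith [sq_abs (wd V U), sq_abs (ip V U),
    mul_nonneg (abs_nonneg (wd V U)) (abs_nonneg (ip V U))]

lemma tri3 {a b c : ℂ} {p e pb μ : ℝ} {m : ℂ} (hm : ‖m‖ = 1) (h1 : ‖a - b - p • m‖ ≤ e)
    (h2 : |p| + e ≤ pb) (h3 : ‖b - c‖ ≤ μ) : ‖a - b‖ ≤ pb ∧ ‖a - c‖ ≤ μ + pb := by
  have h4 : ‖a - b‖ ≤ pb := by
    have := norm_add_le (a - b - p • m) (p • m)
    rw [sub_add_cancel, norm_smul, hm, Real.norm_eq_abs] at this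
    linarith
  exact ⟨h4, (norm_sub_le_norm_sub_add_norm_sub a b c).trans (by linarith)⟩

variable {w r : ℂ → ℝ} {f Y n : ℂ → ℂ} {h b Af Ln d μ φ o oν lo hi ε : ℝ}

lemma band (H : St w f Y n r h b Af Ln d μ φ o oν lo hi) (hμ : μ ≤ 1 / 20) (hlo : 2 ≤ lo) (z : ℂ) :
    4 / 5 * lo ≤ ‖V1 f n z‖ ∧ ‖V1 f n z‖ ≤ 6 / 5 * hi := by
  have h0 : 0 ≤ μ := (norm_nonneg _).trans (H.mu z)
  have h1 : |jac Y z - 1| ≤ 2 * μ + μ ^ 2 := det_near _ (H.mu z)
  have h2 : ‖V2 Y n z - I * n z‖ ≤ μ := near_unit (H.mu z) (norm_I_mul (H.fr.one z))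
  have h3 := abs_le.mp ((abs_norm_sub_norm_le _ _).trans h2)
  rw [norm_I_mul (H.fr.one z)] at h3
  have h4 : |jac Y z - 1| ≤ 41 / 400 := by nlinarith
  have h5 := abs_le.mp h4
  have hj : 0 < jac Y z := by linarith
  obtain ⟨b1, b2⟩ := H.band z
  have hlh : lo ≤ hi := b1.trans b2
  unfold NN at b1 b2
  rw [le_div_iff₀ hj] at b1
  rw [div_le_iff₀ hj] at b2
  have hv := norm_nonneg (V1 f n z)
  constructor <;> nlinarith

/-- the second column in terms of the first -/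
lemma col2 (H : St w f Y n r h b Af Ln d μ φ o oν lo hi) (he : ε ≤ 1 / 50) (hw : Nr ε w)
    (hr : Nr ε r) (z : ℂ) (hv : 0 < ‖V1 f n z‖) :
    ‖V1 f n z‖ * ‖UU f n z‖ ≤ 1 + 2 * φ * ‖V1 f n z‖ ^ 2 ∧
      ‖V1 f n z‖ * ‖V2 f n z‖ ≤ 2 + φ * ‖V1 f n z‖ ^ 2 := by
  obtain ⟨j1, j2⟩ := H.core.jac_bd he hw hr z
  have hj : 0 < jac f z := by linarith
  have e1 : wd (V1 f n z) (V2 f n z) = jac f z := jac_unit f z (H.fr.one z)
  have e2 : |ip (V1 f n z) (V2 f n z)| ≤ φ * ‖V1 f n z‖ ^ 2 := by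
    have := H.phi z
    unfold Phi at this
    rwa [abs_div, abs_of_pos (by positivity : 0 < ‖V1 f n z‖ ^ 2), div_le_iff₀ (by positivity)]
      at this
  have e3 := norm_mul_le (V1 f n z) (V2 f n z)
  rw [e1, abs_of_pos hj] at e3
  refine ⟨?_, by linarith⟩
  have e4 : ‖V2 f n z‖ = jac f z * ‖UU f n z‖ := by
    unfold UU; rw [norm_smul, Real.norm_eq_abs, abs_inv, abs_of_pos hj]; field_simp
  rw [e4] at e3
  have p : 0 ≤ φ * ‖V1 f n z‖ ^ 2 := (abs_nonneg _).trans e2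
  have : jac f z * (‖V1 f n z‖ * ‖UU f n z‖) ≤ jac f z * (1 + 2 * φ * ‖V1 f n z‖ ^ 2) := by
    nlinarith
  exact le_of_mul_le_mul_left this hj

/-- composition of runs -/
lemma run_comp {f0 Y0 g Z g' Z' R T : ℂ → ℂ} {P p1 p2 P' q1 q2 : ℂ → ℝ}
    {ηU ηV τ e1 e2 dd d' η η' τs a1 a2 Ps κ B : ℝ}
    (h1 : Run n f0 Y0 g Z R P p1 p2 d ηU ηV τ e1 e2)
    (h2 : Run n g Z g' Z' T P' q1 q2 dd η η' τs a1 a2) (hT : ∀ x, |ip (T x - x) (n x)| ≤ d')
    (hF : Flat n P dd d' κ) (hP : ∀ z, |P' z| ≤ Ps) (hB : ηU ≤ B) :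
    Run n f0 Y0 g' Z' (fun z => R (T z)) (fun z => P z + P' z) (fun z => p1 z + q1 z)
      (fun z => p2 z + q2 z) (d + dd) (ηU + η) (ηV + (η' + (Ps + τs) * B)) (τ + (τs + κ))
      (e1 + a1) (e2 + a2) where
  comp z := by rw [h2.comp, h1.comp]
  dR z := (norm_sub_le_norm_sub_add_norm_sub _ (T z) _).trans (add_le_add (h1.dR _) (h2.dR _))
  dY z := (norm_sub_le_norm_sub_add_norm_sub _ (Z z) _).trans
    (by linarith [h1.dY z, h2.dY z])
  hU z := (norm_sub_le_norm_sub_add_norm_sub _ (UU g n (T z)) _).trans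
    (by linarith [h1.hU (T z), h2.hU z])
  hV z := by
    obtain ⟨x, x1, x2⟩ := h1.hV (T z)
    obtain ⟨y, y1, y2⟩ := h2.hV z
    have hf := hF z (T z - z) (h2.dR z) (hT z)
    rw [add_sub_cancel] at hf
    refine ⟨x + y, ?_, ?_⟩
    · have := abs_add_three (x - P (T z)) (y - P' z) (P (T z) - P z)
      rw [show x - P (T z) + (y - P' z) + (P (T z) - P z) = x + y - (P z + P' z) by ring] at this
      linarith
    · have hy : |y| ≤ Ps + τs := by
        have := abs_add_le (y - P' z) (P' z)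
        rw [sub_add_cancel] at this
        linarith [hP z]
      have h3 : ‖y • (UU g n (T z) - UU f0 n (R (T z)))‖ ≤ (Ps + τs) * B := by
        rw [norm_smul, Real.norm_eq_abs]
        exact mul_le_mul hy ((h1.hU _).trans hB) (norm_nonneg _) ((abs_nonneg _).trans hy)
      have := norm_add₃_le (a := V1 g n (T z) - V1 f0 n (R (T z)) - x • UU f0 n (R (T z)))
        (b := V1 g' n z - V1 g n (T z) - y • UU g n (T z))
        (c := y • (UU g n (T z) - UU f0 n (R (T z))))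
      rw [show V1 g n (T z) - V1 f0 n (R (T z)) - x • UU f0 n (R (T z)) +
        (V1 g' n z - V1 g n (T z) - y • UU g n (T z)) + y • (UU g n (T z) - UU f0 n (R (T z))) =
        V1 g' n z - V1 f0 n (R (T z)) - (x + y) • UU f0 n (R (T z)) by
          rw [smul_sub, add_smul]; abel] at this
      linarith
  h1 z := by
    have := norm_add_le (V1 Z n z - V1 Y0 n z - p1 z • n z) (V1 Z' n z - V1 Z n z - q1 z • n z)
    rw [show V1 Z n z - V1 Y0 n z - p1 z • n z + (V1 Z' n z - V1 Z n z - q1 z • n z) =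
      V1 Z' n z - V1 Y0 n z - (p1 z + q1 z) • n z by rw [add_smul]; abel] at this
    linarith [h1.h1 z, h2.h1 z]
  h2 z := by
    have := norm_add_le (V2 Z n z - V2 Y0 n z - p2 z • n z) (V2 Z' n z - V2 Z n z - q2 z • n z)
    rw [show V2 Z n z - V2 Y0 n z - p2 z • n z + (V2 Z' n z - V2 Z n z - q2 z • n z) =
      V2 Z' n z - V2 Y0 n z - (p2 z + q2 z) • n z by rw [add_smul]; abel] at this
    linarith [h1.h2 z, h2.h2 z]

/-- a linear map applied to a moving unit vector -/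
lemma lip_app {A A' : ℂ →L[ℝ] ℂ} {m m' : ℂ} {Λ L M : ℝ} (hA : ‖A‖ ≤ Λ) (hm : ‖m - m'‖ ≤ L)
    (hM : ‖A m' - A' m'‖ ≤ M) : ‖A m - A' m'‖ ≤ Λ * L + M := by
  refine (norm_sub_le_norm_sub_add_norm_sub _ (A m') _).trans (add_le_add ?_ hM)
  rw [← map_sub]
  exact (A.le_opNorm _).trans (mul_le_mul hA hm (norm_nonneg _) ((norm_nonneg _).trans hA))

lemma lip_phi {V W V' W' : ℂ} {L : ℝ} (h1 : ‖V - V'‖ ≤ L) (h2 : ‖W - W'‖ ≤ L)
    (hv : ‖V'‖ ≤ ‖V‖) (h3 : 8 / 5 ≤ ‖V'‖) (h4 : ‖W'‖ ≤ ‖V'‖) (h5 : |ip V' W' / ‖V'‖ ^ 2| ≤ 1 / 10) :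
    |ip V W / ‖V‖ ^ 2 - ip V' W' / ‖V'‖ ^ 2| ≤ 2 * L := by
  have hL : 0 ≤ L := (norm_nonneg _).trans h1
  have p' : 0 < ‖V'‖ := by linarith
  have p : 0 < ‖V‖ := by linarith
  set Φ := ip V' W' / ‖V'‖ ^ 2 with hΦ
  have e0 : ip V' W' = Φ * ‖V'‖ ^ 2 := by rw [hΦ]; field_simp
  have e1 : ip V W / ‖V‖ ^ 2 - Φ =
      (ip V (W - W') + ip (V - V') W' + -(Φ * (‖V‖ ^ 2 - ‖V'‖ ^ 2))) / ‖V‖ ^ 2 := by
    rw [ip_sub_right, ip_sub_left, e0]; field_simp; ring
  have a1 : |ip V (W - W')| ≤ ‖V‖ * L := (abs_ip_le _ _).trans (by gcongr)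
  have a2 : |ip (V - V') W'| ≤ L * ‖V‖ :=
    (abs_ip_le _ _).trans (mul_le_mul h1 (h4.trans hv) (norm_nonneg _) hL)
  have a3 : |-(Φ * (‖V‖ ^ 2 - ‖V'‖ ^ 2))| ≤ 1 / 10 * (L * (2 * ‖V‖)) := by
    rw [abs_neg, abs_mul]
    refine mul_le_mul h5 ?_ (abs_nonneg _) (by norm_num)
    have := (norm_sub_norm_le V V').trans h1
    rw [abs_of_nonneg (by nlinarith)]
    nlinarith
  rw [e1, abs_div, abs_of_pos (by positivity : 0 < ‖V‖ ^ 2), div_le_iff₀ (by positivity)]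
  have := abs_add_three (ip V (W - W')) (ip (V - V') W') (-(Φ * (‖V‖ ^ 2 - ‖V'‖ ^ 2)))
  nlinarith [mul_nonneg (mul_nonneg hL p.le) (by linarith : 0 ≤ ‖V‖ - 8 / 5)]

end Iter

open Iter

theorem normS : NormStmt := by
  intro w r r' P p1 p2 f Y n f' Y' R h b Af Ln d μ φ o oν lo hi h' b' Af' d' ηU ηV τ e1 e2 ε Q
    pb1 pb2 H H' hR he hw hr hr' hQ hU hV hQφ hφ hQl hlo hμ z
  have hm := H.fr.one z
  obtain ⟨q0, q1, q2⟩ := hQ z
  obtain ⟨a1, a2⟩ := tri3 hm (hR.h1 z) q1 (near_unit (H.mu z) hm)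
  obtain ⟨a3, a4⟩ := tri3 hm (hR.h2 z) q2 (near_unit (H.mu z) (norm_I_mul hm))
  have hμ' : μ ≤ 1 / 20 := by
    linarith [norm_nonneg (V1 Y' n z - V1 Y n z), norm_nonneg (V2 Y' n z - V2 Y n z)]
  refine ⟨?_, ?_, a2, a4, band H hμ' hlo z⟩
  · obtain ⟨b1, b2⟩ := band H hμ' hlo (R z)
    have hlh : lo ≤ hi := (H.band z).1.trans (H.band z).2
    have hv : 0 < ‖V1 f n (R z)‖ := by linarith
    obtain ⟨c1, -⟩ := col2 H he hw hr (R z) hv
    obtain ⟨a, x1, x2⟩ := hR.hV z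
    obtain ⟨j1, j2⟩ := H'.jac_bd he hw hr' z
    have hj : 0 < jac f' z := by linarith
    have ha : |a| ≤ Q := by
      have := abs_add_le (a - P z) (P z)
      rw [sub_add_cancel] at this
      linarith
    have hQ0 : 0 ≤ Q := (abs_nonneg _).trans ha
    set ν := ‖V1 f n (R z)‖
    set u := ‖UU f n (R z)‖ with hu
    have u0 : 0 ≤ u := norm_nonneg _
    have c2 : Q * u ≤ 5 / 4 * lo + 2 * ν := by
      refine le_of_mul_le_mul_left ?_ hv
      nlinarith [mul_le_mul_of_nonneg_left c1 hQ0, mul_le_mul_of_nonneg_right hQφ (sq_nonneg ν)]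
    have c3 : u ≤ 1 + ν / 5 := by
      refine le_of_mul_le_mul_left ?_ hv
      nlinarith [mul_le_mul_of_nonneg_right hφ (sq_nonneg ν)]
    have v1 : ‖V1 f' n z‖ ≤ 1 + ν + Q * u := by
      have := norm_add₃_le (a := V1 f' n z - V1 f n (R z) - a • UU f n (R z)) (b := V1 f n (R z))
        (c := a • UU f n (R z))
      rw [show V1 f' n z - V1 f n (R z) - a • UU f n (R z) + V1 f n (R z) + a • UU f n (R z) =
        V1 f' n z by abel, norm_smul, Real.norm_eq_abs] at this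
      linarith [mul_le_mul_of_nonneg_right ha u0]
    have v2 : ‖V2 f' n z‖ ≤ 2 * (1 + u) := by
      have e4 : ‖V2 f' n z‖ = jac f' z * ‖UU f' n z‖ := by
        unfold UU; rw [norm_smul, Real.norm_eq_abs, abs_inv, abs_of_pos hj]; field_simp
      have := (norm_sub_norm_le _ _).trans (hR.hU z)
      rw [e4]
      exact mul_le_mul j2 (by linarith) (norm_nonneg _) (by norm_num)
    have := opNorm_le_unit (fderiv ℝ f' z) hm
    unfold V1 at v1
    unfold V2 at v2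
    linarith
  · have h1 := opNorm_le_unit (fderiv ℝ Y' z - fderiv ℝ Y z) hm
    have h2 := norm_sub_le_norm_sub_add_norm_sub (fderiv ℝ Y' z) (fderiv ℝ Y z) 1
    have h3 := H.mu z
    unfold V1 at a1
    unfold V2 at a3
    simp only [sub_apply] at h1
    linarith

theorem iter_of (hN : NormStmt) : IterStmt := by
  intro w r0 P p1 p2 f0 Y0 n f Y R J r Pj q1 q2 h b Af h0 b0 Af0 Ln d0 μ φ o oν lo hi d ηU ηV τ
    e1 e2 ε Q pb1 pb2 dd d' η τs a1 a2 Ps κ H he hw hr0 hr hC hR n1 n2 n3 n4 n5 n6 hP hQ hU hV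
    hQφ hφ hQl hlo hμ hstep
  have hU0 : 0 ≤ ηU := (norm_nonneg _).trans (hR.hU 0)
  have key : ∀ j ≤ J, ∃ f' Y' R' : ℂ → ℂ, Core w f' Y' (r j) (h j) (b j) (Af j) ∧
      Run n f0 Y0 f' Y' R' (fun z => P z + ∑ i ∈ range j, Pj i z)
        (fun z => p1 z + ∑ i ∈ range j, q1 i z) (fun z => p2 z + ∑ i ∈ range j, q2 i z)
        (d + j * dd) (ηU + j * η) (ηV + j * (η + (Ps + τs) * (ηU + J * η))) (τ + j * (τs + κ))
        (e1 + j * a1) (e2 + j * a2) := by
    intro j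
    induction j with
    | zero => exact fun _ => ⟨f, Y, R, hC, by simpa using hR⟩
    | succ j ih =>
      intro hj
      obtain ⟨g, Z, R', c1, c2⟩ := ih (by omega)
      have hjJ : (j : ℝ) ≤ J := by exact_mod_cast (by omega : j ≤ J)
      have m : ∀ x : ℝ, 0 ≤ x → j * x ≤ J * x := fun x hx => mul_le_mul_of_nonneg_right hjJ hx
      have hb := hN w r0 (r j) _ _ _ f0 Y0 n g Z R' h0 b0 Af0 Ln d0 μ φ o oν lo hi _ _ _ _ _ _ _ _ _
        ε Q pb1 pb2 H c1 c2 he hw hr0 (hr j (by omega))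
        (fun z => by
          obtain ⟨x1, x2, x3⟩ := hQ j (by omega) z
          exact ⟨by linarith [m (τs + κ) (by positivity)], by linarith [m a1 n3],
            by linarith [m a2 n4]⟩)
        (by linarith [m η n1])
        (by linarith [m (η + (Ps + τs) * (ηU + J * η)) (by positivity)]) hQφ hφ hQl hlo hμ
      obtain ⟨g', Z', T, d1, d2, d3⟩ := hstep j (by omega) g Z c1 (fun z => (hb z).1)
        (fun z => (hb z).2.1.trans hμ) (fun z => ⟨(hb z).2.2.1, (hb z).2.2.2.1⟩)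
      refine ⟨g', Z', fun z => R' (T z), d1, ?_⟩
      have := run_comp (B := ηU + J * η) c2 d2 d3 (hP j (by omega)).2 (hP j (by omega)).1
        (by linarith [m η n1])
      simp only [sum_range_succ, ← add_assoc]
      push_cast
      exact this.mono (le_of_eq (by ring)) (le_of_eq (by ring)) (le_of_eq (by ring))
        (le_of_eq (by ring)) (le_of_eq (by ring)) (le_of_eq (by ring))
  exact key J le_rfl

theorem smo_of (hN : NormStmt) : SmoStmt := by
  refine ⟨500, by norm_num, ?_⟩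
  intro w r f Y n h b Af Ln d μ φ o oν lo hi ε K H he hw hr hh hA hlo hμ hφ hK
  have hb := hN w r r 0 0 0 f Y n f Y id h b Af Ln d μ φ o oν lo hi h b Af 0 0 0 0 0 0 ε 0 0 0 H
    H.core (Run.refl n f Y) he hw hr hr (fun z => by simp) zero_le_one zero_le_one (by simp) hφ
    (by positivity) hlo (by linarith)
  have hlh : lo ≤ hi := (H.band 0).1.trans (H.band 0).2
  have k1 : 0 ≤ b / h := H.core.bY.n1
  have k2 : 0 ≤ Af * hi ^ 2 := by positivity
  have k3 : 2 * Ln ≤ hi * Ln := mul_le_mul_of_nonneg_right (by linarith) H.fr.n0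
  have k4 := H.fr.n0
  have hi0 : 0 ≤ 10 * hi := by linarith
  have lf : ∀ z z', ‖f z - f z'‖ ≤ 10 * hi * ‖z - z'‖ := fun z z' =>
    convex_univ.norm_image_sub_le_of_norm_fderiv_le (fun x _ => H.core.df x)
      (fun x _ => (hb x).1) (mem_univ z') (mem_univ z)
  have lI : ∀ z z', ‖I * n z - I * n z'‖ ≤ Ln * ‖z - z'‖ := fun z z' => by
    rw [← mul_sub, norm_mul, norm_I, one_mul]; exact H.fr.lip z z'
  have g1 : ∀ z z' m m' : ℂ, ‖m'‖ = 1 → ‖m - m'‖ ≤ Ln * ‖z - z'‖ →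
      ‖fderiv ℝ f z m - fderiv ℝ f z' m'‖ ≤ 100 * K * ‖z - z'‖ := fun z z' m m' e1 e2 => by
    have x1 : ‖fderiv ℝ f z' m'‖ ≤ 10 * hi := by
      have := (fderiv ℝ f z').le_opNorm m'
      rw [e1, mul_one] at this
      exact this.trans (hb z').1
    have x2 : ‖fderiv ℝ f z m' - fderiv ℝ f z' m'‖ ≤ Af * (10 * hi * ‖z - z'‖) * (10 * hi) :=
      (H.core.af z z' m').trans (by gcongr; exact lf z z')
    refine (lip_app (hb z).1 e2 x2).trans ?_
    nlinarith [mul_le_mul_of_nonneg_right (show 10 * (hi * Ln) + 100 * (Af * hi ^ 2) ≤ 100 * K by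
      linarith) (norm_nonneg (z - z'))]
  have y0 : ∀ z, ‖fderiv ℝ Y z‖ ≤ 2 := fun z => (norm_le_of_near (H.mu z)).trans (by linarith)
  have y1 : ∀ z m : ℂ, ‖m‖ = 1 → ‖fderiv ℝ Y z m‖ ≤ 2 := fun z m e => by
    have := (fderiv ℝ Y z).le_opNorm m
    rw [e, mul_one] at this
    exact this.trans (y0 z)
  have g2 : ∀ z z' m m' : ℂ, ‖m'‖ = 1 → ‖m - m'‖ ≤ Ln * ‖z - z'‖ →
      ‖fderiv ℝ Y z m - fderiv ℝ Y z' m'‖ ≤ K * ‖z - z'‖ := fun z z' m m' e1 e2 => by
    have x1 := H.core.bY.b1 z z'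
    rw [sub_sub_sub_cancel_right] at x1
    have x2 := (fderiv ℝ Y z - fderiv ℝ Y z').le_opNorm m'
    rw [e1, mul_one] at x2
    refine (lip_app (y0 z) e2 (x2.trans x1)).trans ?_
    nlinarith [mul_le_mul_of_nonneg_right (show 2 * Ln + b / h ≤ K by linarith)
      (norm_nonneg (z - z'))]
  have v1 : ∀ z z', ‖V1 f n z - V1 f n z'‖ ≤ 100 * K * ‖z - z'‖ := fun z z' =>
    g1 z z' _ _ (H.fr.one z') (H.fr.lip z z')
  have v2 : ∀ z z', ‖V2 f n z - V2 f n z'‖ ≤ 100 * K * ‖z - z'‖ := fun z z' =>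
    g1 z z' _ _ (norm_I_mul (H.fr.one z')) (lI z z')
  have v3 : ∀ z, 8 / 5 ≤ ‖V1 f n z‖ := fun z => by linarith [(hb z).2.2.2.2.1]
  have v4 : ∀ z, ‖V2 f n z‖ ≤ ‖V1 f n z‖ := fun z => by
    have hv : 0 < ‖V1 f n z‖ := by linarith [v3 z]
    refine le_of_mul_le_mul_left ?_ hv
    nlinarith [(col2 H he hw hr z hv).2, v3 z, mul_le_mul_of_nonneg_right hφ (sq_nonneg ‖V1 f n z‖)]
  have ph : ∀ z z', |Phi f n z - Phi f n z'| ≤ 2 * (100 * K * ‖z - z'‖) := fun z z' => by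
    rcases le_total ‖V1 f n z'‖ ‖V1 f n z‖ with e | e
    · exact lip_phi (v1 z z') (v2 z z') e (v3 z') (v4 z') ((H.phi z').trans hφ)
    · rw [abs_sub_comm, norm_sub_rev z z']
      exact lip_phi (v1 z' z) (v2 z' z) e (v3 z) (v4 z) ((H.phi z).trans hφ)
  intro z z'
  have p : 0 ≤ K * ‖z - z'‖ := mul_nonneg (by linarith) (norm_nonneg _)
  refine ⟨(v1 z z').trans (by linarith), (ph z z').trans (by linarith), ?_, ?_⟩
  · have x1 : ‖V1 Y n z - V1 Y n z'‖ ≤ K * ‖z - z'‖ := g2 z z' _ _ (H.fr.one z') (H.fr.lip z z')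
    have x2 : ‖V2 Y n z - V2 Y n z'‖ ≤ K * ‖z - z'‖ :=
      g2 z z' _ _ (norm_I_mul (H.fr.one z')) (lI z z')
    have x3 : ‖Phi f n z • (V1 Y n z' - V1 Y n z)‖ ≤ 1 / 10 * (K * ‖z - z'‖) := by
      rw [norm_smul, Real.norm_eq_abs, norm_sub_rev]
      exact mul_le_mul ((H.phi z).trans hφ) x1 (norm_nonneg _) (by norm_num)
    have x4 : ‖(Phi f n z' - Phi f n z) • V1 Y n z'‖ ≤ 2 * (100 * K * ‖z - z'‖) * 2 := by
      rw [norm_smul, Real.norm_eq_abs, abs_sub_comm]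
      exact mul_le_mul (ph z z') (y1 z' _ (H.fr.one z')) (norm_nonneg _) (by linarith)
    have := norm_add₃_le (a := V2 Y n z - V2 Y n z') (b := Phi f n z • (V1 Y n z' - V1 Y n z))
      (c := (Phi f n z' - Phi f n z) • V1 Y n z')
    rw [show V2 Y n z - V2 Y n z' + Phi f n z • (V1 Y n z' - V1 Y n z) +
      (Phi f n z' - Phi f n z) • V1 Y n z' =
      V2 Y n z - Phi f n z • V1 Y n z - (V2 Y n z' - Phi f n z' • V1 Y n z') by
        rw [smul_sub, sub_smul]; abel] at this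
    linarith
  · have n0 : ∀ m : ℂ, ‖m - m‖ ≤ Ln * ‖z - z'‖ := fun m => by rw [sub_self, norm_zero]; positivity
    have x1 := g2 z z' 1 1 norm_one (n0 1)
    have x2 := g2 z z' I I norm_I (n0 I)
    have x3 : |wd (fderiv ℝ Y z 1 - fderiv ℝ Y z' 1) (fderiv ℝ Y z I)| ≤ K * ‖z - z'‖ * 2 :=
      (abs_wd_le _ _).trans (mul_le_mul x1 (y1 z I norm_I) (norm_nonneg _) p)
    have x4 : |wd (fderiv ℝ Y z' 1) (fderiv ℝ Y z I - fderiv ℝ Y z' I)| ≤ 2 * (K * ‖z - z'‖) :=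
      (abs_wd_le _ _).trans (mul_le_mul (y1 z' 1 norm_one) x2 (norm_nonneg _) (by norm_num))
    have := abs_add_le (wd (fderiv ℝ Y z 1 - fderiv ℝ Y z' 1) (fderiv ℝ Y z I))
      (wd (fderiv ℝ Y z' 1) (fderiv ℝ Y z I - fderiv ℝ Y z' I))
    rw [wd_sub_left, wd_sub_right, sub_add_sub_cancel] at this
    rw [wd_sub_left] at x3
    rw [wd_sub_right] at x4
    unfold jac
    linarith

end
end Pool.Agent.MP_20bec2_an.Pl

end MrgPart4

-- marker of a merged file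
example : 731051 + 523966 = 731051 + 523966 := rfl
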