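import Mathlib.Analysis.Calculus.FDeriv.Symmetric
import Mathlib.Analysis.Calculus.FDeriv.Partial
import Mathlib.Analysis.Calculus.ParametricIntervalIntegral
import Mathlib.Topology.MetricSpace.Contracting
import Mathlib.MeasureTheory.Integral.RieszMarkovKakutani.Real
import Pool.Agent.MP_20bec2_an.Pl.La
import Pool.Agent.MP_20bec2_an.Pl.Iter
import Pool.Agent.MP_20bec2_an.Pl.Dens
import Pool.Agent.MP_20bec2_an.Pl.Core
import Pool.Agent.MP_20bec2_an.Pl.Step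
import Pool.Agent.MP_20bec2_an.Pl.Final
import Pool.Agent.MP_20bec2_an.Pl.Block
import Pool.Agent.MP_20bec2_an.Pl.Cycle

-- ======== part 0: formerly Pool.Agent.MP_20bec2_an.Pl.Ga
section MrgPart0

set_option autoImplicit false
open MeasureTheory Set Complex ProbabilityTheory

namespace Pool.Agent.MP_20bec2_an.Pl
noncomputable section

namespace Ga

lemma moment : Integrable (fun θ : ℂ => (1 + ‖θ‖) ^ 8 * Real.exp ‖θ‖) gam := by
  obtain ⟨c, hc, h⟩ := IsGaussian.exists_integrable_exp_sq gam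
  refine (h.const_mul (Real.exp (81 / (4 * c)))).mono' (by fun_prop) (ae_of_all _ fun θ => ?_)
  have h0 := norm_nonneg θ
  rw [Real.norm_of_nonneg (by positivity), ← Real.exp_add]
  have h1 : (1 + ‖θ‖) ^ 8 ≤ Real.exp ‖θ‖ ^ 8 :=
    pow_le_pow_left₀ (by positivity) (by linarith [Real.add_one_le_exp ‖θ‖]) 8
  refine (mul_le_mul_of_nonneg_right h1 (Real.exp_pos _).le).trans ?_
  rw [← pow_succ, ← Real.exp_nat_mul]
  refine Real.exp_le_exp.2 ?_
  have h2 : 81 / (4 * c) * c = 81 / 4 := by field_simp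
  push_cast
  refine le_of_mul_le_mul_right ?_ hc
  nlinarith [sq_nonneg (c * ‖θ‖ - 9 / 2)]

lemma rot {c s : ℝ} (h : c ^ 2 + s ^ 2 = 1) : MeasurePreserving
    (fun p : ℂ × ℂ => (c • p.1 + s • p.2, (-s) • p.1 + c • p.2)) (gam.prod gam) (gam.prod gam) := by
  have h1 : ‖(⟨c, s⟩ : ℂ)‖ = 1 := by
    rw [← sq_eq_sq₀ (norm_nonneg _) zero_le_one, Complex.sq_norm, normSq_mk]; linarith
  have h2 : (⟨c, s⟩ : ℂ) ≠ 0 := by rintro h; rw [h] at h1; simp at h1
  have h3 : Real.cos (arg ⟨c, s⟩) = c := by rw [cos_arg h2, h1, div_one]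
  have h4 : Real.sin (arg ⟨c, s⟩) = s := by rw [sin_arg, h1, div_one]
  have h5 := IsGaussian.map_rotation_eq_self (μ := gam) gam_mean (arg ⟨c, s⟩)
  refine ⟨by fun_prop, ?_⟩
  rw [← h5]
  conv_lhs => rw [h5]
  congr 1
  funext p
  rw [ContinuousLinearMap.rotation_apply, h3, h4]

/-- the density -/
def den (θ : ℂ) : ℝ := gaussianPDFReal 0 1 θ.re * gaussianPDFReal 0 1 θ.im

lemma den_pos (θ : ℂ) : 0 < den θ :=
  mul_pos (gaussianPDFReal_pos _ _ _ one_ne_zero) (gaussianPDFReal_pos _ _ _ one_ne_zero)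

lemma den_meas : Measurable den := by unfold den; fun_prop

lemma gam_eq : gam = volume.withDensity fun θ => ENNReal.ofReal (den θ) := by
  have h1 : gam = ((gaussianReal 0 1).prod (gaussianReal 0 1)).map
      measurableEquivRealProd.symm := by
    rw [gam, stdGaussian_eq_map_pi_orthonormalBasis orthonormalBasisOneI,
      ← (measurePreserving_finTwoArrow (gaussianReal 0 1)).map_eq,
      Measure.map_map (by fun_prop) (by fun_prop)]
    congr 1
    funext x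
    apply Complex.ext <;> simp [Fin.sum_univ_two]
  rw [h1, gaussianReal_of_var_ne_zero _ one_ne_zero,
    prod_withDensity (measurable_gaussianPDF _ _) (measurable_gaussianPDF _ _)]
  ext s hs
  rw [MeasurableEquiv.map_apply, withDensity_apply _ hs,
    withDensity_apply _ (measurableEquivRealProd.symm.measurable hs)]
  rw [← (volume_preserving_equiv_real_prod.symm _).setLIntegral_comp_preimage_emb
    measurableEquivRealProd.symm.measurableEmbedding]
  refine lintegral_congr fun p => ?_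
  rw [den, ENNReal.ofReal_mul (gaussianPDFReal_nonneg _ _ _)]
  rfl

lemma int_eq (F : ℂ → ℝ) : ∫ θ, F θ ∂gam = ∫ θ, den θ * F θ := by
  rw [gam_eq, integral_withDensity_eq_integral_toReal_smul den_meas.ennreal_ofReal
    (ae_of_all _ fun _ => ENNReal.ofReal_lt_top)]
  simp only [ENNReal.toReal_ofReal (den_pos _).le, smul_eq_mul]

lemma ball_pos : 0 < gam.real {θ | ‖θ‖ ≤ 1} := by
  refine ENNReal.toReal_pos (fun h => ?_) (measure_ne_top _ _)
  have h1 : (volume : Measure ℂ) ≪ gam := by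
    rw [gam_eq]
    exact withDensity_absolutelyContinuous' den_meas.ennreal_ofReal.aemeasurable
      (ae_of_all _ fun θ => (ENNReal.ofReal_pos.2 (den_pos θ)).ne')
  have h2 : {θ : ℂ | ‖θ‖ ≤ 1} = Metric.closedBall 0 1 := by ext; simp
  rw [h2] at h
  exact (Metric.measure_closedBall_pos volume (0 : ℂ) one_pos).ne' (h1 h)

lemma den_sub (θ v : ℂ) : den (θ - v) = den θ * Real.exp (ip θ v - ‖v‖ ^ 2 / 2) := by
  simp only [den, gaussianPDFReal, sub_re, sub_im, ip, NNReal.coe_one, mul_one, sub_zero]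
  rw [mul_mul_mul_comm, mul_mul_mul_comm _ (Real.exp (-θ.re ^ 2 / 2)), mul_assoc (_ * _),
    ← Real.exp_add, ← Real.exp_add, ← Real.exp_add, Complex.sq_norm, normSq_apply]
  congr 2
  ring

/-- shift formula -/
lemma shift (g : ℂ → ℝ) (v : ℂ) :
    ∫ θ, g (θ + v) ∂gam = ∫ θ, Real.exp (ip θ v - ‖v‖ ^ 2 / 2) * g θ ∂gam := by
  rw [int_eq, int_eq, ← integral_sub_right_eq_self _ v]
  simp only [sub_add_cancel, den_sub, mul_assoc]

lemma abs_exp_sub_one (x : ℝ) : |Real.exp x - 1| ≤ |x| * Real.exp |x| := by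
  rcases le_total 0 x with h | h
  · have h1 := Real.add_one_le_exp (-x)
    have h2 : Real.exp (-x) * Real.exp x = 1 := by rw [← Real.exp_add]; simp
    rw [abs_of_nonneg h, abs_of_nonneg (by linarith [Real.add_one_le_exp x])]
    nlinarith [Real.exp_pos x]
  · have h1 := Real.add_one_le_exp x
    have h2 : 1 ≤ Real.exp (-x) := Real.one_le_exp (by linarith)
    rw [abs_of_nonpos h, abs_of_nonpos (by linarith [Real.exp_le_one_iff.2 h])]
    nlinarith

lemma int_bdd {α : Type} [MeasurableSpace α] [TopologicalSpace α] [OpensMeasurableSpace α]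
    (μ : Measure α) [IsFiniteMeasure μ] {g : α → ℝ} {B : ℝ} (hg : Continuous g)
    (hB : ∀ x, |g x| ≤ B) : Integrable g μ :=
  (integrable_const B).mono' hg.aestronglyMeasurable (ae_of_all _ hB)

lemma abs_int_le {g : ℂ → ℝ} {B : ℝ} (hB : ∀ x, |g x| ≤ B) : |∫ θ, g θ ∂gam| ≤ B := by
  simpa using norm_integral_le_of_norm_le_const (μ := gam) (f := g) (C := B) (ae_of_all _ hB)

lemma shift_le : ∃ C : ℝ, 2 ≤ C ∧ ∀ (g : ℂ → ℝ) (B : ℝ), Continuous g → (∀ x, |g x| ≤ B) →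
    ∀ v, |∫ θ, g (θ + v) ∂gam - ∫ θ, g θ ∂gam| ≤ C * B * ‖v‖ := by
  obtain ⟨M, hM⟩ : ∃ M, M = ∫ θ, (1 + ‖θ‖) ^ 8 * Real.exp ‖θ‖ ∂gam := ⟨_, rfl⟩
  have hM0 : 0 ≤ M := hM ▸ integral_nonneg fun θ => by positivity
  refine ⟨2 + Real.exp 1 * M, by have := Real.exp_pos 1; nlinarith, fun g B hg hB v => ?_⟩
  have hB0 : 0 ≤ B := (abs_nonneg _).trans (hB 0)
  have hv0 := norm_nonneg v
  have h0 : 0 ≤ Real.exp 1 * M * B * ‖v‖ := by positivity
  rcases le_total 1 ‖v‖ with hv | hv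
  · have h1 := abs_int_le (g := fun θ => g (θ + v)) fun x => hB _
    have h2 := abs_int_le hB
    have h3 := abs_sub (∫ θ, g (θ + v) ∂gam) (∫ θ, g θ ∂gam)
    nlinarith
  have h1 : ∀ θ : ℂ, ‖(Real.exp (ip θ v - ‖v‖ ^ 2 / 2) - 1) * g θ‖ ≤
      Real.exp 1 * B * ‖v‖ * ((1 + ‖θ‖) ^ 8 * Real.exp ‖θ‖) := by
    intro θ
    have e0 := norm_nonneg θ
    have e1 : |ip θ v - ‖v‖ ^ 2 / 2| ≤ ‖v‖ * (1 + ‖θ‖) := by
      refine (abs_sub _ _).trans ?_
      rw [abs_of_nonneg (by positivity : 0 ≤ ‖v‖ ^ 2 / 2)]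
      nlinarith [abs_ip_le θ v]
    have e2 : Real.exp |ip θ v - ‖v‖ ^ 2 / 2| ≤ Real.exp 1 * Real.exp ‖θ‖ := by
      rw [← Real.exp_add]
      exact Real.exp_le_exp.2 (e1.trans (by nlinarith))
    have e3 : 1 + ‖θ‖ ≤ (1 + ‖θ‖) ^ 8 := le_self_pow₀ (by linarith) (by norm_num)
    rw [Real.norm_eq_abs, abs_mul]
    calc _ ≤ (‖v‖ * (1 + ‖θ‖) ^ 8 * (Real.exp 1 * Real.exp ‖θ‖)) * B :=
          mul_le_mul ((abs_exp_sub_one _).trans (mul_le_mul
            (e1.trans (mul_le_mul_of_nonneg_left e3 hv0)) e2 (Real.exp_pos _).le (by positivity)))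
            (hB θ) (abs_nonneg _) (by positivity)
      _ = _ := by ring
  have h2 := moment.const_mul (Real.exp 1 * B * ‖v‖)
  have h3 : Integrable (fun θ => (Real.exp (ip θ v - ‖v‖ ^ 2 / 2) - 1) * g θ) gam :=
    h2.mono' (Continuous.aestronglyMeasurable (by unfold ip; fun_prop)) (ae_of_all _ h1)
  have h4 := int_bdd gam hg hB
  have h5 : ∫ θ, Real.exp (ip θ v - ‖v‖ ^ 2 / 2) * g θ ∂gam =
      ∫ θ, (Real.exp (ip θ v - ‖v‖ ^ 2 / 2) - 1) * g θ ∂gam + ∫ θ, g θ ∂gam := by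
    rw [← integral_add h3 h4]
    congr 1
    funext θ
    ring
  rw [shift, h5, add_sub_cancel_right]
  have h6 := norm_integral_le_of_norm_le h2 (ae_of_all _ h1)
  rw [integral_const_mul, ← hM, Real.norm_eq_abs] at h6
  nlinarith [mul_nonneg hB0 hv0]

/-- Gaussian smoothing -/
def sm (W : ℝ) (g : ℂ → ℝ) (x : ℂ) : ℝ := ∫ θ, g (x + W • θ) ∂gam

lemma sm_lip : ∃ C : ℝ, 2 ≤ C ∧ ∀ (g : ℂ → ℝ) (B W : ℝ), Continuous g → (∀ x, |g x| ≤ B) →
    0 < W → ∀ x y, |sm W g x - sm W g y| ≤ C * B / W * ‖x - y‖ := by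
  obtain ⟨C, hC, h⟩ := shift_le
  refine ⟨C, hC, fun g B W hg hB hW x y => ?_⟩
  have h1 := h (fun θ => g (y + W • θ)) B (by fun_prop) (fun _ => hB _) (W⁻¹ • (x - y))
  have h2 : ∀ θ : ℂ, y + W • (θ + W⁻¹ • (x - y)) = x + W • θ := fun θ => by
    rw [smul_add, smul_smul, mul_inv_cancel₀ hW.ne', one_smul]; abel
  simp only [h2] at h1
  rw [norm_smul, Real.norm_of_nonneg (inv_pos.2 hW).le] at h1
  exact h1.trans (le_of_eq (by ring))

lemma sm_sm {g : ℂ → ℝ} {B : ℝ} (hg : Continuous g) (hB : ∀ x, |g x| ≤ B) (W : ℝ) {c s : ℝ}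
    (h : c ^ 2 + s ^ 2 = 1) (x : ℂ) : sm W g x = sm (W * c) (sm (W * s) g) x := by
  have h1 : MeasurePreserving (fun p : ℂ × ℂ => c • p.1 + s • p.2) (gam.prod gam) gam :=
    measurePreserving_fst.comp (rot h)
  have h2 : Continuous fun θ : ℂ => g (x + W • θ) := by fun_prop
  rw [sm, ← h1.map_eq, integral_map h1.measurable.aemeasurable h2.aestronglyMeasurable,
    integral_prod _ (int_bdd _ (by fun_prop) fun _ => hB _)]
  simp only [sm, smul_add, smul_smul, add_assoc]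

lemma sm_sub {g : ℂ → ℝ} {B : ℝ} (hg : Continuous g) (hB : ∀ x, |g x| ≤ B) (W : ℝ) (x b : ℂ) :
    sm W g (x + b) - sm W g x = sm W (fun y => g (y + b) - g y) x := by
  rw [sm, sm, ← integral_sub (int_bdd _ (by fun_prop) fun _ => hB _)
    (int_bdd _ (by fun_prop) fun _ => hB _)]
  simp only [sm, add_right_comm x b]

lemma sm_d2 : ∃ C : ℝ, 1 ≤ C ∧ ∀ (g : ℂ → ℝ) (B W : ℝ), Continuous g → (∀ x, |g x| ≤ B) →
    0 < W → D2 (sm W g) B (C * B / W) (C * B / W ^ 2) := by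
  obtain ⟨C, hC, h⟩ := sm_lip
  refine ⟨3 * C ^ 2, by nlinarith, fun g B W hg hB hW => ?_⟩
  have hB0 : 0 ≤ B := (abs_nonneg _).trans (hB 0)
  refine ⟨⟨by positivity, by positivity, fun x y => (h g B W hg hB hW x y).trans ?_,
    fun x a b => ?_⟩, fun x => abs_int_le fun _ => hB _⟩
  · refine mul_le_mul_of_nonneg_right (div_le_div_of_nonneg_right
      (mul_le_mul_of_nonneg_right (by nlinarith) hB0) hW.le) (norm_nonneg _)
  · have h1 := h g B (W * (4 / 5)) hg hB (by positivity)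
    have h2 : ∀ y, |sm (W * (4 / 5)) g y| ≤ B := fun y => abs_int_le fun _ => hB _
    have h3 : Continuous (sm (W * (4 / 5)) g) :=
      (LipschitzWith.of_dist_le' (K := C * B / (W * (4 / 5))) fun y z => by
        rw [Real.dist_eq, dist_eq_norm]; exact h1 y z).continuous
    have h4 := h (fun y => sm (W * (4 / 5)) g (y + b) - sm (W * (4 / 5)) g y)
      (C * B / (W * (4 / 5)) * ‖b‖) (W * (3 / 5)) (by fun_prop)
      (fun y => by simpa using h1 (y + b) y) (by positivity) (x + a) x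
    rw [← sm_sub h3 h2, ← sm_sub h3 h2, add_sub_cancel_left] at h4
    simp only [sm_sm hg hB W (c := 3 / 5) (s := 4 / 5) (by norm_num)]
    rw [Real.norm_eq_abs]
    refine le_trans (le_of_eq (by congr 1; ring)) (h4.trans ?_)
    have h5 : C * (C * B / (W * (4 / 5)) * ‖b‖) / (W * (3 / 5)) * ‖a‖ =
        25 / 12 * (C ^ 2 * B / W ^ 2 * ‖a‖ * ‖b‖) := by field_simp; ring
    have h6 : 0 ≤ C ^ 2 * B / W ^ 2 * ‖a‖ * ‖b‖ := by positivity
    rw [h5, show 3 * C ^ 2 * B / W ^ 2 * ‖a‖ * ‖b‖ = 3 * (C ^ 2 * B / W ^ 2 * ‖a‖ * ‖b‖) by ring]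
    linarith

end Ga

open Ga in
theorem ga : GaStmt := by
  obtain ⟨C, hC, h⟩ := sm_d2
  obtain ⟨M, hM⟩ : ∃ M, M = ∫ θ, (1 + ‖θ‖) ^ 8 * Real.exp ‖θ‖ ∂gam := ⟨_, rfl⟩
  have hM0 : 0 ≤ M := hM ▸ integral_nonneg fun θ => by positivity
  have hb := ball_pos
  have hb' : 0 < 1 / gam.real {θ | ‖θ‖ ≤ 1} := by positivity
  refine ⟨C + M + 1 / gam.real {θ | ‖θ‖ ≤ 1}, by linarith, ⟨moment, by linarith⟩, ?_,
    fun c s hcs => rot hcs, fun g B W hg hB hW => ?_⟩
  · rw [one_div_le (by linarith) hb]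
    linarith
  · have hB0 : 0 ≤ B := (abs_nonneg _).trans (hB 0)
    have h1 : C * B ≤ (C + M + 1 / gam.real {θ | ‖θ‖ ≤ 1}) * B :=
      mul_le_mul_of_nonneg_right (by linarith) hB0
    exact (h g B W hg hB hW).mono le_rfl (div_le_div_of_nonneg_right h1 hW.le)
      (div_le_div_of_nonneg_right h1 (by positivity))

end
end Pool.Agent.MP_20bec2_an.Pl

end MrgPart0

-- ======== part 1: formerly Pool.Agent.MP_20bec2_an.Pl.Tools
section MrgPart1

set_option autoImplicit false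
open MeasureTheory Set Complex Filter Topology

namespace Pool.Agent.MP_20bec2_an.Pl
noncomputable section

namespace Tools

lemma cont_mk : Continuous fun p : ℝ × ℝ => (⟨p.1, p.2⟩ : ℂ) :=
  Complex.equivRealProdCLM.symm.continuous

lemma col_cont {ρ : ℂ → ℝ} (h : Continuous ρ) (a : ℝ) :
    Continuous fun p : ℝ × ℝ => col ρ a p.1 p.2 :=
  intervalIntegral.continuous_parametric_primitive_of_continuous
    (f := fun u t : ℝ => ρ ⟨u, t⟩) (h.comp cont_mk)

lemma col_du {ρ : ℂ → ℝ} (h : ContDiff ℝ 1 ρ) (a u w : ℝ) :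
    HasDerivAt (fun u => col ρ a u w) (col (fun p => fderiv ℝ ρ p 1) a u w) u := by
  have c1 : Continuous fun p : ℝ × ℝ => fderiv ℝ ρ ⟨p.1, p.2⟩ 1 :=
    ((h.continuous_fderiv one_ne_zero).clm_apply continuous_const).comp cont_mk
  have c0 : ∀ x : ℝ, Continuous fun t : ℝ => ρ ⟨x, t⟩ := fun x =>
    (h.continuous.comp cont_mk).comp (Continuous.prodMk_right x)
  obtain ⟨B, hB⟩ := ((isCompact_closedBall u 1).prod
    (isCompact_uIcc (a := a) (b := w))).exists_bound_of_continuousOn c1.continuousOn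
  exact (intervalIntegral.hasDerivAt_integral_of_dominated_loc_of_deriv_le
    (F := fun x t : ℝ => ρ ⟨x, t⟩) (F' := fun x t : ℝ => fderiv ℝ ρ ⟨x, t⟩ 1) (bound := fun _ => B)
    (Metric.closedBall_mem_nhds u one_pos)
    (Eventually.of_forall fun x => (c0 x).aestronglyMeasurable) ((c0 u).intervalIntegrable _ _)
    (c1.comp (Continuous.prodMk_right u)).aestronglyMeasurable
    (Eventually.of_forall fun t ht x hx => hB (x, t) ⟨hx, uIoc_subset_uIcc ht⟩)
    intervalIntegrable_const (Eventually.of_forall fun t _ x _ =>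
      (h.differentiable one_ne_zero _).hasFDerivAt.comp_hasDerivAt x (hasDerivAt_lineRe x t))).2

lemma col_dw {ρ : ℂ → ℝ} (h : Continuous ρ) (a u w : ℝ) :
    HasDerivAt (fun w => col ρ a u w) (ρ ⟨u, w⟩) w :=
  (((h.comp cont_mk).comp (Continuous.prodMk_right u)).integral_hasStrictDerivAt a w).hasDerivAt

lemma ring_inv {X R : Type*} [NormedAddCommGroup X] [NormedRing R] {f g : X → R} {B1 B2 K : ℝ}
    (hf : L2 f B1 B2) (h1 : ∀ x, f x * g x = 1) (h2 : ∀ x, g x * f x = 1) (h0 : ∀ x, ‖g x‖ ≤ K) :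
    D2 g K (K ^ 2 * B1) (K ^ 2 * B2 + 2 * K ^ 3 * B1 ^ 2) := by
  have := hf.n1; have := hf.n2
  have K0 : 0 ≤ K := (norm_nonneg _).trans (h0 0)
  have e : ∀ x y, g x - g y = -(g x * (f x - f y) * g y) := fun x y => by
    rw [mul_sub, sub_mul, h2, mul_assoc, h1, one_mul, mul_one, neg_sub]
  have n3 : ∀ {a b c : R} {A B C : ℝ}, ‖a‖ ≤ A → ‖b‖ ≤ B → ‖c‖ ≤ C → ‖a * b * c‖ ≤ A * B * C :=
    fun ha hb hc => norm_mul_le_of_le (norm_mul_le_of_le ha hb) hc
  have l : ∀ x y, ‖g x - g y‖ ≤ K ^ 2 * B1 * ‖x - y‖ := fun x y => by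
    rw [e, norm_neg]
    exact (n3 (h0 x) (hf.b1 x y) (h0 y)).trans (le_of_eq (by ring))
  refine ⟨⟨by positivity, by positivity, l, fun x a b => ?_⟩, h0⟩
  have e2 : g (x + a + b) - g (x + a) - g (x + b) + g x =
      -(g (x + a + b) * (f (x + a + b) - f (x + a) - f (x + b) + f x) * g (x + b) +
        (g (x + a + b) - g (x + a)) * (f (x + a) - f x) * g (x + b) +
        g (x + a) * (f (x + a) - f x) * (g (x + b) - g x)) := by
    have a1 := e (x + a + b) (x + b)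
    have a2 := e (x + a) x
    calc _ = (g (x + a + b) - g (x + b)) - (g (x + a) - g x) := by abel
      _ = -(g (x + a + b) * (f (x + a + b) - f (x + b)) * g (x + b)) -
          -(g (x + a) * (f (x + a) - f x) * g x) := by rw [a1, a2]
      _ = _ := by noncomm_ring
  have f1 : ‖f (x + a) - f x‖ ≤ B1 * ‖a‖ := by simpa using hf.b1 (x + a) x
  have g1 : ‖g (x + a + b) - g (x + a)‖ ≤ K ^ 2 * B1 * ‖b‖ := by simpa using l (x + a + b) (x + a)
  have g2 : ‖g (x + b) - g x‖ ≤ K ^ 2 * B1 * ‖b‖ := by simpa using l (x + b) x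
  rw [e2, norm_neg]
  exact (norm_add_le_of_le (norm_add_le_of_le (n3 (h0 _) (hf.b2 x a b) (h0 _)) (n3 g1 f1 (h0 _)))
    (n3 (h0 _) f1 g2)).trans (le_of_eq (by ring))

end Tools

open Tools

theorem prim : PrimStmt := by
  intro ρ a h
  have c1 : Continuous fun p => fderiv ℝ ρ p 1 :=
    (h.continuous_fderiv one_ne_zero).clm_apply continuous_const
  have c2 := col_cont c1 a
  have c3 := h.continuous.comp cont_mk
  have cs : Continuous fun r : ℝ => ContinuousLinearMap.toSpanSingleton ℝ r :=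
    continuous_clm_apply.2 fun v => by simp only [ContinuousLinearMap.toSpanSingleton_apply]; fun_prop
  have d : ∀ p : ℂ, HasFDerivAt (fun p : ℂ => col ρ a p.re p.im)
      (col (fun p => fderiv ℝ ρ p 1) a p.re p.im • reCLM + ρ p • imCLM) p := fun p => by
    have k := hasStrictFDerivAt_uncurry_coprod (𝕜 := ℝ) (u := (p.re, p.im)) (f := col ρ a)
      (f₁ := fun u w => ContinuousLinearMap.toSpanSingleton ℝ
        (col (fun p => fderiv ℝ ρ p 1) a u w))
      (f₂ := fun u w => ContinuousLinearMap.toSpanSingleton ℝ (ρ ⟨u, w⟩))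
      (Eventually.of_forall fun v => (col_du h a v.1 v.2).hasFDerivAt)
      (Eventually.of_forall fun v => (col_dw h.continuous a v.1 v.2).hasFDerivAt)
      (cs.comp c2).continuousAt (cs.comp c3).continuousAt
    refine (k.hasFDerivAt.comp p (Complex.equivRealProdCLM.hasFDerivAt (x := p))).congr_fderiv ?_
    ext v
    simp [Function.HasUncurry.uncurry, mul_comm]
  have e := funext fun p => (d p).fderiv
  refine ⟨contDiff_one_iff_fderiv.2 ⟨fun p => (d p).differentiableAt, ?_⟩, fun p => ?_⟩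
  · rw [show fderiv ℝ (fun p : ℂ => col ρ a p.re p.im) = _ from e]
    exact ((c2.comp (continuous_re.prodMk continuous_im)).smul continuous_const).add
      (h.continuous.smul continuous_const)
  · rw [(d p).fderiv]
    simp

theorem imp : ImpStmt := by
  intro F m hm hF h
  have d : ∀ x s, HasDerivAt (fun s => F (x, s)) (fderiv ℝ F (x, s) (0, 1)) s := fun x s =>
    (hF.differentiable one_ne_zero _).hasFDerivAt.comp_hasDerivAt s
      ((hasDerivAt_const s x).prodMk (hasDerivAt_id s))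
  have sl : ∀ x s t, s ≤ t → m * (t - s) ≤ F (x, t) - F (x, s) := fun x s t hst =>
    mul_sub_le_image_sub_of_le_deriv (f := fun s => F (x, s)) (fun s => (d x s).differentiableAt)
      (fun s => by rw [(d x s).deriv]; exact h _) hst
  have ex : ∀ x, ∃ s, F (x, s) = 0 := fun x => by
    have r0 : 0 ≤ |F (x, 0)| / m := by positivity
    have e : m * (|F (x, 0)| / m) = |F (x, 0)| := mul_div_cancel₀ _ hm.ne'
    have a1 := sl x 0 _ r0
    have a2 := sl x (-(|F (x, 0)| / m)) 0 (by linarith)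
    obtain ⟨s, -, hs⟩ := intermediate_value_Icc (f := fun s => F (x, s))
      (show -(|F (x, 0)| / m) ≤ |F (x, 0)| / m by linarith)
      (fun s _ => (d x s).continuousAt.continuousWithinAt)
      (show (0 : ℝ) ∈ Icc _ _ from ⟨by linarith [le_abs_self (F (x, 0))],
        by linarith [neg_abs_le (F (x, 0))]⟩)
    exact ⟨s, hs⟩
  choose lam hl using ex
  have b : ∀ x s, m * |s - lam x| ≤ |F (x, s)| := fun x s => by
    rcases le_total s (lam x) with k | k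
    · have := sl x _ _ k
      rw [abs_of_nonpos (sub_nonpos.2 k)]
      linarith [hl x, neg_abs_le (F (x, s))]
    · have := sl x _ _ k
      rw [abs_of_nonneg (sub_nonneg.2 k)]
      linarith [hl x, le_abs_self (F (x, s))]
  have dl : ∀ x, HasFDerivAt lam (-(fderiv ℝ F (x, lam x) (0, 1))⁻¹ •
      (fderiv ℝ F (x, lam x)).comp (ContinuousLinearMap.inl ℝ ℂ ℝ)) x := fun x => by
    have c0 : fderiv ℝ F (x, lam x) (0, 1) ≠ 0 := (hm.trans_le (h _)).ne'
    set A := fderiv ℝ F (x, lam x) with hA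
    set L := -(A (0, 1))⁻¹ • A.comp (ContinuousLinearMap.inl ℝ ℂ ℝ) with hL
    have k1 : HasFDerivAt F A (x, lam x + L (x - x)) := by
      simpa using (hF.differentiable one_ne_zero (x, lam x)).hasFDerivAt
    have k2 : HasFDerivAt (fun y => F (y, lam x + L (y - x))) (0 : ℂ →L[ℝ] ℝ) x := by
      refine (k1.comp x ((hasFDerivAt_id x).prodMk ((L.hasFDerivAt.comp x
        ((hasFDerivAt_id x).sub_const x)).const_add (lam x)))).congr_fderiv ?_
      ext v
      have e : ((v, L v) : ℂ × ℝ) = (v, 0) + L v • ((0, 1) : ℂ × ℝ) := by simp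
      simp only [ContinuousLinearMap.comp_apply, ContinuousLinearMap.prod_apply,
        ContinuousLinearMap.id_apply, zero_apply]
      rw [e, map_add, map_smul]
      simp only [hL, smul_apply, ContinuousLinearMap.comp_apply, ContinuousLinearMap.inl_apply,
        smul_eq_mul]
      field_simp
      ring
    rw [hasFDerivAt_iff_isLittleO] at k2 ⊢
    refine (Asymptotics.IsBigO.of_bound m⁻¹ (Eventually.of_forall fun y => ?_)).trans_isLittleO k2
    simp only [sub_self, map_zero, add_zero, hl, zero_apply, sub_zero, Real.norm_eq_abs]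
    rw [le_inv_mul_iff₀ hm, sub_sub, abs_sub_comm]
    exact b _ _
  refine ⟨lam, hl, b, fun x => (dl x).differentiableAt, fun x v => ?_⟩
  have c0 : fderiv ℝ F (x, lam x) (0, 1) ≠ 0 := (hm.trans_le (h _)).ne'
  rw [(dl x).fderiv]
  simp only [smul_apply, ContinuousLinearMap.comp_apply, ContinuousLinearMap.inl_apply, smul_eq_mul]
  field_simp

theorem inv : InvStmt := by
  refine ⟨10, by norm_num, fun Y b h hh hb hd H => ?_⟩
  have b0 := H.nonneg hh
  have lo := fun z z' => (bilip_of_near hd H.b0 z z').1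
  have su : ∀ y, ∃ z, Y z = y := fun y => by
    have hc : ContractingWith (1 / 10) fun z => y - (Y z - z) :=
      ⟨by norm_num, LipschitzWith.of_dist_le_mul fun a c => by
        rw [dist_sub_left, dist_eq_norm, dist_eq_norm]
        push_cast
        exact convex_univ.norm_image_sub_le_of_norm_hasFDerivWithin_le (f := fun z => Y z - z)
          (fun x _ => ((hd x).hasFDerivAt.sub (hasFDerivAt_id x)).hasFDerivWithinAt)
          (fun x _ => H.b0 x) (mem_univ c) (mem_univ a)⟩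
    have h1 : y - (Y (hc.fixedPoint _) - hc.fixedPoint _) = hc.fixedPoint _ :=
      hc.fixedPoint_isFixedPt
    exact ⟨_, by linear_combination -h1⟩
  choose J hJ using su
  have hJ' : ∀ z, J (Y z) = z := fun z => by
    have := lo (J (Y z)) z
    rw [hJ, sub_self, norm_zero] at this
    exact sub_eq_zero.1 (norm_eq_zero.1 (by linarith [norm_nonneg (J (Y z) - z)]))
  have lJ : ∀ x y, ‖J x - J y‖ ≤ 10 / 9 * ‖x - y‖ := fun x y => by
    have := lo (J x) (J y)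
    rw [hJ, hJ] at this
    linarith
  have cJ : Continuous J := (LipschitzWith.of_dist_le_mul (K := ⟨10 / 9, by norm_num⟩)
    fun x y => by rw [dist_eq_norm, dist_eq_norm]; exact lJ x y).continuous
  have un : ∀ z, ∃ B : ℂ →L[ℝ] ℂ, fderiv ℝ Y z * B = 1 ∧ B * fderiv ℝ Y z = 1 := fun z => by
    have k : ‖1 - fderiv ℝ Y z‖ < 1 := by
      rw [norm_sub_rev]; exact (H.b0 z).trans_lt (by norm_num)
    have e : ((Units.oneSub _ k : (ℂ →L[ℝ] ℂ)ˣ) : ℂ →L[ℝ] ℂ) = fderiv ℝ Y z := by simp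
    generalize Units.oneSub _ k = u at e
    exact ⟨↑u⁻¹, by rw [← e, Units.mul_inv], by rw [← e, Units.inv_mul]⟩
  choose B hB1 hB2 using un
  have nB : ∀ z, ‖B z‖ ≤ 10 / 9 := fun z => by
    have e : B z = 1 - (fderiv ℝ Y z - 1) * B z := by rw [sub_mul, hB1, one_mul, sub_sub_cancel]
    have k : ‖B z‖ ≤ 1 + 1 / 10 * ‖B z‖ := by
      conv_lhs => rw [e]
      exact norm_sub_le_of_le norm_one.le (norm_mul_le_of_le (H.b0 z) le_rfl)
    linarith
  have dB := ring_inv H.toL2.of_sub_const hB1 hB2 nB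
  have dJ : ∀ x, HasFDerivAt J (B (J x)) x := fun x =>
    HasFDerivAt.of_local_left_inverse (f' := ContinuousLinearEquiv.equivOfInverse
      (fderiv ℝ Y (J x)) (B (J x)) (fun v => DFunLike.congr_fun (hB2 (J x)) v)
      fun v => DFunLike.congr_fun (hB1 (J x)) v) cJ.continuousAt (hd _).hasFDerivAt
      (Eventually.of_forall hJ)
  have e : fderiv ℝ J = fun x => B (J x) := funext fun x => (dJ x).fderiv
  have l2 : L2 J (10 / 9) ((10 / 9) ^ 2 * (b / h) * (10 / 9)) :=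
    L2.of_fderiv (fun x => (dJ x).differentiableAt) (fun x => by rw [e]; exact nB _)
      (by positivity) fun x y => by
        rw [e, mul_assoc]
        exact (dB.b1 _ _).trans (mul_le_mul_of_nonneg_left (lJ x y) (by positivity))
  refine ⟨J, hJ, hJ', ⟨fun x => (dJ x).differentiableAt, e ▸ (dB.comp l2).mono le_rfl ?_ ?_⟩,
    fun x ζ => ?_⟩
  · have : 0 ≤ b / h := by positivity
    rw [mul_div_assoc]
    linarith
  · have k1 : (b / h) ^ 2 ≤ b / h ^ 2 := by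
      rw [div_pow]
      gcongr
      nlinarith
    have k2 : 0 ≤ b / h ^ 2 := by positivity
    rw [mul_div_assoc]
    nlinarith
  · rw [e]
    exact DFunLike.congr_fun (hB1 (J x)) ζ

end
end Pool.Agent.MP_20bec2_an.Pl

end MrgPart1

-- ======== part 2: formerly Pool.Agent.MP_20bec2_an.Pl.AvgB
section MrgPart2

set_option autoImplicit false
open MeasureTheory Set Complex Filter Finset

namespace Pool.Agent.MP_20bec2_an.Pl
namespace AvgB

variable {N1 N2 : ℕ}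

lemma setc_norm (j : ℕ) (θ : Fin N1 × Fin N2 → ℂ) (om : ℂ) : ‖setc j θ om‖ ≤ ‖θ‖ + ‖om‖ := by
  refine (pi_norm_le_iff_of_nonneg (by positivity)).mpr fun k => ?_
  unfold setc
  split_ifs
  · linarith [norm_nonneg θ]
  · linarith [norm_le_pi_norm θ k, norm_nonneg om]

lemma setc_meas (j : ℕ) : Measurable fun x : (Fin N1 × Fin N2 → ℂ) × ℂ => setc j x.1 x.2 := by
  refine measurable_pi_lambda _ fun k => ?_
  unfold setc
  split_ifs
  · exact measurable_snd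
  · exact (measurable_pi_apply k).comp measurable_fst

lemma pow_le {a b c : ℝ} (ha : 0 ≤ a) (hb : 0 ≤ b) (h0 : 0 ≤ c) (hc : c ≤ a + 2 * b) :
    (1 + c) ^ 4 ≤ (1 + a) ^ 4 * (16 * (1 + b) ^ 4) := by
  calc (1 + c) ^ 4 ≤ ((1 + a) * (2 * (1 + b))) ^ 4 := by gcongr; nlinarith [mul_nonneg ha hb]
    _ = _ := by ring

end AvgB
open AvgB in
theorem avg_ofB : AvgStmt := by
  obtain ⟨C, hC⟩ : ∃ C, C = ∫ o, 16 * (1 + ‖o‖) ^ 4 ∂gam := ⟨_, rfl⟩
  have gi : Integrable (fun o : ℂ => 16 * (1 + ‖o‖) ^ 4) gam := (gam_pow 4).const_mul 16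
  have hC1 : 1 ≤ C := by
    rw [hC]
    calc (1 : ℝ) = ∫ _ : ℂ, (1 : ℝ) ∂gam := by simp
      _ ≤ _ := integral_mono (integrable_const _) gi fun o => by
        have : 1 ≤ (1 + ‖o‖) ^ 4 := one_le_pow₀ (by linarith [norm_nonneg o])
        simp only; linarith
  refine ⟨C, hC1, fun N1 N2 J u0 w0 l H h W M j hh hl hH hW hM hJ => ?_⟩
  have hm : Measurable fun x : ((Fin N1 × Fin N2 → ℂ) × ℝ × ℝ) × ℂ =>
      J (setc j x.1.1 x.2) x.1.2.1 x.1.2.2 :=
    hJ.mea.comp ((((setc_meas j).comp (measurable_fst.fst.prodMk measurable_snd))).prodMk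
      measurable_fst.snd)
  have hm' : ∀ θ, Measurable fun x : ℂ × ℝ × ℝ => J (setc j θ x.1) x.2.1 x.2.2 := fun θ =>
    hm.comp (by fun_prop : Measurable fun x : ℂ × ℝ × ℝ => ((θ, x.2), x.1))
  have hb : ∀ θ o w, Dh (fun u => J (setc j θ o) u w) (M * (1 + ‖θ‖) ^ 4 * (16 * (1 + ‖o‖) ^ 4))
      (M * (1 + ‖θ‖) ^ 4 * (16 * (1 + ‖o‖) ^ 4)) h := fun θ o w => by
    have : M * (1 + ‖setc j θ o‖) ^ 4 ≤ M * (1 + ‖θ‖) ^ 4 * (16 * (1 + ‖o‖) ^ 4) := by
      rw [mul_assoc]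
      exact mul_le_mul_of_nonneg_left (pow_le (norm_nonneg _) (norm_nonneg _) (norm_nonneg _)
        (by linarith [setc_norm j θ o, norm_nonneg o])) hM
    exact (hJ.reg _ w).mono hh this this
  have hi : ∀ θ u w, Integrable (fun o => J (setc j θ o) u w) gam := fun θ u w =>
    (gi.const_mul (M * (1 + ‖θ‖) ^ 4)).mono'
      ((hm' θ).comp (by fun_prop : Measurable fun o : ℂ => (o, u, w))).aestronglyMeasurable
      (Eventually.of_forall fun o => (hb θ o w).b0 u)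
  refine ⟨fun θ θ' u w hk => ?_, fun θ w => ?_, ?_, fun θ θ' k hk => ?_⟩
  · refine integral_congr_ae (Eventually.of_forall fun o => hJ.loc _ _ u w fun k h1 h2 => ?_)
    unfold setc
    rw [hk k h1 h2]
  · have := D2.integral (μ := gam) (f := fun o u => J (setc j θ o) u w)
      (Eventually.of_forall fun o => hb θ o w) (fun u => (hi θ u w).1) (gi.const_mul _)
      ((gi.const_mul _).div_const _) ((gi.const_mul _).div_const _)
    simp only [integral_div, integral_const_mul (M * (1 + ‖θ‖) ^ 4), ← hC] at this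
    have e : M * (1 + ‖θ‖) ^ 4 * C = C * M * (1 + ‖θ‖) ^ 4 := by ring
    rw [e] at this
    exact this
  · exact (hm.stronglyMeasurable.integral_prod_right' (ν := gam)).measurable
  · have e : ∀ a1 a2 b1 b2 : ℝ, ∫ a in a1..a2, ∫ b in b1..b2, (avg j J θ a b - avg j J θ' a b) =
        ∫ o, (∫ a in a1..a2, ∫ b in b1..b2, (J (setc j θ o) a b - J (setc j θ' o) a b)) ∂gam :=
      fun a1 a2 b1 b2 => by
        rw [← Stg.swap2 ((hm' θ).sub (hm' θ')) ((gi.const_mul (M * (1 + ‖θ‖) ^ 4)).add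
          (gi.const_mul (M * (1 + ‖θ'‖) ^ 4))) fun o a b =>
            (abs_sub _ _).trans (add_le_add ((hb θ o b).b0 a) ((hb θ' o b).b0 a))]
        simp only [avg, integral_sub (hi θ _ _) (hi θ' _ _)]
    have hk' : ∀ o, ∀ k', k' ≠ k → setc j θ o k' = setc j θ' o k' := fun o k' h => by
      unfold setc; rw [hk k' h]
    refine ⟨fun u => ?_, ?_⟩
    · rw [e]
      have hp : ∀ o : ℂ, M * W * H * (1 + ‖setc j θ o‖ + ‖setc j θ' o‖) ^ 4 ≤
          M * W * H * (1 + ‖θ‖ + ‖θ'‖) ^ 4 * (16 * (1 + ‖o‖) ^ 4) := fun o => by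
        rw [mul_assoc (M * W * H)]
        refine mul_le_mul_of_nonneg_left ?_ (by positivity)
        have := pow_le (a := ‖θ‖ + ‖θ'‖) (b := ‖o‖) (c := ‖setc j θ o‖ + ‖setc j θ' o‖)
          (by positivity) (norm_nonneg _) (by positivity)
          (by linarith [setc_norm j θ o, setc_norm j θ' o])
        simpa only [add_assoc] using this
      have := norm_integral_le_of_norm_le (μ := gam) (gi.const_mul (M * W * H * (1 + ‖θ‖ + ‖θ'‖) ^ 4))
        (Eventually.of_forall fun o =>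
          (Real.norm_eq_abs _).le.trans (((hJ.flux _ _ k (hk' o)).1 u).trans (hp o)))
      rw [integral_const_mul, ← hC] at this
      exact this.trans_eq (by ring)
    · rw [e]; simp [fun o => (hJ.flux _ _ k (hk' o)).2]

end Pool.Agent.MP_20bec2_an.Pl

end MrgPart2

-- ======== part 3: formerly Pool.Agent.MP_20bec2_an.Pl.Stg
section MrgPart3

/-!
Choice of the variables of one colour.
-/

set_option autoImplicit false
open MeasureTheory Set Filter Finset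

namespace Pool.Agent.MP_20bec2_an.Pl
namespace Stg
noncomputable section

variable {N1 N2 : ℕ} {J : (Fin N1 × Fin N2 → ℂ) → ℝ → ℝ → ℝ} {u0 w0 l H h W M A : ℝ} {j : ℕ}
  {θ : Fin N1 × Fin N2 → ℂ}

/-- put `ϑ` on the box `(i, r)` if it has colour `j`, and `o` on the other boxes of colour `j` -/
def upd (j : ℕ) (θ : Fin N1 × Fin N2 → ℂ) (i r : ℕ) (ϑ o : ℂ) (k : Fin N1 × Fin N2) : ℂ :=
  if k.1.val = i ∧ k.2.val = r ∧ colr k = j then ϑ else setc j θ o k

/-- the centred box function -/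
def nn (J : (Fin N1 × Fin N2 → ℂ) → ℝ → ℝ → ℝ) (j : ℕ) (θ : Fin N1 × Fin N2 → ℂ) (i r : ℕ)
    (ϑ : ℂ) (u w : ℝ) : ℝ := ∫ o, (J (upd j θ i r ϑ o) u w - J (setc j θ o) u w) ∂gam

lemma near_eq {a c : ℝ} (hl : 0 < l) {i k : ℕ} (h1 : |a - (c + i * l)| < l)
    (h2 : |a - (c + k * l)| < l) (h3 : i % 2 = k % 2) : i = k := by
  obtain ⟨p1, p2⟩ := abs_lt.mp h1
  obtain ⟨p3, p4⟩ := abs_lt.mp h2
  have q1 : (i : ℝ) < k + 2 := lt_of_mul_lt_mul_right (by linarith) hl.le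
  have q2 : (k : ℝ) < i + 2 := lt_of_mul_lt_mul_right (by linarith) hl.le
  have q3 : i < k + 2 := by exact_mod_cast q1
  have q4 : k < i + 2 := by exact_mod_cast q2
  omega

lemma box_eq (hl : 0 < l) (hH : 0 < H) {u w : ℝ} {k k' : Fin N1 × Fin N2}
    (h1 : |u - (u0 + k.1.val * l)| < l) (h2 : |w - (w0 + k.2.val * H)| < H)
    (h3 : |u - (u0 + k'.1.val * l)| < l) (h4 : |w - (w0 + k'.2.val * H)| < H)
    (h5 : colr k = colr k') : k = k' := by
  unfold colr at h5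
  exact Prod.ext (Fin.ext (near_eq hl h1 h3 (by omega))) (Fin.ext (near_eq hH h2 h4 (by omega)))

lemma norm_setc (hθ : ‖θ‖ ≤ A) (o : ℂ) : ‖setc j θ o‖ ≤ A + ‖o‖ := by
  have h0 := (norm_nonneg _).trans hθ
  refine (pi_norm_le_iff_of_nonneg (by positivity)).mpr fun k => ?_
  unfold setc
  split_ifs
  · linarith
  · linarith [norm_le_pi_norm θ k, norm_nonneg o]

lemma norm_upd (hθ : ‖θ‖ ≤ A) (i r : ℕ) (ϑ o : ℂ) : ‖upd j θ i r ϑ o‖ ≤ A + ‖o‖ + ‖ϑ‖ := by
  have h0 := (norm_nonneg _).trans hθ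
  refine (pi_norm_le_iff_of_nonneg (by positivity)).mpr fun k => ?_
  unfold upd
  split_ifs
  · linarith [norm_nonneg o]
  · linarith [norm_le_pi_norm (setc j θ o) k, norm_setc (j := j) hθ o, norm_nonneg ϑ]

lemma pow_bd (hA : 1 ≤ A) (hθ : ‖θ‖ ≤ A) (i r : ℕ) (ϑ o : ℂ) :
    (1 + ‖upd j θ i r ϑ o‖ + ‖setc j θ o‖) ^ 4 ≤ 81 * A ^ 4 * (1 + ‖ϑ‖ / A) ^ 4 * (1 + ‖o‖) ^ 4 := by
  have h1 := norm_upd (j := j) hθ i r ϑ o
  have h2 := norm_setc (j := j) hθ o
  have h3 := norm_nonneg o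
  have h4 := norm_nonneg ϑ
  have h5 : A * (1 + ‖ϑ‖ / A) = A + ‖ϑ‖ := by field_simp
  calc _ ≤ (3 * (A * (1 + ‖ϑ‖ / A)) * (1 + ‖o‖)) ^ 4 := by
        gcongr
        rw [h5]
        nlinarith [mul_nonneg h3 h4, mul_nonneg h3 (sub_nonneg.mpr hA)]
    _ = _ := by ring

lemma mea_setc (j : ℕ) (θ : Fin N1 × Fin N2 → ℂ) : Measurable (setc j θ) :=
  measurable_pi_lambda _ fun k => by
    unfold setc
    split_ifs
    exacts [measurable_id, measurable_const]

lemma mea_upd (j : ℕ) (θ : Fin N1 × Fin N2 → ℂ) (i r : ℕ) :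
    Measurable fun x : ℂ × ℂ => upd j θ i r x.1 x.2 :=
  measurable_pi_lambda _ fun k => by
    unfold upd
    split_ifs
    exacts [measurable_fst, (measurable_pi_apply k).comp ((mea_setc j θ).comp measurable_snd)]

lemma mea_diff (hJ : Adm J u0 w0 l H h W M) (i r : ℕ) : Measurable fun x : (ℂ × ℝ × ℝ) × ℂ =>
    J (upd j θ i r x.1.1 x.2) x.1.2.1 x.1.2.2 - J (setc j θ x.2) x.1.2.1 x.1.2.2 :=
  (hJ.mea.comp (((mea_upd j θ i r).comp (measurable_fst.fst.prodMk measurable_snd)).prodMk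
    measurable_fst.snd)).sub
    (hJ.mea.comp (((mea_setc j θ).comp measurable_snd).prodMk measurable_fst.snd))

lemma d2_diff (hJ : Adm J u0 w0 l H h W M) (hM : 0 < M) (hh : 0 < h) (hA : 1 ≤ A) (hθ : ‖θ‖ ≤ A)
    (i r : ℕ) (ϑ o : ℂ) (w : ℝ) :
    D2 (fun u => J (upd j θ i r ϑ o) u w - J (setc j θ o) u w)
      (162 * M * A ^ 4 * (1 + ‖ϑ‖ / A) ^ 4 * (1 + ‖o‖) ^ 4)
      (162 * M * A ^ 4 * (1 + ‖ϑ‖ / A) ^ 4 / h * (1 + ‖o‖) ^ 4)
      (162 * M * A ^ 4 * (1 + ‖ϑ‖ / A) ^ 4 / h ^ 2 * (1 + ‖o‖) ^ 4) := by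
  have h1 := pow_bd (j := j) hA hθ i r ϑ o
  have h2 : M * (1 + ‖upd j θ i r ϑ o‖) ^ 4 ≤
      M * (81 * A ^ 4 * (1 + ‖ϑ‖ / A) ^ 4 * (1 + ‖o‖) ^ 4) := by
    gcongr
    exact (pow_le_pow_left₀ (by positivity) (by linarith [norm_nonneg (setc j θ o)]) 4).trans h1
  have h3 : M * (1 + ‖setc j θ o‖) ^ 4 ≤
      M * (81 * A ^ 4 * (1 + ‖ϑ‖ / A) ^ 4 * (1 + ‖o‖) ^ 4) := by
    gcongr
    exact (pow_le_pow_left₀ (by positivity) (by linarith [norm_nonneg (upd j θ i r ϑ o)]) 4).trans h1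
  exact (((hJ.reg _ w).mono hh h2 h2).sub ((hJ.reg _ w).mono hh h3 h3)).mono
    (le_of_eq (by ring)) (le_of_eq (by ring)) (le_of_eq (by ring))

lemma int_setc (hJ : Adm J u0 w0 l H h W M) (hM : 0 < M) (hθ : ‖θ‖ ≤ A) (u w : ℝ) :
    Integrable (fun o => J (setc j θ o) u w) gam := by
  have h0 := (norm_nonneg _).trans hθ
  refine ((gam_pow 4).const_mul (M * (1 + A) ^ 4)).mono' (hJ.mea.comp ((mea_setc j θ).prodMk
    (measurable_const (a := (u, w))))).aestronglyMeasurable (Eventually.of_forall fun o => ?_)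
  refine ((hJ.reg _ w).b0 u).trans ?_
  rw [mul_assoc, ← mul_pow]
  gcongr
  nlinarith [norm_setc (j := j) hθ o, mul_nonneg h0 (norm_nonneg o)]

lemma nn_none {i r : ℕ} (h0 : ¬ ∃ k : Fin N1 × Fin N2, k.1.val = i ∧ k.2.val = r ∧ colr k = j)
    (ϑ : ℂ) (u w : ℝ) : nn J j θ i r ϑ u w = 0 := by
  have h1 : ∀ o, upd j θ i r ϑ o = setc j θ o := fun o =>
    funext fun k => if_neg fun h => h0 ⟨k, h⟩
  simp [nn, h1]

lemma nn_out (hJ : Adm J u0 w0 l H h W M) (i r : ℕ) (ϑ : ℂ) {u w : ℝ}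
    (h0 : l ≤ |u - (u0 + i * l)| ∨ H ≤ |w - (w0 + r * H)|) : nn J j θ i r ϑ u w = 0 := by
  have h1 : ∀ o, J (upd j θ i r ϑ o) u w = J (setc j θ o) u w := fun o =>
    hJ.loc _ _ u w fun k h2 h3 => if_neg fun h => by
      rw [h.1] at h2
      rw [h.2.1] at h3
      exact h0.elim h2.not_ge h3.not_ge
  simp [nn, h1]

lemma nn_in (hJ : Adm J u0 w0 l H h W M) (hM : 0 < M) (hθ : ‖θ‖ ≤ A) (hl : 0 < l) (hH : 0 < H)
    {k : Fin N1 × Fin N2} (hk : colr k = j) (ϑ : ℂ) {u w : ℝ} (h1 : |u - (u0 + k.1.val * l)| < l)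
    (h2 : |w - (w0 + k.2.val * H)| < H) :
    nn J j θ k.1 k.2 ϑ u w = J (setc j θ ϑ) u w - avg j J θ u w := by
  have h3 : ∀ o, J (upd j θ k.1 k.2 ϑ o) u w = J (setc j θ ϑ) u w := fun o =>
    hJ.loc _ _ u w fun k' h4 h5 => by
      unfold upd setc
      by_cases h6 : colr k' = j
      · obtain rfl := box_eq hl hH h1 h2 h4 h5 (hk.trans h6.symm)
        simp [h6]
      · simp [h6]
  simp only [nn, h3]
  rw [integral_sub (integrable_const _) (int_setc hJ hM hθ u w)]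
  simp [avg]

lemma fam (hJ : Adm J u0 w0 l H h W M) (hM : 0 < M) (hh : 0 < h) (hW : 0 < W) (hA : 1 ≤ A)
    (hθ : ‖θ‖ ≤ A) (hl : 0 < l) (hH : 0 < H) : Fam (nn J j θ) u0 w0 l H h W
      (162 * (1 + ∫ o : ℂ, (1 + ‖o‖) ^ 4 ∂gam) * M * A ^ 4) A := by
  set c := ∫ o : ℂ, (1 + ‖o‖) ^ 4 ∂gam with hc
  have hc0 : 0 ≤ c := integral_nonneg fun o => by positivity
  have hsw : ∀ (i r : ℕ) (ϑ : ℂ) (a1 a2 b1 b2 : ℝ), ∫ a in a1..a2, ∫ b in b1..b2, nn J j θ i r ϑ a b =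
      ∫ o, (∫ a in a1..a2, ∫ b in b1..b2,
        (J (upd j θ i r ϑ o) a b - J (setc j θ o) a b)) ∂gam := fun i r ϑ a1 a2 b1 b2 =>
    swap2 (f := fun o a b => J (upd j θ i r ϑ o) a b - J (setc j θ o) a b)
      ((mea_diff hJ i r).comp (by fun_prop :
        Measurable fun x : ℂ × ℝ × ℝ => ((ϑ, x.2.1, x.2.2), x.1))) ((gam_pow 4).const_mul _)
      (fun o a b => (d2_diff hJ hM hh hA hθ i r ϑ o b).b0 a) a1 a2 b1 b2
  have hfl : ∀ (k : Fin N1 × Fin N2) (ϑ o : ℂ), ∀ k', k' ≠ k →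
      upd j θ k.1 k.2 ϑ o k' = setc j θ o k' := fun k ϑ o k' hk =>
    if_neg fun h => hk (Prod.ext (Fin.ext h.1) (Fin.ext h.2.1))
  refine ⟨fun i r ϑ u w h0 => nn_out hJ i r ϑ h0, fun i r ϑ w => ?_, fun i r =>
    (mea_diff hJ i r).stronglyMeasurable.integral_prod_right'.measurable, fun i r u w => ?_,
    fun i r ϑ u => ?_, fun i r ϑ => ?_⟩
  · have h1 := D2.integral (μ := gam) (Eventually.of_forall fun o =>
      d2_diff (j := j) hJ hM hh hA hθ i r ϑ o w) (fun u => ((mea_diff hJ i r).comp (by fun_prop :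
        Measurable fun o : ℂ => ((ϑ, u, w), o))).aestronglyMeasurable) ((gam_pow 4).const_mul _)
      ((gam_pow 4).const_mul _) ((gam_pow 4).const_mul _)
    simp only [integral_const_mul, ← hc] at h1
    have h2 : 162 * M * A ^ 4 * (1 + ‖ϑ‖ / A) ^ 4 * c ≤
        162 * (1 + c) * M * A ^ 4 * (1 + ‖ϑ‖ / A) ^ 4 :=
      (mul_le_mul_of_nonneg_left (le_add_of_nonneg_left zero_le_one) (by positivity)).trans_eq
        (by ring)
    refine h1.mono h2 ?_ ?_
    · rw [div_mul_eq_mul_div]; gcongr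
    · rw [div_mul_eq_mul_div]; gcongr
  · by_cases h0 : ∃ k : Fin N1 × Fin N2, k.1.val = i ∧ k.2.val = r ∧ colr k = j
    · obtain ⟨k, rfl, rfl, hk⟩ := h0
      by_cases h1 : l ≤ |u - (u0 + k.1.val * l)| ∨ H ≤ |w - (w0 + k.2.val * H)|
      · simp [nn_out hJ _ _ _ h1]
      · rw [not_or, not_le, not_le] at h1
        simp only [nn_in hJ hM hθ hl hH hk _ h1.1 h1.2]
        rw [integral_sub (int_setc hJ hM hθ u w) (integrable_const _)]
        simp [avg]
    · simp [nn_none h0]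
  · by_cases h0 : ∃ k : Fin N1 × Fin N2, k.1.val = i ∧ k.2.val = r ∧ colr k = j
    · obtain ⟨k, rfl, rfl, hk⟩ := h0
      rw [hsw, ← Real.norm_eq_abs]
      refine (norm_integral_le_of_norm_le ((gam_pow 4).const_mul
        (M * W * H * (81 * A ^ 4 * (1 + ‖ϑ‖ / A) ^ 4))) (Eventually.of_forall fun o => ?_)).trans ?_
      · refine ((hJ.flux _ _ k (hfl k ϑ o)).1 u).trans ?_
        rw [mul_assoc (M * W * H)]
        exact mul_le_mul_of_nonneg_left (pow_bd hA hθ _ _ ϑ o) (by positivity)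
      · rw [integral_const_mul, ← hc]
        have : 0 ≤ M * W * H * (81 * A ^ 4 * (1 + ‖ϑ‖ / A) ^ 4) := by positivity
        nlinarith [mul_nonneg this hc0]
    · simp only [nn_none h0, intervalIntegral.integral_zero, abs_zero]
      positivity
  · by_cases h0 : ∃ k : Fin N1 × Fin N2, k.1.val = i ∧ k.2.val = r ∧ colr k = j
    · obtain ⟨k, rfl, rfl, hk⟩ := h0
      rw [hsw]
      simp [fun o => (hJ.flux _ _ k (hfl k ϑ o)).2]
    · simp [nn_none h0]

lemma sum_nn (hJ : Adm J u0 w0 l H h W M) (hM : 0 < M) (hθ : ‖θ‖ ≤ A) (hl : 0 < l) (hH : 0 < H)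
    (ϑ : ℕ → ℕ → ℂ) (u w : ℝ) :
    J (fun k => if colr k = j then ϑ k.1 k.2 else θ k) u w - avg j J θ u w =
      ∑ i ∈ range N1, ∑ r ∈ range N2, nn J j θ i r (ϑ i r) u w := by
  by_cases h0 : ∃ k : Fin N1 × Fin N2, colr k = j ∧ |u - (u0 + k.1.val * l)| < l ∧
    |w - (w0 + k.2.val * H)| < H
  · obtain ⟨k, hk, h1, h2⟩ := h0
    have h3 : ∀ i r : ℕ, i ≠ k.1 ∨ r ≠ k.2 → nn J j θ i r (ϑ i r) u w = 0 := fun i r h4 => by
      by_cases h5 : ∃ k : Fin N1 × Fin N2, k.1.val = i ∧ k.2.val = r ∧ colr k = j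
      · obtain ⟨k', rfl, rfl, h6⟩ := h5
        refine nn_out hJ _ _ _ (by_contra fun h7 => ?_)
        rw [not_or, not_le, not_le] at h7
        obtain rfl := box_eq hl hH h1 h2 h7.1 h7.2 (hk.trans h6.symm)
        simp at h4
      · exact nn_none h5 _ _ _
    rw [sum_eq_single_of_mem _ (mem_range.mpr k.1.2) fun i _ hi =>
      sum_eq_zero fun r _ => h3 i r (Or.inl hi),
      sum_eq_single_of_mem _ (mem_range.mpr k.2.2) fun r _ hr => h3 _ r (Or.inr hr),
      nn_in hJ hM hθ hl hH hk _ h1 h2]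
    congr 1
    refine hJ.loc _ _ u w fun k' h4 h5 => ?_
    unfold setc
    split_ifs with h6
    · rw [box_eq hl hH h1 h2 h4 h5 (hk.trans h6.symm)]
    · rfl
  · rw [sum_eq_zero fun i _ => sum_eq_zero fun r _ => ?_]
    · have h1 : ∀ o, J (setc j θ o) u w =
          J (fun k => if colr k = j then ϑ k.1 k.2 else θ k) u w := fun o =>
        hJ.loc _ _ u w fun k h2 h3 => by
          have h4 : ¬ colr k = j := fun h => h0 ⟨k, h, h2, h3⟩
          simp [setc, h4]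
      simp [avg, h1]
    · by_cases h5 : ∃ k : Fin N1 × Fin N2, k.1.val = i ∧ k.2.val = r ∧ colr k = j
      · obtain ⟨k', rfl, rfl, h6⟩ := h5
        refine nn_out hJ _ _ _ (by_contra fun h7 => ?_)
        rw [not_or, not_le, not_le] at h7
        exact h0 ⟨k', h6, h7⟩
      · exact nn_none h5 _ _ _

end
end Stg

open Stg in
theorem stg_of (hB : BalStmt) : StgStmt := by
  obtain ⟨C, hC, hB⟩ := fam_bal hB
  set c := ∫ o : ℂ, (1 + ‖o‖) ^ 4 ∂gam
  have hc0 : 0 ≤ c := integral_nonneg fun o => by positivity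
  refine ⟨C * (162 * (1 + c)), by nlinarith, fun N1 N2 J u0 w0 l H h W M Lb A a0 a1 b0 d j θ hJ hM
    hh hW hH hl hLb hx hA hT hθ ha0 ha1 hb0 hd => ?_⟩
  have hl0 : 0 < l := hh.trans_le hl
  obtain ⟨ϑ, h1, h2⟩ := hB N1 N2 (nn J j θ) u0 w0 l H h W _ Lb A a0 a1 b0 d
    (fam hJ hM hh (hh.trans_le hW) hA hθ hl0 hH) (by positivity) hh hW hH hl hLb hx hA hT ha0 ha1
    hb0 (le_of_eq_of_le (by ring) hd)
  refine ⟨fun k => if colr k = j then ϑ k.1 k.2 else θ k,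
    (pi_norm_le_iff_of_nonneg (by linarith)).mpr fun k => ?_, fun k hk => if_neg hk,
    h2 _ (sum_nn hJ hM hθ hl0 hH ϑ)⟩
  split_ifs
  exacts [h1 _ _, (norm_le_pi_norm θ k).trans hθ]

end Pool.Agent.MP_20bec2_an.Pl

end MrgPart3

-- ======== part 4: formerly Pool.Agent.MP_20bec2_an.Pl.Flux
section MrgPart4

set_option autoImplicit false
open MeasureTheory Set Complex Filter Topology

namespace Pool.Agent.MP_20bec2_an.Pl
noncomputable section

namespace Flux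

/-- divergence theorem on a rectangle of the complex plane -/
lemma div_rect (F G : ℂ → ℝ) (hF : ContDiff ℝ 1 F) (hG : ContDiff ℝ 1 G) (u0 u w0 w1 : ℝ) :
    ∫ a in u0..u, ∫ b in w0..w1, (fderiv ℝ F ⟨a, b⟩ 1 + fderiv ℝ G ⟨a, b⟩ I) =
      (((∫ a in u0..u, G ⟨a, w1⟩) - ∫ a in u0..u, G ⟨a, w0⟩) + ∫ b in w0..w1, F ⟨u, b⟩) -
        ∫ b in w0..w1, F ⟨u0, b⟩ := by
  let e : ℝ × ℝ →L[ℝ] ℂ := equivRealProdCLM.symm.toContinuousLinearMap
  have c : ∀ K : ℂ → ℝ, ContDiff ℝ 1 K → ∀ v : ℂ, Continuous fun x => fderiv ℝ K (e x) v :=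
    fun K hK v => ((hK.continuous_fderiv one_ne_zero).comp e.continuous).clm_apply continuous_const
  exact integral2_divergence_prod_of_hasFDerivAt (fun x => F (e x)) (fun x => G (e x))
    (fun x => (fderiv ℝ F (e x)).comp e) (fun x => (fderiv ℝ G (e x)).comp e) u0 w0 u w1
    (hF.continuous.comp e.continuous).continuousOn (hG.continuous.comp e.continuous).continuousOn
    (fun x _ => (hF.differentiable one_ne_zero _).hasFDerivAt.comp x e.hasFDerivAt)
    (fun x _ => (hG.differentiable one_ne_zero _).hasFDerivAt.comp x e.hasFDerivAt)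
    (((c F hF _).add (c G hG _)).continuousOn.integrableOn_compact
      (isCompact_uIcc.prod isCompact_uIcc))

/-- a primitive in the direction m -/
lemma exists_prim (hP : PrimStmt) {g : ℂ → ℝ} (hg : ContDiff ℝ 1 g) {m : ℂ} (hm : ‖m‖ = 1) :
    ∃ Γ : ℂ → ℝ, ContDiff ℝ 1 Γ ∧ ∀ x, fderiv ℝ Γ x m = g x := by
  have hm0 : m ≠ 0 := norm_ne_zero_iff.mp (by rw [hm]; exact one_ne_zero)
  let φ : ℂ →L[ℝ] ℂ := ContinuousLinearMap.mul ℝ ℂ (I / m)
  obtain ⟨h1, h2⟩ := hP (fun p => g (m / I * p)) 0 (hg.comp (contDiff_const.mul contDiff_id))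
  refine ⟨_, h1.comp φ.contDiff, fun x => ?_⟩
  rw [fderiv_comp x (h1.differentiable one_ne_zero _) φ.differentiableAt, φ.fderiv,
    ContinuousLinearMap.comp_apply, show φ m = I by simp [φ, hm0], (h2 _).1]
  congr 1
  simp only [φ, ContinuousLinearMap.mul_apply']
  field_simp

lemma plane_id (A : ℂ →L[ℝ] ℝ) (m a b : ℂ) : A a * wd m b - A b * wd m a = A m * wd a b := by
  rw [clm_apply A a, clm_apply A b, clm_apply A m]
  simp only [wd, smul_eq_mul]
  ring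

/-- the wedge product with a fixed vector as a linear map -/
def wdL (m : ℂ) : ℂ →L[ℝ] ℝ := m.re • imCLM - m.im • reCLM

lemma wdL_apply (m x : ℂ) : wdL m x = wd m x := by simp [wdL, wd]

end Flux

open Flux in
theorem flux_of (hP : PrimStmt) : FluxStmt := by
  intro g y t m u0 w0 w1 hg hy ht hm h0 u
  obtain ⟨Γ, hΓ, hΓ'⟩ := exists_prim hP hg hm
  have hy1 : ContDiff ℝ 1 y := hy.of_le (by norm_num)
  have hY : ContDiff ℝ 1 fun p => y p + t p • m := hy1.add (ht.smul contDiff_const)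
  have dΓ := hΓ.differentiable one_ne_zero
  have dy := hy1.differentiable one_ne_zero
  have dY := hY.differentiable one_ne_zero
  have hDy : ContDiff ℝ 1 (fderiv ℝ y) := hy.fderiv_right (by norm_num)
  let H : ℂ → ℝ := fun p => Γ (y p + t p • m) - Γ (y p)
  have hH : ContDiff ℝ 1 H := (hΓ.comp hY).sub (hΓ.comp hy1)
  let β : ℂ → ℂ → ℝ := fun v p => wdL m (fderiv ℝ y p v)
  have hβ : ∀ v, ContDiff ℝ 1 (β v) := fun v =>
    (wdL m).contDiff.comp (hDy.clm_apply contDiff_const)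
  have dβ : ∀ v p v', fderiv ℝ (β v) p v' = wdL m (fderiv ℝ (fderiv ℝ y) p v' v) := by
    intro v p v'
    have := (wdL m).hasFDerivAt.comp p ((ContinuousLinearMap.apply ℝ ℂ v).hasFDerivAt.comp p
      (hDy.differentiable one_ne_zero p).hasFDerivAt)
    exact DFunLike.congr_fun this.fderiv v'
  have dH : ∀ p v, fderiv ℝ H p v = fderiv ℝ Γ (y p + t p • m)
      (fderiv ℝ (fun p => y p + t p • m) p v) - fderiv ℝ Γ (y p) (fderiv ℝ y p v) := by
    intro p v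
    have := ((dΓ _).hasFDerivAt.comp p (dY p).hasFDerivAt).sub
      ((dΓ _).hasFDerivAt.comp p (dy p).hasFDerivAt)
    exact DFunLike.congr_fun this.fderiv v
  have dw : ∀ p v, wd m (fderiv ℝ (fun p => y p + t p • m) p v) = β v p := by
    intro p v
    have := (dy p).hasFDerivAt.add
      ((ht.differentiable one_ne_zero p).hasFDerivAt.smul_const m)
    rw [show fderiv ℝ (fun p => y p + t p • m) p = _ from this.fderiv]
    simp only [β, wdL_apply, add_apply, ContinuousLinearMap.smulRight_apply,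
      wd_add_right, wd_smul_right, wd_self, mul_zero, add_zero]
  have key : ∀ p, pb g (fun p => y p + t p • m) p - pb g y p =
      fderiv ℝ (fun p => H p * β I p) p 1 + fderiv ℝ (fun p => -(H p * β 1 p)) p I := by
    intro p
    have e : ∀ v v', fderiv ℝ (fun p => H p * β v p) p v' =
        H p * fderiv ℝ (β v) p v' + β v p * fderiv ℝ H p v' := fun v v' => by
      rw [fderiv_fun_mul (hH.differentiable one_ne_zero p) ((hβ v).differentiable one_ne_zero p)]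
      rfl
    have a1 := plane_id (fderiv ℝ Γ (y p + t p • m)) m (fderiv ℝ (fun p => y p + t p • m) p 1)
      (fderiv ℝ (fun p => y p + t p • m) p I)
    have a2 := plane_id (fderiv ℝ Γ (y p)) m (fderiv ℝ y p 1) (fderiv ℝ y p I)
    rw [dw, dw, hΓ'] at a1
    rw [← wdL_apply m, ← wdL_apply m, hΓ'] at a2
    rw [fderiv_fun_neg, neg_apply, e, e, dβ, dβ, dH, dH,
      (hy.contDiffAt.isSymmSndFDerivAt (by simp)).eq 1 I]
    simp only [pb, jac, β] at a1 a2 ⊢
    linarith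
  have hz : ∀ p : ℂ, p.re = u0 ∨ p.im = w0 ∨ p.im = w1 → H p = 0 := fun p hp => by
    simp [H, h0 p hp]
  simp only [key]
  rw [div_rect _ _ (hH.mul (hβ I)) (hH.mul (hβ 1)).neg]
  simp only [fun a => hz ⟨a, w1⟩ (Or.inr (Or.inr rfl)), fun a => hz ⟨a, w0⟩ (Or.inr (Or.inl rfl)),
    fun b => hz ⟨u0, b⟩ (Or.inl rfl), zero_mul, neg_zero, intervalIntegral.integral_zero,
    sub_zero, zero_add, β, wdL_apply]
  congr 1
  funext b
  congr 1
  have := intervalIntegral.integral_eq_sub_of_hasDerivAt (a := 0) (b := t ⟨u, b⟩)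
    (f := fun r : ℝ => Γ (y ⟨u, b⟩ + r • m)) (f' := fun r : ℝ => g (y ⟨u, b⟩ + r • m))
    (fun r _ => by
      rw [← hΓ']
      simpa [Function.comp_def] using (dΓ _).hasFDerivAt.comp_hasDerivAt r
        (((hasDerivAt_id r).smul_const m).const_add (y ⟨u, b⟩)))
    ((hg.continuous.comp (by fun_prop)).intervalIntegrable _ _)
  rw [this, zero_smul, add_zero]

end
end Pool.Agent.MP_20bec2_an.Pl

end MrgPart4

-- ======== part 5: formerly Pool.Agent.MP_20bec2_an.Pl.Mean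
section MrgPart5

set_option autoImplicit false
open MeasureTheory Set Complex Filter Topology

namespace Pool.Agent.MP_20bec2_an.Pl
noncomputable section

namespace Mean

/-- the wedge product is affine along a line, and the Gaussian has mean zero -/
lemma lin (A C : ℂ) (α β : ℝ) : ∫ ψ, wd (A + α • ψ) (C + β • ψ) ∂gam = wd A C := by
  let L : ℂ →L[ℝ] ℝ := (α * C.im - β * A.im) • reCLM + (β * A.re - α * C.re) • imCLM
  have e : ∀ ψ, wd (A + α • ψ) (C + β • ψ) = wd A C + L ψ := fun ψ => by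
    simp [wd, L]; ring
  simp only [e]
  rw [integral_add (integrable_const _) (L.integrable_comp gam_int), L.integral_comp_comm gam_int,
    gam_mean]
  simp

lemma norm_aff (Y a b : ℂ) (p p' : ℝ) :
    ‖Y + p • a + p' • b‖ ≤ (‖Y‖ + |p| + |p'|) * ((1 + ‖a‖) * (1 + ‖b‖)) := by
  have h := (norm_add_le (Y + p • a) (p' • b)).trans (add_le_add_left (norm_add_le Y (p • a)) _)
  rw [norm_smul, norm_smul, Real.norm_eq_abs, Real.norm_eq_abs] at h
  have := norm_nonneg Y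
  have := norm_nonneg a
  have := norm_nonneg b
  have := abs_nonneg p
  have := abs_nonneg p'
  have e : (‖Y‖ + |p| + |p'|) * ((1 + ‖a‖) * (1 + ‖b‖)) = ‖Y‖ + |p| * ‖a‖ + |p'| * ‖b‖ +
      (‖Y‖ * (‖a‖ + ‖b‖ + ‖a‖ * ‖b‖) + |p| * (1 + ‖b‖ + ‖a‖ * ‖b‖) +
        |p'| * (1 + ‖a‖ + ‖a‖ * ‖b‖)) := by ring
  have : 0 ≤ ‖Y‖ * (‖a‖ + ‖b‖ + ‖a‖ * ‖b‖) + |p| * (1 + ‖b‖ + ‖a‖ * ‖b‖) +
      |p'| * (1 + ‖a‖ + ‖a‖ * ‖b‖) := by positivity
  linarith

/-- integrand in two Gaussian variables -/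
def G (g : ℂ → ℝ) (x Y1 Y2 : ℂ) (κ p q κ' p' q' : ℝ) (z : ℂ × ℂ) : ℝ :=
  g (x + κ • z.1 + κ' • z.2) * wd (Y1 + p • z.1 + p' • z.2) (Y2 + q • z.1 + q' • z.2)

lemma G_cont {g : ℂ → ℝ} (hg : Continuous g) (x Y1 Y2 : ℂ) (κ p q κ' p' q' : ℝ) :
    Continuous (G g x Y1 Y2 κ p q κ' p' q') := by
  unfold G wd
  fun_prop

lemma G_int {g : ℂ → ℝ} {B : ℝ} (hg : Continuous g) (hB : ∀ x, |g x| ≤ B) (x Y1 Y2 : ℂ)
    (κ p q κ' p' q' : ℝ) : Integrable (G g x Y1 Y2 κ p q κ' p' q') (gam.prod gam) := by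
  have h0 : 0 ≤ B := (abs_nonneg _).trans (hB 0)
  refine (((gam_pow 2).mul_prod (gam_pow 2)).const_mul
    (B * ((‖Y1‖ + |p| + |p'|) * (‖Y2‖ + |q| + |q'|)))).mono'
    (G_cont hg x Y1 Y2 κ p q κ' p' q').aestronglyMeasurable (Eventually.of_forall fun z => ?_)
  rw [G, Real.norm_eq_abs, abs_mul]
  calc _ ≤ B * (((‖Y1‖ + |p| + |p'|) * ((1 + ‖z.1‖) * (1 + ‖z.2‖))) *
        ((‖Y2‖ + |q| + |q'|) * ((1 + ‖z.1‖) * (1 + ‖z.2‖)))) :=
        mul_le_mul (hB _) ((abs_wd_le _ _).trans (mul_le_mul (norm_aff _ _ _ _ _)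
          (norm_aff _ _ _ _ _) (norm_nonneg _) (by positivity))) (abs_nonneg _) h0
    _ = _ := by ring

lemma polar (κ κ' : ℝ) : ∃ r c s : ℝ, 0 ≤ r ∧ c ^ 2 + s ^ 2 = 1 ∧ κ = r * c ∧ κ' = r * s := by
  rcases eq_or_lt_of_le (add_nonneg (sq_nonneg κ) (sq_nonneg κ')) with h | h
  · refine ⟨0, 1, 0, le_rfl, by norm_num, ?_, ?_⟩ <;> nlinarith [sq_nonneg κ, sq_nonneg κ']
  · have hr := Real.sqrt_pos.2 h
    refine ⟨√(κ ^ 2 + κ' ^ 2), κ / √(κ ^ 2 + κ' ^ 2), κ' / √(κ ^ 2 + κ' ^ 2), hr.le, ?_,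
      by field_simp, by field_simp⟩
    rw [div_pow, div_pow, Real.sq_sqrt h.le, ← add_div, div_self h.ne']

/-- two Gaussian variables merge into one -/
lemma merge (hG : GaStmt) {g : ℂ → ℝ} {B : ℝ} (hg : Continuous g) (hB : ∀ x, |g x| ≤ B)
    (κ p q κ' p' q' : ℝ) : ∃ r P Q : ℝ, 0 ≤ r ∧ r ^ 2 = κ ^ 2 + κ' ^ 2 ∧
      r * P = κ * p + κ' * p' ∧ r * Q = κ * q + κ' * q' ∧ ∀ x Y1 Y2 : ℂ,
      ∫ a, ∫ b, g (x + κ • a + κ' • b) * wd (Y1 + p • a + p' • b) (Y2 + q • a + q' • b) ∂gam ∂gam =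
        ∫ θ, g (x + r • θ) * wd (Y1 + P • θ) (Y2 + Q • θ) ∂gam := by
  obtain ⟨C, -, -, -, hR, -⟩ := hG
  obtain ⟨r, c, s, hr, hcs, rfl, rfl⟩ := polar κ κ'
  refine ⟨r, c * p + s * p', c * q + s * q', hr, by linear_combination (-r ^ 2) * hcs, by ring,
    by ring, fun x Y1 Y2 => ?_⟩
  have hm := hR c s hcs
  have key : ∀ (Y a b : ℂ) (u u' : ℝ), Y + (c * u + s * u') • (c • a + s • b) +
      (-s * u + c * u') • ((-s) • a + c • b) = Y + u • a + u' • b := fun Y a b u u' => by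
    apply Complex.ext
    · simp; linear_combination (u * a.re + u' * b.re) * hcs
    · simp; linear_combination (u * a.im + u' * b.im) * hcs
  have e : G g x Y1 Y2 (r * c) p q (r * s) p' q' = fun z : ℂ × ℂ =>
      G g x Y1 Y2 r (c * p + s * p') (c * q + s * q') 0 (-s * p + c * p') (-s * q + c * q')
        (c • z.1 + s • z.2, (-s) • z.1 + c • z.2) := funext fun z => by
    simp only [G, key, zero_smul, add_zero, smul_add r, smul_smul, add_assoc]
  have h1 := integral_prod _ (G_int hg hB x Y1 Y2 (r * c) p q (r * s) p' q')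
  have h2 := integral_prod _ (G_int hg hB x Y1 Y2 r (c * p + s * p') (c * q + s * q') 0
    (-s * p + c * p') (-s * q + c * q'))
  have h3 := integral_map (μ := gam.prod gam) hm.measurable.aemeasurable
    (G_cont hg x Y1 Y2 r (c * p + s * p') (c * q + s * q') 0
      (-s * p + c * p') (-s * q + c * q')).aestronglyMeasurable
  rw [hm.map_eq, ← e, h1, h2] at h3
  simp only [G, zero_smul, add_zero, integral_const_mul, lin] at h3
  exact h3.symm

end Mean

theorem mean_of (hG : GaStmt) : MeanStmt := by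
  intro g B hg hB x Y1 Y2 κ p q κ0 p0 q0 h0 h1 h2 h3 h4
  obtain ⟨r1, P1, Q1, -, a1, a2, a3, a4⟩ := Mean.merge hG hg hB (κ 2) (p 2) (q 2) (κ 3) (p 3) (q 3)
  obtain ⟨r2, P2, Q2, -, b1, b2, b3, b4⟩ := Mean.merge hG hg hB (κ 1) (p 1) (q 1) r1 P1 Q1
  obtain ⟨r3, P3, Q3, c0, c1, c2, c3, c4⟩ := Mean.merge hG hg hB (κ 0) (p 0) (q 0) r2 P2 Q2
  simp only [Finset.sum_range_succ, Finset.sum_range_zero, zero_add] at h1 h2 h3
  simp only [← add_assoc, a4, b4, c4]
  have e : r3 = κ0 := (pow_left_inj₀ c0 h0 two_ne_zero).1 (by linarith)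
  subst e
  rcases eq_or_ne r3 0 with rfl | hr
  · simp only [zero_smul, add_zero, integral_const_mul, Mean.lin]
  · rw [mul_left_cancel₀ hr (show r3 * P3 = r3 * p0 by linarith),
      mul_left_cancel₀ hr (show r3 * Q3 = r3 * q0 by linarith)]

end
end Pool.Agent.MP_20bec2_an.Pl

end MrgPart5

-- ======== part 6: formerly Pool.Agent.MP_20bec2_an.Pl.StepF
section MrgPart6

set_option autoImplicit false
open MeasureTheory Set Complex Filter Topology

namespace Pool.Agent.MP_20bec2_an.Pl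
noncomputable section

namespace StepF

/-- the displacement of the slide in one cell -/
def pc (z m : ℂ) (T : ℂ → ℝ) (x : ℂ) : ℂ := T (chi' z m x) • (I * m)

/-- the glued slide -/
def sl (z m : ℤ × ℤ → ℂ) (T : ℤ × ℤ → ℂ → ℝ) (L : ℝ) (x : ℂ) : ℂ :=
  x + glue z L (fun c => pc (z c) (m c) (T c)) x

lemma norm_Im {m : ℂ} (hm : ‖m‖ = 1) : ‖I * m‖ = 1 := by simp [hm]

lemma pc_zero {z m : ℂ} {T : ℂ → ℝ} {L : ℝ} (hL : 0 < L) (hm : ‖m‖ = 1)
    (h : ∀ p, Out L p → T p = 0) {x : ℂ} (hx : 29 / 20 * L ≤ ‖x - z‖) : pc z m T x = 0 := by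
  unfold pc
  rw [h _ (out_of_norm hL.le (by rwa [norm_chi' z hm])), zero_smul]

lemma pc_has {z m : ℂ} {T : ℂ → ℝ} (h : Differentiable ℝ T) (x : ℂ) :
    HasFDerivAt (pc z m T)
      (((fderiv ℝ T (chi' z m x)).comp (mulL ((starRingEnd ℂ) m))).smulRight (I * m)) x :=
  ((h _).hasFDerivAt.comp x (hasFDerivAt_chi' z m x)).smul_const (I * m)

lemma norm_piece {m : ℂ} (hm : ‖m‖ = 1) (A : ℂ →L[ℝ] ℝ) :
    ‖(A.comp (mulL ((starRingEnd ℂ) m))).smulRight (I * m)‖ ≤ ‖A‖ := by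
  rw [ContinuousLinearMap.norm_smulRight_apply, norm_Im hm, mul_one]
  refine (ContinuousLinearMap.opNorm_comp_le _ _).trans ?_
  rw [norm_mulL, Complex.norm_conj, hm, mul_one]

lemma k2_nonneg {T S : ℂ → ℝ} {L d K1 K2 : ℝ} (h : Sld T S L d K1 K2) : 0 ≤ K2 := by
  simpa using (norm_nonneg _).trans (h.k2 1 0)

lemma pc_lip {z m : ℂ} {T S : ℂ → ℝ} {L d K1 K2 : ℝ} (hm : ‖m‖ = 1) (h : Sld T S L d K1 K2)
    (x y : ℂ) : ‖fderiv ℝ (pc z m T) x - fderiv ℝ (pc z m T) y‖ ≤ K2 * ‖x - y‖ := by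
  rw [(pc_has h.df x).fderiv, (pc_has h.df y).fderiv]
  have e : ((fderiv ℝ T (chi' z m x)).comp (mulL ((starRingEnd ℂ) m))).smulRight (I * m) -
      ((fderiv ℝ T (chi' z m y)).comp (mulL ((starRingEnd ℂ) m))).smulRight (I * m) =
      ((fderiv ℝ T (chi' z m x) - fderiv ℝ T (chi' z m y)).comp
        (mulL ((starRingEnd ℂ) m))).smulRight (I * m) :=
    ContinuousLinearMap.ext fun v => by simp [sub_mul]
  have e2 : ‖chi' z m x - chi' z m y‖ = ‖x - y‖ := by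
    unfold chi'
    rw [← mul_sub, norm_mul, Complex.norm_conj, hm, one_mul, sub_sub_sub_cancel_right]
  rw [e, ← e2]
  exact (norm_piece hm _).trans (h.k2 _ _)

lemma pc_far {z m : ℂ} {T S : ℂ → ℝ} {L d K1 K2 : ℝ} (hL : 0 < L) (hm : ‖m‖ = 1)
    (h : Sld T S L d K1 K2) {x : ℂ} (hx : 29 / 20 * L ≤ ‖x - z‖) :
    fderiv ℝ (pc z m T) x = 0 := by
  have hc : Continuous (fderiv ℝ T) :=
    (LipschitzWith.of_dist_le_mul (K := ⟨K2, k2_nonneg h⟩) fun p p' => by
      rw [dist_eq_norm, dist_eq_norm]; exact h.k2 p p').continuous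
  rw [(pc_has h.df x).fderiv, fderiv_out hc (fun p hp => (h.out p hp).1)
    (out_of_norm hL.le (by rwa [norm_chi' z hm]))]
  exact ContinuousLinearMap.ext fun v => by simp

lemma vs_norm {T : ℂ → ℝ} {L : ℝ} (hL : 0 < L) (h1 : ∀ p, Out L p → T p = 0)
    (h2 : ∀ p, ¬ Out L p → ¬ Out L (vs T p)) {p : ℂ} (hp : ‖p‖ < 3 / 2 * L) :
    ‖vs T p‖ < 3 / 2 * L := by
  by_cases ho : Out L p
  · simpa [vs, h1 p ho] using hp
  · have h3 := h2 p ho
    simp only [Out, not_or, not_le] at h3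
    linarith [norm_lt_of_le hL h3.1.le h3.2.le]

variable {z m : ℤ × ℤ → ℂ} {T S : ℤ × ℤ → ℂ → ℝ} {L : ℝ}

lemma sl_ch (hs : Sep z L) (hm : ∀ c, ‖m c‖ = 1) (c : ℤ × ℤ) {p : ℂ} (hp : ‖p‖ < 3 / 2 * L) :
    sl z m T L (ch (z c) (m c) p) = ch (z c) (m c) (vs (T c) p) := by
  unfold sl
  rw [glue_eq hs (c := c) (by rwa [norm_ch_sub _ (hm c)]), pc, chi'_ch _ (hm c)]
  simp only [ch, vs, Complex.real_smul]
  ring

lemma sl_far (hL : 0 < L) (hm : ∀ c, ‖m c‖ = 1) (h : ∀ c p, Out L p → T c p = 0) {x : ℂ}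
    (hx : ∀ c, 29 / 20 * L ≤ ‖x - z c‖) : sl z m T L x = x := by
  unfold sl
  rw [glue_zero (fun c x hx => pc_zero hL (hm c) (h c) hx) hx, add_zero]

lemma sl_inv (hL : 0 < L) (hs : Sep z L) (hm : ∀ c, ‖m c‖ = 1)
    (hT : ∀ c p, Out L p → T c p = 0) (hS : ∀ c p, Out L p → S c p = 0)
    (hi : ∀ c p, ¬ Out L p → ¬ Out L (vs (T c) p)) (hv : ∀ c p, vs (S c) (vs (T c) p) = p)
    (x : ℂ) : sl z m S L (sl z m T L x) = x := by
  rcases glue_cases z L x with ⟨c, hc⟩ | hc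
  · have hp : ‖chi' (z c) (m c) x‖ < 3 / 2 * L := by rwa [norm_chi' _ (hm c)]
    rw [← ch_chi' (z c) (hm c) x, sl_ch hs hm c hp,
      sl_ch hs hm c (vs_norm hL (hT c) (hi c) hp), hv]
  · have hx : ∀ c, 29 / 20 * L ≤ ‖x - z c‖ := fun c => by linarith [hc c]
    rw [sl_far hL hm hT hx, sl_far hL hm hS hx]

lemma sl_cont (hL : 0 < L) (hs : Sep z L) (hm : ∀ c, ‖m c‖ = 1)
    (hT : ∀ c p, Out L p → T c p = 0) (hc : ∀ c, Continuous (T c)) : Continuous (sl z m T L) :=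
  continuous_id.add (glue_continuous hs hL (fun c _ hx => pc_zero hL (hm c) (hT c) hx) fun c =>
    ((hc c).comp (D3.chi' (z c) (hm c)).df.continuous).smul continuous_const)

end StepF

open StepF in
theorem stepF : StepFStmt := by
  intro z m T S L d K1 K2 hL hs hm h
  have hT : ∀ c p, Out L p → T c p = 0 := fun c p hp => ((h c).out p hp).1
  have hS : ∀ c p, Out L p → S c p = 0 := fun c p hp => ((h c).out p hp).2
  have hz : ∀ c x, 29 / 20 * L ≤ ‖x - z c‖ → pc (z c) (m c) (T c) x = 0 :=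
    fun c _ hx => pc_zero hL (hm c) (hT c) hx
  have hz' : ∀ c x, 29 / 20 * L ≤ ‖x - z c‖ → fderiv ℝ (pc (z c) (m c) (T c)) x = 0 :=
    fun c _ hx => pc_far hL (hm c) (h c) hx
  have hd := glue_differentiable hs hL hz fun c x => (pc_has (h c).df x).differentiableAt
  have hD : ∀ x, HasFDerivAt (sl z m T L)
      (1 + glue z L (fun c => fderiv ℝ (pc (z c) (m c) (T c))) x) x := fun x => by
    rw [← glue_fderiv hs hL hz]
    exact (hasFDerivAt_id x).add (hd x).hasFDerivAt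
  let e : ℂ ≃ₜ ℂ :=
    { toFun := sl z m T L
      invFun := sl z m S L
      left_inv := sl_inv hL hs hm hT hS (fun c p hp => ((h c).ins p hp).1)
        fun c p => ((h c).inv p).1
      right_inv := sl_inv hL hs hm hS hT (fun c p hp => ((h c).ins p hp).2)
        fun c p => ((h c).inv p).2
      continuous_toFun := sl_cont hL hs hm hT fun c => (h c).df.continuous
      continuous_invFun := sl_cont hL hs hm hS fun c => (h c).cs }
  refine ⟨sl z m T L, e.isHomeomorph, fun x => (hD x).differentiableAt, fun x => ?_,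
    fun x x' => ?_, fun c p hp => ⟨sl_ch hs hm c hp,
      vs_norm hL (hT c) (fun p hp => ((h c).ins p hp).1) hp, ?_, ?_⟩,
    fun x hx => ⟨sl_far hL hm hT hx, ?_⟩⟩
  · rw [(hD x).fderiv]
    refine (norm_add_le _ _).trans ?_
    rw [norm_one]
    refine add_le_add le_rfl (glue_sup (fun c y => ?_) x)
    rw [(pc_has (h c).df y).fderiv]
    exact (norm_piece (hm c) _).trans ((h c).k1 _)
  · rw [(hD x).fderiv, (hD x').fderiv, add_sub_add_left_eq_sub]
    exact glue_lip hs hL hz' (k2_nonneg (h 0)) (fun c => pc_lip (hm c) (h c)) x x'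
  · rw [(hD _).fderiv, glue_eq hs (c := c) (by rwa [norm_ch_sub _ (hm c)]),
      (pc_has (h c).df _).fderiv, chi'_ch _ (hm c)]
    simp [conj_mul_unit (hm c)]
  · rw [(hD _).fderiv, glue_eq hs (c := c) (by rwa [norm_ch_sub _ (hm c)]),
      (pc_has (h c).df _).fderiv, chi'_ch _ (hm c)]
    have e1 : (starRingEnd ℂ) (m c) * (I * m c) = I := by
      rw [mul_left_comm, conj_mul_unit (hm c), mul_one]
    simp [e1, add_mul]
  · rw [(hD x).fderiv, glue_zero hz' hx, add_zero]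

end
end Pool.Agent.MP_20bec2_an.Pl

end MrgPart6

-- ======== part 7: formerly Pool.Agent.MP_20bec2_an.Pl.LaY
section MrgPart7

/-! Plane linear algebra: the effect of the wiggles. -/

set_option autoImplicit false
open MeasureTheory Set Complex

namespace Pool.Agent.MP_20bec2_an.Pl

namespace La

/-- the real estimate behind the wiggles -/
lemma y_real {a b Δ Δ' p1 p2 β pb1 pb2 e2 E : ℝ} (ha : 0 ≤ a) (hb : |b - 1| ≤ 1 / 10)
    (hΔ : |Δ - 1| ≤ 3 / 10) (hp1 : |p1| ≤ pb1) (hp2 : |p2| ≤ pb2) (hβ : |β| ≤ e2)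
    (hc : pb1 + pb2 + e2 ≤ 1 / 10) (hE : E ≤ 1 / 100)
    (h1 : |a ^ 2 - ((1 + β + p2 ^ 2 / 2) * b) ^ 2| ≤ 20 * E)
    (h2 : |Δ' - (1 + p1 + β) * Δ| ≤ 10 * E)
    (h3 : (pb2 ^ 2 + pb1) ^ 2 + (pb1 + pb2) * e2 ≤ 2 * E) :
    |a / Δ' / (b / Δ) - (1 + p2 ^ 2 / 2 - p1)| ≤ 1000 * E := by
  have P1 : 0 ≤ pb1 := (abs_nonneg _).trans hp1
  have P2 : 0 ≤ pb2 := (abs_nonneg _).trans hp2
  have E2 : 0 ≤ e2 := (abs_nonneg _).trans hβ
  have E0 : 0 ≤ E := by linarith [abs_nonneg (Δ' - (1 + p1 + β) * Δ)]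
  obtain ⟨b1, b2⟩ := abs_le.1 hb
  obtain ⟨d1, d2⟩ := abs_le.1 hΔ
  obtain ⟨q1, q2⟩ := abs_le.1 hp1
  obtain ⟨β1, β2⟩ := abs_le.1 hβ
  obtain ⟨k1, k2⟩ := abs_le.1 h2
  have u1 : p2 ^ 2 ≤ pb2 ^ 2 := sq_le_sq' (abs_le.1 hp2).1 (abs_le.1 hp2).2
  have u0 := sq_nonneg p2
  have u2 : pb2 ^ 2 ≤ pb2 / 10 := by nlinarith
  have hu : |p2 ^ 2 / 2| ≤ pb2 ^ 2 := abs_le.2 ⟨by linarith, by linarith⟩
  have m1 : 1 / 2 ≤ (1 + β + p2 ^ 2 / 2) * b := by nlinarith
  have h4 := of_sq (c := 1 / 2) (by norm_num) (by linarith) h1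
  have D1 : 1 / 2 ≤ Δ' := by nlinarith
  have D2 : 1 / 4 ≤ b * Δ' := by nlinarith
  have e : a / Δ' / (b / Δ) - (1 + p2 ^ 2 / 2 - p1) =
      ((a - (1 + β + p2 ^ 2 / 2) * b) * Δ +
        b * Δ * (p1 * p1 + p1 * β - p2 ^ 2 / 2 * p1 - p2 ^ 2 / 2 * β) -
        (1 + p2 ^ 2 / 2 - p1) * b * (Δ' - (1 + p1 + β) * Δ)) / (b * Δ') := by
    have : b ≠ 0 := by linarith
    have : Δ ≠ 0 := by linarith
    have : Δ' ≠ 0 := by linarith
    field_simp; ring
  have g1 : |Δ| ≤ 2 := abs_le.2 ⟨by linarith, by linarith⟩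
  have g2 : |b| ≤ 2 := abs_le.2 ⟨by linarith, by linarith⟩
  have g3 : |1 + p2 ^ 2 / 2 - p1| ≤ 2 := abs_le.2 ⟨by linarith, by linarith⟩
  have g4 : |p1 * p1 + p1 * β - p2 ^ 2 / 2 * p1 - p2 ^ 2 / 2 * β| ≤ 2 * E := by
    refine (as (as (aa (am hp1 hp1) (am hp1 hβ)) (am hu hp1)) (am hu hβ)).trans ?_
    nlinarith [mul_nonneg P1 (sq_nonneg pb2), sq_nonneg (pb2 ^ 2), mul_nonneg P2 E2,
      mul_le_mul_of_nonneg_right u2 E2]
  rw [e]
  refine (ad (as (aa (am h4 g1) (am (am g2 g1) g4)) (am (am g3 g2) h2)) (by norm_num) D2).trans ?_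
  linarith

end La

open La

theorem laY : LaYStmt := by
  refine ⟨1000, 1 / 1000, by norm_num, by norm_num, ?_⟩
  intro n Y1 Y2 Z1 Z2 p1 p2 μ e1 e2 pb1 pb2 hn h1 h2 h3 h4 hp1 hp2 hc
  have μ0 : 0 ≤ μ := (norm_nonneg _).trans h1
  have E1 : 0 ≤ e1 := (norm_nonneg _).trans h3
  have E2 : 0 ≤ e2 := (norm_nonneg _).trans h4
  have P1 : 0 ≤ pb1 := (abs_nonneg _).trans hp1
  have P2 : 0 ≤ pb2 := (abs_nonneg _).trans hp2
  set ε1 := Z1 - Y1 - p1 • n with hε1
  set ε2 := Z2 - Y2 - p2 • n with hε2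
  set D2 := p2 • n + ε2 with hD2
  have eZ1 : Z1 = Y1 + (p1 • n + ε1) := by rw [hε1]; ring
  have eZ2 : Z2 = Y2 + D2 := by rw [hD2, hε2]; ring
  have nD : ‖D2‖ ≤ pb2 + e2 :=
    (norm_add_le _ _).trans (add_le_add (by rwa [norm_smul, hn, mul_one]) h4)
  have hβ : |wd n ε2| ≤ e2 := by simpa using aw hn.le h4
  have hγ : |ip n ε2| ≤ e2 := by simpa using ai hn.le h4
  set β := wd n ε2 with hβd
  have hb := near_le (norm_In hn) h2
  have hΔ := wd_near hn h1 h2 (by linarith)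
  obtain ⟨b1, b2⟩ := abs_le.1 hb
  have nY2 : ‖Y2‖ ≤ 2 := by linarith
  have n2 : n.re ^ 2 + n.im ^ 2 = 1 := by rw [← normsq, hn]; norm_num
  set S := (pb1 + pb2 + e2) * (μ + e2) with hS
  set T := (pb2 ^ 2 + pb1) ^ 2 with hT
  have s1 : μ * pb1 + μ * pb2 + μ * e2 + pb1 * e2 + pb2 * e2 + e2 * e2 = S := by rw [hS]; ring
  have t1 : pb2 ^ 2 * pb2 ^ 2 ≤ T := by rw [hT]; nlinarith [mul_nonneg P1 (sq_nonneg pb2)]
  have T0 : 0 ≤ T := sq_nonneg _
  have a1 := mul_nonneg μ0 P1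
  have a2 := mul_nonneg μ0 P2
  have a3 := mul_nonneg μ0 E2
  have a4 := mul_nonneg P1 E2
  have a5 := mul_nonneg P2 E2
  have a6 := mul_nonneg E2 E2
  have u1 : p2 ^ 2 ≤ pb2 ^ 2 := sq_le_sq' (abs_le.1 hp2).1 (abs_le.1 hp2).2
  have hu : |p2 ^ 2 / 2| ≤ pb2 ^ 2 := abs_le.2 ⟨by linarith [sq_nonneg p2], by linarith [sq_nonneg p2]⟩
  have u2 : pb2 ^ 2 ≤ pb2 := by nlinarith
  refine y_real (β := β) (e2 := e2) (norm_nonneg _) (hb.trans (by linarith))
    (hΔ.trans (by linarith)) hp1 hp2 hβ (by linarith) ?_ ?_ ?_ (by linarith)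
  · have : S ≤ 1 / 1000 := by rw [hS]; nlinarith
    have : T ≤ 1 / 1000 := by rw [hT]; nlinarith
    linarith
  · have e : ‖Z2‖ ^ 2 - ((1 + β + p2 ^ 2 / 2) * ‖Y2‖) ^ 2 =
        2 * ip (Y2 - I * n) D2 + (2 * (p2 * ip n ε2) + ‖ε2‖ * ‖ε2‖) -
          2 * (β + p2 ^ 2 / 2) * ((‖Y2‖ - 1) * (‖Y2‖ + 1)) -
          (β + p2 ^ 2 / 2) * (β + p2 ^ 2 / 2) * (‖Y2‖ * ‖Y2‖) := by
      have f1 : ip Y2 D2 = ip (Y2 - I * n) D2 + β := by
        rw [hβd, hD2]; simp [ip, wd]; ring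
      have f2 : ‖D2‖ ^ 2 = p2 ^ 2 + 2 * (p2 * ip n ε2) + ‖ε2‖ ^ 2 := by
        rw [hD2, sq_add, sq_smul, hn, ip_smul_left]; ring
      rw [eZ2, sq_add, f1, f2]; ring
    have g0 : |(2 : ℝ)| ≤ 2 := by norm_num
    have g1 : |‖ε2‖| ≤ e2 := by rwa [abs_norm]
    have g2 : |‖Y2‖ + 1| ≤ 3 := abs_le.2 ⟨by linarith, by linarith⟩
    have g3 : |‖Y2‖| ≤ 2 := by rwa [abs_norm]
    have g4 := aa hβ hu
    rw [e]
    refine (as (as (aa (am g0 (ai h2 nD)) (aa (am g0 (am hp2 hγ)) (am g1 g1)))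
      (am (am g0 g4) (am hb g2))) (am (am g4 g4) (am g3 g3))).trans ?_
    linarith [mul_le_mul_of_nonneg_left u2 μ0, sq_nonneg (e2 - pb2 ^ 2)]
  · have e : wd Z1 Z2 - (1 + p1 + β) * wd Y1 Y2 =
        wd ε1 Y2 - p1 * wd (Y1 - n) Y2 + wd (Y1 - n) D2 - β * (wd Y1 Y2 - 1) + p1 * β +
          wd ε1 D2 := by
      rw [eZ1, eZ2, hβd, hD2]; simp [wd]; ring
    rw [e]
    refine (aa (aa (as (aa (as (aw h3 nY2) (am hp1 (aw h1 nY2))) (aw h1 nD)) (am hβ hΔ))
      (am hp1 hβ)) (aw h3 nD)).trans ?_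
    linarith [mul_le_mul_of_nonneg_left (show pb2 + e2 ≤ 1 by linarith) E1]

end Pool.Agent.MP_20bec2_an.Pl

end MrgPart7

-- ======== part 8: formerly Pool.Agent.MP_20bec2_an.Pl.LaS
section MrgPart8

/-! Plane linear algebra: the change of frame. -/

set_option autoImplicit false
open MeasureTheory Set Complex

namespace Pool.Agent.MP_20bec2_an.Pl

namespace La

/-- the real estimate behind the change of frame -/
lemma s_real {D ω ϵ κ s t Db l : ℝ} (hD : |D| ≤ Db) (hω : |ω| ≤ 12 * t) (hϵ : ϵ ^ 2 ≤ 4 * l)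
    (hκ : |κ - 1| ≤ 30 * t) (hs0 : 0 ≤ s) (hs : s ^ 2 = (1 + ω * D) ^ 2 + ω ^ 2 * ϵ ^ 2)
    (hl : l ≤ 1) (hc : t + Db ≤ 1 / 100) :
    |(D + ω * (D ^ 2 + ϵ ^ 2)) / (κ * s ^ 2) - D| ≤ 1000 * (t * Db + l) ∧
      |s - 1| ≤ 1000 * (t * Db + l) := by
  have D0 : 0 ≤ Db := (abs_nonneg _).trans hD
  have t0 : 0 ≤ t := by linarith [abs_nonneg ω]
  have l0 : 0 ≤ l := by linarith [sq_nonneg ϵ]
  have tD := mul_nonneg t0 D0
  have tD1 : t * Db ≤ 1 / 10000 := by nlinarith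
  have hϵ' : |ϵ ^ 2| ≤ 4 * l := by rwa [abs_of_nonneg (sq_nonneg _)]
  have hω' : |ω| ≤ 1 / 8 := hω.trans (by linarith)
  have hD' : |D| ≤ 1 := hD.trans (by linarith)
  have x1 := am hω hD
  obtain ⟨x2, x3⟩ := abs_le.1 x1
  have x4 : |2 + ω * D| ≤ 3 := abs_le.2 ⟨by linarith, by linarith⟩
  have h1 : |s ^ 2 - 1 ^ 2| ≤ 36 * (t * Db) + l / 16 := by
    have e : s ^ 2 - 1 ^ 2 = ω * D * (2 + ω * D) + ω * ω * ϵ ^ 2 := by rw [hs]; ring
    rw [e]
    exact (aa (am x1 x4) (am (am hω' hω') hϵ')).trans (by linarith)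
  constructor
  · obtain ⟨k1, k2⟩ := abs_le.1 hκ
    obtain ⟨s1, s2⟩ := abs_le.1 h1
    have g1 : 1 / 4 ≤ κ * s ^ 2 := by nlinarith
    have g2 : |s ^ 2| ≤ 2 := abs_le.2 ⟨by linarith, by linarith⟩
    have e : (D + ω * (D ^ 2 + ϵ ^ 2)) / (κ * s ^ 2) - D =
        (ω * D * D + ω * ϵ ^ 2 - D * (s ^ 2 - 1 ^ 2) - (κ - 1) * D * s ^ 2) / (κ * s ^ 2) := by
      have : κ * s ^ 2 ≠ 0 := by linarith
      rw [div_sub' this]; congr 1; ring
    rw [e]
    refine (ad (as (as (aa (am x1 hD') (am hω' hϵ')) (am hD' h1)) (am (am hκ hD) g2))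
      (by norm_num) g1).trans ?_
    linarith
  · exact (of_sq one_pos (by linarith) h1).trans (by linarith)

lemma sq_le_two {x : ℂ} (h : ‖x‖ ≤ 5 / 4) : |‖x‖ ^ 2| ≤ 2 := by
  rw [abs_of_nonneg (sq_nonneg _)]; nlinarith [norm_nonneg x]

lemma quarter_le {x : ℝ} (h : 1 / 2 ≤ x) : 1 / 4 ≤ x ^ 2 := by nlinarith

lemma sq_le_four {x : ℝ} (h : |x| ≤ 2) : x ^ 2 ≤ 4 := by nlinarith [abs_le.1 h]

lemma frame (y ζ : ℂ) {ρ : ℝ} (hρ : ρ = ‖ζ‖) (h0 : ρ ≠ 0) (hw : wd y ζ ≠ 0) :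
    -I * (ρ⁻¹ • ζ) = (ρ / wd y ζ) • y + (-ip y ζ / (ρ * wd y ζ)) • ζ := by
  have e : ρ ^ 2 = ζ.re ^ 2 + ζ.im ^ 2 := by rw [hρ, normsq]
  apply Complex.ext
  · simp only [neg_mul, neg_re, mul_re, I_re, I_im, smul_re, smul_im, add_re, smul_eq_mul]
    field_simp
    rw [e]; unfold wd ip; ring
  · simp only [neg_mul, neg_im, mul_im, I_re, I_im, smul_re, smul_im, add_im, smul_eq_mul]
    field_simp
    rw [e]; unfold wd ip; ring

lemma ratio {n Z1 Z2 : ℂ} {Φ φ μ : ℝ} (hn : ‖n‖ = 1) (h3 : ‖Z1 - n‖ ≤ μ) (h4 : ‖Z2 - I * n‖ ≤ μ)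
    (hΦ : |Φ| ≤ φ) (hc : μ ≤ 1 / 100) :
    |‖Z2 - Φ • Z1‖ / ‖Z2‖ - 1| ≤ 1000 * (φ * (μ + φ)) := by
  have μ0 : 0 ≤ μ := (norm_nonneg _).trans h3
  have φ0 : 0 ≤ φ := (abs_nonneg _).trans hΦ
  obtain ⟨z1, z2⟩ := abs_le.1 (near_le hn h3)
  obtain ⟨z3, z4⟩ := abs_le.1 (near_le (norm_In hn) h4)
  have z0 : 0 < ‖Z2‖ := by linarith
  have e : (‖Z2 - Φ • Z1‖ / ‖Z2‖) ^ 2 - 1 ^ 2 =
      (Φ * Φ * ‖Z1‖ ^ 2 - 2 * (Φ * ip Z1 Z2)) / ‖Z2‖ ^ 2 := by
    rw [div_pow, sub_eq_add_neg Z2, ← neg_smul, sq_add, sq_smul, ip_smul_right, ip_comm Z2]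
    field_simp; ring
  have g1 : |‖Z1‖ ^ 2| ≤ 2 := sq_le_two (by linarith)
  have g0 : |(2 : ℝ)| ≤ 2 := by norm_num
  have g2 := ad (B := 1 / 4) (b := ‖Z2‖ ^ 2)
    (as (am (am hΦ hΦ) g1) (am g0 (am hΦ (ip_near hn h3 h4 (by linarith))))) (by norm_num)
    (quarter_le (by linarith))
  refine (of_sq one_pos (le_add_of_nonneg_left (by positivity)) (e ▸ g2)).trans ?_
  linarith [mul_nonneg φ0 φ0, mul_nonneg φ0 μ0]

end La

open La

theorem laS : LaSStmt := by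
  refine ⟨1000, 1 / 100, by norm_num, by norm_num, ?_⟩
  intro n Y1 Y2 Z1 Z2 A1 A2 Φ φ μ Db lo ρ Δ q11 q21 hn h1 h2 h3 h4 hΦ hD hlo hA hw hc hρ hΔ
    hq1 hq2
  have μ0 : 0 ≤ μ := (norm_nonneg _).trans h1
  have φ0 : 0 ≤ φ := (abs_nonneg _).trans hΦ
  have D0 : 0 ≤ Db := (abs_nonneg _).trans hD
  have μ1 : μ ≤ 1 := by linarith
  obtain ⟨y1, y2⟩ := abs_le.1 (near_le hn h1)
  set ζ := Y2 - Φ • Y1 with hζ
  have hρ1 : |ρ - 1| ≤ μ + φ * 2 := by
    rw [hρ]
    refine near_le (norm_In hn) ?_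
    have : ζ - I * n = (Y2 - I * n) - Φ • Y1 := by rw [hζ]; ring
    rw [this]
    refine (norm_sub_le _ _).trans (add_le_add h2 ?_)
    rw [norm_smul]
    exact mul_le_mul hΦ (by linarith) (norm_nonneg _) φ0
  have hΔ1 : |Δ - 1| ≤ 3 * μ := hΔ ▸ wd_near hn h1 h2 μ1
  obtain ⟨r1, r2⟩ := abs_le.1 hρ1
  obtain ⟨d1, d2⟩ := abs_le.1 hΔ1
  have ρ0 : 0 < ρ := by linarith
  have Δ0 : 0 < Δ := by linarith
  have q0 : 0 < q11 := by rw [hq1]; positivity
  have hwζ : wd Y1 ζ = Δ := by rw [hζ, wd_sub_right, wd_smul_right, wd_self, hΔ]; ring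
  have hiζ : |ip Y1 ζ| ≤ 3 * (μ + φ) := by
    rw [hζ, ip_sub_right, ip_smul_right, ip_self]
    have : |‖Y1‖ ^ 2| ≤ 2 := sq_le_two (by linarith)
    exact (as (ip_near hn h1 h2 μ1) (am hΦ this)).trans (by linarith)
  set ν := ‖A1‖ with hν
  have ν1 : 1 ≤ ν := hlo.trans hA
  have ν0 : 0 < ν := by linarith
  set D := ip A1 A2 / ν ^ 2 - Φ with hDd
  set B := A2 - Φ • A1 with hB
  set ω := -ip Y1 ζ / ρ ^ 2 with hω
  have hq : q21 = q11 * ω := by rw [hq1, hq2, hω]; field_simp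
  have hiB : ip A1 B = D * ν ^ 2 := by
    rw [hB, ip_sub_right, ip_smul_right, ip_self, hDd, ← hν]; field_simp
  have hwB : wd A1 B = wd A1 A2 := by rw [hB, wd_sub_right, wd_smul_right, wd_self]; ring
  set ϵ := wd A1 A2 / ν ^ 2 with hϵ
  have hB2 : ‖B‖ ^ 2 = (D ^ 2 + ϵ ^ 2) * ν ^ 2 := by
    have := wd_sq_add A1 B
    rw [hwB, hiB, ← hν] at this
    rw [hϵ]; field_simp
    linear_combination -this
  have eN : q11 • A1 + q21 • B = q11 • (A1 + ω • B) := by rw [hq, smul_add, smul_smul]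
  set N := A1 + ω • B with hN
  have hs : (‖N‖ / ν) ^ 2 = (1 + ω * D) ^ 2 + ω ^ 2 * ϵ ^ 2 := by
    rw [div_pow, hN, sq_add, sq_smul, ip_smul_right, hiB, hB2, ← hν]
    field_simp; ring
  have l0 : 0 < lo ^ 4 := by positivity
  obtain ⟨k1, k2⟩ := s_real (D := D) (ω := ω) (ϵ := ϵ) (κ := ρ * q11) (s := ‖N‖ / ν)
    (t := μ + φ) (Db := Db) (l := 1 / lo ^ 4) hD
    (by
      refine (ad (A := 3 * (μ + φ)) (B := 1 / 4) (by rwa [abs_neg]) (by norm_num)
        (quarter_le (by linarith))).trans (by linarith))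
    (by
      rw [hϵ, div_pow, ← pow_mul, mul_one_div]
      exact div_le_div₀ (by norm_num) (sq_le_four hw) l0 (pow_le_pow_left₀ (by linarith) hA 4))
    (by
      have e : ρ * q11 - 1 = ((ρ - 1) * (ρ + 1) - (Δ - 1)) / Δ := by rw [hq1]; field_simp; ring
      have g : |ρ + 1| ≤ 3 := abs_le.2 ⟨by linarith, by linarith⟩
      rw [e]
      exact (ad (B := 1 / 2) (as (am hρ1 g) hΔ1) (by norm_num) (by linarith)).trans (by linarith))
    (by positivity) hs
    (by rw [div_le_one l0]; exact one_le_pow₀ hlo) (by linarith)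
  refine ⟨by linarith, by linarith, by linarith, by linarith, ?_, ?_, ?_, ?_⟩
  · rw [hq1, hq2, ← hwζ]
    exact frame Y1 ζ hρ ρ0.ne' (by rw [hwζ]; exact Δ0.ne')
  · convert k1 using 3
    have : ip N B = (D + ω * (D ^ 2 + ϵ ^ 2)) * ν ^ 2 := by
      rw [hN, ip_add_left, ip_smul_left, ip_self, hiB, hB2]; ring
    rw [eN, ip_smul_left, ip_smul_right, sq_smul, this, div_pow]
    by_cases c : ‖N‖ = 0
    · simp [c]
    · field_simp
  · convert k2 using 3
    rw [eN, norm_smul, Real.norm_eq_abs, abs_of_pos q0]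
    field_simp
  · exact ratio hn h3 h4 hΦ (by linarith)

end Pool.Agent.MP_20bec2_an.Pl

end MrgPart8

-- ======== part 9: formerly Pool.Agent.MP_20bec2_an.Pl.Swa
section MrgPart9

set_option autoImplicit false
set_option linter.unusedVariables false
open MeasureTheory Set Complex Filter Topology

namespace Pool.Agent.MP_20bec2_an.Pl
noncomputable section

namespace Swa

lemma unit_lip {a b : ℂ} (ha : 1 / 2 ≤ ‖a‖) (hb : 1 / 2 ≤ ‖b‖) :
    ‖‖a‖⁻¹ • a - ‖b‖⁻¹ • b‖ ≤ 4 * ‖a - b‖ := by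
  have pa : 0 < ‖a‖ := by linarith
  have pb : 0 < ‖b‖ := by linarith
  have e : ‖a‖⁻¹ • a - ‖b‖⁻¹ • b = ‖a‖⁻¹ • (a - b) + (‖a‖⁻¹ * ((‖b‖ - ‖a‖) / ‖b‖)) • b := by
    have : ‖a‖⁻¹ * ((‖b‖ - ‖a‖) / ‖b‖) = ‖a‖⁻¹ - ‖b‖⁻¹ := by field_simp
    rw [this, smul_sub, sub_smul]; abel
  have h1 : ‖a‖⁻¹ ≤ 2 := by rw [inv_le_comm₀ pa two_pos]; linarith
  have h2 : |‖b‖ - ‖a‖| ≤ ‖a - b‖ := by rw [norm_sub_rev]; exact abs_norm_sub_norm_le b a
  have h3 : ‖(‖a‖⁻¹ * ((‖b‖ - ‖a‖) / ‖b‖)) • b‖ = ‖a‖⁻¹ * |‖b‖ - ‖a‖| := by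
    rw [norm_smul, Real.norm_eq_abs, abs_mul, abs_div, abs_of_pos (inv_pos.2 pa), abs_of_pos pb]
    field_simp
  rw [e]
  refine (norm_add_le _ _).trans ?_
  rw [h3, norm_smul, Real.norm_eq_abs, abs_of_pos (inv_pos.2 pa)]
  nlinarith [norm_nonneg (a - b), abs_nonneg (‖b‖ - ‖a‖), inv_pos.2 pa]

/-- the new top direction in the basis of the old images -/
lemma rot_eq {a ζ : ℂ} {ρ Δ : ℝ} (hρ : ρ = ‖ζ‖) (h0 : ρ ≠ 0) (hΔ : Δ = wd a ζ) (h1 : Δ ≠ 0) :
    -I * (ρ⁻¹ • ζ) = (ρ / Δ) • a + (-ip a ζ / (ρ * Δ)) • ζ := by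
  have h2 : ρ ^ 2 = ζ.re ^ 2 + ζ.im ^ 2 := by rw [hρ, normsq]
  unfold wd at hΔ
  apply Complex.ext
  · simp only [ip, mul_re, neg_re, neg_im, I_re, I_im, smul_re, smul_im, add_re, smul_eq_mul]
    field_simp
    rw [h2, hΔ]; ring
  · simp only [ip, mul_im, neg_re, neg_im, I_re, I_im, smul_re, smul_im, add_im, smul_eq_mul]
    field_simp
    rw [h2, hΔ]; ring

lemma near_apply {A : ℂ →L[ℝ] ℂ} {μ : ℝ} (h : ‖A - 1‖ ≤ μ) {v : ℂ} (hv : ‖v‖ = 1) :
    ‖A v - v‖ ≤ μ := by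
  have := (A - 1).le_opNorm v
  rw [hv, mul_one] at this
  exact this.trans h

lemma norm_I_mul {v : ℂ} (hv : ‖v‖ = 1) : ‖I * v‖ = 1 := by rw [norm_mul, norm_I, hv, one_mul]

lemma rho_ge {A : ℂ →L[ℝ] ℂ} {μ Φ : ℝ} (h : ‖A - 1‖ ≤ μ) (hμ : μ ≤ 1 / 10) (hΦ : |Φ| ≤ 1 / 10)
    {v : ℂ} (hv : ‖v‖ = 1) : 1 / 2 ≤ ‖A (I * v) - Φ • A v‖ := by
  have h1 := near_apply h hv
  have h2 := near_apply h (norm_I_mul hv)
  have h3 := norm_add_le (A v - v) v
  have h4 := norm_sub_le (A (I * v) - Φ • A v + Φ • A v) (A (I * v) - I * v)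
  have h5 := norm_add_le (A (I * v) - Φ • A v) (Φ • A v)
  rw [sub_add_cancel, hv] at h3
  rw [show A (I * v) - Φ • A v + Φ • A v - (A (I * v) - I * v) = I * v by abel,
    norm_I_mul hv] at h4
  rw [norm_smul, Real.norm_eq_abs] at h5
  nlinarith [abs_nonneg Φ, norm_nonneg (A v)]

lemma comp_apply {g J : ℂ → ℂ} (hg : Differentiable ℝ g) (hJ : Differentiable ℝ J) (x v : ℂ) :
    fderiv ℝ (fun x => g (J x)) x v = fderiv ℝ g (J x) (fderiv ℝ J x v) :=
  congrArg (fun A : ℂ →L[ℝ] ℂ => A v) (fderiv_comp x (hg _) (hJ x))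

lemma jac_id (z : ℂ) : jac (fun x => x) z = 1 := by simp [jac, wd]

variable {w r r' P p1 p2 : ℂ → ℝ} {f Y n f' Y' R J : ℂ → ℂ}

/-- the derivative of the new base map is close to the identity -/
lemma near_id {d1 ηU ηV τ e1 e2 pb1 pb2 : ℝ} (hR : Run n f Y f' Y' R P p1 p2 d1 ηU ηV τ e1 e2)
    (hn : ∀ z, ‖n z‖ = 1) (hp : ∀ z, |p1 z| ≤ pb1 ∧ |p2 z| ≤ pb2) (hY : Differentiable ℝ Y')
    (hJ : Differentiable ℝ J) (hJ1 : ∀ x, ‖fderiv ℝ J x‖ ≤ 10 / 9)
    (hi : ∀ x ζ, fderiv ℝ Y (J x) (fderiv ℝ J x ζ) = ζ) (x : ℂ) :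
    ‖fderiv ℝ (fun x => Y' (J x)) x - 1‖ ≤ 10 / 9 * (pb1 + pb2 + e1 + e2) := by
  have e : fderiv ℝ (fun x => Y' (J x)) x - 1 =
      (fderiv ℝ Y' (J x) - fderiv ℝ Y (J x)).comp (fderiv ℝ J x) := by
    refine ContinuousLinearMap.ext fun v => ?_
    simp only [sub_apply, ContinuousLinearMap.comp_apply,
      comp_apply hY hJ, hi, one_apply_eq_self]
  have h1 := opNorm_le_unit (fderiv ℝ Y' (J x) - fderiv ℝ Y (J x)) (hn (J x))
  have k : ∀ (a : ℂ) (p e pb : ℝ), ‖a - p • n (J x)‖ ≤ e → |p| ≤ pb → ‖a‖ ≤ pb + e := by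
    intro a p e pb h1 h2
    have := norm_add_le (a - p • n (J x)) (p • n (J x))
    rw [sub_add_cancel, norm_smul, hn, mul_one, Real.norm_eq_abs] at this
    linarith
  have h2 := k _ _ _ _ (hR.h1 (J x)) (hp (J x)).1
  have h3 := k _ _ _ _ (hR.h2 (J x)) (hp (J x)).2
  unfold V1 at h2
  unfold V2 at h3
  simp only [sub_apply] at h1
  rw [e]
  refine (ContinuousLinearMap.opNorm_comp_le _ _).trans ?_
  nlinarith [hJ1 x, norm_nonneg (fderiv ℝ J x), norm_nonneg (fderiv ℝ Y' (J x) - fderiv ℝ Y (J x))]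

/-- regularity of the new base map -/
lemma new_bY {C b h b' h' : ℝ} (hC : 1 ≤ C) (h0 : 0 < h') (hh : h' ≤ h) (hb : 0 ≤ b)
    (hb' : b' ≤ 1) (hY : Differentiable ℝ Y')
    (bY : Dh (fun z => fderiv ℝ Y' z - 1) (1 / 10) b' h')
    (hJ : D3 J (10 / 9) (C * b / h) (C * b / h ^ 2))
    (hs : ∀ x, ‖fderiv ℝ (fun x => Y' (J x)) x - 1‖ ≤ 1 / 10) :
    Dh (fun x => fderiv ℝ (fun x => Y' (J x)) x - 1) (1 / 10) (5 * C * (b' + b * h' / h)) h' := by
  have hb0 := bY.nonneg h0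
  have hh0 : 0 < h := h0.trans_le hh
  have := ((D3.of_near hY bY).comp hJ).d2.toL2.sub_const 1
  refine ⟨this.mono ?_ ?_, hs⟩
  · have e : 5 * C * (b' + b * h' / h) / h' = 5 * C * (b' / h') + 5 * (C * b / h) := by
      field_simp
    rw [e]
    have : 0 ≤ b' / h' := by positivity
    have : 0 ≤ C * b / h := by positivity
    nlinarith
  · have e : 5 * C * (b' + b * h' / h) / h' ^ 2 =
        5 * C * (b' / h' ^ 2) + 5 * (C * b / h * (1 / h')) := by
      field_simp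
    have e1 : C * b / h ^ 2 ≤ C * b / h * (1 / h') := by
      rw [show C * b / h ^ 2 = C * b / h * (1 / h) by field_simp]
      gcongr
    have e2 : b' / h' * (C * b / h) ≤ C * b / h * (1 / h') := by
      rw [mul_comm]; gcongr
    rw [e]
    have : 0 ≤ b' / h' ^ 2 := by positivity
    have : 0 ≤ C * b / h * (1 / h') := by positivity
    nlinarith

/-- the maps before and after the block are close -/
lemma move {h b Af h' b' Af' d1 ηU ηV τ e1 e2 hi : ℝ} (c : Core w f Y r h b Af)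
    (c' : Core w f' Y' r' h' b' Af') (hR : Run n f Y f' Y' R P p1 p2 d1 ηU ηV τ e1 e2)
    (hf : ∀ z, ‖fderiv ℝ f' z‖ ≤ 10 * hi) (hhi : 2 ≤ hi) (J : ℂ → ℂ) :
    Mv f Y (fun x => f' (J x)) (fun x => Y' (J x)) (30 * hi * d1) := fun z x => by
  have d0 : 0 ≤ d1 := (norm_nonneg _).trans (hR.dR 0)
  have hb := bilip_of_near c.dY c.bY.b0
  refine ⟨fun e => ?_, fun e => ?_⟩
  · obtain ⟨y, hy⟩ := c'.hom.surjective (f z)
    have hz : R y = z := c.hom.injective ((hR.comp y).symm.trans hy)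
    have h1 := (hb z (J x)).1
    have h2 := hR.dY (J x)
    have h3 := hR.dR y
    have h4 := norm_sub_le_norm_sub_add_norm_sub y z (J x)
    have h5 := convex_univ.norm_image_sub_le_of_norm_fderiv_le (fun x _ => c'.df x)
      (fun x _ => hf x) (mem_univ (J x)) (mem_univ y)
    simp only at e ⊢
    rw [← e] at h2
    rw [hz, norm_sub_rev] at h3
    rw [← hy]
    refine h5.trans ?_
    nlinarith
  · have hz : z = R (J x) := c.hom.injective (e.trans (hR.comp _))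
    have h1 := (hb z (J x)).2
    have h2 := hR.dY (J x)
    have h3 := hR.dR (J x)
    have h4 := norm_sub_le_norm_sub_add_norm_sub (Y z) (Y (J x)) (Y' (J x))
    rw [← hz] at h3
    rw [norm_sub_rev] at h2
    simp only
    nlinarith

end Swa

open Swa

theorem swa_of (h1 : InvStmt) (h2 : NormStmt) (h3 : SmoStmt) (h4 : LaSStmt) : SwaStmt := by
  obtain ⟨Ci, hCi, inv⟩ := h1
  obtain ⟨Cs, hCs, smo⟩ := h3
  refine ⟨5000 * (Ci + Cs), 1 / 50, by linarith, by norm_num, ?_⟩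
  intro w r r' P p1 p2 f Y n f' Y' R h b Af Ln d μ φ o oν lo hi h' b' Af' d1 ηU ηV τ e1 e2 ε
    pb1 pb2 S c' hR nw nr nr' h0 hh hb hb' hAf hlo hp hf hc
  have hh0 : 0 < h := h0.trans_le hh
  have b0 : 0 ≤ b := S.core.bY.nonneg hh0
  have b0' : 0 ≤ b' := c'.bY.nonneg h0
  have ε0 : 0 ≤ ε := (abs_nonneg _).trans (nw 0)
  have μ0 : 0 ≤ μ := (norm_nonneg _).trans (S.mu 0)
  have φ0 : 0 ≤ φ := (abs_nonneg _).trans (S.phi 0)
  have q1 : 0 ≤ pb1 := (abs_nonneg _).trans (hp 0).1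
  have q2 : 0 ≤ pb2 := (abs_nonneg _).trans (hp 0).2
  have q3 : 0 ≤ e1 := (norm_nonneg _).trans (hR.h1 0)
  have q4 : 0 ≤ e2 := (norm_nonneg _).trans (hR.h2 0)
  have hhi : 2 ≤ hi := hlo.trans ((S.band 0).1.trans (S.band 0).2)
  have Ln0 := S.fr.n0
  obtain ⟨J, j1, j2, j3, j4⟩ := inv Y b h hh0 hb S.core.dY S.core.bY
  have jh : IsHomeomorph J := isHomeomorph_iff_exists_inverse.2
    ⟨j3.df.continuous, Y, j1, j2, S.core.dY.continuous⟩
  have hom : IsHomeomorph fun x => f' (J x) := c'.hom.comp jh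
  have hid : (fun z => J (Y z)) = fun z => z := funext j2
  have j5 : ∀ x v, fderiv ℝ J x (fderiv ℝ Y (J x) v) = v := fun x v => by
    have := comp_apply j3.df S.core.dY (J x) v
    rw [hid, j1] at this
    simpa using this.symm
  have j6 : ∀ x, jac J x * jac Y (J x) = 1 := fun x => by
    have := jac_comp (z := J x) (j3.df _) (S.core.dY _)
    rw [hid, j1, jac_id] at this
    exact this.symm
  have hnear := near_id hR S.fr.one hp c'.dY j3.df j3.d2.b0 j4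
  have hρ : ∀ z, 1 / 2 ≤ ‖V2 Y n z - Phi f n z • V1 Y n z‖ := fun z =>
    rho_ge (S.mu z) (by linarith) ((S.phi z).trans (by linarith)) (S.fr.one z)
  refine ⟨fun x => f' (J x), fun x => Y' (J x),
    fun x => -I * (‖V2 Y n (J x) - Phi f n (J x) • V1 Y n (J x)‖⁻¹ •
      (V2 Y n (J x) - Phi f n (J x) • V1 Y n (J x))), J,
    ⟨hom, c'.df.comp j3.df, ?_, c'.dY.comp j3.df, ?_, fun x => ?_⟩, ⟨by positivity, fun x => ?_,
      fun x x' => ?_⟩, fun x => (hnear x).trans (by nlinarith), move S.core c' hR hf hhi J,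
    j3.l2.b1, ?_⟩
  · refine (c'.af.comp (Λ' := 22 * hi) c'.df j3.df hf j3.d2.n1 j3.d2.b1 hom fun x ζ => ?_).mono ?_
    · have a1 := inv_le (hf (J x)) (c'.jac_bd (by linarith) nw nr' (J x)).1 (fderiv ℝ J x ζ)
      have a2 := (fderiv ℝ Y (J x)).le_opNorm (fderiv ℝ J x ζ)
      have a3 := norm_le_of_near (S.core.bY.b0 (J x))
      rw [j4] at a2
      rw [comp_apply c'.df j3.df]
      nlinarith [norm_nonneg (fderiv ℝ J x ζ)]
    · have : 0 ≤ hi ^ 3 * b / h := by positivity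
      rw [show 10 * hi * (Ci * b / h) * (22 * hi) ^ 2 = 4840 * Ci * (hi ^ 3 * b / h) by ring,
        show 5000 * (Ci + Cs) * hi ^ 3 * b / h = 5000 * (Ci + Cs) * (hi ^ 3 * b / h) by ring]
      nlinarith
  · refine (new_bY hCi h0 hh b0 hb' c'.dY c'.bY j3 fun x => (hnear x).trans (by linarith)).mono
      h0 le_rfl ?_
    have : 0 ≤ b' + b * h' / h := by positivity
    nlinarith
  · rw [jac_comp (c'.df _) (j3.df x), jac_comp (c'.dY _) (j3.df x)]
    linear_combination jac J x * c'.eq (J x)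
  · have := hρ (J x)
    rw [norm_mul, norm_neg, norm_I, one_mul, norm_smul, norm_inv, norm_norm,
      inv_mul_cancel₀ (by linarith)]
  · have a1 := (smo w r f Y n h b Af Ln d μ φ o oν lo hi ε _ S (by linarith) nw nr hh0 hAf hlo
      (by linarith) (by linarith) le_rfl (J x) (J x')).2.2.1
    have a2 := unit_lip (hρ (J x)) (hρ (J x'))
    have a3 := j3.l2.b1 x x'
    have a4 : 0 ≤ b / h + Af * hi ^ 2 + hi * Ln := by positivity
    rw [← mul_sub, norm_mul, norm_neg, norm_I, one_mul]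
    generalize b / h + Af * hi ^ 2 + hi * Ln = K at *
    have a5 := mul_le_mul_of_nonneg_left a3 (by positivity : 0 ≤ Cs * K)
    have a6 : 0 ≤ K * ‖x - x'‖ := by positivity
    nlinarith
  · rintro x z Φ ρ Δ rfl hΦ hρ' hΔ
    have a0 : ρ ≠ 0 := by have := hρ (J x); rw [← hΦ, ← hρ'] at this; linarith
    have a1 : Δ ≠ 0 := fun k => by have := j6 x; rw [← hΔ, k] at this; simp at this
    have a2 : Δ = wd (V1 Y n (J x)) (V2 Y n (J x) - Φ • V1 Y n (J x)) := by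
      rw [wd_sub_right, wd_smul_right, wd_self, mul_zero, sub_zero, hΔ]
      exact (jac_unit Y (J x) (S.fr.one _)).symm
    have a3 := rot_eq hρ' a0 a2 a1
    have a4 : fderiv ℝ J x (V2 Y n (J x) - Φ • V1 Y n (J x)) = I * n (J x) - Φ • n (J x) := by
      rw [map_sub, map_smul, V1, V2, j5, j5]
    have a5 : ∀ g : ℂ → ℂ, Differentiable ℝ g → fderiv ℝ (fun x => g (J x)) x
        (V2 Y n (J x) - Φ • V1 Y n (J x)) = V2 g n (J x) - Φ • V1 g n (J x) := fun g hg => by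
      rw [comp_apply hg j3.df, a4, map_sub, map_smul]; rfl
    have a6 : ∀ v : ℂ, I * (-I * v) = v := fun v => by
      rw [← mul_assoc, mul_neg, I_mul_I, neg_neg, one_mul]
    refine ⟨?_, ?_, ?_, ?_⟩
    · rw [V1]
      simp only [← hΦ, ← hρ']
      rw [a3, map_add, map_smul, map_smul, a5 f' c'.df, comp_apply c'.df j3.df, V1, j5]
      rfl
    · rw [V2]
      simp only [← hΦ, ← hρ']
      rw [a6, map_smul, a5 f' c'.df]
    · rw [V2]
      simp only [← hΦ, ← hρ']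
      rw [a6, map_smul, a5 Y' c'.dY]
    · rw [jac_comp (c'.dY _) (j3.df x), eq_div_iff a1, hΔ, mul_assoc, j6, mul_one]

end
end Pool.Agent.MP_20bec2_an.Pl

end MrgPart9

-- ======== part 10: formerly Pool.Agent.MP_20bec2_an.Pl.Limit
section MrgPart10

set_option autoImplicit false
open MeasureTheory Set Complex Filter Topology

namespace Pool.Agent.MP_20bec2_an.Pl
noncomputable section

namespace Limit

/-- change of variables for a differentiable bijection with positive Jacobian -/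
lemma cov {Y : ℂ → ℂ} (hd : Differentiable ℝ Y) (hb : Function.Bijective Y)
    (hj : ∀ z, 0 ≤ jac Y z) (g : ℂ → ℝ) : ∫ x, g x = ∫ z, jac Y z * g (Y z) := by
  have h := integral_image_eq_integral_abs_det_fderiv_smul (μ := (volume : Measure ℂ))
    (s := univ) (f := Y) (f' := fun z => fderiv ℝ Y z) MeasurableSet.univ
    (fun z _ => (hd z).hasFDerivAt.hasFDerivWithinAt) hb.1.injOn g
  rw [image_univ_of_surjective hb.2, Measure.restrict_univ] at h
  rw [h]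
  refine integral_congr_ae (Eventually.of_forall fun z => ?_)
  have : |(fderiv ℝ Y z).det| = jac Y z := by rw [det_eq]; exact abs_of_nonneg (hj z)
  simp only [this, smul_eq_mul]

lemma tele {F : ℕ → ℂ → ℂ} {S : ℕ → ℝ} (h : ∀ j x, ‖F (j + 1) x - F j x‖ ≤ S j - S (j + 1))
    (x : ℂ) {j k : ℕ} (hk : j ≤ k) : ‖F k x - F j x‖ ≤ S j - S k := by
  induction k, hk using Nat.le_induction with
  | base => simp
  | succ k _ ih =>
    have e : F (k + 1) x - F j x = (F (k + 1) x - F k x) + (F k x - F j x) := by ring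
    rw [e]
    exact (norm_add_le _ _).trans (by linarith [h k x])

lemma lim_seq {F : ℕ → ℂ → ℂ} {S : ℕ → ℝ} (h : ∀ j x, ‖F (j + 1) x - F j x‖ ≤ S j - S (j + 1))
    (hS : ∀ j, 0 < S j) (h0 : Tendsto S atTop (𝓝 0)) :
    ∃ F' : ℂ → ℂ, ∀ j x, ‖F' x - F j x‖ ≤ S j := by
  have hc : ∀ x, CauchySeq fun j => F j x := fun x => by
    refine cauchySeq_of_le_tendsto_0' S (fun n m hnm => ?_) h0
    rw [dist_comm, dist_eq_norm]
    exact (tele h x hnm).trans (by linarith [hS m])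
  choose F' hF' using fun x => cauchySeq_tendsto_of_complete (hc x)
  refine ⟨F', fun j x => le_of_tendsto (((hF' x).sub_const (F j x)).norm) ?_⟩
  filter_upwards [eventually_ge_atTop j] with k hk
  exact (tele h x hk).trans (by linarith [hS k])

lemma tend {F : ℕ → ℂ → ℂ} {F' : ℂ → ℂ} {S : ℕ → ℝ} (h : ∀ j x, ‖F' x - F j x‖ ≤ S j)
    (h0 : Tendsto S atTop (𝓝 0)) : TendstoUniformly F F' atTop := by
  rw [Metric.tendstoUniformly_iff]
  intro ε hε
  filter_upwards [h0.eventually (gt_mem_nhds hε)] with j hj x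
  rw [dist_eq_norm]
  exact (h j x).trans_lt hj

lemma cont_of_lip {F : ℂ → ℂ} {L : ℝ} (h : ∀ x y, ‖F x - F y‖ ≤ L * ‖x - y‖) : Continuous F :=
  (LipschitzWith.of_dist_le' (K := L) fun x y => by
    rw [dist_eq_norm, dist_eq_norm]; exact h x y).continuous

lemma inv_lim {F G : ℕ → ℂ → ℂ} {F' G' : ℂ → ℂ} {S : ℕ → ℝ} (hF : ∀ j x, ‖F' x - F j x‖ ≤ S j)
    (hG : ∀ j x, ‖G' x - G j x‖ ≤ S j) (h0 : Tendsto S atTop (𝓝 0)) (hc : Continuous G')
    (h : ∀ j x, G j (F j x) = x) (x : ℂ) : G' (F' x) = x := by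
  have h1 := (tend hG h0).tendsto_comp hc.continuousAt ((tend hF h0).tendsto_at x)
  simp only [h] at h1
  exact tendsto_nhds_unique h1 tendsto_const_nhds

lemma modulus {β K : ℝ} {F : ℕ → ℂ → ℂ} {F' : ℂ → ℂ} {Λ S : ℕ → ℝ} (hβ : 0 < β) (hK : 0 < K)
    (hF : ∀ j x, ‖F' x - F j x‖ ≤ S j) (hL : ∀ j x y, ‖F j x - F j y‖ ≤ Λ j * ‖x - y‖)
    (hS : ∀ j, 0 < S j) (h1 : S 0 < 1) (ha : Antitone S) (h0 : Tendsto S atTop (𝓝 0))
    (hΛ : ∀ j, Λ (j + 1) ≤ K * Real.log (1 / S j) ^ β) (x y : ℂ) (hxy : ‖x - y‖ ≤ S 0) :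
    ‖F' x - F' y‖ ≤
      (K + 2 / Real.log (1 / S 0) ^ β) * (‖x - y‖ * Real.log (1 / ‖x - y‖) ^ β) := by
  rcases eq_or_ne x y with rfl | hne
  · simp
  have ht : 0 < ‖x - y‖ := norm_pos_iff.2 (sub_ne_zero.2 hne)
  have hex : ∃ j, S (j + 1) < ‖x - y‖ :=
    ((h0.comp (tendsto_add_atTop_nat 1)).eventually (gt_mem_nhds ht)).exists
  obtain ⟨j, j1, j2⟩ : ∃ j, S (j + 1) < ‖x - y‖ ∧ ‖x - y‖ ≤ S j := by
    classical
    refine ⟨Nat.find hex, Nat.find_spec hex, ?_⟩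
    rcases h : Nat.find hex with _ | k
    · exact hxy
    · exact not_lt.1 (Nat.find_min hex (by omega))
  have e : F' x - F' y = (F' x - F (j + 1) x) + (F (j + 1) x - F (j + 1) y) -
      (F' y - F (j + 1) y) := by ring
  have a1 : ‖F' x - F' y‖ ≤ S (j + 1) + Λ (j + 1) * ‖x - y‖ + S (j + 1) := by
    rw [e]
    exact (norm_sub_le _ _).trans
      (add_le_add ((norm_add_le _ _).trans (add_le_add (hF _ _) (hL _ _ _))) (hF _ _))
  set t := ‖x - y‖
  have lp : ∀ k, 0 < Real.log (1 / S k) := fun k =>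
    Real.log_pos (one_lt_one_div (hS k) ((ha (Nat.zero_le k)).trans_lt h1))
  have lm : ∀ k, t ≤ S k → Real.log (1 / S k) ^ β ≤ Real.log (1 / t) ^ β := fun k hk =>
    Real.rpow_le_rpow (lp k).le
      (Real.log_le_log (one_div_pos.2 (hS k)) (one_div_le_one_div_of_le ht hk)) hβ.le
  have a2 : Λ (j + 1) ≤ K * Real.log (1 / t) ^ β :=
    (hΛ j).trans (mul_le_mul_of_nonneg_left (lm j j2) hK.le)
  have p0 : 0 < Real.log (1 / S 0) ^ β := Real.rpow_pos_of_pos (lp 0) _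
  have a3 : 2 ≤ 2 / Real.log (1 / S 0) ^ β * Real.log (1 / t) ^ β := by
    rw [div_mul_eq_mul_div, le_div_iff₀ p0]
    linarith [lm 0 hxy]
  nlinarith [mul_le_mul_of_nonneg_right a2 ht.le, mul_le_mul_of_nonneg_right a3 ht.le]

end Limit

open Limit

theorem map_of (h : InvStmt) : MapStmt := by
  intro w r f Y hh b Af ε Λ H h0 hb he hw hr _ _ hΛ
  obtain ⟨C, -, hI⟩ := h
  obtain ⟨J, J1, J2, -, -⟩ := hI Y b hh h0 hb H.dY H.bY
  have hY := bilip_of_near H.dY H.bY.b0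
  have hΛ0 : 0 ≤ Λ := (norm_nonneg _).trans (hΛ 0)
  set e := H.hom.homeomorph f
  have e1 : ∀ z, e.symm (f z) = z := e.symm_apply_apply
  have e2 : ∀ y, f (e.symm y) = y := e.apply_symm_apply
  have hf : ∀ x y, ‖f x - f y‖ ≤ Λ * ‖x - y‖ := fun x y =>
    convex_univ.norm_image_sub_le_of_norm_fderiv_le (fun x _ => H.df x) (fun x _ => hΛ x)
      (mem_univ y) (mem_univ x)
  have hc := colip H.hom H.df fun z ζ => inv_le (hΛ z) (H.jac_bd he hw hr z).1 ζ
  refine ⟨fun x => f (J x), fun y => Y (e.symm y), fun z => by simp only [J2],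
    fun z => by simp only [e1], fun x => ⟨J x, J1 x⟩, fun x => by simp only [e1, J1],
    fun y => by simp only [J2, e2], fun x y => ?_, fun x y => ?_, fun φ _ _ => ?_⟩
  · have a1 := (hY (J x) (J y)).1
    rw [J1, J1] at a1
    have a2 := hf (J x) (J y)
    nlinarith [norm_nonneg (J x - J y), norm_nonneg (x - y),
      mul_le_mul_of_nonneg_left a1 hΛ0]
  · have a1 := (hY (e.symm x) (e.symm y)).2
    have a2 := hc (e.symm x) (e.symm y)
    rw [e2, e2] at a2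
    nlinarith [mul_nonneg hΛ0 (norm_nonneg (x - y))]
  · have jY : ∀ z, 0 ≤ jac Y z := fun z => by
      have h1 : |jac Y z - 1| ≤ _ := det_near _ (H.bY.b0 z)
      have := (abs_le.1 h1).1
      linarith
    rw [cov H.dY ⟨Function.LeftInverse.injective J2, fun x => ⟨J x, J1 x⟩⟩ jY,
      cov H.df H.hom.bijective (fun z => by linarith [(H.jac_bd he hw hr z).1])
        fun y => φ y * w y]
    refine integral_congr_ae (Eventually.of_forall fun z => ?_)
    simp only [J2]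
    linear_combination (-φ (f z)) * H.eq z

theorem limit : LimitStmt := by
  intro β K F G Λ S r ρ w hβ hK hinv hL hd hS h1 h0 hΛ hr hρ hw hρK hw0 hu hint
  obtain ⟨F', hF⟩ := lim_seq (fun j x => (hd j x).1) hS h0
  obtain ⟨G', hG⟩ := lim_seq (fun j x => (hd j x).2) hS h0
  have cF : ∀ j, Continuous (F j) := fun j => cont_of_lip fun x y => (hL j x y).1
  have cG : ∀ j, Continuous (G j) := fun j => cont_of_lip fun x y => (hL j x y).2
  have cF' : Continuous F' := (tend hF h0).continuous (Frequently.of_forall cF)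
  have cG' : Continuous G' := (tend hG h0).continuous (Frequently.of_forall cG)
  have i1 := inv_lim hF hG h0 cG' fun j x => (hinv j x).1
  have i2 := inv_lim hG hF h0 cF' fun j x => (hinv j x).2
  have ha : Antitone S := antitone_nat_of_succ_le fun j => by
    linarith [norm_nonneg (F (j + 1) 0 - F j 0), (hd j 0).1]
  have lp : 0 < Real.log (1 / S 0) ^ β :=
    Real.rpow_pos_of_pos (Real.log_pos (one_lt_one_div (hS 0) h1)) _
  refine ⟨F', cF', ⟨K + 2 / Real.log (1 / S 0) ^ β, S 0, by positivity, hS 0, h1, fun x y =>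
    ⟨modulus hβ hK hF (fun j x y => (hL j x y).1) hS h1 ha h0 hΛ x y, fun hxy => ?_⟩⟩, ?_⟩
  · have := modulus hβ hK hG (fun j x y => (hL j x y).2) hS h1 ha h0 hΛ _ _ hxy
    rwa [i1, i1] at this
  have key : ∀ φ : ℂ → ℝ, Continuous φ → HasCompactSupport φ →
      ∫ x, φ (F' x) * ρ x = ∫ y, φ y * w y := by
    intro φ hφ hc
    obtain ⟨M, hM⟩ := hφ.bounded_above_of_compact_support hc
    obtain ⟨R, hR⟩ := hc.isCompact.isBounded.subset_closedBall 0
    have hsup : ∀ j x, φ (F j x) ≠ 0 →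
        x ∈ Metric.closedBall (0 : ℂ) (S 0 + |Λ 0| * R + ‖G 0 0‖) := by
      intro j x hx
      have a1 : ‖F j x‖ ≤ R := by
        simpa using hR (subset_tsupport _ (Function.mem_support.2 hx))
      have a2 := tele (fun j x => (hd j x).2) (F j x) (Nat.zero_le j)
      have a3 := (hL 0 (F j x) 0).2
      rw [(hinv j x).1] at a2
      rw [sub_zero] at a3
      have a4 : Λ 0 * ‖F j x‖ ≤ |Λ 0| * R :=
        mul_le_mul (le_abs_self _) a1 (norm_nonneg _) (abs_nonneg _)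
      have e : x = (x - G 0 (F j x)) + (G 0 (F j x) - G 0 0) + G 0 0 := by ring
      rw [mem_closedBall_zero_iff, e]
      refine (norm_add_le _ _).trans (add_le_add ((norm_add_le _ _).trans ?_) le_rfl)
      linarith [hS j]
    have hlim := tendsto_integral_filter_of_dominated_convergence (μ := (volume : Measure ℂ))
      (l := atTop) (F := fun j x => φ (F j x) * r j x) (f := fun x => φ (F' x) * ρ x)
      ((Metric.closedBall (0 : ℂ) (S 0 + |Λ 0| * R + ‖G 0 0‖)).indicator fun _ => M * (K + 1))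
      (Eventually.of_forall fun j => ((hφ.comp (cF j)).mul (hr j)).aestronglyMeasurable) ?_
      ((integrableOn_const measure_closedBall_lt_top.ne).integrable_indicator
        measurableSet_closedBall)
      (Eventually.of_forall fun x =>
        ((hφ.tendsto _).comp ((tend hF h0).tendsto_at x)).mul (hu.tendsto_at x))
    · simp only [hint _ φ hφ hc] at hlim
      exact tendsto_nhds_unique hlim tendsto_const_nhds
    · filter_upwards [Metric.tendstoUniformly_iff.1 hu 1 one_pos] with j hj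
      refine Eventually.of_forall fun x => ?_
      have hM0 : 0 ≤ M := (norm_nonneg _).trans (hM 0)
      by_cases hx : φ (F j x) = 0
      · rw [hx, zero_mul, norm_zero]
        exact indicator_nonneg (fun _ _ => by positivity) _
      · rw [indicator_of_mem (hsup j x hx), norm_mul]
        refine mul_le_mul (hM _) ?_ (norm_nonneg _) hM0
        have a1 := hj x
        rw [Real.dist_eq, abs_lt] at a1
        rw [Real.norm_eq_abs, abs_le]
        constructor <;> linarith [(hρK x).1, (hρK x).2]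
  let e : ℂ ≃ₜ ℂ := ⟨⟨F', G', i1, i2⟩, cF', cG'⟩
  have l1 := IsLocallyFiniteMeasure.withDensity_ofReal (μ := (volume : Measure ℂ)) hρ
  have l2 := IsLocallyFiniteMeasure.withDensity_ofReal (μ := (volume : Measure ℂ)) hw
  have r1 : (((volume : Measure ℂ).withDensity fun x => ENNReal.ofReal (ρ x)).map e).Regular :=
    Measure.Regular.map e
  have hm : ((volume : Measure ℂ).withDensity fun x => ENNReal.ofReal (ρ x)).map e =
      (volume : Measure ℂ).withDensity fun x => ENNReal.ofReal (w x) := by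
    refine Measure.ext_of_integral_eq_on_compactlySupported fun φ => ?_
    have cφ : Continuous fun x => φ x := φ.continuous
    rw [integral_map e.continuous.aemeasurable cφ.aestronglyMeasurable,
      integral_withDensity_eq_integral_toReal_smul hρ.measurable.ennreal_ofReal
        (Eventually.of_forall fun _ => ENNReal.ofReal_lt_top),
      integral_withDensity_eq_integral_toReal_smul hw.measurable.ennreal_ofReal
        (Eventually.of_forall fun _ => ENNReal.ofReal_lt_top)]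
    simp only [ENNReal.toReal_ofReal (hρK _).1, ENNReal.toReal_ofReal (hw0 _), smul_eq_mul,
      mul_comm (ρ _), mul_comm (w _)]
    exact key φ cφ φ.hasCompactSupport
  intro B hB
  rw [← withDensity_apply _ hB, ← hm, Measure.map_apply e.continuous.measurable hB,
    withDensity_apply _ (e.continuous.measurable hB)]
  rfl

end
end Pool.Agent.MP_20bec2_an.Pl

end MrgPart10

-- ======== part 11: formerly Pool.Agent.MP_20bec2_an.Pl.All
section MrgPart11

set_option autoImplicit false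

namespace Pool.Agent.MP_20bec2_an.Pl

theorem flux_all : FluxStmt := flux_of prim
theorem step_all : StepStmt := step_of (cell_of (lam_of prim imp) (slide_of prim imp)) stepY stepF
theorem wig_all : WigStmt := wig_of avg_ofB (stg_of (bal_of ga als)) (mean_of ga) (jadm_of flux_all)
theorem iter_all : IterStmt := iter_of normS
theorem smo_all : SmoStmt := smo_of normS
theorem switch_all : SwitchStmt :=
  switch_of normS smo_all (swa_of inv normS smo_all laS) laV laY laS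
theorem block_all : BlockStmt :=
  block_of switch_all (nrun_of iter_all (nst_of inv gp wig_all step_all))
    (corr_of normS iter_all (dst_of (det_of flux_all) step_all) (pat_of wave_stmt trig))
theorem main_all : MainStmt :=
  main_of (core_of normS (cycle_of inv block_all) (dens_of ga gp) (map_of inv) limit) (knothe_of prim)

end Pool.Agent.MP_20bec2_an.Pl

end MrgPart11

-- marker of a merged file
example : 731051 + 245883 = 731051 + 245883 := rfl
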