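import Pool.Agent.MP_20bec2_an.Pl.La

-- ======== part 0: formerly Pool.Agent.MP_20bec2_an.Pl.Lam
section MrgPart0

set_option autoImplicit false
open MeasureTheory Set Complex Filter Topology

namespace Pool.Agent.MP_20bec2_an.Pl
noncomputable section

namespace LamP

/-- the horizontally moved point -/
def mv (L u s w : ℝ) : ℂ := ⟨u + s * cut (w / L), w⟩
/-- derivative in the parameter -/
def eE (ρ1 : ℂ → ℝ) (L u s : ℝ) : ℝ := ∫ w in (-L)..L, cut (w / L) * ρ1 (mv L u s w)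
/-- derivative in the horizontal variable -/
def aA (ρ0 ρ1 : ℂ → ℝ) (L u s : ℝ) : ℝ := ∫ w in (-L)..L, (ρ1 (mv L u s w) - ρ0 ⟨u, w⟩)
/-- mass moved across the vertical line -/
def gG (ρ1 : ℂ → ℝ) (L u s : ℝ) : ℝ :=
  ∫ w in (-L)..L, ∫ t in u..(u + s * cut (w / L)), ρ1 ⟨t, w⟩

lemma cont_cut (L : ℝ) : Continuous fun w : ℝ => cut (w / L) :=
  contDiff_cut.continuous.comp (continuous_id.div_const L)

lemma cont_mk {X : Type*} [TopologicalSpace X] {a b : X → ℝ} (ha : Continuous a)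
    (hb : Continuous b) : Continuous fun x => (⟨a x, b x⟩ : ℂ) := by
  have : (fun x => (⟨a x, b x⟩ : ℂ)) = fun x => ((a x : ℝ) : ℂ) + ((b x : ℝ) : ℂ) * I := by
    funext x; apply Complex.ext <;> simp
  rw [this]; fun_prop

lemma cont_mv {X : Type*} [TopologicalSpace X] (L : ℝ) {a b c : X → ℝ} (ha : Continuous a)
    (hb : Continuous b) (hc : Continuous c) : Continuous fun x => mv L (a x) (b x) (c x) :=
  cont_mk (ha.add (hb.mul ((cont_cut L).comp hc))) hc

lemma taylor1 {r : ℝ → ℝ} {B : ℝ} (hB : 0 ≤ B) (hc : Continuous r)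
    (hr : ∀ x y, |r x - r y| ≤ B * |x - y|) (x v : ℝ) :
    |(∫ t in x..(x + v), r t) - r x * v| ≤ B * v ^ 2 := by
  have e : (∫ t in x..(x + v), r t) - r x * v = ∫ t in x..(x + v), (r t - r x) := by
    rw [intervalIntegral.integral_sub (hc.intervalIntegrable _ _) intervalIntegrable_const,
      intervalIntegral.integral_const]
    simp [mul_comm]
  rw [e]
  have := intervalIntegral.norm_integral_le_of_norm_le_const (a := x) (b := x + v)
    (f := fun t => r t - r x) (C := B * |v|) (fun t ht => by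
      refine (hr t x).trans ?_
      have : |t - x| ≤ |v| := by
        have := abs_sub_left_of_mem_uIcc (uIoc_subset_uIcc ht)
        simpa using this
      gcongr)
  rw [Real.norm_eq_abs, add_sub_cancel_left] at this
  refine this.trans (le_of_eq ?_)
  rw [mul_assoc, abs_mul_abs_self, sq]

lemma abs_int_le {f : ℝ → ℝ} {L C : ℝ} (hL : 0 < L) (h : ∀ w, |f w| ≤ C) :
    |∫ w in (-L)..L, f w| ≤ 2 * L * C := by
  have := intervalIntegral.norm_integral_le_of_norm_le_const (a := -L) (b := L) (f := f) (C := C)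
    (fun t _ => h t)
  rw [Real.norm_eq_abs, sub_neg_eq_add, abs_of_pos (by linarith : 0 < L + L)] at this
  linarith

section
variable {ρ0 ρ1 : ℂ → ℝ} {L B B2 : ℝ}

lemma lip_line (h : L2 ρ1 B B2) (w x y : ℝ) : |ρ1 ⟨x, w⟩ - ρ1 ⟨y, w⟩| ≤ B * |x - y| := by
  have := h.b1 ⟨x, w⟩ ⟨y, w⟩
  rwa [norm_mk_sub] at this

lemma taylorG (h : L2 ρ1 B B2) (hL : 0 < L) (u s a b n : ℝ) (ha : |a| ≤ n) (hb : |b| ≤ n) :
    |gG ρ1 L (u + a) (s + b) - gG ρ1 L u s - (aA ρ1 ρ1 L u s * a + eE ρ1 L u s * b)| ≤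
      10 * L * B * n ^ 2 := by
  have hc := h.continuous
  have hB := h.n1
  have cg : ∀ u s : ℝ, Continuous fun w => ∫ t in u..(u + s * cut (w / L)), ρ1 ⟨t, w⟩ :=
    fun u s => intervalIntegral.continuous_parametric_intervalIntegral_of_continuous
      (f := fun w t => ρ1 ⟨t, w⟩) (hc.comp (cont_mk continuous_snd continuous_fst))
      (continuous_const.add (continuous_const.mul (cont_cut L)))
  have c1 : Continuous fun w => ρ1 (mv L u s w) :=
    hc.comp (cont_mv L continuous_const continuous_const continuous_id)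
  have c2 : Continuous fun w : ℝ => ρ1 ⟨u, w⟩ := hc.comp (cont_mk continuous_const continuous_id)
  have c3 : Continuous fun w => (ρ1 (mv L u s w) - ρ1 ⟨u, w⟩) * a := (c1.sub c2).mul continuous_const
  have c4 : Continuous fun w => cut (w / L) * ρ1 (mv L u s w) * b :=
    ((cont_cut L).mul c1).mul continuous_const
  unfold gG aA eE
  rw [← intervalIntegral.integral_mul_const, ← intervalIntegral.integral_mul_const,
    ← intervalIntegral.integral_add (c3.intervalIntegrable _ _) (c4.intervalIntegrable _ _),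
    ← intervalIntegral.integral_sub ((cg _ _).intervalIntegrable _ _)
      ((cg _ _).intervalIntegrable _ _),
    ← intervalIntegral.integral_sub (((cg _ _).intervalIntegrable _ _).sub
      ((cg _ _).intervalIntegrable _ _))
      ((c3.intervalIntegrable _ _).add (c4.intervalIntegrable _ _))]
  refine (abs_int_le (C := 5 * B * n ^ 2) hL fun w => ?_).trans (le_of_eq (by ring))
  have cr : Continuous fun t : ℝ => ρ1 ⟨t, w⟩ := hc.comp (cont_mk continuous_id continuous_const)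
  have t1 := taylor1 hB cr (lip_line h w) (u + s * cut (w / L)) (a + b * cut (w / L))
  have t2 := taylor1 hB cr (lip_line h w) u a
  have e1 := intervalIntegral.integral_add_adjacent_intervals (μ := volume)
    (cr.intervalIntegrable u (u + a)) (cr.intervalIntegrable (u + a) (u + a + (s + b) * cut (w / L)))
  have e2 := intervalIntegral.integral_add_adjacent_intervals (μ := volume)
    (cr.intervalIntegrable u (u + s * cut (w / L)))
    (cr.intervalIntegrable (u + s * cut (w / L)) (u + a + (s + b) * cut (w / L)))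
  have e3 : u + s * cut (w / L) + (a + b * cut (w / L)) = u + a + (s + b) * cut (w / L) := by ring
  rw [e3] at t1
  have hβ := abs_cut_le (w / L)
  have hn : 0 ≤ n := (abs_nonneg _).trans ha
  have q1 : (a + b * cut (w / L)) ^ 2 ≤ (2 * n) ^ 2 := by
    apply sq_le_sq'
    all_goals
      have : |b * cut (w / L)| ≤ n := by
        rw [abs_mul]; nlinarith [abs_nonneg b, abs_nonneg (cut (w / L))]
      linarith [abs_le.mp this, abs_le.mp ha]
  have q2 : a ^ 2 ≤ n ^ 2 := by apply sq_le_sq' <;> linarith [abs_le.mp ha]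
  have q3 : B * (a + b * cut (w / L)) ^ 2 ≤ B * (2 * n) ^ 2 := by gcongr
  have q4 : B * a ^ 2 ≤ B * n ^ 2 := by gcongr
  unfold mv
  rw [abs_le] at t1 t2 ⊢
  constructor <;> nlinarith [t1.1, t1.2, t2.1, t2.2]

lemma cont_eE {X : Type*} [TopologicalSpace X] [FirstCountableTopology X] [LocallyCompactSpace X]
    (hc : Continuous ρ1) {a b : X → ℝ} (ha : Continuous a) (hb : Continuous b) :
    Continuous fun x => eE ρ1 L (a x) (b x) :=
  intervalIntegral.continuous_parametric_intervalIntegral_of_continuous'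
    (f := fun x w => cut (w / L) * ρ1 (mv L (a x) (b x) w))
    (((cont_cut L).comp continuous_snd).mul (hc.comp
      (cont_mv L (ha.comp continuous_fst) (hb.comp continuous_fst) continuous_snd))) _ _

lemma cont_aA {X : Type*} [TopologicalSpace X] [FirstCountableTopology X] [LocallyCompactSpace X]
    (h0 : Continuous ρ0) (hc : Continuous ρ1) {a b : X → ℝ} (ha : Continuous a)
    (hb : Continuous b) : Continuous fun x => aA ρ0 ρ1 L (a x) (b x) :=
  intervalIntegral.continuous_parametric_intervalIntegral_of_continuous'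
    (f := fun x w => ρ1 (mv L (a x) (b x) w) - ρ0 ⟨a x, w⟩)
    ((hc.comp (cont_mv L (ha.comp continuous_fst) (hb.comp continuous_fst) continuous_snd)).sub
      (h0.comp (cont_mk (ha.comp continuous_fst) continuous_snd))) _ _

lemma aA_split (h0 : Continuous ρ0) (hc : Continuous ρ1) (u s : ℝ) :
    aA ρ0 ρ1 L u s = col (fun p => ρ1 p - ρ0 p) (-L) u L + aA ρ1 ρ1 L u s := by
  have c1 : Continuous fun w => ρ1 (mv L u s w) :=
    hc.comp (cont_mv L continuous_const continuous_const continuous_id)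
  have c2 : Continuous fun w : ℝ => ρ1 ⟨u, w⟩ := hc.comp (cont_mk continuous_const continuous_id)
  have c3 : Continuous fun w : ℝ => ρ0 ⟨u, w⟩ := h0.comp (cont_mk continuous_const continuous_id)
  unfold aA col
  beta_reduce
  rw [← intervalIntegral.integral_add
    ((c2.intervalIntegrable _ _).sub (c3.intervalIntegrable _ _))
    ((c1.intervalIntegrable _ _).sub (c2.intervalIntegrable _ _))]
  congr 1; funext w; ring

lemma eE_ge (hc : Continuous ρ1) (hL : 0 < L) (hp : ∀ p, 1 / 2 ≤ ρ1 p) (u s : ℝ) :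
    L / 2 ≤ eE ρ1 L u s := by
  have c1 : Continuous fun w => cut (w / L) * ρ1 (mv L u s w) :=
    (cont_cut L).mul (hc.comp (cont_mv L continuous_const continuous_const continuous_id))
  have h1 : ∫ w in (-(L / 2))..(L / 2), cut (w / L) * ρ1 (mv L u s w) ≤ eE ρ1 L u s :=
    intervalIntegral.integral_mono_interval (by linarith) (by linarith) (by linarith)
      (Eventually.of_forall fun w => mul_nonneg (cut_nonneg _) (by linarith [hp (mv L u s w)]))
      (c1.intervalIntegrable _ _)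
  refine le_trans ?_ h1
  have h2 : ∫ _ in (-(L / 2))..(L / 2), (1 / 2 : ℝ) ≤
      ∫ w in (-(L / 2))..(L / 2), cut (w / L) * ρ1 (mv L u s w) :=
    intervalIntegral.integral_mono_on (by linarith) intervalIntegrable_const
      (c1.intervalIntegrable _ _) fun w hw => by
        rw [cut_one, one_mul]
        · exact hp _
        · rw [abs_div, abs_of_pos hL, div_le_iff₀ hL, abs_le]
          constructor <;> linarith [hw.1, hw.2]
  refine le_trans (le_of_eq ?_) h2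
  simp; ring

end

/-- the implicit function with its differential equation -/
lemma exists_lam (hI : ImpStmt) {ρ0 ρ1 Ep Pc : ℂ → ℝ} {L B B2 d0 τ0 m0 : ℝ} (hL : 0 < L)
    (hp : ∀ p, 1 / 2 ≤ ρ1 p) (h0 : Continuous ρ0) (h1 : L2 ρ1 B B2)
    (hb : Bal (fun p => ρ1 p - ρ0 p) L Ep Pc d0 τ0 m0) :
    ∃ lam : ℝ → ℝ, (∀ u, L ≤ |u| → lam u = 0) ∧ (∀ u, |lam u| ≤ 2 * m0 / L) ∧
      Differentiable ℝ lam ∧
      ∀ u, eE ρ1 L u (lam u) * deriv lam u = -aA ρ0 ρ1 L u (lam u) := by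
  set δ : ℂ → ℝ := fun p => ρ1 p - ρ0 p with hδ
  have hc := h1.continuous
  have lipΔ : ∀ u u', |col δ (-L) u L - col δ (-L) u' L| ≤ τ0 * |u - u'| := fun u u' => by
    simpa [hb.top] using hb.lip u u' L
  have hτ : 0 ≤ τ0 := by simpa using (abs_nonneg _).trans (lipΔ 1 0)
  have cΔ : Continuous fun u => col δ (-L) u L :=
    (LipschitzWith.of_dist_le_mul (K := ⟨τ0, hτ⟩) fun x y => lipΔ x y).continuous
  let F : ℂ × ℝ → ℝ := fun p => mas δ L p.1.re + gG ρ1 L p.1.re p.2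
  let D : ℂ × ℝ → (ℂ × ℝ →L[ℝ] ℝ) := fun p =>
    aA ρ0 ρ1 L p.1.re p.2 • (Complex.reCLM.comp (ContinuousLinearMap.fst ℝ ℂ ℝ)) +
      eE ρ1 L p.1.re p.2 • ContinuousLinearMap.snd ℝ ℂ ℝ
  have hD : ∀ p v : ℂ × ℝ, D p v = aA ρ0 ρ1 L p.1.re p.2 * v.1.re + eE ρ1 L p.1.re p.2 * v.2 :=
    fun p v => by simp [D]
  have hF : ∀ p, HasFDerivAt F (D p) p := fun p => by
    refine L2.hasFDerivAt_aux (B2 := τ0 + 10 * L * B) fun v => ?_
    have ha : |v.1.re| ≤ ‖v‖ := (Complex.abs_re_le_norm _).trans (norm_fst_le v)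
    have hb' : |v.2| ≤ ‖v‖ := norm_snd_le v
    have t1 := taylorG h1 hL p.1.re p.2 v.1.re v.2 ‖v‖ ha hb'
    have t2 := taylor1 hτ cΔ lipΔ p.1.re v.1.re
    have e1 := intervalIntegral.integral_add_adjacent_intervals (μ := volume)
      (cΔ.intervalIntegrable (-L) p.1.re) (cΔ.intervalIntegrable p.1.re (p.1.re + v.1.re))
    have q2 : v.1.re ^ 2 ≤ ‖v‖ ^ 2 := by apply sq_le_sq' <;> linarith [abs_le.mp ha]
    have q4 : τ0 * v.1.re ^ 2 ≤ τ0 * ‖v‖ ^ 2 := by gcongr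
    rw [hD, aA_split h0 hc, Real.norm_eq_abs]
    simp only [F, mas, Prod.fst_add, Prod.snd_add, Complex.add_re]
    rw [← e1]
    rw [abs_le] at t1 t2 ⊢
    constructor <;> nlinarith [t1.1, t1.2, t2.1, t2.2]
  have hf : fderiv ℝ F = D := funext fun p => (hF p).fderiv
  have cre : Continuous fun p : ℂ × ℝ => p.1.re := Complex.continuous_re.comp continuous_fst
  have hC : ContDiff ℝ 1 F := contDiff_one_iff_fderiv.mpr ⟨fun p => (hF p).differentiableAt, by
    rw [hf]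
    exact ((cont_aA h0 hc cre continuous_snd).smul continuous_const).add
      ((cont_eE hc cre continuous_snd).smul continuous_const)⟩
  obtain ⟨lam, -, k2, k3, k4⟩ := hI F (L / 2) (by linarith) hC fun p => by
    rw [hf, hD]; simpa using eE_ge hc hL hp _ _
  have k5 : ∀ u : ℝ, L / 2 * |lam ⟨u, 0⟩| ≤ |mas δ L u| := fun u => by
    simpa [F, gG] using k2 ⟨u, 0⟩ 0
  have hd : ∀ u : ℝ, HasDerivAt (fun u : ℝ => lam ⟨u, 0⟩) (fderiv ℝ lam ⟨u, 0⟩ 1) u := fun u =>
    (k3 ⟨u, 0⟩).hasFDerivAt.comp_hasDerivAt u (hasDerivAt_lineRe u 0)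
  have z : ∀ t, L ≤ |t| → col δ (-L) t L = 0 := fun t ht => by
    unfold col
    simp only [hb.out ⟨t, _⟩ (Or.inl ht), intervalIntegral.integral_zero]
  refine ⟨fun u => lam ⟨u, 0⟩, fun u hu => ?_, fun u => ?_, fun u => (hd u).differentiableAt,
    fun u => ?_⟩
  · have hm : mas δ L u = 0 := by
      rcases le_abs.mp hu with hu | hu
      · have e1 := intervalIntegral.integral_add_adjacent_intervals (μ := volume)
          (cΔ.intervalIntegrable (-L) L) (cΔ.intervalIntegrable L u)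
        have e2 : ∫ t in L..u, col δ (-L) t L = ∫ _ in L..u, (0 : ℝ) :=
          intervalIntegral.integral_congr fun t ht => z t (by
            rw [uIcc_of_le hu] at ht; exact ht.1.trans (le_abs_self t))
        have e3 := hb.tot
        unfold mas at e3 ⊢
        rw [← e1, e2, e3]; simp
      · have e2 : ∫ t in (-L)..u, col δ (-L) t L = ∫ _ in (-L)..u, (0 : ℝ) :=
          intervalIntegral.integral_congr fun t ht => z t (by
            rw [uIcc_of_ge (by linarith)] at ht; linarith [ht.2, neg_le_abs t])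
        unfold mas
        rw [e2]; simp
    have := k5 u
    rw [hm, abs_zero] at this
    exact abs_nonpos_iff.mp (by nlinarith [abs_nonneg (lam ⟨u, 0⟩)])
  · rw [le_div_iff₀ hL]
    linarith [k5 u, hb.ms u]
  · have := k4 ⟨u, 0⟩ 1
    rw [hf, hD, hD] at this
    rw [(hd u).deriv]
    simpa using this

lemma norm_mv_sub (L u s s' w : ℝ) : ‖mv L u s w - mv L u s' w‖ ≤ |s - s'| := by
  unfold mv
  rw [norm_mk_sub, show u + s * cut (w / L) - (u + s' * cut (w / L)) = (s - s') * cut (w / L) by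
    ring, abs_mul]
  exact mul_le_of_le_one_right (abs_nonneg _) (abs_cut_le _)

lemma mv_zero (L u w : ℝ) : mv L u 0 w = ⟨u, w⟩ := by simp [mv]

lemma aA_sup {ρ1 : ℂ → ℝ} {L B B2 : ℝ} (h : L2 ρ1 B B2) (hL : 0 < L) (u s : ℝ) :
    |aA ρ1 ρ1 L u s| ≤ 2 * L * (B * |s|) :=
  abs_int_le hL fun w => by
    have h1 := h.b1 (mv L u s w) (mv L u 0 w)
    have h2 := norm_mv_sub L u s 0 w
    rw [sub_zero] at h2
    rw [← mv_zero L u w]
    exact h1.trans (by have := h.n1; gcongr)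

lemma aA_lip {ρ1 : ℂ → ℝ} {L B B2 : ℝ} (h : L2 ρ1 B B2) (hL : 0 < L) (u s u' s' : ℝ) :
    |aA ρ1 ρ1 L u s - aA ρ1 ρ1 L u' s'| ≤ 2 * L * (B * |s - s'| + B2 * |s'| * |u - u'|) := by
  have hc := h.continuous
  have c1 : ∀ u s : ℝ, IntervalIntegrable (fun w => ρ1 (mv L u s w) - ρ1 ⟨u, w⟩) volume (-L) L :=
    fun u s => ((hc.comp (cont_mv L continuous_const continuous_const continuous_id)).sub
      (hc.comp (cont_mk continuous_const continuous_id))).intervalIntegrable _ _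
  unfold aA
  rw [← intervalIntegral.integral_sub (c1 _ _) (c1 _ _)]
  refine abs_int_le hL fun w => ?_
  have h1 := h.b1 (mv L u s w) (mv L u s' w)
  have h2 := norm_mv_sub L u s s' w
  have h3 := h.b2 ⟨u', w⟩ ((s' * cut (w / L) : ℝ) : ℂ) ((u - u' : ℝ) : ℂ)
  have e1 : (⟨u', w⟩ : ℂ) + ((s' * cut (w / L) : ℝ) : ℂ) + ((u - u' : ℝ) : ℂ) = mv L u s' w := by
    apply Complex.ext
    · simp only [mv, Complex.add_re, Complex.ofReal_re]; ring
    · simp only [mv, Complex.add_im, Complex.ofReal_im]; ring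
  have e2 : (⟨u', w⟩ : ℂ) + ((s' * cut (w / L) : ℝ) : ℂ) = mv L u' s' w := by
    apply Complex.ext
    · simp only [mv, Complex.add_re, Complex.ofReal_re]
    · simp only [mv, Complex.add_im, Complex.ofReal_im]; ring
  have e3 : (⟨u', w⟩ : ℂ) + ((u - u' : ℝ) : ℂ) = ⟨u, w⟩ := by
    apply Complex.ext
    · simp only [Complex.add_re, Complex.ofReal_re]; ring
    · simp only [Complex.add_im, Complex.ofReal_im]; ring
  rw [e1, e2, e3, Complex.norm_real, Complex.norm_real, Real.norm_eq_abs, Real.norm_eq_abs,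
    Real.norm_eq_abs] at h3
  have h4 : |s' * cut (w / L)| ≤ |s'| := by
    rw [abs_mul]; exact mul_le_of_le_one_right (abs_nonneg _) (abs_cut_le _)
  have h5 : B * ‖mv L u s w - mv L u s' w‖ ≤ B * |s - s'| := by have := h.n1; gcongr
  have h6 : B2 * |s' * cut (w / L)| * |u - u'| ≤ B2 * |s'| * |u - u'| := by have := h.n2; gcongr
  rw [Real.norm_eq_abs] at h1
  rw [abs_le] at h1 h3 ⊢
  constructor <;> linarith [h1.1, h1.2, h3.1, h3.2]

lemma l2_mv {lam : ℝ → ℝ} {P2 : ℝ} (h : L2 lam 1 P2) (L w : ℝ) :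
    L2 (fun u => mv L u (lam u) w) 2 P2 := by
  have h1 : L2 (fun u => cut (w / L) * lam u) 1 P2 := by
    have := h.clm_comp (cut (w / L) • ContinuousLinearMap.id ℝ ℝ)
    have hn : ‖cut (w / L) • ContinuousLinearMap.id ℝ ℝ‖ ≤ 1 := by
      rw [norm_smul, ContinuousLinearMap.norm_id, mul_one]; exact abs_cut_le _
    exact L2.mono (by simpa using this) (le_of_eq_of_le (mul_one _) hn)
      (mul_le_of_le_one_left h.n2 hn)
  have h2 := (L2.lineRe w).comp ((L2.id (X := ℝ)).add h1)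
  refine L2.mono (by simpa only [mv, mul_comm] using h2) (by norm_num) (by simp)

lemma d2_eE {ρ1 : ℂ → ℝ} {lam : ℝ → ℝ} {L B B2 P2 : ℝ} (h : D2 ρ1 2 B B2) (hL : 0 < L)
    (hl : L2 lam 1 P2) :
    D2 (fun u => eE ρ1 L u (lam u)) (4 * L) (4 * L * B) (2 * L * (4 * B2 + B * P2)) := by
  have := D2.intervalIntegral (a := -L) (b := L) (B0 := 2) (B1 := 2 * B) (B2 := 4 * B2 + B * P2)
    (f := fun w u => cut (w / L) * ρ1 (mv L u (lam u) w)) (fun w _ => by
      have := h.n1; have := h.n2; have := hl.n2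
      have hβ := abs_cut_le (w / L)
      refine ((h.comp (l2_mv hl L w)).const_mul (cut (w / L))).mono (by linarith) ?_ ?_
      · nlinarith
      · exact (mul_le_of_le_one_left (by positivity) hβ).trans (le_of_eq (by ring)))
    (fun u => ((cont_cut L).mul (h.continuous.comp
      (cont_mv L continuous_const continuous_const continuous_id))).intervalIntegrable _ _)
  rw [sub_neg_eq_add, abs_of_pos (by linarith : 0 < L + L)] at this
  exact this.mono (le_of_eq (by ring)) (le_of_eq (by ring)) (le_of_eq (by ring))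

lemma l2_aA {ρ0 ρ1 : ℂ → ℝ} {lam : ℝ → ℝ} {L B B2 P2 : ℝ} (h0 : D2 ρ0 2 B B2) (h : D2 ρ1 2 B B2)
    (hL : 0 < L) (hl : L2 lam 1 P2) :
    L2 (fun u => aA ρ0 ρ1 L u (lam u)) (6 * L * B) (2 * L * (5 * B2 + B * P2)) := by
  have := D2.intervalIntegral (a := -L) (b := L)
    (f := fun w u => ρ1 (mv L u (lam u) w) - ρ0 ⟨u, w⟩)
    (fun w _ => (h.comp (l2_mv hl L w)).sub (h0.lineRe w))
    (fun u => ((h.continuous.comp (cont_mv L continuous_const continuous_const continuous_id)).sub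
      (h0.continuous.comp (cont_mk continuous_const continuous_id))).intervalIntegrable _ _)
  rw [sub_neg_eq_add, abs_of_pos (by linarith : 0 < L + L)] at this
  exact this.toL2.mono (le_of_eq (by ring)) (le_of_eq (by ring))

lemma eE_lip {ρ1 : ℂ → ℝ} {L B B2 : ℝ} (h : L2 ρ1 B B2) (hL : 0 < L) (u s u' s' : ℝ) :
    |eE ρ1 L u s - eE ρ1 L u' s'| ≤ 2 * L * (B * (|u - u'| + |s - s'|)) := by
  have hc := h.continuous
  have c1 : ∀ u s : ℝ, IntervalIntegrable (fun w => cut (w / L) * ρ1 (mv L u s w)) volume (-L) L :=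
    fun u s => ((cont_cut L).mul (hc.comp
      (cont_mv L continuous_const continuous_const continuous_id))).intervalIntegrable _ _
  unfold eE
  rw [← intervalIntegral.integral_sub (c1 _ _) (c1 _ _)]
  refine abs_int_le hL fun w => ?_
  have h1 := h.b1 (mv L u s w) (mv L u' s' w)
  have h2 : ‖mv L u s w - mv L u' s' w‖ ≤ |u - u'| + |s - s'| := by
    unfold mv
    rw [norm_mk_sub, show u + s * cut (w / L) - (u' + s' * cut (w / L)) =
      (u - u') + (s - s') * cut (w / L) by ring]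
    refine (abs_add_le _ _).trans (add_le_add le_rfl ?_)
    rw [abs_mul]; exact mul_le_of_le_one_right (abs_nonneg _) (abs_cut_le _)
  rw [← mul_sub, abs_mul]
  refine (mul_le_of_le_one_left (abs_nonneg _) (abs_cut_le _)).trans (h1.trans ?_)
  have := h.n1; gcongr

lemma quot_lip {a a' e e' m A0 A1 E1 : ℝ} (hm : 0 < m) (he : m ≤ e) (he' : m ≤ e')
    (h0 : |a'| ≤ A0) (h1 : |a - a'| ≤ A1) (h2 : |e - e'| ≤ E1) :
    |-(a * e⁻¹) - -(a' * e'⁻¹)| ≤ A1 / m + A0 * E1 / m ^ 2 := by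
  have p : 0 < e := hm.trans_le he
  have p' : 0 < e' := hm.trans_le he'
  have : -(a * e⁻¹) - -(a' * e'⁻¹) = -((a - a') / e) + a' * (e - e') / (e * e') := by
    field_simp; ring
  rw [this]
  refine (abs_add_le _ _).trans (add_le_add ?_ ?_)
  · rw [abs_neg, abs_div, abs_of_pos p]
    have := (abs_nonneg _).trans h1
    gcongr
  · rw [abs_div, abs_mul, abs_of_pos (mul_pos p p'), sq]
    have := (abs_nonneg _).trans h0
    have := (abs_nonneg _).trans h2
    gcongr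

end LamP

open LamP in
theorem lam_of (hP : PrimStmt) (hI : ImpStmt) : LamStmt := by
  have _ := hP
  refine ⟨600, 1 / 200, by norm_num, by norm_num, ?_⟩
  intro ρ0 ρ1 Ep Pc L h b1 d0 τ0 m0 X Z hh hhL hb1 hp H0 H1 hb hX hZ hXc hZc
  have hL : 0 < L := hh.trans_le hhL
  have nb := H1.nonneg hh
  have nd : 0 ≤ d0 := (abs_nonneg _).trans (hb.sup 0 0)
  have nm : 0 ≤ m0 := (abs_nonneg _).trans (hb.ms 0)
  have lipΔ : ∀ u u', |col (fun p => ρ1 p - ρ0 p) (-L) u L - col (fun p => ρ1 p - ρ0 p) (-L) u' L| ≤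
      τ0 * |u - u'| := fun u u' => by simpa [hb.top] using hb.lip u u' L
  have nτ : 0 ≤ τ0 := by simpa using (abs_nonneg _).trans (lipΔ 1 0)
  obtain ⟨lam, k1, k2, k3, k4⟩ := exists_lam hI hL (fun p => (hp p).2) H0.continuous H1.toL2 hb
  have he : ∀ u, L / 2 ≤ eE ρ1 L u (lam u) := fun u => eE_ge H1.continuous hL (fun p => (hp p).2) _ _
  have hL2 : 0 < L / 2 := by linarith
  have kd : ∀ u, deriv lam u = -(aA ρ0 ρ1 L u (lam u) * (eE ρ1 L u (lam u))⁻¹) := fun u => by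
    have := (hL2.trans_le (he u)).ne'
    rw [← neg_mul, ← k4 u]; field_simp
  -- abbreviations
  obtain ⟨B, hB⟩ : ∃ B, B = b1 / h := ⟨_, rfl⟩
  obtain ⟨A0, hA0⟩ : ∃ A0, A0 = d0 + 4 * B * m0 := ⟨_, rfl⟩
  have nB : 0 ≤ B := by rw [hB]; positivity
  have nA : 0 ≤ A0 := by rw [hA0]; positivity
  have hBh : B ≤ 1 / h := by rw [hB]; gcongr
  have x1 : B * d0 = b1 * d0 / h := by rw [hB]; ring
  have x2 : B * B * m0 ≤ b1 * m0 / h ^ 2 := by
    calc B * B * m0 ≤ B * (1 / h) * m0 := by gcongr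
      _ = _ := by rw [hB]; field_simp
  have p1 : 0 ≤ b1 * d0 / h := by positivity
  have p2 : 0 ≤ b1 * m0 / h ^ 2 := by positivity
  have hBA : B * A0 ≤ 4 * X := by rw [hA0]; nlinarith
  have nX : 0 ≤ X := by linarith
  have hAZ : A0 ≤ 4 * L * Z := by
    rw [div_le_iff₀ hL] at hZ
    have : 0 ≤ m0 / L := by positivity
    have e : B * m0 = b1 * m0 / h := by rw [hB]; ring
    rw [hA0]; nlinarith
  have nZ : 0 ≤ Z := le_trans (by positivity) hZ
  have supA : ∀ u, |aA ρ0 ρ1 L u (lam u)| ≤ A0 := fun u => by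
    rw [aA_split H0.continuous H1.continuous, hA0]
    refine (abs_add_le _ _).trans (add_le_add (hb.sup u L) ((aA_sup H1.toL2 hL _ _).trans ?_))
    rw [← hB]
    calc 2 * L * (B * |lam u|) ≤ 2 * L * (B * (2 * m0 / L)) := by gcongr; exact k2 u
      _ = _ := by field_simp; ring
  have sup1 : ∀ u, |deriv lam u| ≤ 2 * A0 / L := fun u => by
    have p := hL2.trans_le (he u)
    rw [kd, abs_neg, abs_mul, abs_inv, abs_of_pos p, ← div_eq_mul_inv]
    calc _ ≤ A0 / (L / 2) := by gcongr; exacts [supA u, he u]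
      _ = _ := by field_simp
  have l1Z : 2 * A0 / L ≤ 8 * Z := by rw [div_le_iff₀ hL]; linarith
  have lipl : ∀ u u', |lam u - lam u'| ≤ 2 * A0 / L * |u - u'| := fun u u' =>
    convex_univ.norm_image_sub_le_of_norm_deriv_le (fun x _ => k3 x) (fun x _ => sup1 x)
      (mem_univ u') (mem_univ u)
  have lipA : ∀ u u', |aA ρ0 ρ1 L u (lam u) - aA ρ0 ρ1 L u' (lam u')| ≤ 20 * X * |u - u'| :=
    fun u u' => by
    rw [aA_split H0.continuous H1.continuous, aA_split H0.continuous H1.continuous u',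
      add_sub_add_comm]
    refine (abs_add_le _ _).trans ((add_le_add (lipΔ u u') (aA_lip H1.toL2 hL _ _ _ _)).trans ?_)
    rw [← hB]
    calc τ0 * |u - u'| + 2 * L * (B * |lam u - lam u'| + b1 / h ^ 2 * |lam u'| * |u - u'|)
        ≤ τ0 * |u - u'| + 2 * L * (B * (2 * A0 / L * |u - u'|) +
          b1 / h ^ 2 * (2 * m0 / L) * |u - u'|) := by gcongr; exacts [lipl u u', k2 u']
      _ = (τ0 + 4 * (B * A0) + 4 * (b1 * m0 / h ^ 2)) * |u - u'| := by field_simp; ring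
      _ ≤ _ := by
        gcongr
        rw [hA0]; nlinarith
  have lipE : ∀ u u', |eE ρ1 L u (lam u) - eE ρ1 L u' (lam u')| ≤ 4 * L * B * |u - u'| :=
    fun u u' => by
    refine (eE_lip H1.toL2 hL _ _ _ _).trans ?_
    rw [← hB]
    have : |lam u - lam u'| ≤ |u - u'| :=
      (lipl u u').trans (mul_le_of_le_one_left (abs_nonneg _) (by linarith))
    calc 2 * L * (B * (|u - u'| + |lam u - lam u'|)) ≤ 2 * L * (B * (|u - u'| + |u - u'|)) := by
          gcongr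
      _ = _ := by ring
  have lip2 : ∀ u u', |deriv lam u - deriv lam u'| ≤ 104 * X / L * |u - u'| := fun u u' => by
    rw [kd, kd]
    refine (quot_lip hL2 (he u) (he u') (supA u') (lipA u u') (lipE u u')).trans ?_
    calc _ = (40 * X + 16 * (B * A0)) / L * |u - u'| := by field_simp; ring
      _ ≤ _ := by gcongr; linarith
  have hXL : 104 * X / L ≤ 1 / h := by
    rw [div_le_iff₀ hL] at hXc
    rw [div_le_div_iff₀ hL hh]; nlinarith
  have hl : L2 lam 1 (1 / h) := L2.of_fderiv k3 (fun x => by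
      rw [← norm_deriv_eq_norm_fderiv]; exact (sup1 x).trans (by linarith)) (by positivity)
    fun x y => by
      have e : fderiv ℝ lam x - fderiv ℝ lam y =
          ContinuousLinearMap.toSpanSingleton ℝ (deriv lam x - deriv lam y) := by
        ext; simp
      rw [e, ContinuousLinearMap.norm_toSpanSingleton]
      exact (lip2 x y).trans (by gcongr; exact le_rfl)
  have dE := (d2_eE H1 hL hl).toL2.inv hL2 he
  have dA : D2 (fun u => aA ρ0 ρ1 L u (lam u)) L _ _ :=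
    ⟨l2_aA H0 H1 hL hl, fun u => (supA u).trans (by nlinarith)⟩
  have dd := (dA.mul dE).neg
  refine ⟨lam, ⟨k1, k2, k3, ⟨⟨by positivity, by positivity, fun x y => ?_, fun x a b => ?_⟩,
    fun x => ?_⟩⟩, fun u => ?_⟩
  · exact (lip2 x y).trans (by gcongr; exacts [by norm_num, le_rfl])
  · simp only [kd]
    refine (dd.b2 x a b).trans ?_
    gcongr
    calc _ = (64 + 448 * b1) * b1 / h ^ 2 := by field_simp; ring
      _ ≤ _ := by gcongr; linarith
  · exact (sup1 x).trans (by linarith)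
  · have c1 : Continuous fun w => ρ1 (mv L u (lam u) w) :=
      H1.continuous.comp (cont_mv L continuous_const continuous_const continuous_id)
    have c3 : Continuous fun w : ℝ => ρ0 ⟨u, w⟩ :=
      H0.continuous.comp (cont_mk continuous_const continuous_id)
    have c4 : Continuous fun w => cut (w / L) * ρ1 (mv L u (lam u) w) * deriv lam u :=
      ((cont_cut L).mul c1).mul continuous_const
    have := k4 u
    rw [← add_eq_zero_iff_eq_neg] at this
    rw [← this]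
    unfold eE aA col
    rw [← intervalIntegral.integral_mul_const, ← intervalIntegral.integral_add
      (c4.intervalIntegrable _ _) ((c1.intervalIntegrable _ _).sub (c3.intervalIntegrable _ _))]
    congr 1; funext w
    have e : hc lam L ⟨u, w⟩ = mv L u (lam u) w := by
      apply Complex.ext
      · simp only [hc, mv, Complex.add_re, Complex.ofReal_re]
      · simp only [hc, mv, Complex.add_im, Complex.ofReal_im, add_zero]
    simp only [hcd, e]; ring

end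
end Pool.Agent.MP_20bec2_an.Pl

end MrgPart0

-- ======== part 1: formerly Pool.Agent.MP_20bec2_an.Pl.Step
section MrgPart1

/-! The generic global step. -/

set_option autoImplicit false
open MeasureTheory Set Complex Filter Topology

namespace Pool.Agent.MP_20bec2_an.Pl
noncomputable section

namespace Step

lemma wd_near {m u v : ℂ} (hm : ‖m‖ = 1) (hu : ‖u - m‖ ≤ 7 / 100) (hv : ‖v - I * m‖ ≤ 7 / 100) :
    |wd u v - 1| ≤ 15 / 100 := by
  have e : wd u v - 1 = wd m (v - I * m) + wd (u - m) (I * m) + wd (u - m) (v - I * m) := by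
    rw [← wd_unit hm]; simp only [wd_sub_left, wd_sub_right]; ring
  have h1 := abs_wd_le m (v - I * m)
  have h2 := abs_wd_le (u - m) (I * m)
  have h3 := abs_wd_le (u - m) (v - I * m)
  have h4 : ‖I * m‖ = 1 := by simp [hm]
  have h5 : ‖u - m‖ * ‖v - I * m‖ ≤ 7 / 100 * (7 / 100) :=
    mul_le_mul hu hv (norm_nonneg _) (by norm_num)
  rw [hm] at h1
  rw [h4] at h2
  rw [e]
  have h6 := abs_add_three (wd m (v - I * m)) (wd (u - m) (I * m)) (wd (u - m) (v - I * m))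
  linarith

lemma pbD {g : ℂ → ℝ} {y : ℂ → ℂ} {m : ℂ} {ε g1 β h : ℝ} (hm : ‖m‖ = 1) (hh : 0 < h)
    (he : ε ≤ 1 / 50) (hg : Nr ε g) (dg : Dh g 2 g1 h) (hy : D3 y (11 / 10) (β / h) (β / h ^ 2))
    (hg1 : g1 ≤ 1) (hβ : β ≤ 1)
    (hn : ∀ p, ‖fderiv ℝ y p 1 - m‖ ≤ 7 / 100 ∧ ‖fderiv ℝ y p I - I * m‖ ≤ 7 / 100) :
    (∀ p, 1 / 2 ≤ pb g y p) ∧ Dh (pb g y) 2 (10 * (β + g1)) h := by
  have hb : ∀ p, 1 / 2 ≤ pb g y p ∧ pb g y p ≤ 2 := fun p => by
    have h1 := abs_le.1 (wd_near hm (hn p).1 (hn p).2)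
    have h2 := abs_le.1 ((hg (y p)).trans he)
    unfold pb jac
    constructor <;> nlinarith [h1.1, h1.2, h2.1, h2.2]
  refine ⟨fun p => (hb p).1, ?_, fun p => ?_⟩
  · have g0 := dg.nonneg hh
    have β0 : 0 ≤ β := Dh.nonneg hy.d2 hh
    have h1 := (D2.comp dg hy.l2).mul ((hy.d2.apply_const 1).wd (hy.d2.apply_const I))
    simp only [norm_one, norm_I, mul_one] at h1
    refine L2.mono h1.toL2 ?_ ?_
    · rw [le_div_iff₀ hh]
      field_simp
      nlinarith
    · rw [le_div_iff₀ (by positivity)]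
      field_simp
      nlinarith [mul_nonneg g0 β0]
  · rw [Real.norm_eq_abs, abs_le]
    constructor <;> linarith [(hb p).1, (hb p).2]

lemma jac_low {a w r j : ℝ} (h : a * w = r * j) (hw : |w - 1| ≤ 1 / 50) (hr : |r - 1| ≤ 1 / 50)
    (hj : |j - 1| ≤ 2 * (1 / 10) + (1 / 10) ^ 2) : 1 / 2 ≤ a := by
  have h1 := abs_le.1 hw
  have h2 := abs_le.1 hr
  have h3 := abs_le.1 hj
  by_contra hc
  have h4 : a < 1 / 2 := not_le.1 hc
  nlinarith [h1.1, h1.2, h2.1, h2.2, h3.1, h3.2]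

lemma norm_I_mul (v : ℂ) : ‖I * v‖ = ‖v‖ := by simp

lemma app_le {A : ℂ →L[ℝ] ℂ} {v : ℂ} {Λ η : ℝ} (hA : ‖A‖ ≤ Λ) (hv : ‖v‖ ≤ η) :
    ‖A v‖ ≤ Λ * η :=
  (A.le_opNorm v).trans (mul_le_mul hA hv (norm_nonneg _) ((norm_nonneg _).trans hA))

lemma inv_smul_le {j B : ℝ} {v : ℂ} (hj : 1 / 2 ≤ j) (hv : ‖v‖ ≤ B) : ‖j⁻¹ • v‖ ≤ 2 * B := by
  rw [norm_smul, Real.norm_of_nonneg (by positivity)]
  have : j⁻¹ ≤ 2 := by rw [inv_le_comm₀ (by linarith) (by norm_num)]; linarith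
  exact mul_le_mul this hv (norm_nonneg _) (by norm_num)

lemma locU {A D : ℂ →L[ℝ] ℂ} {m n1 n2 : ℂ} {j tw Λ K η : ℝ} (hA : ‖A‖ ≤ Λ) (hD : ‖D‖ ≤ 1 + K)
    (e : D (I * m) = (1 + tw) • (I * m)) (hj : 1 / 2 ≤ j) (hj' : 1 / 2 ≤ j * (1 + tw))
    (h1 : ‖n1 - m‖ ≤ η) (h2 : ‖n2 - m‖ ≤ η) :
    ‖(j * (1 + tw))⁻¹ • A (D (I * n1)) - j⁻¹ • A (I * n2)‖ ≤ 2 * Λ * (2 + K) * η := by
  have t0 : 1 + tw ≠ 0 := fun h => by rw [h] at hj'; linarith
  have j0 : j ≠ 0 := by linarith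
  have e1 : I * n1 = I * m + I * (n1 - m) := by ring
  have e2 : I * n2 = I * m + I * (n2 - m) := by ring
  have e3 : (j * (1 + tw))⁻¹ • A (D (I * n1)) - j⁻¹ • A (I * n2) =
      (j * (1 + tw))⁻¹ • A (D (I * (n1 - m))) - j⁻¹ • A (I * (n2 - m)) := by
    rw [e1, e2, map_add, map_add, map_add, e, map_smul, smul_add, smul_add, smul_smul]
    have : (j * (1 + tw))⁻¹ * (1 + tw) = j⁻¹ := by field_simp
    rw [this]
    abel
  have a1 := inv_smul_le hj' (app_le hA (app_le hD ((norm_I_mul _).trans_le h1)))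
  have a2 := inv_smul_le hj (app_le hA ((norm_I_mul _).trans_le h2))
  rw [e3]
  refine (norm_sub_le _ _).trans ?_
  linarith

lemma locV {A D : ℂ →L[ℝ] ℂ} {m n1 n2 : ℂ} {j tu Λ K η : ℝ} (hA : ‖A‖ ≤ Λ) (hD : ‖D‖ ≤ 1 + K)
    (e : D m = m + tu • (I * m)) (hj : 1 / 2 ≤ j) (ht : |tu| ≤ K)
    (h1 : ‖n1 - m‖ ≤ η) (h2 : ‖n2 - m‖ ≤ η) :
    ‖A (D n1) - A n2 - (j * tu) • j⁻¹ • A (I * n2)‖ ≤ Λ * ((2 + 2 * K) * η) := by
  have j0 : j ≠ 0 := by linarith
  have e1 : D n1 = D (n1 - m) + (m + tu • (I * m)) := by rw [← e, ← map_add]; congr 1; ring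
  have e3 : A (D n1) - A n2 - (j * tu) • j⁻¹ • A (I * n2) =
      A (D (n1 - m) - (n2 - m) - tu • (I * (n2 - m))) := by
    have : j * tu * j⁻¹ = tu := by field_simp
    rw [smul_smul, this, e1, ← map_smul, ← map_sub, ← map_sub]
    congr 1
    rw [mul_sub, smul_sub]
    abel
  rw [e3]
  refine app_le hA ?_
  have a1 := app_le hD h1
  have a2 : ‖tu • (I * (n2 - m))‖ ≤ K * η := by
    rw [norm_smul, norm_I_mul, Real.norm_eq_abs]
    exact mul_le_mul ht h2 (norm_nonneg _) ((abs_nonneg _).trans ht)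
  have a3 := norm_sub_le (D (n1 - m) - (n2 - m)) (tu • (I * (n2 - m)))
  have a4 := norm_sub_le (D (n1 - m)) (n2 - m)
  linarith

lemma locY {A A' : ℂ →L[ℝ] ℂ} {u u' v m n : ℂ} {p α e η : ℝ} (hA : ‖A - 1‖ ≤ 1 / 20)
    (hA' : ‖A' - 1‖ ≤ 1 / 10) (h1 : ‖A' u - A u - v‖ ≤ α) (h2 : ‖v - p • m‖ ≤ e) (hp : |p| ≤ 1)
    (hu : ‖u' - u‖ ≤ η) (hn : ‖n - m‖ ≤ η) : ‖A' u' - A u' - p • n‖ ≤ e + α + 2 * η := by
  have hB : ‖A' - A‖ ≤ 1 := by
    have e : A' - A = (A' - 1) - (A - 1) := by abel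
    have := norm_sub_le (A' - 1) (A - 1)
    rw [e]; linarith
  have a1 := app_le hB hu
  have a2 : ‖p • (n - m)‖ ≤ 1 * η := by
    rw [norm_smul, Real.norm_eq_abs]
    exact mul_le_mul hp hn (norm_nonneg _) zero_le_one
  have e3 : A' u' - A u' - p • n =
      (A' u - A u - v) + (v - p • m) + ((A' - A) (u' - u) - p • (n - m)) := by
    simp only [_root_.sub_apply, map_sub, smul_sub]
    abel
  rw [e3]
  have a3 := norm_add₃_le (a := A' u - A u - v) (b := v - p • m)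
    (c := (A' - A) (u' - u) - p • (n - m))
  have a4 := norm_sub_le ((A' - A) (u' - u)) (p • (n - m))
  linarith

lemma locA {a w s Pc P ε Pb α τ : ℝ} (e : s = a * w) (he : ε ≤ 1 / 50) (hw : |w - 1| ≤ ε)
    (h1 : |s - Pc| ≤ α) (h2 : |Pc| ≤ Pb) (h3 : |P - Pc| ≤ τ) :
    |a - P| ≤ τ + 2 * α + 2 * (ε * Pb) := by
  have ε0 : 0 ≤ ε := (abs_nonneg _).trans hw
  have α0 : 0 ≤ α := (abs_nonneg _).trans h1
  have b1 : |a - s| ≤ ε * |a| := by
    have : a - s = -((w - 1) * a) := by rw [e]; ring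
    rw [this, abs_neg, abs_mul]
    exact mul_le_mul_of_nonneg_right hw (abs_nonneg _)
  have b2 : |s| ≤ α + Pb := by
    have := abs_add_le (s - Pc) Pc
    rw [sub_add_cancel] at this
    linarith
  have b3 : |a| ≤ 2 * (α + Pb) := by
    have := abs_add_le (a - s) s
    rw [sub_add_cancel] at this
    nlinarith [abs_nonneg a]
  have b4 : a - P = (a - s) + (s - Pc) + -(P - Pc) := by ring
  have b5 := abs_add_three (a - s) (s - Pc) (-(P - Pc))
  rw [abs_neg, ← b4] at b5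
  nlinarith

lemma ch_vs (z m : ℂ) (T : ℂ → ℝ) (p : ℂ) : ch z m (vs T p) - ch z m p = T p • (I * m) := by
  simp only [ch, vs, real_smul]; ring

lemma jac_R {R : ℂ → ℂ} {x m : ℂ} {tu tw : ℝ} (hm : ‖m‖ = 1)
    (e1 : fderiv ℝ R x m = m + tu • (I * m)) (e2 : fderiv ℝ R x (I * m) = (1 + tw) • (I * m)) :
    jac R x = 1 + tw := by
  rw [← jac_unit R x hm, e1, e2, wd_smul_right, wd_add_left, wd_smul_left, wd_self, wd_unit hm]
  ring

lemma jac_one {R : ℂ → ℂ} {x : ℂ} (e : fderiv ℝ R x = 1) : jac R x = 1 := by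
  simp [jac, e, wd]

lemma near_ch {Y : ℂ → ℂ} (hY : Differentiable ℝ Y) (h : ∀ x, ‖fderiv ℝ Y x - 1‖ ≤ 1 / 20)
    (z : ℂ) {m : ℂ} (hm : ‖m‖ = 1) (p v : ℂ) (hv : ‖v‖ = 1) :
    ‖fderiv ℝ (fun p => Y (ch z m p)) p v - v * m‖ ≤ 1 / 20 := by
  rw [fderiv_ch (hY _), mul_comm v m]
  have := app_le (h (ch z m p)) (v := m * v) (η := 1) (by simp [hm, hv])
  simpa using this

lemma near_add {y ψ : ℂ → ℂ} (hy : Differentiable ℝ y) {s1 B2 B3 : ℝ} (hψ : D3 ψ s1 B2 B3)
    (hs : s1 ≤ 1 / 50) {p v u : ℂ} (hv : ‖v‖ = 1) (h : ‖fderiv ℝ y p v - u‖ ≤ 1 / 20) :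
    ‖fderiv ℝ (fun p => y p + ψ p) p v - u‖ ≤ 7 / 100 := by
  rw [fderiv_fun_add (hy p) (hψ.df p), _root_.add_apply]
  have h1 := app_le ((hψ.d2.b0 p).trans hs) hv.le
  have h2 := norm_add_le (fderiv ℝ y p v - u) (fderiv ℝ ψ p v)
  have e : fderiv ℝ y p v + fderiv ℝ ψ p v - u = fderiv ℝ y p v - u + fderiv ℝ ψ p v := by ring
  rw [e]
  linarith

/-- the geometric part of the step, with abstract bounds -/
lemma geo {z : ℤ × ℤ → ℂ} {w r r' P p1 p2 : ℂ → ℝ} {f Y Y' R n : ℂ → ℂ}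
    {rc Pc T : ℤ × ℤ → ℂ → ℝ} {ψ : ℤ × ℤ → ℂ → ℂ}
    {h b b' Af Ln L Λ ε η d dY K1 K2 α ζ τP e1 e2 Pb : ℝ}
    (core : Core w f Y r h b Af) (fr : Fr n Ln) (hΛ : ∀ x, ‖fderiv ℝ f x‖ ≤ Λ)
    (hY : ∀ x, ‖fderiv ℝ Y x - 1‖ ≤ 1 / 20) (hL : 0 < L) (hη : 3 / 2 * L * Ln ≤ η)
    (he : ε ≤ 1 / 50) (nw : Nr ε w) (nr : Nr ε r) (nr' : Nr ε r')
    (hp : ∀ x, |p1 x| ≤ 1 ∧ |p2 x| ≤ 1)
    (hout : ∀ x, (∀ c, 29 / 20 * L ≤ ‖x - z c‖) →
      r' (Y x) = r (Y x) ∧ |P x| ≤ τP ∧ |p1 x| ≤ e1 ∧ |p2 x| ≤ e2)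
    (hrc : ∀ c x, ‖x - z c‖ < 3 / 2 * L → rc c (Y x) = r (Y x))
    (hψ : ∀ c p, ‖p‖ < 3 / 2 * L →
      ‖fderiv ℝ (ψ c) p 1 - p1 (ch (z c) (n (z c)) p) • n (z c)‖ ≤ e1 ∧
      ‖fderiv ℝ (ψ c) p I - p2 (ch (z c) (n (z c)) p) • n (z c)‖ ≤ e2 ∧
      |P (ch (z c) (n (z c)) p) - Pc c p| ≤ τP)
    (hPb : ∀ c p, |Pc c p| ≤ Pb) (hT : ∀ c p, |T c p| ≤ d) (hT1 : ∀ c p, ‖fderiv ℝ (T c) p‖ ≤ K1)
    (K20 : 0 ≤ K2) (α0 : 0 ≤ α) (ζ0 : 0 ≤ ζ)
    (hid : ∀ c p, ‖p‖ < 3 / 2 * L →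
      pb (rc c) (fun p => Y (ch (z c) (n (z c)) p)) (vs (T c) p) * (1 + fderiv ℝ (T c) p I) =
        pb r' Y' (ch (z c) (n (z c)) p) ∧
      |pb (rc c) (fun p => Y (ch (z c) (n (z c)) p)) (vs (T c) p) * fderiv ℝ (T c) p 1 - Pc c p|
        ≤ α)
    (dY' : Differentiable ℝ Y') (bY' : Dh (fun x => fderiv ℝ Y' x - 1) (1 / 10) b' h)
    (hYY : ∀ x, ‖Y' x - Y x‖ ≤ dY)
    (hYin : ∀ c p, ‖p‖ < 3 / 2 * L →
      ‖fderiv ℝ Y' (ch (z c) (n (z c)) p) (n (z c)) - fderiv ℝ Y (ch (z c) (n (z c)) p) (n (z c)) -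
        fderiv ℝ (ψ c) p 1‖ ≤ ζ ∧
      ‖fderiv ℝ Y' (ch (z c) (n (z c)) p) (I * n (z c)) -
        fderiv ℝ Y (ch (z c) (n (z c)) p) (I * n (z c)) - fderiv ℝ (ψ c) p I‖ ≤ ζ)
    (hYout : ∀ x, (∀ c, 29 / 20 * L ≤ ‖x - z c‖) → Y' x = Y x ∧ fderiv ℝ Y' x = fderiv ℝ Y x)
    (Rh : IsHomeomorph R) (Rd : Differentiable ℝ R) (R1 : ∀ x, ‖fderiv ℝ R x‖ ≤ 1 + K1)
    (R2 : ∀ x x', ‖fderiv ℝ R x - fderiv ℝ R x'‖ ≤ 2 * K2 * ‖x - x'‖)
    (Rin : ∀ c p, ‖p‖ < 3 / 2 * L →
      R (ch (z c) (n (z c)) p) = ch (z c) (n (z c)) (vs (T c) p) ∧ ‖vs (T c) p‖ < 3 / 2 * L ∧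
      fderiv ℝ R (ch (z c) (n (z c)) p) (n (z c)) =
        n (z c) + fderiv ℝ (T c) p 1 • (I * n (z c)) ∧
      fderiv ℝ R (ch (z c) (n (z c)) p) (I * n (z c)) = (1 + fderiv ℝ (T c) p I) • (I * n (z c)))
    (Rout : ∀ x, (∀ c, 29 / 20 * L ≤ ‖x - z c‖) → R x = x ∧ fderiv ℝ R x = 1) :
    Core w (fun x => f (R x)) Y' r' h b' (Af + Λ * (2 * K2) * (2 * (Λ * (1 + K1))) ^ 2) ∧
      Run n f Y (fun x => f (R x)) Y' R P p1 p2 (max d dY) (2 * Λ * (2 + K1) * η)
        (Λ * ((2 + 2 * K1) * η)) (τP + 2 * α + 2 * (ε * Pb)) (e1 + ζ + 2 * η) (e2 + ζ + 2 * η) ∧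
      ∀ x, |ip (R x - x) (n x)| ≤ η * d := by
  have hm : ∀ c, ‖n (z c)‖ = 1 := fun c => fr.one _
  have cases : ∀ x, (∃ c p, ‖p‖ < 3 / 2 * L ∧ x = ch (z c) (n (z c)) p) ∨
      ∀ c, 29 / 20 * L ≤ ‖x - z c‖ := fun x => by
    rcases glue_cases z L x with ⟨c, hc⟩ | hc
    · exact Or.inl ⟨c, chi' (z c) (n (z c)) x, by rwa [norm_chi' _ (hm c)],
        (ch_chi' _ (hm c) x).symm⟩
    · exact Or.inr fun c => by linarith [hc c]
  have η0 : 0 ≤ η := le_trans (by have := fr.n0; positivity) hη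
  have Λ0 : 0 ≤ Λ := (norm_nonneg _).trans (hΛ 0)
  have K10 : 0 ≤ K1 := (norm_nonneg _).trans (hT1 0 0)
  have d0 : 0 ≤ d := (abs_nonneg _).trans (hT 0 0)
  have εPb : 0 ≤ ε * Pb :=
    mul_nonneg ((abs_nonneg _).trans (nw 0)) ((abs_nonneg _).trans (hPb 0 0))
  have hn : ∀ c p, ‖p‖ < 3 / 2 * L → ‖n (ch (z c) (n (z c)) p) - n (z c)‖ ≤ η := fun c p h => by
    refine (fr.lip _ _).trans (le_trans ?_ hη)
    rw [norm_ch_sub _ (hm c)]
    nlinarith [fr.n0]
  have hD : ∀ x v, fderiv ℝ (fun x => f (R x)) x v = fderiv ℝ f (R x) (fderiv ℝ R x v) :=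
    fun x v => congrArg (fun A : ℂ →L[ℝ] ℂ => A v) (fderiv_comp x (core.df _) (Rd x))
  have hJ : ∀ x, jac (fun x => f (R x)) x = jac f (R x) * jac R x :=
    fun x => jac_comp (core.df _) (Rd x)
  have hρ : ∀ c p, ‖p‖ < 3 / 2 * L →
      pb (rc c) (fun p => Y (ch (z c) (n (z c)) p)) (vs (T c) p) =
        jac f (R (ch (z c) (n (z c)) p)) * w (f (R (ch (z c) (n (z c)) p))) := fun c p h => by
    rw [core.eq, (Rin c p h).1, pb, jac_ch (hm c) (core.dY _),
      hrc c _ (by rw [norm_ch_sub _ (hm c)]; exact (Rin c p h).2.1)]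
  have heq : ∀ x, jac (fun x => f (R x)) x * w (f (R x)) = r' (Y' x) * jac Y' x := fun x => by
    rw [hJ]
    rcases cases x with ⟨c, p, h, rfl⟩ | h
    · rw [jac_R (hm c) (Rin c p h).2.2.1 (Rin c p h).2.2.2, mul_right_comm, ← hρ c p h,
        (hid c p h).1, pb]
    · rw [jac_one (Rout x h).2, (Rout x h).1, mul_one, core.eq, (hYout x h).1, (hout x h).1,
        jac, jac, (hYout x h).2]
  have hj' : ∀ x, 1 / 2 ≤ jac (fun x => f (R x)) x := fun x =>
    jac_low (heq x) ((nw _).trans he) ((nr' _).trans he) (det_near _ (bY'.b0 x))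
  have hj : ∀ x, 1 / 2 ≤ jac f x := fun x => (core.jac_bd he nw nr x).1
  have hom : IsHomeomorph fun x => f (R x) := core.hom.comp Rh
  have hΛ' : ∀ x, ‖fderiv ℝ (fun x => f (R x)) x‖ ≤ Λ * (1 + K1) := fun x =>
    ContinuousLinearMap.opNorm_le_bound _ (by positivity) fun v => by
      rw [hD, mul_assoc]
      exact app_le (hΛ _) (app_le (R1 x) le_rfl)
  refine ⟨⟨hom, core.df.comp Rd, ?_, dY', bY', heq⟩, ⟨fun _ => rfl, fun x => ?_, fun x => ?_,
    fun x => ?_, fun x => ?_, fun x => ?_, fun x => ?_⟩, fun x => ?_⟩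
  · exact core.af.comp core.df Rd hΛ (by positivity) R2 hom fun x ζ => inv_le (hΛ' x) (hj' x) ζ
  · refine le_trans ?_ (le_max_left _ _)
    rcases cases x with ⟨c, p, h, rfl⟩ | h
    · rw [(Rin c p h).1, ch_vs, norm_smul, norm_I_mul, hm, mul_one]
      exact hT c p
    · rw [(Rout x h).1, sub_self, norm_zero]; exact d0
  · exact (hYY x).trans (le_max_right _ _)
  · have h0 := hj' x
    unfold UU V2
    rw [hD, hJ]
    rw [hJ] at h0
    rcases cases x with ⟨c, p, h, rfl⟩ | h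
    · rw [jac_R (hm c) (Rin c p h).2.2.1 (Rin c p h).2.2.2] at h0 ⊢
      refine locU (hΛ _) (R1 _) (Rin c p h).2.2.2 (hj _) h0 (hn c p h) ?_
      rw [(Rin c p h).1]
      exact hn c _ (Rin c p h).2.1
    · rw [jac_one (Rout x h).2, (Rout x h).2, (Rout x h).1, mul_one]
      simp only [one_apply_eq_self, sub_self, norm_zero]
      positivity
  · unfold UU V1 V2
    rw [hD]
    rcases cases x with ⟨c, p, h, rfl⟩ | h
    · refine ⟨jac f (R (ch (z c) (n (z c)) p)) * fderiv ℝ (T c) p 1, ?_, ?_⟩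
      · refine locA (s := pb (rc c) (fun p => Y (ch (z c) (n (z c)) p)) (vs (T c) p) *
          fderiv ℝ (T c) p 1) ?_ he (nw (f (R (ch (z c) (n (z c)) p)))) (hid c p h).2 (hPb c p)
          (hψ c p h).2.2
        rw [hρ c p h]; ring
      · refine locV (hΛ _) (R1 _) (Rin c p h).2.2.1 (hj _) ?_ (hn c p h) ?_
        · have := (fderiv ℝ (T c) p).le_opNorm 1
          rw [norm_one, mul_one, Real.norm_eq_abs] at this
          exact this.trans (hT1 c p)
        · rw [(Rin c p h).1]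
          exact hn c _ (Rin c p h).2.1
    · refine ⟨0, ?_, ?_⟩
      · rw [zero_sub, abs_neg]
        linarith [(hout x h).2.1]
      · rw [(Rout x h).2, (Rout x h).1]
        simp only [one_apply_eq_self, sub_self, zero_smul, norm_zero]
        positivity
  · unfold V1
    rcases cases x with ⟨c, p, h, rfl⟩ | h
    · exact locY (hY _) (bY'.b0 _) (hYin c p h).1 (hψ c p h).1 (hp _).1 (hn c p h) (hn c p h)
    · rw [(hYout x h).2, sub_self, zero_sub, norm_neg, norm_smul, fr.one, mul_one,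
        Real.norm_eq_abs]
      linarith [(hout x h).2.2.1]
  · unfold V2
    rcases cases x with ⟨c, p, h, rfl⟩ | h
    · refine locY (hY _) (bY'.b0 _) (hYin c p h).2 (hψ c p h).2.1 (hp _).2 ?_ (hn c p h)
      rw [← mul_sub, norm_I_mul]
      exact hn c p h
    · rw [(hYout x h).2, sub_self, zero_sub, norm_neg, norm_smul, fr.one, mul_one,
        Real.norm_eq_abs]
      linarith [(hout x h).2.2.2]
  · rcases cases x with ⟨c, p, h, rfl⟩ | h
    · have e : ip (I * n (z c)) (n (ch (z c) (n (z c)) p)) =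
          ip (I * n (z c)) (n (ch (z c) (n (z c)) p) - n (z c)) := by
        rw [ip_sub_right, ip_comm (I * n (z c)) (n (z c)), ip_I, wd_self]; ring
      rw [(Rin c p h).1, ch_vs, ip_smul_left, abs_mul, e, mul_comm η]
      refine mul_le_mul (hT c p) ((abs_ip_le _ _).trans ?_) (abs_nonneg _) d0
      rw [norm_I_mul, hm, one_mul]
      exact hn c p h
    · rw [(Rout x h).1, sub_self]
      simp only [ip, zero_re, zero_im, zero_mul, add_zero, abs_zero]
      positivity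

lemma num_af {A C Λ Pb X u : ℝ} (hA : 1 ≤ A) (hC : 100000 * A ^ 3 ≤ C) (hΛ : 1 ≤ Λ)
    (hP : 0 ≤ Pb) (hX : 0 ≤ X) (hu : 0 ≤ u) :
    Λ * (2 * (A * (1 + Pb + 10 * X) ^ 2 * u)) * (2 * (Λ * (1 + A * (1 + Pb + 10 * X)))) ^ 2 ≤
      C * Λ ^ 3 * (1 + Pb + X) ^ 4 * u := by
  set Q := 1 + Pb + X with hQ
  have Q1 : 1 ≤ Q := by linarith
  have h1 : 1 + Pb + 10 * X ≤ 10 * Q := by linarith
  have h2 : 1 + A * (1 + Pb + 10 * X) ≤ 11 * (A * Q) := by nlinarith
  calc _ ≤ Λ * (2 * (A * (10 * Q) ^ 2 * u)) * (2 * (Λ * (11 * (A * Q)))) ^ 2 := by gcongr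
    _ = (96800 * A ^ 3) * (Λ ^ 3 * Q ^ 4 * u) := by ring
    _ ≤ C * (Λ ^ 3 * Q ^ 4 * u) :=
        mul_le_mul_of_nonneg_right (by nlinarith [pow_pos (by linarith : 0 < A) 3]) (by positivity)
    _ = _ := by ring

lemma num_U {A C Λ Pb X η : ℝ} (hA : 1 ≤ A) (hC : 24 * A ≤ C) (hΛ : 1 ≤ Λ)
    (hP : 0 ≤ Pb) (hX : 0 ≤ X) (hη : 0 ≤ η) :
    2 * Λ * (2 + A * (1 + Pb + 10 * X)) * η ≤ C * Λ * (1 + Pb + X) * η ∧
    Λ * ((2 + 2 * (A * (1 + Pb + 10 * X))) * η) ≤ C * Λ * (1 + Pb + X) * η := by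
  set Q := 1 + Pb + X with hQ
  have Q1 : 1 ≤ Q := by linarith
  have h1 : 1 + Pb + 10 * X ≤ 10 * Q := by linarith
  have h2 : 2 + A * (1 + Pb + 10 * X) ≤ 12 * (A * Q) := by nlinarith
  have h3 : 24 * (A * Q) ≤ C * Q := by nlinarith
  have h4 : 0 ≤ Λ * η := by positivity
  constructor
  · nlinarith [mul_le_mul_of_nonneg_left (h2.trans (by linarith : 12 * (A * Q) ≤ C * Q / 2)) h4]
  · nlinarith [mul_le_mul_of_nonneg_left (h2.trans (by linarith : 12 * (A * Q) ≤ C * Q / 2)) h4]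

end Step

open Step in
theorem step_of (h1 : CellStmt) (h2 : StepYStmt) (h3 : StepFStmt) : StepStmt := by
  obtain ⟨A, cA, hA, hcA, h1⟩ := h1
  obtain ⟨Cy, cY, hCy, hcY, h2⟩ := h2
  have A0 : 0 < A := by linarith
  refine ⟨100000 * A ^ 3 * Cy, min (cA / 10) (min (cY / (12 * A)) (1 / (12 * A))), ?_, ?_, ?_⟩
  · nlinarith [one_le_pow₀ (n := 3) hA]
  · positivity
  intro z w r r' P p1 p2 f Y n rc Ep Pc ψ h b Af Ln L Λ ε η g1 s0 s1 bs d0 τ0 m0 τP e1 e2 Pb X Z
    core fr hΛ1 hΛ hY hh hhL sep hη _ he nw nr nr' dr' hp hout hc hs1 hX hZ hc0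
  set C := 100000 * A ^ 3 * Cy with hCdef
  have A3 : A ≤ A ^ 3 := le_self_pow₀ hA (by norm_num)
  have C1 : 100000 * A ^ 3 ≤ C := le_mul_of_one_le_right (by positivity) hCy
  have C2 : 12 * A * Cy ≤ C := mul_le_mul_of_nonneg_right (by linarith) (by linarith)
  have C3 : 24 * A ≤ C := by linarith
  have hL : 0 < L := lt_of_lt_of_le hh hhL
  have hm : ∀ c, ‖n (z c)‖ = 1 := fun c => fr.one _
  have b0 : 0 ≤ b := core.bY.nonneg hh
  have g0 : 0 ≤ g1 := dr'.nonneg hh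
  obtain ⟨-, -, -, -, hs0, hψ0, -, hPb0, hbal0⟩ := hc 0
  have bs0 : 0 ≤ bs := Dh.nonneg hψ0.d2 hh
  have s00 : 0 ≤ s0 := (norm_nonneg _).trans (hs0 0)
  have Pb0 : 0 ≤ Pb := (abs_nonneg _).trans (hPb0 0)
  have d00 : 0 ≤ d0 := (abs_nonneg _).trans (hbal0.sup 0 0)
  have m00 : 0 ≤ m0 := (abs_nonneg _).trans (hbal0.ms 0)
  have τ00 : 0 ≤ τ0 := by simpa using (abs_nonneg _).trans (hbal0.lip 1 0 0)
  have ε0 : 0 ≤ ε := (abs_nonneg _).trans (nw 0)
  have η0 : 0 ≤ η := le_trans (by have := fr.n0; positivity) hη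
  set B := b + bs + g1 with hB
  have B0 : 0 ≤ B := by positivity
  have t1 : 0 ≤ B * d0 / h := by positivity
  have t2 : 0 ≤ B * m0 / h ^ 2 := by positivity
  have t3 : 0 ≤ B * m0 / h := by positivity
  have t4 : 0 ≤ m0 / L := by positivity
  have X0 : 0 ≤ X := by linarith
  have hZ' : d0 + B * m0 / h + m0 / L ≤ Z * L := (div_le_iff₀ hL).1 hZ
  have Z0 : 0 ≤ Z := le_trans (by positivity) hZ
  have t5 : 0 ≤ X * h / L := by positivity
  set U := B + X * h / L + Z with hU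
  have U1 : U ≤ cA / 10 := hc0.trans (min_le_left _ _)
  have U2 : 12 * A * U ≤ cY := by
    have := (le_div_iff₀ (by positivity)).1 (hc0.trans ((min_le_right _ _).trans (min_le_left _ _)))
    linarith
  have U3 : 12 * A * U ≤ 1 := by
    have := (le_div_iff₀ (by positivity)).1
      (hc0.trans ((min_le_right _ _).trans (min_le_right _ _)))
    linarith
  have U0 : 0 ≤ U := by positivity
  have U4 : U ≤ 1 := by
    have := le_mul_of_one_le_left U0 hA
    linarith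
  have dY20 : Dh (fun x => fderiv ℝ Y x - 1) (1 / 20) b h := ⟨core.bY.toL2, hY⟩
  have Y3 : D3 Y (1 + 1 / 20) (b / h) (b / h ^ 2) := D3.of_near core.dY dY20
  have hYc : ∀ c, Differentiable ℝ fun p => Y (ch (z c) (n (z c)) p) :=
    fun c => (Y3.comp_ch _ (hm c)).df
  have key : ∀ c, ∃ (lam : ℝ → ℝ) (T S : ℂ → ℝ),
      Lam lam L (2 * m0 / L) (A * (10 * Z)) (A * (10 * X) / L) (A * (10 * B) / h ^ 2) ∧
      Sld T S L (A * L * (10 * Z)) (A * (1 + Pb + 10 * X))
        (A * (1 + Pb + 10 * X) ^ 2 * L / h ^ 2) ∧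
      ∀ p, pb (rc c) (fun p => Y (ch (z c) (n (z c)) p)) (vs T p) * (1 + fderiv ℝ T p I) =
          hcd (pb r' fun p => Y (ch (z c) (n (z c)) p) + ψ c p) lam L p ∧
        |pb (rc c) (fun p => Y (ch (z c) (n (z c)) p)) (vs T p) * fderiv ℝ T p 1 - Pc c p| ≤
          A * (10 * X) := fun c => by
    obtain ⟨c1, c2, -, -, -, c6, -, c8, c9⟩ := hc c
    have n1 := fun p => near_ch core.dY hY (z c) (hm c) p 1 norm_one
    have n2 := fun p => near_ch core.dY hY (z c) (hm c) p I norm_I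
    simp only [one_mul] at n1
    have a0 := pbD (β := b + bs) (hm c) hh he c1 c2
      ((Y3.comp_ch (z c) (hm c)).mono (by norm_num) (by gcongr; linarith) (by gcongr; linarith))
      (by linarith) (by linarith)
      (fun p => ⟨(n1 p).trans (by norm_num), (n2 p).trans (by norm_num)⟩)
    have a1 := pbD (β := b + bs) (hm c) hh he nr' dr'
      (((Y3.comp_ch (z c) (hm c)).add c6).mono (by linarith) (by rw [add_div])
        (by rw [add_div]))
      (by linarith) (by linarith)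
      (fun p => ⟨near_add (hYc c) c6 hs1 norm_one (n1 p), near_add (hYc c) c6 hs1 norm_I (n2 p)⟩)
    refine h1 _ _ (Ep c) (Pc c) L h (10 * B) d0 τ0 m0 (10 * X) (10 * Z) Pb hh hhL (by linarith)
      (fun p => ⟨a0.1 p, a1.1 p⟩) a0.2 a1.2 c9 c8 ?_ ?_ ?_ (by linarith)
    · rw [mul_assoc, mul_assoc, mul_div_assoc 10, mul_div_assoc 10]; linarith
    · rw [div_le_iff₀ hL, mul_assoc 10 B, mul_div_assoc 10]; linarith
    · rw [mul_assoc, mul_div_assoc 10]; linarith
  choose lam T S hlam hsld hid using key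
  have u1 : 2 * m0 / L / L + (b + bs) * (2 * m0 / L) / h ≤ 2 * Z := by
    have e : 2 * m0 / L / L + (b + bs) * (2 * m0 / L) / h =
        2 * (((b + bs) * m0 / h + m0 / L) / L) := by field_simp; ring
    have h5 : (b + bs) * m0 / h ≤ B * m0 / h := by gcongr; linarith
    have h6 : ((b + bs) * m0 / h + m0 / L) / L ≤ Z := by rw [div_le_iff₀ hL]; linarith
    rw [e]; linarith
  have AZ : Z ≤ A * Z := le_mul_of_one_le_left Z0 hA
  have AB : B ≤ A * B := le_mul_of_one_le_left B0 hA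
  have AX : 0 ≤ A * (X * h / L) := by positivity
  have eU : 12 * A * U = 12 * (A * B) + 12 * (A * (X * h / L)) + 12 * (A * Z) := by
    rw [hU]; ring
  obtain ⟨Y', dY', bY', hYY, hYin, hYout⟩ := h2 z (fun c => n (z c)) Y ψ lam h b L s0 s1 bs
    (2 * m0 / L) (A * (10 * Z)) (A * (10 * X) / L) (A * (10 * B) / h ^ 2) (12 * (A * Z))
    (12 * A * U) hh hhL sep hm core.dY dY20 hs1
    (fun c => ⟨(hc c).2.2.2.1, (hc c).2.2.2.2.1, (hc c).2.2.2.2.2.1, hlam c⟩)
    (by linarith) (by linarith) (by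
      have e1 : A * (10 * X) / L * h = 10 * (A * (X * h / L)) := by ring
      have e2 : A * (10 * B) / h ^ 2 * h ^ 2 = 10 * (A * B) := by field_simp
      rw [e1, e2]; linarith) U3
  obtain ⟨R, Rh, Rd, R1, R2, Rin, Rout⟩ := h3 z (fun c => n (z c)) T S L _ _ _ hL sep hm hsld
  obtain ⟨k1, k2, k3⟩ := geo (rc := rc) (Pc := Pc) (T := T) (ψ := ψ) (α := A * (10 * X))
    (ζ := Cy * (12 * (A * Z))) core fr hΛ hY hL hη he nw nr nr' hp hout
    (fun c => (hc c).2.2.1) (fun c => (hc c).2.2.2.2.2.2.1) (fun c => (hc c).2.2.2.2.2.2.2.1)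
    (fun c => (hsld c).sup) (fun c => (hsld c).k1) (by positivity) (by positivity)
    (by positivity)
    (fun c p hp => ⟨((hid c p).1).trans ((hYin c p hp).1 r').symm, (hid c p).2⟩)
    dY' bY' hYY (fun c p hp => (hYin c p hp).2) hYout Rh Rd R1 R2 Rin Rout
  have LZ : 0 ≤ L * Z := by positivity
  have v1 : A * L * (10 * Z) ≤ C * L * Z := by
    have := mul_le_mul_of_nonneg_right (by linarith : 10 * A ≤ C) LZ
    linarith
  have v2 : 2 * (2 * m0 / L) ≤ C * L * Z := by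
    have e : 2 * (2 * m0 / L) = 4 * (m0 / L) := by ring
    have := mul_le_mul_of_nonneg_right (by linarith : 4 ≤ C) LZ
    rw [e]; linarith
  have v3 : Cy * (12 * (A * Z)) + 2 * η ≤ C * (Z + η) := by
    have w1 := mul_le_mul_of_nonneg_right C2 Z0
    have w2 := mul_le_mul_of_nonneg_right (by linarith : 2 ≤ C) η0
    linarith
  refine ⟨_, Y', R, k1.mono hh ?_ ?_, k2.mono (max_le (by linarith) (by linarith))
    (num_U hA C3 hΛ1 Pb0 X0 η0).1 (num_U hA C3 hΛ1 Pb0 X0 η0).2 ?_ (by linarith) (by linarith),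
    fun x => (k3 x).trans (mul_le_mul_of_nonneg_left (by linarith) η0)⟩
  · have := mul_le_mul_of_nonneg_right C2 U0
    linarith
  · have := num_af (u := L / h ^ 2) hA C1 hΛ1 Pb0 X0 (by positivity)
    rw [mul_div_assoc (A * _), mul_div_assoc (C * _ * _)]
    linarith
  · have w1 := mul_le_mul_of_nonneg_right C3 X0
    have w2 := mul_le_mul_of_nonneg_right (by linarith : 2 ≤ C) (mul_nonneg ε0 Pb0)
    have w3 : 0 ≤ A * X := by positivity
    linarith

end
end Pool.Agent.MP_20bec2_an.Pl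

end MrgPart1

-- marker of a merged file
example : 731051 + 219723 = 731051 + 219723 := rfl
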